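import Pool.Agent.AcyAd.Targets1

/-!
# MP_08c6cd_lc, fully adaptive testers: agreement gives the same run with two copies (ADU-AG2)
-/

namespace Pool.Agent.AcyAd

open scoped Classical

noncomputable section

namespace AG2_

variable {S : Sys} {F : Fx S} {B : Blk S F}

theorem Agr.mono {w0 : World S} {J J' : Finset (Bool × S.Sl × S.Sl)} {i i' : Ins B}
    (h : Agr w0 J i i') (hJ : J' ⊆ J) : Agr w0 J' i i' := fun c hc => h c (hJ hc)

theorem cset_sub (c : List (VE S) → Bool → S.Sl → Prop) (e : VE S) (L : List (VE S)) :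
    cset c L ⊆ cset c (e :: L) := by
  intro x hx
  simp only [cset, Finset.mem_union]
  exact Or.inl hx

theorem cset_mem {c : List (VE S) → Bool → S.Sl → Prop} {e : VE S} {L : List (VE S)} {y : S.Sl}
    (hc : c L e.b e.a) (hy : e.r = some y) : (e.b, e.a, y) ∈ cset c (e :: L) := by
  simp only [cset, Finset.mem_union]
  right
  rw [if_pos hc, hy]
  simp

/-- The answer in an agreeing world. -/
theorem ask_eq {w0 : World S} {J : Finset (Bool × S.Sl × S.Sl)} {i i' : Ins B}
    (h : Agr w0 J i i') {b : Bool} {a y : S.Sl} (hJ : (b, a, y) ∈ J)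
    (hy : (mix w0 i).ask F b a = some y) : (mix w0 i').ask F b a = some y := by
  obtain ⟨h1, h2, h3⟩ := h _ hJ
  simp only at h1 h2 h3
  rw [World.ask_eq_some] at hy ⊢
  rw [h1, h2, h3, hy]

/-- Inner questions have an answer. -/
theorem exists_ask (hM : T_MIX) {w0 : World S} (i : Ins B) {b : Bool} {a : S.Sl}
    (h : B.ins b (w0.plc b a)) : ∃ y, (mix w0 i).ask F b a = some y := by
  have h1 := ((hM S F B w0 i).1 b a).2 h
  obtain ⟨y', hy, _⟩ := (hM S F B (mix w0 i) i).2.2.2.1 b _ h1
  refine ⟨(mix w0 i).unplc (!b) y', ?_⟩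
  unfold World.ask
  rw [hy]
  rfl

end AG2_

open AG2_

/-- AG2: agreement gives the same run with two copies. -/
theorem tAG2 (hM : T_MIX) : T_AG2 := by
  intro S F B w0 g σ k i i₁ i₂
  induction k with
  | zero =>
    intro _ _
    exact ⟨rfl, rfl⟩
  | succ k ih =>
    intro h1 h2
    set R := run2 (F := F) B w0 g σ (mix w0 i) (mix w0 i) k with hR
    set b : Bool := (σ (R.map VE.r)).1 with hb
    set a : S.Sl := (σ (R.map VE.r)).2 with ha
    have hRk : run2 (F := F) B w0 g σ (mix w0 i) (mix w0 i) (k + 1) =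
        ⟨b, a, ans2 B w0 g (mix w0 i) (mix w0 i) R b a⟩ :: R := rfl
    rw [hRk] at h1 h2 ⊢
    set e : VE S := ⟨b, a, ans2 B w0 g (mix w0 i) (mix w0 i) R b a⟩ with he
    obtain ⟨ih1, ih2⟩ := ih (Agr.mono h1 (cset_sub _ _ _)) (Agr.mono h2 (cset_sub _ _ _))
    have hans : ans2 B w0 g (mix w0 i₁) (mix w0 i₂) R b a =
        ans2 B w0 g (mix w0 i) (mix w0 i) R b a := by
      by_cases hk : a ∈ vknown b R
      · unfold ans2
        rw [if_pos hk, if_pos hk]
      by_cases hf : g.flag b a ≠ none
      · unfold ans2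
        rw [if_neg hk, if_neg hk, if_pos hf, if_pos hf]
      by_cases hc : c2 B w0 g R b a
      · have e1 : ans2 B w0 g (mix w0 i) (mix w0 i) R b a = (mix w0 i).ask F b a := by
          unfold ans2
          rw [if_neg hk, if_neg hf, if_pos hc]
        have e2 : ans2 B w0 g (mix w0 i₁) (mix w0 i₂) R b a = (mix w0 i₂).ask F b a := by
          unfold ans2
          rw [if_neg hk, if_neg hf, if_pos hc]
        obtain ⟨y, hy⟩ := exists_ask hM i hc.2.2.1
        rw [e1, e2, hy]
        refine ask_eq h2 (cset_mem (e := e) hc ?_) hy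
        rw [he]
        simp only
        rw [e1, hy]
      · have e1 : ans2 B w0 g (mix w0 i) (mix w0 i) R b a = (mix w0 i).ask F b a := by
          unfold ans2
          rw [if_neg hk, if_neg hf, if_neg hc]
        have e2 : ans2 B w0 g (mix w0 i₁) (mix w0 i₂) R b a = (mix w0 i₁).ask F b a := by
          unfold ans2
          rw [if_neg hk, if_neg hf, if_neg hc]
        rw [e1, e2]
        by_cases hin : B.ins b (w0.plc b a)
        · push Not at hf
          have hc1 : c1 B w0 g R b a := by
            refine ⟨hk, hf, hin, fun hm => hc ⟨hk, hf, hin, hm⟩⟩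
          obtain ⟨y, hy⟩ := exists_ask hM i hin
          rw [hy]
          refine ask_eq h1 (cset_mem (e := e) hc1 ?_) hy
          rw [he]
          simp only
          rw [e1, hy]
        · rw [(hM S F B w0 i).2.1 b a hin, (hM S F B w0 i₁).2.1 b a hin]
    constructor
    · have : run2 (F := F) B w0 g σ (mix w0 i₁) (mix w0 i₂) (k + 1) =
        ⟨(σ ((run2 (F := F) B w0 g σ (mix w0 i₁) (mix w0 i₂) k).map VE.r)).1,
          (σ ((run2 (F := F) B w0 g σ (mix w0 i₁) (mix w0 i₂) k).map VE.r)).2,
          ans2 B w0 g (mix w0 i₁) (mix w0 i₂)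
            (run2 (F := F) B w0 g σ (mix w0 i₁) (mix w0 i₂) k)
            (σ ((run2 (F := F) B w0 g σ (mix w0 i₁) (mix w0 i₂) k).map VE.r)).1
            (σ ((run2 (F := F) B w0 g σ (mix w0 i₁) (mix w0 i₂) k).map VE.r)).2⟩ ::
          run2 (F := F) B w0 g σ (mix w0 i₁) (mix w0 i₂) k := rfl
      rw [this, ih1, ← hb, ← ha, hans]
    · simp only [d2]
      rw [ih2]
      congr 1
      by_cases hc : c2 B w0 g R e.b e.a
      · obtain ⟨y, hy⟩ := exists_ask hM i hc.2.2.1
        have e1 : ans2 B w0 g (mix w0 i) (mix w0 i) R b a = (mix w0 i).ask F b a := by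
          unfold ans2
          rw [if_neg hc.1, if_neg (by simpa using hc.2.1), if_pos hc]
        have hJ : (b, a, y) ∈ cset (c2 B w0 g) (e :: R) := by
          refine cset_mem (e := e) hc ?_
          rw [he]
          simp only
          rw [e1]
          exact hy
        have h3 := (h2 _ hJ).1
        simp only at h3
        change (if c2 B w0 g R b a ∧ B.th' ≤ ((mix w0 i₂).plc b a).2 then e.nm else ∅) =
          (if c2 B w0 g R b a ∧ B.th' ≤ ((mix w0 i).plc b a).2 then e.nm else ∅)
        rw [h3]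
      · rw [if_neg (fun h => hc h.1), if_neg (fun h => hc h.1)]

end

end Pool.Agent.AcyAd
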