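import Pool.Agent.AcyAd.Targets1

/-!
# MP_08c6cd_lc, job ADU-AGI: agreement in terms of the components
-/

namespace Pool.Agent.AcyAd

open scoped Classical

noncomputable section

namespace AGI_

variable {S : Sys} {F : Fx S} {B : Blk S F}

theorem plc_iff (hM : T_MIX) (w0 : World S) (i i' : Ins B) (b : Bool) (a : S.Sl)
    (hin : B.ins b (w0.plc b a)) :
    (mix w0 i').plc b a = (mix w0 i).plc b a ↔
      ∀ (h : w0.lam a.1 ∈ B.M) (h' : B.th ≤ (w0.rk b a.1 a.2).1),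
        i'.rho ⟨_, h⟩ = i.rho ⟨_, h⟩ ∧ i'.xi b a.1 ⟨_, h'⟩ = i.xi b a.1 ⟨_, h'⟩ := by
  obtain ⟨-, -, -, -, m5, m6, m7, -⟩ := hM S F B w0 i
  obtain ⟨-, -, -, -, -, m6', m7', -⟩ := hM S F B w0 i'
  constructor
  · intro e h h'
    rw [m7 b a h h', m7' b a h h'] at e
    have e1 := congrArg Prod.fst e
    have e2 := congrArg Prod.snd e
    exact ⟨Subtype.ext e1, Subtype.ext e2⟩
  · intro H
    by_cases h : w0.lam a.1 ∈ B.M
    · have h' := (m5 b a h).1 hin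
      obtain ⟨h1, h2⟩ := H h h'
      rw [m7 b a h h', m7' b a h h', h1, h2]
    · rw [m6 b a h, m6' b a h]

/-- the answered slot is inner -/
theorem ins_ans (hM : T_MIX) (w0 : World S) (i : Ins B) (b : Bool) (a a' : S.Sl)
    (hask : (mix w0 i).ask F b a = some a') (hin : B.ins b (w0.plc b a)) :
    B.ins b ((mix w0 i).plc b a) ∧ B.ins (!b) (w0.plc (!b) a') := by
  obtain ⟨m1, -⟩ := hM S F B w0 i
  obtain ⟨-, -, -, m4, -⟩ := hM S F B (mix w0 i) i
  have h1 := (m1 b a).2 hin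
  obtain ⟨y', h2, h3⟩ := m4 b _ h1
  rw [World.ask_eq_some] at hask
  rw [hask] at h2
  have h4 := Option.some.inj h2
  subst h4
  exact ⟨h1, (m1 (!b) a').1 h3⟩

theorem mt_iff (hM : T_MIX) (w0 : World S) (i i' : Ins B) (b : Bool) (a a' : S.Sl)
    (hask : (mix w0 i).ask F b a = some a') (hin : B.ins b (w0.plc b a)) :
    (mix w0 i').mt F b ((mix w0 i).plc b a) = (mix w0 i).mt F b ((mix w0 i).plc b a) ↔
      ∀ κ ∈ B.KP, ∀ y : S.Cl true κ, ((b = true ∧ (mix w0 i).plc true a = y.1) ∨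
        (b = false ∧ (mix w0 i).plc true a' = y.1)) → i'.mu κ y = i.mu κ y := by
  obtain ⟨-, -, -, -, -, -, -, m8⟩ := hM S F B w0 i
  obtain ⟨-, -, -, -, -, -, -, m8'⟩ := hM S F B w0 i'
  have hin' := (ins_ans hM w0 i b a a' hask hin).1
  rw [World.ask_eq_some] at hask
  cases b
  · constructor
    · rintro e κ hκ y (⟨h, _⟩ | ⟨_, h⟩)
      · cases h
      · have hask' : (mix w0 i).mt F false ((mix w0 i).plc false a) = some y.1 := by
          rw [hask]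
          exact congrArg some h
        have hc := (mix w0 i).mt_cc hask'
        have hc' : S.cc false ((mix w0 i).plc false a) = some κ := by
          rw [← hc]
          exact y.2
        have e1 := hask'
        rw [World.mt_false _ hc'] at e1
        have e2 := e.trans hask'
        rw [World.mt_false _ hc'] at e2
        rw [m8 κ hκ] at e1
        rw [m8' κ hκ] at e2
        have e3 : (i.mu κ).symm ⟨_, hc'⟩ = y := Subtype.ext (Option.some.inj e1)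
        have e4 : (i'.mu κ).symm ⟨_, hc'⟩ = y := Subtype.ext (Option.some.inj e2)
        rw [Equiv.symm_apply_eq] at e3 e4
        rw [← e3, ← e4]
    · intro H
      rcases hin' with ⟨κ, hκ, hc⟩ | ⟨_, hf⟩
      · have e1 := hask
        rw [World.mt_false _ hc, m8 κ hκ] at e1
        have h1 := H κ hκ ((i.mu κ).symm ⟨_, hc⟩) (Or.inr ⟨rfl, (Option.some.inj e1).symm⟩)
        rw [Equiv.apply_symm_apply] at h1
        rw [World.mt_false _ hc, World.mt_false _ hc, m8 κ hκ, m8' κ hκ]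
        have h2 : (i'.mu κ).symm ⟨_, hc⟩ = (i.mu κ).symm ⟨_, hc⟩ := by
          rw [Equiv.symm_apply_eq, h1]
        rw [h2]
      · rw [World.mt_none _ (F.cc_none hf), World.mt_none _ (F.cc_none hf)]
  · constructor
    · rintro e κ hκ y (⟨_, h⟩ | ⟨h, _⟩)
      · have hc : S.cc true ((mix w0 i).plc true a) = some κ := by
          rw [h]
          exact y.2
        rw [World.mt_true _ hc, World.mt_true _ hc, m8 κ hκ, m8' κ hκ] at e
        have h1 : y = ⟨_, hc⟩ := Subtype.ext h.symm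
        rw [h1]
        exact Subtype.ext (Option.some.inj e)
      · cases h
    · intro H
      rcases hin' with ⟨κ, hκ, hc⟩ | ⟨_, hf⟩
      · have h1 := H κ hκ ⟨_, hc⟩ (Or.inl ⟨rfl, rfl⟩)
        rw [World.mt_true _ hc, World.mt_true _ hc, m8 κ hκ, m8' κ hκ, h1]
      · rw [World.mt_none _ (F.cc_none hf), World.mt_none _ (F.cc_none hf)]

theorem mem_aU {w0 : World S} {J : Finset (Bool × S.Sl × S.Sl)} {x : {x : S.V // x ∈ B.M}} :
    x ∈ aU B w0 J ↔ ∃ c ∈ J, w0.lam c.2.1.1 = x.1 ∨ w0.lam c.2.2.1 = x.1 := by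
  unfold aU
  rw [Finset.mem_filter]
  exact and_iff_right (Finset.mem_univ _)

theorem mem_aX {w0 : World S} {J : Finset (Bool × S.Sl × S.Sl)} {b : Bool} {v : S.V}
    {r : {r : Fin S.D // B.th ≤ r.1}} :
    r ∈ aX B w0 J b v ↔ w0.lam v ∈ B.M ∧ ∃ c ∈ J,
      (c.1 = b ∧ c.2.1.1 = v ∧ w0.rk b v c.2.1.2 = r.1) ∨
      (c.1 ≠ b ∧ c.2.2.1 = v ∧ w0.rk b v c.2.2.2 = r.1) := by
  unfold aX
  rw [Finset.mem_filter]
  exact and_iff_right (Finset.mem_univ _)

theorem mem_aY {w0 : World S} {J : Finset (Bool × S.Sl × S.Sl)} {i : Ins B} {κ : S.K}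
    {y : S.Cl true κ} :
    y ∈ aY w0 J i κ ↔ κ ∈ B.KP ∧ ∃ c ∈ J,
      (c.1 = true ∧ (mix w0 i).plc true c.2.1 = y.1) ∨
      (c.1 = false ∧ (mix w0 i).plc true c.2.2 = y.1) := by
  unfold aY
  rw [Finset.mem_filter]
  exact and_iff_right (Finset.mem_univ _)

theorem not_eq {b b' : Bool} (h : b ≠ b') : b' = !b := by
  cases b <;> cases b' <;> simp_all

section

variable (hM : T_MIX) (w0 : World S) (J : Finset (Bool × S.Sl × S.Sl)) (i i' : Ins B)
  (hJ : ∀ c ∈ J, (mix w0 i).ask F c.1 c.2.1 = some c.2.2 ∧ B.ins c.1 (w0.plc c.1 c.2.1))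

include hM hJ

theorem fU (h : Agr w0 J i i') (x : {x : S.V // x ∈ B.M}) (hx : x ∈ aU B w0 J) :
    i'.rho x = i.rho x := by
  have m5 := (hM S F B w0 i).2.2.2.2.1
  rw [mem_aU] at hx
  obtain ⟨⟨b, a, a'⟩, hc, hx⟩ := hx
  obtain ⟨hask, hin⟩ := hJ _ hc
  obtain ⟨h1, h2, h3⟩ := h _ hc
  simp only at hx hask hin h1 h2 h3
  rcases hx with hx | hx
  · have k1 : w0.lam a.1 ∈ B.M := by rw [hx]; exact x.2
    have k2 := (m5 b a k1).1 hin
    have k3 := ((plc_iff hM w0 i i' b a hin).1 h1 k1 k2).1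
    have k4 : x = ⟨_, k1⟩ := Subtype.ext hx.symm
    rw [k4]
    exact k3
  · have hin' := (ins_ans hM w0 i b a a' hask hin).2
    have k1 : w0.lam a'.1 ∈ B.M := by rw [hx]; exact x.2
    have k2 := (m5 (!b) a' k1).1 hin'
    have k3 := ((plc_iff hM w0 i i' (!b) a' hin').1 h2 k1 k2).1
    have k4 : x = ⟨_, k1⟩ := Subtype.ext hx.symm
    rw [k4]
    exact k3

theorem fX (h : Agr w0 J i i') (b : Bool) (v : S.V) (r : {r : Fin S.D // B.th ≤ r.1})
    (hr : r ∈ aX B w0 J b v) : i'.xi b v r = i.xi b v r := by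
  have m5 := (hM S F B w0 i).2.2.2.2.1
  rw [mem_aX] at hr
  obtain ⟨hv, ⟨b', a, a'⟩, hc, hr⟩ := hr
  obtain ⟨hask, hin⟩ := hJ _ hc
  obtain ⟨h1, h2, h3⟩ := h _ hc
  simp only at hr hask hin h1 h2 h3
  rcases hr with ⟨hb, hv', hr⟩ | ⟨hb, hv', hr⟩
  · subst hb
    subst hv'
    have k2 := (m5 _ a hv).1 hin
    have k3 := ((plc_iff hM w0 i i' _ a hin).1 h1 hv k2).2
    have k4 : r = ⟨_, k2⟩ := Subtype.ext hr.symm
    rw [k4]
    exact k3
  · have hb' := not_eq hb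
    subst hb'
    subst hv'
    have hin' := (ins_ans hM w0 i b' a a' hask hin).2
    have k2 := (m5 _ a' hv).1 hin'
    have k3 := ((plc_iff hM w0 i i' _ a' hin').1 h2 hv k2).2
    have k4 : r = ⟨_, k2⟩ := Subtype.ext hr.symm
    rw [k4]
    exact k3

theorem fY (h : Agr w0 J i i') (κ : S.K) (y : S.Cl true κ)
    (hy : y ∈ aY w0 J i κ) : i'.mu κ y = i.mu κ y := by
  rw [mem_aY] at hy
  obtain ⟨hκ, c, hc, hy⟩ := hy
  exact (mt_iff hM w0 i i' c.1 c.2.1 c.2.2 (hJ c hc).1 (hJ c hc).2).1 (h c hc).2.2 κ hκ y hy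

theorem bwd (hU : ∀ x ∈ aU B w0 J, i'.rho x = i.rho x)
    (hX : ∀ b v, ∀ r ∈ aX B w0 J b v, i'.xi b v r = i.xi b v r)
    (hY : ∀ κ, ∀ y ∈ aY w0 J i κ, i'.mu κ y = i.mu κ y) : Agr w0 J i i' := by
  rintro ⟨b, a, a'⟩ hc
  obtain ⟨hask, hin⟩ := hJ _ hc
  simp only at hask hin ⊢
  have hin' := (ins_ans hM w0 i b a a' hask hin).2
  refine ⟨?_, ?_, ?_⟩
  · rw [plc_iff hM w0 i i' b a hin]
    intro h1 h2
    refine ⟨hU _ ?_, hX _ _ _ ?_⟩
    · rw [mem_aU]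
      exact ⟨_, hc, Or.inl rfl⟩
    · rw [mem_aX]
      exact ⟨h1, _, hc, Or.inl ⟨rfl, rfl, rfl⟩⟩
  · rw [plc_iff hM w0 i i' (!b) a' hin']
    intro h1 h2
    refine ⟨hU _ ?_, hX _ _ _ ?_⟩
    · rw [mem_aU]
      exact ⟨_, hc, Or.inr rfl⟩
    · rw [mem_aX]
      exact ⟨h1, _, hc, Or.inr ⟨by cases b <;> simp, rfl, rfl⟩⟩
  · rw [mt_iff hM w0 i i' b a a' hask hin]
    intro κ hκ y hy
    apply hY
    rw [mem_aY]
    exact ⟨hκ, _, hc, hy⟩

end

end AGI_

open AGI_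

/-- **ADU-AGI** -/
theorem tAGI (hM : T_MIX) : T_AGI := by
  intro S F B w0 J i i' hJ
  constructor
  · intro h
    exact ⟨fU hM w0 J i i' hJ h, fX hM w0 J i i' hJ h, fY hM w0 J i i' hJ h⟩
  · rintro ⟨hU, hX, hY⟩
    exact bwd hM w0 J i i' hJ hU hX hY

end

end Pool.Agent.AcyAd
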