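import Pool.Agent.AcyAd.Targets1

/-!
# MP_08c6cd_lc, ADU-AGR: correlation inequality for agreement
-/

namespace Pool.Agent.AcyAd

open scoped Classical

noncomputable section

namespace AGR_

variable {S : Sys} {F : Fx S} {B : Blk S F}

theorem plc_inj (w : World S) (b : Bool) {a a' : S.Sl} (h : w.plc b a = w.plc b a') : a = a' := by
  obtain ⟨v, r⟩ := a
  obtain ⟨v', r'⟩ := a'
  unfold World.plc at h
  simp only [Prod.mk.injEq, EmbeddingLike.apply_eq_iff_eq] at h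
  obtain ⟨rfl, h2⟩ := h
  rw [(w.rk b v).injective h2]

/-- disjoint names -/
def Dj (J₁ J₂ : Finset (Bool × S.Sl × S.Sl)) : Prop :=
  ∀ c ∈ J₁, ∀ c' ∈ J₂, c.2.1.1 ≠ c'.2.1.1 ∧ c.2.1.1 ≠ c'.2.2.1 ∧ c.2.2.1 ≠ c'.2.1.1 ∧
    c.2.2.1 ≠ c'.2.2.1

theorem aU_union (w0 : World S) (J₁ J₂ : Finset (Bool × S.Sl × S.Sl)) :
    aU B w0 (J₁ ∪ J₂) = aU B w0 J₁ ∪ aU B w0 J₂ := by
  ext x
  simp only [aU, Finset.mem_filter, Finset.mem_univ, true_and, Finset.mem_union]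
  constructor
  · rintro ⟨c, hc | hc, h⟩
    · exact Or.inl ⟨c, hc, h⟩
    · exact Or.inr ⟨c, hc, h⟩
  · rintro (⟨c, hc, h⟩ | ⟨c, hc, h⟩)
    · exact ⟨c, Or.inl hc, h⟩
    · exact ⟨c, Or.inr hc, h⟩

theorem aU_disj (w0 : World S) {J₁ J₂ : Finset (Bool × S.Sl × S.Sl)} (h : Dj J₁ J₂) :
    Disjoint (aU B w0 J₁) (aU B w0 J₂) := by
  rw [Finset.disjoint_left]
  intro x hx hx'
  simp only [aU, Finset.mem_filter, Finset.mem_univ, true_and] at hx hx'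
  obtain ⟨c, hc, h1⟩ := hx
  obtain ⟨c', hc', h2⟩ := hx'
  obtain ⟨n1, n2, n3, n4⟩ := h c hc c' hc'
  rcases h1 with h1 | h1 <;> rcases h2 with h2 | h2
  · exact n1 (w0.lam.injective (h1.trans h2.symm))
  · exact n2 (w0.lam.injective (h1.trans h2.symm))
  · exact n3 (w0.lam.injective (h1.trans h2.symm))
  · exact n4 (w0.lam.injective (h1.trans h2.symm))

theorem aX_union (w0 : World S) (J₁ J₂ : Finset (Bool × S.Sl × S.Sl)) (b : Bool) (v : S.V) :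
    aX B w0 (J₁ ∪ J₂) b v = aX B w0 J₁ b v ∪ aX B w0 J₂ b v := by
  ext r
  simp only [aX, Finset.mem_filter, Finset.mem_univ, true_and, Finset.mem_union]
  constructor
  · rintro ⟨h0, c, hc | hc, h⟩
    · exact Or.inl ⟨h0, c, hc, h⟩
    · exact Or.inr ⟨h0, c, hc, h⟩
  · rintro (⟨h0, c, hc, h⟩ | ⟨h0, c, hc, h⟩)
    · exact ⟨h0, c, Or.inl hc, h⟩
    · exact ⟨h0, c, Or.inr hc, h⟩

theorem aX_empty (w0 : World S) {J₁ J₂ : Finset (Bool × S.Sl × S.Sl)} (h : Dj J₁ J₂) (b : Bool)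
    (v : S.V) : aX B w0 J₁ b v = ∅ ∨ aX B w0 J₂ b v = ∅ := by
  by_contra hcon
  push Not at hcon
  obtain ⟨⟨r, hr⟩, ⟨r', hr'⟩⟩ := hcon
  simp only [aX, Finset.mem_filter, Finset.mem_univ, true_and] at hr hr'
  obtain ⟨-, c, hc, h1⟩ := hr
  obtain ⟨-, c', hc', h2⟩ := hr'
  obtain ⟨n1, n2, n3, n4⟩ := h c hc c' hc'
  rcases h1 with ⟨-, h1, -⟩ | ⟨-, h1, -⟩ <;> rcases h2 with ⟨-, h2, -⟩ | ⟨-, h2, -⟩
  · exact n1 (h1.trans h2.symm)
  · exact n2 (h1.trans h2.symm)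
  · exact n3 (h1.trans h2.symm)
  · exact n4 (h1.trans h2.symm)

theorem aY_union (w0 : World S) (J₁ J₂ : Finset (Bool × S.Sl × S.Sl)) (i : Ins B) (κ : S.K) :
    aY w0 (J₁ ∪ J₂) i κ = aY w0 J₁ i κ ∪ aY w0 J₂ i κ := by
  ext y
  simp only [aY, Finset.mem_filter, Finset.mem_univ, true_and, Finset.mem_union]
  constructor
  · rintro ⟨h0, c, hc | hc, h⟩
    · exact Or.inl ⟨h0, c, hc, h⟩
    · exact Or.inr ⟨h0, c, hc, h⟩
  · rintro (⟨h0, c, hc, h⟩ | ⟨h0, c, hc, h⟩)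
    · exact ⟨h0, c, Or.inl hc, h⟩
    · exact ⟨h0, c, Or.inr hc, h⟩

theorem aY_disj (w0 : World S) {J₁ J₂ : Finset (Bool × S.Sl × S.Sl)} (h : Dj J₁ J₂) (i : Ins B)
    (κ : S.K) : Disjoint (aY w0 J₁ i κ) (aY w0 J₂ i κ) := by
  rw [Finset.disjoint_left]
  intro y hy hy'
  simp only [aY, Finset.mem_filter, Finset.mem_univ, true_and] at hy hy'
  obtain ⟨-, c, hc, h1⟩ := hy
  obtain ⟨-, c', hc', h2⟩ := hy'
  obtain ⟨n1, n2, n3, n4⟩ := h c hc c' hc'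
  rcases h1 with ⟨-, h1⟩ | ⟨-, h1⟩ <;> rcases h2 with ⟨-, h2⟩ | ⟨-, h2⟩
  · exact n1 (congrArg Prod.fst (plc_inj _ true (h1.trans h2.symm)))
  · exact n2 (congrArg Prod.fst (plc_inj _ true (h1.trans h2.symm)))
  · exact n3 (congrArg Prod.fst (plc_inj _ true (h1.trans h2.symm)))
  · exact n4 (congrArg Prod.fst (plc_inj _ true (h1.trans h2.symm)))

theorem aY_card (w0 : World S) (J : Finset (Bool × S.Sl × S.Sl)) (i : Ins B) :
    ∑ κ, (aY w0 J i κ).card ≤ J.card := by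
  rw [← Finset.card_sigma]
  have hex : ∀ p : (Σ κ, S.Cl true κ), p ∈ Finset.univ.sigma (fun κ => aY w0 J i κ) →
      ∃ c ∈ J, (c.1 = true ∧ (mix w0 i).plc true c.2.1 = p.2.1) ∨
        (c.1 = false ∧ (mix w0 i).plc true c.2.2 = p.2.1) := by
    intro p hp
    rw [Finset.mem_sigma] at hp
    have h2 := hp.2
    simp only [aY, Finset.mem_filter, Finset.mem_univ, true_and] at h2
    exact h2.2
  refine Finset.card_le_card_of_injOn
    (fun p => if h : p ∈ Finset.univ.sigma (fun κ => aY w0 J i κ) then (hex p h).choose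
      else (true, ((mix w0 i).unplc true p.2.1, (mix w0 i).unplc true p.2.1))) ?_ ?_
  · intro p hp
    rw [Finset.mem_coe] at hp ⊢
    simp only [dif_pos hp]
    exact (hex p hp).choose_spec.1
  · intro p hp q hq hpq
    rw [Finset.mem_coe] at hp hq
    simp only [dif_pos hp, dif_pos hq] at hpq
    have h1 := (hex p hp).choose_spec.2
    have h2 := (hex q hq).choose_spec.2
    rw [hpq] at h1
    have h3 : p.2.1 = q.2.1 := by
      rcases h1 with ⟨a1, h1⟩ | ⟨a1, h1⟩ <;> rcases h2 with ⟨a2, h2⟩ | ⟨a2, h2⟩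
      · exact h1.symm.trans h2
      · rw [a1] at a2
        cases a2
      · rw [a1] at a2
        cases a2
      · exact h1.symm.trans h2
    obtain ⟨κ, y, hy⟩ := p
    obtain ⟨κ', y', hy'⟩ := q
    have h3' : y = y' := h3
    subst h3'
    have h4 : κ = κ' := by
      rw [hy] at hy'
      exact Option.some.inj hy'
    subst h4
    rfl

/-- the three factors -/
def fA (B : Blk S F) (w0 : World S) (J : Finset (Bool × S.Sl × S.Sl)) : ℕ :=
  (B.M.card - (aU B w0 J).card).factorial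

/-- the second factor -/
def fP (B : Blk S F) (w0 : World S) (J : Finset (Bool × S.Sl × S.Sl)) : ℕ :=
  ∏ b, ∏ v, (S.D - B.th - (aX B w0 J b v).card).factorial

/-- the third factor -/
def fQ (B : Blk S F) (w0 : World S) (i : Ins B) (J : Finset (Bool × S.Sl × S.Sl)) : ℕ :=
  ∏ κ, (S.N κ - (aY w0 J i κ).card).factorial

theorem card_agr (h1 : T_AGI) (h2 : T_CNT) (w0 : World S) (i : Ins B)
    (J : Finset (Bool × S.Sl × S.Sl))
    (hJ : ∀ c ∈ J, (mix w0 i).ask F c.1 c.2.1 = some c.2.2 ∧ B.ins c.1 (w0.plc c.1 c.2.1)) :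
    Nat.card {i' : Ins B // Agr w0 J i i'} = fA B w0 J * fP B w0 J * fQ B w0 i J := by
  have h3 := h2 S F B i (aU B w0 J) (fun b v => aX B w0 J b v) (fun κ => aY w0 J i κ)
  unfold fA fP fQ
  rw [← h3]
  exact Nat.card_congr (Equiv.subtypeEquivRight fun i' => h1 S F B w0 J i i' hJ)

theorem card_all (h1 : T_AGI) (h2 : T_CNT) (w0 : World S) (i : Ins B) :
    Nat.card (Ins B) = fA B w0 ∅ * fP B w0 ∅ * fQ B w0 i ∅ := by
  rw [← card_agr h1 h2 w0 i ∅ (by simp)]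
  refine Nat.card_congr (Equiv.subtypeUnivEquiv ?_).symm
  intro i' c hc
  simp at hc

theorem fA_le (h3 : T_FAC) (w0 : World S) {J₁ J₂ : Finset (Bool × S.Sl × S.Sl)} (h : Dj J₁ J₂)
    (θ : ℝ) (h0 : 0 ≤ θ) (h4 : θ ≤ 1 / 4) (hU : ((aU B w0 (J₁ ∪ J₂)).card : ℝ) ≤ θ * B.M.card) :
    (fA B w0 (J₁ ∪ J₂) * fA B w0 ∅ : ℝ) ≤
      Real.exp (2 * θ * (aU B w0 J₂).card) * (fA B w0 J₁ * fA B w0 J₂) := by
  have h5 : (aU B w0 (J₁ ∪ J₂)).card = (aU B w0 J₁).card + (aU B w0 J₂).card := by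
    rw [aU_union, Finset.card_union_of_disjoint (aU_disj w0 h)]
  have h6 : (aU B w0 ∅).card = 0 := by simp [aU]
  unfold fA
  rw [h6, h5, Nat.sub_zero]
  rw [h5] at hU
  exact h3 _ _ _ θ h0 h4 hU

theorem fP_eq (w0 : World S) {J₁ J₂ : Finset (Bool × S.Sl × S.Sl)} (h : Dj J₁ J₂) :
    fP B w0 (J₁ ∪ J₂) * fP B w0 ∅ = fP B w0 J₁ * fP B w0 J₂ := by
  unfold fP
  rw [← Finset.prod_mul_distrib, ← Finset.prod_mul_distrib]
  refine Finset.prod_congr rfl fun b _ => ?_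
  rw [← Finset.prod_mul_distrib, ← Finset.prod_mul_distrib]
  refine Finset.prod_congr rfl fun v _ => ?_
  have h6 : (aX B w0 ∅ b v).card = 0 := by simp [aX]
  rw [h6, aX_union]
  rcases aX_empty (B := B) w0 h b v with h7 | h7
  · rw [h7, Finset.empty_union, Finset.card_empty, mul_comm]
  · rw [h7, Finset.union_empty, Finset.card_empty]

theorem fQ_le (h3 : T_FAC) (w0 : World S) (i : Ins B) {J₁ J₂ : Finset (Bool × S.Sl × S.Sl)}
    (h : Dj J₁ J₂) (θ : ℝ) (h0 : 0 ≤ θ) (h4 : θ ≤ 1 / 4)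
    (hY : ∀ κ ∈ B.KP, ((aY w0 (J₁ ∪ J₂) i κ).card : ℝ) ≤ θ * S.N κ) :
    (fQ B w0 i (J₁ ∪ J₂) * fQ B w0 i ∅ : ℝ) ≤
      Real.exp (2 * θ * (∑ κ, (aY w0 J₂ i κ).card : ℕ)) * (fQ B w0 i J₁ * fQ B w0 i J₂) := by
  unfold fQ
  push_cast
  rw [Finset.mul_sum, Real.exp_sum, ← Finset.prod_mul_distrib, ← Finset.prod_mul_distrib,
    ← Finset.prod_mul_distrib]
  refine Finset.prod_le_prod (fun κ _ => by positivity) fun κ _ => ?_
  have h5 : (aY w0 (J₁ ∪ J₂) i κ).card = (aY w0 J₁ i κ).card + (aY w0 J₂ i κ).card := by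
    rw [aY_union, Finset.card_union_of_disjoint (aY_disj w0 h i κ)]
  have h6 : (aY w0 ∅ i κ).card = 0 := by simp [aY]
  rw [h6, h5, Nat.sub_zero]
  by_cases hκ : κ ∈ B.KP
  · have h7 := hY κ hκ
    rw [h5] at h7
    exact h3 _ _ _ θ h0 h4 h7
  · have h8 : ∀ J, (aY w0 J i κ).card = 0 := by
      intro J
      simp [aY, hκ]
    rw [h8, h8]
    simp

end AGR_

open AGR_ in
/-- AGR: agreement on two sets of pairs with disjoint names. -/
theorem tAGR (h1 : T_AGI) (h2 : T_CNT) (h3 : T_FAC) : T_AGR := by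
  intro S F B w0 i J₁ J₂ θ m h0 h4 hask hdj hU hY hU2 hJ2
  have hdj' : Dj J₁ J₂ := hdj
  have e12 := card_agr h1 h2 w0 i (J₁ ∪ J₂) hask
  have e1 := card_agr h1 h2 w0 i J₁ (fun c hc => hask c (Finset.mem_union_left _ hc))
  have e2 := card_agr h1 h2 w0 i J₂ (fun c hc => hask c (Finset.mem_union_right _ hc))
  have e0 := card_all h1 h2 w0 i
  rw [e12, e1, e2, e0]
  have a1 := fA_le h3 w0 hdj' θ h0 h4 hU
  have a2 := fP_eq (B := B) w0 hdj'
  have a3 := fQ_le h3 w0 i hdj' θ h0 h4 hY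
  have a2' : (fP B w0 (J₁ ∪ J₂) * fP B w0 ∅ : ℝ) = fP B w0 J₁ * fP B w0 J₂ := by
    exact_mod_cast a2
  have b1 : Real.exp (2 * θ * (aU B w0 J₂).card) ≤ Real.exp (2 * θ * m) := by
    apply Real.exp_le_exp.2
    have : ((aU B w0 J₂).card : ℝ) ≤ m := by exact_mod_cast hU2
    exact mul_le_mul_of_nonneg_left this (by linarith)
  have b2 : Real.exp (2 * θ * (∑ κ, (aY w0 J₂ i κ).card : ℕ)) ≤ Real.exp (2 * θ * m) := by
    apply Real.exp_le_exp.2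
    have : ((∑ κ, (aY w0 J₂ i κ).card : ℕ) : ℝ) ≤ m := by
      exact_mod_cast (aY_card w0 J₂ i).trans hJ2
    exact mul_le_mul_of_nonneg_left this (by linarith)
  have c1 : (fA B w0 (J₁ ∪ J₂) * fA B w0 ∅ : ℝ) ≤
      Real.exp (2 * θ * m) * (fA B w0 J₁ * fA B w0 J₂) :=
    a1.trans (mul_le_mul_of_nonneg_right b1 (by positivity))
  have c3 : (fQ B w0 i (J₁ ∪ J₂) * fQ B w0 i ∅ : ℝ) ≤
      Real.exp (2 * θ * m) * (fQ B w0 i J₁ * fQ B w0 i J₂) :=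
    a3.trans (mul_le_mul_of_nonneg_right b2 (by positivity))
  have hexp : Real.exp (4 * θ * m) = Real.exp (2 * θ * m) * Real.exp (2 * θ * m) := by
    rw [← Real.exp_add]
    congr 1
    ring
  push_cast
  rw [hexp]
  calc (fA B w0 (J₁ ∪ J₂) * fP B w0 (J₁ ∪ J₂) * fQ B w0 i (J₁ ∪ J₂) *
        (fA B w0 ∅ * fP B w0 ∅ * fQ B w0 i ∅) : ℝ)
      = (fA B w0 (J₁ ∪ J₂) * fA B w0 ∅) * (fQ B w0 i (J₁ ∪ J₂) * fQ B w0 i ∅) *
        (fP B w0 (J₁ ∪ J₂) * fP B w0 ∅) := by ring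
    _ ≤ (Real.exp (2 * θ * m) * (fA B w0 J₁ * fA B w0 J₂)) *
        (Real.exp (2 * θ * m) * (fQ B w0 i J₁ * fQ B w0 i J₂)) *
        (fP B w0 (J₁ ∪ J₂) * fP B w0 ∅) := by
        refine mul_le_mul_of_nonneg_right ?_ (by positivity)
        exact mul_le_mul c1 c3 (by positivity) (by positivity)
    _ = _ := by
        rw [a2']
        ring

end

end Pool.Agent.AcyAd
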