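import Pool.Agent.AcyAd.Targets2

/-!
# MP_08c6cd_lc, fully adaptive testers: job ADF-AMT (the log is nice in most worlds)
-/

namespace Pool.Agent.AcyAd

open scoped Classical
open Pool.Agent.AcyTest

noncomputable section

/-- AMT: the log is nice in most worlds. -/
theorem tAMT (h1 : T_PG) (h2 : T_DET) : T_AMT := by
  intro S F H q P σ
  have key : ∀ w : World S,
      ¬ Nice H (P.h (H.R - 1)) P.n' (P.K0 + 1) (run F σ w q) → ¬ GoodW H P σ w := by
    intro w hw hg
    exact hw ⟨(h2 S F H q P σ w hg q le_rfl).2.1, (h2 S F H q P σ w hg q le_rfl).2.2⟩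
  have hinj : Nat.card {w : World S //
      ¬ Nice H (P.h (H.R - 1)) P.n' (P.K0 + 1) (run F σ w q)} ≤
      Nat.card {w : World S // ¬ GoodW H P σ w} := by
    refine Nat.card_le_card_of_injective
      (fun w : {w : World S // ¬ Nice H (P.h (H.R - 1)) P.n' (P.K0 + 1) (run F σ w q)} =>
        (⟨w.1, key w.1 w.2⟩ : {w : World S // ¬ GoodW H P σ w})) ?_
    intro a b hab
    exact Subtype.ext (congrArg (fun z : {w : World S // ¬ GoodW H P σ w} => z.1) hab)
  have hR : (Nat.card {w : World S //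
      ¬ Nice H (P.h (H.R - 1)) P.n' (P.K0 + 1) (run F σ w q)} : ℝ) ≤
      (Nat.card {w : World S // ¬ GoodW H P σ w} : ℝ) := by
    exact_mod_cast hinj
  have h3 := h1 S F H q P σ
  linarith

end

end Pool.Agent.AcyAd
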