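import Pool.Agent.AcyAd.Targets5

/-!
# MP_08c6cd_lc, fully adaptive testers: the sizes (job ADN-AS1)
-/

namespace Pool.Agent.AcyAd

open Filter

noncomputable section

/-- The facts which hold for large `n`. -/
theorem AS1_ev (R D : ℕ) : ∃ n₀ : ℕ, ∀ n ≥ n₀, 1 ≤ Real.log n ∧
    (2 : ℝ) ^ (R + 5) + 1 ≤ (n : ℝ) ^ (1 / ((R : ℝ) + 5)) ∧
    (82 * 64 * D * 3 ^ R : ℝ) * Real.log n ≤ (n : ℝ) ^ (1 / ((R : ℝ) + 5)) := by
  have hc : 0 < 1 / ((R : ℝ) + 5) := by positivity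
  set A : ℝ := 82 * 64 * D * 3 ^ R with hA
  have hA0 : 0 ≤ A := by positivity
  have h1 : ∀ᶠ x : ℝ in atTop, 1 ≤ Real.log x := Real.tendsto_log_atTop.eventually_ge_atTop 1
  have h2 : ∀ᶠ x : ℝ in atTop, (2 : ℝ) ^ (R + 5) + 1 ≤ x ^ (1 / ((R : ℝ) + 5)) :=
    (tendsto_rpow_atTop hc).eventually_ge_atTop _
  have h3 : ∀ᶠ x : ℝ in atTop, ‖Real.log x‖ ≤ 1 / (A + 1) * ‖x ^ (1 / ((R : ℝ) + 5))‖ :=
    (isLittleO_log_rpow_atTop hc).bound (by positivity)
  have h4 := tendsto_natCast_atTop_atTop (R := ℝ) |>.eventually (h1.and (h2.and h3))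
  rw [eventually_atTop] at h4
  obtain ⟨n₀, hn₀⟩ := h4
  refine ⟨n₀, fun n hn => ?_⟩
  obtain ⟨h5, h6, h7⟩ := hn₀ n hn
  refine ⟨h5, h6, ?_⟩
  rw [Real.norm_of_nonneg (by linarith), Real.norm_of_nonneg (by positivity)] at h7
  have h8 : A * Real.log n ≤ (A + 1) * Real.log n := by nlinarith
  refine h8.trans ?_
  calc (A + 1) * Real.log n ≤ (A + 1) * (1 / (A + 1) * (n : ℝ) ^ (1 / ((R : ℝ) + 5))) := by
        apply mul_le_mul_of_nonneg_left h7 (by positivity)
    _ = _ := by field_simp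

theorem tAS1 : T_AS1 := by
  intro R D hR hD
  obtain ⟨n₀, hn₀⟩ := AS1_ev R D
  refine ⟨n₀, fun n hn => ?_⟩
  obtain ⟨hlog, hx2, hx3⟩ := hn₀ n hn
  set x : ℝ := (n : ℝ) ^ (1 / ((R : ℝ) + 5)) with hxdef
  have hn0 : 0 < (n : ℝ) := by
    rcases Nat.eq_zero_or_pos n with h | h
    · subst h
      norm_num at hlog
    · exact_mod_cast h
  have hx1 : 1 ≤ x := by
    have : (0 : ℝ) ≤ 2 ^ (R + 5) := by positivity
    linarith
  have hx0 : 0 < x := by linarith
  have hxp : ∀ k : ℕ, x ^ k = (n : ℝ) ^ ((k : ℝ) / ((R : ℝ) + 5)) := by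
    intro k
    rw [hxdef, ← Real.rpow_natCast, ← Real.rpow_mul hn0.le]
    congr 1
    ring
  have hxn : x ^ (R + 5) = n := by
    rw [hxp]
    push_cast
    rw [div_self (by positivity), Real.rpow_one]
  have hD1 : (2 : ℝ) ≤ D := by exact_mod_cast hD
  -- the width
  have hT2 : (Tn R n : ℝ) ≤ x := Nat.floor_le hx0.le
  have hT3 : x < Tn R n + 1 := Nat.lt_floor_add_one x
  have hT1 : (2 : ℝ) ^ (R + 5) ≤ Tn R n := by
    have : (2 : ℕ) ^ (R + 5) ≤ Tn R n := by
      apply Nat.le_floor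
      push_cast
      linarith
    exact_mod_cast this
  have hT4 : (1 : ℝ) ≤ Tn R n := by
    have : (1 : ℝ) ≤ 2 ^ (R + 5) := one_le_pow₀ (by norm_num)
    linarith
  have hT5 : x ≤ 2 * Tn R n := by linarith
  -- the logarithm
  have hl1 : Real.log n ≤ la n := Nat.le_ceil _
  have hl2 : (la n : ℝ) < Real.log n + 1 := Nat.ceil_lt_add_one (by linarith)
  have hl3 : (la n : ℝ) ≤ 2 * Real.log n := by linarith
  have hl4 : (1 : ℝ) ≤ la n := by linarith
  have hl5 : 1 ≤ la n := by exact_mod_cast hl4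
  -- K
  set K : ℕ := (3 * Tn R n) ^ R * (16 * la n) with hK
  have hKr : (K : ℝ) = (3 * (Tn R n : ℝ)) ^ R * (16 * la n) := by
    rw [hK]; push_cast; ring
  have hK0 : 0 < K := by
    rw [hK]
    have : 0 < Tn R n := by exact_mod_cast (by linarith : (0 : ℝ) < Tn R n)
    positivity
  set L : ℝ := 64 * D * 3 ^ R * Real.log n with hL
  have hL0 : 0 < L := by positivity
  have hLx : 82 * L ≤ x := by
    rw [hL]
    linarith
  have hKL : 2 * (D : ℝ) * K ≤ L * x ^ R := by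
    rw [hKr, mul_pow]
    have h1 : (Tn R n : ℝ) ^ R ≤ x ^ R := pow_le_pow_left₀ (by positivity) hT2 R
    have h2 : (Tn R n : ℝ) ^ R * la n ≤ x ^ R * (2 * Real.log n) :=
      mul_le_mul h1 hl3 (by positivity) (by positivity)
    calc 2 * (D : ℝ) * (3 ^ R * (Tn R n : ℝ) ^ R * (16 * la n))
        = 32 * D * 3 ^ R * ((Tn R n : ℝ) ^ R * la n) := by ring
      _ ≤ 32 * D * 3 ^ R * (x ^ R * (2 * Real.log n)) :=
          mul_le_mul_of_nonneg_left h2 (by positivity)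
      _ = L * x ^ R := by rw [hL]; ring
  have hw : wn R D n = n / (2 * D * K) := by
    unfold wn
    rfl
  have hDK0 : 0 < 2 * D * K := by positivity
  have hN : Nn R D n = K * wn R D n := by
    unfold Nn
    rw [hK]
    ring
  have h6 : 2 * D * Nn R D n ≤ n := by
    rw [hN, hw, ← mul_assoc]
    exact Nat.mul_div_le n (2 * D * K)
  have hw1 : (n : ℝ) < 2 * D * K * (wn R D n + 1) := by
    have : n < 2 * D * K * (wn R D n + 1) := by
      rw [hw]
      exact Nat.lt_mul_div_succ n hDK0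
    exact_mod_cast this
  -- the size of w
  have hx5 : x ^ (R + 5) = x ^ R * x ^ 5 := pow_add _ _ _
  have hw2 : x ^ 5 < L * (wn R D n + 1) := by
    have h1 : x ^ R * x ^ 5 < x ^ R * (L * (wn R D n + 1)) := by
      rw [← hx5, hxn]
      calc (n : ℝ) < 2 * D * K * (wn R D n + 1) := hw1
        _ ≤ L * x ^ R * (wn R D n + 1) := mul_le_mul_of_nonneg_right hKL (by positivity)
        _ = _ := by ring
    exact lt_of_mul_lt_mul_left h1 (by positivity)
  have hx4 : (1 : ℝ) ≤ x ^ 4 := one_le_pow₀ hx1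
  have hw3 : 81 * x ^ 4 ≤ wn R D n := by
    have h1 : L * (82 * x ^ 4) ≤ L * (wn R D n + 1) := by
      calc L * (82 * x ^ 4) = 82 * L * x ^ 4 := by ring
        _ ≤ x * x ^ 4 := mul_le_mul_of_nonneg_right hLx (by positivity)
        _ = x ^ 5 := by ring
        _ ≤ _ := hw2.le
    have h2 := le_of_mul_le_mul_left h1 hL0
    linarith
  have h7 : n ≤ 4 * D * Nn R D n := by
    have h1 : (2 : ℝ) * (2 * D * K) ≤ n := by
      calc (2 : ℝ) * (2 * D * K) ≤ 2 * (L * x ^ R) := by linarith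
        _ ≤ x ^ R * x := by nlinarith [pow_pos hx0 R]
        _ ≤ x ^ R * x ^ 5 := by
            apply mul_le_mul_of_nonneg_left _ (by positivity)
            calc x = x ^ 1 := (pow_one x).symm
              _ ≤ x ^ 5 := pow_le_pow_right₀ hx1 (by norm_num)
        _ = n := by rw [← hx5, hxn]
    have h2 : (n : ℝ) ≤ 4 * D * Nn R D n := by
      rw [hN]
      push_cast
      have h3 : (2 : ℝ) * D * K * (wn R D n + 1) = 2 * D * K * wn R D n + 2 * D * K := by ring
      rw [h3] at hw1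
      have h4 : (4 : ℝ) * D * (K * wn R D n) = 2 * (2 * D * K * wn R D n) := by ring
      rw [h4]
      linarith
    exact_mod_cast h2
  have h8 : (3 * Tn R n) ^ 4 ≤ 16 * la n * wn R D n := by
    have h1 : ((3 * Tn R n : ℕ) : ℝ) ^ 4 ≤ 16 * la n * wn R D n := by
      push_cast
      calc (3 * (Tn R n : ℝ)) ^ 4 = 81 * (Tn R n : ℝ) ^ 4 := by ring
        _ ≤ 81 * x ^ 4 := by
            have := pow_le_pow_left₀ (by positivity) hT2 4
            linarith
        _ ≤ wn R D n := hw3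
        _ ≤ 16 * la n * wn R D n := by
            have : (0 : ℝ) ≤ wn R D n := by positivity
            nlinarith
    exact_mod_cast h1
  have h9 : (n : ℝ) ^ (3 / ((R : ℝ) + 5)) ≤ wn R D n := by
    have h1 := hxp 3
    push_cast at h1
    rw [← h1]
    have h2 : x ^ 3 ≤ x ^ 4 := pow_le_pow_right₀ hx1 (by norm_num)
    linarith
  have h10 : Nn R D n ^ 12 ≤ Tn R n ^ (12 * (R + 6)) := by
    rw [show 12 * (R + 6) = (R + 6) * 12 by ring, pow_mul]
    apply Nat.pow_le_pow_left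
    have h1 : Nn R D n ≤ n := by
      calc Nn R D n ≤ 2 * D * Nn R D n := Nat.le_mul_of_pos_left _ (by positivity)
        _ ≤ n := h6
    have h2 : (n : ℝ) ≤ (Tn R n : ℝ) ^ (R + 6) := by
      calc (n : ℝ) = x ^ (R + 5) := hxn.symm
        _ ≤ (2 * Tn R n) ^ (R + 5) := pow_le_pow_left₀ hx0.le hT5 _
        _ = 2 ^ (R + 5) * (Tn R n : ℝ) ^ (R + 5) := mul_pow _ _ _
        _ ≤ Tn R n * (Tn R n : ℝ) ^ (R + 5) := mul_le_mul_of_nonneg_right hT1 (by positivity)
        _ = _ := by ring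
    have h3 : n ≤ Tn R n ^ (R + 6) := by exact_mod_cast h2
    exact h1.trans h3
  exact ⟨by exact_mod_cast hT1, hT2, hT5, hl5, hl3, h6, h7, h8, h9, h10⟩

end

end Pool.Agent.AcyAd
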