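import Pool.Agent.AcyAd.Targets5

/-!
# MP_08c6cd_lc, fully adaptive testers: a small power of the number of vertices
-/

namespace Pool.Agent.AcyAd

open scoped Classical

noncomputable section

namespace AS2_

theorem ev_rpow {y : ℝ} (hy : 0 < y) (A : ℝ) :
    ∀ᶠ n : ℕ in Filter.atTop, A ≤ (n : ℝ) ^ y :=
  ((tendsto_rpow_atTop hy).comp tendsto_natCast_atTop_atTop).eventually_ge_atTop A

theorem ev_log {y : ℝ} (hy : 0 < y) :
    ∀ᶠ n : ℕ in Filter.atTop, Real.log n + 1 ≤ (n : ℝ) ^ y := by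
  have h1 : ∀ᶠ x : ℝ in Filter.atTop, ‖Real.log x‖ ≤ (1 / 2) * ‖x ^ y‖ :=
    (isLittleO_log_rpow_atTop hy).def (by norm_num)
  have h2 : ∀ᶠ n : ℕ in Filter.atTop, ‖Real.log (n : ℝ)‖ ≤ (1 / 2) * ‖(n : ℝ) ^ y‖ :=
    tendsto_natCast_atTop_atTop.eventually h1
  filter_upwards [h2, ev_rpow hy 2] with n h3 h4
  have h5 : ‖(n : ℝ) ^ y‖ = (n : ℝ) ^ y := by
    rw [Real.norm_eq_abs, abs_of_nonneg (by linarith)]
  rw [h5, Real.norm_eq_abs] at h3
  have := le_abs_self (Real.log (n : ℝ))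
  linarith

end AS2_

open AS2_ in
theorem tAS2 : T_AS2 := by
  intro R δ η C hR hη h1 h2 hC
  set b : ℝ := 1 / ((R : ℝ) + 5) with hb
  set a : ℝ := η * (3 * R + 4) with ha
  have hbpos : 0 < b := by positivity
  have hab : 0 < b - a := by linarith
  set c : ℝ := b * R - (1 - δ + 4 * R * η) with hc
  have hRb : b * R = 1 - 5 / ((R : ℝ) + 5) := by
    rw [hb]
    field_simp
    ring
  have hcpos : 0 < c := by
    rw [hc, hRb]
    linarith
  have hev := ((((((ev_log (y := η / 8) (by positivity)).and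
    (ev_rpow (y := η / 4) (by positivity) (2 * C))).and (ev_rpow hη 2)).and
    (ev_rpow hab (2 * C))).and (ev_rpow hbpos 2)).and (ev_rpow hcpos (2 ^ R))).and
    (Filter.eventually_ge_atTop (1 : ℕ))
  obtain ⟨n₀, hn₀⟩ := Filter.eventually_atTop.1 hev
  refine ⟨n₀, fun n hn U hU => ?_⟩
  obtain ⟨⟨⟨⟨⟨⟨e1, e2⟩, e3⟩, e4⟩, e5⟩, e6⟩, e7⟩ := hn₀ n hn
  set x : ℝ := (n : ℝ) with hx
  have hx1 : (1 : ℝ) ≤ x := by
    rw [hx]
    exact_mod_cast e7
  have hxpos : 0 < x := by linarith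
  have hlog : 0 ≤ Real.log x := Real.log_nonneg hx1
  have hUle : (U : ℝ) ≤ x ^ η := by
    rw [hU]
    exact Nat.floor_le (by positivity)
  have hUge : x ^ η / 2 ≤ U := by
    have h3 : x ^ η - 1 < U := by
      rw [hU]
      exact Nat.sub_one_lt_floor _
    linarith
  have hTge : x ^ b / 2 ≤ Tn R n := by
    have h3 : x ^ b - 1 < (Tn R n : ℝ) := by
      unfold Tn
      exact Nat.sub_one_lt_floor _
    linarith
  refine ⟨?_, hUle, ?_, ?_⟩
  · have h3 : (Real.log x + 1) ^ 2 ≤ x ^ (η / 4) := by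
      have : (Real.log x + 1) ^ 2 ≤ (x ^ (η / 8)) ^ 2 :=
        pow_le_pow_left₀ (by linarith) e1 2
      refine this.trans (le_of_eq ?_)
      rw [← Real.rpow_natCast, ← Real.rpow_mul hxpos.le]
      congr 1
      push_cast
      ring
    have h4 : x ^ (η / 4) * x ^ (η / 4) * x ^ (η / 2) = x ^ η := by
      rw [← Real.rpow_add hxpos, ← Real.rpow_add hxpos]
      congr 1
      ring
    calc C * (Real.log x + 1) ^ 2 * x ^ (η / 2)
        ≤ C * x ^ (η / 4) * x ^ (η / 2) := by gcongr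
      _ ≤ (x ^ (η / 4) / 2) * x ^ (η / 4) * x ^ (η / 2) := by
          gcongr
          linarith
      _ = x ^ η / 2 := by
          rw [← h4]
          ring
      _ ≤ U := hUge
  · have h3 : (U : ℝ) ^ (3 * R + 4) ≤ x ^ a := by
      calc (U : ℝ) ^ (3 * R + 4) ≤ (x ^ η) ^ (3 * R + 4) := by gcongr
        _ = x ^ a := by
          rw [← Real.rpow_natCast, ← Real.rpow_mul hxpos.le, ha]
          congr 1
          push_cast
          ring
    have h4 : x ^ (b - a) * x ^ a = x ^ b := by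
      rw [← Real.rpow_add hxpos]
      congr 1
      ring
    calc C * (U : ℝ) ^ (3 * R + 4) ≤ C * x ^ a := by gcongr
      _ ≤ (x ^ (b - a) / 2) * x ^ a := by
          gcongr
          linarith
      _ = x ^ b / 2 := by
          rw [← h4]
          ring
      _ ≤ Tn R n := hTge
  · have h3 : (U : ℝ) ^ (4 * R) ≤ x ^ (4 * R * η) := by
      calc (U : ℝ) ^ (4 * R) ≤ (x ^ η) ^ (4 * R) := by gcongr
        _ = x ^ (4 * R * η) := by
          rw [← Real.rpow_natCast, ← Real.rpow_mul hxpos.le]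
          congr 1
          push_cast
          ring
    have h4 : x ^ (1 - δ) * x ^ (4 * R * η) * x ^ c = (x ^ b) ^ R := by
      rw [← Real.rpow_add hxpos, ← Real.rpow_add hxpos, ← Real.rpow_natCast,
        ← Real.rpow_mul hxpos.le]
      congr 1
      rw [hc]
      ring
    have h5 : (x ^ b / 2) ^ R ≤ (Tn R n : ℝ) ^ R :=
      pow_le_pow_left₀ (by positivity) hTge R
    have h6 : (0 : ℝ) < 2 ^ R := by positivity
    calc x ^ (1 - δ) * (U : ℝ) ^ (4 * R) ≤ x ^ (1 - δ) * x ^ (4 * R * η) := by gcongr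
      _ = x ^ (1 - δ) * x ^ (4 * R * η) * 2 ^ R / 2 ^ R := by field_simp
      _ ≤ x ^ (1 - δ) * x ^ (4 * R * η) * x ^ c / 2 ^ R := by gcongr
      _ = (x ^ b / 2) ^ R := by rw [h4, div_pow]
      _ ≤ _ := h5

end

end Pool.Agent.AcyAd
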