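import Pool.Agent.AcyAd.Targets5

/-!
# ADN-ASY: all numbers
-/

namespace Pool.Agent.AcyAd

open scoped Classical
open Pool.Agent.AcyTest

noncomputable section

namespace ASY_

open Filter

/-- The exponents. -/
theorem exponents (R : ℕ) (δ c₀ : ℝ) (K0 cp : ℕ) (hR : 1 ≤ R) (hδ : 0 < δ)
    (hδR : 10 ≤ δ * R) (hc₀ : 0 < c₀) (hcp : 1 ≤ cp) :
    ∃ (η : ℝ) (e : ℕ), 0 < η ∧ 1 ≤ e ∧ η * (3 * R + 4) < 1 / ((R : ℝ) + 5) ∧
      5 / ((R : ℝ) + 5) + 4 * R * η < δ ∧ 13 * (K0 + 2) * ((cp : ℝ) / e) ≤ η ∧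
      (4 * K0 + 10) * ((cp : ℝ) / e) * (R + 5) ≤ c₀ ∧ (2 * K0 + 5) * ((cp : ℝ) / e) ≤ 1 := by
  have hR' : (1 : ℝ) ≤ R := by exact_mod_cast hR
  have hcp' : (1 : ℝ) ≤ cp := by exact_mod_cast hcp
  obtain ⟨η, hη, h1, h2⟩ : ∃ η : ℝ, 0 < η ∧ η * (3 * R + 4) * (R + 5) < 1 ∧ 8 * R * η < δ := by
    refine ⟨min (1 / (2 * ((3 * R + 4) * (R + 5)))) (δ / (16 * R)), by positivity, ?_, ?_⟩
    · have h : min (1 / (2 * ((3 * (R : ℝ) + 4) * (R + 5)))) (δ / (16 * R)) ≤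
          1 / (2 * ((3 * R + 4) * (R + 5))) := min_le_left _ _
      have hp : 0 < (3 * (R : ℝ) + 4) * (R + 5) := by positivity
      calc _ = min (1 / (2 * ((3 * (R : ℝ) + 4) * (R + 5)))) (δ / (16 * R)) *
            ((3 * R + 4) * (R + 5)) := by ring
        _ ≤ 1 / (2 * ((3 * R + 4) * (R + 5))) * ((3 * R + 4) * (R + 5)) :=
            mul_le_mul_of_nonneg_right h hp.le
        _ = 1 / 2 := by field_simp
        _ < 1 := by norm_num
    · have h : min (1 / (2 * ((3 * (R : ℝ) + 4) * (R + 5)))) (δ / (16 * R)) ≤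
          δ / (16 * R) := min_le_right _ _
      calc _ ≤ 8 * R * (δ / (16 * R)) := mul_le_mul_of_nonneg_left h (by positivity)
        _ = δ / 2 := by field_simp; norm_num
        _ < δ := by linarith
  set B : ℝ := 13 * (K0 + 2) / η + (4 * K0 + 10) * (R + 5) / c₀ + (2 * K0 + 5) + 1 with hB
  have hB1 : 1 ≤ B := by
    rw [hB]
    have : 0 ≤ 13 * ((K0 : ℝ) + 2) / η := by positivity
    have : 0 ≤ (4 * (K0 : ℝ) + 10) * (R + 5) / c₀ := by positivity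
    have : 0 ≤ (K0 : ℝ) := by positivity
    linarith
  have he : (cp : ℝ) * B ≤ (⌈(cp : ℝ) * B⌉₊ : ℕ) := Nat.le_ceil _
  set e : ℕ := ⌈(cp : ℝ) * B⌉₊ with hee
  have he1 : (1 : ℝ) ≤ e := le_trans (by nlinarith) he
  have he0 : (0 : ℝ) < e := by linarith
  have hc : (cp : ℝ) / e * B ≤ 1 := by
    rw [div_mul_eq_mul_div, div_le_one he0]
    exact he
  have hc0 : 0 ≤ (cp : ℝ) / e := by positivity
  refine ⟨η, e, hη, by exact_mod_cast he1, ?_, ?_, ?_, ?_, ?_⟩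
  · rw [lt_div_iff₀ (by positivity)]
    exact h1
  · have h3 : 5 / ((R : ℝ) + 5) < δ / 2 := by
      rw [div_lt_div_iff₀ (by positivity) (by norm_num)]
      nlinarith
    nlinarith
  · have h3 : 13 * ((K0 : ℝ) + 2) / η ≤ B := by
      rw [hB]
      have : 0 ≤ (4 * (K0 : ℝ) + 10) * (R + 5) / c₀ := by positivity
      have : 0 ≤ (K0 : ℝ) := by positivity
      linarith
    have h4 : (cp : ℝ) / e * (13 * ((K0 : ℝ) + 2) / η) ≤ 1 :=
      le_trans (mul_le_mul_of_nonneg_left h3 hc0) hc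
    have h5 : (cp : ℝ) / e * (13 * ((K0 : ℝ) + 2) / η) =
        (13 * ((K0 : ℝ) + 2) * ((cp : ℝ) / e)) / η := by ring
    rw [h5, div_le_one hη] at h4
    exact h4
  · have h3 : (4 * (K0 : ℝ) + 10) * (R + 5) / c₀ ≤ B := by
      rw [hB]
      have : 0 ≤ 13 * ((K0 : ℝ) + 2) / η := by positivity
      have : 0 ≤ (K0 : ℝ) := by positivity
      linarith
    have h4 : (cp : ℝ) / e * ((4 * (K0 : ℝ) + 10) * (R + 5) / c₀) ≤ 1 :=
      le_trans (mul_le_mul_of_nonneg_left h3 hc0) hc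
    have h5 : (cp : ℝ) / e * ((4 * (K0 : ℝ) + 10) * (R + 5) / c₀) =
        ((4 * (K0 : ℝ) + 10) * ((cp : ℝ) / e) * (R + 5)) / c₀ := by ring
    rw [h5, div_le_one hc₀] at h4
    exact h4
  · have h3 : (2 * (K0 : ℝ) + 5) ≤ B := by
      rw [hB]
      have : 0 ≤ 13 * ((K0 : ℝ) + 2) / η := by positivity
      have : 0 ≤ (4 * (K0 : ℝ) + 10) * (R + 5) / c₀ := by positivity
      have : 0 ≤ (K0 : ℝ) := by positivity
      linarith
    have h4 : (cp : ℝ) / e * (2 * (K0 : ℝ) + 5) ≤ 1 :=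
      le_trans (mul_le_mul_of_nonneg_left h3 hc0) hc
    linarith

theorem log5 : Real.log 5 < 13 / 8 := by
  rw [Real.log_lt_iff_lt_exp (by norm_num)]
  have h := Real.exp_one_gt_d9
  have h2 : Real.exp (13 / 8) ^ 8 = Real.exp 1 ^ 13 := by
    rw [← Real.exp_nat_mul, ← Real.exp_nat_mul]
    norm_num
  have h3 : (5 : ℝ) ^ 8 < Real.exp 1 ^ 13 := by
    calc (5 : ℝ) ^ 8 < 2.718 ^ 13 := by norm_num
      _ ≤ Real.exp 1 ^ 13 := by
        apply pow_le_pow_left₀ (by norm_num)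
        linarith
  rw [← h2] at h3
  exact lt_of_pow_lt_pow_left₀ 8 (Real.exp_pos _).le h3

/-- the power of 5 -/
theorem pow5 (K0 h : ℕ) (c η x : ℝ) (hx : 0 < x) (hl : 0 ≤ Real.log x) (hc0 : 0 ≤ c)
    (hh : (h : ℝ) ≤ c * Real.log x + 1) (hc : 13 * (K0 + 2) * c ≤ η) :
    (5 : ℝ) ^ (2 * ((K0 + 2) * (2 * h + 3))) ≤ 5 ^ (10 * (K0 + 2)) * x ^ (η / 2) := by
  have h5 := log5
  have h50 : 0 < Real.log 5 := Real.log_pos (by norm_num)
  have e1 : (5 : ℝ) ^ (2 * ((K0 + 2) * (2 * h + 3))) =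
      Real.exp (Real.log 5 * (2 * ((K0 + 2) * (2 * h + 3)))) := by
    rw [← Real.rpow_natCast, Real.rpow_def_of_pos (by norm_num)]
    push_cast
    rfl
  have e2 : (5 : ℝ) ^ (10 * (K0 + 2)) = Real.exp (Real.log 5 * (10 * (K0 + 2))) := by
    rw [← Real.rpow_natCast, Real.rpow_def_of_pos (by norm_num)]
    push_cast
    rfl
  rw [e1, e2, Real.rpow_def_of_pos hx, ← Real.exp_add, Real.exp_le_exp]
  have hK : (0 : ℝ) ≤ K0 + 2 := by positivity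
  have s1 : Real.log 5 * (2 * ((K0 + 2) * (2 * (h : ℝ) + 3))) ≤
      Real.log 5 * (2 * ((K0 + 2) * (2 * (c * Real.log x + 1) + 3))) := by
    gcongr
  have s2 : Real.log 5 * (4 * (K0 + 2) * (c * Real.log x)) ≤ Real.log x * (η / 2) := by
    have : Real.log 5 * (4 * (K0 + 2) * (c * Real.log x)) ≤
        13 / 8 * (4 * (K0 + 2) * (c * Real.log x)) := by
      apply mul_le_mul_of_nonneg_right h5.le
      positivity
    nlinarith
  nlinarith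

/-- The facts for one `n`. -/
structure NDat (R D K0 cp e N₁ : ℕ) (δ η c₀ C c x n' N' : ℝ) (n N T l w U : ℕ) : Prop where
  hR : 1 ≤ R
  hD : 2 ≤ D
  hη : 0 < η
  hc₀ : 0 < c₀
  hδ1 : δ ≤ 1
  hc : c = (cp : ℝ) / e
  hc0 : 0 ≤ c
  hc1 : 13 * (K0 + 2) * c ≤ η
  hc2 : (4 * K0 + 10) * c * (R + 5) ≤ c₀
  hc3 : (2 * K0 + 5) * c ≤ 1
  hx : x = Real.log n'
  hn' : n' = n
  hN' : N' = N
  hC : C = 2 * 10 ^ 6 * D ^ 2 * (R + 2) * (K0 + 2) + 32 * 5 ^ (10 * (K0 + 2)) + 64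
  b1 : 2 ^ (R + 5) ≤ T
  b4 : 1 ≤ l
  b5 : (l : ℝ) ≤ 2 * x
  b6 : 2 * D * N ≤ n
  b7 : n ≤ 4 * D * N
  b9 : n' ^ (3 / ((R : ℝ) + 5)) ≤ w
  d1 : C * (x + 1) ^ 2 * n' ^ (η / 2) ≤ U
  d3 : C * (U : ℝ) ^ (3 * R + 4) ≤ T
  g1 : (N₁ : ℝ) + 1 ≤ n' ^ (3 / ((R : ℝ) + 5))
  g2 : (10 * (K0 : ℝ) + 25) * (R + 5) / (2 * c₀) + 5 * K0 + 13 ≤ x
  hn2 : 2 ≤ n'
  hNn : N = (3 * T) ^ R * (16 * l * w)
  hxl : x ≤ l

section

variable {R D K0 cp e N₁ : ℕ} {δ η c₀ C c x n' N' : ℝ} {n N T l w U : ℕ}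

theorem NDat.x13 (d : NDat R D K0 cp e N₁ δ η c₀ C c x n' N' n N T l w U) : 13 ≤ x := by
  have h := d.g2
  have hc₀ := d.hc₀
  have : 0 ≤ (10 * (K0 : ℝ) + 25) * (R + 5) / (2 * c₀) := by positivity
  have : (0 : ℝ) ≤ K0 := by positivity
  linarith

theorem NDat.T64 (d : NDat R D K0 cp e N₁ δ η c₀ C c x n' N' n N T l w U) : 64 ≤ T := by
  have h1 : 2 ^ (1 + 5) ≤ 2 ^ (R + 5) := Nat.pow_le_pow_right (by norm_num) (by have := d.hR; omega)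
  have h2 := d.b1
  omega

theorem NDat.w1 (d : NDat R D K0 cp e N₁ δ η c₀ C c x n' N' n N T l w U) : N₁ + 1 ≤ w := by
  have h := d.g1.trans d.b9
  exact_mod_cast h

theorem NDat.N2 (d : NDat R D K0 cp e N₁ δ η c₀ C c x n' N' n N T l w U) : 2 ≤ N := by
  rw [d.hNn]
  have h5 : 1 ≤ (3 * T) ^ R := Nat.one_le_pow _ _ (by have := d.T64; omega)
  have h6 : 1 ≤ l * w := Nat.one_le_iff_ne_zero.2 (by
    have := d.b4
    have := d.w1
    apply Nat.mul_ne_zero <;> omega)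
  calc 2 ≤ 1 * (16 * (l * w)) := by omega
    _ ≤ (3 * T) ^ R * (16 * (l * w)) := Nat.mul_le_mul_right _ h5
    _ = (3 * T) ^ R * (16 * l * w) := by ring

theorem NDat.N2r (d : NDat R D K0 cp e N₁ δ η c₀ C c x n' N' n N T l w U) : 2 ≤ N' := by
  rw [d.hN']
  exact_mod_cast d.N2

theorem NDat.Nn (d : NDat R D K0 cp e N₁ δ η c₀ C c x n' N' n N T l w U) : N' ≤ n' := by
  rw [d.hN', d.hn']
  have h : N ≤ n := le_trans (Nat.le_mul_of_pos_left N (by have := d.hD; omega)) d.b6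
  exact_mod_cast h

theorem NDat.logN (d : NDat R D K0 cp e N₁ δ η c₀ C c x n' N' n N T l w U) : Real.log N' ≤ x := by
  rw [d.hx]
  exact Real.log_le_log (by have := d.N2r; linarith) d.Nn

theorem NDat.logN0 (d : NDat R D K0 cp e N₁ δ η c₀ C c x n' N' n N T l w U) : 0 ≤ Real.log N' :=
  Real.log_nonneg (by have := d.N2r; linarith)

theorem NDat.c1 (d : NDat R D K0 cp e N₁ δ η c₀ C c x n' N' n N T l w U) : c ≤ 1 := by
  have h := d.hc3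
  have h0 := d.hc0
  have hK : (0 : ℝ) ≤ K0 := by positivity
  nlinarith [mul_nonneg hK h0]

theorem NDat.nη (d : NDat R D K0 cp e N₁ δ η c₀ C c x n' N' n N T l w U) : 1 ≤ n' ^ (η / 2) :=
  Real.one_le_rpow (by have := d.hn2; linarith) (by have := d.hη; positivity)

theorem NDat.Uge (d : NDat R D K0 cp e N₁ δ η c₀ C c x n' N' n N T l w U) (y : ℝ)
    (hyC : y ≤ C) : y * ((x + 1) ^ 2 * n' ^ (η / 2)) ≤ U := by
  refine le_trans ?_ d.d1
  have h := d.nη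
  rw [mul_assoc]
  exact mul_le_mul_of_nonneg_right hyC (by positivity)

theorem NDat.one (d : NDat R D K0 cp e N₁ δ η c₀ C c x n' N' n N T l w U) :
    (x + 1) ^ 2 ≤ (x + 1) ^ 2 * n' ^ (η / 2) ∧ n' ^ (η / 2) ≤ (x + 1) ^ 2 * n' ^ (η / 2) := by
  have h := d.nη
  have h13 := d.x13
  constructor
  · exact le_mul_of_one_le_right (by positivity) h
  · exact le_mul_of_one_le_left (by positivity) (by nlinarith)

theorem NDat.CK (d : NDat R D K0 cp e N₁ δ η c₀ C c x n' N' n N T l w U) :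
    2 * 10 ^ 6 * (D : ℝ) ^ 2 * (R + 2) ≤ C := by
  rw [d.hC]
  have u1 : 2 * 10 ^ 6 * (D : ℝ) ^ 2 * (R + 2) ≤
      2 * 10 ^ 6 * (D : ℝ) ^ 2 * (R + 2) * (K0 + 2) := by
    refine le_mul_of_one_le_right (by positivity) ?_
    have : (0 : ℝ) ≤ K0 := by positivity
    linarith
  have u2 : (0 : ℝ) ≤ 32 * 5 ^ (10 * (K0 + 2)) := by positivity
  linarith

theorem NDat.f10 (d : NDat R D K0 cp e N₁ δ η c₀ C c x n' N' n N T l w U) :
    64 * (Real.log N' + 1) ^ 2 ≤ U := by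
  have hC64 : 64 ≤ C := by
    rw [d.hC]
    have u1 : (0 : ℝ) ≤ 2 * 10 ^ 6 * D ^ 2 * (R + 2) * (K0 + 2) := by positivity
    have u2 : (0 : ℝ) ≤ 32 * 5 ^ (10 * (K0 + 2)) := by positivity
    linarith
  refine le_trans ?_ (d.Uge 64 hC64)
  have h0 := d.logN0
  have h1 := d.logN
  have u2 : (Real.log N' + 1) ^ 2 ≤ (x + 1) ^ 2 := pow_le_pow_left₀ (by linarith) (by linarith) 2
  have u3 := d.one.1
  linarith

theorem NDat.f12 (d : NDat R D K0 cp e N₁ δ η c₀ C c x n' N' n N T l w U) (k : ℕ)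
    (hk : (k : ℝ) ≤ c * x + 1) : 10 ^ 6 * D ^ 2 * (R + 2) * (k + 1) ≤ U := by
  have u1 := d.Uge _ d.CK
  have u3 : (k : ℝ) + 1 ≤ 2 * (x + 1) ^ 2 := by
    have h1 := d.c1
    have h2 := d.x13
    have h3 : c * x ≤ 1 * x := mul_le_mul_of_nonneg_right h1 (by linarith)
    nlinarith
  have u4 := d.one.1
  have u5 : 10 ^ 6 * (D : ℝ) ^ 2 * (R + 2) * (k + 1) ≤ U := by
    calc 10 ^ 6 * (D : ℝ) ^ 2 * (R + 2) * (k + 1) ≤
        10 ^ 6 * (D : ℝ) ^ 2 * (R + 2) * (2 * ((x + 1) ^ 2 * n' ^ (η / 2))) :=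
          mul_le_mul_of_nonneg_left (by linarith) (by positivity)
      _ = 2 * 10 ^ 6 * (D : ℝ) ^ 2 * (R + 2) * ((x + 1) ^ 2 * n' ^ (η / 2)) := by ring
      _ ≤ U := u1
  exact_mod_cast u5

theorem NDat.f13 (d : NDat R D K0 cp e N₁ δ η c₀ C c x n' N' n N T l w U) :
    10 ^ 6 * D ^ 2 * (R + 2) * (K0 + 2) * U ^ (3 * R + 4) ≤ T := by
  have hle : 10 ^ 6 * (D : ℝ) ^ 2 * (R + 2) * (K0 + 2) ≤ C := by
    rw [d.hC]
    have u1 : (0 : ℝ) ≤ 10 ^ 6 * D ^ 2 * (R + 2) * (K0 + 2) := by positivity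
    have u2 : (0 : ℝ) ≤ 32 * 5 ^ (10 * (K0 + 2)) := by positivity
    linarith
  have u3 : 10 ^ 6 * (D : ℝ) ^ 2 * (R + 2) * (K0 + 2) * (U : ℝ) ^ (3 * R + 4) ≤ T :=
    le_trans (mul_le_mul_of_nonneg_right hle (by positivity)) d.d3
  exact_mod_cast u3

theorem NDat.f14 (d : NDat R D K0 cp e N₁ δ η c₀ C c x n' N' n N T l w U) (k : ℕ)
    (hk : (k : ℝ) ≤ c * x + 1) : 16 * l * 5 ^ (2 * ((K0 + 2) * (2 * k + 3))) ≤ U := by
  have hle : 32 * (5 : ℝ) ^ (10 * (K0 + 2)) ≤ C := by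
    rw [d.hC]
    have u1 : (0 : ℝ) ≤ 2 * 10 ^ 6 * D ^ 2 * (R + 2) * (K0 + 2) := by positivity
    linarith
  have u1 := d.Uge _ hle
  have hx := d.hx
  have h13 := d.x13
  have u2 := pow5 K0 k c η n' (by have := d.hn2; linarith) (by rw [← hx]; linarith) d.hc0
    (by rw [← hx]; exact hk) d.hc1
  have u3 : (16 * (l : ℝ)) ≤ 32 * (x + 1) ^ 2 := by
    have := d.b5
    nlinarith
  have u4 : (16 * (l : ℝ)) * (5 : ℝ) ^ (2 * ((K0 + 2) * (2 * k + 3))) ≤ U := by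
    calc _ ≤ 32 * (x + 1) ^ 2 * (5 ^ (10 * (K0 + 2)) * n' ^ (η / 2)) :=
          mul_le_mul u3 u2 (by positivity) (by positivity)
      _ = 32 * 5 ^ (10 * (K0 + 2)) * ((x + 1) ^ 2 * n' ^ (η / 2)) := by ring
      _ ≤ U := u1
  exact_mod_cast u4

theorem NDat.f15 (d : NDat R D K0 cp e N₁ δ η c₀ C c x n' N' n N T l w U) (k dd : ℕ) (hdd : dd ≤ D)
    (hk : ((2 * dd + 1 : ℕ) : ℝ) ^ k ≤ (2 * dd + 1 : ℕ) * N' ^ c) : (2 * dd + 1) ^ k ≤ U := by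
  have u1 : ((2 * dd + 1 : ℕ) : ℝ) ≤ 2 * D + 1 := by
    have : 2 * dd + 1 ≤ 2 * D + 1 := by omega
    exact_mod_cast this
  have hle : 2 * (D : ℝ) + 1 ≤ C := by
    refine le_trans ?_ d.CK
    have hR : (0 : ℝ) ≤ R := by positivity
    have hD : (2 : ℝ) ≤ D := by exact_mod_cast d.hD
    have u3 : 2 * 10 ^ 6 * (D : ℝ) ^ 2 * 1 ≤ 2 * 10 ^ 6 * (D : ℝ) ^ 2 * (R + 2) :=
      mul_le_mul_of_nonneg_left (by linarith) (by positivity)
    nlinarith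
  have u2 := d.Uge _ hle
  have hn2 := d.hn2
  have hN2 := d.N2r
  have hc0 := d.hc0
  have u3 : N' ^ c ≤ (x + 1) ^ 2 * n' ^ (η / 2) := by
    have v1 : N' ^ c ≤ n' ^ c := Real.rpow_le_rpow (by linarith) d.Nn hc0
    have v2 : n' ^ c ≤ n' ^ (η / 2) := by
      apply Real.rpow_le_rpow_of_exponent_le (by linarith)
      have := d.hc1
      have hK : (0 : ℝ) ≤ K0 := by positivity
      nlinarith [mul_nonneg hK hc0]
    have v3 := d.one.2
    linarith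
  have hpos : 0 ≤ N' ^ c := Real.rpow_nonneg (by linarith) _
  have u4 : ((2 * dd + 1 : ℕ) : ℝ) ^ k ≤ U := by
    calc _ ≤ ((2 * dd + 1 : ℕ) : ℝ) * N' ^ c := hk
      _ ≤ (2 * D + 1) * ((x + 1) ^ 2 * n' ^ (η / 2)) :=
          mul_le_mul u1 u3 hpos (by positivity)
      _ ≤ U := u2
  exact_mod_cast u4

theorem NDat.logw (d : NDat R D K0 cp e N₁ δ η c₀ C c x n' N' n N T l w U) :
    3 / ((R : ℝ) + 5) * x ≤ Real.log w := by
  have hn2 := d.hn2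
  rw [d.hx, ← Real.log_rpow (by linarith)]
  exact Real.log_le_log (Real.rpow_pos_of_pos (by linarith) _) d.b9

theorem NDat.f17 (d : NDat R D K0 cp e N₁ δ η c₀ C c x n' N' n N T l w U) (k : ℕ)
    (hk : (k : ℝ) ≤ c * x + 1) :
    2 * ((K0 + 2) * (2 * k + 3) + k + 1) + 1 ≤ ⌊c₀ * Real.log w⌋₊ := by
  have hc₀ := d.hc₀
  apply Nat.le_floor
  have hlw := mul_le_mul_of_nonneg_left d.logw hc₀.le
  refine le_trans ?_ hlw
  have hR5 : (0 : ℝ) < R + 5 := by positivity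
  have h13 := d.x13
  -- the constant
  have g2 : (10 * (K0 : ℝ) + 25) * (R + 5) / (2 * c₀) ≤ x := by
    have := d.g2
    have : (0 : ℝ) ≤ K0 := by positivity
    linarith
  have g3 : 10 * (K0 : ℝ) + 25 ≤ 2 * (c₀ / (R + 5)) * x := by
    rw [div_le_iff₀ (by positivity)] at g2
    rw [mul_div_assoc', div_mul_eq_mul_div, le_div_iff₀ hR5]
    linarith
  have g4 : (4 * (K0 : ℝ) + 10) * c ≤ c₀ / (R + 5) := by
    rw [le_div_iff₀ hR5]
    exact d.hc2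
  have g5 : (4 * (K0 : ℝ) + 10) * c * x ≤ c₀ / (R + 5) * x :=
    mul_le_mul_of_nonneg_right g4 (by linarith)
  have g6 : (4 * (K0 : ℝ) + 10) * k ≤ (4 * (K0 : ℝ) + 10) * (c * x + 1) :=
    mul_le_mul_of_nonneg_left hk (by positivity)
  have e1 : c₀ * (3 / ((R : ℝ) + 5) * x) = 3 * (c₀ / (R + 5) * x) := by ring
  rw [e1]
  push_cast
  nlinarith

theorem NDat.f20 (d : NDat R D K0 cp e N₁ δ η c₀ C c x n' N' n N T l w U) (k : ℕ)
    (hk : (k : ℝ) ≤ c * x + 1) :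
    (K0 + 2) * (2 * k + 3) + k + 1 < 4 * l := by
  have h : ((K0 : ℝ) + 2) * (2 * k + 3) + k + 1 < 4 * l := by
    have g1 := d.hxl
    have h13 := d.x13
    have g2 : 5 * (K0 : ℝ) + 13 ≤ x := by
      have := d.g2
      have hc₀ := d.hc₀
      have : 0 ≤ (10 * (K0 : ℝ) + 25) * (R + 5) / (2 * c₀) := by positivity
      linarith
    have g3 : (2 * (K0 : ℝ) + 5) * c * x ≤ 1 * x := mul_le_mul_of_nonneg_right d.hc3 (by linarith)
    have g6 : (2 * (K0 : ℝ) + 5) * k ≤ (2 * (K0 : ℝ) + 5) * (c * x + 1) :=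
      mul_le_mul_of_nonneg_left hk (by positivity)
    nlinarith
  exact_mod_cast h

end

end ASY_

open ASY_ Filter in
/-- All numbers. -/
theorem tASY (h1 : T_THR) (h2 : T_HCH) (h3 : T_AS1) (h4 : T_AS2) : T_ASY := by
  intro R δ c₀ K0 cp hR hδ hδ1 hδR hc₀ hK0 hcp
  obtain ⟨η, e, hη, he, hη1, hη2, hc1, hc2, hc3⟩ := exponents R δ c₀ K0 cp hR hδ hδR hc₀ hcp
  obtain ⟨th, th0, thm, thr⟩ := h1 R e he
  refine ⟨th, th0, thm, fun N₁ => ?_⟩
  have hcp' : (1 : ℝ) ≤ cp := by exact_mod_cast hcp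
  have he' : (1 : ℝ) ≤ e := by exact_mod_cast he
  have hCpos : (0 : ℝ) < 2 * 10 ^ 6 * ((th R + 2 : ℕ) : ℝ) ^ 2 * (R + 2) * (K0 + 2) +
    32 * 5 ^ (10 * (K0 + 2)) + 64 := by positivity
  obtain ⟨n₁, a1⟩ := h3 R (th R + 2) hR (by omega)
  obtain ⟨n₂, a2⟩ := h4 R δ η _ hR hη hη1 hη2 hCpos
  have e1 : ∀ᶠ n : ℕ in atTop, (N₁ : ℝ) + 1 ≤ (n : ℝ) ^ (3 / ((R : ℝ) + 5)) :=
    ((tendsto_rpow_atTop (by positivity)).comp tendsto_natCast_atTop_atTop).eventually_ge_atTop _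
  have e2 : ∀ᶠ n : ℕ in atTop, (10 * (K0 : ℝ) + 25) * (R + 5) / (2 * c₀) + 5 * K0 + 13 ≤
      Real.log n :=
    (Real.tendsto_log_atTop.comp tendsto_natCast_atTop_atTop).eventually_ge_atTop _
  obtain ⟨n₃, a3⟩ := eventually_atTop.1 e1
  obtain ⟨n₄, a4⟩ := eventually_atTop.1 e2
  refine ⟨n₁ + n₂ + n₃ + n₄ + 2, fun n hn => ?_⟩
  obtain ⟨b1, b2, b3, b4, b5, b6, b7, b8, b9, b10⟩ := a1 n (by omega)
  obtain ⟨d1, d2, d3, d4⟩ := a2 n (by omega) _ rfl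
  have dat : NDat R (th R + 2) K0 cp e N₁ δ η c₀ (2 * 10 ^ 6 * ((th R + 2 : ℕ) : ℝ) ^ 2 * (R + 2) *
      (K0 + 2) + 32 * 5 ^ (10 * (K0 + 2)) + 64) ((cp : ℝ) / e) (Real.log n) n
      (Nn R (th R + 2) n : ℝ) n (Nn R (th R + 2) n) (Tn R n) (la n) (wn R (th R + 2) n)
      ⌊(n : ℝ) ^ η⌋₊ :=
    { hR := hR, hD := by omega, hη := hη, hc₀ := hc₀, hδ1 := hδ1, hc := rfl, hc0 := by positivity
      hc1 := hc1, hc2 := hc2, hc3 := hc3, hx := rfl, hn' := rfl, hN' := rfl, hC := rfl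
      b1 := b1, b4 := b4, b5 := b5, b6 := b6, b7 := b7, b9 := b9, d1 := d1, d3 := d3
      g1 := a3 n (by omega), g2 := a4 n (by omega)
      hn2 := by
        have : 2 ≤ n := by omega
        exact_mod_cast this
      hNn := rfl, hxl := Nat.le_ceil _ }
  have hNn := dat.hNn
  generalize Nn R (th R + 2) n = N at *
  generalize Tn R n = T at *
  generalize wn R (th R + 2) n = w at *
  generalize la n = l at *
  generalize ⌊(n : ℝ) ^ η⌋₊ = U at *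
  -- the lengths
  have hh : ∀ t, ∃ k : ℕ, t < R → (1 ≤ k ∧ (k : ℝ) ≤ (cp : ℝ) / e * Real.log n + 1 ∧
      ((2 * (th R + 2 - th (t + 1)) + 1 : ℕ) : ℝ) ^ k ≤
        (2 * (th R + 2 - th (t + 1)) + 1 : ℕ) * (N : ℝ) ^ ((cp : ℝ) / e) ∧
      (((th R + 2 - th (t + 1) : ℕ) : ℝ) / (th R + 2 - th t - 1 : ℕ)) ^ k ≤
        ((N : ℝ) ^ cp)⁻¹) := by
    intro t
    by_cases ht : t < R
    · have hdd : 1 ≤ th R + 2 - th (t + 1) := by
        have : th (t + 1) ≤ th R := thm.monotone (by omega)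
        omega
      obtain ⟨k, k1, k2, k3, k4⟩ := h2 N (th R + 2 - th (t + 1)) cp e
        (by have := dat.N2r; linarith) hdd he hcp
      refine ⟨k, fun _ => ⟨k1, ?_, k3, ?_⟩⟩
      · refine k2.trans ?_
        have e3 : (cp : ℝ) * Real.log N / e = (cp : ℝ) / e * Real.log N := by ring
        rw [e3]
        have := mul_le_mul_of_nonneg_left dat.logN dat.hc0
        linarith
      · rw [thr t ht]
        exact k4
    · exact ⟨1, fun h => absurd h ht⟩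
  choose h hh using hh
  obtain ⟨q1, q2, -, -⟩ := hh (R - 1) (by omega)
  have hT := dat.T64
  have hw := dat.w1
  have f17 := dat.f17 _ q2
  have f20 := dat.f20 _ q2
  refine ⟨T, 16 * l, w, U, 4 * l, 12 * l, h, by omega, by omega, by omega, by omega, ?_, ?_,
    b8, ?_, d4, ?_, ?_, fun t ht => (hh t ht).1, fun t ht => dat.f12 _ (hh t ht).2.1, dat.f13,
    dat.f14 _ q2, fun t ht => dat.f15 _ _ (by omega) (hh t ht).2.2.1, ?_, f17, ?_, by omega,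
    by omega, by omega, by omega, by omega, ?_, ?_⟩
  · rw [← hNn]; exact b6
  · rw [← hNn]; exact b7
  · rw [← hNn, ← hK0]; exact b10
  · exact Real.one_le_rpow (by have := dat.hn2; linarith) (by linarith)
  · rw [← hNn]; exact dat.f10
  · intro t ht
    rw [← hNn]
    exact (hh t ht).2.2.2
  · refine le_trans ?_ f17
    have : (K0 + 2) * (2 * h (R - 1) + 3) ≥ 2 * (2 * h (R - 1) + 3) := by
      apply Nat.mul_le_mul_right
      omega
    omega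
  · omega
  · omega

end

end Pool.Agent.AcyAd
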