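import Pool.Agent.AcyAd.Targets1

/-!
# MP_08c6cd_lc: averaging over the inner data
-/

namespace Pool.Agent.AcyAd

open scoped Classical

noncomputable section

namespace AVG_

variable {S : Sys} {F : Fx S} {B : Blk S F}

lemma world_ext {w w' : World S} (h1 : w.lam = w'.lam) (h2 : w.rk = w'.rk) (h3 : w.mu = w'.mu) :
    w = w' := by
  cases w; cases w'; cases h1; cases h2; cases h3; rfl

lemma ins_ext {i i' : Ins B} (h1 : i.rho = i'.rho) (h2 : i.xi = i'.xi) (h3 : i.mu = i'.mu) :
    i = i' := by
  cases i; cases i'; cases h1; cases h2; cases h3; rfl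

/-- the inverse inner data -/
def inv (w : World S) (i : Ins B) : Ins B :=
  ⟨i.rho.symm, fun b v => (i.xi b v).symm, fun κ => if κ ∈ B.KP then w.mu κ else i.mu κ⟩

lemma rh_inv (w : World S) (i : Ins B) : (inv w i).rh = i.rh.symm := by
  show Equiv.Perm.ofSubtype i.rho⁻¹ = (Equiv.Perm.ofSubtype i.rho)⁻¹
  exact map_inv _ _

lemma xh_inv (w : World S) (i : Ins B) (b : Bool) (v : S.V) :
    (inv w i).xh b v = (i.xh b v).symm := by
  show Equiv.Perm.ofSubtype (i.xi b v)⁻¹ = (Equiv.Perm.ofSubtype (i.xi b v))⁻¹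
  exact map_inv _ _

lemma sh_inv (w : World S) (i : Ins B) : (inv w i).sh = i.sh.symm := by
  ext y
  · show ((inv w i).rh y.1) = i.rh.symm y.1
    rw [rh_inv]
  · rfl

lemma tw_inv (w : World S) (i : Ins B) (b : Bool) (κ : S.K) :
    (inv w i).tw b κ = (i.tw b κ).symm := by
  unfold Ins.tw
  have hiff : (∀ y, S.cc b y = some κ ↔ S.cc b ((inv w i).sh y) = some κ) ↔
      (∀ y, S.cc b y = some κ ↔ S.cc b (i.sh y) = some κ) := by
    rw [sh_inv]
    constructor
    · intro h y
      have := h (i.sh y)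
      rw [Equiv.symm_apply_apply] at this
      exact this.symm
    · intro h y
      have := h (i.sh.symm y)
      rw [Equiv.apply_symm_apply] at this
      exact this.symm
  by_cases h : ∀ y, S.cc b y = some κ ↔ S.cc b (i.sh y) = some κ
  · rw [dif_pos h, dif_pos (hiff.2 h)]
    refine Equiv.ext fun y => Subtype.ext ?_
    show (inv w i).sh y.1 = i.sh.symm y.1
    rw [sh_inv]
  · rw [dif_neg h, dif_neg (fun h' => h (hiff.1 h'))]
    rfl

lemma mem_M (w : World S) (i : Ins B) (v : S.V) : (mix w i).lam v ∈ B.M ↔ w.lam v ∈ B.M :=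
  Equiv.Perm.ofSubtype_apply_mem_iff_mem i.rho (w.lam v)

lemma mix_mix (w : World S) (i : Ins B) : mix (mix w i) (inv w i) = w := by
  apply world_ext
  · show (w.lam.trans i.rh).trans (inv w i).rh = w.lam
    rw [rh_inv, Equiv.trans_assoc, Equiv.self_trans_symm, Equiv.trans_refl]
  · funext b v
    show (if (mix w i).lam v ∈ B.M then ((mix w i).rk b v).trans ((inv w i).xh b v)
      else (mix w i).rk b v) = w.rk b v
    by_cases h : w.lam v ∈ B.M
    · rw [if_pos ((mem_M w i v).2 h)]
      show (if w.lam v ∈ B.M then (w.rk b v).trans (i.xh b v) else w.rk b v).trans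
        ((inv w i).xh b v) = w.rk b v
      rw [if_pos h, xh_inv, Equiv.trans_assoc, Equiv.self_trans_symm, Equiv.trans_refl]
    · rw [if_neg (fun h' => h ((mem_M w i v).1 h'))]
      show (if w.lam v ∈ B.M then (w.rk b v).trans (i.xh b v) else w.rk b v) = w.rk b v
      rw [if_neg h]
  · funext κ
    show (if κ ∈ B.KP then (inv w i).mu κ else
      ((inv w i).tw true κ).symm.trans (((mix w i).mu κ).trans ((inv w i).tw false κ))) = w.mu κ
    by_cases h : κ ∈ B.KP
    · rw [if_pos h]
      show (if κ ∈ B.KP then w.mu κ else i.mu κ) = w.mu κ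
      rw [if_pos h]
    · rw [if_neg h, tw_inv, tw_inv]
      show (i.tw true κ).symm.symm.trans ((if κ ∈ B.KP then i.mu κ else
        (i.tw true κ).symm.trans ((w.mu κ).trans (i.tw false κ))).trans (i.tw false κ).symm) =
          w.mu κ
      rw [if_neg h]
      refine Equiv.ext fun y => ?_
      show (i.tw false κ).symm ((i.tw false κ) ((w.mu κ) ((i.tw true κ).symm
        ((i.tw true κ) y)))) = w.mu κ y
      rw [Equiv.symm_apply_apply, Equiv.symm_apply_apply]

lemma inv_inv (w : World S) (i : Ins B) : inv (mix w i) (inv w i) = i := by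
  apply ins_ext
  · rfl
  · rfl
  · funext κ
    show (if κ ∈ B.KP then (mix w i).mu κ else (inv w i).mu κ) = i.mu κ
    by_cases h : κ ∈ B.KP
    · rw [if_pos h]
      show (if κ ∈ B.KP then i.mu κ else _) = i.mu κ
      rw [if_pos h]
    · rw [if_neg h]
      show (if κ ∈ B.KP then w.mu κ else i.mu κ) = i.mu κ
      rw [if_neg h]

end AVG_

open AVG_ in
theorem tAVG : T_AVG := by
  intro S F B P
  have hinv : Function.Involutive (fun p : World S × Ins B => (mix p.1 p.2, inv p.1 p.2)) := by
    rintro ⟨w, i⟩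
    exact Prod.ext (mix_mix w i) (inv_inv w i)
  have e1 : {p : World S × Ins B // P (mix p.1 p.2)} ≃ {p : World S × Ins B // P p.1} :=
    hinv.toPerm.subtypeEquiv fun p => Iff.rfl
  have e2 : {p : World S × Ins B // P p.1} ≃ Ins B × {w : World S // P w} :=
    { toFun := fun p => (p.1.2, ⟨p.1.1, p.2⟩)
      invFun := fun q => ⟨(q.2.1, q.1), q.2.2⟩
      left_inv := fun p => rfl
      right_inv := fun q => rfl }
  rw [Nat.card_congr (e1.trans e2), Nat.card_prod]

end

end Pool.Agent.AcyAd
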