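import Pool.Agent.AcyAd.Targets2
import Pool.Agent.AcyTest.TREE

/-!
# MP_08c6cd_lc, fully adaptive testers: the graph of the fixed pairs has no short cycles (job AX)
-/

namespace Pool.Agent.AcyAd

open scoped Classical
open Pool.Agent.AcyTest

namespace AX_

/-- A closed sequence without backtracking in a graph without short cycles is long. -/
theorem closed_long {Q : Type} (G : SimpleGraph Q) (g : ℕ) (hG : LongCyc G g) (q : ℕ → Q) (l : ℕ)
    (hl : 1 ≤ l) (hadj : ∀ i, G.Adj (q i) (q (i + 1))) (hback : ∀ i, q i ≠ q (i + 2))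
    (hper : q 0 = q l) : g < l := by
  by_contra hcon
  rw [not_lt] at hcon
  have hex : ∃ n, 1 ≤ n ∧ ∃ i, q i = q (i + n) := ⟨l, hl, 0, by simpa using hper⟩
  obtain ⟨hn1, i, hi⟩ := Nat.find_spec hex
  have hmin : ∀ m, m < Nat.find hex → ¬ (1 ≤ m ∧ ∃ i, q i = q (i + m)) := fun m hm =>
    Nat.find_min hex hm
  have hnl : Nat.find hex ≤ l := Nat.find_min' hex ⟨hl, 0, by simpa using hper⟩
  set n := Nat.find hex with hn
  have hne1 : n ≠ 1 := by
    intro h
    rw [h] at hi
    exact (hadj i).ne hi
  have hne2 : n ≠ 2 := by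
    intro h
    rw [h] at hi
    exact hback i hi
  obtain ⟨p, hp, hs⟩ := TREE.walk_along G q (i + 1) (n - 1) (fun j _ => by
    have := hadj (i + 1 + j)
    exact this)
  have hpath : p.IsPath := by
    rw [SimpleGraph.Walk.isPath_def, hs]
    apply List.Nodup.map_on _ List.nodup_range
    intro a ha b hb hab
    rw [List.mem_range] at ha hb
    by_contra hne
    rcases Nat.lt_or_gt_of_ne hne with hlt | hlt
    · refine hmin (b - a) (by omega) ⟨by omega, i + 1 + a, ?_⟩
      rw [hab]
      congr 1
      omega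
    · refine hmin (a - b) (by omega) ⟨by omega, i + 1 + b, ?_⟩
      rw [← hab]
      congr 1
      omega
  have hend : q (i + 1 + (n - 1)) = q i := by
    rw [hi]
    congr 1
    omega
  have h1 := tTREE Q G g hG (q (i + 1)) (q i) (p.copy rfl hend)
    (SimpleGraph.Walk.cons (hadj i).symm SimpleGraph.Walk.nil)
    ((SimpleGraph.Walk.isPath_copy _ _ _).2 hpath) (by
      rw [SimpleGraph.Walk.cons_isPath_iff]
      refine ⟨SimpleGraph.Walk.IsPath.nil, ?_⟩
      simpa using (hadj i).ne') (by
      rw [SimpleGraph.Walk.length_copy, hp]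
      simp only [SimpleGraph.Walk.length_cons, SimpleGraph.Walk.length_nil]
      omega)
  have h2 := congrArg SimpleGraph.Walk.length h1
  rw [SimpleGraph.Walk.length_copy, hp] at h2
  simp only [SimpleGraph.Walk.length_cons, SimpleGraph.Walk.length_nil] at h2
  omega

end AX_

open AX_

theorem tAX : T_AX := by
  intro S F H v p hp
  have h3 := hp.three_le_length
  set l := p.length with hl
  -- the periodic sequence
  let x : ℕ → S.V := fun i => p.getVert (i % l)
  have hxs : ∀ i, x (i + 1) = p.getVert (i % l + 1) := by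
    intro i
    show p.getVert ((i + 1) % l) = _
    rcases Nat.lt_or_ge (i % l + 1) l with h | h
    · congr 1
      rw [Nat.add_mod, Nat.mod_eq_of_lt (a := 1) (by omega), Nat.mod_eq_of_lt h]
    · have h4 : i % l < l := Nat.mod_lt _ (by omega)
      have h5 : i % l + 1 = l := by omega
      have h6 : (i + 1) % l = 0 := by
        rw [Nat.add_mod, Nat.mod_eq_of_lt (a := 1) (by omega), h5, Nat.mod_self]
      rw [h6, h5, SimpleGraph.Walk.getVert_zero, hl, SimpleGraph.Walk.getVert_length]
  have hadj : ∀ i, F.gr.Adj (x i) (x (i + 1)) := by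
    intro i
    rw [hxs i]
    exact p.adj_getVert_succ (Nat.mod_lt _ (by omega))
  have hx2 : ∀ i, x i ≠ x (i + 2) := by
    intro i h
    have h4 : i % l < l := Nat.mod_lt _ (by omega)
    have h5 : (i + 2) % l < l := Nat.mod_lt _ (by omega)
    have h6 := hp.getVert_injOn' (show i % l ≤ p.length - 1 by omega)
      (show (i + 2) % l ≤ p.length - 1 by omega) h
    have h7 : (i + 2) % l = (i % l + 2) % l := by
      rw [Nat.add_mod, Nat.mod_eq_of_lt (a := 2) (by omega)]
    rw [h7] at h6
    rcases Nat.lt_or_ge (i % l + 2) l with h8 | h8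
    · rw [Nat.mod_eq_of_lt h8] at h6
      omega
    · have h9 : (i % l + 2) % l = i % l + 2 - l := by
        rw [Nat.mod_eq_sub_mod h8]
        exact Nat.mod_eq_of_lt (by omega)
      rw [h9] at h6
      omega
  -- projections
  have hfx : ∀ i, ∃ b r r', F.fx b (x i, r) = some (x (i + 1), r') := fun i => (hadj i).2
  choose b r r' hfx using hfx
  have hpr : ∀ i, ∃ q, H.prj (x i) = some q := by
    intro i
    obtain ⟨q, q', h1, -, -⟩ := H.fx_adj _ _ _ (hfx i)
    exact ⟨q, h1⟩
  choose q hq using hpr
  have hqadj : ∀ i, H.GQ.Adj (q i) (q (i + 1)) := by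
    intro i
    obtain ⟨a, a', h1, h2, h3⟩ := H.fx_adj _ _ _ (hfx i)
    have e1 : q i = a := by
      have := hq i
      rw [show H.prj (x i) = some a from h1] at this
      exact (Option.some.inj this).symm
    have e2 : q (i + 1) = a' := by
      have := hq (i + 1)
      rw [show H.prj (x (i + 1)) = some a' from h2] at this
      exact (Option.some.inj this).symm
    rw [e1, e2]
    exact h3
  have hq2 : ∀ i, q i ≠ q (i + 2) := by
    intro i h
    have e1 := F.inv _ _ _ (hfx i)
    have e2 := hfx (i + 1)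
    have e3 : H.prj (x i) = H.prj (x (i + 2)) := by rw [hq i, hq (i + 2), h]
    obtain ⟨e4, e5⟩ := H.fx_inj _ _ _ _ _ _ _ e1 e2 e3
    rw [e4, e5, e2] at e1
    have e6 := Option.some.inj e1
    exact hx2 i (congrArg Prod.fst e6).symm
  have hper : q 0 = q l := by
    have e1 : x 0 = x l := by
      show p.getVert (0 % l) = p.getVert (l % l)
      rw [Nat.zero_mod, Nat.mod_self]
    have e2 := hq 0
    rw [e1, hq l] at e2
    exact (Option.some.inj e2).symm
  exact closed_long H.GQ H.g0 H.long q l (by omega) hqadj hq2 hper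

end Pool.Agent.AcyAd
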