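import Pool.Agent.AcyAd.Targets1

/-!
# MP_08c6cd_lc, fully adaptive testers: the run with two equal copies is the run
-/

namespace Pool.Agent.AcyAd

open scoped Classical

noncomputable section

variable {S : Sys} {F : Fx S}

namespace IDENT_

/-- The entry `e` after `L` is counted by `nbad`. -/
def bad (B : Blk S F) (C : Finset S.V) (L : List (En S)) (e : En S) : Prop :=
  e.a ∉ known e.b L ∧ B.ins e.b e.p ∧
    (e.a.1 ∈ C ∨ ∃ y, e.r = some y ∧ y.1.1 ∈ C) ∧ ¬ ∃ v, B.good C L e v

/-- The pair (out-slot, in-slot). -/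
def pr (b : Bool) (a a' : S.Sl) : S.Sl × S.Sl := if b then (a, a') else (a', a)

theorem pr_true (a a' : S.Sl) : pr true a a' = (a, a') := rfl

theorem pr_false (a a' : S.Sl) : pr false a a' = (a', a) := rfl

/-- The flagged pairs. -/
def flg (B : Blk S F) (C : Finset S.V) : List (En S) → Finset (S.Sl × S.Sl)
  | [] => ∅
  | e :: L => flg B C L ∪ (if bad B C L e then
      match e.r with | some y => {pr e.b e.a y.1} | none => ∅ else ∅)

theorem card_flg (B : Blk S F) (C : Finset S.V) (L : List (En S)) :
    (flg B C L).card ≤ B.nbad C L := by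
  induction L with
  | nil => simp [flg, Blk.nbad]
  | cons e L ih =>
    simp only [flg, Blk.nbad]
    refine (Finset.card_union_le _ _).trans (add_le_add ih ?_)
    by_cases h : bad B C L e
    · rw [if_pos h, if_pos (by exact h)]
      rcases e.r with _ | y <;> simp
    · rw [if_neg h]
      simp

theorem mem_flg {B : Blk S F} {C : Finset S.V} {L : List (En S)} {p : S.Sl × S.Sl} :
    p ∈ flg B C L ↔ ∃ e L', e :: L' <:+ L ∧ bad B C L' e ∧
      ∃ y, e.r = some y ∧ p = pr e.b e.a y.1 := by
  induction L with
  | nil => simp [flg]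
  | cons e L ih =>
    simp only [flg, Finset.mem_union, ih]
    constructor
    · rintro (⟨e', L', h1, h2⟩ | h)
      · exact ⟨e', L', h1.trans (List.suffix_cons _ _), h2⟩
      · by_cases hb : bad B C L e
        · rw [if_pos hb] at h
          rcases hr : e.r with _ | y
          · rw [hr] at h
            simp at h
          · rw [hr] at h
            simp only [Finset.mem_singleton] at h
            exact ⟨e, L, List.suffix_rfl, hb, y, hr, h⟩
        · rw [if_neg hb] at h
          simp at h
    · rintro ⟨e', L', h1, h2, y, hy, hp⟩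
      rw [List.suffix_cons_iff] at h1
      rcases h1 with h1 | h1
      · obtain ⟨rfl, rfl⟩ := List.cons.inj h1
        right
        rw [if_pos h2, hy]
        simpa using hp
      · exact Or.inl ⟨e', L', h1, h2, y, hy, hp⟩

theorem flag_some {g : Gs S} {b : Bool} {a a' : S.Sl} (h : g.flag b a = some a') :
    pr b a a' ∈ g.Fl := by
  unfold Gs.flag at h
  by_cases hh : ∃ a', (if b then (a, a') else (a', a)) ∈ g.Fl
  · rw [dif_pos hh] at h
    have h1 := hh.choose_spec
    rw [Option.some.inj h] at h1
    exact h1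
  · rw [dif_neg hh] at h
    cases h

theorem flag_ne_none {g : Gs S} {b : Bool} {a a' : S.Sl} (h : pr b a a' ∈ g.Fl) :
    g.flag b a ≠ none := by
  unfold Gs.flag
  rw [dif_pos ⟨a', h⟩]
  simp

/-- Inner slots have partners. -/
theorem ins_some (w : World S) {B : Blk S F} {b : Bool} {y : S.Sl} (h : B.ins b y) :
    ∃ y', w.mt F b y = some y' := by
  rcases h with ⟨κ, _, h⟩ | ⟨_, h⟩
  · cases b
    · exact ⟨_, w.mt_false h⟩
    · exact ⟨_, w.mt_true h⟩
  · rw [w.mt_none (F.cc_none h)]
    exact Option.ne_none_iff_exists'.1 h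

theorem ans_some {e : En S} {a : S.Sl} : e.ans = some a ↔ ∃ y, e.r = some y ∧ y.1 = a := by
  unfold En.ans
  rw [Option.map_eq_some_iff]

/-- If the slot is known then the answer was touched. -/
theorem known_ans {σ : Player S} {w : World S} {k : ℕ} {L : List (En S)}
    (hL : ∀ e ∈ L, e ∈ run F σ w k) {b : Bool} {a a' : S.Sl} (ha : a ∈ known b L)
    (h : w.ask F b a = some a') : a'.1 ∈ touched L ∧ a' ∈ known (!b) L := by
  rw [mem_known] at ha
  obtain ⟨e, he, ha⟩ := ha
  rcases ha with ⟨rfl, rfl⟩ | ⟨h1, y, hy, rfl⟩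
  · rw [← run_ans σ w (hL e he), ans_some] at h
    obtain ⟨y, hy, rfl⟩ := h
    refine ⟨mem_touched.2 ⟨e, he, Or.inr ⟨y, hy, rfl⟩⟩, mem_known.2 ⟨e, he, Or.inr ⟨?_, y, hy, rfl⟩⟩⟩
    cases e.b <;> simp
  · have h2 := (run_r σ w (hL e he) hy).2.2
    have h3 := w.ask_inv h2
    have h4 : (!e.b) = b := by
      revert h1
      cases e.b <;> cases b <;> simp
    rw [h4, h] at h3
    have h5 := Option.some.inj h3
    subst h5
    refine ⟨mem_touched.2 ⟨e, he, Or.inl rfl⟩, mem_known.2 ⟨e, he, Or.inl ⟨?_, rfl⟩⟩⟩
    rw [← h4]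
    cases e.b <;> simp

theorem gset_sub (B : Blk S F) (C : Finset S.V) (L : List (En S)) : B.gset C L ⊆ C := by
  induction L with
  | nil => simp [Blk.gset]
  | cons e L ih =>
    simp only [Blk.gset]
    exact Finset.union_subset ih (Finset.filter_subset _ _)

theorem gset_mono (B : Blk S F) (C : Finset S.V) {L L' : List (En S)} (h : L' <:+ L) :
    B.gset C L' ⊆ B.gset C L := by
  obtain ⟨M, rfl⟩ := h
  induction M with
  | nil => exact subset_rfl
  | cons e M ih =>
    refine ih.trans ?_
    simp only [List.cons_append, Blk.gset]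
    exact Finset.subset_union_left

theorem known_suffix {b : Bool} {L L' : List (En S)} (h : L' <:+ L) : known b L' ⊆ known b L := by
  intro a ha
  rw [mem_known] at ha ⊢
  obtain ⟨e, he, h'⟩ := ha
  exact ⟨e, h.subset he, h'⟩

/-- Members of `gset` were discovered before they are touched again. -/
theorem gset_back (B : Blk S F) (C : Finset S.V) {L M : List (En S)} (h : M <:+ L) {v : S.V}
    (hv : v ∈ B.gset C L) (ht : v ∈ touched M) : v ∈ B.gset C M := by
  obtain ⟨N, rfl⟩ := h
  induction N with
  | nil => exact hv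
  | cons e N ih =>
    apply ih
    simp only [List.cons_append, Blk.gset, Finset.mem_union, Finset.mem_filter] at hv
    rcases hv with hv | ⟨_, hv⟩
    · exact hv
    · exfalso
      have h1 := (disc_iff.1 hv.2.2.2).1
      exact h1 (touched_suffix (List.suffix_append N M) ht)

theorem in_R0 (B : Blk S F) (C : Finset S.V) {L L' : List (En S)} {e : En S}
    (h : e :: L' <:+ L) (he : e.a.1 ∈ C) : e.a.1 ∈ (C \ B.gset C L) ∪ B.gset C L' := by
  rw [Finset.mem_union, Finset.mem_sdiff]
  by_cases hg : e.a.1 ∈ B.gset C L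
  · right
    have h1 := gset_back B C h hg disc_par_touched
    simp only [Blk.gset, Finset.mem_union, Finset.mem_filter] at h1
    rcases h1 with h1 | ⟨_, h1⟩
    · exact h1
    · exact absurd rfl (disc_iff.1 h1.2.2.2).2.1
  · exact Or.inl ⟨he, hg⟩

section

variable (B : Blk S F) (C : Finset S.V) (σ : Player S) (w : World S) (k : ℕ)

/-- Flags are true pairs. -/
theorem flag_ask {g : Gs S} (hg : g.Fl = flg B C (run F σ w k)) {b : Bool} {a a' : S.Sl}
    (h : g.flag b a = some a') : w.ask F b a = some a' := by
  have h1 := flag_some h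
  rw [hg, mem_flg] at h1
  obtain ⟨e, L', h2, _, y, hy, hp⟩ := h1
  have he : e ∈ run F σ w k := h2.subset List.mem_cons_self
  have h3 := (run_r σ w he hy).2.2
  rcases hb : e.b with _ | _ <;> rcases hb' : b with _ | _ <;>
    simp only [pr, hb, hb', Prod.mk.injEq, if_true, Bool.false_eq_true, if_false] at hp <;>
    obtain ⟨rfl, rfl⟩ := hp
  · rw [← hb]
    exact h3
  · have h4 := w.ask_inv h3
    rw [hb] at h4
    exact h4
  · have h4 := w.ask_inv h3
    rw [hb] at h4
    exact h4
  · rw [← hb]
    exact h3

/-- A new slot is flagged iff its entry is bad. -/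
theorem flag_iff {g : Gs S} (hg : g.Fl = flg B C (run F σ w k)) {e : En S} {L' : List (En S)}
    (h : e :: L' <:+ run F σ w k) (hk : e.a ∉ known e.b L') :
    g.flag e.b e.a ≠ none ↔ bad B C L' e := by
  have he : e ∈ run F σ w k := h.subset List.mem_cons_self
  constructor
  · intro hf
    obtain ⟨a', ha'⟩ := Option.ne_none_iff_exists'.1 hf
    have hask := flag_ask B C σ w k hg ha'
    have h1 := flag_some ha'
    rw [hg, mem_flg] at h1
    obtain ⟨e1, L1, h2, hbad, y, hy, hp⟩ := h1
    have he1 : e1 ∈ run F σ w k := h2.subset List.mem_cons_self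
    have hask1 := (run_r σ w he1 hy).2.2
    -- the slot of `e` is known after `e1`
    have hA : e.a ∈ known e.b (e1 :: L1) := by
      rw [mem_known_cons]
      right
      rcases hb : e1.b with _ | _ <;> rcases hb' : e.b with _ | _ <;>
        simp only [pr, hb, hb', Prod.mk.injEq, if_true, Bool.false_eq_true, if_false] at hp <;>
        obtain ⟨h3, h4⟩ := hp
      · exact Or.inl ⟨rfl, h4.symm⟩
      · exact Or.inr ⟨by simp, y, hy, h3.symm⟩
      · exact Or.inr ⟨by simp, y, hy, h4.symm⟩
      · exact Or.inl ⟨rfl, h3.symm⟩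
    -- the slot of `e1` is known after `e`
    have hB : e1.a ∈ known e1.b (e :: L') := by
      rw [mem_known_cons]
      right
      have hans : e.ans = some a' := by rw [run_ans σ w he, hask]
      rw [ans_some] at hans
      obtain ⟨z, hz, hza⟩ := hans
      rcases hb : e1.b with _ | _ <;> rcases hb' : e.b with _ | _ <;>
        simp only [pr, hb, hb', Prod.mk.injEq, if_true, Bool.false_eq_true, if_false] at hp <;>
        obtain ⟨h3, h4⟩ := hp
      · exact Or.inl ⟨rfl, h4⟩
      · exact Or.inr ⟨by simp, z, hz, by rw [hza, h4]⟩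
      · exact Or.inr ⟨by simp, z, hz, by rw [hza, h3]⟩
      · exact Or.inl ⟨rfl, h3⟩
    rcases List.suffix_or_suffix_of_suffix h h2 with hs | hs
    · rw [List.suffix_cons_iff] at hs
      rcases hs with hs | hs
      · obtain ⟨rfl, rfl⟩ := List.cons.inj hs
        exact hbad
      · exact absurd (known_suffix hs hB) hbad.1
    · rw [List.suffix_cons_iff] at hs
      rcases hs with hs | hs
      · obtain ⟨rfl, rfl⟩ := List.cons.inj hs
        exact hbad
      · exact absurd (known_suffix hs hA) hk
  · intro hbad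
    obtain ⟨h1, h2⟩ := run_mem σ w he
    obtain ⟨y', hy'⟩ := ins_some w hbad.2.1
    rw [hy'] at h2
    refine flag_ne_none (a' := w.unplc (!e.b) y') ?_
    rw [hg, mem_flg]
    exact ⟨e, L', h, hbad, _, h2, rfl⟩

variable (w0 : World S) (hins : ∀ b a, B.ins b (w.plc b a) ↔ B.ins b (w0.plc b a))
  (hlam : ∀ v, w.lam v ∈ B.M ↔ w0.lam v ∈ B.M) (hM : ∀ v ∈ C, w.lam v ∈ B.M)

include hins in
/-- The key: the questions to the second copy are the good ones. -/
theorem c2_iff {g : Gs S} (hg : g.Fl = flg B C (run F σ w k))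
    (hR : g.R0 = C \ B.gset C (run F σ w k)) {e : En S} {L' : List (En S)}
    (h : e :: L' <:+ run F σ w k) (hp2 : p2 B w0 g (L'.map En.vis) = B.gset C L') :
    c2 B w0 g (L'.map En.vis) e.b e.a ↔ ∃ v, B.good C L' e v := by
  have he : e ∈ run F σ w k := h.subset List.mem_cons_self
  obtain ⟨hp, hr⟩ := run_mem σ w he
  constructor
  · rintro ⟨h1, h2, h3, h4⟩
    have hk : e.a ∉ known e.b L' := h1
    have hnb : ¬ bad B C L' e := by
      intro hb
      exact (flag_iff B C σ w k hg h hk).2 hb h2
    rw [hp2, hR] at h4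
    have hC : e.a.1 ∈ C := by
      rw [Finset.mem_union, Finset.mem_sdiff] at h4
      rcases h4 with h4 | h4
      · exact h4.1
      · exact gset_sub B C L' h4
    by_contra hgood
    refine hnb ⟨hk, ?_, Or.inl hC, hgood⟩
    rw [hp, hins]
    exact h3
  · rintro ⟨v, hv⟩
    have hk : e.a ∉ known e.b L' := by
      intro hk
      obtain ⟨h1, _, y, hy, hyv⟩ := disc_iff.1 hv.2.2.2
      have h2 := (run_r σ w he hy).2.2
      have h3 := (known_ans (σ := σ) (w := w) (k := k) (L := L')
        (fun e' he' => h.subset (List.mem_cons_of_mem _ he')) hk h2).1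
      rw [hyv] at h3
      exact h1 h3
    refine ⟨hk, ?_, ?_, ?_⟩
    · by_contra hf
      exact ((flag_iff B C σ w k hg h hk).1 hf).2.2.2 ⟨v, hv⟩
    · rw [← hins, ← hp]
      exact hv.1
    · rw [hp2, hR]
      exact in_R0 B C h hv.2.1

end

end IDENT_

open IDENT_ in
theorem tIDENT : T_IDENT := by
  intro S F B σ w k C hC hM
  refine ⟨flg B C (run F σ w k), card_flg B C _, fun w0 hins hlam => ?_⟩
  set g : Gs S := ⟨C \ B.gset C (run F σ w k), flg B C (run F σ w k)⟩ with hgdef
  have hg : g.Fl = flg B C (run F σ w k) := rfl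
  have hR : g.R0 = C \ B.gset C (run F σ w k) := rfl
  have key : ∀ j ≤ k, run2 (F := F) B w0 g σ w w j = (run F σ w j).map En.vis ∧
      nice2 B w0 g ((run F σ w j).map En.vis) ∧
      p2 B w0 g ((run F σ w j).map En.vis) = B.gset C (run F σ w j) ∧
      B.dset C (run F σ w j) ⊆ d2 B w0 g w ((run F σ w j).map En.vis) := by
    intro j
    induction j with
    | zero =>
      intro _
      exact ⟨rfl, trivial, rfl, subset_rfl⟩
    | succ j ih =>
      intro hj
      obtain ⟨h1, h2, h3, h4⟩ := ih (by omega)
      set L' := run F σ w j with hL'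
      set e := nxt F w (σ (L'.map En.ans)) with hedef
      have hrun : run F σ w (j + 1) = e :: L' := rfl
      have hsuf : e :: L' <:+ run F σ w k := by
        rw [← hrun]
        exact run_suffix σ w hj
      have he : e ∈ run F σ w k := hsuf.subset List.mem_cons_self
      obtain ⟨hp, hr⟩ := run_mem σ w he
      have hans := run_ans σ w he
      have hc2 := c2_iff B C σ w k w0 hins hg hR hsuf h3
      have hq1 : (L'.map En.vis).map VE.r = L'.map En.ans := by
        rw [List.map_map]
        rfl
      rw [hrun, List.map_cons]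
      refine ⟨?_, ⟨h2, ?_, ?_⟩, ?_, ?_⟩
      · -- the run
        simp only [run2]
        rw [h1, hq1]
        congr 1
        change (⟨e.b, e.a, ans2 B w0 g w w (L'.map En.vis) e.b e.a⟩ : VE S) = ⟨e.b, e.a, e.ans⟩
        congr 1
        unfold ans2
        by_cases hk : e.a ∈ vknown e.b (L'.map En.vis)
        · rw [if_pos hk, hans]
          exact look_eq σ w j e.b e.a hk
        · rw [if_neg hk]
          by_cases hf : g.flag e.b e.a ≠ none
          · rw [if_pos hf, hans]
            obtain ⟨a', ha'⟩ := Option.ne_none_iff_exists'.1 hf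
            rw [ha', flag_ask B C σ w k hg ha']
          · rw [if_neg hf, hans]
            split <;> rfl
      · -- c2
        intro hc
        obtain ⟨v, hv⟩ := hc2.1 hc
        obtain ⟨hd1, hd2, y, hy, hyv⟩ := disc_iff.1 hv.2.2.2
        refine ⟨y.1, ?_, ?_, ?_, ?_, ?_, ?_⟩
        · change e.r.map Prod.fst = some y.1
          rw [hy]
          rfl
        · rw [hyv]
          exact hd1
        · rw [hyv]
          exact hd2
        · rw [hyv, hR, Finset.mem_sdiff]
          rintro ⟨_, hn⟩
          apply hn
          apply gset_mono B C hsuf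
          simp only [Blk.gset, Finset.mem_union, Finset.mem_filter]
          exact Or.inr ⟨hv.2.2.1, hv⟩
        · exact (hlam _).1 (hM _ hv.2.1)
        · rw [hyv]
          exact (hlam _).1 (hM _ hv.2.2.1)
      · -- c1
        rintro ⟨hc1, hc2', hc3, hc4⟩
        have hk : e.a ∉ known e.b L' := hc1
        have hinse : B.ins e.b e.p := by
          rw [hp, hins]
          exact hc3
        obtain ⟨y', hy'⟩ := ins_some w hinse
        rw [hy'] at hr
        refine ⟨w.unplc (!e.b) y', ?_, ?_⟩
        · change e.r.map Prod.fst = some _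
          rw [hr]
          rfl
        · intro hmem
          rw [h3, hR] at hmem
          have hyC : (w.unplc (!e.b) y').1 ∈ C := by
            rw [Finset.mem_union, Finset.mem_sdiff] at hmem
            rcases hmem with hm | hm
            · exact hm.1
            · exact gset_sub B C L' hm
          have hbad : bad B C L' e := by
            refine ⟨hk, hinse, Or.inr ⟨_, hr, hyC⟩, ?_⟩
            rintro ⟨v, hv⟩
            apply hc4
            rw [h3, hR]
            exact in_R0 B C hsuf hv.2.1
          exact (flag_iff B C σ w k hg hsuf hk).2 hbad hc2'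
      · -- p2
        simp only [p2, Blk.gset]
        rw [h3]
        congr 1
        by_cases hc : c2 B w0 g (L'.map En.vis) e.b e.a
        · obtain ⟨v, hv⟩ := hc2.1 hc
          rw [if_pos (by rw [← h3]; exact hc)]
          ext v'
          rw [VE.mem_nm, Finset.mem_filter]
          constructor
          · rintro ⟨y, hy, rfl⟩
            obtain ⟨hd1, hd2, z, hz, hzv⟩ := disc_iff.1 hv.2.2.2
            have hy' : e.r.map Prod.fst = some y := hy
            rw [hz] at hy'
            have : z.1 = y := Option.some.inj hy'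
            rw [← this, hzv]
            exact ⟨hv.2.2.1, hv⟩
          · rintro ⟨_, hv'⟩
            obtain ⟨hd1, hd2, z, hz, hzv⟩ := disc_iff.1 hv'.2.2.2
            refine ⟨z.1, ?_, hzv⟩
            change e.r.map Prod.fst = some z.1
            rw [hz]
            rfl
        · rw [if_neg (by rw [← h3]; exact hc)]
          symm
          rw [Finset.filter_eq_empty_iff]
          intro v _ hv
          exact hc (hc2.2 ⟨v, hv⟩)
      · -- d2
        simp only [Blk.dset, d2]
        refine Finset.union_subset_union h4 ?_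
        intro v hv
        rw [Finset.mem_filter] at hv
        obtain ⟨hvC, hv, hth⟩ := hv
        rw [if_pos ⟨hc2.2 ⟨v, hv⟩, by rw [hp] at hth; exact hth⟩]
        rw [VE.mem_nm]
        obtain ⟨hd1, hd2, z, hz, hzv⟩ := disc_iff.1 hv.2.2.2
        refine ⟨z.1, ?_, hzv⟩
        change e.r.map Prod.fst = some z.1
        rw [hz]
        rfl
  obtain ⟨h1, h2, h3, h4⟩ := key k le_rfl
  refine ⟨h1, h2, ?_, h4⟩
  rw [h3]
  exact Finset.sdiff_union_of_subset (gset_sub B C _)

end

end Pool.Agent.AcyAd
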