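import Pool.Agent.AcyAd.Targets2
import Pool.Agent.AcyAd.IDENT

/-!
# MP_08c6cd_lc, fully adaptive testers: the number of bottom hits
-/

namespace Pool.Agent.AcyAd

open scoped Classical
open Pool.Agent.AcyTest

noncomputable section

variable {S : Sys} {F : Fx S}

namespace BH_

/-- An edge and a short walk between its ends which avoids it. -/
theorem core {V : Type} {G : SimpleGraph V} {g : ℕ} (hG : LongCyc G g) {x y : V}
    (hadj : G.Adj x y) (p : G.Walk y x) (hp : p.length + 1 ≤ g) (hne : s(x, y) ∉ p.edges) :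
    False := by
  have h1 : (SimpleGraph.Walk.cons hadj p.bypass).IsCycle := by
    rw [SimpleGraph.Walk.cons_isCycle_iff]
    exact ⟨p.bypass_isPath, fun h => hne (p.edges_bypass_subset_edges h)⟩
  have h2 := hG _ _ h1
  have h3 := p.length_bypass_le_length
  rw [SimpleGraph.Walk.length_cons] at h2
  omega

/-- A new entry with a fixed pair. -/
structure NF (F : Fx S) (L0 M : List (En S)) (e : En S) (y : S.Sl × S.Sl) : Prop where
  suf : e :: M <:+ L0
  new : e.a ∉ known e.b M
  fx : F.fx e.b e.p = some y.2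
  r : e.r = some y

theorem NF.of {σ : Player S} {w : World S} {k : ℕ} {M : List (En S)} {e : En S}
    {y : S.Sl × S.Sl} (hs : e :: M <:+ run F σ w k) (hn : e.a ∉ known e.b M)
    (hf : F.fx e.b e.p ≠ none) (hr : e.r = some y) : NF F (run F σ w k) M e y := by
  refine ⟨hs, hn, ?_, hr⟩
  have he : e ∈ run F σ w k := hs.subset List.mem_cons_self
  have h1 := (run_r σ w he hr).1
  rwa [w.mt_none (F.cc_none hf)] at h1

section

variable {σ : Player S} {w : World S} {k : ℕ}

theorem NF.p1 {M : List (En S)} {e : En S} {y : S.Sl × S.Sl} (h : NF F (run F σ w k) M e y) :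
    e.p = w.plc e.b e.a ∧ y.2 = w.plc (!e.b) y.1 ∧ e.p.1 = w.lam e.a.1 ∧ y.2.1 = w.lam y.1.1 := by
  have he : e ∈ run F σ w k := h.suf.subset List.mem_cons_self
  have h1 := (run_mem σ w he).1
  have h2 := (run_r σ w he h.r).2.1
  refine ⟨h1, h2, ?_, ?_⟩
  · rw [h1]; rfl
  · rw [h2]; rfl

variable (H : Hier S F)

include H

/-- Later new entries have other edges. -/
theorem edge_lt {M₁ M₂ : List (En S)} {e₁ e₂ : En S} {y₁ y₂ : S.Sl × S.Sl}
    (h₁ : NF F (run F σ w k) M₁ e₁ y₁) (h₂ : NF F (run F σ w k) M₂ e₂ y₂)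
    (hlt : e₁ :: M₁ <:+ M₂)
    (he : s(w.lam e₁.a.1, w.lam y₁.1.1) = s(w.lam e₂.a.1, w.lam y₂.1.1)) : False := by
  obtain ⟨p1, p2, p3, p4⟩ := h₁.p1
  obtain ⟨q1, q2, q3, q4⟩ := h₂.p1
  rw [← p3, ← p4, ← q3, ← q4] at he
  have hf1 := h₁.fx
  have hf2 := h₂.fx
  rw [Sym2.eq_iff] at he
  rcases he with ⟨h3, h4⟩ | ⟨h3, h4⟩
  · have h5 := H.fx_inj e₁.b e₂.b e₁.p.1 e₁.p.2 e₂.p.2 y₁.2 y₂.2 hf1
      (by rw [h3]; exact hf2) (by rw [h4])
    have h6 : e₁.p = e₂.p := Prod.ext h3 h5.2
    have h7 : e₁.a = e₂.a := by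
      apply w.plc_inj e₁.b
      rw [← p1, h6, q1, h5.1]
    apply h₂.new
    apply IDENT_.known_suffix hlt
    rw [mem_known_cons]
    exact Or.inr (Or.inl ⟨h5.1, h7⟩)
  · have hf3 := F.inv _ _ _ hf1
    have h5 := H.fx_inj (!e₁.b) e₂.b y₁.2.1 y₁.2.2 e₂.p.2 e₁.p y₂.2 hf3
      (by rw [h4]; exact hf2) (by rw [h3])
    have h6 : y₁.2 = e₂.p := Prod.ext h4 h5.2
    have h7 : y₁.1 = e₂.a := by
      apply w.plc_inj (!e₁.b)
      rw [← p2, h6, q1, h5.1]
    apply h₂.new
    apply IDENT_.known_suffix hlt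
    rw [mem_known_cons]
    refine Or.inr (Or.inr ⟨?_, y₁, h₁.r, h7⟩)
    rw [← h5.1]
    cases e₁.b <;> simp

theorem edge_inj {M₁ M₂ : List (En S)} {e₁ e₂ : En S} {y₁ y₂ : S.Sl × S.Sl}
    (h₁ : NF F (run F σ w k) M₁ e₁ y₁) (h₂ : NF F (run F σ w k) M₂ e₂ y₂)
    (he : s(w.lam e₁.a.1, w.lam y₁.1.1) = s(w.lam e₂.a.1, w.lam y₂.1.1)) :
    e₁ = e₂ ∧ M₁ = M₂ ∧ y₁ = y₂ := by
  have h3 : e₁ :: M₁ = e₂ :: M₂ := by
    rcases List.suffix_or_suffix_of_suffix h₁.suf h₂.suf with h | h
    · rw [List.suffix_cons_iff] at h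
      rcases h with h | h
      · exact h
      · exact (edge_lt H h₁ h₂ h he).elim
    · rw [List.suffix_cons_iff] at h
      rcases h with h | h
      · exact h.symm
      · exact (edge_lt H h₂ h₁ h he.symm).elim
  obtain ⟨rfl, rfl⟩ := List.cons.inj h3
  refine ⟨rfl, rfl, ?_⟩
  have := h₁.r
  rw [h₂.r] at this
  exact (Option.some.inj this).symm

/-- The ends of a fixed pair are adjacent. -/
theorem NF.adj {M : List (En S)} {e : En S} {y : S.Sl × S.Sl}
    (h : NF F (run F σ w k) M e y) : F.gr.Adj (w.lam e.a.1) (w.lam y.1.1) := by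
  obtain ⟨p1, p2, p3, p4⟩ := h.p1
  rw [← p3, ← p4]
  obtain ⟨q, q', h1, h2, h3⟩ := H.fx_adj e.b e.p y.2 h.fx
  refine ⟨?_, e.b, e.p.2, y.2.2, h.fx⟩
  intro h4
  rw [h4, h2] at h1
  exact h3.ne (Option.some.inj h1).symm

theorem NF.near {M : List (En S)} {e : En S} {y : S.Sl × S.Sl}
    (h : NF F (run F σ w k) M e y) : H.near 1 (w.lam e.a.1) (w.lam y.1.1) := by
  obtain ⟨p1, p2, p3, p4⟩ := h.p1
  rw [← p3, ← p4]
  exact H.fx_near h.fx

/-- The discovery edges of the forest of level `R`. -/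
theorem tree_edge {v : S.V} (hv : 0 < H.dep H.R (run F σ w k) v) :
    ∃ M e y, NF F (run F σ w k) M e y ∧ Disc M e v ∧ y.1.1 = v ∧
      par (run F σ w k) v = e.a.1 := by
  obtain ⟨e, M, h1, h2, h3, h4, _⟩ := H.dep_pos hv
  obtain ⟨h5, h6, y, hy, hyv⟩ := disc_iff.1 h2
  have he : e ∈ run F σ w k := h1.subset List.mem_cons_self
  refine ⟨M, e, y, NF.of h1 ?_ (H.ge_R h3) hy, h2, hyv, h4⟩
  intro hk
  have h7 := (IDENT_.known_ans (σ := σ) (w := w) (k := k) (L := M)
    (fun e' he' => h1.subset (List.mem_cons_of_mem _ he')) hk (run_r σ w he hy).2.2).1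
  rw [hyv] at h7
  exact h5 h7

/-- The path to the root in the graph of the fixed pairs. -/
theorem tree_walk : ∀ (n : ℕ) (v : S.V), H.dep H.R (run F σ w k) v = n →
    ∃ p : F.gr.Walk (w.lam v) (w.lam (H.root H.R (run F σ w k) v)), p.length = n ∧
      ∀ ε ∈ p.edges, ∃ v', 0 < H.dep H.R (run F σ w k) v' ∧
        ε = s(w.lam (par (run F σ w k) v'), w.lam v') := by
  intro n
  induction n with
  | zero =>
    intro v hv
    rw [H.root_of_dep hv]
    exact ⟨SimpleGraph.Walk.nil, rfl, by simp⟩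
  | succ n ih =>
    intro v hv
    have h0 : 0 < H.dep H.R (run F σ w k) v := by omega
    obtain ⟨h1, h2, _, _⟩ := H.dep_par h0
    obtain ⟨p, hp1, hp2⟩ := ih (par (run F σ w k) v) (by omega)
    obtain ⟨M, e, y, hnf, hd, hyv, hpar⟩ := tree_edge H h0
    have hadj : F.gr.Adj (w.lam v) (w.lam (par (run F σ w k) v)) := by
      rw [hpar, ← hyv]
      exact (hnf.adj H).symm
    rw [h2]
    refine ⟨SimpleGraph.Walk.cons hadj p, ?_, ?_⟩
    · rw [SimpleGraph.Walk.length_cons, hp1]
    · intro ε hε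
      rw [SimpleGraph.Walk.edges_cons, List.mem_cons] at hε
      rcases hε with rfl | hε
      · exact ⟨v, h0, Sym2.eq_swap⟩
      · exact hp2 ε hε

/-- Near addresses along the tree. -/
theorem tree_near : ∀ (n : ℕ) (v : S.V), H.dep H.R (run F σ w k) v = n → ∀ (m : ℕ) (x : S.V),
    H.near m x (w.lam v) → H.near (m + n) x (w.lam (H.root H.R (run F σ w k) v)) := by
  intro n
  induction n with
  | zero =>
    intro v hv m x hx
    rw [H.root_of_dep hv]
    exact hx
  | succ n ih =>
    intro v hv m x hx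
    have h0 : 0 < H.dep H.R (run F σ w k) v := by omega
    obtain ⟨h1, h2, _, _⟩ := H.dep_par h0
    obtain ⟨M, e, y, hnf, hd, hyv, hpar⟩ := tree_edge H h0
    have hn : H.near 1 (w.lam v) (w.lam (par (run F σ w k) v)) := by
      rw [hpar, ← hyv]
      exact H.near_symm (hnf.near H)
    have h3 := ih (par (run F σ w k) v) (by omega) (m + 1) x (H.near_trans hx hn)
    rw [h2]
    rw [show m + (n + 1) = m + 1 + n by ring]
    exact h3

omit H in
/-- The entry is counted. -/
def cntd (F : Fx S) (A : Finset S.V) (M : List (En S)) (e : En S) : Prop :=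
  e.a ∉ known e.b M ∧ F.fx e.b e.p ≠ none ∧ ∃ y, e.r = some y ∧
    (y.1.1 ∈ touched M ∨ y.1.1 = e.a.1) ∧ (e.a.1 ∈ A ∨ y.1.1 ∈ A)

/-- The edges of the tree are not the edge of a counted entry. -/
theorem avoid {A : Finset S.V} {M : List (En S)} {e : En S} {y : S.Sl × S.Sl}
    (h : NF F (run F σ w k) M e y) (hc : y.1.1 ∈ touched M ∨ y.1.1 = e.a.1) {v : S.V}
    (hv : 0 < H.dep H.R (run F σ w k) v) :
    s(w.lam e.a.1, w.lam y.1.1) ≠ s(w.lam (par (run F σ w k) v), w.lam v) := by
  intro heq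
  obtain ⟨M', e', y', hnf, hd, hyv, hpar⟩ := tree_edge H hv
  rw [hpar, ← hyv] at heq
  obtain ⟨rfl, rfl, rfl⟩ := edge_inj H h hnf heq
  obtain ⟨h1, h2, _⟩ := disc_iff.1 hd
  rw [← hyv] at h1 h2
  rcases hc with hc | hc
  · exact h1 hc
  · exact h2 hc

variable (hAX : LongCyc F.gr H.g0) {h : ℕ} (hdep : ∀ v, H.dep H.R (run F σ w k) v ≤ h)
  (hg : 4 * h + 4 ≤ H.g0)

include hAX hdep hg

/-- (a) the roots are different. -/
theorem roots_ne {M : List (En S)} {e : En S} {y : S.Sl × S.Sl}
    (hn : NF F (run F σ w k) M e y) (hc : y.1.1 ∈ touched M ∨ y.1.1 = e.a.1) :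
    H.root H.R (run F σ w k) e.a.1 ≠ H.root H.R (run F σ w k) y.1.1 := by
  intro heq
  obtain ⟨p, hp1, hp2⟩ := tree_walk (σ := σ) (w := w) (k := k) H _ e.a.1 rfl
  obtain ⟨p', hp1', hp2'⟩ := tree_walk (σ := σ) (w := w) (k := k) H _ y.1.1 rfl
  have hd1 := hdep e.a.1
  have hd2 := hdep y.1.1
  refine core hAX (hn.adj H) ((p'.copy rfl (by rw [heq])).append p.reverse) ?_ ?_
  · rw [SimpleGraph.Walk.length_append, SimpleGraph.Walk.length_copy,
      SimpleGraph.Walk.length_reverse]
    omega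
  · intro hmem
    rw [SimpleGraph.Walk.edges_append, List.mem_append, SimpleGraph.Walk.edges_copy,
      SimpleGraph.Walk.edges_reverse, List.mem_reverse] at hmem
    rcases hmem with hmem | hmem
    · obtain ⟨v, hv, hv2⟩ := hp2' _ hmem
      exact avoid (A := ∅) H hn hc hv hv2
    · obtain ⟨v, hv, hv2⟩ := hp2 _ hmem
      exact avoid (A := ∅) H hn hc hv hv2

/-- (c) different counted entries have different pairs of roots. -/
theorem pair_inj {M₁ M₂ : List (En S)} {e₁ e₂ : En S} {y₁ y₂ : S.Sl × S.Sl}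
    (h₁ : NF F (run F σ w k) M₁ e₁ y₁) (hc₁ : y₁.1.1 ∈ touched M₁ ∨ y₁.1.1 = e₁.a.1)
    (h₂ : NF F (run F σ w k) M₂ e₂ y₂) (hc₂ : y₂.1.1 ∈ touched M₂ ∨ y₂.1.1 = e₂.a.1)
    (heq : (H.root H.R (run F σ w k) e₁.a.1 = H.root H.R (run F σ w k) e₂.a.1 ∧
        H.root H.R (run F σ w k) y₁.1.1 = H.root H.R (run F σ w k) y₂.1.1) ∨
      (H.root H.R (run F σ w k) e₁.a.1 = H.root H.R (run F σ w k) y₂.1.1 ∧
        H.root H.R (run F σ w k) y₁.1.1 = H.root H.R (run F σ w k) e₂.a.1)) :
    e₁ = e₂ ∧ M₁ = M₂ := by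
  by_contra hne
  have hedge : s(w.lam e₁.a.1, w.lam y₁.1.1) ≠ s(w.lam e₂.a.1, w.lam y₂.1.1) := by
    intro hh
    have := edge_inj H h₁ h₂ hh
    exact hne ⟨this.1, this.2.1⟩
  obtain ⟨p1, hp1, hp1'⟩ := tree_walk (σ := σ) (w := w) (k := k) H _ e₁.a.1 rfl
  obtain ⟨q1, hq1, hq1'⟩ := tree_walk (σ := σ) (w := w) (k := k) H _ y₁.1.1 rfl
  obtain ⟨p2, hp2, hp2'⟩ := tree_walk (σ := σ) (w := w) (k := k) H _ e₂.a.1 rfl
  obtain ⟨q2, hq2, hq2'⟩ := tree_walk (σ := σ) (w := w) (k := k) H _ y₂.1.1 rfl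
  have hd1 := hdep e₁.a.1
  have hd2 := hdep y₁.1.1
  have hd3 := hdep e₂.a.1
  have hd4 := hdep y₂.1.1
  have hav : ∀ ε, (∃ v', 0 < H.dep H.R (run F σ w k) v' ∧
      ε = s(w.lam (par (run F σ w k) v'), w.lam v')) → s(w.lam e₂.a.1, w.lam y₂.1.1) ≠ ε := by
    rintro ε ⟨v, hv, rfl⟩
    exact avoid (A := ∅) H h₂ hc₂ hv
  rcases heq with ⟨ha, hb⟩ | ⟨ha, hb⟩
  · -- y₂ → z' → y₁ – e₁ → z → e₂
    refine core hAX (h₂.adj H) ((q2.copy rfl (by rw [hb])).append (q1.reverse.append
      (SimpleGraph.Walk.cons (h₁.adj H).symm ((p1.copy rfl (by rw [ha])).append p2.reverse)))) ?_ ?_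
    · simp only [SimpleGraph.Walk.length_append, SimpleGraph.Walk.length_copy,
        SimpleGraph.Walk.length_reverse, SimpleGraph.Walk.length_cons]
      omega
    · intro hmem
      simp only [SimpleGraph.Walk.edges_append, List.mem_append, SimpleGraph.Walk.edges_copy,
        SimpleGraph.Walk.edges_reverse, List.mem_reverse, SimpleGraph.Walk.edges_cons,
        List.mem_cons] at hmem
      rcases hmem with hmem | hmem | hmem | hmem | hmem
      · exact hav _ (hq2' _ hmem) rfl
      · exact hav _ (hq1' _ hmem) rfl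
      · exact hedge (by rw [hmem, Sym2.eq_swap])
      · exact hav _ (hp1' _ hmem) rfl
      · exact hav _ (hp2' _ hmem) rfl
  · -- y₂ → z → e₁ – y₁ → z' → e₂
    refine core hAX (h₂.adj H) ((q2.copy rfl (by rw [ha])).append (p1.reverse.append
      (SimpleGraph.Walk.cons (h₁.adj H) ((q1.copy rfl (by rw [hb])).append p2.reverse)))) ?_ ?_
    · simp only [SimpleGraph.Walk.length_append, SimpleGraph.Walk.length_copy,
        SimpleGraph.Walk.length_reverse, SimpleGraph.Walk.length_cons]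
      omega
    · intro hmem
      simp only [SimpleGraph.Walk.edges_append, List.mem_append, SimpleGraph.Walk.edges_copy,
        SimpleGraph.Walk.edges_reverse, List.mem_reverse, SimpleGraph.Walk.edges_cons,
        List.mem_cons] at hmem
      rcases hmem with hmem | hmem | hmem | hmem | hmem
      · exact hav _ (hq2' _ hmem) rfl
      · exact hav _ (hp1' _ hmem) rfl
      · exact hedge hmem.symm
      · exact hav _ (hq1' _ hmem) rfl
      · exact hav _ (hp2' _ hmem) rfl

end

/-- The pair of roots, with the root in `A` first. -/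
def im (H : Hier S F) (L0 : List (En S)) (A : Finset S.V) (e : En S) (y : S.Sl × S.Sl) :
    S.V × S.V :=
  if e.a.1 ∈ A then (H.root H.R L0 e.a.1, H.root H.R L0 y.1.1)
  else (H.root H.R L0 y.1.1, H.root H.R L0 e.a.1)

/-- The pairs of roots of the counted entries. -/
def img (H : Hier S F) (L0 : List (En S)) (A : Finset S.V) : List (En S) → Finset (S.V × S.V)
  | [] => ∅
  | e :: M => img H L0 A M ∪ (if cntd F A M e then
      match e.r with | some y => {im H L0 A e y} | none => ∅ else ∅)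

theorem mem_img {H : Hier S F} {L0 : List (En S)} {A : Finset S.V} {L : List (En S)}
    {p : S.V × S.V} : p ∈ img H L0 A L ↔ ∃ e M, e :: M <:+ L ∧ cntd F A M e ∧
      ∃ y, e.r = some y ∧ p = im H L0 A e y := by
  induction L with
  | nil => simp [img]
  | cons e L ih =>
    simp only [img, Finset.mem_union, ih]
    constructor
    · rintro (⟨e', L', h1, h2⟩ | h)
      · exact ⟨e', L', h1.trans (List.suffix_cons _ _), h2⟩
      · by_cases hb : cntd F A L e
        · rw [if_pos hb] at h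
          rcases hr : e.r with _ | y
          · rw [hr] at h
            simp at h
          · rw [hr] at h
            simp only [Finset.mem_singleton] at h
            exact ⟨e, L, List.suffix_rfl, hb, y, hr, h⟩
        · rw [if_neg hb] at h
          simp at h
    · rintro ⟨e', L', h1, h2, y, hy, hp⟩
      rw [List.suffix_cons_iff] at h1
      rcases h1 with h1 | h1
      · obtain ⟨rfl, rfl⟩ := List.cons.inj h1
        right
        rw [if_pos h2, hy]
        simpa using hp
      · exact Or.inl ⟨e', L', h1, h2, y, hy, hp⟩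

end BH_

open BH_ in
theorem tBH (hAX : T_AX) : T_BH := by
  intro S F H σ w k h n m A hA hpart hdep hg hn hnb
  have hax := hAX S F H
  set L := run F σ w k with hL
  -- counting
  have hcount : ∀ M : List (En S), M <:+ L → Hier.bhs (F := F) A M ≤ (img H L A M).card := by
    intro M
    induction M with
    | nil => intro _; simp [Hier.bhs]
    | cons e M ih =>
      intro hs
      have ih' := ih ((List.suffix_cons _ _).trans hs)
      simp only [Hier.bhs, img]
      by_cases hc : cntd F A M e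
      · rw [if_pos hc, if_pos (by exact hc)]
        obtain ⟨hc1, hc2, y, hy, hc3, hc4⟩ := hc
        rw [hy]
        have hnf : NF F L M e y := NF.of hs hc1 hc2 hy
        have hnot : im H L A e y ∉ img H L A M := by
          intro hmem
          obtain ⟨e₁, M₁, h1, ⟨hd1, hd2, y', hy', hd3, hd4⟩, y₁, hy₁, him⟩ := mem_img.1 hmem
          rw [hy₁] at hy'
          have hyy := Option.some.inj hy'
          subst hyy
          have hs1 : e₁ :: M₁ <:+ L := h1.trans ((List.suffix_cons _ _).trans hs)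
          have hnf₁ : NF F L M₁ e₁ y₁ := NF.of hs1 hd1 hd2 hy₁
          have heq := pair_inj H hax hdep hg hnf₁ hd3 hnf hc3 (by
            unfold im at him
            by_cases ha : e.a.1 ∈ A <;> by_cases hb : e₁.a.1 ∈ A
            · rw [if_pos ha, if_pos hb] at him
              have h5 := Prod.ext_iff.1 him
              exact Or.inl ⟨h5.1.symm, h5.2.symm⟩
            · rw [if_pos ha, if_neg hb] at him
              have h5 := Prod.ext_iff.1 him
              exact Or.inr ⟨h5.2.symm, h5.1.symm⟩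
            · rw [if_neg ha, if_pos hb] at him
              have h5 := Prod.ext_iff.1 him
              exact Or.inr ⟨h5.1.symm, h5.2.symm⟩
            · rw [if_neg ha, if_neg hb] at him
              have h5 := Prod.ext_iff.1 him
              exact Or.inl ⟨h5.2.symm, h5.1.symm⟩)
          obtain ⟨rfl, rfl⟩ := heq
          have := h1.length_le
          simp at this
        simp only
        rw [Finset.card_union_of_disjoint (by
          rw [Finset.disjoint_singleton_right]
          exact hnot), Finset.card_singleton]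
        omega
      · rw [if_neg hc, if_neg (by exact hc), Finset.union_empty]
        exact ih'
  -- the image
  have himg : img H L A L ⊆ (H.clus n L A).biUnion fun a => (H.nbh n L a).image fun b => (a, b) := by
    intro p hp
    obtain ⟨e, M, hs, ⟨hc1, hc2, y', hy', hc3, hc4⟩, y, hy, rfl⟩ := mem_img.1 hp
    rw [hy] at hy'
    have hyy := Option.some.inj hy'
    subst hyy
    have hnf : NF F L M e y := NF.of hs hc1 hc2 hy
    have hne := roots_ne H hax hdep hg hnf hc3
    have ht1 : e.a.1 ∈ touched L := touched_suffix hs disc_par_touched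
    have ht2 : y.1.1 ∈ touched L := touched_suffix hs (by
      rw [mem_touched_cons]
      exact Or.inr (Or.inr ⟨y, hy, rfl⟩))
    have hz1 : H.root H.R L e.a.1 ∈ H.land L :=
      H.mem_roots.2 ⟨H.root_touched ht1, H.root_root⟩
    have hz2 : H.root H.R L y.1.1 ∈ H.land L :=
      H.mem_roots.2 ⟨H.root_touched ht2, H.root_root⟩
    have hadr : ∀ v, v ∈ touched L → adr L v = some (w.lam v) := by
      intro v hv
      rw [hL, adr_eq, if_pos hv]
    have hzt1 := (H.mem_roots.1 hz1).1
    have hzt2 := (H.mem_roots.1 hz2).1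
    have hnear : H.near n (w.lam (H.root H.R L e.a.1)) (w.lam (H.root H.R L y.1.1)) := by
      have h1 := tree_near (σ := σ) (w := w) (k := k) H _ y.1.1 rfl 1 _ (hnf.near H)
      have h2 := tree_near (σ := σ) (w := w) (k := k) H _ e.a.1 rfl _ _ (H.near_symm h1)
      rw [← hL] at h2
      have h3 := hdep e.a.1
      have h4 := hdep y.1.1
      exact H.near_mono (by omega) (H.near_symm h2)
    have hin : ∀ v, v ∈ A → H.root H.R L v ∈ A := by
      intro v hv
      exact hpart v hv (H.mem_part.2 ⟨H.root_touched (hA hv), H.root_root⟩)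
    rw [Finset.mem_biUnion]
    unfold im
    by_cases ha : e.a.1 ∈ A
    · rw [if_pos ha]
      refine ⟨H.root H.R L e.a.1, ?_, ?_⟩
      · rw [Hier.clus, Finset.mem_filter, Finset.mem_inter]
        exact ⟨⟨hin _ ha, hz1⟩, _, hz2, hne.symm, _, _, hadr _ hzt1, hadr _ hzt2, hnear⟩
      · rw [Finset.mem_image]
        refine ⟨H.root H.R L y.1.1, ?_, rfl⟩
        rw [Hier.nbh, Finset.mem_filter]
        exact ⟨hz2, _, _, hadr _ hzt1, hadr _ hzt2, hnear⟩
    · rw [if_neg ha]
      have hb : y.1.1 ∈ A := by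
        rcases hc4 with h4 | h4
        · exact absurd h4 ha
        · exact h4
      refine ⟨H.root H.R L y.1.1, ?_, ?_⟩
      · rw [Hier.clus, Finset.mem_filter, Finset.mem_inter]
        exact ⟨⟨hin _ hb, hz2⟩, _, hz1, hne, _, _, hadr _ hzt2, hadr _ hzt1, H.near_symm hnear⟩
      · rw [Finset.mem_image]
        refine ⟨H.root H.R L e.a.1, ?_, rfl⟩
        rw [Hier.nbh, Finset.mem_filter]
        exact ⟨hz1, _, _, hadr _ hzt2, hadr _ hzt1, H.near_symm hnear⟩
  calc Hier.bhs (F := F) A L ≤ (img H L A L).card := hcount L List.suffix_rfl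
    _ ≤ _ := Finset.card_le_card himg
    _ ≤ ∑ a ∈ H.clus n L A, ((H.nbh n L a).image fun b => (a, b)).card := Finset.card_biUnion_le
    _ ≤ ∑ a ∈ H.clus n L A, m := by
        refine Finset.sum_le_sum fun a ha => Finset.card_image_le.trans (hnb a ?_)
        rw [Hier.clus, Finset.mem_filter, Finset.mem_inter] at ha
        exact ha.1.2
    _ = m * (H.clus n L A).card := by
        rw [Finset.sum_const, smul_eq_mul, mul_comm]

end

end Pool.Agent.AcyAd
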