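import Pool.Agent.AcyAd.Targets2

/-!
# MP_08c6cd_lc, fully adaptive testers: job ADF-C1

The compensator of the events of a small tree.
-/

namespace Pool.Agent.AcyAd

open scoped Classical
open Pool.Agent.AcyTest

noncomputable section

namespace C1_

variable {S : Sys} {F : Fx S} (H : Hier S F)

/-- The address `z` and the addresses near it. -/
def ball (n : ℕ) (z : S.V) : Finset S.V := insert z (Finset.univ.filter fun x => H.near n x z)

theorem mem_ball {n : ℕ} {x z : S.V} : x ∈ ball H n z ↔ x = z ∨ H.near n x z := by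
  simp [ball]

theorem card_ball (n : ℕ) (z : S.V) : (ball H n z).card ≤ 1 + H.nu n := by
  have h1 := H.nu_near n z
  have h2 : (Finset.univ.filter fun x => H.near n x z).card ≤ H.nu n := by
    refine le_trans (Finset.card_le_card ?_) h1
    intro x hx
    simp only [Finset.mem_filter, Finset.mem_univ, true_and] at hx ⊢
    exact H.near_symm hx
  calc (ball H n z).card ≤ (Finset.univ.filter fun x => H.near n x z).card + 1 :=
        Finset.card_insert_le _ _
    _ ≤ _ := by omega

theorem adr_some {σ : Player S} {w : World S} {k : ℕ} {v z : S.V}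
    (h : adr (run F σ w k) v = some z) : v ∈ touched (run F σ w k) ∧ z = w.lam v := by
  rw [adr_eq] at h
  by_cases hv : v ∈ touched (run F σ w k)
  · rw [if_pos hv] at h
    exact ⟨hv, (Option.some.inj h).symm⟩
  · rw [if_neg hv] at h
    cases h

theorem mem_halo {σ : Player S} {w : World S} {k n : ℕ} {A : Finset S.V} {x : S.V} :
    x ∈ H.halo n (run F σ w k) A ↔ ∃ v ∈ A, v ∈ touched (run F σ w k) ∧
      (x = w.lam v ∨ (v ∈ H.land (run F σ w k) ∧ H.near n x (w.lam v))) := by
  simp only [Hier.halo, Finset.mem_filter, Finset.mem_univ, true_and]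
  constructor
  · rintro ⟨v, hv, z, hz, h⟩
    obtain ⟨h1, rfl⟩ := adr_some hz
    exact ⟨v, hv, h1, h⟩
  · rintro ⟨v, hv, h1, h⟩
    refine ⟨v, hv, w.lam v, ?_, h⟩
    rw [adr_eq, if_pos h1]

theorem halo_card (σ : Player S) (w : World S) (k n : ℕ) (A : Finset S.V) :
    (H.halo n (run F σ w k) A).card ≤ A.card * (1 + H.nu n) := by
  have h1 : H.halo n (run F σ w k) A ⊆ A.biUnion fun v => ball H n (w.lam v) := by
    intro x hx
    rw [mem_halo] at hx
    obtain ⟨v, hv, _, h⟩ := hx
    rw [Finset.mem_biUnion]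
    refine ⟨v, hv, ?_⟩
    rw [mem_ball]
    rcases h with h | h
    · exact Or.inl h
    · exact Or.inr h.2
  refine (Finset.card_le_card h1).trans ?_
  exact Finset.card_biUnion_le_card_mul _ _ _ fun v _ => card_ball H n _

theorem land_mono {σ : Player S} {w : World S} {j k : ℕ} (h : j ≤ k) {v : S.V}
    (hv : v ∈ H.land (run F σ w j)) : v ∈ H.land (run F σ w k) := by
  rw [Hier.land, H.mem_roots] at hv ⊢
  have h1 := run_suffix (F := F) σ w h
  exact ⟨touched_suffix h1 hv.1, by rw [(H.stable_suffix h1 hv.1).2.2, hv.2]⟩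

theorem halo_mono {σ : Player S} {w : World S} {j k n : ℕ} (h : j ≤ k) {A A' : Finset S.V}
    (hA : A ⊆ A') : H.halo n (run F σ w j) A ⊆ H.halo n (run F σ w k) A' := by
  intro x hx
  rw [mem_halo] at hx ⊢
  obtain ⟨v, hv, h1, h2⟩ := hx
  refine ⟨v, hA hv, touched_suffix (run_suffix (F := F) σ w h) h1, ?_⟩
  rcases h2 with h2 | h2
  · exact Or.inl h2
  · exact Or.inr ⟨land_mono H h h2.1, h2.2⟩

theorem near_blk {n : ℕ} {x z : S.V} (h : H.near n x z) :
    H.blk H.R x = H.blk H.R z ∧ H.blk H.R x ≠ none := by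
  obtain ⟨q, q', h1, h2, p, _⟩ := h
  refine ⟨H.prj_reach x z q q' h1 h2 ⟨p⟩, ?_⟩
  intro h3
  rw [← H.prj_blk, h1] at h3
  cases h3

theorem spec_tgt (σ : Player S) (w : World S) (k n : ℕ) (b : Bool) (κ : S.K) :
    (H.spec n (run F σ w k) ∩ S.tgt b κ).card ≤
      (expl (run F σ w k) ∩ S.tgt b κ).card * (1 + H.nu n) := by
  have h1 : H.spec n (run F σ w k) ∩ S.tgt b κ ⊆
      (expl (run F σ w k) ∩ S.tgt b κ).biUnion fun z => ball H n z := by
    intro x hx
    rw [Finset.mem_inter, Hier.spec, mem_halo] at hx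
    obtain ⟨⟨v, _, hv, h⟩, hx⟩ := hx
    rw [Finset.mem_biUnion]
    refine ⟨w.lam v, ?_, ?_⟩
    · rw [Finset.mem_inter]
      constructor
      · rw [expl_eq]
        exact Finset.mem_image_of_mem _ hv
      · rcases h with h | h
        · rw [← h]
          exact hx
        · have h2 := near_blk H h.2
          exact (H.tgt_blk _ _ b κ h2.2 h2.1).1 hx
    · rw [mem_ball]
      rcases h with h | h
      · exact Or.inl h
      · exact Or.inr h.2
  refine (Finset.card_le_card h1).trans ?_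
  exact Finset.card_biUnion_le_card_mul _ _ _ fun v _ => card_ball H n _

/-- The predicted sets are contained in a small set. -/
theorem exists_W (X : ℕ → ℕ) (n s t : ℕ) (ρ : S.V) (σ : Player S) (w : World S) (k : ℕ) :
    ∃ W : Finset S.V, W.card ≤ s * (1 + H.nu n) ∧ ∀ j < k,
      (H.XB X (run F σ w j) ∧ ρ ∈ H.roots t (run F σ w j) ∧
        (H.part t (run F σ w j) ρ).card < s) →
      H.halo n (run F σ w j) (H.part t (run F σ w j) ρ) ⊆ W := by
  induction k with
  | zero => exact ⟨∅, by simp, fun j hj => by omega⟩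
  | succ k ih =>
    by_cases ha : H.XB X (run F σ w k) ∧ ρ ∈ H.roots t (run F σ w k) ∧
        (H.part t (run F σ w k) ρ).card < s
    · refine ⟨H.halo n (run F σ w k) (H.part t (run F σ w k) ρ), ?_, ?_⟩
      · refine (halo_card H σ w k n _).trans ?_
        exact Nat.mul_le_mul_right _ ha.2.2.le
      · intro j hj _
        refine halo_mono H (by omega) ?_
        rw [H.part_suffix (run_suffix (F := F) σ w (by omega : j ≤ k))]
        exact Finset.inter_subset_left
    · obtain ⟨W, h1, h2⟩ := ih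
      refine ⟨W, h1, fun j hj hj' => ?_⟩
      rcases Nat.lt_or_ge j k with h3 | h3
      · exact h2 j h3 hj'
      · have : j = k := by omega
        subst this
        exact absurd hj' ha

/-- The special entries. -/
def Pr (X : ℕ → ℕ) (s t : ℕ) (ρ : S.V) (L : List (En S)) (e : En S) : Prop :=
  (H.XB X L ∧ ρ ∈ H.roots t L ∧ (H.part t L ρ).card < s) ∧ e.a.1 ∈ H.part t L ρ ∧
    H.ge t e.b e.p ∧ S.cc e.b e.p ≠ none ∧ e.a ∉ known e.b L

/-- The number of special entries. -/
theorem cnt_le (X : ℕ → ℕ) (n s t : ℕ) (ρ : S.V) (σ : Player S) (w : World S) (k : ℕ) :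
    cnt (Pr H X s t ρ) (run F σ w k) ≤
      hits (H.z1r X n s t ρ) (H.z1a X n s t ρ) (run F σ w k) +
        min s (H.part t (run F σ w k) ρ).card := by
  induction k with
  | zero => simp [run, cnt]
  | succ k ih =>
    obtain ⟨e, he⟩ : ∃ e, e = nxt F w (σ ((run F σ w k).map En.ans)) := ⟨_, rfl⟩
    have hrun : run F σ w (k + 1) = e :: run F σ w k := by rw [he]; rfl
    have hem : e ∈ run F σ w (k + 1) := by rw [hrun]; exact List.mem_cons_self
    have hpm : (H.part t (run F σ w k) ρ).card ≤ (H.part t (run F σ w (k + 1)) ρ).card := by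
      refine Finset.card_le_card ?_
      rw [H.part_suffix (run_suffix (F := F) σ w (Nat.le_succ k))]
      exact Finset.inter_subset_left
    have hcnt : cnt (Pr H X s t ρ) (run F σ w (k + 1)) = cnt (Pr H X s t ρ) (run F σ w k) +
        (if Pr H X s t ρ (run F σ w k) e then 1 else 0) := by
      rw [hrun]; rfl
    have hhit : hits (H.z1r X n s t ρ) (H.z1a X n s t ρ) (run F σ w (k + 1)) =
        hits (H.z1r X n s t ρ) (H.z1a X n s t ρ) (run F σ w k) +
        (if e.a.1 ∉ touched (run F σ w k) ∧ e.p.1 ∈ H.z1r X n s t ρ (run F σ w k) then 1 else 0) +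
        (if e.a ∉ known e.b (run F σ w k) ∧ S.cc e.b e.p ≠ none ∧ ∃ y, e.r = some y ∧
          y.2.1 ∈ H.z1a X n s t ρ (run F σ w k) e.b e.a e.p then 1 else 0) := by
      rw [hrun]; rfl
    by_cases hP : Pr H X s t ρ (run F σ w k) e
    · rw [if_pos hP] at hcnt
      obtain ⟨hact, hA, hg, hcc, hnew⟩ := hP
      obtain ⟨hp, hr⟩ := run_mem σ w hem
      obtain ⟨y', hy'⟩ : ∃ y', w.mt F e.b e.p = some y' := by
        obtain ⟨κ, hκ⟩ := Option.ne_none_iff_exists'.1 hcc
        rcases hb : e.b with _ | _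
        · rw [hb] at hκ
          exact ⟨_, w.mt_false hκ⟩
        · rw [hb] at hκ
          exact ⟨_, w.mt_true hκ⟩
      rw [hy'] at hr
      have hr' : e.r = some (w.unplc (!e.b) y', y') := hr
      obtain ⟨y, hy⟩ : ∃ y, y = (w.unplc (!e.b) y', y') := ⟨_, rfl⟩
      rw [← hy] at hr'
      obtain ⟨h1, h2, _⟩ := run_r σ w hem hr'
      have hyl : y.2.1 = w.lam y.1.1 := by rw [h2]; rfl
      have hpl : e.p.1 = w.lam e.a.1 := by rw [hp]; rfl
      by_cases ht : y.1.1 ∈ touched (run F σ w k) ∨ y.1.1 = e.a.1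
      · have hin : y.2.1 ∈ H.z1a X n s t ρ (run F σ w k) e.b e.a e.p := by
          unfold Hier.z1a Hier.eva
          rw [if_pos hact, if_pos ⟨hA, hg⟩, Finset.mem_union, Finset.mem_singleton]
          rcases ht with ht | ht
          · left
            rw [Hier.spec, mem_halo]
            exact ⟨_, ht, ht, Or.inl hyl⟩
          · right
            rw [hyl, hpl, ht]
        rw [if_pos (c := e.a ∉ known e.b (run F σ w k) ∧ S.cc e.b e.p ≠ none ∧
          ∃ y, e.r = some y ∧ y.2.1 ∈ H.z1a X n s t ρ (run F σ w k) e.b e.a e.p)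
          ⟨hnew, hcc, y, hr', hin⟩] at hhit
        omega
      · rw [not_or] at ht
        have hd : Disc (run F σ w k) e y.1.1 := by
          rw [disc_iff]
          exact ⟨ht.1, ht.2, y, hr', rfl⟩
        have hroot := (H.disc_dep (t := t) (L := run F σ w (k + 1)) (by rw [hrun]) hd hg).2.2
        have hst := (H.stable_suffix (t := t) (run_suffix (F := F) σ w (Nat.le_succ k))
          (H.mem_part.1 hA).1).2.2
        have hmem : y.1.1 ∈ H.part t (run F σ w (k + 1)) ρ := by
          rw [H.mem_part]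
          refine ⟨?_, ?_⟩
          · rw [hrun]
            exact disc_touched hd
          · rw [hroot, hst]
            exact (H.mem_part.1 hA).2
        have hlt : (H.part t (run F σ w k) ρ).card < (H.part t (run F σ w (k + 1)) ρ).card := by
          refine Finset.card_lt_card ?_
          rw [H.part_suffix (run_suffix (F := F) σ w (Nat.le_succ k))]
          refine Finset.ssubset_iff_subset_ne.2 ⟨Finset.inter_subset_left, ?_⟩
          intro heq
          have : y.1.1 ∈ H.part t (run F σ w (k + 1)) ρ ∩ touched (run F σ w k) := by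
            rw [heq]
            exact hmem
          exact ht.1 (Finset.mem_inter.1 this).2
        have := hact.2.2
        omega
    · rw [if_neg hP] at hcnt
      omega

end C1_

theorem tC1 (hCMP : T_CMP) (hNCL : T_NCL) : T_C1 := by
  intro S F H q P σ w k t ρ ht hkq hXB hhits
  obtain ⟨W, hW1, hW2⟩ := C1_.exists_W H P.X P.n (H.T - 1) t ρ σ w k
  have hν : (0 : ℝ) ≤ H.nu P.n := Nat.cast_nonneg _
  have hθ := P.θ_nonneg
  have hp : 0 ≤ 2 * (1 + (H.nu P.n : ℝ)) * P.θ := by positivity
  have hcmp := hCMP S F H P.X P.θ (2 * (1 + H.nu P.n) * P.θ) H.R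
    (H.z1r P.X P.n (H.T - 1) t ρ) (H.z1a P.X P.n (H.T - 1) t ρ) W
    (C1_.Pr H P.X (H.T - 1) t ρ) σ w k hθ hp (fun τ _ hτ => P.dn τ hτ) hXB ?_ ?_
  · have hcnt := C1_.cnt_le H P.X P.n (H.T - 1) t ρ σ w k
    have hc1 : (cnt (C1_.Pr H P.X (H.T - 1) t ρ) (run F σ w k) : ℝ) ≤
        ((H.T - 1 : ℕ) : ℝ) + P.K0 + 1 := by
      have : cnt (C1_.Pr H P.X (H.T - 1) t ρ) (run F σ w k) ≤ (H.T - 1) + P.K0 + 1 := by
        have := min_le_left (H.T - 1) (H.part t (run F σ w k) ρ).card
        omega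
      exact_mod_cast this
    have hWc : (W.card : ℝ) ≤ ((H.T - 1 : ℕ) : ℝ) * (1 + H.nu P.n) := by exact_mod_cast hW1
    have hV : (0 : ℝ) ≤ Fintype.card S.V := Nat.cast_nonneg _
    have hkq' : (k : ℝ) ≤ q := by exact_mod_cast hkq
    have h1 : (2 * k / Fintype.card S.V + 4 * S.D * (H.R + 2) * P.θ : ℝ) ≤
        2 * q / Fintype.card S.V + 4 * S.D * (H.R + 2) * P.θ := by
      gcongr
    have h0 : (0 : ℝ) ≤ 2 * q / Fintype.card S.V + 4 * S.D * (H.R + 2) * P.θ := by positivity
    calc comp (H.z1r P.X P.n (H.T - 1) t ρ) (H.z1a P.X P.n (H.T - 1) t ρ) (run F σ w k)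
        ≤ _ := hcmp
      _ ≤ (2 * q / Fintype.card S.V + 4 * S.D * (H.R + 2) * P.θ) *
            (((H.T - 1 : ℕ) : ℝ) * (1 + H.nu P.n)) +
          2 * (1 + H.nu P.n) * P.θ * (((H.T - 1 : ℕ) : ℝ) + P.K0 + 1) := by
        refine add_le_add ?_ ?_
        · exact mul_le_mul h1 hWc (Nat.cast_nonneg _) h0
        · exact mul_le_mul_of_nonneg_left hc1 hp
      _ ≤ P.al := by
        have := P.al_ge
        linarith
  · intro j hj
    unfold Hier.z1r
    by_cases hact : H.XB P.X (run F σ w j) ∧ ρ ∈ H.roots t (run F σ w j) ∧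
        (H.part t (run F σ w j) ρ).card < H.T - 1
    · rw [if_pos hact]
      refine subset_trans ?_ (hW2 j hj hact)
      exact C1_.halo_mono H le_rfl Finset.inter_subset_left
    · rw [if_neg hact]
      exact Finset.empty_subset _
  · intro e L hs hnew κ hκ
    obtain ⟨j, hj, rfl, _⟩ := run_suffix_mem σ w hs
    by_cases hP : C1_.Pr H P.X (H.T - 1) t ρ (run F σ w j) e
    · left
      refine ⟨hP, ?_⟩
      obtain ⟨hact, hA, hg, hcc, _⟩ := hP
      have hcl := (hNCL S F H P.X σ w j e.b e.p κ hact.1 hκ).2 (!e.b)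
      have hsp := C1_.spec_tgt H σ w j P.n (!e.b) κ
      have h1 : (H.z1a P.X P.n (H.T - 1) t ρ (run F σ w j) e.b e.a e.p ∩ S.tgt (!e.b) κ).card ≤
          P.X (H.ty κ + 1) * (1 + H.nu P.n) + 1 := by
        unfold Hier.z1a Hier.eva
        rw [if_pos hact, if_pos ⟨hA, hg⟩, Finset.union_inter_distrib_right]
        refine (Finset.card_union_le _ _).trans (add_le_add ?_ ?_)
        · exact hsp.trans (Nat.mul_le_mul_right _ hcl)
        · refine (Finset.card_le_card Finset.inter_subset_left).trans ?_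
          simp
      have h2 : ((H.z1a P.X P.n (H.T - 1) t ρ (run F σ w j) e.b e.a e.p ∩
          S.tgt (!e.b) κ).card : ℝ) ≤ P.X (H.ty κ + 1) * (1 + H.nu P.n) + 1 := by
        exact_mod_cast h1
      have h3 := P.dn (H.ty κ) (H.ty_lt κ)
      have h4 : (H.nb (H.ty κ + 1) : ℝ) ≤ 400 * S.N κ := by
        exact_mod_cast H.cls_N e.b e.p κ hκ
      have h5 : (P.θ * H.nb (H.ty κ + 1) : ℝ) ≤ P.θ * (400 * S.N κ) :=
        mul_le_mul_of_nonneg_left h4 hθ
      have h6 : (S.D : ℝ) * ((P.X (H.ty κ + 1) : ℝ) + 2) ≤ P.θ * S.N κ := by linarith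
      have hD : (0 : ℝ) ≤ S.D := Nat.cast_nonneg _
      have hX : (0 : ℝ) ≤ P.X (H.ty κ + 1) := Nat.cast_nonneg _
      calc (2 * S.D * ((H.z1a P.X P.n (H.T - 1) t ρ (run F σ w j) e.b e.a e.p ∩
            S.tgt (!e.b) κ).card : ℝ))
          ≤ 2 * S.D * (P.X (H.ty κ + 1) * (1 + H.nu P.n) + 1) := by gcongr
        _ ≤ 2 * (1 + H.nu P.n) * (S.D * ((P.X (H.ty κ + 1) : ℝ) + 2)) := by
          nlinarith [mul_nonneg hD hν]
        _ ≤ 2 * (1 + H.nu P.n) * (P.θ * S.N κ) := by
          exact mul_le_mul_of_nonneg_left h6 (by positivity)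
        _ = _ := by ring
    · right
      have hne : S.cc e.b e.p ≠ none := by rw [hκ]; simp
      refine ⟨hP, ?_, fun _ => H.ty_lt κ⟩
      refine subset_trans Finset.inter_subset_left ?_
      unfold Hier.z1a
      by_cases hact : H.XB P.X (run F σ w j) ∧ ρ ∈ H.roots t (run F σ w j) ∧
          (H.part t (run F σ w j) ρ).card < H.T - 1
      · rw [if_pos hact]
        unfold Hier.eva
        rw [if_neg (fun h => hP ⟨hact, h.1, h.2, hne, hnew⟩)]
        refine subset_trans ?_ (hW2 j hj hact)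
        exact C1_.halo_mono H le_rfl Finset.inter_subset_left
      · rw [if_neg hact]
        exact Finset.empty_subset _

end

end Pool.Agent.AcyAd
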