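import Pool.Agent.AcyAd.Targets2

/-!
# MP_08c6cd_lc, fully adaptive testers: the compensator near a landing name (ADF-C2)
-/

namespace Pool.Agent.AcyAd

open scoped Classical
open Pool.Agent.AcyTest

noncomputable section

namespace C2_

variable {S : Sys} {F : Fx S}

/-- The halo of one name is small. -/
theorem card_halo (H : Hier S F) (n : ℕ) (L : List (En S)) (y : S.V) :
    (H.halo n L {y}).card ≤ 1 + H.nu n := by
  rcases hz : adr L y with _ | z
  · have h1 : H.halo n L {y} = ∅ := by
      unfold Hier.halo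
      rw [Finset.filter_eq_empty_iff]
      rintro x _ ⟨v, hv, z, hz', _⟩
      rw [Finset.mem_singleton] at hv
      subst hv
      rw [hz] at hz'
      cases hz'
    rw [h1]
    simp
  · have h1 : H.halo n L {y} ⊆ {z} ∪ Finset.univ.filter fun x => H.near n z x := by
      intro x hx
      unfold Hier.halo at hx
      rw [Finset.mem_filter] at hx
      obtain ⟨_, v, hv, z', hz', h2⟩ := hx
      rw [Finset.mem_singleton] at hv
      subst hv
      rw [hz] at hz'
      have h3 := Option.some.inj hz'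
      subst h3
      rw [Finset.mem_union, Finset.mem_singleton, Finset.mem_filter]
      rcases h2 with h2 | ⟨_, h2⟩
      · exact Or.inl h2
      · exact Or.inr ⟨Finset.mem_univ _, H.near_symm h2⟩
    refine (Finset.card_le_card h1).trans ((Finset.card_union_le _ _).trans ?_)
    refine add_le_add (by simp) ?_
    exact H.nu_near n z

theorem land_suffix (H : Hier S F) {L L' : List (En S)} (hs : L' <:+ L) {v : S.V}
    (h : v ∈ H.land L') : v ∈ H.land L := by
  unfold Hier.land at h ⊢
  rw [H.mem_roots] at h ⊢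
  exact ⟨touched_suffix hs h.1, by rw [(H.stable_suffix hs h.1).2.2, h.2]⟩

/-- The halo of one name grows. -/
theorem halo_mono (H : Hier S F) (σ : Player S) (w : World S) {j k : ℕ} (hj : j ≤ k) (n : ℕ)
    (A : Finset S.V) : H.halo n (run F σ w j) A ⊆ H.halo n (run F σ w k) A := by
  intro x hx
  unfold Hier.halo at hx ⊢
  rw [Finset.mem_filter] at hx ⊢
  obtain ⟨h0, v, hv, z, hz, h2⟩ := hx
  have hs := run_suffix (F := F) σ w hj
  refine ⟨h0, v, hv, z, ?_, ?_⟩
  · rw [adr_eq] at hz ⊢
    by_cases h3 : v ∈ touched (run F σ w j)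
    · rw [if_pos h3] at hz
      rw [if_pos (touched_suffix hs h3), hz]
    · rw [if_neg h3] at hz
      cases hz
  · rcases h2 with h2 | ⟨h2, h4⟩
    · exact Or.inl h2
    · exact Or.inr ⟨land_suffix H hs h2, h4⟩

theorem cnt_false (L : List (En S)) : cnt (fun _ _ => False) L = 0 := by
  induction L with
  | nil => rfl
  | cons e L ih => rw [cnt, ih, if_neg (fun h => h)]

end C2_

theorem tC2 (hCMP : T_CMP) : T_C2 := by
  intro S F H q P σ w k y hk hX
  have h1 := hCMP S F H P.X P.θ 0 H.R (H.z2r P.X P.n y) (H.z2a P.X P.n y)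
    (H.halo P.n (run F σ w k) {y}) (fun _ _ => False) σ w k P.θ_nonneg le_rfl
    (fun τ _ h => P.dn τ h) hX
    (by
      intro j hj
      unfold Hier.z2r
      split
      · exact C2_.halo_mono H σ w hj.le P.n {y}
      · exact Finset.empty_subset _)
    (by
      intro e L hs _ κ _
      right
      refine ⟨fun h => h, ?_, fun _ => H.ty_lt κ⟩
      refine Finset.inter_subset_left.trans ?_
      obtain ⟨j, hj, rfl, _⟩ := run_suffix_mem σ w hs
      unfold Hier.z2a
      split
      · exact C2_.halo_mono H σ w hj.le P.n {y}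
      · exact Finset.empty_subset _)
  refine h1.trans ?_
  rw [C2_.cnt_false]
  have h2 : ((H.halo P.n (run F σ w k) {y}).card : ℝ) ≤ 1 + H.nu P.n := by
    exact_mod_cast C2_.card_halo H P.n (run F σ w k) y
  have h3 : (2 * k / Fintype.card S.V + 4 * S.D * (H.R + 2) * P.θ : ℝ) ≤
      2 * q / Fintype.card S.V + 4 * S.D * (H.R + 2) * P.θ := by
    have : (k : ℝ) ≤ q := by exact_mod_cast hk
    gcongr
  have h4 : (0 : ℝ) ≤ 2 * k / Fintype.card S.V + 4 * S.D * (H.R + 2) * P.θ := by
    have := P.θ_nonneg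
    positivity
  have h5 : (1 : ℝ) ≤ (H.T - 1 : ℕ) := by
    have := H.T_big
    have h6 : 1 ≤ H.T - 1 := by omega
    exact_mod_cast h6
  have h7 := P.al_ge
  have h8 : (0 : ℝ) ≤ 2 * (1 + H.nu P.n) * P.θ * ((H.T - 1 : ℕ) + P.K0 + 1) := by
    have := P.θ_nonneg
    positivity
  have h9 : (0 : ℝ) ≤ 1 + H.nu P.n := by positivity
  calc (2 * k / Fintype.card S.V + 4 * S.D * (H.R + 2) * P.θ : ℝ) *
        (H.halo P.n (run F σ w k) {y}).card + 0 * ((0 : ℕ) : ℝ)
      = (2 * k / Fintype.card S.V + 4 * S.D * (H.R + 2) * P.θ : ℝ) *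
        (H.halo P.n (run F σ w k) {y}).card := by ring
    _ ≤ (2 * q / Fintype.card S.V + 4 * S.D * (H.R + 2) * P.θ) * (1 + H.nu P.n) :=
        mul_le_mul h3 h2 (by positivity) (h4.trans h3)
    _ ≤ (2 * q / Fintype.card S.V + 4 * S.D * (H.R + 2) * P.θ) *
        ((H.T - 1 : ℕ) * (1 + H.nu P.n)) := by
        refine mul_le_mul_of_nonneg_left ?_ (h4.trans h3)
        nlinarith
    _ ≤ P.al := by linarith

end

end Pool.Agent.AcyAd
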