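import Pool.Agent.AcyAd.Targets2

/-!
# MP_08c6cd_lc, fully adaptive testers: the compensator of the big trees (T_C3)
-/

namespace Pool.Agent.AcyAd

open scoped Classical
open Pool.Agent.AcyTest

noncomputable section

namespace C3_

variable {S : Sys} {F : Fx S}

theorem adr_some (σ : Player S) (w : World S) {k : ℕ} {v z : S.V}
    (h : adr (run F σ w k) v = some z) : v ∈ touched (run F σ w k) ∧ z = w.lam v := by
  rw [adr_eq] at h
  by_cases hv : v ∈ touched (run F σ w k)
  · rw [if_pos hv] at h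
    exact ⟨hv, (Option.some.inj h).symm⟩
  · rw [if_neg hv] at h
    cases h

theorem adr_touched (σ : Player S) (w : World S) {k : ℕ} {v : S.V}
    (h : v ∈ touched (run F σ w k)) : adr (run F σ w k) v = some (w.lam v) := by
  rw [adr_eq, if_pos h]

theorem adr_mono (σ : Player S) (w : World S) {j k : ℕ} (hjk : j ≤ k) {v z : S.V}
    (h : adr (run F σ w j) v = some z) : adr (run F σ w k) v = some z := by
  obtain ⟨h1, rfl⟩ := adr_some σ w h
  exact adr_touched σ w (touched_suffix (run_suffix σ w hjk) h1)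

theorem land_mono (H : Hier S F) (σ : Player S) (w : World S) {j k : ℕ} (hjk : j ≤ k) {v : S.V}
    (h : v ∈ H.land (run F σ w j)) : v ∈ H.land (run F σ w k) := by
  unfold Hier.land at h ⊢
  rw [Hier.mem_roots] at h ⊢
  refine ⟨touched_suffix (run_suffix σ w hjk) h.1, ?_⟩
  rw [(H.stable_suffix (t := H.R) (run_suffix σ w hjk) h.1).2.2]
  exact h.2

theorem halo_mono (H : Hier S F) (σ : Player S) (w : World S) {j k : ℕ} (hjk : j ≤ k) (n : ℕ)
    {A A' : Finset S.V} (hA : A ⊆ A') :
    H.halo n (run F σ w j) A ⊆ H.halo n (run F σ w k) A' := by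
  intro x hx
  simp only [Hier.halo, Finset.mem_filter, Finset.mem_univ, true_and] at hx ⊢
  obtain ⟨v, hv, z, hz, h⟩ := hx
  refine ⟨v, hA hv, z, adr_mono σ w hjk hz, ?_⟩
  rcases h with h | ⟨h1, h2⟩
  · exact Or.inl h
  · exact Or.inr ⟨land_mono H σ w hjk h1, h2⟩

theorem halo_card (H : Hier S F) (n : ℕ) (L : List (En S)) (A : Finset S.V) :
    (H.halo n L A).card ≤ A.card * (1 + H.nu n) := by
  have h1 : H.halo n L A ⊆ A.biUnion fun v => Finset.univ.filter fun x =>
      ∃ z, adr L v = some z ∧ (x = z ∨ H.near n x z) := by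
    intro x hx
    simp only [Hier.halo, Finset.mem_filter, Finset.mem_univ, true_and] at hx
    obtain ⟨v, hv, z, hz, h⟩ := hx
    rw [Finset.mem_biUnion]
    refine ⟨v, hv, ?_⟩
    simp only [Finset.mem_filter, Finset.mem_univ, true_and]
    exact ⟨z, hz, h.imp id fun h => h.2⟩
  refine (Finset.card_le_card h1).trans (Finset.card_biUnion_le_card_mul _ _ _ fun v _ => ?_)
  rcases h : adr L v with _ | z
  · simp
  · have h2 : (Finset.univ.filter fun x => ∃ z', some z = some z' ∧ (x = z' ∨ H.near n x z')) ⊆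
        {z} ∪ Finset.univ.filter fun y => ∃ q q', H.prj z = some q ∧ H.prj y = some q' ∧
          ∃ p : H.GQ.Walk q q', p.length ≤ n := by
      intro x hx
      simp only [Finset.mem_filter, Finset.mem_univ, true_and, Option.some.injEq,
        exists_eq_left', Finset.mem_union, Finset.mem_singleton] at hx ⊢
      exact hx.imp id fun h => H.near_symm h
    refine (Finset.card_le_card h2).trans ((Finset.card_union_le _ _).trans ?_)
    rw [Finset.card_singleton]
    exact Nat.add_le_add_left (H.nu_near n z) 1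

theorem part_mono (H : Hier S F) {t : ℕ} {L' L : List (En S)} (hs : L' <:+ L) (ρ : S.V) :
    H.part t L' ρ ⊆ H.part t L ρ := by
  rw [H.part_suffix hs ρ]
  exact Finset.inter_subset_left

theorem big_touched (H : Hier S F) {s t : ℕ} {β : H.Bk} {L : List (En S)} :
    H.big s t β L ⊆ touched L := by
  intro v hv
  unfold Hier.big Hier.inb at hv
  rw [Finset.mem_filter, Finset.mem_filter] at hv
  exact hv.1.1

theorem mem_big (H : Hier S F) (σ : Player S) (w : World S) {k s t : ℕ} {β : H.Bk} {v : S.V} :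
    v ∈ H.big s t β (run F σ w k) ↔ v ∈ touched (run F σ w k) ∧ H.blk t (w.lam v) = some β ∧
      s ≤ (H.part t (run F σ w k) (H.root t (run F σ w k) v)).card := by
  unfold Hier.big Hier.inb
  rw [Finset.mem_filter, Finset.mem_filter]
  constructor
  · rintro ⟨⟨h1, x, h2, h3⟩, h4⟩
    obtain ⟨_, rfl⟩ := adr_some σ w h2
    exact ⟨h1, h3, h4⟩
  · rintro ⟨h1, h2, h3⟩
    exact ⟨⟨h1, _, adr_touched σ w h1, h2⟩, h3⟩

theorem big_mono (H : Hier S F) (σ : Player S) (w : World S) {j k : ℕ} (hjk : j ≤ k) (s t : ℕ)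
    (β : H.Bk) : H.big s t β (run F σ w j) ⊆ H.big s t β (run F σ w k) := by
  intro v hv
  rw [mem_big] at hv ⊢
  obtain ⟨h1, h2, h3⟩ := hv
  have hs := run_suffix (F := F) σ w hjk
  refine ⟨touched_suffix hs h1, h2, h3.trans ?_⟩
  rw [(H.stable_suffix (t := t) hs h1).2.2]
  exact Finset.card_le_card (part_mono H hs _)

/-- Near addresses lie in the same bottom block. -/
theorem near_blk (H : Hier S F) {n : ℕ} {x z : S.V} (h : H.near n x z) :
    H.blk H.R x = H.blk H.R z ∧ H.blk H.R x ≠ none := by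
  obtain ⟨q, q', h1, h2, p, _⟩ := h
  refine ⟨H.prj_reach x z q q' h1 h2 ⟨p⟩, ?_⟩
  intro h4
  rw [← H.prj_blk, h1] at h4
  cases h4

theorem near_tgt (H : Hier S F) {n : ℕ} {x z : S.V} (h : H.near n x z) {b : Bool} {κ : S.K}
    (hx : x ∈ S.tgt b κ) : z ∈ S.tgt b κ := by
  have h1 := near_blk H h
  exact (H.tgt_blk x z b κ h1.2 h1.1).1 hx

/-- The part of the special addresses in the target of a class. -/
theorem spec_tgt (H : Hier S F) (σ : Player S) (w : World S) (k n : ℕ) (b : Bool) (κ : S.K)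
    (p : S.V) : ((H.spec n (run F σ w k) ∪ {p}) ∩ S.tgt b κ).card ≤
      (expl (run F σ w k) ∩ S.tgt b κ).card * (1 + H.nu n) + 1 := by
  have h1 : (H.spec n (run F σ w k) ∪ {p}) ∩ S.tgt b κ ⊆
      (H.halo n (run F σ w k) ((touched (run F σ w k)).filter fun v => w.lam v ∈ S.tgt b κ)) ∪
        {p} := by
    intro x hx
    rw [Finset.mem_inter, Finset.mem_union] at hx
    obtain ⟨hx | hx, hx2⟩ := hx
    · rw [Finset.mem_union]
      left
      simp only [Hier.spec, Hier.halo, Finset.mem_filter, Finset.mem_univ, true_and] at hx ⊢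
      obtain ⟨v, hv, z, hz, h⟩ := hx
      obtain ⟨_, rfl⟩ := adr_some σ w hz
      refine ⟨v, ⟨hv, ?_⟩, w.lam v, hz, h⟩
      rcases h with rfl | ⟨_, h⟩
      · exact hx2
      · exact near_tgt H h hx2
    · exact Finset.mem_union_right _ hx
  refine (Finset.card_le_card h1).trans ((Finset.card_union_le _ _).trans ?_)
  rw [Finset.card_singleton]
  refine Nat.add_le_add_right ((halo_card H n _ _).trans ?_) 1
  refine Nat.mul_le_mul_right _ ?_
  rw [← Finset.card_image_of_injective _ w.lam.injective]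
  refine Finset.card_le_card ?_
  intro x hx
  rw [Finset.mem_image] at hx
  obtain ⟨v, hv, rfl⟩ := hx
  rw [Finset.mem_filter] at hv
  rw [Finset.mem_inter, expl_eq]
  exact ⟨Finset.mem_image_of_mem _ hv.1, hv.2⟩

/-- Special questions have small probability to be events. -/
theorem spec_le (hN : T_NCL) (H : Hier S F) (X : ℕ → ℕ) (θ : ℝ) (σ : Player S) (w : World S)
    (k n : ℕ) (b : Bool) (y : S.Sl) (κ : S.K) (hk : S.cc b y = some κ)
    (hX : H.XB X (run F σ w k)) (p : S.V)
    (hd : 400 * S.D * ((X (H.ty κ + 1) : ℝ) + 2) ≤ θ * H.nb (H.ty κ + 1)) (hθ : 0 ≤ θ) :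
    2 * (S.D : ℝ) * (((H.spec n (run F σ w k) ∪ {p}) ∩ S.tgt (!b) κ).card : ℝ) ≤
      2 * (1 + H.nu n) * θ * S.N κ := by
  have h1 : (((H.spec n (run F σ w k) ∪ {p}) ∩ S.tgt (!b) κ).card : ℝ) ≤
      (X (H.ty κ + 1) : ℝ) * (1 + H.nu n) + 1 := by
    have h2 := spec_tgt H σ w k n (!b) κ p
    have h3 := (hN S F H X σ w k b y κ hX hk).2 (!b)
    have h4 : ((H.spec n (run F σ w k) ∪ {p}) ∩ S.tgt (!b) κ).card ≤
        X (H.ty κ + 1) * (1 + H.nu n) + 1 :=
      h2.trans (Nat.add_le_add_right (Nat.mul_le_mul_right _ h3) 1)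
    exact_mod_cast h4
  have h5 : ((H.nb (H.ty κ + 1) : ℕ) : ℝ) ≤ 400 * S.N κ := by
    exact_mod_cast H.cls_N b y κ hk
  have hD : (0 : ℝ) ≤ S.D := Nat.cast_nonneg _
  have hnu : (0 : ℝ) ≤ H.nu n := Nat.cast_nonneg _
  have hX0 : (0 : ℝ) ≤ X (H.ty κ + 1) := Nat.cast_nonneg _
  have h6 : (S.D : ℝ) * ((X (H.ty κ + 1) : ℝ) + 2) ≤ θ * S.N κ := by
    have := mul_le_mul_of_nonneg_left h5 hθ
    nlinarith
  have h7 : (X (H.ty κ + 1) : ℝ) * (1 + H.nu n) + 1 ≤
      (1 + H.nu n) * ((X (H.ty κ + 1) : ℝ) + 2) := by nlinarith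
  calc 2 * (S.D : ℝ) * (((H.spec n (run F σ w k) ∪ {p}) ∩ S.tgt (!b) κ).card : ℝ)
      ≤ 2 * (S.D : ℝ) * ((1 + H.nu n) * ((X (H.ty κ + 1) : ℝ) + 2)) :=
        mul_le_mul_of_nonneg_left (h1.trans h7) (by positivity)
    _ = 2 * (1 + H.nu n) * ((S.D : ℝ) * ((X (H.ty κ + 1) : ℝ) + 2)) := by ring
    _ ≤ 2 * (1 + H.nu n) * (θ * S.N κ) := mul_le_mul_of_nonneg_left h6 (by positivity)
    _ = _ := by ring

/-- The special questions. -/
def Spq (H : Hier S F) (X : ℕ → ℕ) (s t : ℕ) (β : H.Bk) (L : List (En S)) (e : En S) : Prop :=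
  e.a ∉ known e.b L ∧ H.XB X L ∧ e.a.1 ∈ H.big s t β L ∧ H.ge t e.b e.p ∧ S.cc e.b e.p ≠ none

theorem run_p (σ : Player S) (w : World S) {k : ℕ} {e : En S} (h : e ∈ run F σ w k) :
    e.p.1 = w.lam e.a.1 := by
  rw [(run_mem σ w h).1]
  rfl

theorem run_y (σ : Player S) (w : World S) {k : ℕ} {e : En S} (h : e ∈ run F σ w k)
    {y : S.Sl × S.Sl} (hy : e.r = some y) : y.2.1 = w.lam y.1.1 := by
  rw [(run_r σ w h hy).2.1]
  rfl

/-- The number of the special questions. -/
theorem cnt_le (H : Hier S F) (X : ℕ → ℕ) (n s t : ℕ) (β : H.Bk) (σ : Player S) (w : World S)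
    (k : ℕ) : cnt (Spq H X s t β) (run F σ w k) ≤ (H.big s t β (run F σ w k)).card +
      hits (H.z3r X n s t β) (H.z3a X n s t β) (run F σ w k) := by
  induction k with
  | zero => simp [run, cnt]
  | succ k ih =>
    have hmono := Finset.card_le_card (big_mono H σ w (Nat.le_succ k) s t β)
    set L := run F σ w k with hL
    set e := nxt F w (σ (L.map En.ans)) with he
    have hrun : run F σ w (k + 1) = e :: L := rfl
    have hem : e ∈ run F σ w (k + 1) := by rw [hrun]; exact List.mem_cons_self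
    rw [hrun] at hmono ⊢
    have e1 : cnt (Spq H X s t β) (e :: L) =
      cnt (Spq H X s t β) L + (if Spq H X s t β L e then 1 else 0) := rfl
    have e2 : hits (H.z3r X n s t β) (H.z3a X n s t β) (e :: L) =
      hits (H.z3r X n s t β) (H.z3a X n s t β) L +
      (if e.a.1 ∉ touched L ∧ e.p.1 ∈ H.z3r X n s t β L then 1 else 0) +
      (if e.a ∉ known e.b L ∧ S.cc e.b e.p ≠ none ∧
        ∃ y, e.r = some y ∧ y.2.1 ∈ H.z3a X n s t β L e.b e.a e.p
        then 1 else 0) := rfl
    rw [e1, e2]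
    by_cases hS : Spq H X s t β L e
    · rw [if_pos hS]
      obtain ⟨h1, h2, h3, h4, h5⟩ := hS
      -- the answer exists
      obtain ⟨κ, hκ⟩ := Option.ne_none_iff_exists'.1 h5
      obtain ⟨y, hy⟩ : ∃ y, e.r = some y := by
        obtain ⟨_, h6⟩ := run_mem σ w hem
        cases hb : e.b
        · rw [hb] at hκ h6
          rw [w.mt_false hκ] at h6
          exact ⟨_, h6⟩
        · rw [hb] at hκ h6
          rw [w.mt_true hκ] at h6
          exact ⟨_, h6⟩
      have hy2 : y.2.1 = w.lam y.1.1 := run_y σ w hem hy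
      have hz : H.z3a X n s t β L e.b e.a e.p = H.spec n L ∪ {e.p.1} := by
        unfold Hier.z3a Hier.eva
        rw [if_pos h2, if_pos ⟨h3, h4⟩]
      by_cases hnew : y.1.1 ∈ touched L ∨ y.1.1 = e.a.1
      · have hmem : y.2.1 ∈ H.z3a X n s t β L e.b e.a e.p := by
          rw [hz, Finset.mem_union, Finset.mem_singleton]
          rcases hnew with h | h
          · left
            simp only [Hier.spec, Hier.halo, Finset.mem_filter, Finset.mem_univ, true_and]
            exact ⟨y.1.1, h, _, adr_touched σ w h, Or.inl hy2⟩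
          · right
            rw [hy2, run_p σ w hem, h]
        rw [if_pos (show e.a ∉ known e.b L ∧ S.cc e.b e.p ≠ none ∧
          ∃ y, e.r = some y ∧ y.2.1 ∈ H.z3a X n s t β L e.b e.a e.p from
          ⟨h1, h5, y, hy, hmem⟩)]
        omega
      · push Not at hnew
        have hD : Disc L e y.1.1 := disc_iff.2 ⟨hnew.1, hnew.2, y, hy, rfl⟩
        have hb1 : y.1.1 ∈ H.big s t β (run F σ w (k + 1)) := by
          rw [mem_big]
          rw [mem_big] at h3
          have hr : H.root t (e :: L) y.1.1 = H.root t L e.a.1 := by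
            rw [H.root_cons, if_pos hD, if_pos h4]
          refine ⟨disc_touched hD, ?_, ?_⟩
          · have h7 := H.ge_blk w h4 (run_r σ w hem hy).1
            rw [← hy2, ← h7.1, run_p σ w hem]
            exact h3.2.1
          · rw [hrun, hr]
            exact h3.2.2.trans (Finset.card_le_card (part_mono H (List.suffix_cons _ _) _))
        have hb2 : y.1.1 ∉ H.big s t β L := fun h => hnew.1 (big_touched H h)
        have hlt : (H.big s t β L).card < (H.big s t β (e :: L)).card := by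
          refine Finset.card_lt_card ⟨big_mono H σ w (Nat.le_succ k) s t β, fun h => hb2 (h hb1)⟩
        omega
    · rw [if_neg hS]
      omega

end C3_

open C3_ in
theorem tC3 (hC : T_CMP) (hN : T_NCL) : T_C3 := by
  intro S F H q P σ w k t β ht hkq hX
  set s := H.T - 1 with hs
  have hθ := P.θ_nonneg
  have hnu : (0 : ℝ) ≤ H.nu P.n := Nat.cast_nonneg _
  have hcmp := hC S F H P.X P.θ (2 * (1 + H.nu P.n) * P.θ) H.R (H.z3r P.X P.n s t β)
    (H.z3a P.X P.n s t β) (H.halo P.n (run F σ w k) (H.big s t β (run F σ w k)))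
    (Spq H P.X s t β) σ w k hθ (by positivity) (fun τ _ hτ => P.dn τ hτ) hX ?_ ?_
  · have h1 : ((H.halo P.n (run F σ w k) (H.big s t β (run F σ w k))).card : ℝ) ≤
        (H.big s t β (run F σ w k)).card * (1 + H.nu P.n) := by
      exact_mod_cast halo_card H P.n (run F σ w k) (H.big s t β (run F σ w k))
    have h2 : (cnt (Spq H P.X s t β) (run F σ w k) : ℝ) ≤ (H.big s t β (run F σ w k)).card +
        hits (H.z3r P.X P.n s t β) (H.z3a P.X P.n s t β) (run F σ w k) := by
      exact_mod_cast cnt_le H P.X P.n s t β σ w k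
    set Bg : ℝ := ((H.big s t β (run F σ w k)).card : ℝ) with hBg
    set Ht : ℝ := (hits (H.z3r P.X P.n s t β) (H.z3a P.X P.n s t β) (run F σ w k) : ℝ) with hHt
    have hB0 : 0 ≤ Bg := Nat.cast_nonneg _
    have hH0 : 0 ≤ Ht := Nat.cast_nonneg _
    have hN10 : (0 : ℝ) < Fintype.card S.V := by
      have := P.N_10
      exact_mod_cast (by omega : 0 < Fintype.card S.V)
    have hs0 : (0 : ℝ) < (s : ℕ) := by
      have := H.T_big
      exact_mod_cast (by omega : 0 < s)
    have hkq' : 2 * (k : ℝ) / Fintype.card S.V ≤ 2 * q / Fintype.card S.V := by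
      have : (k : ℝ) ≤ q := by exact_mod_cast hkq
      gcongr
    have hA0 : 0 ≤ 2 * (q : ℝ) / Fintype.card S.V + 4 * S.D * (H.R + 2) * P.θ := by positivity
    have hA1 : 0 ≤ 2 * (k : ℝ) / Fintype.card S.V + 4 * S.D * (H.R + 2) * P.θ := by positivity
    have h3 := P.c3
    have h4 := P.c3'
    have h5 : 0 ≤ 2 * (1 + (H.nu P.n : ℝ)) * P.θ := by positivity
    refine hcmp.trans ?_
    calc (2 * (k : ℝ) / Fintype.card S.V + 4 * S.D * (H.R + 2) * P.θ) *
          ((H.halo P.n (run F σ w k) (H.big s t β (run F σ w k))).card : ℝ) +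
          2 * (1 + H.nu P.n) * P.θ * cnt (Spq H P.X s t β) (run F σ w k)
        ≤ (2 * (q : ℝ) / Fintype.card S.V + 4 * S.D * (H.R + 2) * P.θ) *
          (Bg * (1 + H.nu P.n)) + 2 * (1 + H.nu P.n) * P.θ * (Bg + Ht) := by
          refine add_le_add ?_ (mul_le_mul_of_nonneg_left h2 h5)
          exact mul_le_mul (by linarith) h1 (Nat.cast_nonneg _) hA0
      _ = (2 * (1 + H.nu P.n) * P.θ + (2 * q / Fintype.card S.V + 4 * S.D * (H.R + 2) * P.θ) *
            (1 + H.nu P.n)) * Bg + 2 * (1 + H.nu P.n) * P.θ * Ht := by ring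
      _ ≤ 1 / (s : ℕ) * Bg + 1 / 100 * Ht := by
          refine add_le_add (mul_le_mul_of_nonneg_right ?_ hB0)
            (mul_le_mul_of_nonneg_right h3 hH0)
          rw [le_div_iff₀ hs0]
          exact h4
      _ = Bg / (s : ℕ) + Ht / 100 := by ring
  · intro j hj x hx
    unfold Hier.z3r Hier.evr at hx
    rw [if_pos (hX j hj)] at hx
    refine halo_mono H σ w hj.le P.n ?_ hx
    exact Finset.inter_subset_left.trans (big_mono H σ w hj.le s t β)
  · intro e L he hnew κ hκ
    obtain ⟨j, hj, rfl, -⟩ := run_suffix_mem σ w he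
    by_cases hS : e.a.1 ∈ H.big s t β (run F σ w j) ∧ H.ge t e.b e.p
    · left
      have hz : H.z3a P.X P.n s t β (run F σ w j) e.b e.a e.p =
          H.spec P.n (run F σ w j) ∪ {e.p.1} := by
        unfold Hier.z3a Hier.eva
        rw [if_pos (hX j hj), if_pos hS]
      refine ⟨⟨hnew, hX j hj, hS.1, hS.2, by rw [hκ]; simp⟩, ?_⟩
      rw [hz]
      exact spec_le hN H P.X P.θ σ w j P.n e.b e.p κ hκ (hX j hj) _ (P.dn _ (H.ty_lt κ)) hθ
    · right
      refine ⟨fun h => hS ⟨h.2.2.1, h.2.2.2.1⟩, ?_, fun _ => H.ty_lt κ⟩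
      have hz : H.z3a P.X P.n s t β (run F σ w j) e.b e.a e.p =
          H.halo P.n (run F σ w j) (H.big s t β (run F σ w j) ∩ touched (run F σ w j)) := by
        unfold Hier.z3a Hier.eva
        rw [if_pos (hX j hj), if_neg hS]
      rw [hz]
      refine Finset.inter_subset_left.trans (halo_mono H σ w hj.le P.n ?_)
      exact Finset.inter_subset_left.trans (big_mono H σ w hj.le s t β)

end

end Pool.Agent.AcyAd
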