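import Pool.Agent.AcyAd.Targets2

/-!
# MP_08c6cd_lc, fully adaptive testers: the compensator of the landings in a window
-/

namespace Pool.Agent.AcyAd

open scoped Classical

noncomputable section

theorem tC4 (hC : T_CMP) (hW : T_WINC) : T_C4 := by
  intro S F H q P σ w k t β l ht1 htR hk hXB
  have h1 := hC S F H P.X (P.θ4 t) 0 t (H.z4r P.X (P.h (t - 1)) t β l)
    (H.z4a P.X (P.h (t - 1)) t β l) (H.win (P.h (t - 1)) t β l) (fun _ _ => False) σ w k
    (P.θ4_nonneg t) le_rfl (fun τ hτ _ => P.dn4 t ht1 htR τ hτ) hXB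
    (fun j _ => by
      unfold Hier.z4r
      split
      · exact subset_rfl
      · exact Finset.empty_subset _)
    (fun e L _ _ κ hκ => by
      refine Or.inr ⟨not_false, ?_, ?_⟩
      · refine Finset.inter_subset_left.trans ?_
        unfold Hier.z4a
        split
        · exact subset_rfl
        · exact Finset.empty_subset _
      · intro hne
        unfold Hier.z4a at hne
        split at hne
        · rename_i h2
          by_contra h3
          exact h2.2 (Or.inl ⟨κ, hκ, not_lt.mp h3⟩)
        · simp at hne)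
  have h2 := hW S F H (P.h (t - 1)) t β l htR
  have h3 : ((H.win (P.h (t - 1)) t β l).card : ℝ) ≤ (6 * P.h (t - 1) + 4) * H.nb (t + 1) := by
    exact_mod_cast h2
  refine h1.trans (le_trans ?_ (P.al4_ge t ht1 htR))
  rw [zero_mul, add_zero]
  have h4 : (0 : ℝ) ≤ P.θ4 t := P.θ4_nonneg t
  have h5 : (2 * k / Fintype.card S.V : ℝ) ≤ 2 * q / Fintype.card S.V := by
    have : (k : ℝ) ≤ q := by exact_mod_cast hk
    gcongr
  have h6 : (0 : ℝ) ≤ 2 * q / Fintype.card S.V + 4 * S.D * (H.R + 2) * P.θ4 t := by positivity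
  refine mul_le_mul (by linarith) h3 (by positivity) h6

end

end Pool.Agent.AcyAd
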