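import Pool.Agent.AcyAd.Targets2

/-!
# MP_08c6cd_lc, fully adaptive testers: landing names near other ones (target CLE)
-/

namespace Pool.Agent.AcyAd

open scoped Classical

noncomputable section

namespace CLE_

variable {S : Sys} {F : Fx S}

/-- The name `v` is touched for the first time in a counted landing. -/
def Wit (Zr : List (En S) → Finset S.V) (Za : List (En S) → Bool → S.Sl → S.Sl → Finset S.V)
    (L : List (En S)) (v : S.V) : Prop :=
  ∃ e L', e :: L' <:+ L ∧ ((v = e.a.1 ∧ e.a.1 ∉ touched L' ∧ e.p.1 ∈ Zr L') ∨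
    (Disc L' e v ∧ e.a ∉ known e.b L' ∧ S.cc e.b e.p ≠ none ∧
      ∃ y, e.r = some y ∧ y.2.1 ∈ Za L' e.b e.a e.p))

theorem card_wit (Zr : List (En S) → Finset S.V)
    (Za : List (En S) → Bool → S.Sl → S.Sl → Finset S.V) (L : List (En S)) (Z : Finset S.V)
    (h : ∀ v ∈ Z, Wit Zr Za L v) : Z.card ≤ hits Zr Za L := by
  induction L generalizing Z with
  | nil =>
    have hZ : Z = ∅ := by
      rw [Finset.eq_empty_iff_forall_notMem]
      intro v hv
      obtain ⟨e, L', h1, _⟩ := h v hv
      simp at h1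
    simp [hZ, hits]
  | cons e L ih =>
    have h1 := ih (Z.filter fun v => Wit Zr Za L v) (fun v hv => (Finset.mem_filter.1 hv).2)
    have h2 : (Z.filter fun v => v = e.a.1 ∧ e.a.1 ∉ touched L ∧ e.p.1 ∈ Zr L).card ≤
        if e.a.1 ∉ touched L ∧ e.p.1 ∈ Zr L then 1 else 0 := by
      by_cases hc : e.a.1 ∉ touched L ∧ e.p.1 ∈ Zr L
      · rw [if_pos hc]
        rw [Finset.card_le_one]
        intro a ha b hb
        rw [(Finset.mem_filter.1 ha).2.1, (Finset.mem_filter.1 hb).2.1]
      · rw [if_neg hc]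
        refine (Finset.card_eq_zero.2 (Finset.eq_empty_iff_forall_notMem.2 fun v hv => ?_)).le
        exact hc (Finset.mem_filter.1 hv).2.2
    have h3 : (Z.filter fun v => Disc L e v ∧ e.a ∉ known e.b L ∧ S.cc e.b e.p ≠ none ∧
        ∃ y, e.r = some y ∧ y.2.1 ∈ Za L e.b e.a e.p).card ≤
        if e.a ∉ known e.b L ∧ S.cc e.b e.p ≠ none ∧
          ∃ y, e.r = some y ∧ y.2.1 ∈ Za L e.b e.a e.p then 1 else 0 := by
      by_cases hc : e.a ∉ known e.b L ∧ S.cc e.b e.p ≠ none ∧
          ∃ y, e.r = some y ∧ y.2.1 ∈ Za L e.b e.a e.p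
      · rw [if_pos hc]
        rw [Finset.card_le_one]
        intro a ha b hb
        obtain ⟨_, _, y, hy, rfl⟩ := disc_iff.1 (Finset.mem_filter.1 ha).2.1
        obtain ⟨_, _, y', hy', rfl⟩ := disc_iff.1 (Finset.mem_filter.1 hb).2.1
        rw [hy] at hy'
        rw [Option.some.inj hy']
      · rw [if_neg hc]
        refine (Finset.card_eq_zero.2 (Finset.eq_empty_iff_forall_notMem.2 fun v hv => ?_)).le
        exact hc (Finset.mem_filter.1 hv).2.2
    have h4 : Z ⊆ ((Z.filter fun v => Wit Zr Za L v) ∪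
        (Z.filter fun v => v = e.a.1 ∧ e.a.1 ∉ touched L ∧ e.p.1 ∈ Zr L)) ∪
        (Z.filter fun v => Disc L e v ∧ e.a ∉ known e.b L ∧ S.cc e.b e.p ≠ none ∧
          ∃ y, e.r = some y ∧ y.2.1 ∈ Za L e.b e.a e.p) := by
      intro v hv
      obtain ⟨e', L', h5, h6⟩ := h v hv
      rw [List.suffix_cons_iff] at h5
      rw [Finset.mem_union, Finset.mem_union, Finset.mem_filter, Finset.mem_filter,
        Finset.mem_filter]
      rcases h5 with h5 | h5
      · obtain ⟨rfl, rfl⟩ := List.cons.inj h5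
        rcases h6 with h6 | h6
        · exact Or.inl (Or.inr ⟨hv, h6⟩)
        · exact Or.inr ⟨hv, h6⟩
      · exact Or.inl (Or.inl ⟨hv, e', L', h5, h6⟩)
    have h5 := Finset.card_le_card h4
    have h6 := Finset.card_union_le ((Z.filter fun v => Wit Zr Za L v) ∪
        (Z.filter fun v => v = e.a.1 ∧ e.a.1 ∉ touched L ∧ e.p.1 ∈ Zr L))
        (Z.filter fun v => Disc L e v ∧ e.a ∉ known e.b L ∧ S.cc e.b e.p ≠ none ∧
          ∃ y, e.r = some y ∧ y.2.1 ∈ Za L e.b e.a e.p)
    have h7 := Finset.card_union_le (Z.filter fun v => Wit Zr Za L v)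
        (Z.filter fun v => v = e.a.1 ∧ e.a.1 ∉ touched L ∧ e.p.1 ∈ Zr L)
    simp only [hits]
    omega

theorem first {L : List (En S)} {v : S.V} (h : v ∈ touched L) :
    ∃ e L', e :: L' <:+ L ∧ v ∉ touched L' ∧ v ∈ touched (e :: L') := by
  induction L with
  | nil => simp [touched, vtouched] at h
  | cons e L ih =>
    by_cases hv : v ∈ touched L
    · obtain ⟨e', L', h1, h2, h3⟩ := ih hv
      exact ⟨e', L', h1.trans (List.suffix_cons _ _), h2, h3⟩
    · exact ⟨e, L, List.suffix_rfl, hv, h⟩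

theorem first_uniq {L : List (En S)} {v : S.V} {e1 e2 : En S} {L1 L2 : List (En S)}
    (h1 : e1 :: L1 <:+ L) (h1a : v ∉ touched L1) (h1b : v ∈ touched (e1 :: L1))
    (h2 : e2 :: L2 <:+ L) (h2a : v ∉ touched L2) (h2b : v ∈ touched (e2 :: L2)) :
    e1 :: L1 = e2 :: L2 := by
  rcases List.suffix_or_suffix_of_suffix h1 h2 with h | h
  · rw [List.suffix_cons_iff] at h
    rcases h with h | h
    · exact h
    · exact absurd (touched_suffix h h1b) h2a
  · rw [List.suffix_cons_iff] at h
    rcases h with h | h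
    · exact h.symm
    · exact absurd (touched_suffix h h2b) h1a

/-- A question whose answer is new is new. -/
theorem new {σ : Player S} {w : World S} {k : ℕ} {e : En S} {L' : List (En S)}
    (h : e :: L' <:+ run F σ w k) {y : S.Sl × S.Sl} (hy : e.r = some y)
    (hn : y.1.1 ∉ touched L') : e.a ∉ known e.b L' := by
  intro hk
  obtain ⟨j, _, hj, _⟩ := run_suffix_mem σ w h
  have he : e ∈ run F σ w k := h.subset List.mem_cons_self
  obtain ⟨_, _, h3⟩ := run_r σ w he hy
  rw [mem_known] at hk
  obtain ⟨e', he', h4⟩ := hk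
  have he'' : e' ∈ run F σ w j := hj ▸ he'
  apply hn
  rw [mem_touched]
  refine ⟨e', he', ?_⟩
  rcases h4 with ⟨h4, h5⟩ | ⟨h4, y', h5, h6⟩
  · right
    have h6 := run_ans σ w he''
    rw [h4, h5, h3] at h6
    unfold En.ans at h6
    rw [Option.map_eq_some_iff] at h6
    obtain ⟨y', h7, h8⟩ := h6
    exact ⟨y', h7, by rw [h8]⟩
  · left
    obtain ⟨_, _, h7⟩ := run_r σ w he'' h5
    have h8 := w.ask_inv h7
    have h9 : (!e'.b) = e.b := by
      revert h4
      cases e'.b <;> cases e.b <;> simp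
    rw [h9, h6, h3] at h8
    rw [Option.some.inj h8]

theorem cc_ne {H : Hier S F} {σ : Player S} {w : World S} {k : ℕ} {e : En S}
    (he : e ∈ run F σ w k) {y : S.Sl × S.Sl} (hy : e.r = some y) (hg : ¬ H.ge H.R e.b e.p) :
    S.cc e.b e.p ≠ none := by
  intro hc
  obtain ⟨h1, _, _⟩ := run_r σ w he hy
  rw [w.mt_none hc] at h1
  exact hg (Or.inr ⟨by rw [h1]; simp, le_rfl⟩)

theorem lam_a {σ : Player S} {w : World S} {k : ℕ} {e : En S} (he : e ∈ run F σ w k) :
    e.p.1 = w.lam e.a.1 := by
  rw [(run_mem σ w he).1]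
  rfl

theorem lam_y {σ : Player S} {w : World S} {k : ℕ} {e : En S} (he : e ∈ run F σ w k)
    {y : S.Sl × S.Sl} (hy : e.r = some y) : y.2.1 = w.lam y.1.1 := by
  rw [(run_r σ w he hy).2.1]
  rfl

theorem adr_touched {σ : Player S} {w : World S} {k : ℕ} {v : S.V}
    (h : v ∈ touched (run F σ w k)) : adr (run F σ w k) v = some (w.lam v) := by
  rw [adr_eq, if_pos h]

theorem adr_lam {σ : Player S} {w : World S} {k : ℕ} {v x : S.V}
    (h : adr (run F σ w k) v = some x) : x = w.lam v ∧ v ∈ touched (run F σ w k) := by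
  rw [adr_eq] at h
  by_cases hv : v ∈ touched (run F σ w k)
  · rw [if_pos hv] at h
    exact ⟨(Option.some.inj h).symm, hv⟩
  · rw [if_neg hv] at h
    cases h

/-- Landing names do not change. -/
theorem land_suffix {H : Hier S F} {L' L : List (En S)} (hs : L' <:+ L) {v : S.V}
    (h : v ∈ touched L') (hl : v ∈ H.land L) : v ∈ H.land L' := by
  unfold Hier.land at hl ⊢
  rw [H.mem_roots] at hl ⊢
  refine ⟨h, ?_⟩
  rw [← (H.stable_suffix (t := H.R) hs h).2.2]
  exact hl.2

/-- A landing name was not discovered by a fixed pair. -/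
theorem land_not_ge {H : Hier S F} {L' L : List (En S)} {e : En S} (hs : e :: L' <:+ L) {v : S.V}
    (hd : Disc L' e v) (hl : v ∈ H.land L) : ¬ H.ge H.R e.b e.p := by
  intro hg
  unfold Hier.land at hl
  rw [H.mem_roots, H.root_iff] at hl
  have h1 := H.disc_dep hs hd hg
  omega

end CLE_

open CLE_ in
theorem tCLE : T_CLE := by
  intro S F H σ w k t n n' m β A ht hn hSat hm
  set L := run F σ w k with hL
  -- the names counted by the events
  set EV : Finset S.V := Finset.univ.filter fun v => Wit (H.evr n A) (H.eva n t A) L v with hEV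
  have hEVc : EV.card ≤ H.evc n t A L :=
    card_wit _ _ L EV fun v hv => (Finset.mem_filter.1 hv).2
  have hAt : ∀ v ∈ A, v ∈ touched L := fun v hv => (Finset.mem_filter.1 (hSat.1 hv)).1
  set C := H.clus n' L A with hC
  set Pr : S.V → Prop := fun z => ∃ e L', e :: L' <:+ L ∧ Disc L' e z ∧ e.a.1 ∉ touched L' ∧
    par L z = e.a.1 ∧ e.a.1 ∈ A with hPr
  have hsub : C ⊆ ((A ∩ H.roots t L) ∪ (C.filter Pr)) ∪
      (EV ∪ (EV ∩ H.land L).biUnion fun z' => H.nbh n' L z') := by
    intro z hz
    have hz0 := hz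
    rw [hC, Hier.clus, Finset.mem_filter, Finset.mem_inter] at hz
    obtain ⟨⟨hzA, hzl⟩, z', hz'l, hne, x, x', hx, hx', hnear⟩ := hz
    have hzt : z ∈ touched L := hAt z hzA
    have hz't : z' ∈ touched L := (H.mem_roots.1 hz'l).1
    obtain ⟨rfl, _⟩ := adr_lam hx
    obtain ⟨rfl, _⟩ := adr_lam hx'
    by_cases hr : z ∈ H.roots t L
    · rw [Finset.mem_union, Finset.mem_union, Finset.mem_inter]
      exact Or.inl (Or.inl ⟨hzA, hr⟩)
    have hdep : 0 < H.dep t L z := by
      rcases Nat.eq_zero_or_pos (H.dep t L z) with h | h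
      · exact absurd (H.mem_roots.2 ⟨hzt, H.root_iff.2 h⟩) hr
      · exact h
    obtain ⟨e, L', hs, hd, hg, hp, _, _⟩ := H.dep_pos hdep
    obtain ⟨hd1, hd2, y, hy, hyz⟩ := disc_iff.1 hd
    have he : e ∈ run F σ w k := hs.subset List.mem_cons_self
    obtain ⟨j, _, hj, _⟩ := run_suffix_mem σ w hs
    have heA : e.a.1 ∈ A := by
      apply hSat.2 z hzA
      rw [H.mem_part]
      exact ⟨touched_suffix hs disc_par_touched, (H.disc_dep hs hd hg).2.2.symm⟩
    have hnew : e.a ∉ known e.b L' := new hs hy (by rw [hyz]; exact hd1)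
    have hcc : S.cc e.b e.p ≠ none := cc_ne he hy (land_not_ge hs hd hzl)
    have hyl : y.2.1 = w.lam z := by rw [lam_y he hy, hyz]
    by_cases h1 : z' ∈ touched L'
    · -- (i)
      rw [Finset.mem_union, Finset.mem_union (s := EV)]
      refine Or.inr (Or.inl ?_)
      rw [hEV, Finset.mem_filter]
      refine ⟨Finset.mem_univ _, e, L', hs, Or.inr ⟨hd, hnew, hcc, y, hy, ?_⟩⟩
      rw [Hier.eva, if_pos ⟨heA, hg⟩, Finset.mem_union]
      left
      rw [Hier.spec, Hier.halo, Finset.mem_filter]
      refine ⟨Finset.mem_univ _, z', h1, w.lam z', ?_, Or.inr ⟨?_, ?_⟩⟩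
      · rw [hj] at h1 ⊢
        exact adr_touched h1
      · exact land_suffix ((List.suffix_cons _ _).trans hs) h1 hz'l
      · rw [hyl]
        exact H.near_mono hn hnear
    by_cases h2 : z' = e.a.1
    · -- (ii)
      rw [Finset.mem_union, Finset.mem_union, Finset.mem_filter]
      refine Or.inl (Or.inr ⟨hz0, e, L', hs, hd, ?_, hp, heA⟩)
      rw [← h2]
      exact h1
    · -- (iii)
      rw [Finset.mem_union, Finset.mem_union (s := EV)]
      refine Or.inr (Or.inr ?_)
      rw [Finset.mem_biUnion]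
      have h3 : z' ∉ touched (e :: L') := by
        rw [mem_touched_cons]
        rintro (h | h | ⟨y', hy', h⟩)
        · exact h1 h
        · exact h2 h
        · rw [hy] at hy'
          rw [← Option.some.inj hy', hyz] at h
          exact hne h.symm
      obtain ⟨e2, L2, hs2, h4, h5⟩ := first hz't
      have hs3 : e :: L' <:+ L2 := by
        rcases List.suffix_or_suffix_of_suffix hs hs2 with h | h
        · rw [List.suffix_cons_iff] at h
          rcases h with h | h
          · rw [h] at h3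
            exact absurd h5 h3
          · exact h
        · exact absurd (touched_suffix h h5) h3
      have hz2 : z ∈ touched L2 := touched_suffix hs3 (disc_touched hd)
      have he2 : e2 ∈ run F σ w k := hs2.subset List.mem_cons_self
      obtain ⟨j2, _, hj2, _⟩ := run_suffix_mem σ w hs2
      have hL2 : L2 <:+ L := (List.suffix_cons _ _).trans hs2
      have hhalo : w.lam z' ∈ H.halo n L2 (A ∩ touched L2) := by
        rw [Hier.halo, Finset.mem_filter]
        refine ⟨Finset.mem_univ _, z, Finset.mem_inter.2 ⟨hzA, hz2⟩, w.lam z, ?_,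
          Or.inr ⟨land_suffix hL2 hz2 hzl, ?_⟩⟩
        · rw [hj2] at hz2 ⊢
          exact adr_touched hz2
        · exact H.near_symm (H.near_mono hn hnear)
      have hspec : H.halo n L2 (A ∩ touched L2) ⊆ H.spec n L2 := by
        intro x hx
        rw [Hier.halo, Finset.mem_filter] at hx
        rw [Hier.spec, Hier.halo, Finset.mem_filter]
        obtain ⟨_, v, hv, hv2⟩ := hx
        exact ⟨Finset.mem_univ _, v, (Finset.mem_inter.1 hv).2, hv2⟩
      refine ⟨z', ?_, ?_⟩
      · rw [Finset.mem_inter]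
        refine ⟨?_, hz'l⟩
        rw [hEV, Finset.mem_filter]
        refine ⟨Finset.mem_univ _, e2, L2, hs2, ?_⟩
        by_cases h6 : z' = e2.a.1
        · left
          refine ⟨h6, by rw [← h6]; exact h4, ?_⟩
          rw [lam_a he2, ← h6]
          exact hhalo
        · right
          have h7 : ∃ y, e2.r = some y ∧ y.1.1 = z' := by
            rw [mem_touched_cons] at h5
            rcases h5 with h | h | h
            · exact absurd h h4
            · exact absurd h h6
            · exact h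
          have hd' : Disc L2 e2 z' := disc_iff.2 ⟨h4, h6, h7⟩
          obtain ⟨y2, hy2, hyz2⟩ := h7
          refine ⟨hd', new hs2 hy2 (by rw [hyz2]; exact h4),
            cc_ne he2 hy2 (land_not_ge hs2 hd' hz'l), y2, hy2, ?_⟩
          rw [lam_y he2 hy2, hyz2, Hier.eva]
          split
          · exact Finset.mem_union_left _ (hspec hhalo)
          · exact hhalo
      · rw [Hier.nbh, Finset.mem_filter]
        exact ⟨hzl, w.lam z', w.lam z, adr_touched hz't, adr_touched hzt, H.near_symm hnear⟩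
  have hPrc : (C.filter Pr).card ≤ (A ∩ H.roots t L).card := by
    apply Finset.card_le_card_of_injOn (par L)
    · intro z hz
      rw [Finset.mem_coe, Finset.mem_filter] at hz
      obtain ⟨_, e, L', hs, hd, hnt, hp, heA⟩ := hz
      rw [Finset.mem_coe, hp, Finset.mem_inter]
      refine ⟨heA, H.mem_roots.2 ⟨hAt _ heA, ?_⟩⟩
      rw [(H.stable_suffix (t := t) hs disc_par_touched).2.2, H.root_cons,
        if_neg (fun h' => (disc_iff.1 h').2.1 rfl)]
      exact (H.not_touched hnt).2.2
    · intro z1 hz1 z2 hz2 h12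
      rw [Finset.mem_coe, Finset.mem_filter] at hz1 hz2
      obtain ⟨_, e1, L1, hs1, hd1, hnt1, hp1, _⟩ := hz1
      obtain ⟨_, e2, L2, hs2, hd2, hnt2, hp2, _⟩ := hz2
      have h3 : e1.a.1 = e2.a.1 := by rw [← hp1, ← hp2]; exact h12
      have h4 : e1.a.1 ∈ touched (e2 :: L2) := by
        rw [h3]
        exact disc_par_touched
      have h5 : e1.a.1 ∉ touched L2 := by
        rw [h3]
        exact hnt2
      have h6 := first_uniq hs1 hnt1 disc_par_touched hs2 h5 h4
      obtain ⟨rfl, rfl⟩ := List.cons.inj h6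
      obtain ⟨_, _, y1, hy1, rfl⟩ := disc_iff.1 hd1
      obtain ⟨_, _, y2, hy2, rfl⟩ := disc_iff.1 hd2
      rw [hy1] at hy2
      rw [Option.some.inj hy2]
  have hbi : ((EV ∩ H.land L).biUnion fun z' => H.nbh n' L z').card ≤ m * H.evc n t A L := by
    calc ((EV ∩ H.land L).biUnion fun z' => H.nbh n' L z').card
        ≤ (EV ∩ H.land L).card * m := by
          apply Finset.card_biUnion_le_card_mul
          intro z' hz'
          exact hm z' (Finset.mem_inter.1 hz').2
      _ ≤ H.evc n t A L * m := by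
          apply Nat.mul_le_mul_right
          exact (Finset.card_le_card Finset.inter_subset_left).trans hEVc
      _ = m * H.evc n t A L := Nat.mul_comm _ _
  have h1 := Finset.card_le_card hsub
  have h2 := Finset.card_union_le ((A ∩ H.roots t L) ∪ (C.filter Pr))
    (EV ∪ (EV ∩ H.land L).biUnion fun z' => H.nbh n' L z')
  have h3 := Finset.card_union_le (A ∩ H.roots t L) (C.filter Pr)
  have h4 := Finset.card_union_le EV ((EV ∩ H.land L).biUnion fun z' => H.nbh n' L z')
  have h5 : (m + 1) * H.evc n t A L = m * H.evc n t A L + H.evc n t A L := by ring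
  rw [h5]
  omega

end

end Pool.Agent.AcyAd
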