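import Pool.Agent.AcyAd.Targets3

/-!
# MP_08c6cd_lc, fully adaptive testers: small clusters
-/

namespace Pool.Agent.AcyAd

open scoped Classical

noncomputable section

namespace CLU_

/-- The members of `A` which are reachable in at most `i` steps. -/
def rs {Λ : Type} (A : Finset Λ) (Q : Λ → Λ → Prop) (x : Λ) : ℕ → Finset Λ
  | 0 => {x}
  | i + 1 => rs A Q x i ∪ A.filter fun v => ∃ u ∈ rs A Q x i, Q u v

theorem rs_step {Λ : Type} (A : Finset Λ) (Q : Λ → Λ → Prop) (x : Λ) (i : ℕ) :
    rs A Q x i ⊆ rs A Q x (i + 1) := Finset.subset_union_left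

theorem rs_mem {Λ : Type} (A : Finset Λ) (Q : Λ → Λ → Prop) (x : Λ) (hx : x ∈ A) (i : ℕ) :
    rs A Q x i ⊆ A := by
  induction i with
  | zero =>
    intro v hv
    rw [rs, Finset.mem_singleton] at hv
    exact hv ▸ hx
  | succ i ih => exact Finset.union_subset ih (Finset.filter_subset _ _)

theorem rs_zero {Λ : Type} (A : Finset Λ) (Q : Λ → Λ → Prop) (x : Λ) (i : ℕ) :
    x ∈ rs A Q x i := by
  induction i with
  | zero => exact Finset.mem_singleton_self x
  | succ i ih => exact rs_step A Q x i ih

end CLU_

open CLU_ in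
theorem tCLU : T_CLU := by
  intro Λ A P r m n h0 hadd hmono hn hcard x hx y hy
  set Q : Λ → Λ → Prop := fun u v => P r u v with hQ
  have hP : ∀ i, ∀ v ∈ rs A Q x i, P (i * r) x v := by
    intro i
    induction i with
    | zero =>
      intro v hv
      rw [rs, Finset.mem_singleton] at hv
      subst hv
      rw [Nat.zero_mul]
      exact h0 v hx
    | succ i ih =>
      intro v hv
      rw [rs, Finset.mem_union, Finset.mem_filter] at hv
      rcases hv with hv | ⟨_, u, hu, huv⟩
      · exact hmono _ _ _ _ (Nat.mul_le_mul_right r (Nat.le_succ i)) (ih v hv)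
      · have := hadd _ _ _ _ _ (ih u hu) huv
        rwa [← Nat.succ_mul] at this
  have key : ∃ i, i < m ∧ rs A Q x (i + 1) = rs A Q x i := by
    by_contra hne
    have hne' : ∀ i, i < m → rs A Q x (i + 1) ≠ rs A Q x i := fun i hi h => hne ⟨i, hi, h⟩
    have hc : ∀ i, i ≤ m → i + 1 ≤ (rs A Q x i).card := by
      intro i
      induction i with
      | zero =>
        intro _
        simp [rs]
      | succ i ih =>
        intro hi
        have h1 := ih (by omega)
        have h2 : (rs A Q x i).card < (rs A Q x (i + 1)).card := by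
          refine Finset.card_lt_card ?_
          rw [Finset.ssubset_iff_subset_ne]
          exact ⟨rs_step A Q x i, fun h => hne' i (by omega) h.symm⟩
        omega
    have h3 := hc m le_rfl
    have h4 : rs A Q x m ⊆ A.filter fun y => P n x y := by
      intro v hv
      rw [Finset.mem_filter]
      refine ⟨rs_mem A Q x hx m hv, hmono _ _ _ _ ?_ (hP m v hv)⟩
      exact (Nat.mul_le_mul_right r (Nat.le_succ m)).trans hn
    have h5 := (Finset.card_le_card h4).trans (hcard x hx)
    omega
  obtain ⟨i, him, hi⟩ := key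
  have hall : y ∈ rs A Q x i := by
    induction hy with
    | refl => exact rs_zero A Q x i
    | tail _ hbc ih =>
      rw [← hi, rs, Finset.mem_union, Finset.mem_filter]
      exact Or.inr ⟨hbc.1, _, ih, hbc.2⟩
  exact hmono _ _ _ _ ((Nat.mul_le_mul_right r (by omega)).trans hn) (hP i y hall)

end

end Pool.Agent.AcyAd
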