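import Pool.Agent.AcyAd.Targets2

/-!
# MP_08c6cd_lc, fully adaptive testers: a bound for the compensator (ADF-CMP)
-/

namespace Pool.Agent.AcyAd

open scoped Classical
open Pool.Agent.AcyTest

noncomputable section

namespace CMP_

variable {S : Sys} {F : Fx S}

/-- The weight of a class. -/
def G (S : Sys) (W : Finset S.V) (κ : S.K) : ℝ :=
  2 * S.D * (W ∩ S.tgt true κ).card / S.N κ + 2 * S.D * (W ∩ S.tgt false κ).card / S.N κ

theorem G_nonneg (W : Finset S.V) (κ : S.K) : 0 ≤ G S W κ := by
  unfold G; positivity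

theorem le_G (W : Finset S.V) (κ : S.K) (b : Bool) :
    2 * (S.D : ℝ) * (W ∩ S.tgt b κ).card / S.N κ ≤ G S W κ := by
  unfold G
  have h1 : 0 ≤ 2 * (S.D : ℝ) * (W ∩ S.tgt true κ).card / S.N κ := by positivity
  have h2 : 0 ≤ 2 * (S.D : ℝ) * (W ∩ S.tgt false κ).card / S.N κ := by positivity
  cases b <;> linarith

theorem ncl_slot {κ : S.K} {L : List (En S)} (h : ncl κ L ≠ 0) : ∃ b y, S.cc b y = some κ := by
  induction L with
  | nil => exact absurd rfl h
  | cons e L ih =>
    by_cases h1 : ncl κ L = 0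
    · simp only [ncl, h1] at h
      by_cases h2 : e.a ∉ known e.b L ∧ S.cc e.b e.p = some κ
      · exact ⟨_, _, h2.2⟩
      · rw [if_neg h2] at h
        exact absurd rfl h
    · exact ih h1

/-- The classes at the addresses of `W`. -/
theorem sum_tgt {H : Hier S F} (W : Finset S.V) (b : Bool) :
    ∑ κ, (W ∩ S.tgt b κ).card ≤ W.card * (H.R + 2) := by
  have h1 : ∀ κ, (W ∩ S.tgt b κ).card = ∑ x ∈ W, if x ∈ S.tgt b κ then 1 else 0 := by
    intro κ
    rw [← Finset.filter_mem_eq_inter, Finset.card_filter]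
  simp only [h1]
  rw [Finset.sum_comm]
  refine (Finset.sum_le_card_nsmul W _ (H.R + 2) fun x _ => ?_).trans (by rw [smul_eq_mul])
  rw [← Finset.card_filter]
  exact H.cls_num b x

theorem ind {H : Hier S F} {p : ℝ} {t₀ : ℕ}
    {Zr : List (En S) → Finset S.V} {Za : List (En S) → Bool → S.Sl → S.Sl → Finset S.V}
    {W : Finset S.V} {P : List (En S) → En S → Prop} {σ : Player S} {w : World S} {k : ℕ}
    (hp : 0 ≤ p)
    (hZ : ∀ j < k, Zr (run F σ w j) ⊆ W)
    (hP : ∀ e L, e :: L <:+ run F σ w k → e.a ∉ known e.b L → ∀ κ, S.cc e.b e.p = some κ →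
      (P L e ∧ 2 * S.D * (Za L e.b e.a e.p ∩ S.tgt (!e.b) κ).card ≤ p * S.N κ) ∨
      (¬ P L e ∧ Za L e.b e.a e.p ∩ S.tgt (!e.b) κ ⊆ W ∧
        ((Za L e.b e.a e.p ∩ S.tgt (!e.b) κ).Nonempty → H.ty κ < t₀))) :
    ∀ j ≤ k, comp Zr Za (run F σ w j) ≤ 2 * j / Fintype.card S.V * W.card +
      p * cnt P (run F σ w j) +
      ∑ κ, (if H.ty κ < t₀ then (ncl κ (run F σ w j) : ℝ) * G S W κ else 0) := by
  intro j
  induction j with
  | zero => intro _; simp [run, comp, cnt, ncl]
  | succ j ih =>
    intro hj
    have ih' := ih (by omega)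
    obtain ⟨L, hL⟩ : ∃ L, L = run F σ w j := ⟨_, rfl⟩
    obtain ⟨e, he⟩ : ∃ e, e :: L = run F σ w (j + 1) := ⟨_, by rw [hL]; rfl⟩
    rw [← he]
    rw [← hL] at ih'
    have hsuf : e :: L <:+ run F σ w k := he ▸ run_suffix σ w hj
    have hP' := hP e L hsuf
    have hZ' : Zr L ⊆ W := hL ▸ hZ j (by omega)
    simp only [comp, cnt, ncl]
    -- first summand
    have h1 : (if e.a.1 ∉ touched L then 2 * ((Zr L).card : ℝ) / Fintype.card S.V else 0) ≤
        2 * (W.card : ℝ) / Fintype.card S.V := by
      have : ((Zr L).card : ℝ) ≤ W.card := by exact_mod_cast Finset.card_le_card hZ'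
      split
      · gcongr
      · positivity
    -- second summand
    have hG0 : ∀ κ, 0 ≤ (if H.ty κ < t₀ then
        ((if e.a ∉ known e.b L ∧ S.cc e.b e.p = some κ then 1 else 0 : ℕ) : ℝ) * G S W κ else 0) := by
      intro κ
      have := G_nonneg (S := S) W κ
      split
      · positivity
      · exact le_rfl
    have h2 : (if e.a ∉ known e.b L then match S.cc e.b e.p with
        | some κ => 2 * (S.D : ℝ) * (Za L e.b e.a e.p ∩ S.tgt (!e.b) κ).card / S.N κ
        | none => 0 else 0) ≤ p * ((if P L e then 1 else 0 : ℕ) : ℝ) +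
        ∑ κ, (if H.ty κ < t₀ then
          ((if e.a ∉ known e.b L ∧ S.cc e.b e.p = some κ then 1 else 0 : ℕ) : ℝ) * G S W κ
          else 0) := by
      have hs0 : 0 ≤ ∑ κ, (if H.ty κ < t₀ then
          ((if e.a ∉ known e.b L ∧ S.cc e.b e.p = some κ then 1 else 0 : ℕ) : ℝ) * G S W κ
          else 0) := Finset.sum_nonneg fun κ _ => hG0 κ
      have hp0 : 0 ≤ p * ((if P L e then 1 else 0 : ℕ) : ℝ) := by positivity
      by_cases hk : e.a ∉ known e.b L
      · rw [if_pos hk]
        rcases hc : S.cc e.b e.p with _ | κ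
        · simp only [hc] at hs0 ⊢
          linarith
        · have hP'' := hP' hk κ hc
          show 2 * (S.D : ℝ) * (Za L e.b e.a e.p ∩ S.tgt (!e.b) κ).card / S.N κ ≤ _
          rcases hP'' with ⟨a1, a2⟩ | ⟨a1, a2, a3⟩
          · have h3 : 2 * (S.D : ℝ) * (Za L e.b e.a e.p ∩ S.tgt (!e.b) κ).card / S.N κ ≤ p := by
              rcases Nat.eq_zero_or_pos (S.N κ) with h0 | h0
              · rw [h0]; simpa using hp
              · rw [div_le_iff₀ (by exact_mod_cast h0)]
                exact a2
            rw [if_pos a1]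
            rw [hc] at hs0
            push_cast at hs0 ⊢
            linarith
          · by_cases hne : (Za L e.b e.a e.p ∩ S.tgt (!e.b) κ).Nonempty
            · have h4 := a3 hne
              have h5 : 2 * (S.D : ℝ) * (Za L e.b e.a e.p ∩ S.tgt (!e.b) κ).card / S.N κ ≤
                  2 * (S.D : ℝ) * (W ∩ S.tgt (!e.b) κ).card / S.N κ := by
                have : (Za L e.b e.a e.p ∩ S.tgt (!e.b) κ).card ≤ (W ∩ S.tgt (!e.b) κ).card := by
                  refine Finset.card_le_card fun x hx => ?_
                  rw [Finset.mem_inter]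
                  exact ⟨a2 hx, (Finset.mem_inter.1 hx).2⟩
                have h6 : ((Za L e.b e.a e.p ∩ S.tgt (!e.b) κ).card : ℝ) ≤
                  (W ∩ S.tgt (!e.b) κ).card := by exact_mod_cast this
                gcongr
              have h7 := le_G (S := S) W κ (!e.b)
              have h8 := Finset.single_le_sum (f := fun κ => (if H.ty κ < t₀ then
                ((if e.a ∉ known e.b L ∧ S.cc e.b e.p = some κ then 1 else 0 : ℕ) : ℝ) * G S W κ
                else 0)) (fun κ _ => hG0 κ) (Finset.mem_univ κ)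
              have h9 : (if H.ty κ < t₀ then
                ((if e.a ∉ known e.b L ∧ S.cc e.b e.p = some κ then 1 else 0 : ℕ) : ℝ) * G S W κ
                else 0) = G S W κ := by
                rw [if_pos h4, if_pos ⟨hk, hc⟩]
                simp
              have h10 : G S W κ ≤ ∑ κ, (if H.ty κ < t₀ then
                ((if e.a ∉ known e.b L ∧ S.cc e.b e.p = some κ then 1 else 0 : ℕ) : ℝ) * G S W κ
                else 0) := by
                rw [← h9]; exact h8
              rw [hc] at h10
              linarith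
            · rw [Finset.not_nonempty_iff_eq_empty] at hne
              rw [hne]
              rw [hc] at hs0
              simp only [Finset.card_empty, Nat.cast_zero, mul_zero, zero_div]
              linarith
      · rw [if_neg hk]
        linarith
    have h3 : ∑ κ, (if H.ty κ < t₀ then
        ((ncl κ L + (if e.a ∉ known e.b L ∧ S.cc e.b e.p = some κ then 1 else 0) : ℕ) : ℝ) *
          G S W κ else 0) =
        ∑ κ, (if H.ty κ < t₀ then (ncl κ L : ℝ) * G S W κ else 0) +
        ∑ κ, (if H.ty κ < t₀ then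
          ((if e.a ∉ known e.b L ∧ S.cc e.b e.p = some κ then 1 else 0 : ℕ) : ℝ) * G S W κ
          else 0) := by
      rw [← Finset.sum_add_distrib]
      refine Finset.sum_congr rfl fun κ _ => ?_
      split
      · push_cast
        ring
      · simp
    rw [h3]
    have h4 : (2 * ((j + 1 : ℕ) : ℝ) / Fintype.card S.V * W.card : ℝ) =
        2 * j / Fintype.card S.V * W.card + 2 * (W.card : ℝ) / Fintype.card S.V := by
      push_cast
      ring
    rw [h4]
    refine (add_le_add (add_le_add ih' h1) h2).trans (le_of_eq ?_)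
    rw [Nat.cast_add (cnt P L)]
    ring

end CMP_

open CMP_ in
theorem tCMP (hN : T_NCL) : T_CMP := by
  intro S F H X θ p t₀ Zr Za W P σ w k hθ hp hdn hXB hZ hP
  have h := ind (H := H) (t₀ := t₀) (Zr := Zr) (Za := Za) (W := W) (P := P) (σ := σ) (w := w)
    (k := k) hp hZ hP k le_rfl
  refine h.trans ?_
  have hsum : ∑ κ, (if H.ty κ < t₀ then (ncl κ (run F σ w k) : ℝ) * G S W κ else 0) ≤
      4 * S.D * (H.R + 2) * θ * W.card := by
    have h1 : ∀ κ, (if H.ty κ < t₀ then (ncl κ (run F σ w k) : ℝ) * G S W κ else 0) ≤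
        θ * (2 * S.D * ((W ∩ S.tgt true κ).card + (W ∩ S.tgt false κ).card)) := by
      intro κ
      have h0 : 0 ≤ θ * (2 * S.D * (((W ∩ S.tgt true κ).card : ℝ) + (W ∩ S.tgt false κ).card)) := by
        positivity
      split
      · rename_i ht
        by_cases hn : ncl κ (run F σ w k) = 0
        · rw [hn]
          simpa using h0
        · obtain ⟨b, y, hy⟩ := ncl_slot hn
          obtain ⟨k', rfl⟩ : ∃ k', k = k' + 1 := by
            rcases k with _ | k'
            · exact absurd rfl hn
            · exact ⟨k', rfl⟩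
          have hD : 1 ≤ S.D := by
            have := y.2.2
            omega
          have h2 := (hN S F H X σ w k' b y κ (hXB k' (by omega)) hy).1
          have h3 : ncl κ (run F σ w (k' + 1)) ≤ ncl κ (run F σ w k') + 1 := by
            simp only [run, ncl]
            split <;> omega
          have h4 : (ncl κ (run F σ w (k' + 1)) : ℝ) ≤ S.D * ((X (H.ty κ + 1) : ℝ) + 2) := by
            have h5 : ncl κ (run F σ w (k' + 1)) ≤ S.D * (X (H.ty κ + 1) + 2) := by
              have : S.D * (X (H.ty κ + 1) + 2) = S.D * X (H.ty κ + 1) + 2 * S.D := by ring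
              omega
            exact_mod_cast h5
          have h5 := hdn (H.ty κ) ht (H.ty_lt κ)
          have h6 : (H.nb (H.ty κ + 1) : ℝ) ≤ 400 * S.N κ := by exact_mod_cast H.cls_N b y κ hy
          have h7 : (ncl κ (run F σ w (k' + 1)) : ℝ) ≤ θ * S.N κ := by
            have : θ * (H.nb (H.ty κ + 1) : ℝ) ≤ θ * (400 * S.N κ) := by gcongr
            linarith
          have hG := G_nonneg (S := S) W κ
          refine (mul_le_mul_of_nonneg_right h7 hG).trans ?_
          unfold G
          rcases Nat.eq_zero_or_pos (S.N κ) with hN0 | hN0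
          · rw [hN0]; simpa using h0
          · have : (S.N κ : ℝ) ≠ 0 := by positivity
            apply le_of_eq
            field_simp
      · exact h0
    refine (Finset.sum_le_sum fun κ _ => h1 κ).trans ?_
    rw [← Finset.mul_sum, ← Finset.mul_sum, Finset.sum_add_distrib]
    have h2 := sum_tgt (H := H) W true
    have h3 := sum_tgt (H := H) W false
    have h2' : (∑ κ, ((W ∩ S.tgt true κ).card : ℝ)) ≤ W.card * (H.R + 2) := by exact_mod_cast h2
    have h3' : (∑ κ, ((W ∩ S.tgt false κ).card : ℝ)) ≤ W.card * (H.R + 2) := by exact_mod_cast h3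
    calc θ * (2 * S.D * ((∑ κ, ((W ∩ S.tgt true κ).card : ℝ)) + ∑ κ, ((W ∩ S.tgt false κ).card : ℝ)))
        ≤ θ * (2 * S.D * (W.card * (H.R + 2) + W.card * (H.R + 2))) := by gcongr
      _ = _ := by ring
  rw [add_mul]
  linarith

end

end Pool.Agent.AcyAd
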