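import Pool.Agent.AcyAd.Targets1

/-!
# MP_08c6cd_lc, fully adaptive testers: the number of inner data with prescribed values
-/

namespace Pool.Agent.AcyAd

open scoped Classical

noncomputable section

namespace CNT_

/-- The number of bijections with prescribed values on a finite set. -/
theorem card_equiv {α β : Type} [Finite α] (e₀ : α ≃ β) (Y : Finset α) :
    Nat.card {e : α ≃ β // ∀ y ∈ Y, e y = e₀ y} = (Nat.card α - Y.card).factorial := by
  have : Fintype α := Fintype.ofFinite α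
  have E1 : {e : α ≃ β // ∀ y ∈ Y, e y = e₀ y} ≃
      {f : Equiv.Perm α // ∀ a, ¬ (a ∉ Y) → f a = a} :=
    { toFun := fun e => ⟨e.1.trans e₀.symm, fun a ha => by
        have := e.2 a (not_not.mp ha)
        simp [this]⟩
      invFun := fun f => ⟨f.1.trans e₀, fun y hy => by
        have := f.2 y (not_not.mpr hy)
        simp [this]⟩
      left_inv := fun e => by
        ext a
        simp
      right_inv := fun f => by
        ext a
        simp }
  rw [Nat.card_congr E1, ← Nat.card_congr (Equiv.Perm.subtypeEquivSubtypePerm fun a => a ∉ Y)]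
  rw [Nat.card_eq_fintype_card, Fintype.card_perm]
  congr 1
  rw [Nat.card_eq_fintype_card, Fintype.card_subtype_compl]
  congr 1
  simp

theorem card_rank (D t : ℕ) : Nat.card {r : Fin D // t ≤ r.1} = D - t := by
  rw [Nat.card_eq_fintype_card, Fintype.card_subtype]
  have h1 : ((Finset.univ.filter fun r : Fin D => t ≤ r.1).map Fin.valEmbedding) =
      Finset.Ico t D := by
    ext x
    simp only [Finset.mem_map, Finset.mem_filter, Finset.mem_univ, true_and, Finset.mem_Ico,
      Fin.valEmbedding_apply]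
    constructor
    · rintro ⟨r, hr, rfl⟩
      exact ⟨hr, r.2⟩
    · rintro ⟨h1, h2⟩
      exact ⟨⟨x, h2⟩, h1, rfl⟩
  rw [← Finset.card_map Fin.valEmbedding, h1, Nat.card_Ico]

end CNT_

theorem tCNT : T_CNT := by
  intro S F B i U X Y
  have E1 : {i' : Ins B // (∀ x ∈ U, i'.rho x = i.rho x) ∧
      (∀ b v, ∀ r ∈ X b v, i'.xi b v r = i.xi b v r) ∧ ∀ κ, ∀ y ∈ Y κ, i'.mu κ y = i.mu κ y} ≃
      {ρ : Equiv.Perm {x : S.V // x ∈ B.M} // ∀ x ∈ U, ρ x = i.rho x} ×
      (∀ b : Bool, ∀ v : S.V, {ξ : Equiv.Perm {r : Fin S.D // B.th ≤ r.1} //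
        ∀ r ∈ X b v, ξ r = i.xi b v r}) ×
      (∀ κ : S.K, {μ : S.Cl true κ ≃ S.Cl false κ // ∀ y ∈ Y κ, μ y = i.mu κ y}) :=
    { toFun := fun i' => (⟨i'.1.rho, i'.2.1⟩, fun b v => ⟨i'.1.xi b v, i'.2.2.1 b v⟩,
        fun κ => ⟨i'.1.mu κ, i'.2.2.2 κ⟩)
      invFun := fun p => ⟨⟨p.1.1, fun b v => (p.2.1 b v).1, fun κ => (p.2.2 κ).1⟩,
        p.1.2, fun b v => (p.2.1 b v).2, fun κ => (p.2.2 κ).2⟩
      left_inv := fun i' => rfl
      right_inv := fun p => rfl }
  rw [Nat.card_congr E1, Nat.card_prod, Nat.card_prod, Nat.card_pi, Nat.card_pi,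
    CNT_.card_equiv i.rho U, ← mul_assoc]
  congr 1
  · congr 1
    · congr 2
      rw [Nat.card_eq_fintype_card]
      simp
    · refine Finset.prod_congr rfl fun b _ => ?_
      rw [Nat.card_pi]
      refine Finset.prod_congr rfl fun v _ => ?_
      rw [CNT_.card_equiv (i.xi b v) (X b v), CNT_.card_rank]
  · refine Finset.prod_congr rfl fun κ _ => ?_
    rw [CNT_.card_equiv (i.mu κ) (Y κ)]
    rfl

end

end Pool.Agent.AcyAd
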