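import Pool.Agent.AcyAd.Targets1

/-!
# MP_08c6cd_lc, job ADU-COUNT: the probability of a visible log and of paths of large rank
-/

namespace Pool.Agent.AcyAd

open scoped Classical

noncomputable section

namespace COUNT_

variable {S : Sys} {F : Fx S} {B : Blk S F}

/-- The ranks of at least `th`. -/
abbrev RR (B : Blk S F) : Type := {r : Fin S.D // B.th ≤ r.1}

/-- The addresses in the middle. -/
abbrev MM (B : Blk S F) : Type := {x : S.V // x ∈ B.M}

/-- The second world. -/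
def W (B : Blk S F) (w0 : World S) (mu : ∀ κ : S.K, S.Cl true κ ≃ S.Cl false κ) (p : RX B) :
    World S := mix w0 (⟨p.1, p.2, mu⟩ : Ins B)

variable {w0 : World S} {g : Gs S} {mu : ∀ κ : S.K, S.Cl true κ ≃ S.Cl false κ}

theorem mt_indep (h : T_MIX) (p p' : RX B) {b : Bool} {Y : S.Sl} (hY : B.ins b Y) :
    (W B w0 mu p).mt F b Y = (W B w0 mu p').mt F b Y := by
  have hm : ∀ (q : RX B), ∀ κ ∈ B.KP, (W B w0 mu q).mu κ = mu κ :=
    fun q κ hκ => (h S F B w0 ⟨q.1, q.2, mu⟩).2.2.2.2.2.2.2 κ hκ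
  rcases hY with ⟨κ, hκ, hc⟩ | ⟨_, hf⟩
  · cases b
    · rw [World.mt_false _ hc, World.mt_false _ hc, hm p κ hκ, hm p' κ hκ]
    · rw [World.mt_true _ hc, World.mt_true _ hc, hm p κ hκ, hm p' κ hκ]
  · rw [World.mt_none _ (F.cc_none hf), World.mt_none _ (F.cc_none hf)]

theorem plc_eq (h : T_MIX) (p : RX B) {b : Bool} {a : S.Sl} (hM : w0.lam a.1 ∈ B.M)
    (ht : B.th ≤ (w0.rk b a.1 a.2).1) :
    (W B w0 mu p).plc b a = ((p.1 ⟨_, hM⟩).1, (p.2 b a.1 ⟨_, ht⟩).1) :=
  (h S F B w0 ⟨p.1, p.2, mu⟩).2.2.2.2.2.2.1 b a hM ht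

theorem ins_iff (h : T_MIX) (p : RX B) (b : Bool) (a : S.Sl) :
    B.ins b ((W B w0 mu p).plc b a) ↔ B.ins b (w0.plc b a) :=
  (h S F B w0 ⟨p.1, p.2, mu⟩).1 b a

theorem th_of_ins (h : T_MIX) {b : Bool} {a : S.Sl} (hM : w0.lam a.1 ∈ B.M)
    (hi : B.ins b (w0.plc b a)) : B.th ≤ (w0.rk b a.1 a.2).1 :=
  ((h S F B w0 ⟨1, fun _ _ => 1, w0.mu⟩).2.2.2.2.1 b a hM).1 hi

theorem plc_congr (p p' : RX B) {b : Bool} {a : S.Sl} (hM : w0.lam a.1 ∈ B.M)
    (h1 : p.1 ⟨_, hM⟩ = p'.1 ⟨_, hM⟩) (h2 : p.2 b a.1 = p'.2 b a.1) :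
    (W B w0 mu p).plc b a = (W B w0 mu p').plc b a := by
  unfold World.plc W mix
  simp only [hM, if_true, Ins.xh, Ins.rh, h2, Equiv.trans_apply,
    Equiv.Perm.ofSubtype_apply_of_mem _ hM, h1]

theorem p2_sub (L : List (VE S)) : p2 B w0 g L ⊆ vtouched L := by
  induction L with
  | nil => simp [p2]
  | cons e L ih =>
    intro v hv
    simp only [p2, Finset.mem_union] at hv
    rcases hv with hv | hv
    · exact vtouched_mono e L (ih hv)
    · split_ifs at hv
      · rw [VE.mem_nm] at hv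
        rw [mem_vtouched_cons]
        exact Or.inr (Or.inr hv)
      · simp at hv

theorem p2_mono (e : VE S) (L : List (VE S)) : p2 B w0 g L ⊆ p2 B w0 g (e :: L) := by
  intro v hv
  simp only [p2, Finset.mem_union]
  exact Or.inl hv

theorem p2_new {e : VE S} {L : List (VE S)} (hc : c2 B w0 g L e.b e.a) {y : S.Sl}
    (hy : e.r = some y) : y.1 ∈ p2 B w0 g (e :: L) := by
  refine Finset.mem_union_right _ ?_
  have hc' : e.a ∉ vknown e.b L ∧ g.flag e.b e.a = none ∧ B.ins e.b (w0.plc e.b e.a) ∧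
    e.a.1 ∈ g.R0 ∪ p2 B w0 g L := hc
  rw [if_pos hc', VE.mem_nm]
  exact ⟨y, hy, rfl⟩

/-- Locality. -/
theorem sol_congr (h : T_MIX) (p p' : RX B) (L : List (VE S)) (hn : nice2 B w0 g L)
    (h1 : ∀ v ∈ g.R0 ∪ p2 B w0 g L, ∀ hv : w0.lam v ∈ B.M, p.1 ⟨_, hv⟩ = p'.1 ⟨_, hv⟩)
    (h2 : ∀ v ∈ g.R0 ∪ p2 B w0 g L, ∀ b, p.2 b v = p'.2 b v)
    (hs : sol B w0 g (W B w0 mu p) L) : sol B w0 g (W B w0 mu p') L := by
  induction L with
  | nil => trivial
  | cons e L ih =>
    have hsub : g.R0 ∪ p2 B w0 g L ⊆ g.R0 ∪ p2 B w0 g (e :: L) :=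
      Finset.union_subset_union le_rfl (p2_mono e L)
    refine ⟨ih hn.1 (fun v hv => h1 v (hsub hv)) (fun v hv => h2 v (hsub hv)) hs.1, ?_⟩
    intro hc
    have h3 := hs.2 hc
    obtain ⟨y, hy, h4, h5, h6, h7, h8⟩ := hn.2.1 hc
    rw [hy] at h3 ⊢
    rw [World.ask_eq_some] at h3 ⊢
    have h9 : e.a.1 ∈ g.R0 ∪ p2 B w0 g (e :: L) := hsub hc.2.2.2
    have h10 : y.1 ∈ g.R0 ∪ p2 B w0 g (e :: L) := Finset.mem_union_right _ (p2_new hc hy)
    rw [← plc_congr p p' h7 (h1 _ h9 h7) (h2 _ h9 _), ← plc_congr p p' h8 (h1 _ h10 h8)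
      (h2 _ h10 _), ← h3]
    exact mt_indep h p' p ((ins_iff h p e.b e.a).2 hc.2.2.1)

/-- The condition on the rank. -/
def rc (B : Blk S F) (w0 : World S) (mu : ∀ κ : S.K, S.Cl true κ ≃ S.Cl false κ) (p : RX B)
    (c : Bool × S.Sl) : Prop := B.th' ≤ ((W B w0 mu p).plc c.1 c.2).2.1

/-- The number of addresses and ranks. -/
def N (B : Blk S F) (w0 : World S) (g : Gs S) (mu : ∀ κ : S.K, S.Cl true κ ≃ S.Cl false κ)
    (L : List (VE S)) (Γ : Finset (Bool × S.Sl)) : ℕ :=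
  Nat.card {p : RX B // sol B w0 g (W B w0 mu p) L ∧ ∀ c ∈ Γ, rc B w0 mu p c}

theorem card_ge (n t : ℕ) : Nat.card {r : Fin n // t ≤ r.1} = n - t := by
  have e : {r : Fin n // t ≤ r.1} ≃ Fin (n - t) :=
    { toFun := fun r => ⟨r.1.1 - t, by have := r.1.2; have := r.2; omega⟩
      invFun := fun i => ⟨⟨i.1 + t, by have := i.2; omega⟩, by simp⟩
      left_inv := by
        intro r
        have := r.2
        ext
        simp only
        omega
      right_inv := by
        intro i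
        ext
        simp }
  rw [Nat.card_congr e, Nat.card_fin]

theorem card_ne {α : Type} [Finite α] (x : α) : Nat.card {s : α // s ≠ x} = Nat.card α - 1 := by
  have := Fintype.ofFinite α
  rw [Nat.card_eq_fintype_card, Nat.card_eq_fintype_card, Fintype.card_subtype_compl]
  simp

/-- Removal of a rank condition. -/
theorem rank_step (Q : RX B → Prop) (b : Bool) (v : S.V) (r x : RR B) (hx : x ≠ r)
    (hQ : ∀ p p' : RX B, p.1 = p'.1 → (∀ b' v', ¬ (b' = b ∧ v' = v) → p.2 b' v' = p'.2 b' v') →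
      p.2 b v x = p'.2 b v x → Q p → Q p') :
    Nat.card {p : RX B // Q p ∧ B.th' ≤ (p.2 b v r).1.1} * (S.D - B.th - 1) ≤
      Nat.card {p : RX B // Q p} * (S.D - B.th') := by
  have h1 : Nat.card (Σ p : {p : RX B // Q p ∧ B.th' ≤ (p.2 b v r).1.1},
      {s : RR B // s ≠ p.1.2 b v x}) =
      Nat.card {p : RX B // Q p ∧ B.th' ≤ (p.2 b v r).1.1} * (S.D - B.th - 1) := by
    have := Fintype.ofFinite {p : RX B // Q p ∧ B.th' ≤ (p.2 b v r).1.1}
    rw [Nat.card_sigma]
    simp only [card_ne, card_ge]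
    rw [Finset.sum_const, Finset.card_univ, smul_eq_mul, Nat.card_eq_fintype_card]
  have h2 : Nat.card ({p : RX B // Q p} × {t : Fin S.D // B.th' ≤ t.1}) =
      Nat.card {p : RX B // Q p} * (S.D - B.th') := by
    rw [Nat.card_prod, card_ge]
  rw [← h1, ← h2]
  let f : RX B → RR B → RX B := fun p s =>
    (p.1, fun b' v' => if b' = b ∧ v' = v then Equiv.swap (p.2 b v r) s * p.2 b' v' else p.2 b' v')
  refine Nat.card_le_card_of_injective
    (fun q => (⟨f q.1.1 q.2.1, ?_⟩, ⟨(q.1.1.2 b v r).1, q.1.2.2⟩)) ?_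
  · refine hQ q.1.1 _ rfl ?_ ?_ q.1.2.1
    · intro b' v' h
      simp only [f, if_neg h]
    · simp only [f, and_self, if_true, Equiv.Perm.mul_apply]
      rw [Equiv.swap_apply_of_ne_of_ne]
      · exact fun h => hx ((q.1.1.2 b v).injective h)
      · exact fun h => q.2.2 h.symm
  · rintro ⟨⟨p, hp⟩, ⟨s, hs⟩⟩ ⟨⟨p', hp'⟩, ⟨s', hs'⟩⟩ h
    simp only [Prod.mk.injEq, Subtype.mk.injEq, f] at h
    obtain ⟨⟨h3, h4⟩, h5⟩ := h
    have h6 : p.2 b v r = p'.2 b v r := Subtype.ext h5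
    have h7 := congrFun (congrFun h4 b) v
    simp only [and_self, if_true] at h7
    have h8 := congrArg (fun e => e r) h7
    simp only [Equiv.Perm.mul_apply, Equiv.swap_apply_left] at h8
    subst h8
    rw [h6] at h7
    have h9 := mul_left_cancel h7
    have h10 : p = p' := by
      refine Prod.ext h3 ?_
      funext b' v'
      by_cases hb : b' = b ∧ v' = v
      · obtain ⟨rfl, rfl⟩ := hb
        exact h9
      · have := congrFun (congrFun h4 b') v'
        simpa only [if_neg hb] using this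
    subst h10
    rfl

/-- Removal of an answer. -/
theorem addr_step (Q Q' : RX B → Prop) (b : Bool) (α υ : MM B) (va vy : S.V) (ra ry : RR B)
    (Z : Finset (MM B)) (hαυ : α ≠ υ) (hαZ : α ∉ Z) (hv : va ≠ vy)
    (MT : MM B × RR B → Option S.Sl)
    (hQ : ∀ p : RX B, Q p → MT (p.1 α, p.2 b va ra) = some ((p.1 υ).1, (p.2 (!b) vy ry).1))
    (hQ' : ∀ p p' : RX B, (∀ x, x ≠ υ → x ∉ Z → p.1 x = p'.1 x) →
      (∀ b' v', v' ≠ vy → p.2 b' v' = p'.2 b' v') → Q p → Q' p') :
    Nat.card {p : RX B // Q p} * (Z.card * (S.D - B.th)) ≤ Nat.card {p : RX B // Q' p} := by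
  have h1 : Nat.card ({p : RX B // Q p} × (Z × RR B)) =
      Nat.card {p : RX B // Q p} * (Z.card * (S.D - B.th)) := by
    rw [Nat.card_prod, Nat.card_prod, card_ge, Nat.card_eq_fintype_card (α := Z),
      Fintype.card_coe]
  rw [← h1]
  let f : RX B → MM B → RR B → RX B := fun p z s =>
    (p.1 * Equiv.swap υ z, fun b' v' => if b' = !b ∧ v' = vy then
      Equiv.swap (p.2 (!b) vy ry) s * p.2 b' v' else p.2 b' v')
  refine Nat.card_le_card_of_injective (fun q => ⟨f q.1.1 q.2.1 q.2.2, ?_⟩) ?_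
  · refine hQ' q.1.1 _ ?_ ?_ q.1.2
    · intro x hx1 hx2
      simp only [f, Equiv.Perm.mul_apply]
      rw [Equiv.swap_apply_of_ne_of_ne hx1]
      rintro rfl
      exact hx2 q.2.1.2
    · intro b' v' hb
      simp only [f]
      rw [if_neg]
      rintro ⟨_, rfl⟩
      exact hb rfl
  · rintro ⟨⟨p, hp⟩, ⟨⟨z, hz⟩, s⟩⟩ ⟨⟨p', hp'⟩, ⟨⟨z', hz'⟩, s'⟩⟩ h
    simp only [Subtype.mk.injEq, f, Prod.mk.injEq] at h
    obtain ⟨h3, h4⟩ := h
    have h5 : p.1 α = p'.1 α := by
      have := congrArg (fun e => e α) h3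
      simp only [Equiv.Perm.mul_apply] at this
      rwa [Equiv.swap_apply_of_ne_of_ne hαυ (fun h => hαZ (h ▸ hz)),
        Equiv.swap_apply_of_ne_of_ne hαυ (fun h => hαZ (h ▸ hz'))] at this
    have h6 : p.2 b va = p'.2 b va := by
      have := congrFun (congrFun h4 b) va
      simpa only [hv, and_false, if_false] using this
    have h7 := hQ p hp
    rw [h5, h6, hQ p' hp'] at h7
    simp only [Option.some.injEq, Prod.mk.injEq] at h7
    have h8 : p'.1 υ = p.1 υ := Subtype.ext h7.1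
    have h9 : p'.2 (!b) vy ry = p.2 (!b) vy ry := Subtype.ext h7.2
    have h10 : z = z' := by
      have h11 := congrArg (fun e => e z) h3
      simp only [Equiv.Perm.mul_apply, Equiv.swap_apply_right] at h11
      rw [← h8] at h11
      have h12 := p'.1.injective h11
      by_contra hne
      by_cases hzu : z = υ
      · rw [hzu, Equiv.swap_apply_left] at h12
        exact hne (hzu.trans h12)
      · rw [Equiv.swap_apply_of_ne_of_ne hzu hne] at h12
        exact hzu h12.symm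
    subst h10
    have h11 : p.1 = p'.1 := mul_right_cancel h3
    have h12 := congrFun (congrFun h4 (!b)) vy
    simp only [and_self, if_true] at h12
    have h13 := congrArg (fun e => e ry) h12
    rw [h9] at h13
    simp only [Equiv.Perm.mul_apply, h9, Equiv.swap_apply_left] at h13
    subst h13
    rw [h9] at h12
    have h14 := mul_left_cancel h12
    have h15 : p = p' := by
      refine Prod.ext h11 ?_
      funext b' v'
      by_cases hb : b' = !b ∧ v' = vy
      · obtain ⟨rfl, rfl⟩ := hb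
        exact h14
      · have := congrFun (congrFun h4 b') v'
        simpa only [if_neg hb] using this
    subst h15
    rfl

theorem RR_nontrivial (r : RR B) : ∃ x : RR B, x ≠ r := by
  have h1 : Nat.card {s : RR B // s ≠ r} = S.D - B.th - 1 := by rw [card_ne, card_ge]
  have h2 := B.th_D
  have h3 : 0 < Nat.card {s : RR B // s ≠ r} := by omega
  rw [Nat.card_pos_iff] at h3
  obtain ⟨⟨x, hx⟩⟩ := h3.1
  exact ⟨x, hx⟩

theorem rc_iff (h : T_MIX) (p : RX B) {c : Bool × S.Sl} (hM : w0.lam c.2.1 ∈ B.M)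
    (ht : B.th ≤ (w0.rk c.1 c.2.1 c.2.2).1) :
    rc B w0 mu p c ↔ B.th' ≤ (p.2 c.1 c.2.1 ⟨_, ht⟩).1.1 := by
  unfold rc
  rw [plc_eq h p hM ht]

theorem N_insert (h : T_MIX) (L : List (VE S)) (Γ : Finset (Bool × S.Sl)) (c : Bool × S.Sl)
    (hM : w0.lam c.2.1 ∈ B.M) (ht : B.th ≤ (w0.rk c.1 c.2.1 c.2.2).1)
    (hd : ∀ c' ∈ Γ, c'.2.1 ≠ c.2.1)
    (hΓ : ∀ c' ∈ Γ, w0.lam c'.2.1 ∈ B.M ∧ B.th ≤ (w0.rk c'.1 c'.2.1 c'.2.2).1)
    (x : RR B) (hx : x ≠ ⟨_, ht⟩)
    (hs : ∀ p p' : RX B, p.1 = p'.1 → (∀ b' v', ¬ (b' = c.1 ∧ v' = c.2.1) → p.2 b' v' = p'.2 b' v') →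
      p.2 c.1 c.2.1 x = p'.2 c.1 c.2.1 x → sol B w0 g (W B w0 mu p) L →
      sol B w0 g (W B w0 mu p') L) :
    (N B w0 g mu L (insert c Γ) : ℝ) ≤
      N B w0 g mu L Γ * (((S.D - B.th' : ℕ) : ℝ) / (S.D - B.th - 1 : ℕ)) := by
  have h1 := rank_step (B := B) (fun p => sol B w0 g (W B w0 mu p) L ∧ ∀ c ∈ Γ, rc B w0 mu p c)
    c.1 c.2.1 ⟨_, ht⟩ x hx (by
      intro p p' h2 h3 h4 h5
      refine ⟨hs p p' h2 h3 h4 h5.1, ?_⟩
      intro c' hc'
      have h6 := h5.2 c' hc'
      obtain ⟨h7, h8⟩ := hΓ c' hc'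
      rw [rc_iff h p h7 h8] at h6
      rw [rc_iff h p' h7 h8, ← h3 c'.1 c'.2.1 (fun h9 => hd c' hc' h9.2)]
      exact h6)
  have h2 : N B w0 g mu L (insert c Γ) = Nat.card {p : RX B // (sol B w0 g (W B w0 mu p) L ∧
      ∀ c ∈ Γ, rc B w0 mu p c) ∧ B.th' ≤ (p.2 c.1 c.2.1 ⟨_, ht⟩).1.1} := by
    refine Nat.card_congr (Equiv.subtypeEquivRight ?_)
    intro p
    rw [Finset.forall_mem_insert, rc_iff h p hM ht]
    tauto
  rw [← h2] at h1
  have h3 : 0 < S.D - B.th - 1 := by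
    have := B.th_D
    omega
  have h4 : (0 : ℝ) < ((S.D - B.th - 1 : ℕ) : ℝ) := by exact_mod_cast h3
  rw [mul_div_assoc', le_div_iff₀ h4]
  exact_mod_cast h1

/-- Admissible sets of pairs. -/
def adm (B : Blk S F) (w0 : World S) (g : Gs S) (L : List (VE S)) (Γ : Finset (Bool × S.Sl)) :
    Prop :=
  (∀ c ∈ Γ, ∀ c' ∈ Γ, c.2.1 = c'.2.1 → c = c') ∧
  (∀ c ∈ Γ, w0.lam c.2.1 ∈ B.M ∧ B.th ≤ (w0.rk c.1 c.2.1 c.2.2).1) ∧
  (∀ e L', e :: L' <:+ L → c2 B w0 g L' e.b e.a → ∀ y, e.r = some y → (!e.b, y) ∉ Γ)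

theorem adm_tail {e : VE S} {L : List (VE S)} {Γ : Finset (Bool × S.Sl)}
    (ha : adm B w0 g (e :: L) Γ) : adm B w0 g L Γ :=
  ⟨ha.1, ha.2.1, fun e' L' h' => ha.2.2 e' L' (h'.trans (List.suffix_cons _ _))⟩

theorem adm_sub {L : List (VE S)} {Γ Γ' : Finset (Bool × S.Sl)} (hs : Γ' ⊆ Γ)
    (ha : adm B w0 g L Γ) : adm B w0 g L Γ' :=
  ⟨fun c hc c' hc' => ha.1 c (hs hc) c' (hs hc'), fun c hc => ha.2.1 c (hs hc),
    fun e' L' h1 h2 y hy h3 => ha.2.2 e' L' h1 h2 y hy (hs h3)⟩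

theorem claim_nil (h : T_MIX) (Γ : Finset (Bool × S.Sl)) (ha : adm B w0 g [] Γ) :
    (N B w0 g mu [] Γ : ℝ) ≤
      (((S.D - B.th' : ℕ) : ℝ) / (S.D - B.th - 1 : ℕ)) ^ Γ.card * Nat.card (RX B) := by
  induction Γ using Finset.induction_on with
  | empty =>
    simp only [Finset.card_empty, pow_zero, one_mul]
    exact_mod_cast Nat.card_le_card_of_injective (Subtype.val) Subtype.val_injective
  | insert c Γ hc ih =>
    have ih' := ih (adm_sub (Finset.subset_insert _ _) ha)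
    obtain ⟨hM, ht⟩ := ha.2.1 c (Finset.mem_insert_self _ _)
    obtain ⟨x, hx⟩ := RR_nontrivial (B := B) ⟨_, ht⟩
    have h1 := N_insert (g := g) (mu := mu) h [] Γ c hM ht (by
      intro c' hc' h2
      have := ha.1 c' (Finset.mem_insert_of_mem hc') c (Finset.mem_insert_self _ _) h2
      exact hc (this ▸ hc')) (fun c' hc' => ha.2.1 c' (Finset.mem_insert_of_mem hc')) x hx
      (fun p p' _ _ _ _ => trivial)
    rw [Finset.card_insert_of_notMem hc, pow_succ]
    refine h1.trans ?_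
    have h2 : (0 : ℝ) ≤ ((S.D - B.th' : ℕ) : ℝ) / (S.D - B.th - 1 : ℕ) := by positivity
    calc _ ≤ ((((S.D - B.th' : ℕ) : ℝ) / (S.D - B.th - 1 : ℕ)) ^ Γ.card * Nat.card (RX B)) *
          (((S.D - B.th' : ℕ) : ℝ) / (S.D - B.th - 1 : ℕ)) :=
          mul_le_mul_of_nonneg_right ih' h2
      _ = _ := by ring

theorem wt_nonneg (L : List (VE S)) : 0 ≤ wt B w0 g L := by
  induction L with
  | nil => simp [wt]
  | cons e L ih =>
    rw [wt]
    refine mul_nonneg ih ?_
    split_ifs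
    · positivity
    · exact zero_le_one

theorem card_Z (L : List (VE S)) :
    (Finset.univ.filter fun x : MM B => w0.lam.symm x.1 ∉ g.R0 ∪ p2 B w0 g L).card =
      B.M.card - pos B w0 g L := by
  have h1 : (Finset.univ.filter fun x : MM B => w0.lam.symm x.1 ∈ g.R0 ∪ p2 B w0 g L).card =
      pos B w0 g L := by
    unfold pos
    refine Finset.card_bij (fun x _ => w0.lam.symm x.1) ?_ ?_ ?_
    · intro x hx
      rw [Finset.mem_filter] at hx ⊢
      refine ⟨hx.2, ?_⟩
      rw [Equiv.apply_symm_apply]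
      exact x.2
    · intro x _ x' _ hxx
      exact Subtype.ext (w0.lam.symm.injective hxx)
    · intro v hv
      rw [Finset.mem_filter] at hv
      refine ⟨⟨w0.lam v, hv.2⟩, ?_, ?_⟩
      · rw [Finset.mem_filter]
        refine ⟨Finset.mem_univ _, ?_⟩
        rw [Equiv.symm_apply_apply]
        exact hv.1
      · simp
  have h2 := Finset.card_filter_add_card_filter_not (s := (Finset.univ : Finset (MM B)))
    (fun x : MM B => w0.lam.symm x.1 ∈ g.R0 ∪ p2 B w0 g L)
  rw [h1, Finset.card_univ, Fintype.card_coe] at h2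
  omega

theorem sol_iff (h : T_MIX) (p0 p : RX B) {e : VE S} {L : List (VE S)}
    (hc : c2 B w0 g L e.b e.a) {y : S.Sl} (hy : e.r = some y) (hMa : w0.lam e.a.1 ∈ B.M)
    (hta : B.th ≤ (w0.rk e.b e.a.1 e.a.2).1) (hMy : w0.lam y.1 ∈ B.M)
    (hty : B.th ≤ (w0.rk (!e.b) y.1 y.2).1) :
    sol B w0 g (W B w0 mu p) (e :: L) ↔ sol B w0 g (W B w0 mu p) L ∧
      (W B w0 mu p0).mt F e.b ((p.1 ⟨_, hMa⟩).1, (p.2 e.b e.a.1 ⟨_, hta⟩).1) =
        some ((p.1 ⟨_, hMy⟩).1, (p.2 (!e.b) y.1 ⟨_, hty⟩).1) := by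
  have h1 : B.ins e.b ((W B w0 mu p).plc e.b e.a) := (ins_iff h p e.b e.a).2 hc.2.2.1
  have h2 : (W B w0 mu p).ask F e.b e.a = e.r ↔
      (W B w0 mu p0).mt F e.b ((p.1 ⟨_, hMa⟩).1, (p.2 e.b e.a.1 ⟨_, hta⟩).1) =
        some ((p.1 ⟨_, hMy⟩).1, (p.2 (!e.b) y.1 ⟨_, hty⟩).1) := by
    rw [hy, World.ask_eq_some, ← plc_eq (mu := mu) h p hMa hta, ← plc_eq (mu := mu) h p hMy hty,
      mt_indep h p p0 h1]
  rw [← h2]
  constructor
  · exact fun h3 => ⟨h3.1, h3.2 hc⟩
  · exact fun h3 => ⟨h3.1, fun _ => h3.2⟩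

theorem th_of_sol (h : T_MIX) (p : RX B) {e : VE S} {L : List (VE S)}
    (hc : c2 B w0 g L e.b e.a) {y : S.Sl} (hy : e.r = some y) (hMy : w0.lam y.1 ∈ B.M)
    (hs : sol B w0 g (W B w0 mu p) (e :: L)) : B.th ≤ (w0.rk (!e.b) y.1 y.2).1 := by
  have h1 := hs.2 hc
  rw [hy, World.ask_eq_some] at h1
  have h2 : B.ins e.b ((W B w0 mu p).plc e.b e.a) := (ins_iff h p e.b e.a).2 hc.2.2.1
  obtain ⟨y', h3, h4⟩ := (h S F B (W B w0 mu p) ⟨p.1, p.2, mu⟩).2.2.2.1 e.b _ h2
  rw [h1] at h3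
  rw [← Option.some.inj h3, ins_iff h p] at h4
  exact th_of_ins h hMy h4

theorem not_dom {L : List (VE S)} {y : S.Sl} (h1 : y.1 ∉ vtouched L)
    (h2 : y.1 ∉ g.R0) : y.1 ∉ g.R0 ∪ p2 B w0 g L := by
  rw [Finset.mem_union, not_or]
  exact ⟨h2, fun h3 => h1 (p2_sub L h3)⟩

/-- The main step without a condition at the new name. -/
theorem claim_c2 (h : T_MIX) {e : VE S} {L : List (VE S)} (hn : nice2 B w0 g (e :: L))
    (hc : c2 B w0 g L e.b e.a) (Γ : Finset (Bool × S.Sl)) (ha : adm B w0 g (e :: L) Γ)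
    (hΓ : ∀ c ∈ Γ, ∀ y, e.r = some y → c.2.1 ≠ y.1)
    (ih : (N B w0 g mu L Γ : ℝ) ≤ wt B w0 g L *
      (((S.D - B.th' : ℕ) : ℝ) / (S.D - B.th - 1 : ℕ)) ^ Γ.card * Nat.card (RX B)) :
    (N B w0 g mu (e :: L) Γ : ℝ) ≤ wt B w0 g (e :: L) *
      (((S.D - B.th' : ℕ) : ℝ) / (S.D - B.th - 1 : ℕ)) ^ Γ.card * Nat.card (RX B) := by
  obtain ⟨y, hy, h4, h5, h6, hMa, hMy⟩ := hn.2.1 hc
  have hta := th_of_ins h hMa hc.2.2.1
  by_cases hex : ∃ p : RX B, sol B w0 g (W B w0 mu p) (e :: L)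
  · obtain ⟨p0, hp0⟩ := hex
    have hty := th_of_sol h p0 hc hy hMy hp0
    have hdy : y.1 ∉ g.R0 ∪ p2 B w0 g L := not_dom h4 h6
    have h7 := addr_step (B := B)
      (fun p => sol B w0 g (W B w0 mu p) (e :: L) ∧ ∀ c ∈ Γ, rc B w0 mu p c)
      (fun p => sol B w0 g (W B w0 mu p) L ∧ ∀ c ∈ Γ, rc B w0 mu p c)
      e.b ⟨_, hMa⟩ ⟨_, hMy⟩ e.a.1 y.1 ⟨_, hta⟩ ⟨_, hty⟩
      (Finset.univ.filter fun x : MM B => w0.lam.symm x.1 ∉ g.R0 ∪ p2 B w0 g L)
      (by
        intro h8
        rw [Subtype.mk.injEq] at h8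
        exact h5 (w0.lam.injective h8).symm)
      (by
        rw [Finset.mem_filter, not_and, not_not]
        intro _
        rw [Equiv.symm_apply_apply]
        exact hc.2.2.2)
      (Ne.symm h5)
      (fun q => (W B w0 mu p0).mt F e.b (q.1.1, q.2.1))
      (by
        intro p hp
        exact ((sol_iff h p0 p hc hy hMa hta hMy hty).1 hp.1).2)
      (by
        intro p p' h8 h9 h10
        refine ⟨?_, ?_⟩
        · refine sol_congr h p p' L hn.1 ?_ ?_ h10.1.1
          · intro v hv hMv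
            refine h8 _ ?_ ?_
            · intro h11
              rw [Subtype.mk.injEq] at h11
              have h12 := w0.lam.injective h11
              rw [h12] at hv
              exact hdy hv
            · rw [Finset.mem_filter, not_and, not_not]
              intro _
              rw [Equiv.symm_apply_apply]
              exact hv
          · intro v hv b
            refine h9 b v ?_
            rintro rfl
            exact hdy hv
        · intro c hcc
          have h11 := h10.2 c hcc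
          obtain ⟨h12, h13⟩ := ha.2.1 c hcc
          rw [rc_iff h p h12 h13] at h11
          rw [rc_iff h p' h12 h13, ← h9 c.1 c.2.1 (hΓ c hcc y hy)]
          exact h11)
    rw [card_Z] at h7
    have h8 : (N B w0 g mu (e :: L) Γ : ℝ) *
        (((B.M.card - pos B w0 g L : ℕ) : ℝ) * (S.D - B.th : ℕ)) ≤ N B w0 g mu L Γ := by
      exact_mod_cast h7
    have h9 : 0 < B.M.card - pos B w0 g L := by
      rw [← card_Z, Finset.card_pos]
      refine ⟨⟨_, hMy⟩, ?_⟩
      rw [Finset.mem_filter]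
      refine ⟨Finset.mem_univ _, ?_⟩
      rw [Equiv.symm_apply_apply]
      exact hdy
    have h10 : 0 < S.D - B.th := by
      have := B.th_D
      omega
    have h11 : (0 : ℝ) < ((B.M.card - pos B w0 g L : ℕ) : ℝ) * (S.D - B.th : ℕ) := by
      have h12 : (0 : ℝ) < ((B.M.card - pos B w0 g L : ℕ) : ℝ) := by exact_mod_cast h9
      have h13 : (0 : ℝ) < ((S.D - B.th : ℕ) : ℝ) := by exact_mod_cast h10
      positivity
    rw [wt, if_pos hc]
    rw [← le_div_iff₀ h11] at h8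
    refine h8.trans ?_
    calc _ ≤ (wt B w0 g L * (((S.D - B.th' : ℕ) : ℝ) / (S.D - B.th - 1 : ℕ)) ^ Γ.card *
          Nat.card (RX B)) / (((B.M.card - pos B w0 g L : ℕ) : ℝ) * (S.D - B.th : ℕ)) :=
          div_le_div_of_nonneg_right ih h11.le
      _ = _ := by
        rw [div_eq_mul_inv, one_div]
        ring
  · have h7 : N B w0 g mu (e :: L) Γ = 0 := by
      unfold N
      rw [Nat.card_eq_zero]
      left
      exact ⟨fun p => hex ⟨p.1, p.2.1⟩⟩
    rw [h7, Nat.cast_zero]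
    have := wt_nonneg (B := B) (w0 := w0) (g := g) (e :: L)
    positivity

theorem claim (h : T_MIX) (L : List (VE S)) : ∀ Γ : Finset (Bool × S.Sl), nice2 B w0 g L →
    adm B w0 g L Γ → (N B w0 g mu L Γ : ℝ) ≤ wt B w0 g L *
      (((S.D - B.th' : ℕ) : ℝ) / (S.D - B.th - 1 : ℕ)) ^ Γ.card * Nat.card (RX B) := by
  induction L with
  | nil =>
    intro Γ _ ha
    rw [wt, one_mul]
    exact claim_nil h Γ ha
  | cons e L ih =>
    intro Γ hn ha
    by_cases hc : c2 B w0 g L e.b e.a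
    · obtain ⟨y, hy, h4, h5, h6, hMa, hMy⟩ := hn.2.1 hc
      by_cases hm : ∃ c ∈ Γ, c.2.1 = y.1
      · obtain ⟨c, hcΓ, hcy⟩ := hm
        by_cases hex : ∃ p : RX B, sol B w0 g (W B w0 mu p) (e :: L)
        · obtain ⟨p0, hp0⟩ := hex
          have hty := th_of_sol h p0 hc hy hMy hp0
          have hta := th_of_ins h hMa hc.2.2.1
          have hdy : y.1 ∉ g.R0 ∪ p2 B w0 g L := not_dom h4 h6
          have hsub : Γ.erase c ⊆ Γ := Finset.erase_subset _ _
          have h7 := claim_c2 h hn hc (Γ.erase c) (adm_sub hsub ha) (by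
            intro c' hc' y' hy' h8
            rw [hy] at hy'
            have h9 := Option.some.inj hy'
            subst h9
            have := ha.1 c' (hsub hc') c hcΓ (h8.trans hcy.symm)
            rw [this] at hc'
            exact Finset.notMem_erase _ _ hc') (ih (Γ.erase c) hn.1 (adm_tail (adm_sub hsub ha)))
          obtain ⟨hM, ht⟩ := ha.2.1 c hcΓ
          -- the rank which has to be kept
          have hx : ∃ x : RR B, x ≠ ⟨_, ht⟩ ∧ (c.1 = !e.b → x = ⟨_, hty⟩) := by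
            by_cases hb : c.1 = !e.b
            · refine ⟨⟨_, hty⟩, ?_, fun _ => rfl⟩
              intro h8
              rw [Subtype.mk.injEq, hb, hcy] at h8
              have h9 := (w0.rk (!e.b) y.1).injective h8
              refine ha.2.2 e L List.suffix_rfl hc y hy ?_
              have h10 : c = (!e.b, y) := by
                refine Prod.ext hb (Prod.ext hcy h9.symm)
              rw [← h10]
              exact hcΓ
            · obtain ⟨x, hx⟩ := RR_nontrivial (B := B) ⟨_, ht⟩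
              exact ⟨x, hx, fun h8 => absurd h8 hb⟩
          obtain ⟨x, hx1, hx2⟩ := hx
          have h8 := N_insert (g := g) (mu := mu) h (e :: L) (Γ.erase c) c hM ht (by
            intro c' hc' h9
            have := ha.1 c' (hsub hc') c hcΓ h9
            rw [this] at hc'
            exact Finset.notMem_erase _ _ hc') (fun c' hc' => ha.2.1 c' (hsub hc')) x hx1 (by
            intro p p' h9 h10 h11 h12
            rw [sol_iff h p0 p hc hy hMa hta hMy hty] at h12
            rw [sol_iff h p0 p' hc hy hMa hta hMy hty]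
            refine ⟨?_, ?_⟩
            · refine sol_congr h p p' L hn.1 (fun v _ _ => by rw [h9]) ?_ h12.1
              intro v hv b
              refine h10 b v ?_
              rintro ⟨_, h13⟩
              rw [h13, hcy] at hv
              exact hdy hv
            · have h13 : p.2 e.b e.a.1 = p'.2 e.b e.a.1 := by
                refine h10 _ _ ?_
                rintro ⟨_, h14⟩
                exact h5 (hcy.symm.trans h14.symm)
              have h14 : p.2 (!e.b) y.1 ⟨_, hty⟩ = p'.2 (!e.b) y.1 ⟨_, hty⟩ := by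
                by_cases hb : c.1 = !e.b
                · rw [hx2 hb, hb, hcy] at h11
                  exact h11
                · rw [h10 (!e.b) y.1 (fun h15 => hb h15.1.symm)]
              rw [← h9, ← h13, ← h14]
              exact h12.2)
          rw [Finset.insert_erase hcΓ] at h8
          refine h8.trans ?_
          have h9 : (0 : ℝ) ≤ ((S.D - B.th' : ℕ) : ℝ) / (S.D - B.th - 1 : ℕ) := by positivity
          refine (mul_le_mul_of_nonneg_right h7 h9).trans (le_of_eq ?_)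
          have h10 : Γ.card = (Γ.erase c).card + 1 := (Finset.card_erase_add_one hcΓ).symm
          rw [h10, pow_succ]
          ring
        · have h7 : N B w0 g mu (e :: L) Γ = 0 := by
            unfold N
            rw [Nat.card_eq_zero]
            left
            exact ⟨fun p => hex ⟨p.1, p.2.1⟩⟩
          rw [h7, Nat.cast_zero]
          have := wt_nonneg (B := B) (w0 := w0) (g := g) (e :: L)
          positivity
      · push Not at hm
        refine claim_c2 h hn hc Γ ha ?_ (ih Γ hn.1 (adm_tail ha))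
        intro c hcc y' hy'
        rw [hy] at hy'
        rw [← Option.some.inj hy']
        exact hm c hcc
    · have h1 : N B w0 g mu (e :: L) Γ = N B w0 g mu L Γ := by
        refine Nat.card_congr (Equiv.subtypeEquivRight ?_)
        intro p
        simp only [sol, hc, false_imp_iff, and_true]
      rw [h1, wt, if_neg hc, mul_one]
      exact ih Γ hn.1 (adm_tail ha)

theorem nice2_suffix {L L' : List (VE S)} (hs : L' <:+ L) (hn : nice2 B w0 g L) :
    nice2 B w0 g L' := by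
  obtain ⟨M, rfl⟩ := hs
  induction M with
  | nil => exact hn
  | cons e M ih => exact ih hn.1

theorem mem_d2 {w2 : World S} {L : List (VE S)} {v : S.V} (hv : v ∈ d2 B w0 g w2 L) :
    ∃ e L', e :: L' <:+ L ∧ c2 B w0 g L' e.b e.a ∧ B.th' ≤ (w2.plc e.b e.a).2 ∧ v ∈ e.nm := by
  induction L with
  | nil => simp [d2] at hv
  | cons e L ih =>
    rw [d2, Finset.mem_union] at hv
    rcases hv with hv | hv
    · obtain ⟨e', L', h1, h2⟩ := ih hv
      exact ⟨e', L', h1.trans (List.suffix_cons _ _), h2⟩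
    · split_ifs at hv with h1
      · exact ⟨e, L, List.suffix_rfl, h1.1, h1.2, hv⟩
      · simp at hv

theorem suffix_cases {α : Type} {e1 e2 : α} {L L1 L2 : List α} (h1 : e1 :: L1 <:+ L)
    (h2 : e2 :: L2 <:+ L) : (e1 = e2 ∧ L1 = L2) ∨ e1 :: L1 <:+ L2 ∨ e2 :: L2 <:+ L1 := by
  rcases List.suffix_or_suffix_of_suffix h1 h2 with h | h
  · rw [List.suffix_cons_iff] at h
    rcases h with h | h
    · rw [List.cons.injEq] at h
      exact Or.inl h
    · exact Or.inr (Or.inl h)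
  · rw [List.suffix_cons_iff] at h
    rcases h with h | h
    · rw [List.cons.injEq] at h
      exact Or.inl ⟨h.1.symm, h.2.symm⟩
    · exact Or.inr (Or.inr h)

theorem nm_touched {e : VE S} {L L' : List (VE S)} (h : e :: L <:+ L') {v : S.V}
    (hv : v ∈ e.nm) : v ∈ vtouched L' := by
  refine vtouched_suffix h ?_
  rw [mem_vtouched_cons]
  rw [VE.mem_nm] at hv
  exact Or.inr (Or.inr hv)

theorem disc_unique {e1 e2 : VE S} {L L1 L2 : List (VE S)} (h1 : e1 :: L1 <:+ L)
    (h2 : e2 :: L2 <:+ L) {v : S.V} (h3 : v ∈ e1.nm) (h4 : v ∈ e2.nm) (h5 : v ∉ vtouched L1)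
    (h6 : v ∉ vtouched L2) : e1 = e2 ∧ L1 = L2 := by
  rcases suffix_cases h1 h2 with h | h | h
  · exact h
  · exact absurd (nm_touched h h3) h6
  · exact absurd (nm_touched h h4) h5

theorem vpar_disc {e : VE S} {L L' : List (VE S)} (h : e :: L' <:+ L) {v : S.V}
    (hd : VDisc L' e v) : vpar L v = e.a.1 := by
  induction L with
  | nil => simp at h
  | cons e0 L ih =>
    rw [List.suffix_cons_iff] at h
    rcases h with h | h
    · rw [List.cons.injEq] at h
      obtain ⟨rfl, rfl⟩ := h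
      rw [vpar, if_pos hd]
    · rw [vpar, if_neg, ih h]
      intro h1
      exact h1.1 (nm_touched h (by rw [VE.mem_nm]; exact hd.2.2))

theorem c2_info {e : VE S} {L L' : List (VE S)} (hn : nice2 B w0 g L) (h : e :: L' <:+ L)
    (hc : c2 B w0 g L' e.b e.a) {v : S.V} (hv : v ∈ e.nm) :
    v ∉ vtouched L' ∧ v ≠ e.a.1 ∧ w0.lam e.a.1 ∈ B.M := by
  obtain ⟨y, hy, h4, h5, h6, hMa, hMy⟩ := (nice2_suffix h hn).2.1 hc
  rw [VE.mem_nm] at hv
  obtain ⟨y', hy', rfl⟩ := hv
  rw [hy] at hy'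
  rw [← Option.some.inj hy']
  exact ⟨h4, h5, hMa⟩

end COUNT_

theorem tCOUNT (h : T_MIX) : T_COUNT := by
  intro S F B w0 g mu hh y u L hn
  by_cases hex : ∃ p : RX B, sol B w0 g (mix w0 ⟨p.1, p.2, mu⟩) L ∧
    paths2 B w0 g (mix w0 ⟨p.1, p.2, mu⟩) hh y u L
  · obtain ⟨p0, _, hp1, hp2⟩ := hex
    have h1 : ∀ q : Fin y × Fin hh, ∃ e L', e :: L' <:+ L ∧ c2 B w0 g L' e.b e.a ∧
        (vpar L)^[q.2.1] (u q.1) ∈ e.nm := by
      intro q
      obtain ⟨e, L', h2, h3, _, h4⟩ := COUNT_.mem_d2 (hp1 q.1 q.2.1 q.2.2)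
      exact ⟨e, L', h2, h3, h4⟩
    choose E L' hE hc hv using h1
    have hinfo := fun q => COUNT_.c2_info hn (hE q) (hc q) (hv q)
    have hpar : ∀ q, (E q).a.1 = (vpar L)^[q.2.1 + 1] (u q.1) := by
      intro q
      rw [Function.iterate_succ_apply']
      refine (COUNT_.vpar_disc (hE q) ⟨(hinfo q).1, (hinfo q).2.1, ?_⟩).symm
      have := hv q
      rwa [VE.mem_nm] at this
    have hinj : Function.Injective fun q => ((E q).b, (E q).a) := by
      intro q q' hq
      rw [Prod.mk.injEq] at hq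
      refine hp2 ?_
      show (vpar L)^[q.2.1 + 1] (u q.1) = (vpar L)^[q'.2.1 + 1] (u q'.1)
      rw [← hpar, ← hpar, hq.2]
    have hcard : (Finset.univ.image fun q => ((E q).b, (E q).a)).card = hh * y := by
      rw [Finset.card_image_of_injective _ hinj, Finset.card_univ, Fintype.card_prod,
        Fintype.card_fin, Fintype.card_fin, mul_comm]
    have hadm : COUNT_.adm B w0 g L (Finset.univ.image fun q => ((E q).b, (E q).a)) := by
      refine ⟨?_, ?_, ?_⟩
      · intro c hcc c' hcc' h2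
        rw [Finset.mem_image] at hcc hcc'
        obtain ⟨q, _, rfl⟩ := hcc
        obtain ⟨q', _, rfl⟩ := hcc'
        have h3 : (E q).a.1 = (E q').a.1 := h2
        rw [hpar, hpar] at h3
        rw [hp2 h3]
      · intro c hcc
        rw [Finset.mem_image] at hcc
        obtain ⟨q, _, rfl⟩ := hcc
        exact ⟨(hinfo q).2.2, COUNT_.th_of_ins h (hinfo q).2.2 (hc q).2.2.1⟩
      · intro e L'' h2 h3 z hz h4
        rw [Finset.mem_image] at h4
        obtain ⟨q, _, h5⟩ := h4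
        rw [Prod.mk.injEq] at h5
        obtain ⟨h6, h7⟩ := h5
        have hz' : z.1 ∈ e.nm := by
          rw [VE.mem_nm]
          exact ⟨z, hz, rfl⟩
        rcases COUNT_.suffix_cases h2 (hE q) with h8 | h8 | h8
        · rw [h8.1] at h6
          cases hb : (E q).b <;> rw [hb] at h6 <;> simp at h6
        · refine (hc q).1 ?_
          rw [mem_vknown]
          refine ⟨e, h8.subset (List.mem_cons_self), Or.inr ⟨?_, ?_⟩⟩
          · rw [h6]
            cases e.b <;> simp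
          · rw [h7, hz]
        · refine (COUNT_.c2_info hn h2 h3 hz').1 ?_
          refine vtouched_suffix h8 ?_
          rw [mem_vtouched_cons, ← h7]
          exact Or.inr (Or.inl rfl)
    have h2 := COUNT_.claim (mu := mu) h L _ hn hadm
    rw [hcard] at h2
    refine le_trans ?_ h2
    norm_cast
    refine Nat.card_le_card_of_injective (fun p => ⟨p.1, p.2.1, ?_⟩) ?_
    · intro c hcc
      rw [Finset.mem_image] at hcc
      obtain ⟨q, _, rfl⟩ := hcc
      obtain ⟨e, L'', h3, h4, h5, h6⟩ := COUNT_.mem_d2 (p.2.2.1 q.1 q.2.1 q.2.2)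
      obtain ⟨h7, _⟩ := COUNT_.disc_unique h3 (hE q) h6 (hv q)
        (COUNT_.c2_info hn h3 h4 h6).1 (hinfo q).1
      rw [h7] at h5
      exact h5
    · intro p p' hp
      rw [Subtype.mk.injEq] at hp
      exact Subtype.ext hp
  · have h1 : Nat.card {p : RX B // sol B w0 g (mix w0 ⟨p.1, p.2, mu⟩) L ∧
        paths2 B w0 g (mix w0 ⟨p.1, p.2, mu⟩) hh y u L} = 0 := by
      rw [Nat.card_eq_zero]
      left
      exact ⟨fun p => hex ⟨p.1, p.2⟩⟩
    rw [h1, Nat.cast_zero]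
    have := COUNT_.wt_nonneg (B := B) (w0 := w0) (g := g) L
    positivity

end

end Pool.Agent.AcyAd
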