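import Pool.Agent.AcyAd.Targets3

/-!
# MP_08c6cd_lc, fully adaptive testers: the coupling
-/

namespace Pool.Agent.AcyAd

open scoped Classical
open Pool.Agent.AcyTest

noncomputable section

namespace CPL_

variable {S : Sys}

/-- The projected explored fixed pairs. -/
def Ed {Q : Type} (F : Fx S) (prj : S.V → Option Q) (L : List (En S)) :
    Set (Bool × Option Q × Option Q) :=
  {t | ∃ e ∈ L, F.fx e.b e.p ≠ none ∧ ∃ y, e.r = some y ∧ t = (e.b, prj e.p.1, prj y.2.1)}

/-- The potentials of a set of edges. -/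
def PotE {Q : Type} (B : ℕ) (E : Set (Bool × Option Q × Option Q)) (f : Option Q → ℤ) : Prop :=
  f none = 0 ∧ (∀ q, |f q| ≤ B) ∧ ∀ t ∈ E, f t.2.2 = f t.2.1 + (if t.1 then 1 else -1)

theorem potFor_iff {FA : Fx S} (H : Hier S FA) (B : ℕ) (L : List (En S)) (f : Option H.Q → ℤ) :
    PotFor H B L f ↔ PotE B (Ed FA H.prj L) f := by
  constructor
  · rintro ⟨h1, h2, h3⟩
    refine ⟨h1, h2, ?_⟩
    rintro _ ⟨e, he, hf, y, hy, rfl⟩
    exact h3 e he hf y hy
  · rintro ⟨h1, h2, h3⟩
    refine ⟨h1, h2, ?_⟩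
    intro e he hf y hy
    exact h3 _ ⟨e, he, hf, y, hy, rfl⟩

/-- A chosen potential. -/
def chs {Q : Type} (B : ℕ) (E : Set (Bool × Option Q × Option Q)) : Option Q → ℤ :=
  if h : ∃ f, PotE B E f then h.choose else fun _ => 0

theorem chs_spec {Q : Type} {B : ℕ} {E : Set (Bool × Option Q × Option Q)}
    (h : ∃ f, PotE B E f) : PotE B E (chs B E) := by
  unfold chs
  rw [dif_pos h]
  exact h.choose_spec

/-- The moved entry. -/
def mv (φ : Equiv.Perm S.V) (e : En S) : En S :=
  ⟨e.b, e.a, (φ e.p.1, e.p.2), e.r.map fun y => (y.1, (φ y.2.1, y.2.2))⟩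

theorem vis_mv (φ : Equiv.Perm S.V) (e : En S) : (mv φ e).vis = e.vis := by
  unfold mv En.vis En.ans
  simp only [Option.map_map]
  congr 1

theorem Ed_mv {FA FF : Fx S} {H : Hier S FA} {B : ℕ} (W : Twist FA FF H B) {L : List (En S)}
    {f : Option H.Q → ℤ} (hf : PotFor H B L f) :
    Ed FF H.prj (L.map (mv (W.phi f))) = Ed FA H.prj L := by
  have hprj : ∀ x, H.prj (W.phi f x) = H.prj x := fun x => W.psi_prj _ _
  ext t
  constructor
  · rintro ⟨e', he', hx, y', hy', rfl⟩
    rw [List.mem_map] at he'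
    obtain ⟨e, he, rfl⟩ := he'
    have hy2 : e.r.map (fun y => (y.1, (W.phi f y.2.1, y.2.2))) = some y' := hy'
    rw [Option.map_eq_some_iff] at hy2
    obtain ⟨y, hy, rfl⟩ := hy2
    refine ⟨e, he, ?_, y, hy, ?_⟩
    · intro hn
      apply hx
      exact W.psi_none (f (H.prj e.p.1)) (hf.2.1 _) e.b e.p.1 e.p.2 hn
    · show (e.b, H.prj (W.phi f e.p.1), H.prj (W.phi f y.2.1)) = _
      rw [hprj, hprj]
  · rintro ⟨e, he, hx, y, hy, rfl⟩
    refine ⟨mv (W.phi f) e, List.mem_map.2 ⟨e, he, rfl⟩, ?_,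
      (y.1, (W.phi f y.2.1, y.2.2)), ?_, ?_⟩
    · have hp := hf.2.2 e he hx y hy
      have hb := hf.2.1 (H.prj y.2.1)
      have hb2 := hf.2.1 (H.prj e.p.1)
      obtain ⟨⟨z, s⟩, hz⟩ := Option.ne_none_iff_exists'.1 hx
      show FF.fx e.b (W.psi (f (H.prj e.p.1)) e.p.1, e.p.2) ≠ none
      rcases hbe : e.b with _ | _
      · rw [hbe] at hz hp
        have hz2 := FA.inv false e.p (z, s) hz
        simp only [Bool.not_false] at hz2
        have e1 : f (H.prj e.p.1) - 1 = f (H.prj y.2.1) := by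
          simp only [Bool.false_eq_true, if_false] at hp
          omega
        have h5 := W.psi_fx (f (H.prj e.p.1) - 1) (by rw [e1]; exact hb)
          (by rw [sub_add_cancel]; exact hb2) z s e.p.1 e.p.2 hz2
        rw [sub_add_cancel] at h5
        have h6 := FF.inv true _ _ h5
        simp only [Bool.not_true] at h6
        rw [h6]
        simp
      · rw [hbe] at hz hp
        simp only [if_true] at hp
        have h5 := W.psi_fx (f (H.prj e.p.1)) hb2 (by rw [← hp]; exact hb) e.p.1 e.p.2 z s hz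
        rw [h5]
        simp
    · show e.r.map (fun y => (y.1, (W.phi f y.2.1, y.2.2))) = _
      rw [hy]
      rfl
    · show _ = (e.b, H.prj (W.phi f e.p.1), H.prj (W.phi f y.2.1))
      rw [hprj, hprj]

end CPL_

open CPL_

theorem tCPL (h1 : T_MVR) (h2 : T_MVI) : T_CPL := by
  intro S FA FF H B W σ k acc
  let fc : World S → (Option H.Q → ℤ) := fun w => chs B (Ed FA H.prj (run FA σ w k))
  have hfc : ∀ w : World S, (∃ f, PotFor H B (run FA σ w k) f) →
      PotFor H B (run FA σ w k) (fc w) := by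
    rintro w ⟨f, hf⟩
    rw [potFor_iff] at hf ⊢
    exact chs_spec ⟨f, hf⟩
  have hrun : ∀ w : World S, (∃ f, PotFor H B (run FA σ w k) f) →
      run FF σ (w.move (W.phi (fc w))) k = (run FA σ w k).map (mv (W.phi (fc w))) :=
    fun w hw => h1 S FA FF H B W σ w k (fc w) (hfc w hw)
  have hvis : ∀ w : World S, (∃ f, PotFor H B (run FA σ w k) f) →
      (run FF σ (w.move (W.phi (fc w))) k).map En.vis = (run FA σ w k).map En.vis := by
    intro w hw
    rw [hrun w hw, List.map_map]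
    refine List.map_congr_left fun e _ => ?_
    exact vis_mv _ e
  refine Nat.card_le_card_of_injective (fun w : {w : World S //
      (∃ f, PotFor H B (run FA σ w k) f) ∧ acc ((run FA σ w k).map En.vis)} =>
    (⟨w.1.move (W.phi (fc w.1)), by rw [hvis w.1 w.2.1]; exact w.2.2⟩ :
      {w : World S // acc ((run FF σ w k).map En.vis)})) ?_
  rintro ⟨w, hw, _⟩ ⟨w', hw', _⟩ heq
  simp only [Subtype.mk.injEq] at heq ⊢
  have hE : Ed FA H.prj (run FA σ w k) = Ed FA H.prj (run FA σ w' k) := by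
    rw [← Ed_mv W (hfc w hw), ← Ed_mv W (hfc w' hw'), ← hrun w hw, ← hrun w' hw', heq]
  have hff : fc w = fc w' := by
    show chs B (Ed FA H.prj (run FA σ w k)) = chs B (Ed FA H.prj (run FA σ w' k))
    rw [hE]
  rw [hff] at heq
  exact h2 S FA FF H B W (fc w') (hfc w' hw').2.1 heq

end

end Pool.Agent.AcyAd
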