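import Pool.Agent.AcyAd.Targets2

/-!
# MP_08c6cd_lc, fully adaptive testers: cutting a union of trees in both outer thirds
-/

namespace Pool.Agent.AcyAd

open scoped Classical
open Pool.Agent.AcyTest

noncomputable section

namespace CUT_

variable {S : Sys} {F : Fx S}

theorem mem_gset (B : Blk S F) {C : Finset S.V} {L L' : List (En S)} {e : En S} {v : S.V}
    (hs : e :: L' <:+ L) (hg : B.good C L' e v) : v ∈ B.gset C L := by
  induction L with
  | nil => simp at hs
  | cons e' L ih =>
    rw [List.suffix_cons_iff] at hs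
    simp only [Blk.gset, Finset.mem_union, Finset.mem_filter]
    rcases hs with h | h
    · obtain ⟨rfl, rfl⟩ := List.cons.inj h
      exact Or.inr ⟨hg.2.2.1, hg⟩
    · exact Or.inl (ih h)

theorem mem_dset (B : Blk S F) {C : Finset S.V} {L L' : List (En S)} {e : En S} {v : S.V}
    (hs : e :: L' <:+ L) (hg : B.good C L' e v) (ht : B.th' ≤ e.p.2) : v ∈ B.dset C L := by
  induction L with
  | nil => simp at hs
  | cons e' L ih =>
    rw [List.suffix_cons_iff] at hs
    simp only [Blk.dset, Finset.mem_union, Finset.mem_filter]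
    rcases hs with h | h
    · obtain ⟨rfl, rfl⟩ := List.cons.inj h
      exact Or.inr ⟨hg.2.2.1, hg, ht⟩
    · exact Or.inl (ih h)

/-- The addresses of a discovery edge. -/
theorem edge (σ : Player S) (w : World S) {k : ℕ} {e : En S} {L' : List (En S)} {v : S.V}
    (hs : e :: L' <:+ run F σ w k) (hd : Disc L' e v) :
    e.p.1 = w.lam e.a.1 ∧ ∃ y, w.mt F e.b e.p = some y ∧ y.1 = w.lam v := by
  obtain ⟨_, _, y, hy, rfl⟩ := disc_iff.1 hd
  have he : e ∈ run F σ w k := hs.subset List.mem_cons_self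
  obtain ⟨h7, h8, _⟩ := run_r σ w he hy
  refine ⟨by rw [(run_mem σ w he).1]; rfl, y.2, h7, by rw [h8]; rfl⟩

/-- The layers of the ends of a discovery edge of type at least `t`. -/
theorem layrel (H : Hier S F) (σ : Player S) (w : World S) {k t : ℕ} (ht : t < H.R) {v : S.V}
    (h : 0 < H.dep t (run F σ w k) v) :
    H.lay t (w.lam v) = H.lay t (w.lam (par (run F σ w k) v)) ∨
    H.lay t (w.lam v) = H.lay t (w.lam (par (run F σ w k) v)) + 1 ∨
    H.lay t (w.lam (par (run F σ w k) v)) = H.lay t (w.lam v) + 1 ∨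
    (H.lay t (w.lam v) = H.T - 1 ∧ H.lay t (w.lam (par (run F σ w k) v)) = 2 * H.T) ∨
    (H.lay t (w.lam (par (run F σ w k) v)) = H.T - 1 ∧ H.lay t (w.lam v) = 2 * H.T) := by
  obtain ⟨e, L', h1, h2, h3, h4, _⟩ := H.dep_pos h
  obtain ⟨h5, y, h6, h7⟩ := edge σ w h1 h2
  rw [h4, ← h5, ← h7]
  by_cases hg : H.ge (t + 1) e.b e.p
  · exact Or.inl (H.ge_lay ht w hg h6).1.symm
  · have h8 := H.ge_step ht w h3 hg h6
    rcases h8 with ⟨_, h8 | h8⟩ | ⟨_, h8 | h8⟩
    · exact Or.inr (Or.inl h8)
    · exact Or.inr (Or.inr (Or.inr (Or.inr h8)))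
    · exact Or.inr (Or.inr (Or.inl h8))
    · exact Or.inr (Or.inr (Or.inr (Or.inl h8)))

/-- A slot of type at least `t` in the block `β` is inner. -/
theorem ins_of_ge (H : Hier S F) {t : ℕ} (ht : t < H.R) {β : H.Bk} {b : Bool} {y : S.Sl}
    (hg : H.ge t b y) (hb : H.blk t y.1 = some β) : (H.toBlk t β ht).ins b y := by
  rcases hg with ⟨κ, h1, h2⟩ | ⟨h1, h2⟩
  · left
    refine ⟨κ, ?_, h1⟩
    simp only [Hier.toBlk, Finset.mem_filter, Finset.mem_univ, true_and]
    exact ⟨h2, b, y, h1, hb⟩
  · right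
    refine ⟨?_, h1⟩
    simp only [Hier.toBlk, Finset.mem_filter, Finset.mem_univ, true_and]
    exact hb

/-- Inner slots have type at least `t`. -/
theorem ge_of_ins (H : Hier S F) {t : ℕ} (ht : t < H.R) {β : H.Bk} {b : Bool} {y : S.Sl}
    (hi : (H.toBlk t β ht).ins b y) : H.ge t b y := by
  rcases hi with ⟨κ, h1, h2⟩ | ⟨_, h2⟩
  · left
    simp only [Hier.toBlk, Finset.mem_filter, Finset.mem_univ, true_and] at h1
    exact ⟨κ, h2, h1.1⟩
  · exact Or.inr ⟨h2, ht.le⟩

/-- Inner slots have partners. -/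
theorem mt_of_ge (H : Hier S F) (w : World S) {t : ℕ} {b : Bool} {y : S.Sl}
    (hg : H.ge t b y) : ∃ y', w.mt F b y = some y' := by
  rcases hg with ⟨κ, h1, _⟩ | ⟨h1, _⟩
  · cases b
    · exact ⟨_, w.mt_false h1⟩
    · exact ⟨_, w.mt_true h1⟩
  · rw [w.mt_none (F.cc_none h1)]
    exact Option.ne_none_iff_exists'.1 h1

/-- Pigeonhole. -/
theorem pigeon {α : Type} (E : Finset α) (f : α → ℕ) (I : Finset ℕ) (hI : 0 < I.card) :
    ∃ l ∈ I, (E.filter fun v => f v = l).card ≤ E.card / I.card := by
  have h := Finset.exists_card_fiber_lt_of_card_lt_mul (s := E) (t := I) (f := f)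
    (n := E.card / I.card + 1) (Nat.lt_mul_div_succ _ hI)
  obtain ⟨l, h1, h2⟩ := h
  exact ⟨l, h1, by omega⟩

end CUT_

open CUT_ in
theorem tCUT : T_CUT := by
  intro S F H σ w k t ht β A hA
  set L := run F σ w k with hL
  set B := H.toBlk t β ht with hB
  have hT := H.T_big
  obtain ⟨hA1, hA2⟩ := hA
  -- basic facts
  have f0 : ∀ v ∈ A, v ∈ touched L ∧ H.blk t (w.lam v) = some β := by
    intro v hv
    have h := hA1 hv
    simp only [Hier.inb, Finset.mem_filter] at h
    obtain ⟨h1, x, h2, h3⟩ := h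
    rw [hL, adr_eq, if_pos (hL ▸ h1)] at h2
    rw [Option.some.inj h2]
    exact ⟨h1, h3⟩
  have f1 : ∀ u ∈ A, ∀ v ∈ touched L, H.root t L v = H.root t L u → v ∈ A := by
    intro u hu v hv h
    exact hA2 u hu (H.mem_part.2 ⟨hv, h⟩)
  have fpar : ∀ v ∈ A, 0 < H.dep t L v → par L v ∈ A := by
    intro v hv h
    have h1 := H.dep_par h
    exact f1 v hv _ h1.2.2.2 h1.2.1.symm
  have frel : ∀ v, 0 < H.dep t L v → _ := fun v h => layrel H σ w ht h
  -- the crossing names
  set E := A.filter fun v => 0 < H.dep t L v ∧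
    (H.lay t (w.lam v) = H.lay t (w.lam (par L v)) + 1 ∨
      H.lay t (w.lam (par L v)) = H.lay t (w.lam v) + 1) with hE
  have hEA : E.card ≤ A.card := Finset.card_le_card (Finset.filter_subset _ _)
  obtain ⟨l₁, hl₁, c1⟩ := pigeon E (fun v => min (H.lay t (w.lam v)) (H.lay t (w.lam (par L v))))
    (Finset.range (H.T - 1)) (by rw [Finset.card_range]; omega)
  obtain ⟨l₂, hl₂, c2⟩ := pigeon E (fun v => min (H.lay t (w.lam v)) (H.lay t (w.lam (par L v))))
    (Finset.Ico (2 * H.T) (3 * H.T - 1)) (by rw [Nat.card_Ico]; omega)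
  rw [Finset.card_range] at c1
  rw [Nat.card_Ico, show 3 * H.T - 1 - 2 * H.T = H.T - 1 by omega] at c2
  rw [Finset.mem_range] at hl₁
  rw [Finset.mem_Ico] at hl₂
  set D1 := E.filter fun v => min (H.lay t (w.lam v)) (H.lay t (w.lam (par L v))) = l₁ with hD1
  set D2 := E.filter fun v => min (H.lay t (w.lam v)) (H.lay t (w.lam (par L v))) = l₂ with hD2
  have hdiv : E.card / (H.T - 1) ≤ A.card / (H.T - 1) := Nat.div_le_div_right hEA
  have hD : (D1 ∪ D2).card ≤ 2 * (A.card / (H.T - 1)) := by
    refine (Finset.card_union_le _ _).trans ?_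
    omega
  set C := A.filter fun v => l₁ < H.lay t (w.lam v) ∧ H.lay t (w.lam v) ≤ l₂ with hC
  have hCA : C ⊆ A := Finset.filter_subset _ _
  -- a discovery edge with exactly one end in `C`
  have fcross : ∀ v ∈ A, 0 < H.dep t L v → ¬ (v ∈ C ↔ par L v ∈ C) → v ∈ D1 ∪ D2 := by
    intro v hv hd hn
    have h1 := fpar v hv hd
    have h2 := frel v hd
    simp only [hC, Finset.mem_filter, hv, h1, true_and] at hn
    simp only [hD1, hD2, hE, Finset.mem_union, Finset.mem_filter, hv, hd, true_and]
    rw [← hL] at h2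
    omega
  -- good entries
  have fgood : ∀ e L' v, e :: L' <:+ L → Disc L' e v → H.ge t e.b e.p → e.a.1 ∈ C → v ∈ C →
      B.good C L' e v := by
    intro e L' v hs hd hg ha hv
    refine ⟨?_, ha, hv, hd⟩
    refine ins_of_ge H ht hg ?_
    rw [(edge σ w hs hd).1]
    exact (f0 _ (hCA ha)).2
  refine ⟨C, hCA, ?_, ?_, ?_, ?_⟩
  · intro v hv
    have h1 := (f0 v (hCA hv)).2
    simp only [hC, Finset.mem_filter] at hv
    simp only [hB, Hier.toBlk, Finset.mem_filter, Finset.mem_univ, true_and]
    exact ⟨h1, by omega, by omega⟩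
  · have hsub : C \ B.gset C L ⊆ (A ∩ H.roots t L) ∪ (D1 ∪ D2) := by
      intro v hv
      rw [Finset.mem_sdiff] at hv
      obtain ⟨hv1, hv2⟩ := hv
      rw [Finset.mem_union, Finset.mem_inter]
      rcases Nat.eq_zero_or_pos (H.dep t L v) with h0 | h0
      · left
        exact ⟨hCA hv1, H.mem_roots.2 ⟨(f0 v (hCA hv1)).1, H.root_of_dep h0⟩⟩
      · right
        refine fcross v (hCA hv1) h0 ?_
        intro hiff
        obtain ⟨e, L', h1, h2, h3, h4, _⟩ := H.dep_pos h0
        refine hv2 (mem_gset B h1 (fgood e L' v h1 h2 h3 ?_ hv1))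
        rw [← h4]
        exact hiff.1 hv1
    calc (C \ B.gset C L).card ≤ ((A ∩ H.roots t L) ∪ (D1 ∪ D2)).card :=
          Finset.card_le_card hsub
      _ ≤ (A ∩ H.roots t L).card + (D1 ∪ D2).card := Finset.card_union_le _ _
      _ ≤ _ := by omega
  · have key : ∀ L' : List (En S), L' <:+ L →
        B.nbad C L' ≤ ((D1 ∪ D2) ∩ touched L').card + H.spc t A L' := by
      intro L'
      induction L' with
      | nil => intro _; simp [Blk.nbad]
      | cons e L' ih =>
        intro hs
        have ih' := ih ((List.suffix_cons _ _).trans hs)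
        have hmono : ((D1 ∪ D2) ∩ touched L').card ≤ ((D1 ∪ D2) ∩ touched (e :: L')).card :=
          Finset.card_le_card (Finset.inter_subset_inter_left (touched_mono e L'))
        have he : e ∈ run F σ w k := hs.subset List.mem_cons_self
        simp only [Blk.nbad, Hier.spc]
        by_cases hc : e.a ∉ known e.b L' ∧ B.ins e.b e.p ∧
            (e.a.1 ∈ C ∨ ∃ y, e.r = some y ∧ y.1.1 ∈ C) ∧ ¬ ∃ v, B.good C L' e v
        · rw [if_pos hc]
          obtain ⟨h1, h2, h3, h4⟩ := hc
          have hg : H.ge t e.b e.p := ge_of_ins H ht h2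
          obtain ⟨y', hy'⟩ := mt_of_ge H w hg
          have hr : e.r = some (w.unplc (!e.b) y', y') := by
            rw [(run_mem σ w he).2, hy']
            rfl
          have h3' : e.a.1 ∈ C ∨ (w.unplc (!e.b) y').1 ∈ C := by
            rcases h3 with h3 | ⟨y, hy, h3⟩
            · exact Or.inl h3
            · rw [hr] at hy
              have := Option.some.inj hy
              subst this
              exact Or.inr h3
          by_cases ho : (w.unplc (!e.b) y').1 ∈ touched L' ∨ (w.unplc (!e.b) y').1 = e.a.1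
          · have hsp : e.a ∉ known e.b L' ∧ H.ge t e.b e.p ∧ ∃ y, e.r = some y ∧
                (y.1.1 ∈ touched L' ∨ y.1.1 = e.a.1) ∧ (e.a.1 ∈ A ∨ y.1.1 ∈ A) := by
              refine ⟨h1, hg, _, hr, ho, ?_⟩
              exact h3'.imp (fun h => hCA h) (fun h => hCA h)
            rw [if_pos hsp]
            omega
          · rw [not_or] at ho
            have hd : Disc L' e (w.unplc (!e.b) y').1 :=
              disc_iff.2 ⟨ho.1, ho.2, _, hr, rfl⟩
            have hdd := H.disc_dep hs hd hg
            have ht1 : (w.unplc (!e.b) y').1 ∈ touched L := touched_suffix hs (disc_touched hd)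
            have ht2 : e.a.1 ∈ touched L := touched_suffix hs disc_par_touched
            have hboth : (w.unplc (!e.b) y').1 ∈ A ∧ e.a.1 ∈ A := by
              rcases h3' with h | h
              · exact ⟨f1 _ (hCA h) _ ht1 hdd.2.2, hCA h⟩
              · exact ⟨hCA h, f1 _ (hCA h) _ ht2 hdd.2.2.symm⟩
            have hcr : (w.unplc (!e.b) y').1 ∈ D1 ∪ D2 := by
              refine fcross _ hboth.1 (by rw [hdd.2.1]; omega) ?_
              rw [hdd.1]
              intro hiff
              refine h4 ⟨_, fgood e L' _ hs hd hg ?_ ?_⟩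
              · rcases h3' with h | h
                · exact h
                · exact hiff.1 h
              · rcases h3' with h | h
                · exact hiff.2 h
                · exact h
            have hlt : ((D1 ∪ D2) ∩ touched L').card <
                ((D1 ∪ D2) ∩ touched (e :: L')).card := by
              refine Finset.card_lt_card ?_
              rw [Finset.ssubset_iff_of_subset
                (Finset.inter_subset_inter_left (touched_mono e L'))]
              refine ⟨_, Finset.mem_inter.2 ⟨hcr, disc_touched hd⟩, ?_⟩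
              intro h
              exact ho.1 (Finset.mem_inter.1 h).2
            omega
        · rw [if_neg hc]
          omega
    have h1 := key L List.suffix_rfl
    have h2 : ((D1 ∪ D2) ∩ touched L).card ≤ (D1 ∪ D2).card :=
      Finset.card_le_card Finset.inter_subset_left
    omega
  · intro v hv h0
    obtain ⟨e, L', h1, h2, h3, h4, _⟩ := H.dep_pos h0
    have h3' := H.ge_mono (Nat.le_succ t) h3
    have hdd := H.disc_dep h1 h2 h3'
    obtain ⟨h5, y, h6, h7⟩ := edge σ w h1 h2
    have h8 := H.ge_lay ht w h3 h6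
    rw [h5, h7] at h8
    have ha : e.a.1 ∈ A :=
      f1 v hv _ (touched_suffix h1 disc_par_touched) hdd.2.2.symm
    refine mem_dset B h1 (fgood e L' v h1 h2 h3' ?_ ?_) (H.ge_th h3)
    · simp only [hC, Finset.mem_filter]
      exact ⟨ha, by omega, by omega⟩
    · simp only [hC, Finset.mem_filter]
      exact ⟨hv, by omega, by omega⟩

end

end Pool.Agent.AcyAd
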