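import Pool.Agent.AcyAd.Targets1

/-!
# MP_08c6cd_lc, fully adaptive testers: ADU-DC, double counting
-/

namespace Pool.Agent.AcyAd

open scoped Classical

namespace DC_

lemma card_sub {X : Type} [Fintype X] (p : X → Prop) :
    (Nat.card {x : X // p x} : ℝ) = ∑ x : X, if p x then (1 : ℝ) else 0 := by
  rw [Nat.card_eq_fintype_card, Fintype.card_subtype, Finset.sum_ite]
  simp

end DC_

open DC_ in
theorem tDC : T_DC := by
  intro X Y _ _ E E' P c hc h1 h2
  have : Fintype X := Fintype.ofFinite X
  have : Fintype Y := Fintype.ofFinite Y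
  set n : Y → ℝ := fun p => (Nat.card {i' : X // E i' ∧ P i' p} : ℝ) with hn
  have hnpos : ∀ i p, E i → P i p → 0 < n p := by
    intro i p hi hp
    have : Nonempty {i' : X // E i' ∧ P i' p} := ⟨⟨i, hi, hp⟩⟩
    have h : 0 < Nat.card {i' : X // E i' ∧ P i' p} := Nat.card_pos
    show (0 : ℝ) < (Nat.card {i' : X // E i' ∧ P i' p} : ℝ)
    exact_mod_cast h
  have hA : ∀ i, (if E i then c else 0) ≤ ∑ p : Y, if E i ∧ P i p then 1 / n p else 0 := by
    intro i
    by_cases hi : E i
    · simp only [hi, if_true, true_and]
      obtain ⟨p0, hp0⟩ := (h1 i hi).1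
      set m : ℝ := (Nat.card {p' : Y // P i p'} : ℝ) with hm
      have hmpos : 0 < m := by
        have : Nonempty {p' : Y // P i p'} := ⟨⟨p0, hp0⟩⟩
        have : 0 < Nat.card {p' : Y // P i p'} := Nat.card_pos
        rw [hm]
        exact_mod_cast this
      calc c = (∑ p : Y, if P i p then (1 : ℝ) else 0) * (c / m) := by
            rw [← card_sub (fun p => P i p), ← hm]
            field_simp
        _ = ∑ p : Y, (if P i p then (1 : ℝ) else 0) * (c / m) := by rw [Finset.sum_mul]
        _ ≤ ∑ p : Y, if P i p then 1 / n p else 0 := by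
            refine Finset.sum_le_sum fun p _ => ?_
            by_cases hp : P i p
            · simp only [hp, if_true, one_mul]
              rw [div_le_div_iff₀ hmpos (hnpos i p hi hp)]
              have := h2 i hi p hp
              rw [one_mul, mul_comm]
              exact this
            · simp [hp]
    · simp [hi]
  have hB : ∀ p, (∑ i : X, if E i ∧ P i p then 1 / n p else 0) ≤ if E' p then (1 : ℝ) else 0 := by
    intro p
    by_cases hex : ∃ i, E i ∧ P i p
    · obtain ⟨i, hi, hp⟩ := hex
      have hE' : E' p := (h1 i hi).2 p hp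
      simp only [hE', if_true]
      have hpos := hnpos i p hi hp
      have e1 : (∑ i : X, if E i ∧ P i p then 1 / n p else 0) = n p * (1 / n p) := by
        have hnp : n p = ∑ i : X, if E i ∧ P i p then (1 : ℝ) else 0 := by
          show (Nat.card {i' : X // E i' ∧ P i' p} : ℝ) = _
          rw [card_sub (fun i => E i ∧ P i p)]
          refine Finset.sum_congr rfl fun i _ => ?_
          congr
        calc (∑ i : X, if E i ∧ P i p then 1 / n p else 0)
            = ∑ i : X, (if E i ∧ P i p then (1 : ℝ) else 0) * (1 / n p) := by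
              refine Finset.sum_congr rfl fun i _ => ?_
              split_ifs <;> simp
          _ = (∑ i : X, if E i ∧ P i p then (1 : ℝ) else 0) * (1 / n p) := by
              rw [Finset.sum_mul]
          _ = n p * (1 / n p) := by rw [← hnp]
      rw [e1]
      field_simp
      exact le_refl _
    · have : ∀ i : X, ¬ (E i ∧ P i p) := fun i hi => hex ⟨i, hi⟩
      simp only [this, if_false, Finset.sum_const_zero]
      split_ifs <;> norm_num
  calc (Nat.card {i : X // E i} : ℝ) * c = ∑ i : X, if E i then c else 0 := by
        rw [card_sub E, Finset.sum_mul]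
        refine Finset.sum_congr rfl fun i _ => ?_
        split_ifs <;> simp
    _ ≤ ∑ i : X, ∑ p : Y, if E i ∧ P i p then 1 / n p else 0 :=
        Finset.sum_le_sum fun i _ => hA i
    _ = ∑ p : Y, ∑ i : X, if E i ∧ P i p then 1 / n p else 0 := Finset.sum_comm
    _ ≤ ∑ p : Y, if E' p then (1 : ℝ) else 0 := Finset.sum_le_sum fun p _ => hB p
    _ = Nat.card {p : Y // E' p} := (card_sub E').symm

end Pool.Agent.AcyAd
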