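import Pool.Agent.AcyAd.Targets1

set_option autoImplicit false

/-!
# MP_08c6cd_lc, fully adaptive testers: ADU-DEC, decoupling
-/

namespace Pool.Agent.AcyAd

open scoped Classical

noncomputable section

namespace DEC_

variable {S : Sys} {F : Fx S} {B : Blk S F}

/-! ## Suffixes and the sets of pairs -/

theorem mem_cset {c : List (VE S) → Bool → S.Sl → Prop} {L : List (VE S)}
    {x : Bool × S.Sl × S.Sl} (h : x ∈ cset c L) :
    ∃ (e : VE S) (L' : List (VE S)), e :: L' <:+ L ∧ c L' e.b e.a ∧ e.b = x.1 ∧ e.a = x.2.1 ∧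
      e.r = some x.2.2 := by
  induction L with
  | nil => simp [cset] at h
  | cons e L ih =>
    rw [cset, Finset.mem_union] at h
    rcases h with h | h
    · obtain ⟨e', L', h1, h2⟩ := ih h
      exact ⟨e', L', h1.trans (List.suffix_cons _ _), h2⟩
    · by_cases hc : c L e.b e.a
      · rw [if_pos hc] at h
        rcases hr : e.r with _ | y
        · rw [hr] at h
          simp at h
        · rw [hr] at h
          simp only [Finset.mem_singleton] at h
          subst h
          exact ⟨e, L, List.suffix_rfl, hc, rfl, rfl, hr⟩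
      · rw [if_neg hc] at h
        simp at h

theorem cons_suffix_cases {α : Type} {e : α} {L' L : List α} {a : α} (h : e :: L' <:+ a :: L) :
    (e = a ∧ L' = L) ∨ e :: L' <:+ L := by
  rw [List.suffix_cons_iff] at h
  rcases h with h | h
  · left
    exact List.cons.inj h
  · exact Or.inr h

theorem run2_ans {w0 : World S} {g : Gs S} (σ : Player S) (w1 w2 : World S) (k : ℕ) {e : VE S}
    {L' : List (VE S)} (h : e :: L' <:+ run2 (F := F) B w0 g σ w1 w2 k) :
    e.r = ans2 B w0 g w1 w2 L' e.b e.a := by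
  induction k with
  | zero => simp [run2] at h
  | succ k ih =>
    rw [run2] at h
    rcases cons_suffix_cases h with ⟨h1, h2⟩ | h
    · subst h1
      rw [h2]
    · exact ih h

theorem p2_cons {w0 : World S} {g : Gs S} (e : VE S) (L : List (VE S)) :
    p2 B w0 g (e :: L) = p2 B w0 g L ∪ (if c2 B w0 g L e.b e.a then e.nm else ∅) := by
  by_cases hc : c2 B w0 g L e.b e.a
  · rw [if_pos hc, p2]
    unfold c2 at hc
    rw [if_pos hc]
  · rw [if_neg hc, p2]
    unfold c2 at hc
    rw [if_neg hc]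

theorem p2_touched {w0 : World S} {g : Gs S} (L : List (VE S)) :
    p2 B w0 g L ⊆ vtouched L := by
  induction L with
  | nil => simp [p2]
  | cons e L ih =>
    rw [p2_cons]
    refine Finset.union_subset (ih.trans (vtouched_mono _ _)) ?_
    split
    · intro v hv
      rw [VE.mem_nm] at hv
      rw [mem_vtouched_cons]
      exact Or.inr (Or.inr hv)
    · simp

theorem p2_mono {w0 : World S} {g : Gs S} {L' L : List (VE S)} (h : L' <:+ L) :
    p2 B w0 g L' ⊆ p2 B w0 g L := by
  induction L with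
  | nil =>
    have : L' = [] := by simpa using h
    rw [this]
  | cons e L ih =>
    rw [List.suffix_cons_iff] at h
    rcases h with h | h
    · rw [h]
    · rw [p2_cons]
      exact (ih h).trans Finset.subset_union_left

/-- nice logs have nice suffixes -/
theorem nice2_suffix {w0 : World S} {g : Gs S} {L' L : List (VE S)} (h : L' <:+ L)
    (hn : nice2 B w0 g L) : nice2 B w0 g L' := by
  induction L with
  | nil =>
    have : L' = [] := by simpa using h
    rw [this]
    exact hn
  | cons e L ih =>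
    rw [List.suffix_cons_iff] at h
    rcases h with h | h
    · rw [h]; exact hn
    · exact ih h hn.1

/-- touched names do not enter the discovered set later -/
theorem p2_new {w0 : World S} {g : Gs S} {L' L : List (VE S)} (h : L' <:+ L)
    (hn : nice2 B w0 g L) {v : S.V} (hv : v ∈ vtouched L') (hp : v ∈ p2 B w0 g L) :
    v ∈ p2 B w0 g L' := by
  induction L with
  | nil =>
    have : L' = [] := by simpa using h
    rw [this]
    exact hp
  | cons e L ih =>
    rw [List.suffix_cons_iff] at h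
    rcases h with h | h
    · rw [h]; exact hp
    · rw [p2_cons, Finset.mem_union] at hp
      rcases hp with hp | hp
      · exact ih h hn.1 hp
      · exfalso
        by_cases hc : c2 B w0 g L e.b e.a
        · rw [if_pos hc, VE.mem_nm] at hp
          obtain ⟨y, hy, hyv⟩ := hp
          obtain ⟨y', hy', h1, _⟩ := hn.2.1 hc
          rw [hy] at hy'
          have h2 := Option.some.inj hy'
          subst h2
          apply h1
          rw [hyv]
          exact vtouched_suffix h hv
        · rw [if_neg hc] at hp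
          simp at hp

theorem not_c2_of_c1 {w0 : World S} {g : Gs S} {L : List (VE S)} {b : Bool} {a : S.Sl}
    (h : c1 B w0 g L b a) : ¬ c2 B w0 g L b a := fun h' => h.2.2.2 h'.2.2.2

/-- the names of a pair of the first copy -/
theorem names1 {w0 : World S} {g : Gs S} {L : List (VE S)} (hn : nice2 B w0 g L)
    {x : Bool × S.Sl × S.Sl} (h : x ∈ cset (c1 B w0 g) L) :
    x.2.1.1 ∉ g.R0 ∪ p2 B w0 g L ∧ x.2.2.1 ∉ g.R0 ∪ p2 B w0 g L := by
  obtain ⟨e, L', h1, h2, h3, h4, h5⟩ := mem_cset h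
  have hn' := nice2_suffix h1 hn
  obtain ⟨y, hy, hy'⟩ := hn'.2.2 h2
  rw [h5] at hy
  have h6 := Option.some.inj hy
  subst h6
  have hp : p2 B w0 g (e :: L') = p2 B w0 g L' := by
    rw [p2_cons, if_neg (not_c2_of_c1 h2), Finset.union_empty]
  have key : ∀ v, v ∈ vtouched (e :: L') → v ∉ g.R0 ∪ p2 B w0 g L' → v ∉ g.R0 ∪ p2 B w0 g L := by
    intro v hv hv' hv''
    rw [Finset.mem_union] at hv'' hv'
    rcases hv'' with hv'' | hv''
    · exact hv' (Or.inl hv'')
    · have := p2_new h1 hn hv hv''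
      rw [hp] at this
      exact hv' (Or.inr this)
  constructor
  · rw [← h4]
    refine key _ ?_ h2.2.2.2
    rw [mem_vtouched_cons]
    exact Or.inr (Or.inl rfl)
  · refine key _ ?_ hy'
    rw [mem_vtouched_cons]
    exact Or.inr (Or.inr ⟨_, h5, rfl⟩)

/-- the names of a pair of the second copy -/
theorem names2 {w0 : World S} {g : Gs S} {L : List (VE S)}
    {x : Bool × S.Sl × S.Sl} (h : x ∈ cset (c2 B w0 g) L) :
    x.2.1.1 ∈ g.R0 ∪ p2 B w0 g L ∧ x.2.2.1 ∈ g.R0 ∪ p2 B w0 g L := by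
  obtain ⟨e, L', h1, h2, h3, h4, h5⟩ := mem_cset h
  constructor
  · rw [← h4]
    have := h2.2.2.2
    rw [Finset.mem_union] at this ⊢
    rcases this with h | h
    · exact Or.inl h
    · exact Or.inr (p2_mono ((List.suffix_cons _ _).trans h1) h)
  · rw [Finset.mem_union]
    right
    refine p2_mono h1 ?_
    rw [p2_cons, if_pos h2, Finset.mem_union]
    right
    rw [VE.mem_nm]
    exact ⟨_, h5, rfl⟩

/-- the number of pairs of the second copy -/
theorem card_cset2 {w0 : World S} {g : Gs S} {L : List (VE S)} (hn : nice2 B w0 g L) :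
    (cset (c2 B w0 g) L).card ≤ (p2 B w0 g L).card := by
  induction L with
  | nil => simp [cset]
  | cons e L ih =>
    have ih' := ih hn.1
    rw [cset, p2_cons]
    by_cases hc : c2 B w0 g L e.b e.a
    · rw [if_pos hc, if_pos hc]
      obtain ⟨y, hy, h1, _⟩ := hn.2.1 hc
      have hnm : e.nm = {y.1} := by
        unfold VE.nm
        rw [hy]
      rw [hy, hnm]
      have h2 : y.1 ∉ p2 B w0 g L := fun h => h1 (p2_touched L h)
      have h3 : (p2 B w0 g L ∪ {y.1}).card = (p2 B w0 g L).card + 1 := by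
        rw [Finset.card_union_of_disjoint (by simpa using h2), Finset.card_singleton]
      rw [h3]
      refine (Finset.card_union_le _ _).trans ?_
      simp only [Finset.card_singleton]
      omega
    · rw [if_neg hc, if_neg hc, Finset.union_empty, Finset.union_empty]
      exact ih'

/-- the pairs are answered by the world and inner -/
theorem pair_ok {w0 : World S} {g : Gs S} (σ : Player S) (w : World S) (k : ℕ)
    {x : Bool × S.Sl × S.Sl}
    (h : x ∈ cset (c1 B w0 g) (run2 (F := F) B w0 g σ w w k) ∪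
      cset (c2 B w0 g) (run2 (F := F) B w0 g σ w w k)) :
    w.ask F x.1 x.2.1 = some x.2.2 ∧ B.ins x.1 (w0.plc x.1 x.2.1) ∧
      x.2.1.1 ∈ vtouched (run2 (F := F) B w0 g σ w w k) ∧
      x.2.2.1 ∈ vtouched (run2 (F := F) B w0 g σ w w k) := by
  have key : ∀ (e : VE S) (L' : List (VE S)), e :: L' <:+ run2 (F := F) B w0 g σ w w k →
      (c1 B w0 g L' e.b e.a ∨ c2 B w0 g L' e.b e.a) → e.b = x.1 → e.a = x.2.1 →
      e.r = some x.2.2 → w.ask F x.1 x.2.1 = some x.2.2 ∧ B.ins x.1 (w0.plc x.1 x.2.1) ∧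
      x.2.1.1 ∈ vtouched (run2 (F := F) B w0 g σ w w k) ∧
      x.2.2.1 ∈ vtouched (run2 (F := F) B w0 g σ w w k) := by
    intro e L' h1 h2 h3 h4 h5
    have h6 := run2_ans σ w w k h1
    have h7 : e.a ∉ vknown e.b L' ∧ g.flag e.b e.a = none ∧ B.ins e.b (w0.plc e.b e.a) := by
      rcases h2 with h2 | h2
      · exact ⟨h2.1, h2.2.1, h2.2.2.1⟩
      · exact ⟨h2.1, h2.2.1, h2.2.2.1⟩
    have h8 : ans2 B w0 g w w L' e.b e.a = w.ask F e.b e.a := by
      unfold ans2
      rw [if_neg h7.1, if_neg (by rw [h7.2.1]; simp)]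
      split <;> rfl
    refine ⟨?_, ?_, ?_, ?_⟩
    · rw [← h3, ← h4, ← h8, ← h6, h5]
    · rw [← h3, ← h4]
      exact h7.2.2
    · refine vtouched_suffix h1 ?_
      rw [← h4, mem_vtouched_cons]
      exact Or.inr (Or.inl rfl)
    · refine vtouched_suffix h1 ?_
      rw [mem_vtouched_cons]
      exact Or.inr (Or.inr ⟨_, h5, rfl⟩)
  rw [Finset.mem_union] at h
  rcases h with h | h
  · obtain ⟨e, L', h1, h2, h3, h4, h5⟩ := mem_cset h
    exact key e L' h1 (Or.inl h2) h3 h4 h5
  · obtain ⟨e, L', h1, h2, h3, h4, h5⟩ := mem_cset h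
    exact key e L' h1 (Or.inr h2) h3 h4 h5

/-! ## Agreement -/

theorem Agr.rfl' {w0 : World S} {J : Finset (Bool × S.Sl × S.Sl)} {i : Ins B} : Agr w0 J i i :=
  fun _ _ => ⟨rfl, rfl, rfl⟩

theorem Agr.comm {w0 : World S} {J : Finset (Bool × S.Sl × S.Sl)} {i i' i₁ : Ins B}
    (h : Agr w0 J i i₁) (h' : Agr w0 J i' i₁) : Agr w0 J i i' := by
  intro c hc
  obtain ⟨a1, a2, a3⟩ := h c hc
  obtain ⟨b1, b2, b3⟩ := h' c hc
  refine ⟨b1.symm.trans a1, b2.symm.trans a2, ?_⟩
  have e : (mix w0 i').plc c.1 c.2.1 = (mix w0 i).plc c.1 c.2.1 := b1.symm.trans a1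
  rw [← a3, ← e, ← b3]

theorem Agr.union {w0 : World S} {J J' : Finset (Bool × S.Sl × S.Sl)} {i i' : Ins B}
    (h : Agr w0 J i i') (h' : Agr w0 J' i i') : Agr w0 (J ∪ J') i i' := by
  intro c hc
  rw [Finset.mem_union] at hc
  rcases hc with hc | hc
  · exact h c hc
  · exact h' c hc

/-! ## The bounds for the sets of addresses and places -/

theorem rh_mem (i : Ins B) {x : S.V} (hx : x ∈ B.M) : i.rh x = (i.rho ⟨x, hx⟩).1 :=
  Equiv.Perm.ofSubtype_apply_of_mem i.rho hx

theorem aU_card_le {w0 : World S} {i : Ins B} {J : Finset (Bool × S.Sl × S.Sl)}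
    {A : Finset S.V} (h : ∀ c ∈ J, c.2.1.1 ∈ A ∧ c.2.2.1 ∈ A) :
    (aU B w0 J).card ≤ (A.image (mix w0 i).lam ∩ B.M).card := by
  refine Finset.card_le_card_of_injOn (fun x => (i.rho x).1) ?_ ?_
  · intro x hx
    simp only [aU, Finset.coe_filter, Finset.mem_univ, true_and, Set.mem_ofPred_eq] at hx
    obtain ⟨c, hc, hcx⟩ := hx
    have key : ∀ v : S.V, v ∈ A → w0.lam v = x.1 →
        (i.rho x).1 ∈ A.image (mix w0 i).lam ∩ B.M := by
      intro v hv hvx
      rw [Finset.mem_inter, Finset.mem_image]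
      refine ⟨⟨v, hv, ?_⟩, (i.rho x).2⟩
      show i.rh (w0.lam v) = _
      rw [hvx, rh_mem i x.2]
    rcases hcx with hcx | hcx
    · exact key _ (h c hc).1 hcx
    · exact key _ (h c hc).2 hcx
  · intro x _ x' _ hxx
    exact i.rho.injective (Subtype.ext hxx)

theorem aU_card_le' {w0 : World S} {J : Finset (Bool × S.Sl × S.Sl)}
    {A : Finset S.V} (h : ∀ c ∈ J, c.2.1.1 ∈ A ∧ c.2.2.1 ∈ A) :
    (aU B w0 J).card ≤ A.card := by
  refine Finset.card_le_card_of_injOn (fun x => w0.lam.symm x.1) ?_ ?_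
  · intro x hx
    simp only [aU, Finset.coe_filter, Finset.mem_univ, true_and, Set.mem_ofPred_eq] at hx
    obtain ⟨c, hc, hcx⟩ := hx
    rcases hcx with hcx | hcx
    · show w0.lam.symm x.1 ∈ A
      rw [← hcx, Equiv.symm_apply_apply]
      exact (h c hc).1
    · show w0.lam.symm x.1 ∈ A
      rw [← hcx, Equiv.symm_apply_apply]
      exact (h c hc).2
  · intro x _ x' _ hxx
    exact Subtype.ext (w0.lam.symm.injective hxx)

theorem aY_card_le {w0 : World S} {i : Ins B} {J : Finset (Bool × S.Sl × S.Sl)}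
    {A : Finset S.V} (h : ∀ c ∈ J, c.2.1.1 ∈ A ∧ c.2.2.1 ∈ A) (κ : S.K) :
    (aY w0 J i κ).card ≤ S.D * (A.image (mix w0 i).lam ∩ S.tgt true κ).card := by
  have h1 : (aY w0 J i κ).card ≤
      ((A.image (mix w0 i).lam ∩ S.tgt true κ) ×ˢ (Finset.univ : Finset (Fin S.D))).card := by
    refine Finset.card_le_card_of_injOn (fun y => y.1) ?_ ?_
    · intro y hy
      simp only [aY, Finset.coe_filter, Finset.mem_univ, true_and, Set.mem_ofPred_eq] at hy
      obtain ⟨hκ, c, hc, hcy⟩ := hy
      have hmem : y.1.1 ∈ S.tgt true κ := by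
        simp only [Sys.tgt, Finset.mem_filter, Finset.mem_univ, true_and]
        exact ⟨y.1.2, y.2⟩
      have key : ∀ a : S.Sl, a.1 ∈ A → (mix w0 i).plc true a = y.1 →
          y.1.1 ∈ A.image (mix w0 i).lam := by
        intro a ha hay
        rw [Finset.mem_image]
        refine ⟨a.1, ha, ?_⟩
        rw [← hay]
        rfl
      have h2 : y.1.1 ∈ A.image (mix w0 i).lam := by
        rcases hcy with ⟨_, hcy⟩ | ⟨_, hcy⟩
        · exact key _ (h c hc).1 hcy
        · exact key _ (h c hc).2 hcy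
      simp only [Finset.coe_product, Set.mem_prod, Finset.mem_coe, Finset.mem_inter,
        Finset.mem_univ, and_true]
      exact ⟨h2, hmem⟩
    · intro y _ y' _ hyy
      exact Subtype.ext hyy
  rw [Finset.card_product, Finset.card_univ, Fintype.card_fin] at h1
  linarith [Nat.mul_comm S.D (A.image (mix w0 i).lam ∩ S.tgt true κ).card]

theorem touched_run {σ : Player S} {w : World S} {k : ℕ} :
    touched (run F σ w k) = vtouched ((run F σ w k).map En.vis) := rfl

end DEC_

open DEC_ in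
theorem tDEC (hAGR : T_AGR) (hDC : T_DC) (hAG2 : T_AG2) : T_DEC := by
  intro S F B w0 g σ k m h y u θ hθ hθ'
  -- abbreviations
  set L2 : Ins B → List (VE S) := fun i => run2 (F := F) B w0 g σ (mix w0 i) (mix w0 i) k with hL2
  set J1 : Ins B → Finset (Bool × S.Sl × S.Sl) := fun i => cset (c1 B w0 g) (L2 i) with hJ1
  set J2 : Ins B → Finset (Bool × S.Sl × S.Sl) := fun i => cset (c2 B w0 g) (L2 i) with hJ2
  have hexp : (0:ℝ) < Real.exp (4 * θ * m) := Real.exp_pos _
  have hmain := hDC (Ins B) (Ins B × Ins B)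
    (fun i => run2 (F := F) B w0 g σ (mix w0 i) (mix w0 i) k =
      (run F σ (mix w0 i) k).map En.vis ∧
    nice2 B w0 g ((run F σ (mix w0 i) k).map En.vis) ∧
    (g.R0 ∪ p2 B w0 g ((run F σ (mix w0 i) k).map En.vis)).card ≤ m ∧
    dens B θ (run F σ (mix w0 i) k) ∧
    paths2 B w0 g (mix w0 i) h y u ((run F σ (mix w0 i) k).map En.vis))
    (fun p => nice2 B w0 g (run2 (F := F) B w0 g σ (mix w0 p.1) (mix w0 p.2) k) ∧
    paths2 B w0 g (mix w0 p.2) h y u (run2 (F := F) B w0 g σ (mix w0 p.1) (mix w0 p.2) k))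
    (fun i p => Agr w0 (J1 i) i p.1 ∧ Agr w0 (J2 i) i p.2)
    ((Nat.card (Ins B) : ℝ) / Real.exp (4 * θ * m)) (by positivity) ?_ ?_
  · have h1 := mul_le_mul_of_nonneg_left hmain hexp.le
    refine le_trans (le_of_eq ?_) h1
    field_simp
  · rintro i ⟨e1, e2, e3, e4, e5⟩
    refine ⟨⟨(i, i), Agr.rfl', Agr.rfl'⟩, ?_⟩
    rintro ⟨i1, i2⟩ ⟨hp1, hp2⟩
    obtain ⟨a1, a2⟩ := hAG2 S F B w0 g σ k i i1 i2 hp1 hp2
    simp only
    rw [a1]
    refine ⟨by rw [e1]; exact e2, ?_⟩
    unfold paths2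
    rw [a2, e1]
    exact e5
  · rintro i ⟨e1, e2, e3, e4, e5⟩ ⟨i1, i2⟩ ⟨hp1, hp2⟩
    obtain ⟨a1, a2⟩ := hAG2 S F B w0 g σ k i i1 i2 hp1 hp2
    have hn : nice2 B w0 g (L2 i) := by
      show nice2 B w0 g (run2 (F := F) B w0 g σ (mix w0 i) (mix w0 i) k)
      rw [e1]; exact e2
    have hR : (g.R0 ∪ p2 B w0 g (L2 i)).card ≤ m := by
      show (g.R0 ∪ p2 B w0 g (run2 (F := F) B w0 g σ (mix w0 i) (mix w0 i) k)).card ≤ m
      rw [e1]; exact e3
    have htou : vtouched (L2 i) = touched (run F σ (mix w0 i) k) := by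
      show vtouched (run2 (F := F) B w0 g σ (mix w0 i) (mix w0 i) k) = _
      rw [e1, touched_run]
    have hexpl := expl_eq (F := F) σ (mix w0 i) k
    have hpair : ∀ c ∈ J1 i ∪ J2 i, (mix w0 i).ask F c.1 c.2.1 = some c.2.2 ∧
        B.ins c.1 (w0.plc c.1 c.2.1) ∧ c.2.1.1 ∈ touched (run F σ (mix w0 i) k) ∧
        c.2.2.1 ∈ touched (run F σ (mix w0 i) k) := by
      intro c hc
      have := pair_ok σ (mix w0 i) k hc
      rw [← htou]
      exact this
    have hagr := hAGR S F B w0 i (J1 i) (J2 i) θ m hθ hθ'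
      (fun c hc => ⟨(hpair c hc).1, (hpair c hc).2.1⟩)
      (by
        intro c hc c' hc'
        have n1 := names1 hn hc
        have n2 := names2 hc'
        refine ⟨?_, ?_, ?_, ?_⟩
        · intro h; exact n1.1 (h ▸ n2.1)
        · intro h; exact n1.1 (h ▸ n2.2)
        · intro h; exact n1.2 (h ▸ n2.1)
        · intro h; exact n1.2 (h ▸ n2.2))
      (by
        have h1 := aU_card_le (w0 := w0) (i := i) (J := J1 i ∪ J2 i)
          (A := touched (run F σ (mix w0 i) k))
          (fun c hc => ⟨(hpair c hc).2.2.1, (hpair c hc).2.2.2⟩)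
        rw [← hexpl] at h1
        exact le_trans (by exact_mod_cast h1) e4.1)
      (by
        intro κ hκ
        have h1 := aY_card_le (w0 := w0) (i := i) (J := J1 i ∪ J2 i)
          (A := touched (run F σ (mix w0 i) k))
          (fun c hc => ⟨(hpair c hc).2.2.1, (hpair c hc).2.2.2⟩) κ
        rw [← hexpl] at h1
        exact le_trans (by exact_mod_cast h1) (e4.2 κ hκ true))
      (by
        have h1 := aU_card_le' (B := B) (w0 := w0) (J := J2 i) (A := g.R0 ∪ p2 B w0 g (L2 i))
          (fun c hc => names2 hc)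
        exact h1.trans hR)
      (by
        have h1 := card_cset2 (B := B) (w0 := w0) (g := g) hn
        exact (h1.trans (Finset.card_le_card Finset.subset_union_right)).trans hR)
    -- the fibre
    have hfib : Nat.card {i' : Ins B // (run2 (F := F) B w0 g σ (mix w0 i') (mix w0 i') k =
          (run F σ (mix w0 i') k).map En.vis ∧
        nice2 B w0 g ((run F σ (mix w0 i') k).map En.vis) ∧
        (g.R0 ∪ p2 B w0 g ((run F σ (mix w0 i') k).map En.vis)).card ≤ m ∧
        dens B θ (run F σ (mix w0 i') k) ∧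
        paths2 B w0 g (mix w0 i') h y u ((run F σ (mix w0 i') k).map En.vis)) ∧
        (Agr w0 (J1 i') i' i1 ∧ Agr w0 (J2 i') i' i2)} ≤
        Nat.card {i' : Ins B // Agr w0 (J1 i ∪ J2 i) i i'} := by
      refine Nat.card_le_card_of_injective (fun i' => ⟨i'.1, ?_⟩) ?_
      · obtain ⟨i', hE, q1, q2⟩ := i'
        obtain ⟨b1, b2⟩ := hAG2 S F B w0 g σ k i' i1 i2 q1 q2
        have hLL : L2 i' = L2 i := b1.symm.trans a1
        have hJJ1 : J1 i' = J1 i := by simp only [hJ1, hLL]
        have hJJ2 : J2 i' = J2 i := by simp only [hJ2, hLL]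
        rw [hJJ1] at q1
        rw [hJJ2] at q2
        exact Agr.union (Agr.comm hp1 q1) (Agr.comm hp2 q2)
      · intro x x' hxx
        exact Subtype.ext (Subtype.mk.inj hxx)
    have hprod : Nat.card {p' : Ins B × Ins B // Agr w0 (J1 i) i p'.1 ∧ Agr w0 (J2 i) i p'.2} =
        Nat.card {i' : Ins B // Agr w0 (J1 i) i i'} * Nat.card {i' : Ins B // Agr w0 (J2 i) i i'} := by
      rw [← Nat.card_prod]
      exact Nat.card_congr (Equiv.subtypeProdEquivProd (p := fun i' => Agr w0 (J1 i) i i')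
        (q := fun i' => Agr w0 (J2 i) i i'))
    rw [hprod, ← mul_div_assoc, div_le_iff₀ hexp]
    push_cast
    have h2 : (Nat.card {i' : Ins B // Agr w0 (J1 i ∪ J2 i) i i'} * Nat.card (Ins B) : ℝ) ≤
      Real.exp (4 * θ * m) * (Nat.card {i' : Ins B // Agr w0 (J1 i) i i'} *
      Nat.card {i' : Ins B // Agr w0 (J2 i) i i'}) := hagr
    refine le_trans (mul_le_mul_of_nonneg_right ?_ (Nat.cast_nonneg _)) (h2.trans (le_of_eq ?_))
    · exact_mod_cast hfib
    · ring

end

end Pool.Agent.AcyAd
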