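import Pool.Agent.AcyAd.Targets2

/-!
# MP_08c6cd_lc, fully adaptive testers: densities after one more question
-/

namespace Pool.Agent.AcyAd

open scoped Classical

noncomputable section

namespace DENS_

variable {S : Sys} {F : Fx S}

theorem expl_cons_card (e : En S) (L : List (En S)) (Z : Finset S.V) :
    (expl (e :: L) ∩ Z).card ≤ (expl L ∩ Z).card + 2 := by
  have h1 : expl (e :: L) ∩ Z ⊆ (expl L ∩ Z) ∪
      ({e.p.1} ∪ (match e.r with | some y => {y.2.1} | none => ∅)) := by
    intro x hx
    rw [Finset.mem_inter] at hx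
    simp only [expl, Finset.mem_union] at hx ⊢
    rcases hx with ⟨(hx | hx) | hx, hz⟩
    · left
      rw [Finset.mem_inter]
      exact ⟨hx, hz⟩
    · right; left; exact hx
    · right; right; exact hx
  have h2 : (match e.r with | some y => ({y.2.1} : Finset S.V) | none => ∅).card ≤ 1 := by
    rcases e.r with _ | y <;> simp
  have h3 := Finset.card_le_card h1
  have h4 := Finset.card_union_le (expl L ∩ Z)
    ({e.p.1} ∪ (match e.r with | some y => ({y.2.1} : Finset S.V) | none => ∅))
  have h5 := Finset.card_union_le ({e.p.1} : Finset S.V)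
    (match e.r with | some y => ({y.2.1} : Finset S.V) | none => ∅)
  rw [Finset.card_singleton] at h5
  omega

end DENS_

open DENS_ in
/-- Densities after one more question. -/
theorem tDENS (hN : T_NCL) : T_DENS := by
  intro S F H X θ σ w k t ht β hθ hX hXB
  rcases k with _ | j
  · refine ⟨?_, ?_⟩
    · simp only [run, expl, Finset.empty_inter, Finset.card_empty, Nat.cast_zero]
      positivity
    · intro κ _ b
      simp only [run, expl, Finset.empty_inter, Finset.card_empty, Nat.cast_zero, mul_zero]
      positivity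
  have hj := hXB j (Nat.lt_succ_self j)
  have hstep : ∀ Z : Finset S.V, (expl (run F σ w (j + 1)) ∩ Z).card ≤
      (expl (run F σ w j) ∩ Z).card + 2 := fun Z => expl_cons_card _ _ Z
  have hD : (1 : ℝ) ≤ S.D := by
    have := H.th_2 t ht
    have h2 : 1 ≤ S.D := by omega
    exact_mod_cast h2
  refine ⟨?_, ?_⟩
  · -- the middle of the block
    rcases Finset.eq_empty_or_nonempty (H.toBlk t β ht).M with hM | ⟨x0, hx0⟩
    · rw [hM]
      simp
    · have hmem : ∀ x, x ∈ (H.toBlk t β ht).M ↔ H.blk t x = some β ∧ 1 ≤ H.lay t x ∧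
          H.lay t x ≤ 3 * H.T - 2 := by
        intro x
        simp only [Hier.toBlk, Finset.mem_filter, Finset.mem_univ, true_and]
      have hb0 : H.blk t x0 = some β := ((hmem x0).1 hx0).1
      have hT := H.T_big
      have hMc : (H.toBlk t β ht).M.card = (3 * H.T - 2) * H.nb (t + 1) := by
        rw [Finset.card_eq_sum_card_fiberwise (f := H.lay t) (t := Finset.Icc 1 (3 * H.T - 2))
          (by
            intro x hx
            rw [Finset.mem_coe, hmem] at hx
            rw [Finset.mem_coe, Finset.mem_Icc]
            exact hx.2)]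
        rw [Finset.sum_congr rfl (g := fun _ => H.nb (t + 1))]
        · rw [Finset.sum_const, Nat.card_Icc, smul_eq_mul]
          congr 1
        · intro l hl
          rw [Finset.mem_Icc] at hl
          rw [← H.card_lay t ht x0 (by rw [hb0]; simp) l (by omega)]
          congr 1
          ext x
          simp only [Finset.mem_filter, hmem, Finset.mem_univ, true_and, hb0]
          constructor
          · rintro ⟨⟨h1, _⟩, h3⟩
            exact ⟨h1, h3⟩
          · rintro ⟨h1, h3⟩
            exact ⟨⟨h1, by omega, by omega⟩, h3⟩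
      have hEc : (expl (run F σ w j) ∩ (H.toBlk t β ht).M).card ≤
          (3 * H.T - 2) * X (t + 1) := by
        rw [Finset.card_eq_sum_card_fiberwise (f := H.lay t) (t := Finset.Icc 1 (3 * H.T - 2))
          (by
            intro x hx
            rw [Finset.mem_coe, Finset.mem_inter, hmem] at hx
            rw [Finset.mem_coe, Finset.mem_Icc]
            exact hx.2.2)]
        refine (Finset.sum_le_sum (g := fun _ => X (t + 1)) ?_).trans ?_
        · intro l hl
          refine le_trans ?_ (hj.2 t ht β l)
          refine le_trans (Finset.card_le_card (t := (H.inl t β l (run F σ w j)).image w.lam) ?_)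
            Finset.card_image_le
          intro x hx
          rw [Finset.mem_filter, Finset.mem_inter, hmem, expl_eq, Finset.mem_image] at hx
          obtain ⟨⟨⟨v, hv, rfl⟩, h2, _⟩, h3⟩ := hx
          rw [Finset.mem_image]
          refine ⟨v, ?_, rfl⟩
          unfold Hier.inl
          rw [Finset.mem_filter]
          refine ⟨hv, w.lam v, ?_, h2, h3⟩
          rw [adr_eq, if_pos hv]
        · rw [Finset.sum_const, Nat.card_Icc, smul_eq_mul]
          exact le_of_eq (by congr 1)
      have h1 := hstep (H.toBlk t β ht).M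
      have h2 : (expl (run F σ w (j + 1)) ∩ (H.toBlk t β ht).M).card ≤
          (3 * H.T - 2) * (X (t + 1) + 2) := by
        have : 1 ≤ 3 * H.T - 2 := by omega
        have : 2 ≤ (3 * H.T - 2) * 2 := by omega
        rw [mul_add]
        omega
      have h3 := hX t ht
      have h4 : ((X (t + 1) : ℝ) + 2) ≤ θ * H.nb (t + 1) := by
        refine le_trans ?_ h3
        have h5 : (0 : ℝ) ≤ (X (t + 1) : ℝ) + 2 := by positivity
        nlinarith
      calc ((expl (run F σ w (j + 1)) ∩ (H.toBlk t β ht).M).card : ℝ)
          ≤ (((3 * H.T - 2) * (X (t + 1) + 2) : ℕ) : ℝ) := by exact_mod_cast h2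
        _ = ((3 * H.T - 2 : ℕ) : ℝ) * ((X (t + 1) : ℝ) + 2) := by push_cast; ring
        _ ≤ ((3 * H.T - 2 : ℕ) : ℝ) * (θ * H.nb (t + 1)) :=
          mul_le_mul_of_nonneg_left h4 (by positivity)
        _ = θ * (H.toBlk t β ht).M.card := by
          rw [hMc]; push_cast; ring
  · intro κ hκ b
    have hκ' : ∃ b y, S.cc b y = some κ := by
      simp only [Hier.toBlk, Finset.mem_filter, Finset.mem_univ, true_and] at hκ
      obtain ⟨_, b', y, hy, _⟩ := hκ
      exact ⟨b', y, hy⟩
    obtain ⟨b', y, hy⟩ := hκ'
    have h1 := (hN S F H X σ w j b' y κ hj hy).2 b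
    have h2 := hstep (S.tgt b κ)
    have h3 : (expl (run F σ w (j + 1)) ∩ S.tgt b κ).card ≤ X (H.ty κ + 1) + 2 := by omega
    have h4 := hX (H.ty κ) (H.ty_lt κ)
    have h5 := H.cls_N b' y κ hy
    have h5' : (H.nb (H.ty κ + 1) : ℝ) ≤ 400 * S.N κ := by exact_mod_cast h5
    have h6 : θ * (H.nb (H.ty κ + 1) : ℝ) ≤ θ * (400 * S.N κ) :=
      mul_le_mul_of_nonneg_left h5' hθ
    have h7 : (S.D : ℝ) * (expl (run F σ w (j + 1)) ∩ S.tgt b κ).card ≤
        S.D * ((X (H.ty κ + 1) : ℝ) + 2) := by
      refine mul_le_mul_of_nonneg_left ?_ (by positivity)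
      exact_mod_cast h3
    linarith

end

end Pool.Agent.AcyAd
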