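import Pool.Agent.AcyAd.Targets2

/-!
# MP_08c6cd_lc, fully adaptive testers: the number of descendants (DESC)
-/

namespace Pool.Agent.AcyAd

open scoped Classical
open Pool.Agent.AcyTest

noncomputable section

namespace DESC_

variable {S : Sys} {F : Fx S} (H : Hier S F)

/-- The descendants of `v` up to `n` generations. -/
def ds (t : ℕ) (L : List (En S)) (n : ℕ) (v : S.V) : Finset S.V :=
  (touched L).filter fun u => ∃ j ≤ n, j ≤ H.dep t L u ∧ (par L)^[j] u = v

/-- The children of `v`. -/
def kd (t : ℕ) (L : List (En S)) (v : S.V) : Finset S.V :=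
  (touched L).filter fun u => 0 < H.dep t L u ∧ par L u = v

theorem step (t : ℕ) (L : List (En S)) (n : ℕ) (v : S.V) :
    ds H t L (n + 1) v ⊆ insert v ((kd H t L v).biUnion fun c => ds H t L n c) := by
  intro u hu
  obtain ⟨h1, j, hj, h2, h3⟩ := Finset.mem_filter.1 hu
  rw [Finset.mem_insert, Finset.mem_biUnion]
  rcases Nat.eq_zero_or_pos j with h0 | h0
  · subst h0
    exact Or.inl h3
  · obtain ⟨i, rfl⟩ : ∃ i, j = i + 1 := ⟨j - 1, by omega⟩
    right
    have h4 := H.dep_iter (t := t) (L := L) (v := u) (j := i) (by omega)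
    refine ⟨(par L)^[i] u, ?_, ?_⟩
    · refine Finset.mem_filter.2 ⟨Hier.iter_touched h1 i, by omega, ?_⟩
      rw [← Function.iterate_succ_apply' (par L)]
      exact h3
    · exact Finset.mem_filter.2 ⟨h1, i, by omega, by omega, rfl⟩

theorem bound (t : ℕ) (L : List (En S)) (D : ℕ) (hk : ∀ v, (kd H t L v).card ≤ D) (n : ℕ) :
    ∀ v, (ds H t L n v).card ≤ (D + 1) ^ n := by
  induction n with
  | zero =>
    intro v
    have h : ds H t L 0 v ⊆ {v} := by
      intro u hu
      obtain ⟨_, j, hj, _, h3⟩ := Finset.mem_filter.1 hu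
      obtain rfl : j = 0 := by omega
      exact Finset.mem_singleton.2 h3
    have := Finset.card_le_card h
    simpa using this
  | succ n ih =>
    intro v
    calc (ds H t L (n + 1) v).card
        ≤ (insert v ((kd H t L v).biUnion fun c => ds H t L n c)).card :=
          Finset.card_le_card (step H t L n v)
      _ ≤ ((kd H t L v).biUnion fun c => ds H t L n c).card + 1 := Finset.card_insert_le _ _
      _ ≤ (kd H t L v).card * (D + 1) ^ n + 1 :=
          Nat.add_le_add_right (Finset.card_biUnion_le_card_mul _ _ _ fun c _ => ih c) 1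
      _ ≤ D * (D + 1) ^ n + 1 :=
          Nat.add_le_add_right (Nat.mul_le_mul_right _ (hk v)) 1
      _ ≤ D * (D + 1) ^ n + (D + 1) ^ n :=
          Nat.add_le_add_left (Nat.one_le_pow _ _ (Nat.succ_pos _)) _
      _ = (D + 1) ^ (n + 1) := by ring

end DESC_

/-- DESC: the number of descendants. -/
theorem tDESC (h : T_KID) : T_DESC := fun S F H σ w k t n v =>
  DESC_.bound H t (run F σ w k) (2 * H.dd t) (fun v => h S F H σ w k t v) n v

end

end Pool.Agent.AcyAd
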