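import Pool.Agent.AcyAd.Targets2

/-!
# MP_08c6cd_lc, fully adaptive testers: job ADF-EVC1, events of a small tree
-/

namespace Pool.Agent.AcyAd

open scoped Classical

noncomputable section

namespace EVC1_

variable {S : Sys} {F : Fx S}

theorem halo_empty (H : Hier S F) (n : ℕ) (L : List (En S)) : H.halo n L ∅ = ∅ := by
  ext x
  simp [Hier.halo]

/-- An asked name which was not touched is a root. -/
theorem asked_root (H : Hier S F) {t : ℕ} {L L' : List (En S)} {e : En S}
    (hs : e :: L' <:+ L) (h : e.a.1 ∉ touched L') : H.root t L e.a.1 = e.a.1 := by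
  have h1 : e.a.1 ∈ touched (e :: L') := disc_par_touched
  rw [(H.stable_suffix (t := t) hs h1).2.2, H.root_cons,
    if_neg (fun h' => (disc_iff.1 h').2.1 rfl)]
  exact (H.not_touched h).2.2

/-- Members of a tree which are touched have their root touched. -/
theorem root_tch (H : Hier S F) {t : ℕ} {L L' : List (En S)} {v ρ : S.V}
    (hs : L' <:+ L) (h : v ∈ touched L') (hv : H.root t L v = ρ) : ρ ∈ touched L' := by
  rw [← hv, (H.stable_suffix (t := t) hs h).2.2]
  exact H.root_touched h

theorem inter_empty (H : Hier S F) {t : ℕ} {L L' : List (En S)} {ρ : S.V}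
    (hs : L' <:+ L) (h : ρ ∉ touched L') : H.part t L ρ ∩ touched L' = ∅ := by
  rw [Finset.eq_empty_iff_forall_notMem]
  intro v hv
  rw [Finset.mem_inter, H.mem_part] at hv
  exact h (root_tch H hs hv.2 hv.1.2)

/-- The summand of `hits` at an entry. -/
def inc (Zr : List (En S) → Finset S.V) (Za : List (En S) → Bool → S.Sl → S.Sl → Finset S.V)
    (e : En S) (L : List (En S)) : ℕ :=
  (if e.a.1 ∉ touched L ∧ e.p.1 ∈ Zr L then 1 else 0) +
      (if e.a ∉ known e.b L ∧ S.cc e.b e.p ≠ none ∧ ∃ y, e.r = some y ∧ y.2.1 ∈ Za L e.b e.a e.p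
        then 1 else 0)

theorem hits_cons (Zr : List (En S) → Finset S.V)
    (Za : List (En S) → Bool → S.Sl → S.Sl → Finset S.V) (e : En S) (L : List (En S)) :
    hits Zr Za (e :: L) = hits Zr Za L + inc Zr Za e L := by
  simp only [hits, inc, add_assoc]

/-- The summand before the root is touched. -/
theorem inc_new (H : Hier S F) (n t : ℕ) {L L' : List (En S)} {e : En S} {ρ : S.V}
    (hs : e :: L' <:+ L) (h : ρ ∉ touched L') :
    inc (H.evr n (H.part t L ρ)) (H.eva n t (H.part t L ρ)) e L' ≤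
      (if ρ ∈ touched (e :: L') then 1 else 0) := by
  have hs' : L' <:+ L := (List.suffix_cons _ _).trans hs
  have h1 : H.evr n (H.part t L ρ) L' = ∅ := by
    rw [Hier.evr, inter_empty H hs' h, halo_empty]
  unfold inc
  rw [h1]
  simp only [Finset.notMem_empty, and_false, if_false, zero_add]
  by_cases h2 : e.a ∉ known e.b L' ∧ S.cc e.b e.p ≠ none ∧
      ∃ y, e.r = some y ∧ y.2.1 ∈ H.eva n t (H.part t L ρ) L' e.b e.a e.p
  · obtain ⟨_, _, y, hy, h3⟩ := h2
    unfold Hier.eva at h3
    by_cases h4 : e.a.1 ∈ H.part t L ρ ∧ H.ge t e.b e.p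
    · have h5 : e.a.1 ∉ touched L' := by
        intro h6
        exact h (root_tch H hs' h6 ((H.mem_part).1 h4.1).2)
      have h6 := asked_root H (t := t) hs h5
      rw [((H.mem_part).1 h4.1).2] at h6
      have h7 : ρ ∈ touched (e :: L') := by
        rw [h6]
        exact disc_par_touched
      rw [if_pos h7]
      split_ifs <;> omega
    · rw [if_neg h4, inter_empty H hs' h, halo_empty] at h3
      simp at h3
  · rw [if_neg h2]
    exact Nat.zero_le _

/-- The summands agree after the root is touched. -/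
theorem inc_old (H : Hier S F) (X : ℕ → ℕ) (n s t : ℕ) {L L' : List (En S)} {e : En S} {ρ : S.V}
    (hs : e :: L' <:+ L) (h : ρ ∈ touched L') (hX : H.XB X L') (hρ : ρ ∈ H.roots t L)
    (hc : (H.part t L ρ).card < s) :
    inc (H.evr n (H.part t L ρ)) (H.eva n t (H.part t L ρ)) e L' =
      inc (H.z1r X n s t ρ) (H.z1a X n s t ρ) e L' := by
  have hs' : L' <:+ L := (List.suffix_cons _ _).trans hs
  have hr : ρ ∈ H.roots t L' := by
    rw [H.mem_roots]
    refine ⟨h, ?_⟩
    rw [← (H.stable_suffix (t := t) hs' h).2.2]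
    exact ((H.mem_roots).1 hρ).2
  have hp := H.part_suffix (t := t) hs' ρ
  have hc' : (H.part t L' ρ).card < s := by
    rw [hp]
    exact (Finset.card_le_card Finset.inter_subset_left).trans_lt hc
  have h1 : H.part t L' ρ ∩ touched L' = H.part t L ρ ∩ touched L' := by
    rw [hp, Finset.inter_assoc, Finset.inter_self]
  have h2 : H.z1r X n s t ρ L' = H.evr n (H.part t L ρ) L' := by
    rw [Hier.z1r, if_pos ⟨hX, hr, hc'⟩, Hier.evr, Hier.evr, h1]
  have h3 : e.a.1 ∈ H.part t L ρ ↔ e.a.1 ∈ H.part t L' ρ := by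
    rw [hp, Finset.mem_inter]
    refine ⟨fun h4 => ⟨h4, ?_⟩, fun h4 => h4.1⟩
    by_contra h5
    have h6 := asked_root H (t := t) hs h5
    rw [((H.mem_part).1 h4).2] at h6
    rw [← h6] at h5
    exact h5 h
  have h4 : H.z1a X n s t ρ L' e.b e.a e.p = H.eva n t (H.part t L ρ) L' e.b e.a e.p := by
    rw [Hier.z1a, if_pos ⟨hX, hr, hc'⟩, Hier.eva, Hier.eva, h1]
    by_cases h5 : e.a.1 ∈ H.part t L ρ ∧ H.ge t e.b e.p
    · rw [if_pos h5, if_pos ⟨h3.1 h5.1, h5.2⟩]
    · rw [if_neg h5, if_neg (fun h6 => h5 ⟨h3.2 h6.1, h6.2⟩)]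
  unfold inc
  rw [h2, h4]

end EVC1_

theorem tEVC1 : T_EVC1 := by
  intro S F H X σ w k n s t ρ hX hρ hc
  have key : ∀ L'' : List (En S), L'' <:+ run F σ w k →
      hits (H.evr n (H.part t (run F σ w k) ρ)) (H.eva n t (H.part t (run F σ w k) ρ)) L'' ≤
        hits (H.z1r X n s t ρ) (H.z1a X n s t ρ) L'' + (if ρ ∈ touched L'' then 1 else 0) := by
    intro L''
    induction L'' with
    | nil =>
      intro _
      simp [hits]
    | cons e L' ih =>
      intro hs
      have ih' := ih ((List.suffix_cons _ _).trans hs)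
      rw [EVC1_.hits_cons, EVC1_.hits_cons]
      by_cases h : ρ ∈ touched L'
      · obtain ⟨j, hj, hL, _⟩ := run_suffix_mem σ w hs
        rw [if_pos h] at ih'
        rw [if_pos (touched_mono e L' h), EVC1_.inc_old H X n s t hs h (hL ▸ hX j hj) hρ hc]
        omega
      · rw [if_neg h] at ih'
        have := EVC1_.inc_new H n t hs h
        omega
  have h1 := key _ List.suffix_rfl
  have h2 : (if ρ ∈ touched (run F σ w k) then 1 else 0) ≤ 1 := by split_ifs <;> omega
  unfold Hier.evc
  omega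

end

end Pool.Agent.AcyAd
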