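import Pool.Agent.AcyAd.Targets1

/-!
# An inequality for factorials
-/

namespace Pool.Agent.AcyAd

theorem tFAC : T_FAC := by
  intro n a b θ h0 h1
  induction b with
  | zero =>
    intro _
    simp
  | succ b ih =>
    intro h
    push_cast at h
    have ih' := ih (by push_cast; linarith)
    have hn : (0 : ℝ) ≤ n := Nat.cast_nonneg n
    have ha : (0 : ℝ) ≤ a := Nat.cast_nonneg a
    have hb : (0 : ℝ) ≤ b := Nat.cast_nonneg b
    have h4 : θ * n ≤ n / 4 := by nlinarith
    have hlt : a + (b + 1) ≤ n := by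
      have : ((a + (b + 1) : ℕ) : ℝ) ≤ n := by
        push_cast
        linarith
      exact_mod_cast this
    obtain ⟨m, hm⟩ := Nat.exists_eq_add_of_le hlt
    have e1 : n - (a + b) = m + 1 := by omega
    have e2 : n - (a + (b + 1)) = m := by omega
    have e3 : n - b = (n - (b + 1)) + 1 := by omega
    rw [e1, e3, Nat.factorial_succ, Nat.factorial_succ] at ih'
    rw [e2]
    have e4 : ((n - (b + 1) : ℕ) : ℝ) = n - (b + 1) := by
      rw [Nat.cast_sub (by omega)]
      push_cast
      ring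
    have e5 : (m : ℝ) = n - a - b - 1 := by
      rw [hm]
      push_cast
      ring
    push_cast at ih' ⊢
    rw [e4] at ih'
    set P : ℝ := (m.factorial : ℝ) * n.factorial with hP
    set Q : ℝ := ((n - a).factorial : ℝ) * (n - (b + 1)).factorial with hQ
    have hQ0 : 0 ≤ Q := by positivity
    have k1 : (m + 1 : ℝ) * P ≤ Real.exp (2 * θ * b) * Q * (n - b) := by
      calc (m + 1 : ℝ) * P = (m + 1 : ℝ) * m.factorial * n.factorial := by rw [hP]; ring
        _ ≤ _ := ih'
        _ = _ := by rw [hQ]; ring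
    have k2 : (n - b : ℝ) ≤ Real.exp (2 * θ) * (m + 1) := by
      have h5 : 2 * θ + 1 ≤ Real.exp (2 * θ) := Real.add_one_le_exp _
      have h6 : (0 : ℝ) ≤ m + 1 := by positivity
      have h7 : (n : ℝ) / 2 ≤ m + 1 := by linarith
      have h8 : (2 * θ + 1) * (m + 1 : ℝ) ≤ Real.exp (2 * θ) * (m + 1) := by gcongr
      have h9 : 2 * θ * (n / 2 : ℝ) ≤ 2 * θ * (m + 1) := by gcongr
      linarith
    have k3 : (m + 1 : ℝ) * P ≤ (m + 1 : ℝ) * (Real.exp (2 * θ * (b + 1)) * Q) := by
      calc (m + 1 : ℝ) * P ≤ Real.exp (2 * θ * b) * Q * (n - b) := k1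
        _ ≤ Real.exp (2 * θ * b) * Q * (Real.exp (2 * θ) * (m + 1)) := by gcongr
        _ = _ := by
          rw [show 2 * θ * (b + 1 : ℝ) = 2 * θ * b + 2 * θ by ring, Real.exp_add]
          ring
    exact le_of_mul_le_mul_left k3 (by positivity)

end Pool.Agent.AcyAd
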