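import Pool.Agent.AcyAd.Targets1

/-!
# MP_08c6cd_lc, ADU-FOR: paths of large rank are rare for the second copy
-/

namespace Pool.Agent.AcyAd

open scoped Classical

noncomputable section

namespace FOR_

variable {S : Sys} {F : Fx S}

theorem sol_run2 (B : Blk S F) (w0 : World S) (g : Gs S) (σ : Player S) (w1 w2 : World S)
    (k : ℕ) : sol B w0 g w2 (run2 (F := F) B w0 g σ w1 w2 k) := by
  induction k with
  | zero => trivial
  | succ k ih =>
    refine ⟨ih, ?_⟩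
    intro hc
    unfold ans2
    rw [if_neg hc.1, if_neg (not_not.2 hc.2.1), if_pos hc]

theorem card_filter_eq {α : Type} [Fintype α] (P : α → Prop) [DecidablePred P] :
    Nat.card {a : α // P a} = (Finset.univ.filter P).card := by
  rw [Nat.card_eq_fintype_card, Fintype.card_subtype]

end FOR_

open FOR_ in
/-- FOR: paths of large rank are rare for the second copy. -/
theorem tFOR (h1 : T_COUNT) (h2 : T_TSUM) : T_FOR := by
  intro S F B w0 g σ w1 mu k h y u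
  have : Fintype (RX B) := Fintype.ofFinite _
  set ρ : ℝ := (((S.D - B.th' : ℕ) : ℝ) / (S.D - B.th - 1 : ℕ)) ^ (h * y) with hρ
  have hρ0 : 0 ≤ ρ := by positivity
  have hcard0 : (0 : ℝ) ≤ Nat.card (RX B) := Nat.cast_nonneg _
  rw [card_filter_eq]
  set A : Finset (RX B) := Finset.univ.filter fun p : RX B =>
    nice2 B w0 g (run2 (F := F) B w0 g σ w1 (mix w0 ⟨p.1, p.2, mu⟩) k) ∧
    paths2 B w0 g (mix w0 ⟨p.1, p.2, mu⟩) h y u
      (run2 (F := F) B w0 g σ w1 (mix w0 ⟨p.1, p.2, mu⟩) k) with hA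
  set 𝓛 : Finset (List (VE S)) := A.image fun p : RX B =>
    run2 (F := F) B w0 g σ w1 (mix w0 ⟨p.1, p.2, mu⟩) k with h𝓛
  have hmem : ∀ L ∈ 𝓛, nice2 B w0 g L ∧
      ∃ p : RX B, run2 (F := F) B w0 g σ w1 (mix w0 ⟨p.1, p.2, mu⟩) k = L := by
    intro L hL
    rw [h𝓛, Finset.mem_image] at hL
    obtain ⟨p, hp, rfl⟩ := hL
    rw [hA, Finset.mem_filter] at hp
    exact ⟨hp.2.1, p, rfl⟩
  have hsub : A ⊆ 𝓛.biUnion fun L => Finset.univ.filter fun p : RX B =>
      sol B w0 g (mix w0 ⟨p.1, p.2, mu⟩) L ∧ paths2 B w0 g (mix w0 ⟨p.1, p.2, mu⟩) h y u L := by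
    intro p hp
    rw [Finset.mem_biUnion]
    refine ⟨run2 (F := F) B w0 g σ w1 (mix w0 ⟨p.1, p.2, mu⟩) k,
      Finset.mem_image_of_mem _ hp, ?_⟩
    rw [hA, Finset.mem_filter] at hp
    rw [Finset.mem_filter]
    exact ⟨Finset.mem_univ _, sol_run2 B w0 g σ w1 _ k, hp.2.2⟩
  have hle : (A.card : ℝ) ≤ ∑ L ∈ 𝓛, ((Finset.univ.filter fun p : RX B =>
      sol B w0 g (mix w0 ⟨p.1, p.2, mu⟩) L ∧
      paths2 B w0 g (mix w0 ⟨p.1, p.2, mu⟩) h y u L).card : ℝ) := by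
    exact_mod_cast (Finset.card_le_card hsub).trans Finset.card_biUnion_le
  refine hle.trans ?_
  have hL : ∀ L ∈ 𝓛, ((Finset.univ.filter fun p : RX B =>
      sol B w0 g (mix w0 ⟨p.1, p.2, mu⟩) L ∧
      paths2 B w0 g (mix w0 ⟨p.1, p.2, mu⟩) h y u L).card : ℝ) ≤
      wt B w0 g L * (ρ * Nat.card (RX B)) := by
    intro L hL
    have := h1 S F B w0 g mu h y u L (hmem L hL).1
    rw [card_filter_eq] at this
    rw [← mul_assoc]
    exact this
  refine (Finset.sum_le_sum hL).trans ?_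
  rw [← Finset.sum_mul]
  have hT := h2 S F B w0 g σ w1 mu k 𝓛 hmem
  calc (∑ L ∈ 𝓛, wt B w0 g L) * (ρ * Nat.card (RX B)) ≤ 1 * (ρ * Nat.card (RX B)) :=
        mul_le_mul_of_nonneg_right hT (mul_nonneg hρ0 hcard0)
    _ = _ := one_mul _

end

end Pool.Agent.AcyAd
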