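import Pool.Agent.AcyAd.Targets3

/-!
# MP_08c6cd_lc, fully adaptive testers: the digraph of a world is acyclic
-/

namespace Pool.Agent.AcyAd

open scoped Classical
open Pool.Agent.AcyTest

noncomputable section

namespace GACY_

/-- The number of vertices from which `v` can be reached. -/
def rank {V : Type} [Fintype V] (N : V → V → Prop) (v : V) : ℕ :=
  (Finset.univ.filter fun u => Relation.TransGen N u v).card

theorem rank_lt {V : Type} [Fintype V] {N : V → V → Prop} (hN : AcyR N) {v v' : V} (h : N v v') :
    rank N v < rank N v' := by
  unfold rank
  refine Finset.card_lt_card ?_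
  rw [Finset.ssubset_iff_of_subset]
  · refine ⟨v, ?_, ?_⟩
    · simp only [Finset.mem_filter, Finset.mem_univ, true_and]
      exact Relation.TransGen.single h
    · simp only [Finset.mem_filter, Finset.mem_univ, true_and]
      exact hN v
  · intro u hu
    simp only [Finset.mem_filter, Finset.mem_univ, true_and] at hu ⊢
    exact hu.tail h

/-- A function which increases along every edge of the digraph. -/
def key {S : Sys} (rk : S.V → ℕ) (s : ℕ) : GV S s → ℕ
  | .inl (v, b, i) => rk v * (2 * S.D) + (if b then S.D + i.1 else S.D - 1 - i.1)
  | .inr _ => 0

theorem two_eq {X : Type} {d : ℕ} {a b : Option X} {i : Fin d} {x : X}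
    (h : two a b i = some x) : a = some x ∨ b = some x := by
  unfold two at h
  split_ifs at h
  · exact Or.inl h
  · exact Or.inr h
  · exact Or.inr h

theorem key_lt {S : Sys} {F : Fx S} {w : World S} {s d : ℕ} {L : DG (GV S s) d}
    (hL : IsGad F w s d L) (rk : S.V → ℕ)
    (hrk : ∀ v v', (∃ i i', w.ask F true (v, i) = some (v', i')) → rk v < rk v') {x y : GV S s}
    (h : L.E x y) : key rk s x < key rk s y := by
  obtain ⟨j, hj⟩ := h
  have h1 := hL (true, x, j)
  have h2 : L.ans (true, x, j) = L.out x j := rfl
  rw [h2, hj] at h1
  rcases x with ⟨v, b, i⟩ | x
  · cases b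
    · have h3 : two (some (pvs v false i)) none j = some y := by
        simpa [qans] using h1.symm
      rcases two_eq h3 with h4 | h4
      · have h5 := Option.some.inj h4
        subst h5
        unfold pvs
        have hi := i.2
        split_ifs with h0
        · simp only [key, Bool.not_false, if_true]
          simp only [Bool.false_eq_true, if_false]
          omega
        · simp only [key, Bool.false_eq_true, if_false]
          omega
      · cases h4
    · have h3 : two (nxs v true i) ((w.ask F true (v, i)).map (exv false)) j = some y := by
        simpa [qans, qask] using h1.symm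
      rcases two_eq h3 with h4 | h4
      · unfold nxs at h4
        split_ifs at h4 with h0
        have h5 := Option.some.inj h4
        subst h5
        simp only [key, if_true]
        omega
      · rw [Option.map_eq_some_iff] at h4
        obtain ⟨⟨v', i'⟩, h5, rfl⟩ := h4
        have h6 := hrk v v' ⟨i, i', h5⟩
        simp only [key, exv, if_true, Bool.false_eq_true, if_false]
        have h7 : (rk v + 1) * (2 * S.D) ≤ rk v' * (2 * S.D) := Nat.mul_le_mul_right _ h6
        rw [Nat.add_mul, Nat.one_mul] at h7
        have hi := i.2
        omega
  · simp [qans] at h1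

end GACY_

open GACY_ in
theorem tGACY : T_GACY := by
  intro S F w s d L _ hL hN v hv
  have hlt : ∀ x y, Relation.TransGen L.E x y →
      key (rank fun v v' => ∃ i i', w.ask F true (v, i) = some (v', i')) s x <
        key (rank fun v v' => ∃ i i', w.ask F true (v, i) = some (v', i')) s y := by
    intro x y hxy
    induction hxy with
    | single h => exact key_lt hL _ (fun v v' h => rank_lt hN h) h
    | tail _ h ih => exact ih.trans (key_lt hL _ (fun v v' h => rank_lt hN h) h)
  exact lt_irrefl _ (hlt v v hv)

end

end Pool.Agent.AcyAd
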