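import Pool.Agent.AcyAd.Targets3

/-!
# MP_08c6cd_lc, fully adaptive testers: ADC-GEX, the digraph of a world exists
-/

namespace Pool.Agent.AcyAd

open scoped Classical
open Pool.Agent.AcyTest

noncomputable section

namespace GEX_

theorem two_mem {X : Type} {d : ℕ} (hd : 2 ≤ d) (a b : Option X) (u : X) :
    (∃ i : Fin d, two a b i = some u) ↔ a = some u ∨ b = some u := by
  constructor
  · rintro ⟨i, hi⟩
    unfold two at hi
    split_ifs at hi
    · exact Or.inl hi
    · exact Or.inr hi
    · exact Or.inr hi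
  · intro h
    rcases h with h | h
    · exact ⟨⟨0, by omega⟩, by simp [two, h]⟩
    · by_cases ha : a.isSome
      · exact ⟨⟨1, by omega⟩, by simp [two, ha, h]⟩
      · exact ⟨⟨0, by omega⟩, by simp [two, ha, h]⟩

theorem two_inj {X : Type} {d : ℕ} {a b : Option X} (hab : ∀ u, a = some u → b ≠ some u)
    (i j : Fin d) (u : X) (hi : two a b i = some u) (hj : two a b j = some u) : i = j := by
  unfold two at hi hj
  apply Fin.ext
  split_ifs at hi hj <;> first | omega | (exfalso; simp_all)

theorem two_mono {X : Type} {d : ℕ} {a b : Option X} (i j : Fin d) (hij : i ≤ j)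
    (h : (two a b j).isSome) : (two a b i).isSome := by
  have hij' : i.1 ≤ j.1 := hij
  unfold two at h ⊢
  split_ifs at h ⊢ <;> first | assumption | omega | simp_all

variable {S : Sys} (F : Fx S) (w : World S) (s : ℕ)

/-- the chain neighbour -/
def r1 (c : Bool) (u : GV S s) : Option (GV S s) :=
  match u with
  | .inl (v, b, i) => if c = b then nxs v b i else some (pvs v b i)
  | .inr _ => none

/-- the outer neighbour -/
def r2 (c : Bool) (u : GV S s) : Option (GV S s) :=
  match u with
  | .inl (v, b, i) => if c = b then (w.ask F b (v, i)).map (exv (!b)) else none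
  | .inr _ => none

theorem nxs_iff (v v' : S.V) (b b' : Bool) (i i' : Fin S.D) :
    nxs (s := s) v b i = some (.inl (v', b', i')) ↔ v = v' ∧ b = b' ∧ i.1 + 1 = i'.1 := by
  unfold nxs
  split_ifs with h
  · simp [Fin.ext_iff]
  · have := i'.2
    simp only [false_iff]
    rintro ⟨_, _, h3⟩
    omega

theorem pvs_iff (v v' : S.V) (b b' : Bool) (i i' : Fin S.D) :
    pvs (s := s) v b i = .inl (v', b', i') ↔
      v = v' ∧ ((i.1 = 0 ∧ (!b) = b' ∧ i'.1 = 0) ∨ (i.1 ≠ 0 ∧ b = b' ∧ i.1 = i'.1 + 1)) := by
  unfold pvs
  split_ifs with h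
  · simp only [Sum.inl.injEq, Prod.mk.injEq, Fin.ext_iff]
    constructor
    · rintro ⟨h1, h2, h3⟩
      exact ⟨h1, Or.inl ⟨h, h2, by omega⟩⟩
    · rintro ⟨h1, ⟨_, h2, h3⟩ | ⟨h2, _⟩⟩
      · exact ⟨h1, h2, by omega⟩
      · exact absurd h h2
  · simp only [Sum.inl.injEq, Prod.mk.injEq, Fin.ext_iff]
    constructor
    · rintro ⟨h1, h2, h3⟩
      exact ⟨h1, Or.inr ⟨h, h2, by omega⟩⟩
    · rintro ⟨h1, ⟨h2, _⟩ | ⟨_, h2, h3⟩⟩
      · exact absurd h2 h
      · exact ⟨h1, h2, by omega⟩

theorem ext_iff' (o : Option S.Sl) (b : Bool) (v' : S.V) (b' : Bool) (i' : Fin S.D) :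
    o.map (exv (s := s) b) = some (.inl (v', b', i')) ↔ b = b' ∧ o = some (v', i') := by
  rw [Option.map_eq_some_iff]
  constructor
  · rintro ⟨y, rfl, h⟩
    simp only [exv, Sum.inl.injEq, Prod.mk.injEq] at h
    obtain ⟨h1, h2, h3⟩ := h
    exact ⟨h2, by rw [← h1, ← h3]⟩
  · rintro ⟨h1, h2⟩
    exact ⟨_, h2, by rw [h1]; rfl⟩

theorem not_inr1 (c : Bool) (u : GV S s) (j : Fin s) : r1 s c u ≠ some (.inr j) := by
  rcases u with ⟨v, b, i⟩ | k
  · simp only [r1, nxs, pvs]
    split_ifs <;> simp
  · simp [r1]

theorem not_inr2 (c : Bool) (u : GV S s) (j : Fin s) : r2 F w s c u ≠ some (.inr j) := by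
  rcases u with ⟨v, b, i⟩ | k
  · simp only [r2]
    split_ifs
    · rw [ne_eq, Option.map_eq_some_iff]
      rintro ⟨y, _, h⟩
      simp [exv] at h
    · simp
  · simp [r2]

/-- the two neighbours are different -/
theorem ne12 (c : Bool) (u x : GV S s) (h : r1 s c u = some x) : r2 F w s c u ≠ some x := by
  rcases u with ⟨v, b, i⟩ | k
  · rcases x with ⟨v', b', i'⟩ | k'
    · simp only [r1] at h
      simp only [r2]
      split_ifs at h ⊢ with hc
      · rw [nxs_iff] at h
        rw [ne_eq, ext_iff']
        rintro ⟨h1, _⟩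
        rw [← h.2.1] at h1
        simp at h1
      · simp
    · exact absurd h (not_inr1 s c _ _)
  · simp [r1] at h

/-- compatibility of the out- and in-neighbours -/
theorem compat (u x : GV S s) : (r1 s true u = some x ∨ r2 F w s true u = some x) ↔
    (r1 s false x = some u ∨ r2 F w s false x = some u) := by
  rcases u with ⟨v, b, i⟩ | k
  · rcases x with ⟨v', b', i'⟩ | k'
    · cases b <;> cases b'
      · simp only [r1, r2, Bool.true_eq_false, if_false, if_true, Option.some.injEq, pvs_iff,
          nxs_iff, ext_iff', reduceCtorEq, or_false, Bool.not_false, false_and, and_false,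
          true_and, false_or]
        constructor
        · rintro ⟨h1, h2, h3⟩
          exact ⟨h1.symm, h3.symm⟩
        · rintro ⟨h1, h2⟩
          exact ⟨h1.symm, by omega, h2.symm⟩
      · simp only [r1, r2, Bool.true_eq_false, Bool.false_eq_true, if_false, Option.some.injEq,
          pvs_iff, reduceCtorEq, or_false, Bool.not_false, Bool.not_true, false_and, and_false,
          true_and]
        constructor
        · rintro ⟨h1, h2, h3⟩
          exact ⟨h1.symm, h3, h2⟩
        · rintro ⟨h1, h2, h3⟩
          exact ⟨h1.symm, h3, h2⟩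
      · simp only [r1, r2, if_true, nxs_iff, ext_iff', Bool.true_eq_false, Bool.false_eq_true,
          Bool.not_true, Bool.not_false, false_and, and_false, true_and, false_or]
        constructor
        · intro h
          exact w.ask_inv h
        · intro h
          exact w.ask_inv h
      · simp only [r1, r2, if_true, nxs_iff, ext_iff', Bool.false_eq_true,
          Bool.not_true, false_and, and_false, true_and, or_false,
          if_false, Option.some.injEq, pvs_iff, reduceCtorEq, false_or]
        constructor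
        · rintro ⟨h1, h2⟩
          exact ⟨h1.symm, by omega, h2.symm⟩
        · rintro ⟨h1, h2, h3⟩
          exact ⟨h1.symm, h3.symm⟩
    · constructor
      · rintro (h | h)
        · exact absurd h (not_inr1 s _ _ _)
        · exact absurd h (not_inr2 F w s _ _ _)
      · rintro (h | h) <;> simp [r1, r2] at h
  · constructor
    · rintro (h | h) <;> simp [r1, r2] at h
    · rintro (h | h)
      · exact absurd h (not_inr1 s _ _ _)
      · exact absurd h (not_inr2 F w s _ _ _)

/-- no loops -/
theorem loopless (u : GV S s) : ¬ (r1 s true u = some u ∨ r2 F w s true u = some u) := by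
  rcases u with ⟨v, b, i⟩ | k
  · cases b
    · simp only [r1, r2, Bool.true_eq_false, if_false, Option.some.injEq, pvs_iff, reduceCtorEq,
        or_false]
      rintro ⟨_, ⟨_, h, _⟩ | ⟨_, _, h⟩⟩
      · simp at h
      · omega
    · simp only [r1, r2, if_true, nxs_iff, ext_iff']
      rintro (⟨_, _, h⟩ | ⟨h, _⟩)
      · omega
      · simp at h
  · simp [r1, r2]

/-- the digraph -/
def gad (d : ℕ) (hd : 2 ≤ d) : DG (GV S s) d where
  out u i := two (r1 s true u) (r2 F w s true u) i
  inn u i := two (r1 s false u) (r2 F w s false u) i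
  out_inj u i j x hi hj := two_inj (fun y hy => ne12 F w s true u y hy) i j x hi hj
  inn_inj u i j x hi hj := two_inj (fun y hy => ne12 F w s false u y hy) i j x hi hj
  out_mono u i j hij h := two_mono i j hij h
  inn_mono u i j hij h := two_mono i j hij h
  compat u x := by
    rw [two_mem hd, two_mem hd]
    exact compat F w s u x
  loopless u i h := loopless F w s u ((two_mem hd _ _ _).1 ⟨i, h⟩)

theorem qans_eq (d : ℕ) (x : Query (GV S s) d) :
    qans S s d x (match qask S s d x with
      | some a => w.ask F a.1 a.2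
      | none => none) = two (r1 s x.1 x.2.1) (r2 F w s x.1 x.2.1) x.2.2 := by
  obtain ⟨c, u, i⟩ := x
  rcases u with ⟨v, b, k⟩ | k
  · by_cases hc : c = b
    · simp [qans, qask, r1, r2, hc]
    · simp [qans, r1, r2, hc]
  · simp [qans, r1, r2, two]

end GEX_

open GEX_ in
theorem tGEX : T_GEX := by
  intro S F w s d hd
  refine ⟨gad F w s d hd, fun x => Eq.trans ?_ (qans_eq F w s d x).symm⟩
  obtain ⟨c, u, i⟩ := x
  cases c <;> rfl

end

end Pool.Agent.AcyAd
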