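import Pool.Agent.AcyAd.Targets3

/-!
# MP_08c6cd_lc, fully adaptive testers: the feedback arcs of the digraph of a world
-/

set_option autoImplicit false

namespace Pool.Agent.AcyAd

open scoped Classical
open Pool.Agent.AcyTest

noncomputable section

namespace GFAS_

variable {S : Sys} {F : Fx S} {w : World S} {s d : ℕ} {L : DG (GV S s) d}

/-- The edge from the in-chain to the out-chain. -/
theorem e_join (hd : 2 ≤ d) (hL : IsGad F w s d L) (v : S.V) (i : Fin S.D) (hi : i.1 = 0) :
    L.E (.inl (v, false, i)) (.inl (v, true, i)) := by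
  refine ⟨⟨0, by omega⟩, ?_⟩
  have h := hL (true, .inl (v, false, i), ⟨0, by omega⟩)
  simp only [DG.ans, if_true, qans, Bool.true_eq_false, if_false, two, pvs, hi] at h
  rw [h]
  simp

/-- The out-chain. -/
theorem e_out (hd : 2 ≤ d) (hL : IsGad F w s d L) (v : S.V) (i : Fin S.D) (hi : i.1 + 1 < S.D) :
    L.E (.inl (v, true, i)) (.inl (v, true, ⟨i.1 + 1, hi⟩)) := by
  refine ⟨⟨0, by omega⟩, ?_⟩
  have h := hL (true, .inl (v, true, i), ⟨0, by omega⟩)
  simp only [DG.ans, if_true, qans, two, nxs, hi, dite_true] at h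
  rw [h]
  simp

/-- The in-chain. -/
theorem e_in (hd : 2 ≤ d) (hL : IsGad F w s d L) (v : S.V) (i : Fin S.D) (hi : i.1 + 1 < S.D) :
    L.E (.inl (v, false, ⟨i.1 + 1, hi⟩)) (.inl (v, false, i)) := by
  refine ⟨⟨0, by omega⟩, ?_⟩
  have h := hL (true, .inl (v, false, ⟨i.1 + 1, hi⟩), ⟨0, by omega⟩)
  simp only [DG.ans, if_true, qans, Bool.true_eq_false, if_false, two, pvs] at h
  rw [h]
  simp

/-- The external edges. -/
theorem e_ext (hd : 2 ≤ d) (hL : IsGad F w s d L) {v v' : S.V} {i i' : Fin S.D}
    (h : w.ask F true (v, i) = some (v', i')) :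
    L.E (.inl (v, true, i)) (.inl (v', false, i')) := by
  by_cases hi : i.1 + 1 < S.D
  · refine ⟨⟨1, by omega⟩, ?_⟩
    have h1 := hL (true, .inl (v, true, i), ⟨1, by omega⟩)
    simp only [DG.ans, if_true, qans, qask, two, nxs, hi, dite_true, h] at h1
    rw [h1]
    simp [exv]
  · refine ⟨⟨0, by omega⟩, ?_⟩
    have h1 := hL (true, .inl (v, true, i), ⟨0, by omega⟩)
    simp only [DG.ans, if_true, qans, qask, two, nxs, hi, dite_false, h] at h1
    rw [h1]
    simp [exv]

/-- The owner of an edge: a name, on the out-side or on the in-side. -/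
def own (g : GV S s × GV S s) : Option (Bool × S.V) :=
  match g.1, g.2 with
  | .inl (v, true, _), _ => some (true, v)
  | .inl (v, false, _), .inl (_, true, _) => some (true, v)
  | .inl (v, false, _), .inl (_, false, _) => some (false, v)
  | _, _ => none

/-- The path between the first vertices of two names. -/
theorem path (hd : 2 ≤ d) (hL : IsGad F w s d L) {v v' : S.V} {i i' : Fin S.D}
    (h : w.ask F true (v, i) = some (v', i')) (h0 : 0 < S.D) (Fr : GV S s → GV S s → Prop)
    (hFr : ∀ g : GV S s × GV S s, L.E g.1 g.2 → (own g = some (true, v) ∨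
      own g = some (false, v')) → Fr g.1 g.2) :
    Relation.TransGen Fr (.inl (v, false, ⟨0, h0⟩)) (.inl (v', false, ⟨0, h0⟩)) := by
  have h1 : Relation.TransGen Fr (.inl (v, false, ⟨0, h0⟩)) (.inl (v, true, ⟨0, h0⟩)) :=
    Relation.TransGen.single (hFr (_, _) (e_join hd hL v ⟨0, h0⟩ rfl) (Or.inl rfl))
  have h2 : ∀ (n : ℕ) (hn : n < S.D),
      Relation.TransGen Fr (.inl (v, false, ⟨0, h0⟩)) (.inl (v, true, ⟨n, hn⟩)) := by
    intro n
    induction n with
    | zero => exact fun _ => h1
    | succ n ih =>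
      intro hn
      exact (ih (by omega)).tail
        (hFr (_, _) (e_out hd hL v ⟨n, by omega⟩ hn) (Or.inl rfl))
  have h3 : Relation.TransGen Fr (.inl (v, false, ⟨0, h0⟩)) (.inl (v', false, i')) :=
    (h2 i.1 i.2).tail (hFr (_, _) (e_ext hd hL h) (Or.inl rfl))
  have h4 : ∀ (n : ℕ) (hn : n < S.D), n ≤ i'.1 →
      Relation.TransGen Fr (.inl (v, false, ⟨0, h0⟩))
        (.inl (v', false, ⟨i'.1 - n, by omega⟩)) := by
    intro n
    induction n with
    | zero => exact fun _ _ => h3
    | succ n ih =>
      intro hn hni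
      have h5 := ih (by omega) (by omega)
      have h6 := e_in hd hL v' ⟨i'.1 - (n + 1), by omega⟩ (by
        show i'.1 - (n + 1) + 1 < S.D
        omega)
      have h7 : (⟨i'.1 - (n + 1) + 1, by omega⟩ : Fin S.D) = ⟨i'.1 - n, by omega⟩ := by
        apply Fin.ext
        show i'.1 - (n + 1) + 1 = i'.1 - n
        omega
      simp only [h7] at h6
      exact h5.tail (hFr (_, _) h6 (Or.inr rfl))
  have h5 := h4 i'.1 i'.2 le_rfl
  simpa using h5

end GFAS_

open GFAS_

theorem tGFAS : T_GFAS := by
  intro S F w s d L x E₀ hd hL hout hin hx Fr hFr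
  rcases Nat.eq_zero_or_pos S.D with h0 | h0
  · -- no slots
    have h1 := hx (fun _ _ => False) (by
      intro v hv
      obtain ⟨_, _, h⟩ := Relation.TransGen.tail'_iff.1 hv
      exact h)
    have h2 : {p : S.V × S.V | (∃ i i', E₀ (p.1, i) ∧ w.ask F true (p.1, i) = some (p.2, i')) ∧
        ¬ False} = ∅ := by
      ext p
      simp only [Set.mem_ofPred_eq, Set.mem_empty_iff_false, iff_false, not_and]
      rintro ⟨i, _⟩
      exact absurd i.2 (by omega)
    rw [h2, Set.ncard_empty] at h1
    have h3 : (0 : ℝ) ≤ (Set.ncard {p : GV S s × GV S s | L.E p.1 p.2 ∧ ¬ Fr p.1 p.2} : ℝ) :=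
      Nat.cast_nonneg _
    push_cast at h1
    linarith
  obtain ⟨v₀, hv₀⟩ : ∃ v₀ : S.V → GV S s, v₀ = fun v => .inl (v, false, ⟨0, h0⟩) := ⟨_, rfl⟩
  obtain ⟨E, hE⟩ : ∃ E : S.V → S.V → Prop,
    E = fun v v' => ∃ i i', E₀ (v, i) ∧ w.ask F true (v, i) = some (v', i') := ⟨_, rfl⟩
  rw [← hE] at hx
  have hx1 := hx (fun v v' => Relation.TransGen Fr (v₀ v) (v₀ v')) (by
    intro v hv
    exact hFr (v₀ v) (Relation.TransGen.lift' v₀ (fun _ _ h => h) v v hv))
  -- the chosen edge
  have hch : ∀ p : S.V × S.V, ∃ g : GV S s × GV S s,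
      E p.1 p.2 ∧ ¬ Relation.TransGen Fr (v₀ p.1) (v₀ p.2) → L.E g.1 g.2 ∧ ¬ Fr g.1 g.2 ∧
        (own g = some (true, p.1) ∨ own g = some (false, p.2)) := by
    rintro ⟨v, v'⟩
    by_cases h12 : E v v' ∧ ¬ Relation.TransGen Fr (v₀ v) (v₀ v')
    swap
    · exact ⟨(v₀ v, v₀ v'), fun h => absurd h h12⟩
    obtain ⟨h1, h2⟩ := h12
    suffices h : ∃ g : GV S s × GV S s, L.E g.1 g.2 ∧ ¬ Fr g.1 g.2 ∧
        (own g = some (true, v) ∨ own g = some (false, v')) by
      obtain ⟨g, hg⟩ := h
      exact ⟨g, fun _ => hg⟩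
    by_contra h3
    push Not at h3
    rw [hE] at h1
    obtain ⟨i, i', _, h4⟩ := h1
    rw [hv₀] at h2
    refine h2 (path hd hL h4 h0 Fr ?_)
    intro g hg hog
    by_contra h5
    rcases hog with h6 | h6
    · exact (h3 g hg h5).1 h6
    · exact (h3 g hg h5).2 h6
  choose g hg using hch
  have hg1 := fun p h => (hg p h).1
  have hg2 := fun p h => (hg p h).2.1
  have hg3 := fun p h => (hg p h).2.2
  have hcount : (Finset.univ.filter fun p : S.V × S.V =>
      E p.1 p.2 ∧ ¬ Relation.TransGen Fr (v₀ p.1) (v₀ p.2)).card ≤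
      2 * (Finset.univ.filter fun p : GV S s × GV S s => L.E p.1 p.2 ∧ ¬ Fr p.1 p.2).card := by
    refine Finset.card_le_mul_card_image_of_maps_to (f := g) ?_ 2 ?_
    · intro p hp
      simp only [Finset.mem_filter, Finset.mem_univ, true_and] at hp ⊢
      exact ⟨hg1 p hp, hg2 p hp⟩
    · intro e _
      rcases hoe : own e with _ | ⟨b, u⟩
      · rw [Finset.card_eq_zero.2]
        · omega
        · rw [Finset.filter_eq_empty_iff]
          intro p hp hpe
          simp only [Finset.mem_filter, Finset.mem_univ, true_and] at hp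
          have := hg3 p hp
          rw [hpe, hoe] at this
          simp at this
      · cases b
        · -- the in-side
          refine le_trans ?_ (hin u)
          refine le_trans (Finset.card_le_card ?_) (Finset.card_image_le
            (f := fun i' : Fin S.D => (((w.ask F false (u, i')).getD (u, i')).1, u)))
          intro p hp
          simp only [Finset.mem_filter, Finset.mem_univ, true_and] at hp
          obtain ⟨hp, hpe⟩ := hp
          have h1 := hg3 p hp
          rw [hpe, hoe] at h1
          simp only [Option.some.injEq, Prod.mk.injEq, Bool.false_eq_true, false_and,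
            true_and, false_or] at h1
          obtain ⟨v, v'⟩ := p
          simp only at h1
          subst h1
          have h2 := hp.1
          rw [hE] at h2
          obtain ⟨i, i', h3, h4⟩ := h2
          rw [Finset.mem_image]
          refine ⟨i', ?_, ?_⟩
          · simp only [Finset.mem_filter, Finset.mem_univ, true_and]
            exact ⟨_, h3, h4⟩
          · have h5 := w.ask_inv h4
            simp only [Bool.not_true] at h5
            rw [h5]
            rfl
        · -- the out-side
          refine le_trans ?_ (hout u)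
          refine le_trans (Finset.card_le_card ?_) (Finset.card_image_le
            (f := fun i : Fin S.D => (u, ((w.ask F true (u, i)).getD (u, i)).1)))
          intro p hp
          simp only [Finset.mem_filter, Finset.mem_univ, true_and] at hp
          obtain ⟨hp, hpe⟩ := hp
          have h1 := hg3 p hp
          rw [hpe, hoe] at h1
          simp only [Option.some.injEq, Prod.mk.injEq, Bool.true_eq_false, false_and,
            true_and, or_false] at h1
          obtain ⟨v, v'⟩ := p
          simp only at h1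
          subst h1
          have h2 := hp.1
          rw [hE] at h2
          obtain ⟨i, i', h3, h4⟩ := h2
          rw [Finset.mem_image]
          refine ⟨i, ?_, ?_⟩
          · simp only [Finset.mem_filter, Finset.mem_univ, true_and]
            exact h3
          · rw [h4]
            rfl
  have h1 : (Set.ncard {p : S.V × S.V | E p.1 p.2 ∧
      ¬ Relation.TransGen Fr (v₀ p.1) (v₀ p.2)}) = (Finset.univ.filter fun p : S.V × S.V =>
      E p.1 p.2 ∧ ¬ Relation.TransGen Fr (v₀ p.1) (v₀ p.2)).card := by
    rw [← Set.ncard_coe_finset]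
    congr 1
    ext p
    simp
  have h2 : (Set.ncard {p : GV S s × GV S s | L.E p.1 p.2 ∧ ¬ Fr p.1 p.2}) =
      (Finset.univ.filter fun p : GV S s × GV S s => L.E p.1 p.2 ∧ ¬ Fr p.1 p.2).card := by
    rw [← Set.ncard_coe_finset]
    congr 1
    ext p
    simp
  rw [h1] at hx1
  rw [h2]
  have h3 : (((Finset.univ.filter fun p : S.V × S.V =>
      E p.1 p.2 ∧ ¬ Relation.TransGen Fr (v₀ p.1) (v₀ p.2)).card : ℕ) : ℝ) ≤
      ((2 * (Finset.univ.filter fun p : GV S s × GV S s =>
        L.E p.1 p.2 ∧ ¬ Fr p.1 p.2).card : ℕ) : ℝ) := Nat.cast_le.2 hcount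
  push_cast at h3
  linarith

end

end Pool.Agent.AcyAd
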