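import Pool.Agent.AcyAd.Targets2

/-!
# MP_08c6cd_lc: few events of small trees in a good world
-/

namespace Pool.Agent.AcyAd

open scoped Classical

noncomputable section

namespace HB1_

variable {S : Sys} {F : Fx S}

lemma hits_step (Zr : List (En S) → Finset S.V)
    (Za : List (En S) → Bool → S.Sl → S.Sl → Finset S.V) (σ : Player S) (w : World S) (k : ℕ) :
    hits Zr Za (run F σ w (k + 1)) ≤ hits Zr Za (run F σ w k) + 2 := by
  show hits Zr Za (run F σ w k) + _ + _ ≤ hits Zr Za (run F σ w k) + 2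
  split_ifs <;> omega

lemma first_time (Zr : List (En S) → Finset S.V)
    (Za : List (En S) → Bool → S.Sl → S.Sl → Finset S.V) (σ : Player S) (w : World S)
    (k m : ℕ) (hm : 1 ≤ m) (h : m ≤ hits Zr Za (run F σ w k)) :
    ∃ k' ≤ k, m ≤ hits Zr Za (run F σ w k') ∧ hits Zr Za (run F σ w k') ≤ m + 1 := by
  induction k with
  | zero =>
    have h0 : hits Zr Za (run F σ w 0) = 0 := rfl
    omega
  | succ k ih =>
    by_cases h' : m ≤ hits Zr Za (run F σ w k)
    · obtain ⟨k', h1, h2⟩ := ih h'
      exact ⟨k', by omega, h2⟩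
    · have := hits_step (F := F) Zr Za σ w k
      exact ⟨k + 1, le_rfl, h, by omega⟩

end HB1_

open HB1_ in
theorem tHB1 (h1 : T_C1) (h2 : T_C2) : T_HB1 := by
  intro S F H q P σ w k hk hG hX
  constructor
  · intro t ht ρ
    by_contra hcon
    push Not at hcon
    obtain ⟨k', hk', h3, h4⟩ := first_time _ _ σ w k P.K0 (by have := P.K0_pos; omega) hcon
    exact hG.g1 t ht ρ k' (by omega) ⟨h3, h1 S F H q P σ w k' t ρ ht (by omega)
      (fun j hj => hX j (by omega)) h4⟩
  · intro y
    by_contra hcon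
    push Not at hcon
    exact hG.g2 y k hk ⟨hcon, h2 S F H q P σ w k y hk hX⟩

end

end Pool.Agent.AcyAd
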