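import Pool.Agent.AcyAd.Targets2

/-!
# MP_08c6cd_lc, fully adaptive testers: few events of the big trees in a good world (ADF-HB3)
-/

namespace Pool.Agent.AcyAd

open scoped Classical
open Pool.Agent.AcyTest

noncomputable section

namespace HB3_

/-- The arithmetic of the first part. -/
theorem arith {κ lN : ℝ} {m : ℕ} (hκ : 0 ≤ κ) (hl : 0 ≤ lN)
    (h : 12 * lN + 10 * κ + 21 < (m : ℝ)) :
    ∃ a : ℕ, 1 ≤ a ∧ 8 * a ≤ m ∧ κ + (m : ℝ) / 100 ≤ a := by
  have hm : (0 : ℝ) ≤ m := Nat.cast_nonneg m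
  have h0 : 0 < κ + (m : ℝ) / 100 := by
    have : (0 : ℝ) < m := by linarith
    positivity
  refine ⟨⌈κ + (m : ℝ) / 100⌉₊, Nat.one_le_ceil_iff.2 h0, ?_, Nat.le_ceil _⟩
  have h1 := Nat.ceil_lt_add_one h0.le
  have h2 : (8 * (⌈κ + (m : ℝ) / 100⌉₊ : ℝ)) ≤ m := by linarith
  exact_mod_cast h2

end HB3_

open HB3_

/-- HB3: few events of the big trees, few landings in windows in a good world. -/
theorem tHB3 (h3 : T_C3) (h4 : T_C4) : T_HB3 := by
  intro S F H q P σ w k hk hg hX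
  constructor
  · intro t ht x β hβ
    by_contra hn
    push Not at hn
    have hκ : (0 : ℝ) ≤ ((H.big (H.T - 1) t β (run F σ w k)).card : ℝ) / (H.T - 1 : ℕ) := by
      positivity
    have hl : (0 : ℝ) ≤ Real.log (Fintype.card S.V) := Real.log_natCast_nonneg _
    obtain ⟨a, ha1, ha2, ha3⟩ := arith hκ hl hn
    refine hg.g3 t ht x β hβ k hk _ a ha1 ha2 ?_ ⟨le_rfl, ?_⟩
    · linarith
    · exact (h3 S F H q P σ w k t β ht hk hX).trans ha3
  · intro t ht1 ht x β hβ l hl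
    by_contra hn
    push Not at hn
    exact hg.g4 t ht1 ht x β hβ l hl k hk ⟨hn, h4 S F H q P σ w k t β l ht1 ht hk hX⟩

end

end Pool.Agent.AcyAd
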