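import Pool.Agent.AcyAd.Targets2

/-!
# MP_08c6cd_lc, fully adaptive testers: job ADF-KID, the number of children
-/

namespace Pool.Agent.AcyAd

open scoped Classical

noncomputable section

namespace KID_

variable {S : Sys} {F : Fx S}

/-- The name of the answer to the question for the slot of the name `v` of rank `r`. -/
def gg (F : Fx S) (w : World S) (v : S.V) (c : Bool × Fin S.D) : S.V :=
  match w.ask F c.1 (v, (w.rk c.1 v).symm c.2) with
  | some y => y.1
  | none => v

theorem card_ge (D m : ℕ) : ((Finset.univ : Finset (Fin D)).filter fun r => m ≤ r.1).card ≤ D - m := by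
  have h : (((Finset.univ : Finset (Fin D)).filter fun r => m ≤ r.1).image Fin.val) ⊆
      Finset.Ico m D := by
    intro x hx
    simp only [Finset.mem_image, Finset.mem_filter, Finset.mem_univ, true_and] at hx
    obtain ⟨r, hr, rfl⟩ := hx
    exact Finset.mem_Ico.2 ⟨hr, r.2⟩
  have h2 := Finset.card_le_card h
  rw [Finset.card_image_of_injective _ Fin.val_injective, Nat.card_Ico] at h2
  exact h2

end KID_

theorem tKID : T_KID := by
  intro S F H σ w k t v
  have hsub : ((touched (run F σ w k)).filter fun u => 0 < H.dep t (run F σ w k) u ∧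
      par (run F σ w k) u = v) ⊆ ((Finset.univ : Finset Bool) ×ˢ
        ((Finset.univ : Finset (Fin S.D)).filter fun r => H.th t ≤ r.1)).image (KID_.gg F w v) := by
    intro u hu
    rw [Finset.mem_filter] at hu
    obtain ⟨_, hd, hp⟩ := hu
    obtain ⟨e, L', h1, h2, h3, h4, _, _⟩ := H.dep_pos hd
    have he : e ∈ run F σ w k := h1.subset (List.mem_cons_self)
    obtain ⟨_, _, y, hy, hyu⟩ := disc_iff.1 h2
    obtain ⟨_, _, h5⟩ := run_r σ w he hy
    obtain ⟨h6, _⟩ := run_mem σ w he
    have hv : e.a.1 = v := by rw [← h4, hp]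
    rw [Finset.mem_image]
    refine ⟨(e.b, w.rk e.b v e.a.2), ?_, ?_⟩
    · rw [Finset.mem_product, Finset.mem_filter]
      refine ⟨Finset.mem_univ _, Finset.mem_univ _, ?_⟩
      have h7 := H.ge_th h3
      rw [h6] at h7
      rw [← hv]
      exact h7
    · unfold KID_.gg
      have h8 : (v, (w.rk e.b v).symm (w.rk e.b v e.a.2)) = e.a := by
        rw [Equiv.symm_apply_apply, ← hv]
      simp only [h8, h5]
      exact hyu
  refine (Finset.card_le_card hsub).trans (Finset.card_image_le.trans ?_)
  rw [Finset.card_product, Finset.card_univ, Fintype.card_bool]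
  exact Nat.mul_le_mul_left 2 (KID_.card_ge S.D (H.th t))

end

end Pool.Agent.AcyAd
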