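import Pool.Agent.AcyAd.Targets3

/-!
# MP_08c6cd_lc, fully adaptive testers: job ADC-LOW (the two worlds look alike)
-/

namespace Pool.Agent.AcyAd

open scoped Classical
open Pool.Agent.AcyTest

noncomputable section

namespace LOW_

theorem card_le {α : Type} [Finite α] (p a c : α → Prop) (h : ∀ w, ¬ p w → c w) :
    Nat.card {w // a w} ≤ Nat.card {w // p w} + Nat.card {w // c w ∧ a w} := by
  rw [← Nat.card_sum]
  refine Nat.card_le_card_of_injective
    (fun w : {w // a w} => if hp : p w.1 then (Sum.inl ⟨w.1, hp⟩ : {w // p w} ⊕ {w // c w ∧ a w})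
      else Sum.inr ⟨w.1, h w.1 hp, w.2⟩) ?_
  intro w w' hw
  by_cases h1 : p w.1 <;> by_cases h2 : p w'.1
  · simp only [dif_pos h1, dif_pos h2, Sum.inl.injEq, Subtype.mk.injEq] at hw
    exact Subtype.ext hw
  · simp [dif_pos h1, dif_neg h2] at hw
  · simp [dif_neg h1, dif_pos h2] at hw
  · simp only [dif_neg h1, dif_neg h2, Sum.inr.injEq, Subtype.mk.injEq] at hw
    exact Subtype.ext hw

end LOW_

/-- LOW: the two worlds look alike. -/
theorem tLOW (h1 : T_AMT) (h2 : T_PTN) (h3 : T_CPL) : T_LOW := by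
  intro S FA FF H q B P W hB hg σ acc
  have a1 := h1 S FA H q P σ
  have a3 := h3 S FA FF H B W σ q acc
  have hbig := P.n'_big
  have key : ∀ w : World S,
      ¬ ¬ Nice H (P.h (H.R - 1)) P.n' (P.K0 + 1) (run FA σ w q) →
      ∃ f, PotFor H B (run FA σ w q) f := by
    intro w hw
    refine h2 S FA FF H B W σ w q (P.h (H.R - 1)) P.n' (P.K0 + 1) (not_not.1 hw) ?_ hB hg
    refine le_trans (Nat.mul_le_mul_left _ ?_) hbig
    omega
  have a4 := LOW_.card_le
    (fun w : World S => ¬ Nice H (P.h (H.R - 1)) P.n' (P.K0 + 1) (run FA σ w q))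
    (fun w => acc ((run FA σ w q).map En.vis)) (fun w => ∃ f, PotFor H B (run FA σ w q) f) key
  have a5 : 4 * Nat.card {w : World S //
      ¬ Nice H (P.h (H.R - 1)) P.n' (P.K0 + 1) (run FA σ w q)} ≤ Nat.card (World S) := by
    exact_mod_cast a1
  omega

end

end Pool.Agent.AcyAd
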