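import Pool.Agent.AcyAd.Targets3

/-!
# MP_08c6cd_lc, fully adaptive testers: the moved world determines the world (MVI)
-/

namespace Pool.Agent.AcyAd

open scoped Classical
open Pool.Agent.AcyTest

noncomputable section

namespace MVI_

theorem trans_inj {α β γ δ : Type*} (A : α ≃ β) (B : γ ≃ δ) {m m' : β ≃ γ}
    (h : A.trans (m.trans B) = A.trans (m'.trans B)) : m = m' := by
  ext x
  have h1 := Equiv.congr_fun h (A.symm x)
  simp only [Equiv.trans_apply, Equiv.apply_symm_apply] at h1
  rw [B.injective h1]

/-- Moving by any permutation of the addresses is injective. -/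
theorem move_inj {S : Sys} (φ : Equiv.Perm S.V) : Function.Injective fun w : World S => w.move φ := by
  rintro ⟨l, r, m⟩ ⟨l', r', m'⟩ h
  simp only [World.move, World.mk.injEq] at h
  obtain ⟨h1, h2, h3⟩ := h
  have h4 : l = l' := by
    ext x
    have h5 := Equiv.congr_fun h1 x
    exact φ.injective h5
  have h6 : m = m' := by
    funext κ
    exact trans_inj _ _ (congrFun h3 κ)
  subst h4 h2 h6
  rfl

end MVI_

/-- MVI: the moved world determines the world. -/
theorem tMVI : T_MVI := fun _ _ _ _ _ W f _ => MVI_.move_inj (W.phi f)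

end

end Pool.Agent.AcyAd
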