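import Pool.Agent.AcyAd.Targets3

/-!
# MP_08c6cd_lc, fully adaptive testers: ADC-MVR, the run in the moved world
-/

namespace Pool.Agent.AcyAd

open scoped Classical
open Pool.Agent.AcyTest

noncomputable section

namespace MVR_

variable {S : Sys}

/-- The permutation respects the classes of the slots. -/
def Resp (φ : Equiv.Perm S.V) : Prop := ∀ b x r, S.cc b (φ x, r) = S.cc b (x, r)

theorem cltw_val {φ : Equiv.Perm S.V} (hφ : Resp φ) {b : Bool} {κ : S.K} (y : S.Cl b κ) :
    (cltw φ b κ y).1 = (φ y.1.1, y.1.2) := by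
  have h : ∀ y, S.cc b y = some κ ↔
      S.cc b ((Equiv.prodCongr φ (Equiv.refl (Fin S.D))) y) = some κ := by
    rintro ⟨x, r⟩
    show _ ↔ S.cc b (φ x, r) = some κ
    rw [hφ]
  unfold cltw
  rw [dif_pos h]
  rfl

theorem cltw_symm {φ : Equiv.Perm S.V} (hφ : Resp φ) {b : Bool} {κ : S.K} {x : S.V} {r : Fin S.D}
    (h : S.cc b (x, r) = some κ) (h' : S.cc b (φ x, r) = some κ) :
    (cltw φ b κ).symm ⟨(φ x, r), h'⟩ = ⟨(x, r), h⟩ := by
  rw [Equiv.symm_apply_eq]
  apply Subtype.ext
  rw [cltw_val hφ]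

theorem resp_phi {FA FF : Fx S} {H : Hier S FA} {B : ℕ} (W : Twist FA FF H B)
    {f : Option H.Q → ℤ} (hf : ∀ q, |f q| ≤ B) : Resp (W.phi f) :=
  fun b x r => W.psi_cc _ (hf _) b x r

theorem phi_apply {FA FF : Fx S} {H : Hier S FA} {B : ℕ} (W : Twist FA FF H B)
    (f : Option H.Q → ℤ) (x : S.V) : W.phi f x = W.psi (f (H.prj x)) x := rfl

/-- The partners in the moved world. -/
theorem mt_move {FA FF : Fx S} {H : Hier S FA} {B : ℕ} (W : Twist FA FF H B) (w : World S)
    {f : Option H.Q → ℤ} (hf : ∀ q, |f q| ≤ B) (b : Bool) (x : S.V) (r : Fin S.D)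
    (hp : ∀ y, FA.fx b (x, r) = some y → f (H.prj y.1) = f (H.prj x) + (if b then 1 else -1)) :
    (w.move (W.phi f)).mt FF b (W.phi f x, r) =
      (w.mt FA b (x, r)).map fun y => (W.phi f y.1, y.2) := by
  have hr := resp_phi W hf
  rcases hc : S.cc b (x, r) with _ | κ
  · have hc' : S.cc b (W.phi f x, r) = none := by rw [hr, hc]
    rw [World.mt_none _ hc, World.mt_none _ hc']
    rcases hx : FA.fx b (x, r) with _ | ⟨y, s⟩
    · exact W.psi_none _ (hf _) b x r hx
    · have h1 := hp _ hx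
      cases b
      · have h2 : FA.fx true (y, s) = some (x, r) := FA.inv false _ _ hx
        simp only [Bool.false_eq_true, if_false] at h1
        have h3 : f (H.prj y) + 1 = f (H.prj x) := by rw [h1]; ring
        have h4 := W.psi_fx (f (H.prj y)) (hf _) (by rw [h3]; exact hf _) y s x r h2
        rw [h3] at h4
        exact FF.inv true _ _ h4
      · simp only [if_true] at h1
        have h4 := W.psi_fx (f (H.prj x)) (hf _) (by rw [← h1]; exact hf _) x r y s hx
        rw [← h1] at h4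
        exact h4
  · have hc' : S.cc b (W.phi f x, r) = some κ := by rw [hr, hc]
    cases b
    · rw [World.mt_false _ hc, World.mt_false _ hc', Option.map_some]
      congr 1
      have h1 : ((w.move (W.phi f)).mu κ).symm ⟨(W.phi f x, r), hc'⟩ =
          cltw (W.phi f) true κ ((w.mu κ).symm ((cltw (W.phi f) false κ).symm
            ⟨(W.phi f x, r), hc'⟩)) := rfl
      rw [h1, cltw_symm hr hc, cltw_val hr]
    · rw [World.mt_true _ hc, World.mt_true _ hc', Option.map_some]
      congr 1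
      have h1 : ((w.move (W.phi f)).mu κ) ⟨(W.phi f x, r), hc'⟩ =
          cltw (W.phi f) false κ ((w.mu κ) ((cltw (W.phi f) true κ).symm
            ⟨(W.phi f x, r), hc'⟩)) := rfl
      rw [h1, cltw_symm hr hc, cltw_val hr]

/-- The moved entry. -/
def mv (φ : Equiv.Perm S.V) (e : En S) : En S :=
  ⟨e.b, e.a, (φ e.p.1, e.p.2), e.r.map fun y => (y.1, (φ y.2.1, y.2.2))⟩

theorem ans_mv (φ : Equiv.Perm S.V) (e : En S) : (mv φ e).ans = e.ans := by
  unfold mv En.ans
  rw [Option.map_map]
  rfl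

theorem unplc_move (w : World S) (φ : Equiv.Perm S.V) (b : Bool) (y : S.Sl) :
    (w.move φ).unplc b (φ y.1, y.2) = w.unplc b y := by
  have h : (w.move φ).lam.symm (φ y.1) = w.lam.symm y.1 := by
    show w.lam.symm (φ.symm (φ y.1)) = _
    rw [Equiv.symm_apply_apply]
  show ((w.move φ).lam.symm (φ y.1), (w.rk b ((w.move φ).lam.symm (φ y.1))).symm y.2) = _
  rw [h]
  rfl

theorem nxt_move {FA FF : Fx S} {H : Hier S FA} {B : ℕ} (W : Twist FA FF H B) (w : World S)
    {f : Option H.Q → ℤ} (hf : ∀ q, |f q| ≤ B) (q : Bool × S.Sl)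
    (hp : FA.fx q.1 (nxt FA w q).p ≠ none → ∀ y, (nxt FA w q).r = some y →
      f (H.prj y.2.1) = f (H.prj (nxt FA w q).p.1) + (if q.1 then 1 else -1)) :
    nxt FF (w.move (W.phi f)) q = mv (W.phi f) (nxt FA w q) := by
  have h1 := mt_move W w hf q.1 (w.plc q.1 q.2).1 (w.plc q.1 q.2).2 (by
    intro y hy
    have h2 : S.cc q.1 (w.plc q.1 q.2) = none := FA.cc_none (by rw [hy]; simp)
    have h3 : w.mt FA q.1 (w.plc q.1 q.2) = some y := by rw [w.mt_none h2]; exact hy
    refine hp (by
      show FA.fx q.1 (w.plc q.1 q.2) ≠ none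
      rw [hy]
      simp) (w.unplc (!q.1) y, y) ?_
    show (w.mt FA q.1 (w.plc q.1 q.2)).map _ = _
    rw [h3]
    rfl)
  have h4 : (w.move (W.phi f)).plc q.1 q.2 = (W.phi f (w.plc q.1 q.2).1, (w.plc q.1 q.2).2) := rfl
  unfold nxt mv
  rw [h4, h1]
  simp only [Option.map_map]
  congr 1
  congr 1
  funext y
  simp only [Function.comp_apply]
  rw [unplc_move]

end MVR_

open MVR_

theorem tMVR : T_MVR := by
  intro S FA FF H B W σ w k f hP
  suffices h : run FF σ (w.move (W.phi f)) k = (run FA σ w k).map (mv (W.phi f)) from h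
  induction k with
  | zero => rfl
  | succ k ih =>
    obtain ⟨h0, hf, h2⟩ := hP
    have ih' := ih ⟨h0, hf, fun e he => h2 e (List.mem_cons_of_mem _ he)⟩
    have h3 : (run FF σ (w.move (W.phi f)) k).map En.ans = (run FA σ w k).map En.ans := by
      rw [ih', List.map_map]
      congr 1
      funext e
      exact ans_mv _ e
    have h4 := nxt_move W w hf (σ ((run FA σ w k).map En.ans))
      (h2 (nxt FA w (σ ((run FA σ w k).map En.ans))) List.mem_cons_self)
    show nxt FF (w.move (W.phi f)) (σ ((run FF σ (w.move (W.phi f)) k).map En.ans)) ::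
      run FF σ (w.move (W.phi f)) k = _
    rw [h3, h4, ih']
    rfl

end

end Pool.Agent.AcyAd
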