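import Pool.Agent.AcyAd.Targets2

/-!
# MP_08c6cd_lc, ADF-NC: few landing names are near a landing name
-/

namespace Pool.Agent.AcyAd

open scoped Classical
open Pool.Agent.AcyTest

noncomputable section

namespace NC_

variable {S : Sys} {F : Fx S}

/-- The answer to a known question has been touched. -/
theorem known_ans (σ : Player S) (w : World S) (k : ℕ) {b : Bool} {a y : S.Sl}
    (h : a ∈ known b (run F σ w k)) (hy : w.ask F b a = some y) : y.1 ∈ touched (run F σ w k) := by
  obtain ⟨e, he, h1⟩ := mem_known.1 h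
  rw [mem_touched]
  rcases h1 with ⟨rfl, rfl⟩ | ⟨hb, z, hz, rfl⟩
  · have h2 := run_ans σ w he
    rw [hy] at h2
    unfold En.ans at h2
    rw [Option.map_eq_some_iff] at h2
    obtain ⟨z, hz, rfl⟩ := h2
    exact ⟨e, he, Or.inr ⟨z, hz, rfl⟩⟩
  · obtain ⟨_, _, h4⟩ := run_r σ w he hz
    have h5 := w.ask_inv h4
    have h6 : (!e.b) = b := by
      revert hb
      cases e.b <;> cases b <;> simp
    rw [h6, hy] at h5
    have := Option.some.inj h5
    subst this
    exact ⟨e, he, Or.inl rfl⟩

/-- Two new names at most are touched by one entry. -/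
theorem card_new (e : En S) (L : List (En S)) (Z : Finset S.V) (h : Z ∩ touched L = ∅) :
    (Z ∩ touched (e :: L)).card ≤ 2 := by
  have hsub : Z ∩ touched (e :: L) ⊆ {e.a.1} ∪ e.vis.nm := by
    intro v hv
    rw [Finset.mem_inter] at hv
    have h1 : v ∉ touched L := by
      intro h2
      have : v ∈ Z ∩ touched L := Finset.mem_inter.2 ⟨hv.1, h2⟩
      rw [h] at this
      simp at this
    have h3 := hv.2
    rw [touched_cons, mem_vtouched_cons] at h3
    rw [Finset.mem_union, Finset.mem_singleton, VE.mem_nm]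
    rcases h3 with h3 | h3 | h3
    · exact absurd h3 h1
    · exact Or.inl h3
    · exact Or.inr h3
  refine (Finset.card_le_card hsub).trans ((Finset.card_union_le _ _).trans ?_)
  have h1 : e.vis.nm.card ≤ 1 := by
    unfold VE.nm
    split <;> simp
  rw [Finset.card_singleton]
  omega

/-- The growth of the set of near landing names. -/
theorem grow (H : Hier S F) (X : ℕ → ℕ) (σ : Player S) (w : World S) (k n : ℕ)
    (hXB : ∀ j < k, H.XB X (run F σ w j)) (Z : Finset S.V) (hZ : Z ⊆ H.land (run F σ w k))
    (y : S.V) (hyZ : y ∈ Z) (hnear : ∀ z ∈ Z, H.near n (w.lam z) (w.lam y)) (j0 : ℕ)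
    (hy0 : y ∈ touched (run F σ w j0)) (h0 : (Z ∩ touched (run F σ w j0)).card ≤ 2) :
    ∀ j, j0 ≤ j → j ≤ k → (Z ∩ touched (run F σ w j)).card ≤
      2 + hits (H.z2r X n y) (H.z2a X n y) (run F σ w j) := by
  intro j hj
  induction j, hj using Nat.le_induction with
  | base => intro _; omega
  | succ j hj ih =>
    intro hjk
    have ih' := ih (by omega)
    set L := run F σ w j with hL
    set e := nxt F w (σ (L.map En.ans)) with he
    have hrun : run F σ w (j + 1) = e :: L := rfl
    have hmem : e ∈ run F σ w (j + 1) := by rw [hrun]; exact List.mem_cons_self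
    have hsuf : run F σ w (j + 1) <:+ run F σ w k := run_suffix σ w hjk
    have hsufL : L <:+ run F σ w k := run_suffix σ w (by omega)
    obtain ⟨hp, hr⟩ := run_mem σ w hmem
    -- `y` is a landing name of the log `L`
    have hyt : y ∈ touched L := touched_suffix (run_suffix σ w hj) hy0
    have hyL : y ∈ H.land L := by
      have h1 := (H.mem_roots.1 (hZ hyZ)).2
      have h2 := (H.stable_suffix (t := H.R) hsufL hyt).2.2
      exact H.mem_roots.2 ⟨hyt, by rw [← h2]; exact h1⟩
    have hadr : adr L y = some (w.lam y) := by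
      have := adr_eq (F := F) σ w j y
      rw [← hL, if_pos hyt] at this
      exact this
    have hXBL : H.XB X L := hXB j (by omega)
    have hr2 : H.z2r X n y L = H.halo n L {y} := by
      unfold Hier.z2r; rw [if_pos ⟨hXBL, hyL⟩]
    have ha2 : H.z2a X n y L e.b e.a e.p = H.halo n L {y} := by
      unfold Hier.z2a; rw [if_pos ⟨hXBL, hyL⟩]
    have hhalo : ∀ z ∈ Z, w.lam z ∈ H.halo n L {y} := by
      intro z hz
      unfold Hier.halo
      rw [Finset.mem_filter]
      exact ⟨Finset.mem_univ _, y, Finset.mem_singleton_self y, w.lam y, hadr,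
        Or.inr ⟨hyL, hnear z hz⟩⟩
    -- the new names
    set A1 : Finset S.V := if e.a.1 ∉ touched L ∧ e.a.1 ∈ Z then {e.a.1} else ∅ with hA1
    set A2 : Finset S.V := Z.filter fun v => Disc L e v with hA2
    have hsub : Z ∩ touched (e :: L) ⊆ (Z ∩ touched L ∪ A1) ∪ A2 := by
      intro v hv
      rw [Finset.mem_inter] at hv
      rw [Finset.mem_union, Finset.mem_union, Finset.mem_inter]
      by_cases h1 : v ∈ touched L
      · exact Or.inl (Or.inl ⟨hv.1, h1⟩)
      · by_cases h2 : v = e.a.1
        · left; right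
          rw [hA1, if_pos ⟨by rw [← h2]; exact h1, by rw [← h2]; exact hv.1⟩, h2]
          exact Finset.mem_singleton_self _
        · right
          rw [hA2, Finset.mem_filter, disc_iff]
          rcases mem_touched_cons.1 hv.2 with h3 | h3 | h3
          · exact absurd h3 h1
          · exact absurd h3 h2
          · exact ⟨hv.1, h1, h2, h3⟩
    have hc1 : A1.card ≤ if e.a.1 ∉ touched L ∧ e.p.1 ∈ H.z2r X n y L then 1 else 0 := by
      by_cases h1 : e.a.1 ∉ touched L ∧ e.a.1 ∈ Z
      · rw [hA1, if_pos h1, Finset.card_singleton, if_pos]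
        refine ⟨h1.1, ?_⟩
        rw [hr2, hp]
        exact hhalo _ h1.2
      · rw [hA1, if_neg h1]
        simp
    have hc2 : A2.card ≤ if e.a ∉ known e.b L ∧ S.cc e.b e.p ≠ none ∧ ∃ y', e.r = some y' ∧
        y'.2.1 ∈ H.z2a X n y L e.b e.a e.p then 1 else 0 := by
      rcases A2.eq_empty_or_nonempty with h1 | ⟨v, hv⟩
      · rw [h1]; simp
      · rw [hA2, Finset.mem_filter] at hv
        obtain ⟨hvZ, hd⟩ := hv
        obtain ⟨hv1, hv2, u, hu, hu1⟩ := disc_iff.1 hd
        obtain ⟨hm1, hm2, hm3⟩ := run_r σ w hmem hu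
        have hone : A2.card ≤ 1 := by
          rw [Finset.card_le_one]
          intro a ha b hb
          rw [hA2, Finset.mem_filter] at ha hb
          obtain ⟨_, _, ua, hua, hua1⟩ := disc_iff.1 ha.2
          obtain ⟨_, _, ub, hub, hub1⟩ := disc_iff.1 hb.2
          rw [hua] at hub
          have := Option.some.inj hub
          rw [← hua1, ← hub1, this]
        rw [if_pos]
        · exact hone
        · refine ⟨?_, ?_, u, hu, ?_⟩
          · intro hk
            exact hv1 (hu1 ▸ known_ans σ w j hk hm3)
          · intro hcc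
            have h2 := w.mt_none (F := F) hcc
            have h3 : F.fx e.b e.p ≠ none := by
              rw [← h2, hm1]; simp
            have h4 : H.ge H.R e.b e.p := Or.inr ⟨h3, le_rfl⟩
            have hs : e :: L <:+ run F σ w k := hsuf
            have h5 := H.disc_dep hs hd h4
            have h6 := (H.mem_roots.1 (hZ hvZ)).2
            rw [H.root_iff] at h6
            omega
          · rw [ha2]
            have h7 : u.2.1 = w.lam v := by rw [hm2, ← hu1]; rfl
            rw [h7]
            exact hhalo v hvZ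
    have hc := (Finset.card_le_card hsub).trans ((Finset.card_union_le _ _).trans
      (Nat.add_le_add_right (Finset.card_union_le _ _) _))
    rw [hrun]
    simp only [hits]
    omega

end NC_

open NC_

theorem tNC : T_NC := by
  intro S F H X σ w k n n' m hn hXB hh z hz
  set Z := H.nbh n' (run F σ w k) z with hZ
  have hZl : Z ⊆ H.land (run F σ w k) := Finset.filter_subset _ _
  have hZt : ∀ v ∈ Z, v ∈ touched (run F σ w k) := fun v hv => (H.mem_roots.1 (hZl hv)).1
  have hnear : ∀ v ∈ Z, H.near n' (w.lam z) (w.lam v) := by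
    intro v hv
    have hvt := hZt v hv
    rw [hZ] at hv
    obtain ⟨_, x, x', h1, h2, h3⟩ := Finset.mem_filter.1 hv
    rw [adr_eq, if_pos (H.mem_roots.1 hz).1] at h1
    rw [adr_eq, if_pos hvt] at h2
    rw [Option.some.inj h1, Option.some.inj h2]
    exact h3
  rcases Z.eq_empty_or_nonempty with h0 | ⟨z1, hz1⟩
  · rw [h0]; simp
  · have hex : ∃ j, (Z ∩ touched (run F σ w j)).Nonempty :=
      ⟨k, z1, Finset.mem_inter.2 ⟨hz1, hZt z1 hz1⟩⟩
    set j0 := Nat.find hex with hj0
    obtain ⟨y, hy⟩ := Nat.find_spec hex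
    rw [← hj0, Finset.mem_inter] at hy
    have hj0k : j0 ≤ k := Nat.find_min' hex ⟨z1, Finset.mem_inter.2 ⟨hz1, hZt z1 hz1⟩⟩
    have hj0pos : j0 ≠ 0 := by
      intro h1
      have h2 := hy.2
      rw [h1] at h2
      simp [run, touched, vtouched] at h2
    obtain ⟨j1, hj1⟩ := Nat.exists_eq_succ_of_ne_zero hj0pos
    have hempty : Z ∩ touched (run F σ w j1) = ∅ := by
      have := Nat.find_min hex (m := j1) (by omega)
      exact Finset.not_nonempty_iff_eq_empty.1 this
    have hc0 : (Z ∩ touched (run F σ w j0)).card ≤ 2 := by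
      rw [hj1]
      exact card_new _ _ Z hempty
    have hny : ∀ v ∈ Z, H.near n (w.lam v) (w.lam y) := fun v hv =>
      H.near_mono (by omega) (H.near_trans (H.near_symm (hnear v hv)) (hnear y hy.1))
    have h1 := grow H X σ w k n hXB Z hZl y hy.1 hny j0 hy.2 hc0 k hj0k le_rfl
    have h2 : Z ∩ touched (run F σ w k) = Z := Finset.inter_eq_left.2 hZt
    rw [h2] at h1
    have h3 := hh y
    omega

end

end Pool.Agent.AcyAd
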