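import Pool.Agent.AcyAd.Targets2

/-!
# MP_08c6cd_lc, fully adaptive testers: explored pairs and addresses of a class
-/

set_option autoImplicit false

namespace Pool.Agent.AcyAd

open scoped Classical

noncomputable section

namespace NCL_

variable {S : Sys} {F : Fx S}

/-- The partner of a known slot is known. -/
theorem known_partner (σ : Player S) (w : World S) (k : ℕ) (L : List (En S))
    (hL : ∀ e ∈ L, e ∈ run F σ w k) (b : Bool) (a a' : S.Sl) (h : w.ask F b a = some a')
    (ha : a ∈ known b L) : a' ∈ known (!b) L := by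
  rw [mem_known] at ha ⊢
  obtain ⟨e, he, h1 | h1⟩ := ha
  · obtain ⟨h2, h3⟩ := h1
    refine ⟨e, he, Or.inr ⟨?_, ?_⟩⟩
    · rw [h2]; cases b <;> simp
    · have h4 := run_ans σ w (hL e he)
      rw [h2, h3, h] at h4
      unfold En.ans at h4
      rw [Option.map_eq_some_iff] at h4
      exact h4
  · obtain ⟨h2, y, hy, rfl⟩ := h1
    obtain ⟨_, _, h5⟩ := run_r σ w (hL e he) hy
    have h6 := w.ask_inv h5
    have h7 : (!e.b) = b := by
      revert h2
      cases e.b <;> cases b <;> simp
    rw [h7, h] at h6
    have h8 := Option.some.inj h6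
    refine ⟨e, he, Or.inl ⟨?_, h8.symm⟩⟩
    rw [← h7, Bool.not_not]

/-- places of the known out-slots of class `κ` -/
def G (w : World S) (κ : S.K) (L : List (En S)) : Finset S.Sl :=
  Finset.univ.filter fun y => S.cc true y = some κ ∧ w.unplc true y ∈ known true L

theorem ncl_le (σ : Player S) (w : World S) (k : ℕ) (κ : S.K) (L : List (En S))
    (hL : ∀ e ∈ L, e ∈ run F σ w k) : ncl κ L ≤ (G w κ L).card := by
  induction L with
  | nil => simp [ncl]
  | cons e L ih =>
    have hL' : ∀ e ∈ L, e ∈ run F σ w k := fun e' he' => hL e' (List.mem_cons_of_mem _ he')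
    have ih' := ih hL'
    have he := hL e List.mem_cons_self
    have hsub : G w κ L ⊆ G w κ (e :: L) := by
      intro y hy
      simp only [G, Finset.mem_filter, Finset.mem_univ, true_and] at hy ⊢
      exact ⟨hy.1, vknown_mono true e.vis _ hy.2⟩
    simp only [ncl]
    by_cases hc : e.a ∉ known e.b L ∧ S.cc e.b e.p = some κ
    · rw [if_pos hc]
      obtain ⟨h1, h2⟩ := hc
      obtain ⟨h3, h4⟩ := run_mem σ w he
      -- a new place
      suffices hz : ∃ z, z ∈ G w κ (e :: L) ∧ z ∉ G w κ L by
        obtain ⟨z, hz1, hz2⟩ := hz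
        have : (insert z (G w κ L)).card ≤ (G w κ (e :: L)).card :=
          Finset.card_le_card (Finset.insert_subset hz1 hsub)
        rw [Finset.card_insert_of_notMem hz2] at this
        omega
      cases hb : e.b with
      | true =>
        rw [hb] at h1 h2 h3
        refine ⟨e.p, ?_, ?_⟩
        · simp only [G, Finset.mem_filter, Finset.mem_univ, true_and]
          refine ⟨h2, ?_⟩
          rw [h3, w.unplc_plc, mem_known_cons]
          exact Or.inr (Or.inl ⟨hb, rfl⟩)
        · simp only [G, Finset.mem_filter, Finset.mem_univ, true_and, not_and]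
          intro _
          rw [h3, w.unplc_plc]
          exact h1
      | false =>
        rw [hb] at h1 h2 h3 h4
        obtain ⟨z, hz⟩ : ∃ z, w.mt F false e.p = some z := ⟨_, w.mt_false h2⟩
        rw [hz] at h4
        simp only [Option.map_some, Bool.not_false] at h4
        have h5 := w.mt_cc hz
        simp only [Bool.not_false] at h5
        refine ⟨z, ?_, ?_⟩
        · simp only [G, Finset.mem_filter, Finset.mem_univ, true_and]
          refine ⟨h5.trans h2, ?_⟩
          rw [mem_known_cons]
          exact Or.inr (Or.inr ⟨by rw [hb]; simp, _, h4, rfl⟩)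
        · simp only [G, Finset.mem_filter, Finset.mem_univ, true_and, not_and]
          intro _ h6
          apply h1
          have h7 : w.ask F false e.a = some (w.unplc true z) := by
            rw [w.ask_eq_some, ← h3, hz]
            simp only [Bool.not_false]
            rw [w.plc_unplc]
          have h8 := w.ask_inv h7
          simp only [Bool.not_false] at h8
          exact known_partner σ w k L hL' true _ _ h8 h6
    · rw [if_neg hc]
      exact ih'.trans (Finset.card_le_card hsub)

theorem card_G (σ : Player S) (w : World S) (k : ℕ) (κ : S.K) :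
    (G w κ (run F σ w k)).card ≤ S.D * (expl (run F σ w k) ∩ S.tgt true κ).card := by
  have : G w κ (run F σ w k) ⊆ (expl (run F σ w k) ∩ S.tgt true κ) ×ˢ Finset.univ := by
    rintro ⟨x, r⟩ hx
    simp only [G, Finset.mem_filter, Finset.mem_univ, true_and] at hx
    simp only [Finset.mem_product, Finset.mem_inter, Finset.mem_univ, and_true]
    refine ⟨?_, ?_⟩
    · rw [expl_eq, Finset.mem_image]
      refine ⟨_, known_touched hx.2, ?_⟩
      simp [World.unplc]
    · simp only [Sys.tgt, Finset.mem_filter, Finset.mem_univ, true_and]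
      exact ⟨r, hx.1⟩
  refine (Finset.card_le_card this).trans ?_
  rw [Finset.card_product, Finset.card_univ, Fintype.card_fin, mul_comm]

end NCL_

open NCL_ in
theorem tNCL : T_NCL := by
  intro S F H X σ w k b y κ hXB hc
  have hτ := H.ty_lt κ
  have key : ∀ b', (expl (run F σ w k) ∩ S.tgt b' κ).card ≤ X (H.ty κ + 1) := by
    intro b'
    rcases Finset.eq_empty_or_nonempty (S.tgt b' κ) with h0 | ⟨x₀, hx₀⟩
    · rw [h0, Finset.inter_empty]
      simp
    · simp only [Sys.tgt, Finset.mem_filter, Finset.mem_univ, true_and] at hx₀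
      obtain ⟨r₀, hr₀⟩ := hx₀
      obtain ⟨β, hβ⟩ : ∃ β, H.blk (H.ty κ) x₀ = some β :=
        Option.ne_none_iff_exists'.mp (H.cls_blk b' b' _ _ κ hr₀ hr₀).1
      refine le_trans ?_ (hXB.2 (H.ty κ) hτ β (H.lay (H.ty κ) x₀))
      have hsub : expl (run F σ w k) ∩ S.tgt b' κ ⊆
          (H.inl (H.ty κ) β (H.lay (H.ty κ) x₀) (run F σ w k)).image w.lam := by
        intro x hx
        rw [Finset.mem_inter, expl_eq, Finset.mem_image] at hx
        obtain ⟨⟨v, hv, rfl⟩, hx2⟩ := hx
        simp only [Sys.tgt, Finset.mem_filter, Finset.mem_univ, true_and] at hx2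
        obtain ⟨r, hr⟩ := hx2
        rw [Finset.mem_image]
        refine ⟨v, ?_, rfl⟩
        simp only [Hier.inl, Finset.mem_filter]
        refine ⟨hv, w.lam v, ?_, ?_, ?_⟩
        · rw [adr_eq, if_pos hv]
        · have := (H.cls_blk b' b' _ _ κ hr₀ hr).2
          simp only at this
          rw [← this, hβ]
        · exact H.cls_lay b' _ _ κ hr hr₀
      exact (Finset.card_le_card hsub).trans Finset.card_image_le
  refine ⟨?_, key⟩
  calc ncl κ (run F σ w k) ≤ (G w κ (run F σ w k)).card := ncl_le σ w k κ _ (fun _ h => h)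
    _ ≤ S.D * (expl (run F σ w k) ∩ S.tgt true κ).card := card_G σ w k κ
    _ ≤ S.D * X (H.ty κ + 1) := Nat.mul_le_mul_left _ (key true)

end

end Pool.Agent.AcyAd
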