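import Pool.Agent.AcyAd.Targets2

/-!
# MP_08c6cd_lc, fully adaptive testers: the size of a tree (ADF-PART)
-/

namespace Pool.Agent.AcyAd

open scoped Classical
open Pool.Agent.AcyTest

noncomputable section

namespace PART_

variable {S : Sys} {F : Fx S}

/-- A touched name with depth at least `h` has an ancestor in `top`, at most `2 h` steps above. -/
theorem anc (H : Hier S F) (L : List (En S)) {s h : ℕ} (hh : 1 ≤ h) {v : S.V}
    (hv : v ∈ touched L) (hd : h ≤ H.dep (s + 1) L v) :
    ∃ j ≤ 2 * h, j ≤ H.dep (s + 1) L v ∧ (par L)^[j] v ∈ H.top s h L ∧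
      (par L)^[j] v ∈ touched L ∧ H.root (s + 1) L ((par L)^[j] v) = H.root (s + 1) L v := by
  set d := H.dep (s + 1) L v with hdd
  have h1 : d % h < h := Nat.mod_lt _ (by omega)
  have h2 : h * (d / h) + d % h = d := Nat.div_add_mod d h
  have h3 : 1 ≤ d / h := (Nat.one_le_div_iff (by omega)).2 hd
  have h4 : h ≤ h * (d / h) := Nat.le_mul_of_pos_right h h3
  have h5 := H.dep_iter (t := s + 1) (L := L) (v := v) (j := d % h) (by omega)
  have h6 : H.dep (s + 1) L ((par L)^[d % h] v) = h * (d / h) := by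
    have := h5.1
    omega
  have h7 : h + d % h ≤ d := by omega
  refine ⟨h + d % h, by omega, h7, ?_, ?_, ?_⟩
  · rw [Function.iterate_add_apply]
    refine Finset.mem_image_of_mem _ ?_
    rw [Finset.mem_filter]
    refine ⟨Hier.iter_touched hv _, by omega, ?_⟩
    rw [h6]
    exact Dvd.intro _ rfl
  · exact Hier.iter_touched hv _
  · exact (H.dep_iter (t := s + 1) (L := L) (v := v) h7).2

end PART_

theorem tPART (hDESC : T_DESC) : T_PART := by
  intro S F H σ w k s h ρ hh
  set L := run F σ w k with hL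
  have h1 : H.part (s + 1) L ρ ⊆
      ((touched L).filter fun u => ∃ j ≤ h, j ≤ H.dep (s + 1) L u ∧ (par L)^[j] u = ρ) ∪
      (H.top s h L ∩ H.part (s + 1) L ρ).biUnion fun x =>
        (touched L).filter fun u => ∃ j ≤ 2 * h, j ≤ H.dep (s + 1) L u ∧ (par L)^[j] u = x := by
    intro v hv
    rw [H.mem_part] at hv
    obtain ⟨hv1, hv2⟩ := hv
    rw [Finset.mem_union]
    rcases Nat.lt_or_ge (H.dep (s + 1) L v) h with hd | hd
    · left
      rw [Finset.mem_filter]
      refine ⟨hv1, H.dep (s + 1) L v, hd.le, le_rfl, ?_⟩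
      rw [← H.root_eq.1, hv2]
    · right
      obtain ⟨j, hj1, hj2, hj3, hj4, hj5⟩ := PART_.anc H L hh hv1 hd
      rw [Finset.mem_biUnion]
      refine ⟨(par L)^[j] v, ?_, ?_⟩
      · rw [Finset.mem_inter, H.mem_part]
        exact ⟨hj3, hj4, by rw [hj5, hv2]⟩
      · rw [Finset.mem_filter]
        exact ⟨hv1, j, hj1, hj2, rfl⟩
  refine (Finset.card_le_card h1).trans ((Finset.card_union_le _ _).trans ?_)
  refine add_le_add (hDESC S F H σ w k (s + 1) h ρ) ?_
  exact Finset.card_biUnion_le_card_mul _ _ _ fun x _ => hDESC S F H σ w k (s + 1) (2 * h) x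

end

end Pool.Agent.AcyAd
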