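import Pool.Agent.AcyAd.Targets2

/-!
# MP_08c6cd_lc, fully adaptive testers: most worlds are good (ADF-PG)
-/

namespace Pool.Agent.AcyAd

open scoped Classical
open Pool.Agent.AcyTest

noncomputable section

namespace PG_

section count

variable {Ω : Type} [Finite Ω]

theorem card_mono {p q : Ω → Prop} (h : ∀ w, p w → q w) :
    Nat.card {w // p w} ≤ Nat.card {w // q w} := by
  refine Nat.card_le_card_of_injective (fun x : {w // p w} => (⟨x.1, h x.1 x.2⟩ : {w // q w})) ?_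
  intro x y hxy
  simp only [Subtype.mk.injEq] at hxy
  exact Subtype.ext hxy

omit [Finite Ω] in
theorem card_zero {p : Ω → Prop} (h : ∀ w, ¬ p w) : Nat.card {w // p w} = 0 :=
  Nat.card_eq_zero.2 (Or.inl ⟨fun x => h x.1 x.2⟩)

theorem card_or (p q : Ω → Prop) :
    Nat.card {w // p w ∨ q w} ≤ Nat.card {w // p w} + Nat.card {w // q w} := by
  rw [← Nat.card_sum]
  refine Nat.card_le_card_of_injective (fun x : {w // p w ∨ q w} =>
    if h : p x.1 then Sum.inl (⟨x.1, h⟩ : {w // p w}) else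
      Sum.inr (⟨x.1, x.2.resolve_left h⟩ : {w // q w})) ?_
  intro x y hxy
  simp only at hxy
  by_cases h1 : p x.1 <;> by_cases h2 : p y.1 <;> simp only [h1, h2, dif_pos, dif_neg,
    not_false_eq_true, Sum.inl.injEq, Sum.inr.injEq, Subtype.mk.injEq, reduceCtorEq] at hxy
  · exact Subtype.ext hxy
  · exact Subtype.ext hxy

theorem card_union {I : Type} [Fintype I] (E : I → Ω → Prop) (c : ℝ)
    (h : ∀ i, (Nat.card {w // E i w} : ℝ) ≤ c) :
    (Nat.card {w // ∃ i, E i w} : ℝ) ≤ Fintype.card I * c := by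
  have h1 : Nat.card {w // ∃ i, E i w} ≤ ∑ i, Nat.card {w // E i w} := by
    rw [← Nat.card_sigma]
    refine Nat.card_le_card_of_injective (fun x : {w // ∃ i, E i w} =>
      (⟨x.2.choose, ⟨x.1, x.2.choose_spec⟩⟩ : (i : I) × {w // E i w})) ?_
    intro x y hxy
    have h2 := congrArg (fun z : (i : I) × {w // E i w} => z.2.1) hxy
    exact Subtype.ext h2
  calc (Nat.card {w // ∃ i, E i w} : ℝ) ≤ ((∑ i, Nat.card {w // E i w} : ℕ) : ℝ) := by
        exact_mod_cast h1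
    _ = ∑ i, (Nat.card {w // E i w} : ℝ) := by push_cast; rfl
    _ ≤ ∑ _i : I, c := Finset.sum_le_sum fun i _ => h i
    _ = _ := by simp

end count

theorem exp_bound {N m : ℕ} {α : ℝ} (hN : 0 < N) (hα : 0 < α) (hm : 8 * α ≤ m)
    (hl : 12 * Real.log N ≤ m) : (Real.exp 1 * α / m) ^ m ≤ ((N : ℝ) ^ 12)⁻¹ := by
  have hm0 : (0 : ℝ) < m := by linarith
  have h1 : Real.exp 1 * α / m ≤ Real.exp (-1) := by
    rw [div_le_iff₀ hm0, Real.exp_neg]
    have h2 := Real.exp_one_lt_d9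
    have h3 := Real.exp_pos 1
    rw [inv_mul_eq_div, le_div_iff₀ h3]
    have h4 : Real.exp 1 * Real.exp 1 ≤ 8 := by nlinarith
    calc Real.exp 1 * α * Real.exp 1 = (Real.exp 1 * Real.exp 1) * α := by ring
      _ ≤ 8 * α := by gcongr
      _ ≤ m := hm
  calc (Real.exp 1 * α / m) ^ m ≤ Real.exp (-1) ^ m := by
        apply pow_le_pow_left₀ _ h1
        positivity
    _ = Real.exp (-m) := by rw [← Real.exp_nat_mul]; congr 1; ring
    _ ≤ Real.exp (-(12 * Real.log N)) := by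
        apply Real.exp_le_exp.2
        linarith
    _ = ((N : ℝ) ^ 12)⁻¹ := by
        rw [Real.exp_neg]
        congr 1
        have : (12 : ℝ) * Real.log N = ((12 : ℕ) : ℝ) * Real.log N := by norm_num
        rw [this, Real.exp_nat_mul, Real.exp_log (by exact_mod_cast hN)]

variable {S : Sys} {F : Fx S}

theorem hits_le (Zr : List (En S) → Finset S.V)
    (Za : List (En S) → Bool → S.Sl → S.Sl → Finset S.V) (L : List (En S)) :
    hits Zr Za L ≤ 2 * L.length := by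
  induction L with
  | nil => simp [hits]
  | cons e L ih =>
    simp only [hits, List.length_cons]
    split <;> split <;> omega

theorem nb_ge {H : Hier S F} (j : ℕ) (hj : j ≤ H.R) : 1 ≤ H.nb (H.R - j) := by
  induction j with
  | zero => exact H.nb_pos
  | succ j ih =>
    have h1 := ih (by omega)
    have h2 := H.nb_succ (H.R - (j + 1)) (by omega)
    have h3 : H.R - (j + 1) + 1 = H.R - j := by omega
    rw [h3] at h2
    rw [h2]
    have := H.T_big
    nlinarith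

theorem T_le {H : Hier S F} : 3 * H.T ≤ Fintype.card S.V := by
  have h1 := H.nb_succ 0 (by have := H.R_pos; omega)
  have h2 := nb_ge (H := H) (H.R - 1) (by omega)
  have h3 : H.R - (H.R - 1) = 0 + 1 := by have := H.R_pos; omega
  rw [h3] at h2
  rw [← H.nb_zero, h1]
  nlinarith

/-- The martingale bound for predictors which vanish if `XB` fails. -/
theorem scb (hSC : T_SC) (hN : T_NCL) {H : Hier S F} {q : ℕ} (P : Par H q) (σ : Player S)
    (Zr : List (En S) → Finset S.V) (Za : List (En S) → Bool → S.Sl → S.Sl → Finset S.V)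
    (hr : ∀ L, (Zr L).Nonempty → H.XB P.X L) (ha : ∀ L b a p, (Za L b a p).Nonempty → H.XB P.X L)
    (m : ℕ) (α : ℝ) (hα : 0 < α) (hm : α ≤ m) :
    (Nat.card {w : World S // ∃ k ≤ q, m ≤ hits Zr Za (run F σ w k) ∧
      comp Zr Za (run F σ w k) ≤ α} : ℝ) ≤ (Real.exp 1 * α / m) ^ m * Nat.card (World S) := by
  refine hSC S F σ q m α Zr Za hα hm (fun w k _ hne => ?_) (fun w k _ b a κ _ hc hne => ?_)
  · have h1 := (hr _ hne).1
    have h2 := P.X_zero_N
    omega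
  · have hXB := ha _ _ _ _ (hne.mono Finset.inter_subset_left)
    have h1 := (hN S F H P.X σ w k b _ κ hXB hc).1
    have h2 := P.dn (H.ty κ) (H.ty_lt κ)
    have h3 : (H.nb (H.ty κ + 1) : ℝ) ≤ 400 * S.N κ := by exact_mod_cast H.cls_N b _ κ hc
    have h4 := P.θ_le
    have h5 := P.θ_nonneg
    have h6 : P.θ * (H.nb (H.ty κ + 1) : ℝ) ≤ P.θ * (400 * S.N κ) := by gcongr
    have h7 : P.θ * (S.N κ : ℝ) ≤ 1 / 1000 * S.N κ := by gcongr
    have h8 : (ncl κ (run F σ w k) : ℝ) ≤ S.D * (P.X (H.ty κ + 1) : ℝ) := by exact_mod_cast h1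
    have h9 : (0 : ℝ) ≤ S.D := Nat.cast_nonneg _
    have h10 : (0 : ℝ) ≤ S.N κ := Nat.cast_nonneg _
    have h11 : (2 * (ncl κ (run F σ w k) : ℝ)) ≤ S.N κ := by nlinarith
    exact_mod_cast h11

end PG_

open PG_ in
theorem tPG (hSC : T_SC) (hU : T_U) (hN : T_NCL) : T_PG := by
  intro S F H q P σ
  obtain ⟨N, hNd⟩ : ∃ N, N = Fintype.card S.V := ⟨_, rfl⟩
  have hN10 : 10 ≤ N := hNd ▸ P.N_10
  have hNR : H.R ≤ N := hNd ▸ P.N_R
  have hNq : 8 * q ≤ N := hNd ▸ P.N_q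
  have hNT : 3 * H.T ≤ N := hNd ▸ T_le
  have hq1 := P.q_pos
  have hNr : (10 : ℝ) ≤ N := by exact_mod_cast hN10
  obtain ⟨M, hM⟩ : ∃ M : ℝ, M = Nat.card (World S) := ⟨_, rfl⟩
  have hM0 : 0 ≤ M := by rw [hM]; exact Nat.cast_nonneg _
  obtain ⟨c, hc⟩ : ∃ c : ℝ, c = ((N : ℝ) ^ 12)⁻¹ * M := ⟨_, rfl⟩
  have hc0 : 0 ≤ c := by rw [hc]; positivity
  -- the events
  set B1 : Fin H.R × S.V → World S → Prop := fun i w => ∃ k ≤ q,
    P.K0 ≤ hits (H.z1r P.X P.n (H.T - 1) i.1 i.2) (H.z1a P.X P.n (H.T - 1) i.1 i.2) (run F σ w k) ∧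
      comp (H.z1r P.X P.n (H.T - 1) i.1 i.2) (H.z1a P.X P.n (H.T - 1) i.1 i.2) (run F σ w k) ≤ P.al
    with hB1
  set B2 : S.V → World S → Prop := fun y w => ∃ k ≤ q,
    P.K0 ≤ hits (H.z2r P.X P.n y) (H.z2a P.X P.n y) (run F σ w k) ∧
      comp (H.z2r P.X P.n y) (H.z2a P.X P.n y) (run F σ w k) ≤ P.al with hB2
  set B3 : Fin H.R × S.V × Fin (N + 1) × Fin (N + 1) → World S → Prop := fun i w =>
    ∃ β, (H.blk i.1 i.2.1 = some β ∧ 1 ≤ (i.2.2.2 : ℕ) ∧ 8 * (i.2.2.2 : ℕ) ≤ (i.2.2.1 : ℕ) ∧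
      12 * Real.log N ≤ ((i.2.2.1 : ℕ) : ℝ)) ∧ ∃ k ≤ q,
      (i.2.2.1 : ℕ) ≤ hits (H.z3r P.X P.n (H.T - 1) i.1 β) (H.z3a P.X P.n (H.T - 1) i.1 β)
        (run F σ w k) ∧
      comp (H.z3r P.X P.n (H.T - 1) i.1 β) (H.z3a P.X P.n (H.T - 1) i.1 β) (run F σ w k) ≤
        ((i.2.2.2 : ℕ) : ℝ) with hB3
  set B4 : Fin H.R × S.V × Fin (3 * H.T) → World S → Prop := fun i w =>
    ∃ β, H.blk i.1 i.2.1 = some β ∧ ∃ k ≤ q,
      P.m4 i.1 ≤ hits (H.z4r P.X (P.h (i.1 - 1)) i.1 β i.2.2) (H.z4a P.X (P.h (i.1 - 1)) i.1 β i.2.2)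
        (run F σ w k) ∧
      comp (H.z4r P.X (P.h (i.1 - 1)) i.1 β i.2.2) (H.z4a P.X (P.h (i.1 - 1)) i.1 β i.2.2)
        (run F σ w k) ≤ P.al4 i.1 with hB4
  set B5 : Fin H.R × S.V × Fin (q + 1) × Fin (N + 1) × Fin (N + 1) × Fin (N + 1) × Fin (N + 1) →
      World S → Prop := fun i w =>
    ∃ β, (H.blk i.1 i.2.1 = some β ∧ ub (H.toBlk i.1 β i.1.2) i.2.2.2.1 i.2.2.2.2.1 i.2.2.2.2.2.1
      (P.h i.1) i.2.2.2.2.2.2 P.θ ≤ ((N : ℝ) ^ 12)⁻¹) ∧
      UE (H.toBlk i.1 β i.1.2) σ i.2.2.1 i.2.2.2.1 i.2.2.2.2.1 i.2.2.2.2.2.1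
        (P.h i.1) i.2.2.2.2.2.2 P.θ w with hB5
  have hbad : ∀ w, ¬ GoodW H P σ w →
      (∃ i, B1 i w) ∨ (∃ i, B2 i w) ∨ (∃ i, B3 i w) ∨ (∃ i, B4 i w) ∨ (∃ i, B5 i w) := by
    intro w hw
    by_contra hn
    simp only [not_or, not_exists] at hn
    obtain ⟨n1, n2, n3, n4, n5⟩ := hn
    apply hw
    refine ⟨fun t ht ρ k hk h => n1 (⟨t, ht⟩, ρ) ⟨k, hk, h⟩, fun y k hk h => n2 y ⟨k, hk, h⟩,
      fun t ht x β hβ k hk m a ha hma hml h => ?_, fun t ht1 ht x β hβ l hl k hk h => ?_,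
      fun t ht x β hβ k hk m K' F' y hm hK hF hy hub hUE => ?_⟩
    · have h1 := hits_le (H.z3r P.X P.n (H.T - 1) t β) (H.z3a P.X P.n (H.T - 1) t β) (run F σ w k)
      rw [run_length] at h1
      have h2 : m ≤ N := by have := h.1; omega
      have hml' : 12 * Real.log (N : ℝ) ≤ (m : ℝ) := by rw [hNd]; exact hml
      exact n3 (⟨t, ht⟩, x, ⟨m, by omega⟩, ⟨a, by omega⟩) ⟨β, ⟨hβ, ha, hma, hml'⟩, k, hk, h⟩
    · exact n4 (⟨t, ht⟩, x, ⟨l, hl⟩) ⟨β, hβ, k, hk, h⟩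
    · rw [← hNd] at hm hK hF hy hub
      exact n5 (⟨t, ht⟩, x, ⟨k, by omega⟩, ⟨m, by omega⟩, ⟨K', by omega⟩, ⟨F', by omega⟩,
        ⟨y, by omega⟩) ⟨β, ⟨hβ, hub⟩, hUE⟩
  -- probabilities
  have c1 : ∀ i, (Nat.card {w // B1 i w} : ℝ) ≤ c := by
    intro i
    refine (scb hSC hN P σ _ _ (fun L h => ?_) (fun L b a p h => ?_) P.K0 P.al P.al_pos
      P.al_K0).trans ?_
    · unfold Hier.z1r at h
      split_ifs at h with h1
      · exact h1.1
      · simp at h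
    · unfold Hier.z1a at h
      split_ifs at h with h1
      · exact h1.1
      · simp at h
    · rw [hc, ← hM]
      have := P.al_pow
      rw [← hNd] at this
      gcongr
  have c2 : ∀ i, (Nat.card {w // B2 i w} : ℝ) ≤ c := by
    intro i
    refine (scb hSC hN P σ _ _ (fun L h => ?_) (fun L b a p h => ?_) P.K0 P.al P.al_pos
      P.al_K0).trans ?_
    · unfold Hier.z2r at h
      split_ifs at h with h1
      · exact h1.1
      · simp at h
    · unfold Hier.z2a at h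
      split_ifs at h with h1
      · exact h1.1
      · simp at h
    · rw [hc, ← hM]
      have := P.al_pow
      rw [← hNd] at this
      gcongr
  have c3 : ∀ i, (Nat.card {w // B3 i w} : ℝ) ≤ c := by
    intro i
    by_cases hex : ∃ β, H.blk i.1 i.2.1 = some β ∧ 1 ≤ (i.2.2.2 : ℕ) ∧
        8 * (i.2.2.2 : ℕ) ≤ (i.2.2.1 : ℕ) ∧ 12 * Real.log N ≤ ((i.2.2.1 : ℕ) : ℝ)
    · obtain ⟨β, hβ, e1, e2, e3⟩ := hex
      have hm := scb hSC hN P σ (H.z3r P.X P.n (H.T - 1) i.1 β) (H.z3a P.X P.n (H.T - 1) i.1 β)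
        (fun L h => by
          unfold Hier.z3r at h
          split_ifs at h with h1
          · exact h1
          · simp at h) (fun L b a p h => by
          unfold Hier.z3a at h
          split_ifs at h with h1
          · exact h1
          · simp at h) i.2.2.1 ((i.2.2.2 : ℕ) : ℝ) (by exact_mod_cast e1)
          (by
            have : (i.2.2.2 : ℕ) ≤ (i.2.2.1 : ℕ) := by omega
            exact_mod_cast this)
      have hmono : Nat.card {w // B3 i w} ≤ Nat.card {w : World S // ∃ k ≤ q,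
          (i.2.2.1 : ℕ) ≤ hits (H.z3r P.X P.n (H.T - 1) i.1 β) (H.z3a P.X P.n (H.T - 1) i.1 β)
            (run F σ w k) ∧
          comp (H.z3r P.X P.n (H.T - 1) i.1 β) (H.z3a P.X P.n (H.T - 1) i.1 β) (run F σ w k) ≤
            ((i.2.2.2 : ℕ) : ℝ)} := by
        refine card_mono fun w hw => ?_
        obtain ⟨β', ⟨hβ', _⟩, hw⟩ := hw
        have : β' = β := Option.some.inj (hβ'.symm.trans hβ)
        subst this
        exact hw
      have h4 := exp_bound (N := N) (m := i.2.2.1) (α := ((i.2.2.2 : ℕ) : ℝ)) (by omega)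
        (by exact_mod_cast e1) (by exact_mod_cast e2) e3
      calc (Nat.card {w // B3 i w} : ℝ) ≤ _ := by exact_mod_cast hmono
        _ ≤ _ := hm
        _ ≤ c := by rw [hc, ← hM]; gcongr
    · rw [card_zero (p := B3 i) fun w hw => hex ⟨_, hw.choose_spec.1⟩]
      simpa using hc0
  have c4 : ∀ i, (Nat.card {w // B4 i w} : ℝ) ≤ c := by
    intro i
    by_cases hex : ∃ β, H.blk i.1 i.2.1 = some β
    · obtain ⟨β, hβ⟩ := hex
      have ha4 : 0 < P.al4 i.1 := by have := P.al4_pos i.1; linarith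
      have hm := scb hSC hN P σ (H.z4r P.X (P.h (i.1 - 1)) i.1 β i.2.2)
        (H.z4a P.X (P.h (i.1 - 1)) i.1 β i.2.2)
        (fun L h => by
          unfold Hier.z4r at h
          split_ifs at h with h1
          · exact h1
          · simp at h) (fun L b a p h => by
          unfold Hier.z4a at h
          split_ifs at h with h1
          · exact h1.1
          · simp at h) (P.m4 i.1) (P.al4 i.1) ha4
          (by have := P.m4_al4 i.1; linarith)
      have hmono : Nat.card {w // B4 i w} ≤ Nat.card {w : World S // ∃ k ≤ q,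
          P.m4 i.1 ≤ hits (H.z4r P.X (P.h (i.1 - 1)) i.1 β i.2.2)
            (H.z4a P.X (P.h (i.1 - 1)) i.1 β i.2.2) (run F σ w k) ∧
          comp (H.z4r P.X (P.h (i.1 - 1)) i.1 β i.2.2)
            (H.z4a P.X (P.h (i.1 - 1)) i.1 β i.2.2) (run F σ w k) ≤ P.al4 i.1} := by
        refine card_mono fun w hw => ?_
        obtain ⟨β', hβ', hw⟩ := hw
        have : β' = β := Option.some.inj (hβ'.symm.trans hβ)
        subst this
        exact hw
      have h4 := exp_bound (N := N) (m := P.m4 i.1) (α := P.al4 i.1) (by omega) ha4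
        (P.m4_al4 i.1) (by rw [hNd]; exact P.m4_log i.1)
      calc (Nat.card {w // B4 i w} : ℝ) ≤ _ := by exact_mod_cast hmono
        _ ≤ _ := hm
        _ ≤ c := by rw [hc, ← hM]; gcongr
    · rw [card_zero (p := B4 i) fun w hw => hex ⟨_, hw.choose_spec.1⟩]
      simpa using hc0
  have c5 : ∀ i, (Nat.card {w // B5 i w} : ℝ) ≤ c := by
    intro i
    by_cases hex : ∃ β, H.blk i.1 i.2.1 = some β ∧ ub (H.toBlk i.1 β i.1.2) i.2.2.2.1
        i.2.2.2.2.1 i.2.2.2.2.2.1 (P.h i.1) i.2.2.2.2.2.2 P.θ ≤ ((N : ℝ) ^ 12)⁻¹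
    · obtain ⟨β, hβ, hub⟩ := hex
      have hm := hU S F (H.toBlk i.1 β i.1.2) σ i.2.2.1 i.2.2.2.1 i.2.2.2.2.1 i.2.2.2.2.2.1
        (P.h i.1) i.2.2.2.2.2.2 P.θ P.θ_nonneg (by have := P.θ_le; linarith)
      have hmono : Nat.card {w // B5 i w} ≤ Nat.card {w : World S //
          UE (H.toBlk i.1 β i.1.2) σ i.2.2.1 i.2.2.2.1 i.2.2.2.2.1 i.2.2.2.2.2.1
            (P.h i.1) i.2.2.2.2.2.2 P.θ w} := by
        refine card_mono fun w hw => ?_
        obtain ⟨β', ⟨hβ', _⟩, hw⟩ := hw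
        have : β' = β := Option.some.inj (hβ'.symm.trans hβ)
        subst this
        exact hw
      calc (Nat.card {w // B5 i w} : ℝ) ≤ _ := by exact_mod_cast hmono
        _ ≤ ub (H.toBlk i.1 β i.1.2) i.2.2.2.1 i.2.2.2.2.1 i.2.2.2.2.2.1
            (P.h i.1) i.2.2.2.2.2.2 P.θ * Nat.card (World S) := hm
        _ ≤ c := by rw [hc, ← hM]; gcongr
    · rw [card_zero (p := B5 i) fun w hw => hex ⟨_, hw.choose_spec.1⟩]
      simpa using hc0
  -- union bound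
  have u1 := card_union B1 c c1
  have u2 := card_union B2 c c2
  have u3 := card_union B3 c c3
  have u4 := card_union B4 c c4
  have u5 := card_union B5 c c5
  have htot : Nat.card {w // ¬ GoodW H P σ w} ≤ Nat.card {w // ∃ i, B1 i w} +
      (Nat.card {w // ∃ i, B2 i w} + (Nat.card {w // ∃ i, B3 i w} +
      (Nat.card {w // ∃ i, B4 i w} + Nat.card {w // ∃ i, B5 i w}))) := by
    refine (card_mono hbad).trans ((card_or _ _).trans (Nat.add_le_add_left
      ((card_or _ _).trans (Nat.add_le_add_left ((card_or _ _).trans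
        (Nat.add_le_add_left (card_or _ _) _)) _)) _))
  simp only [Fintype.card_prod, Fintype.card_fin, ← hNd] at u1 u2 u3 u4 u5
  have htot' : (Nat.card {w // ¬ GoodW H P σ w} : ℝ) ≤
      (((H.R * N : ℕ) : ℝ) + ((N : ℝ) + ((((H.R * (N * ((N + 1) * (N + 1)))) : ℕ) : ℝ) +
      (((H.R * (N * (3 * H.T)) : ℕ) : ℝ) +
      ((H.R * (N * ((q + 1) * ((N + 1) * ((N + 1) * ((N + 1) * (N + 1)))))) : ℕ) : ℝ))))) * c := by
    have h1 : (Nat.card {w // ¬ GoodW H P σ w} : ℝ) ≤ (Nat.card {w // ∃ i, B1 i w} : ℝ) +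
      (Nat.card {w // ∃ i, B2 i w} + (Nat.card {w // ∃ i, B3 i w} +
      (Nat.card {w // ∃ i, B4 i w} + Nat.card {w // ∃ i, B5 i w}))) := by exact_mod_cast htot
    linarith
  have hR' : (H.R : ℝ) ≤ N := by exact_mod_cast hNR
  have hq' : ((q : ℝ) + 1) ≤ N := by
    have : q + 1 ≤ N := by omega
    exact_mod_cast this
  have hT' : (3 * (H.T : ℝ)) ≤ N := by exact_mod_cast hNT
  have hnum : 4 * (((H.R * N : ℕ) : ℝ) + ((N : ℝ) + ((((H.R * (N * ((N + 1) * (N + 1)))) : ℕ) : ℝ) +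
      (((H.R * (N * (3 * H.T)) : ℕ) : ℝ) +
      ((H.R * (N * ((q + 1) * ((N + 1) * ((N + 1) * ((N + 1) * (N + 1)))))) : ℕ) : ℝ))))) ≤
      (N : ℝ) ^ 12 := by
    push_cast
    have hN1 : (N : ℝ) + 1 ≤ 2 * N := by linarith
    have hN0 : (0 : ℝ) ≤ N := by linarith
    have e1 : (H.R : ℝ) * N ≤ N ^ 7 := by
      calc (H.R : ℝ) * N ≤ N * N := by gcongr
        _ = N ^ 2 := by ring
        _ ≤ N ^ 7 := pow_le_pow_right₀ (by linarith) (by norm_num)
    have e2 : (N : ℝ) ≤ N ^ 7 := by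
      calc (N : ℝ) = N ^ 1 := by ring
        _ ≤ N ^ 7 := pow_le_pow_right₀ (by linarith) (by norm_num)
    have e3 : (H.R : ℝ) * (N * ((N + 1) * (N + 1))) ≤ 4 * N ^ 7 := by
      calc (H.R : ℝ) * (N * ((N + 1) * (N + 1))) ≤ N * (N * ((2 * N) * (2 * N))) := by gcongr
        _ = 4 * N ^ 4 := by ring
        _ ≤ 4 * N ^ 7 := by
          have := pow_le_pow_right₀ (a := (N : ℝ)) (m := 4) (n := 7) (by linarith) (by norm_num)
          linarith
    have e4 : (H.R : ℝ) * (N * (3 * H.T)) ≤ N ^ 7 := by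
      calc (H.R : ℝ) * (N * (3 * H.T)) ≤ N * (N * N) := by gcongr
        _ = N ^ 3 := by ring
        _ ≤ N ^ 7 := pow_le_pow_right₀ (by linarith) (by norm_num)
    have e5 : (H.R : ℝ) * (N * ((q + 1) * ((N + 1) * ((N + 1) * ((N + 1) * (N + 1)))))) ≤
        16 * N ^ 7 := by
      calc (H.R : ℝ) * (N * ((q + 1) * ((N + 1) * ((N + 1) * ((N + 1) * (N + 1)))))) ≤
          N * (N * (N * ((2 * N) * ((2 * N) * ((2 * N) * (2 * N)))))) := by gcongr
        _ = 16 * N ^ 7 := by ring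
    have e6 : 4 * (23 * (N : ℝ) ^ 7) ≤ N ^ 12 := by
      have e7 : (N : ℝ) ^ 12 = N ^ 5 * N ^ 7 := by ring
      have e8 : (10 : ℝ) ^ 5 ≤ N ^ 5 := by gcongr
      have e9 : (0 : ℝ) ≤ N ^ 7 := by positivity
      rw [e7]
      nlinarith
    linarith
  have hN12 : (0 : ℝ) < (N : ℝ) ^ 12 := by positivity
  calc (4 * Nat.card {w : World S // ¬ GoodW H P σ w} : ℝ)
      ≤ 4 * ((((H.R * N : ℕ) : ℝ) + ((N : ℝ) + ((((H.R * (N * ((N + 1) * (N + 1)))) : ℕ) : ℝ) +
      (((H.R * (N * (3 * H.T)) : ℕ) : ℝ) +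
      ((H.R * (N * ((q + 1) * ((N + 1) * ((N + 1) * ((N + 1) * (N + 1)))))) : ℕ) : ℝ))))) * c) := by
        linarith
    _ = (4 * (((H.R * N : ℕ) : ℝ) + ((N : ℝ) + ((((H.R * (N * ((N + 1) * (N + 1)))) : ℕ) : ℝ) +
      (((H.R * (N * (3 * H.T)) : ℕ) : ℝ) +
      ((H.R * (N * ((q + 1) * ((N + 1) * ((N + 1) * ((N + 1) * (N + 1)))))) : ℕ) : ℝ)))))) * c := by
        ring
    _ ≤ (N : ℝ) ^ 12 * c := by gcongr
    _ = M := by
        rw [hc]
        field_simp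
    _ = _ := hM

end

end Pool.Agent.AcyAd
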