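import Pool.Agent.AcyAd.Targets3
import Pool.Agent.AcyTest.POT
import Pool.Agent.AcyTest.TREE

/-!
# MP_08c6cd_lc, fully adaptive testers: job ADC-PTN, nice logs have a potential
-/

namespace Pool.Agent.AcyAd

open scoped Classical
open Pool.Agent.AcyTest

noncomputable section

namespace PTN_

variable {S : Sys} {F : Fx S} (H : Hier S F)

/-- Iterated parents are near. -/
theorem near_iter (σ : Player S) (w : World S) (k : ℕ) {u : S.V} (hu : H.prj (w.lam u) ≠ none)
    {j : ℕ} (hj : j ≤ H.dep H.R (run F σ w k) u) :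
    H.near j (w.lam ((par (run F σ w k))^[j] u)) (w.lam u) := by
  induction j with
  | zero => exact H.near_refl hu 0
  | succ j ih =>
    have h0 := H.dep_iter (t := H.R) (L := run F σ w k) (v := u) (j := j) (by omega)
    have h : 0 < H.dep H.R (run F σ w k) ((par (run F σ w k))^[j] u) := by omega
    obtain ⟨e, L', h1, h2, h3, h4, _⟩ := H.dep_pos h
    obtain ⟨_, h6, y, hy, h7⟩ := disc_iff.1 h2
    have he : e ∈ run F σ w k := h1.subset List.mem_cons_self
    obtain ⟨h8, h9, _⟩ := run_r σ w he hy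
    have h10 := (run_mem σ w he).1
    have h11 : e.p.1 = w.lam e.a.1 := by rw [h10]; rfl
    have h12 : y.2.1 = w.lam y.1.1 := by rw [h9]; rfl
    have h13 : F.fx e.b e.p = some y.2 := by
      rw [← w.mt_none (F.cc_none (H.ge_R h3))]
      exact h8
    have h14 := H.fx_near h13
    rw [h11, h12, h7, ← h4] at h14
    rw [Function.iterate_succ_apply']
    have h15 := H.near_trans h14 (ih (by omega))
    rwa [Nat.add_comm] at h15

/-- The landing name of a name is near. -/
theorem near_root (σ : Player S) (w : World S) (k : ℕ) {u : S.V} (hu : H.prj (w.lam u) ≠ none) :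
    H.near (H.dep H.R (run F σ w k) u) (w.lam (H.root H.R (run F σ w k) u)) (w.lam u) := by
  rw [H.root_eq.1]
  exact near_iter H σ w k hu le_rfl

/-- A fixed pair between touched names, seen in `Q`. -/
def O (w : World S) (L : List (En S)) (q q' : H.Q) : Prop :=
  ∃ u ∈ touched L, ∃ u' ∈ touched L, ∃ r r', F.fx true (w.lam u, r) = some (w.lam u', r') ∧
    H.prj (w.lam u) = some q ∧ H.prj (w.lam u') = some q'

/-- The symmetric relation. -/
def X (w : World S) (L : List (En S)) (q q' : H.Q) : Prop := O H w L q q' ∨ O H w L q' q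

/-- Equivalence closures of symmetric relations. -/
theorem eqv_rtg {Q : Type} {r : Q → Q → Prop} (hr : ∀ a b, r a b → r b a) {a b : Q}
    (h : Relation.EqvGen r a b) : Relation.ReflTransGen r a b := by
  have key : ∀ a b, Relation.ReflTransGen r a b → Relation.ReflTransGen r b a := by
    intro a b hab
    induction hab with
    | refl => exact Relation.ReflTransGen.refl
    | tail _ h2 ih => exact Relation.ReflTransGen.head (hr _ _ h2) ih
  induction h with
  | rel a b hab => exact Relation.ReflTransGen.single hab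
  | refl a => exact Relation.ReflTransGen.refl
  | symm a b _ ih => exact key _ _ ih
  | trans a b c _ _ ih1 ih2 => exact ih1.trans ih2

theorem X_near {w : World S} {L : List (En S)} {q q' : H.Q} (h : X H w L q q') :
    ∃ u ∈ touched L, ∃ u' ∈ touched L, H.prj (w.lam u) = some q ∧ H.prj (w.lam u') = some q' ∧
      H.near 1 (w.lam u) (w.lam u') := by
  rcases h with ⟨u, hu, u', hu', r, r', h1, h2, h3⟩ | ⟨u, hu, u', hu', r, r', h1, h2, h3⟩
  · exact ⟨u, hu, u', hu', h2, h3, H.fx_near h1⟩
  · exact ⟨u', hu', u, hu, h3, h2, H.near_symm (H.fx_near h1)⟩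

/-- The steps between landing names. -/
def St (w : World S) (L : List (En S)) (h : ℕ) (z z' : S.V) : Prop :=
  z' ∈ (H.land L).filter (fun z => H.prj (w.lam z) ≠ none) ∧
    H.near (2 * h + 1) (w.lam z) (w.lam z')

theorem near_prj {n : ℕ} {x y : S.V} (h : H.near n x y) : H.prj x ≠ none := by
  obtain ⟨q, _, h1, _⟩ := h
  rw [h1]
  exact Option.some_ne_none q

theorem near_of_eq {x y : S.V} {q : H.Q} (h : H.prj x = some q) (h' : H.prj y = some q) :
    H.near 0 x y := ⟨q, q, h, h', SimpleGraph.Walk.nil, by simp⟩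

/-- The landing name of a touched name. -/
theorem root_land (σ : Player S) (w : World S) (k : ℕ) {u : S.V} (ht : u ∈ touched (run F σ w k))
    (hu : H.prj (w.lam u) ≠ none) : H.root H.R (run F σ w k) u ∈
      (H.land (run F σ w k)).filter (fun z => H.prj (w.lam z) ≠ none) := by
  rw [Finset.mem_filter]
  refine ⟨?_, near_prj H (near_root H σ w k hu)⟩
  rw [Hier.land, H.mem_roots]
  exact ⟨H.root_touched ht, H.root_root⟩

/-- A chain of fixed pairs gives a chain of landing names. -/
theorem chain (σ : Player S) (w : World S) (k h : ℕ)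
    (hd : ∀ v, H.dep H.R (run F σ w k) v < h) {u₀ : S.V} (hu₀ : u₀ ∈ touched (run F σ w k))
    {q₀ : H.Q} (hq₀ : H.prj (w.lam u₀) = some q₀) {q : H.Q}
    (hq : Relation.ReflTransGen (X H w (run F σ w k)) q₀ q) :
    ∃ u ∈ touched (run F σ w k), H.prj (w.lam u) = some q ∧
      Relation.ReflTransGen (St H w (run F σ w k) h) (H.root H.R (run F σ w k) u₀)
        (H.root H.R (run F σ w k) u) := by
  induction hq with
  | refl => exact ⟨u₀, hu₀, hq₀, Relation.ReflTransGen.refl⟩
  | @tail q q' _ hqq' ih =>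
    obtain ⟨u, hu, h1, h2⟩ := ih
    obtain ⟨v, hv, v', hv', h3, h4, h5⟩ := X_near H hqq'
    refine ⟨v', hv', h4, h2.tail ⟨?_, ?_⟩⟩
    · exact root_land H σ w k hv' (by rw [h4]; exact Option.some_ne_none _)
    · have e1 := near_root H σ w k (u := u) (by rw [h1]; exact Option.some_ne_none _)
      have e2 := near_root H σ w k (u := v') (by rw [h4]; exact Option.some_ne_none _)
      have e3 := H.near_trans (H.near_trans (H.near_trans e1 (near_of_eq H h1 h3)) h5)
        (H.near_symm e2)
      refine H.near_mono ?_ e3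
      have := hd u
      have := hd v'
      omega

/-- The bound for the distances in a component. -/
theorem walk_le (hCLU : T_CLU) (σ : Player S) (w : World S) (k h n m : ℕ)
    (hN : Nice H h n m (run F σ w k)) (hn : (m + 1) * (2 * h + 1) ≤ n) {u₀ : S.V}
    (hu₀ : u₀ ∈ touched (run F σ w k)) {q₀ : H.Q} (hq₀ : H.prj (w.lam u₀) = some q₀) :
    ∃ c, H.prj (w.lam (H.root H.R (run F σ w k) u₀)) = some c ∧ ∀ q,
      Relation.ReflTransGen (X H w (run F σ w k)) q₀ q → ∃ p : H.GQ.Walk c q, p.length ≤ n + h := by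
  have h0 : H.prj (w.lam u₀) ≠ none := by rw [hq₀]; exact Option.some_ne_none _
  have h1 := root_land H σ w k hu₀ h0
  obtain ⟨c, hc⟩ := Option.ne_none_iff_exists'.1 (Finset.mem_filter.1 h1).2
  refine ⟨c, hc, fun q hq => ?_⟩
  obtain ⟨u, hu, h2, h3⟩ := chain H σ w k h hN.1 hu₀ hq₀ hq
  have h4 := hCLU S.V ((H.land (run F σ w k)).filter (fun z => H.prj (w.lam z) ≠ none))
    (fun i z z' => H.near i (w.lam z) (w.lam z')) (2 * h + 1) m n
    (fun x hx => H.near_refl (Finset.mem_filter.1 hx).2 0)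
    (fun i j x y z hxy hyz => H.near_trans hxy hyz)
    (fun i j x y hij hxy => H.near_mono hij hxy) hn
    (fun x hx => by
      refine (Finset.card_le_card ?_).trans (hN.2 x (Finset.mem_filter.1 hx).1)
      intro y hy
      rw [Finset.mem_filter, Finset.mem_filter] at hy
      rw [Finset.mem_filter] at hx
      unfold Hier.nbh
      rw [Finset.mem_filter]
      have e1 : ∀ z ∈ H.land (run F σ w k), adr (run F σ w k) z = some (w.lam z) := by
        intro z hz
        rw [adr_eq, if_pos]
        rw [Hier.land, H.mem_roots] at hz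
        exact hz.1
      exact ⟨hy.1.1, w.lam x, w.lam y, e1 x hx.1, e1 y hy.1.1, hy.2⟩)
    _ h1 _ h3
  have h5 := near_root H σ w k (u := u) (by rw [h2]; exact Option.some_ne_none _)
  obtain ⟨a, b, ha, hb, p, hp⟩ := H.near_trans h4 h5
  rw [hc] at ha
  rw [h2] at hb
  have ha' := Option.some.inj ha
  have hb' := Option.some.inj hb
  subst ha' hb'
  refine ⟨p, hp.trans ?_⟩
  have := hN.1 u
  omega

/-- The voltage of a pair. -/
def vo {B : ℕ} {FF : Fx S} (W : Twist F FF H B) (q q' : H.Q) : ℤ :=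
  if W.ori q q' = 1 then 1 else if W.ori q' q = 1 then -1 else 0

theorem vo_anti {B : ℕ} {FF : Fx S} (W : Twist F FF H B) (q q' : H.Q) :
    vo H W q' q = - vo H W q q' := by
  unfold vo
  have h := W.ori_anti q q'
  by_cases h1 : W.ori q q' = 1
  · have h2 : ¬ W.ori q' q = 1 := by omega
    rw [if_neg h2, if_pos h1, if_pos h1]
  · by_cases h2 : W.ori q' q = 1
    · rw [if_pos h2, if_neg h1, if_pos h2]
      rfl
    · rw [if_neg h2, if_neg h1, if_neg h1, if_neg h2]
      rfl

theorem vo_abs {B : ℕ} {FF : Fx S} (W : Twist F FF H B) (q q' : H.Q) : |vo H W q q'| ≤ 1 := by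
  unfold vo
  split_ifs <;> simp

/-- Potentials near a centre. -/
theorem pot {B : ℕ} {FF : Fx S} (W : Twist F FF H B) (hB : 2 * B + 1 ≤ H.g0) (c : H.Q) :
    ∃ t : H.Q → ℤ, (∀ u v, H.GQ.Adj u v → (∃ p : H.GQ.Walk c u, p.length ≤ B) →
      (∃ p : H.GQ.Walk c v, p.length ≤ B) → t v = vo H W u v + t u) ∧
      ∀ q, (∃ p : H.GQ.Walk c q, p.length ≤ B) → |t q - t c| ≤ B := by
  obtain ⟨τ, hτ⟩ := tPOT tTREE H.Q (Multiplicative ℤ) H.GQ B c
    (fun q q' => Multiplicative.ofAdd (vo H W q q'))
    (fun v p hp => by have := H.long v p hp; omega)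
    (fun u v => by
      show Multiplicative.ofAdd (vo H W v u) = (Multiplicative.ofAdd (vo H W u v))⁻¹
      rw [vo_anti, ofAdd_neg])
  have h1 : ∀ u v, H.GQ.Adj u v → (∃ p : H.GQ.Walk c u, p.length ≤ B) →
      (∃ p : H.GQ.Walk c v, p.length ≤ B) → (τ v).toAdd = vo H W u v + (τ u).toAdd := by
    intro u v huv hu hv
    have := congrArg Multiplicative.toAdd (hτ u v huv hu hv)
    rw [toAdd_mul, toAdd_ofAdd] at this
    exact this
  refine ⟨fun q => (τ q).toAdd, h1, ?_⟩
  suffices h : ∀ l : ℕ, l ≤ B → ∀ q, (∃ p : H.GQ.Walk c q, p.length ≤ l) →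
      |(τ q).toAdd - (τ c).toAdd| ≤ l from h B le_rfl
  intro l
  induction l with
  | zero =>
    rintro _ q ⟨p, hp⟩
    have : c = q := SimpleGraph.Walk.eq_of_length_eq_zero (by omega : p.length = 0)
    subst this
    simp
  | succ l ih =>
    rintro hl q ⟨p, hp⟩
    obtain ⟨p', hp'⟩ : ∃ p' : H.GQ.Walk q c, p'.length ≤ l + 1 :=
      ⟨p.reverse, by rwa [SimpleGraph.Walk.length_reverse]⟩
    cases p' with
    | nil =>
      rw [sub_self, abs_zero]
      positivity
    | @cons _ x _ hqx p'' =>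
      rw [SimpleGraph.Walk.length_cons] at hp'
      have h2 : ∃ p : H.GQ.Walk c x, p.length ≤ l :=
        ⟨p''.reverse, by rw [SimpleGraph.Walk.length_reverse]; omega⟩
      have h3 := ih (by omega) x h2
      have h4 := h1 x q hqx.symm (by obtain ⟨p, hp⟩ := h2; exact ⟨p, by omega⟩) ⟨p, by omega⟩
      have h5 := vo_abs H W x q
      rw [h4]
      rw [abs_le] at h3 h5 ⊢
      push_cast
      constructor <;> linarith [h3.1, h3.2, h5.1, h5.2]

/-- Potentials on a component. -/
theorem pot_comp (hCLU : T_CLU) {B : ℕ} {FF : Fx S} (W : Twist F FF H B) (σ : Player S)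
    (w : World S) (k h n m : ℕ) (hN : Nice H h n m (run F σ w k))
    (hn : (m + 1) * (2 * h + 1) ≤ n) (hnB : n + h + 1 ≤ B) (hB : 2 * B + 1 ≤ H.g0) (q₀ : H.Q) :
    ∃ g : H.Q → ℤ, (∀ q, Relation.ReflTransGen (X H w (run F σ w k)) q₀ q → |g q| ≤ B) ∧
      ∀ q q', Relation.ReflTransGen (X H w (run F σ w k)) q₀ q → O H w (run F σ w k) q q' →
        g q' = g q + 1 := by
  by_cases hD : ∃ u₀ ∈ touched (run F σ w k), H.prj (w.lam u₀) = some q₀
  · obtain ⟨u₀, hu₀, hq₀⟩ := hD
    obtain ⟨c, _, hc⟩ := walk_le H hCLU σ w k h n m hN hn hu₀ hq₀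
    obtain ⟨t, ht1, ht2⟩ := pot H W hB c
    have hc' : ∀ q, Relation.ReflTransGen (X H w (run F σ w k)) q₀ q →
        ∃ p : H.GQ.Walk c q, p.length ≤ B := by
      intro q hq
      obtain ⟨p, hp⟩ := hc q hq
      exact ⟨p, by omega⟩
    refine ⟨fun q => t q - t c, fun q hq => ht2 q (hc' q hq), fun q q' hq hO => ?_⟩
    have hO' := hO
    obtain ⟨u, _, u', _, r, r', h1, h2, h3⟩ := hO
    obtain ⟨a, a', ha, ha', hadj⟩ := H.fx_adj _ _ _ h1
    rw [h2] at ha
    rw [h3] at ha'
    have e1 := Option.some.inj ha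
    have e2 := Option.some.inj ha'
    subst e1 e2
    have h4 := ht1 q q' hadj (hc' q hq) (hc' q' (hq.tail (Or.inl hO')))
    have h5 : vo H W q q' = 1 := by
      unfold vo
      rw [if_pos (W.ori_fx _ _ _ _ q q' h1 h2 h3)]
    rw [h5] at h4
    show t q' - t c = t q - t c + 1
    rw [h4]
    ring
  · have h1 : ∀ q, ¬ X H w (run F σ w k) q₀ q := by
      intro q hq
      obtain ⟨u, hu, _, _, h2, _⟩ := X_near H hq
      exact hD ⟨u, hu, h2⟩
    refine ⟨fun _ => 0, fun _ _ => by simp, fun q q' hq hO => ?_⟩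
    exfalso
    rcases Relation.ReflTransGen.cases_head hq with rfl | ⟨a, ha, _⟩
    · exact h1 _ (Or.inl hO)
    · exact h1 _ ha

end PTN_

open PTN_ in
theorem tPTN (hCLU : T_CLU) : T_PTN := by
  intro S FA FF H B W σ w k h n m hN hn hnB hB
  choose G hG1 hG2 using pot_comp H hCLU W σ w k h n m hN hn hnB hB
  let rep : H.Q → H.Q := fun q => (Quot.mk (X H w (run FA σ w k)) q).out
  have hr1 : ∀ q q', X H w (run FA σ w k) q q' → rep q = rep q' := by
    intro q q' hq
    show (Quot.mk (X H w (run FA σ w k)) q).out = (Quot.mk (X H w (run FA σ w k)) q').out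
    rw [Quot.sound hq]
  have hr2 : ∀ q, Relation.ReflTransGen (X H w (run FA σ w k)) (rep q) q := by
    intro q
    exact eqv_rtg (fun _ _ h => h.symm) (Quot.eqvGen_exact (Quot.out_eq _))
  let f : Option H.Q → ℤ := fun o => match o with
    | none => 0
    | some q => G (rep q) q
  have hf : ∀ q q', O H w (run FA σ w k) q q' → f (some q') = f (some q) + 1 := by
    intro q q' hO
    show G (rep q') q' = G (rep q) q + 1
    rw [← hr1 q q' (Or.inl hO)]
    exact hG2 (rep q) q q' (hr2 q) hO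
  refine ⟨f, rfl, ?_, ?_⟩
  · intro o
    rcases o with _ | q
    · show |(0 : ℤ)| ≤ B
      simp
    · exact hG1 (rep q) q (hr2 q)
  · intro e he hfx y hy
    obtain ⟨h1, h2, _⟩ := run_r σ w he hy
    have h3 := (run_mem σ w he).1
    have h4 : e.p.1 = w.lam e.a.1 := by rw [h3]; rfl
    have h5 : y.2.1 = w.lam y.1.1 := by rw [h2]; rfl
    have h6 : FA.fx e.b e.p = some y.2 := by
      rw [← w.mt_none (FA.cc_none hfx)]
      exact h1
    have ht1 : e.a.1 ∈ touched (run FA σ w k) := mem_touched.2 ⟨e, he, Or.inl rfl⟩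
    have ht2 : y.1.1 ∈ touched (run FA σ w k) := mem_touched.2 ⟨e, he, Or.inr ⟨y, hy, rfl⟩⟩
    obtain ⟨q, q', hq, hq', _⟩ := H.fx_adj _ _ _ h6
    rw [hq, hq']
    rcases hb : e.b with _ | _
    · have h7 := FA.inv _ _ _ h6
      rw [hb, Bool.not_false] at h7
      have hO : O H w (run FA σ w k) q' q := by
        refine ⟨y.1.1, ht2, e.a.1, ht1, y.2.2, e.p.2, ?_, ?_, ?_⟩
        · rw [← h4, ← h5]
          exact h7
        · rw [← h5, hq']
        · rw [← h4, hq]
      have := hf _ _ hO
      simp only [Bool.false_eq_true, if_false]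
      linarith
    · rw [hb] at h6
      have hO : O H w (run FA σ w k) q q' := by
        refine ⟨e.a.1, ht1, y.1.1, ht2, e.p.2, y.2.2, ?_, ?_, ?_⟩
        · rw [← h4, ← h5]
          exact h6
        · rw [← h4, hq]
        · rw [← h5, hq']
      simp only [if_true]
      exact hf _ _ hO

end

end Pool.Agent.AcyAd
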