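import Pool.Agent.AcyAd.Targets2

/-!
# MP_08c6cd_lc, fully adaptive testers: ADF-RWIN, roots in a window are landings
-/

namespace Pool.Agent.AcyAd

open scoped Classical

noncomputable section

namespace RWIN_

variable {S : Sys} {F : Fx S}

/-- The answer to a question with a known slot is touched. -/
theorem known_ans (σ : Player S) (w : World S) (k : ℕ) {b : Bool} {a : S.Sl} {y : S.Sl}
    (hk : a ∈ known b (run F σ w k)) (hy : w.ask F b a = some y) :
    y.1 ∈ touched (run F σ w k) := by
  rw [mem_known] at hk
  obtain ⟨e, he, h⟩ := hk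
  have h1 := run_ans (F := F) σ w he
  rcases h with ⟨rfl, rfl⟩ | ⟨hb, z, hz, rfl⟩
  · rw [hy] at h1
    unfold En.ans at h1
    rw [Option.map_eq_some_iff] at h1
    obtain ⟨z, hz, rfl⟩ := h1
    rw [mem_touched]
    exact ⟨e, he, Or.inr ⟨z, hz, rfl⟩⟩
  · obtain ⟨_, _, h4⟩ := run_r (F := F) σ w he hz
    have h5 := w.ask_inv h4
    have h6 : (!e.b) = b := by
      revert hb
      cases e.b <;> cases b <;> simp
    rw [h6, hy] at h5
    have h7 := Option.some.inj h5
    rw [mem_touched]
    exact ⟨e, he, Or.inl (by rw [h7])⟩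

end RWIN_

open RWIN_ in
theorem tRWIN : T_RWIN := by
  intro S F H X σ w k h t β l hX ht
  induction k with
  | zero => simp [run, Hier.roots, touched, vtouched]
  | succ k ih =>
    have ih' := ih (fun j hj => hX j (by omega))
    have hXB := hX k (by omega)
    obtain ⟨L, hL⟩ : ∃ L, L = run F σ w k := ⟨_, rfl⟩
    obtain ⟨e, he⟩ : ∃ e, e = nxt F w (σ ((run F σ w k).map En.ans)) := ⟨_, rfl⟩
    have hrun : run F σ w (k + 1) = e :: L := by rw [he, hL]; rfl
    have hmem : e ∈ run F σ w (k + 1) := by rw [hrun]; exact List.mem_cons_self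
    obtain ⟨hp, hr⟩ := run_mem (F := F) σ w hmem
    rw [hrun]
    rw [← hL] at ih' hXB
    -- the two kinds of new roots
    set A := (H.roots t (e :: L)).filter fun v => w.lam v ∈ H.win h t β l with hA
    set A0 := (H.roots t L).filter fun v => w.lam v ∈ H.win h t β l with hA0
    have h1 : A ⊆ A0 ∪ (A.filter fun v => v ∉ touched L ∧ v = e.a.1) ∪
        (A.filter fun v => v ∉ touched L ∧ v ≠ e.a.1) := by
      intro v hv
      by_cases hvt : v ∈ touched L
      · refine Finset.mem_union_left _ (Finset.mem_union_left _ ?_)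
        rw [hA, Finset.mem_filter, Hier.mem_roots] at hv
        rw [hA0, Finset.mem_filter, Hier.mem_roots]
        exact ⟨⟨hvt, by rw [← (H.stable (t := t) (e := e) hvt).2.2]; exact hv.1.2⟩, hv.2⟩
      · by_cases hva : v = e.a.1
        · exact Finset.mem_union_left _ (Finset.mem_union_right _
            (Finset.mem_filter.2 ⟨hv, hvt, hva⟩))
        · exact Finset.mem_union_right _ (Finset.mem_filter.2 ⟨hv, hvt, hva⟩)
    have h2 : (A.filter fun v => v ∉ touched L ∧ v = e.a.1).card ≤
        (if e.a.1 ∉ touched L ∧ e.p.1 ∈ H.z4r X h t β l L then 1 else 0) := by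
      split_ifs with hc
      · refine (Finset.card_le_card (t := {e.a.1}) ?_).trans (by simp)
        intro v hv
        rw [Finset.mem_filter] at hv
        rw [Finset.mem_singleton]
        exact hv.2.2
      · rw [Nat.le_zero, Finset.card_eq_zero, Finset.filter_eq_empty_iff]
        rintro v hv ⟨h3, h4⟩
        apply hc
        subst h4
        refine ⟨h3, ?_⟩
        rw [hA, Finset.mem_filter] at hv
        rw [Hier.z4r, if_pos hXB, hp]
        exact hv.2
    have h3 : (A.filter fun v => v ∉ touched L ∧ v ≠ e.a.1).card ≤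
        (if e.a ∉ known e.b L ∧ S.cc e.b e.p ≠ none ∧
          ∃ y, e.r = some y ∧ y.2.1 ∈ H.z4a X h t β l L e.b e.a e.p then 1 else 0) := by
      -- the facts on such a name
      have key : ∀ v ∈ A.filter (fun v => v ∉ touched L ∧ v ≠ e.a.1),
          ∃ y, e.r = some y ∧ y.1.1 = v := by
        intro v hv
        rw [Finset.mem_filter] at hv
        obtain ⟨hv, h4, h5⟩ := hv
        rw [hA, Finset.mem_filter, Hier.mem_roots, mem_touched_cons] at hv
        rcases hv.1.1 with h6 | h6 | h6
        · exact absurd h6 h4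
        · exact absurd h6 h5
        · exact h6
      split_ifs with hc
      · rcases hr' : e.r with _ | y
        · refine le_trans (le_of_eq ?_) (Nat.zero_le 1)
          rw [Finset.card_eq_zero, Finset.eq_empty_iff_forall_notMem]
          intro v hv
          obtain ⟨y, hy, _⟩ := key v hv
          rw [hr'] at hy
          cases hy
        · refine (Finset.card_le_card (t := {y.1.1}) ?_).trans (by simp)
          intro v hv
          obtain ⟨y', hy, h4⟩ := key v hv
          rw [hr'] at hy
          rw [Finset.mem_singleton, ← h4, Option.some.inj hy]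
      · rw [Nat.le_zero, Finset.card_eq_zero, Finset.eq_empty_iff_forall_notMem]
        intro v hv
        obtain ⟨y, hy, rfl⟩ := key v hv
        rw [Finset.mem_filter] at hv
        obtain ⟨hv, h4, h5⟩ := hv
        rw [hA, Finset.mem_filter, Hier.mem_roots] at hv
        obtain ⟨⟨_, hroot⟩, hwin⟩ := hv
        have hd : Disc L e y.1.1 := disc_iff.2 ⟨h4, h5, y, hy, rfl⟩
        obtain ⟨hmt, hy2, hask⟩ := run_r (F := F) σ w hmem hy
        have hge : ¬ H.ge t e.b e.p := by
          intro hg
          have h6 := H.root_iff.1 hroot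
          rw [Hier.dep_cons, if_pos hd, if_pos hg] at h6
          omega
        apply hc
        refine ⟨?_, ?_, y, hy, ?_⟩
        · intro hkn
          rw [hL] at hkn h4
          exact h4 (known_ans σ w k hkn hask)
        · intro hcc
          apply hge
          right
          rw [w.mt_none hcc] at hmt
          exact ⟨by rw [hmt]; simp, ht⟩
        · rw [Hier.z4a, if_pos ⟨hXB, hge⟩, hy2]
          exact hwin
    have h4 : hits (H.z4r X h t β l) (H.z4a X h t β l) (e :: L) =
        hits (H.z4r X h t β l) (H.z4a X h t β l) L +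
        (if e.a.1 ∉ touched L ∧ e.p.1 ∈ H.z4r X h t β l L then 1 else 0) +
        (if e.a ∉ known e.b L ∧ S.cc e.b e.p ≠ none ∧
          ∃ y, e.r = some y ∧ y.2.1 ∈ H.z4a X h t β l L e.b e.a e.p then 1 else 0) := rfl
    rw [h4]
    refine (Finset.card_le_card h1).trans ((Finset.card_union_le _ _).trans (add_le_add
      ((Finset.card_union_le _ _).trans (add_le_add ih' h2)) h3))

end

end Pool.Agent.AcyAd
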