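import Pool.Agent.AcyAd.Targets1

/-!
# MP_08c6cd_lc, fully adaptive testers: the counting form of the exponential supermartingale
-/

namespace Pool.Agent.AcyAd

open scoped Classical

noncomputable section

namespace SC_

variable {S : Sys} {F : Fx S}

/-- Worlds are finitely many. -/
instance fW : Fintype (World S) := Fintype.ofFinite _

theorem card_eq (P : World S → Prop) :
    Nat.card {w : World S // P w} = (Finset.univ.filter P).card := by
  rw [Nat.card_eq_fintype_card, Fintype.card_subtype]

/-- One step: an event of conditional probability at most `x`. -/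
theorem exp_step {ι : Type} (A : Finset ι) (h : ι → Prop) (s x : ℝ) (hs : 0 ≤ s)
    (hc : ((A.filter h).card : ℝ) ≤ x * A.card) :
    ∑ w ∈ A, Real.exp (s * (if h w then 1 else 0) - (Real.exp s - 1) * x) ≤ A.card := by
  have hl : 0 ≤ Real.exp s - 1 := by linarith [Real.add_one_le_exp s]
  have e1 : ∀ w ∈ A, Real.exp (s * (if h w then 1 else 0) - (Real.exp s - 1) * x) =
      Real.exp (-((Real.exp s - 1) * x)) * (1 + (Real.exp s - 1) * (if h w then 1 else 0)) := by
    intro w _
    rw [sub_eq_add_neg, Real.exp_add, mul_comm]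
    congr 1
    by_cases hw : h w
    · simp [hw]
    · simp [hw]
  rw [Finset.sum_congr rfl e1, ← Finset.mul_sum, Finset.sum_add_distrib, ← Finset.mul_sum,
    Finset.sum_ite, Finset.sum_const_zero, add_zero, Finset.sum_const, Finset.sum_const]
  simp only [nsmul_eq_mul, mul_one]
  have h2 : (A.card : ℝ) + (Real.exp s - 1) * ((A.filter h).card : ℝ) ≤
      (1 + (Real.exp s - 1) * x) * A.card := by
    have := mul_le_mul_of_nonneg_left hc hl
    nlinarith
  have h3 : 1 + (Real.exp s - 1) * x ≤ Real.exp ((Real.exp s - 1) * x) := by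
    linarith [Real.add_one_le_exp ((Real.exp s - 1) * x)]
  have h4 : (A.card : ℝ) + (Real.exp s - 1) * ((A.filter h).card : ℝ) ≤
      Real.exp ((Real.exp s - 1) * x) * A.card :=
    h2.trans (mul_le_mul_of_nonneg_right h3 (Nat.cast_nonneg _))
  calc Real.exp (-((Real.exp s - 1) * x)) *
        ((A.card : ℝ) + (Real.exp s - 1) * ((A.filter h).card : ℝ))
      ≤ Real.exp (-((Real.exp s - 1) * x)) * (Real.exp ((Real.exp s - 1) * x) * A.card) :=
        mul_le_mul_of_nonneg_left h4 (Real.exp_pos _).le
    _ = A.card := by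
        rw [← mul_assoc, ← Real.exp_add]
        simp

/-- From a bound with subtraction to a bound with a factor two. -/
theorem frac {c Z n t A : ℕ} (hn : 0 < n) (h : c * (n - t) ≤ Z * A) (ht : 2 * t ≤ n) :
    (c : ℝ) ≤ 2 * Z / n * A := by
  have h1 : n ≤ 2 * (n - t) := by omega
  have h2 : c * n ≤ 2 * Z * A := by
    calc c * n ≤ c * (2 * (n - t)) := Nat.mul_le_mul_left _ h1
      _ = 2 * (c * (n - t)) := by ring
      _ ≤ 2 * (Z * A) := Nat.mul_le_mul_left _ h
      _ = 2 * Z * A := by ring
  have h3 : (c : ℝ) * n ≤ 2 * Z * A := by exact_mod_cast h2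
  have h4 : (0 : ℝ) < n := by exact_mod_cast hn
  rw [div_mul_eq_mul_div, le_div_iff₀ h4]
  exact h3

variable (Zr : List (En S) → Finset S.V) (Za : List (En S) → Bool → S.Sl → S.Sl → Finset S.V)

/-- The exponential. -/
def ff (s : ℝ) (L : List (En S)) : ℝ :=
  Real.exp (s * (hits Zr Za L : ℝ) - (Real.exp s - 1) * comp Zr Za L)

/-- The increment of `comp`, new name. -/
def cr (L : List (En S)) (a : S.Sl) : ℝ :=
  if a.1 ∉ touched L then 2 * ((Zr L).card : ℝ) / Fintype.card S.V else 0

/-- The increment of `comp`, answer. -/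
def ca (L : List (En S)) (b : Bool) (a p : S.Sl) : ℝ :=
  if a ∉ known b L then match S.cc b p with
        | some κ => 2 * S.D * ((Za L b a p ∩ S.tgt (!b) κ).card : ℝ) / S.N κ
        | none => 0 else 0

/-- A hit of a new name. -/
def hr (L : List (En S)) (a p : S.Sl) : Prop := a.1 ∉ touched L ∧ p.1 ∈ Zr L

/-- A hit of an answer. -/
def ha (L : List (En S)) (e : En S) : Prop :=
  e.a ∉ known e.b L ∧ S.cc e.b e.p ≠ none ∧ ∃ y, e.r = some y ∧ y.2.1 ∈ Za L e.b e.a e.p

theorem ff_cons (s : ℝ) (e : En S) (L : List (En S)) :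
    ff Zr Za s (e :: L) = ff Zr Za s L *
      (Real.exp (s * (if hr Zr L e.a e.p then 1 else 0) - (Real.exp s - 1) * cr Zr L e.a) *
      Real.exp (s * (if ha Za L e then 1 else 0) - (Real.exp s - 1) * ca Za L e.b e.a e.p)) := by
  unfold ff
  rw [← Real.exp_add, ← Real.exp_add]
  congr 1
  have h1 : hits Zr Za (e :: L) = hits Zr Za L + (if hr Zr L e.a e.p then 1 else 0) +
      (if ha Za L e then 1 else 0) := by
    unfold hr ha
    simp only [hits]
    congr!
  have h2 : comp Zr Za (e :: L) = comp Zr Za L + cr Zr L e.a + ca Za L e.b e.a e.p := by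
    unfold cr ca
    simp only [comp]
    congr!
  rw [h1, h2]
  push_cast
  ring

/-- The slots of class `κ` at addresses in `Z` are at most `D` times as many as the addresses. -/
theorem card_slots (b : Bool) (κ : S.K) (Z : Finset S.V) :
    (Finset.univ.filter fun y : S.Sl => y.1 ∈ Z ∧ S.cc b y = some κ).card ≤
      S.D * (Z ∩ S.tgt b κ).card := by
  have h : (Finset.univ.filter fun y : S.Sl => y.1 ∈ Z ∧ S.cc b y = some κ) ⊆
      (Z ∩ S.tgt b κ) ×ˢ (Finset.univ : Finset (Fin S.D)) := by
    intro y hy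
    rw [Finset.mem_filter] at hy
    rw [Finset.mem_product, Finset.mem_inter]
    refine ⟨⟨hy.2.1, ?_⟩, Finset.mem_univ _⟩
    unfold Sys.tgt
    rw [Finset.mem_filter]
    exact ⟨Finset.mem_univ _, y.2, hy.2.2⟩
  refine (Finset.card_le_card h).trans ?_
  rw [Finset.card_product, Finset.card_univ, Fintype.card_fin, mul_comm]

theorem N_pos {b : Bool} {p : S.Sl} {κ : S.K} (h : S.cc b p = some κ) : 0 < S.N κ := by
  unfold Sys.N
  cases b
  · have : Nat.card (S.Cl true κ) = Nat.card (S.Cl false κ) := S.card_cc κ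
    rw [this]
    have : Nonempty (S.Cl false κ) := ⟨⟨p, h⟩⟩
    exact Nat.card_pos
  · have : Nonempty (S.Cl true κ) := ⟨⟨p, h⟩⟩
    exact Nat.card_pos

/-- The sum over the worlds with a given log and a given place of the next question. -/
theorem inner (hUNA : T_UNA) (σ : Player S) (k : ℕ) (L : List (En S)) (s : ℝ) (hs : 0 ≤ s)
    (b : Bool) (a p : S.Sl)
    (h2 : ∀ w : World S, run F σ w k = L → w.plc b a = p → ∀ κ, S.cc b p = some κ →
      (Za L b a p ∩ S.tgt (!b) κ).Nonempty → 2 * ncl κ L ≤ S.N κ) :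
    ∑ w ∈ (Finset.univ.filter fun w : World S => run F σ w k = L).filter
        (fun w => w.plc b a = p),
      Real.exp (s * (if ha Za L (nxt F w (b, a)) then 1 else 0) -
        (Real.exp s - 1) * ca Za L b a p) ≤
    (((Finset.univ.filter fun w : World S => run F σ w k = L).filter
        (fun w => w.plc b a = p)).card : ℝ) := by
  set A := (Finset.univ.filter fun w : World S => run F σ w k = L).filter
        (fun w => w.plc b a = p) with hA
  have hAm : ∀ w, w ∈ A ↔ run F σ w k = L ∧ w.plc b a = p := by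
    intro w
    rw [hA, Finset.mem_filter, Finset.mem_filter]
    simp
  apply exp_step _ _ _ _ hs
  -- trivial cases: no hits
  have triv : (∀ w ∈ A, ¬ ha Za L (nxt F w (b, a))) → 0 ≤ ca Za L b a p →
      ((A.filter fun w => ha Za L (nxt F w (b, a))).card : ℝ) ≤ ca Za L b a p * A.card := by
    intro h0 h1
    rw [Finset.filter_false_of_mem h0]
    simp only [Finset.card_empty, Nat.cast_zero]
    positivity
  by_cases hk : a ∈ known b L
  · apply triv
    · intro w _ h
      exact h.1 hk
    · unfold ca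
      rw [if_neg (not_not.2 hk)]
  rcases hc : S.cc b p with _ | κ
  · apply triv
    · intro w hw h
      have := h.2.1
      apply this
      show S.cc b (w.plc b a) = none
      rw [((hAm w).1 hw).2, hc]
    · unfold ca
      rw [if_pos hk, hc]
  have hca : ca Za L b a p = 2 * S.D * ((Za L b a p ∩ S.tgt (!b) κ).card : ℝ) / S.N κ := by
    unfold ca
    rw [if_pos hk, hc]
  have hca0 : 0 ≤ ca Za L b a p := by
    rw [hca]; positivity
  set Z : Finset S.Sl := Finset.univ.filter fun y : S.Sl =>
    y.1 ∈ Za L b a p ∧ S.cc (!b) y = some κ with hZ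
  have hhit : ∀ w ∈ A, ha Za L (nxt F w (b, a)) → ∃ y ∈ Z, w.mt F b p = some y := by
    rintro w hw ⟨_, _, y, hy, hyZ⟩
    have hp := ((hAm w).1 hw).2
    change (w.mt F b (w.plc b a)).map (fun y => (w.unplc (!b) y, y)) = some y at hy
    change y.2.1 ∈ Za L b a (w.plc b a) at hyZ
    rw [hp] at hy hyZ
    rw [Option.map_eq_some_iff] at hy
    obtain ⟨z, hz, rfl⟩ := hy
    refine ⟨z, ?_, hz⟩
    rw [hZ, Finset.mem_filter]
    refine ⟨Finset.mem_univ _, hyZ, ?_⟩
    rw [w.mt_cc hz, hc]
  have hZc : Z.card ≤ S.D * (Za L b a p ∩ S.tgt (!b) κ).card := card_slots _ _ _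
  rcases Finset.eq_empty_or_nonempty (Za L b a p ∩ S.tgt (!b) κ) with he | hne
  · apply triv _ hca0
    intro w hw h
    obtain ⟨y, hy, _⟩ := hhit w hw h
    rw [he, Finset.card_empty, Nat.mul_zero] at hZc
    have : 0 < Z.card := Finset.card_pos.2 ⟨y, hy⟩
    omega
  rcases A.eq_empty_or_nonempty with hAe | ⟨w0, hw0⟩
  · apply triv _ hca0
    intro w hw
    rw [hAe] at hw
    simp at hw
  have hncl := h2 w0 ((hAm w0).1 hw0).1 ((hAm w0).1 hw0).2 κ hc hne
  have hu : (Finset.univ.filter fun w : World S => run F σ w k = L ∧ w.plc b a = p ∧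
        ∃ y ∈ Z, w.mt F b p = some y).card * (S.N κ - ncl κ L) ≤ Z.card * A.card := by
    have hu := hUNA S F σ k L b a p κ Z hk hc
    rw [card_eq, card_eq] at hu
    convert hu using 2
    all_goals
      apply congrArg Finset.card
      ext w
      simp only [hAm, Finset.mem_filter, Finset.mem_univ, true_and]
  have hle : (A.filter fun w => ha Za L (nxt F w (b, a))).card ≤
      (Finset.univ.filter fun w : World S => run F σ w k = L ∧ w.plc b a = p ∧
        ∃ y ∈ Z, w.mt F b p = some y).card := by
    apply Finset.card_le_card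
    intro w hw
    rw [Finset.mem_filter] at hw
    rw [Finset.mem_filter]
    exact ⟨Finset.mem_univ _, ((hAm w).1 hw.1).1, ((hAm w).1 hw.1).2, hhit w hw.1 hw.2⟩
  have hu2 : (A.filter fun w => ha Za L (nxt F w (b, a))).card * (S.N κ - ncl κ L) ≤
      (S.D * (Za L b a p ∩ S.tgt (!b) κ).card) * A.card :=
    (Nat.mul_le_mul_right _ hle).trans (hu.trans (Nat.mul_le_mul_right _ hZc))
  have hf := frac (N_pos hc) hu2 hncl
  rw [hca]
  push_cast at hf
  have e3 : 2 * (S.D * ((Za L b a p ∩ S.tgt (!b) κ).card : ℝ)) / S.N κ =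
      2 * S.D * ((Za L b a p ∩ S.tgt (!b) κ).card : ℝ) / S.N κ := by ring
  rw [e3] at hf
  exact hf

/-- The sum over the worlds with a given log: addresses. -/
theorem outer (hUNR : T_UNR) (σ : Player S) (k : ℕ) (L : List (En S)) (s : ℝ) (hs : 0 ≤ s)
    (b : Bool) (a : S.Sl)
    (h1 : (Zr L).Nonempty → 2 * (touched L).card ≤ Fintype.card S.V) :
    ∑ w ∈ Finset.univ.filter (fun w : World S => run F σ w k = L),
      Real.exp (s * (if hr Zr L a (w.plc b a) then 1 else 0) - (Real.exp s - 1) * cr Zr L a) ≤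
    ((Finset.univ.filter fun w : World S => run F σ w k = L).card : ℝ) := by
  set A := (Finset.univ.filter fun w : World S => run F σ w k = L) with hA
  have hAm : ∀ w, w ∈ A ↔ run F σ w k = L := by
    intro w
    rw [hA, Finset.mem_filter]
    simp
  apply exp_step A (fun w : World S => hr Zr L a (w.plc b a)) _ _ hs
  have triv : (∀ w ∈ A, ¬ hr Zr L a (w.plc b a)) → 0 ≤ cr Zr L a →
      ((A.filter fun w : World S => hr Zr L a (w.plc b a)).card : ℝ) ≤ cr Zr L a * A.card := by
    intro h0 h1
    rw [Finset.filter_false_of_mem h0]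
    simp only [Finset.card_empty, Nat.cast_zero]
    positivity
  by_cases hk : a.1 ∈ touched L
  · apply triv
    · intro w _ h
      exact h.1 hk
    · unfold cr
      rw [if_neg (not_not.2 hk)]
  have hcr : cr Zr L a = 2 * ((Zr L).card : ℝ) / Fintype.card S.V := by
    unfold cr
    rw [if_pos hk]
  have hcr0 : 0 ≤ cr Zr L a := by rw [hcr]; positivity
  rcases Finset.eq_empty_or_nonempty (Zr L) with he | hne
  · apply triv _ hcr0
    intro w hw h
    have := h.2
    rw [he] at this
    simp at this
  have hn := h1 hne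
  have hu : (Finset.univ.filter fun w : World S => run F σ w k = L ∧ w.lam a.1 ∈ Zr L).card *
      (Fintype.card S.V - (touched L).card) ≤ (Zr L).card * A.card := by
    have hu := hUNR S F σ k L a.1 (Zr L) hk
    rw [card_eq, card_eq] at hu
    convert hu using 2
    all_goals
      apply congrArg Finset.card
      ext w
      simp only [hAm, Finset.mem_filter, Finset.mem_univ, true_and]
  have eh : (A.filter fun w : World S => hr Zr L a (w.plc b a)) =
      (Finset.univ.filter fun w : World S => run F σ w k = L ∧ w.lam a.1 ∈ Zr L) := by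
    ext w
    rw [Finset.mem_filter, hAm, Finset.mem_filter]
    constructor
    · rintro ⟨h3, _, h4⟩
      exact ⟨Finset.mem_univ _, h3, h4⟩
    · rintro ⟨_, h3, h4⟩
      exact ⟨h3, hk, h4⟩
  rw [eh]
  have : Nonempty S.V := ⟨a.1⟩
  have := frac Fintype.card_pos hu hn
  rw [hcr]
  exact this

/-- The step of the supermartingale for a given log. -/
theorem step (hUNR : T_UNR) (hUNA : T_UNA) (σ : Player S) (k : ℕ) (L : List (En S)) (s : ℝ)
    (hs : 0 ≤ s) (h1 : (Zr L).Nonempty → 2 * (touched L).card ≤ Fintype.card S.V)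
    (h2 : ∀ w : World S, run F σ w k = L → ∀ b a κ, σ (L.map En.ans) = (b, a) →
      S.cc b (w.plc b a) = some κ → (Za L b a (w.plc b a) ∩ S.tgt (!b) κ).Nonempty →
      2 * ncl κ L ≤ S.N κ) :
    ∑ w ∈ Finset.univ.filter (fun w : World S => run F σ w k = L),
      ff Zr Za s (run F σ w (k + 1)) ≤
    ∑ w ∈ Finset.univ.filter (fun w : World S => run F σ w k = L),
      ff Zr Za s (run F σ w k) := by
  set A := (Finset.univ.filter fun w : World S => run F σ w k = L) with hA
  have hAm : ∀ w, w ∈ A ↔ run F σ w k = L := by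
    intro w
    rw [hA, Finset.mem_filter]
    simp
  obtain ⟨b, a, hba⟩ : ∃ b a, σ (L.map En.ans) = (b, a) := ⟨_, _, rfl⟩
  have e1 : ∀ w ∈ A, ff Zr Za s (run F σ w (k + 1)) = ff Zr Za s L *
      (Real.exp (s * (if hr Zr L a (w.plc b a) then 1 else 0) - (Real.exp s - 1) * cr Zr L a) *
      Real.exp (s * (if ha Za L (nxt F w (b, a)) then 1 else 0) -
        (Real.exp s - 1) * ca Za L b a (w.plc b a))) := by
    intro w hw
    have hL := (hAm w).1 hw
    have e0 : run F σ w (k + 1) = nxt F w (b, a) :: L := by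
      show nxt F w (σ ((run F σ w k).map En.ans)) :: run F σ w k = _
      rw [hL, hba]
    rw [e0, ff_cons]
    rfl
  have e2 : ∀ w ∈ A, ff Zr Za s (run F σ w k) = ff Zr Za s L := by
    intro w hw
    rw [(hAm w).1 hw]
  rw [Finset.sum_congr rfl e1, Finset.sum_congr rfl e2, ← Finset.mul_sum, Finset.sum_const,
    nsmul_eq_mul, mul_comm (A.card : ℝ)]
  have hff : 0 ≤ ff Zr Za s L := (Real.exp_pos _).le
  refine mul_le_mul_of_nonneg_left ?_ hff
  rw [← Finset.sum_fiberwise A (fun w : World S => w.plc b a)]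
  have e3 : ∀ p : S.Sl, ∑ w ∈ A.filter (fun w => w.plc b a = p),
      (Real.exp (s * (if hr Zr L a (w.plc b a) then 1 else 0) - (Real.exp s - 1) * cr Zr L a) *
      Real.exp (s * (if ha Za L (nxt F w (b, a)) then 1 else 0) -
        (Real.exp s - 1) * ca Za L b a (w.plc b a))) ≤
      ∑ w ∈ A.filter (fun w => w.plc b a = p),
      Real.exp (s * (if hr Zr L a (w.plc b a) then 1 else 0) -
        (Real.exp s - 1) * cr Zr L a) := by
    intro p
    have e4 : ∀ w ∈ A.filter (fun w => w.plc b a = p),
      (Real.exp (s * (if hr Zr L a (w.plc b a) then 1 else 0) - (Real.exp s - 1) * cr Zr L a) *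
      Real.exp (s * (if ha Za L (nxt F w (b, a)) then 1 else 0) -
        (Real.exp s - 1) * ca Za L b a (w.plc b a))) =
      (Real.exp (s * (if hr Zr L a p then 1 else 0) - (Real.exp s - 1) * cr Zr L a) *
      Real.exp (s * (if ha Za L (nxt F w (b, a)) then 1 else 0) -
        (Real.exp s - 1) * ca Za L b a p)) := by
      intro w hw
      rw [(Finset.mem_filter.1 hw).2]
    have e5 : ∀ w ∈ A.filter (fun w => w.plc b a = p),
      Real.exp (s * (if hr Zr L a (w.plc b a) then 1 else 0) - (Real.exp s - 1) * cr Zr L a) =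
      Real.exp (s * (if hr Zr L a p then 1 else 0) - (Real.exp s - 1) * cr Zr L a) := by
      intro w hw
      rw [(Finset.mem_filter.1 hw).2]
    rw [Finset.sum_congr rfl e4, Finset.sum_congr rfl e5, ← Finset.mul_sum, Finset.sum_const,
      nsmul_eq_mul, mul_comm ((A.filter fun w => w.plc b a = p).card : ℝ)]
    refine mul_le_mul_of_nonneg_left ?_ (Real.exp_pos _).le
    refine inner Za hUNA σ k L s hs b a p ?_
    intro w hw hp κ hκ hne
    refine h2 w hw b a κ hba ?_ ?_
    · rw [hp, hκ]
    · rw [hp]; exact hne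
  refine (Finset.sum_le_sum fun p _ => e3 p).trans ?_
  rw [Finset.sum_fiberwise A (fun w : World S => w.plc b a)]
  exact outer Zr hUNR σ k L s hs b a h1

/-- The stopped exponential. -/
def st (P : List (En S) → Prop) (s : ℝ) (σ : Player S) (w : World S) : ℕ → ℝ
  | 0 => ff Zr Za s (run F σ w 0)
  | k + 1 => if ∃ j ≤ k, P (run F σ w j) then st P s σ w k else ff Zr Za s (run F σ w (k + 1))

theorem st_eq (P : List (En S) → Prop) (s : ℝ) (σ : Player S) (w : World S) (k : ℕ)
    (h : ¬ ∃ j ≤ k, P (run F σ w j)) :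
    st (F := F) Zr Za P s σ w k = ff Zr Za s (run F σ w k) := by
  cases k with
  | zero => rfl
  | succ k =>
    have : ¬ ∃ j ≤ k, P (run F σ w j) := fun ⟨j, hj, hp⟩ => h ⟨j, by omega, hp⟩
    simp only [st]
    rw [if_neg this]

theorem st_ge (P : List (En S) → Prop) (s c : ℝ) (σ : Player S) (w : World S)
    (hP : ∀ L, P L → c ≤ ff Zr Za s L) (k : ℕ) (h : ∃ j ≤ k, P (run F σ w j)) :
    c ≤ st (F := F) Zr Za P s σ w k := by
  induction k with
  | zero =>
    obtain ⟨j, hj, hp⟩ := h
    have : j = 0 := by omega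
    subst this
    exact hP _ hp
  | succ k ih =>
    simp only [st]
    by_cases h' : ∃ j ≤ k, P (run F σ w j)
    · rw [if_pos h']
      exact ih h'
    · rw [if_neg h']
      obtain ⟨j, hj, hp⟩ := h
      have : j = k + 1 := by
        by_contra hne
        exact h' ⟨j, by omega, hp⟩
      subst this
      exact hP _ hp

theorem st_nonneg (P : List (En S) → Prop) (s : ℝ) (σ : Player S) (w : World S) (k : ℕ) :
    0 ≤ st (F := F) Zr Za P s σ w k := by
  induction k with
  | zero => exact (Real.exp_pos _).le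
  | succ k ih =>
    simp only [st]
    split
    · exact ih
    · exact (Real.exp_pos _).le

/-- The property that an earlier log satisfies `P` depends only on the log. -/
theorem ex_congr (P : List (En S) → Prop) (σ : Player S) {w w' : World S} {k : ℕ}
    (h : run F σ w k = run F σ w' k) :
    (∃ j ≤ k, P (run F σ w j)) ↔ ∃ j ≤ k, P (run F σ w' j) := by
  have key : ∀ (w w' : World S), run F σ w k = run F σ w' k → ∀ j ≤ k,
      run F σ w j = run F σ w' j := by
    intro w w' h j hj
    have h1 : run F σ w j <:+ run F σ w k := run_suffix σ w hj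
    have h2 : run F σ w' j <:+ run F σ w k := by
      rw [h]
      exact run_suffix σ w' hj
    have h3 := List.suffix_of_suffix_length_le h1 h2 (by rw [run_length, run_length])
    exact h3.eq_of_length (by rw [run_length, run_length])
  constructor
  · rintro ⟨j, hj, hp⟩
    refine ⟨j, hj, ?_⟩
    rwa [key w w' h j hj] at hp
  · rintro ⟨j, hj, hp⟩
    refine ⟨j, hj, ?_⟩
    rwa [key w w' h j hj]

theorem decr (hUNR : T_UNR) (hUNA : T_UNA) (σ : Player S) (q : ℕ) (P : List (En S) → Prop)
    (s : ℝ) (hs : 0 ≤ s)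
    (h1 : ∀ (w : World S), ∀ k < q, (Zr (run F σ w k)).Nonempty →
      2 * (touched (run F σ w k)).card ≤ Fintype.card S.V)
    (h2 : ∀ (w : World S), ∀ k < q, ∀ b a κ, σ ((run F σ w k).map En.ans) = (b, a) →
      S.cc b (w.plc b a) = some κ →
      (Za (run F σ w k) b a (w.plc b a) ∩ S.tgt (!b) κ).Nonempty →
      2 * ncl κ (run F σ w k) ≤ S.N κ) (k : ℕ) (hk : k ≤ q) :
    ∑ w : World S, st (F := F) Zr Za P s σ w k ≤ Fintype.card (World S) := by
  induction k with
  | zero =>
    have : ∀ w : World S, st (F := F) Zr Za P s σ w 0 = 1 := by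
      intro w
      show Real.exp (s * ((0 : ℕ) : ℝ) - (Real.exp s - 1) * 0) = 1
      simp
    rw [Finset.sum_congr rfl fun w _ => this w]
    simp
  | succ k ih =>
    refine le_trans ?_ (ih (by omega))
    -- group by the log at time k
    set 𝓛 : Finset (List (En S)) := Finset.univ.image fun w : World S => run F σ w k with h𝓛
    rw [← Finset.sum_fiberwise_of_maps_to (t := 𝓛) (g := fun w : World S => run F σ w k)
        (fun w _ => Finset.mem_image_of_mem _ (Finset.mem_univ w)),
      ← Finset.sum_fiberwise_of_maps_to (t := 𝓛) (g := fun w : World S => run F σ w k)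
        (fun w _ => Finset.mem_image_of_mem _ (Finset.mem_univ w))]
    refine Finset.sum_le_sum fun L hL => ?_
    rw [h𝓛, Finset.mem_image] at hL
    obtain ⟨w0, _, hw0⟩ := hL
    by_cases hex : ∃ j ≤ k, P (run F σ w0 j)
    · refine Finset.sum_le_sum fun w hw => ?_
      have hw' : run F σ w k = L := (Finset.mem_filter.1 hw).2
      have : ∃ j ≤ k, P (run F σ w j) := (ex_congr P σ (hw'.trans hw0.symm)).2 hex
      simp only [st]
      rw [if_pos this]
    · have e1 : ∀ w ∈ Finset.univ.filter (fun w : World S => run F σ w k = L),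
          st (F := F) Zr Za P s σ w (k + 1) = ff Zr Za s (run F σ w (k + 1)) := by
        intro w hw
        have hw' : run F σ w k = L := (Finset.mem_filter.1 hw).2
        have : ¬ ∃ j ≤ k, P (run F σ w j) := fun h =>
          hex ((ex_congr P σ (hw'.trans hw0.symm)).1 h)
        simp only [st]
        rw [if_neg this]
      have e2 : ∀ w ∈ Finset.univ.filter (fun w : World S => run F σ w k = L),
          st (F := F) Zr Za P s σ w k = ff Zr Za s (run F σ w k) := by
        intro w hw
        have hw' : run F σ w k = L := (Finset.mem_filter.1 hw).2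
        have : ¬ ∃ j ≤ k, P (run F σ w j) := fun h =>
          hex ((ex_congr P σ (hw'.trans hw0.symm)).1 h)
        exact st_eq Zr Za P s σ w k this
      rw [Finset.sum_congr rfl e1, Finset.sum_congr rfl e2]
      refine step Zr Za hUNR hUNA σ k L s hs ?_ ?_
      · intro hne
        have := h1 w0 k (by omega)
        rw [hw0] at this
        exact this hne
      · intro w hw b a κ hσ hcc hne
        have := h2 w k (by omega) b a κ
        rw [hw] at this
        exact this hσ hcc hne

end SC_

open SC_ in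
/-- The counting form of the exponential supermartingale. -/
theorem tSC (hUNR : T_UNR) (hUNA : T_UNA) : T_SC := by
  intro S F σ q m α Zr Za hα hαm h1 h2
  have hm : 0 < (m : ℝ) := lt_of_lt_of_le hα hαm
  set s : ℝ := Real.log (m / α) with hs
  have hma : 1 ≤ (m : ℝ) / α := by
    rw [le_div_iff₀ hα]; linarith
  have hs0 : 0 ≤ s := Real.log_nonneg hma
  have hes : Real.exp s = m / α := Real.exp_log (by positivity)
  set P : List (En S) → Prop := fun L => m ≤ hits Zr Za L ∧ comp Zr Za L ≤ α with hP
  set c : ℝ := Real.exp (s * m - (Real.exp s - 1) * α) with hc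
  have hPc : ∀ L, P L → c ≤ ff Zr Za s L := by
    rintro L ⟨ha, hb⟩
    rw [hc]
    unfold ff
    apply Real.exp_le_exp.2
    have i1 : s * (m : ℝ) ≤ s * (hits Zr Za L : ℝ) :=
      mul_le_mul_of_nonneg_left (by exact_mod_cast ha) hs0
    have i2 : (Real.exp s - 1) * comp Zr Za L ≤ (Real.exp s - 1) * α := by
      refine mul_le_mul_of_nonneg_left hb ?_
      rw [hes]; linarith
    linarith
  have hd := decr (F := F) Zr Za hUNR hUNA σ q P s hs0 h1 h2 q le_rfl
  rw [card_eq]
  set B := Finset.univ.filter (fun w : World S => ∃ k ≤ q, m ≤ hits Zr Za (run F σ w k) ∧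
    comp Zr Za (run F σ w k) ≤ α) with hB
  have h3 : (B.card : ℝ) * c ≤ Fintype.card (World S) := by
    refine le_trans ?_ hd
    calc (B.card : ℝ) * c = ∑ _w ∈ B, c := by rw [Finset.sum_const, nsmul_eq_mul]
      _ ≤ ∑ w ∈ B, st (F := F) Zr Za P s σ w q := by
          refine Finset.sum_le_sum fun w hw => ?_
          exact st_ge Zr Za P s c σ w hPc q (Finset.mem_filter.1 hw).2
      _ ≤ _ := Finset.sum_le_sum_of_subset_of_nonneg (Finset.subset_univ _)
          fun w _ _ => st_nonneg Zr Za P s σ w q
  have hcpos : 0 < c := Real.exp_pos _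
  have h4 : (B.card : ℝ) ≤ c⁻¹ * Fintype.card (World S) := by
    rw [inv_mul_eq_div, le_div_iff₀ hcpos]
    exact h3
  have h5 : Nat.card (World S) = Fintype.card (World S) := Nat.card_eq_fintype_card
  rw [h5]
  have h6 : (Finset.univ.filter (fun w : World S => ∃ k ≤ q, m ≤ hits Zr Za (run F σ w k) ∧
    comp Zr Za (run F σ w k) ≤ α)).card = B.card := rfl
  refine le_trans (le_of_eq ?_) (h4.trans ?_)
  · congr 1
    convert h6
  refine (mul_le_mul_of_nonneg_right ?_ (Nat.cast_nonneg _))
  -- the constant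
  rw [hc, ← Real.exp_neg, neg_sub]
  have e1 : (Real.exp s - 1) * α - s * m = (m - α) - s * m := by
    rw [hes]
    field_simp
  rw [e1, Real.exp_sub]
  have e2 : Real.exp (s * m) = (m / α) ^ m := by
    rw [mul_comm, Real.exp_nat_mul, hes]
  rw [e2]
  have e3 : (Real.exp 1 * α / m) ^ m = Real.exp m / (m / α) ^ m := by
    rw [mul_div_assoc, mul_pow, ← Real.exp_nat_mul, mul_one, div_pow, div_pow]
    field_simp
  rw [e3]
  gcongr
  linarith

end

end Pool.Agent.AcyAd
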