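import Pool.Agent.AcyAd.Targets3

set_option autoImplicit false

/-!
# MP_08c6cd_lc, job ADC-SEQ: rounds of queries asked one after the other
-/

namespace Pool.Agent.AcyAd

open scoped Classical
open Pool.Agent.AcyTest

noncomputable section

namespace SEQ_

variable {V : Type} [DecidableEq V] {d : ℕ} {X Z : Type}

/-- The questions of round `k`. -/
def xs (A : RAlg V d) (qa : Query V d → Option X) (G : DG V d) (k : ℕ) : List X :=
  (A.ask k (A.table G k)).toList.filterMap qa

/-- The questions of the rounds before `k`. -/
def pre (A : RAlg V d) (qa : Query V d → Option X) (G : DG V d) : ℕ → List X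
  | 0 => []
  | k + 1 => pre A qa G k ++ xs A qa G k

theorem length_pre (A : RAlg V d) (qa : Query V d → Option X) (G : DG V d) (k : ℕ) :
    (pre A qa G k).length ≤ A.cost G k := by
  induction k with
  | zero => simp [pre]
  | succ k ih =>
    have h1 : A.cost G (k + 1) = A.cost G k + (A.ask k (A.table G k)).card := by
      unfold RAlg.cost
      rw [Finset.sum_range_succ]
    have h2 : (xs A qa G k).length ≤ (A.ask k (A.table G k)).card := by
      rw [← Finset.length_toList]
      exact List.length_filterMap_le _ _
    rw [h1]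
    show (pre A qa G k ++ xs A qa G k).length ≤ _
    rw [List.length_append]
    omega

theorem pre_get (A : RAlg V d) (qa : Query V d → Option X) (G : DG V d) (k j : ℕ)
    (hj : j < (pre A qa G k).length) : ∀ r, k ≤ r → (pre A qa G r)[j]? = (pre A qa G k)[j]? := by
  intro r hr
  induction r, hr using Nat.le_induction with
  | base => rfl
  | succ r hr ih =>
    have hlt : j < (pre A qa G r).length := by
      by_contra hcon
      rw [List.getElem?_eq_none (by omega), List.getElem?_eq_getElem hj] at ih
      exact absurd ih (by simp)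
    show (pre A qa G r ++ xs A qa G r)[j]? = _
    rw [List.getElem?_append_left hlt, ih]

/-- The hypothesis on the answers. -/
def Good (qa : Query V d → Option X) (an : Query V d → Option Z → Option V)
    (o : (X → Z) × DG V d) : Prop := ∀ x, o.2.ans x = an x ((qa x).map o.1)

theorem table_eq (A : RAlg V d) (qa : Query V d → Option X)
    (an : Query V d → Option Z → Option V) (o o' : (X → Z) × DG V d) (h : Good qa an o)
    (h' : Good qa an o') (k : ℕ) (ha : ∀ y ∈ pre A qa o.2 k, o.1 y = o'.1 y) :
    A.table o.2 k = A.table o'.2 k := by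
  induction k with
  | zero => rfl
  | succ k ih =>
    have ih' := ih fun y hy => ha y (List.mem_append_left _ hy)
    funext x
    show (if x ∈ A.ask k (A.table o.2 k) then some (o.2.ans x) else A.table o.2 k x) =
      (if x ∈ A.ask k (A.table o'.2 k) then some (o'.2.ans x) else A.table o'.2 k x)
    rw [← ih']
    by_cases hx : x ∈ A.ask k (A.table o.2 k)
    · rw [if_pos hx, if_pos hx, h x, h' x]
      rcases hq : qa x with _ | y
      · rfl
      · have hy : y ∈ pre A qa o.2 (k + 1) := by
          refine List.mem_append_right _ ?_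
          unfold xs
          rw [List.mem_filterMap]
          exact ⟨x, Finset.mem_toList.2 hx, hq⟩
        simp only [Option.map_some]
        rw [ha y hy]
    · rw [if_neg hx, if_neg hx]

theorem xs_eq (A : RAlg V d) (qa : Query V d → Option X) (G G' : DG V d) (k : ℕ)
    (h : A.table G k = A.table G' k) : xs A qa G k = xs A qa G' k := by
  unfold xs
  rw [h]

variable [Inhabited X]

/-- The `j`-th question. -/
def s (A : RAlg V d) (qa : Query V d → Option X) (r : ℕ) (o : (X → Z) × DG V d) (j : ℕ) : X :=
  ((pre A qa o.2 r)[j]?).getD default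

theorem agree_pre (A : RAlg V d) (qa : Query V d → Option X) (r : ℕ)
    (o o' : (X → Z) × DG V d) (m : ℕ)
    (ha : ∀ j < m, o.1 (s A qa r o j) = o'.1 (s A qa r o j)) (k : ℕ) (hk : k ≤ r)
    (hm : (pre A qa o.2 k).length ≤ m) : ∀ y ∈ pre A qa o.2 k, o.1 y = o'.1 y := by
  intro y hy
  obtain ⟨j, hj, rfl⟩ := List.getElem_of_mem hy
  have h1 := ha j (by omega)
  have h2 : s A qa r o j = (pre A qa o.2 k)[j] := by
    unfold s
    rw [pre_get A qa o.2 k j hj r hk, List.getElem?_eq_getElem hj]
    rfl
  rw [h2] at h1
  exact h1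

theorem step_eq (A : RAlg V d) (qa : Query V d → Option X)
    (an : Query V d → Option Z → Option V) (r : ℕ) (o o' : (X → Z) × DG V d)
    (h : Good qa an o) (h' : Good qa an o') (m : ℕ)
    (ha : ∀ j < m, o.1 (s A qa r o j) = o'.1 (s A qa r o j)) (k : ℕ) (hk : k ≤ r) :
    (pre A qa o.2 k = pre A qa o'.2 k ∧ (pre A qa o.2 k).length ≤ m) ∨
      (m < (pre A qa o.2 k).length ∧ m < (pre A qa o'.2 k).length ∧
        (pre A qa o.2 k)[m]? = (pre A qa o'.2 k)[m]?) := by
  induction k with
  | zero => exact Or.inl ⟨rfl, by simp [pre]⟩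
  | succ k ih =>
    rcases ih (by omega) with ⟨h1, h2⟩ | ⟨h1, h2, h3⟩
    · have hag := agree_pre A qa r o o' m ha k (by omega) h2
      have ht := table_eq A qa an o o' h h' k hag
      have hx := xs_eq A qa o.2 o'.2 k ht
      have hp : pre A qa o.2 (k + 1) = pre A qa o'.2 (k + 1) := by
        show pre A qa o.2 k ++ xs A qa o.2 k = pre A qa o'.2 k ++ xs A qa o'.2 k
        rw [h1, hx]
      rcases Nat.lt_or_ge m (pre A qa o.2 (k + 1)).length with h4 | h4
      · exact Or.inr ⟨h4, by rw [← hp]; exact h4, by rw [hp]⟩
      · exact Or.inl ⟨hp, h4⟩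
    · refine Or.inr ⟨?_, ?_, ?_⟩
      · show m < (pre A qa o.2 k ++ xs A qa o.2 k).length
        rw [List.length_append]
        omega
      · show m < (pre A qa o'.2 k ++ xs A qa o'.2 k).length
        rw [List.length_append]
        omega
      · show (pre A qa o.2 k ++ xs A qa o.2 k)[m]? = (pre A qa o'.2 k ++ xs A qa o'.2 k)[m]?
        rw [List.getElem?_append_left h1, List.getElem?_append_left h2, h3]

theorem s_eq (A : RAlg V d) (qa : Query V d → Option X)
    (an : Query V d → Option Z → Option V) (r : ℕ) (o o' : (X → Z) × DG V d)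
    (h : Good qa an o) (h' : Good qa an o') (m : ℕ)
    (ha : ∀ j < m, o.1 (s A qa r o j) = o'.1 (s A qa r o j)) :
    s A qa r o m = s A qa r o' m := by
  unfold s
  rcases step_eq A qa an r o o' h h' m ha r le_rfl with ⟨h1, _⟩ | ⟨_, _, h3⟩
  · rw [h1]
  · rw [h3]

/-- The list of answers is the one of `o`. -/
def Tr (A : RAlg V d) (qa : Query V d → Option X) (r : ℕ) (o : (X → Z) × DG V d)
    (l : List Z) : Prop := ∀ j < l.length, l.reverse[j]? = some (o.1 (s A qa r o j))

theorem same (A : RAlg V d) (qa : Query V d → Option X)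
    (an : Query V d → Option Z → Option V) (r : ℕ) (o o' : (X → Z) × DG V d)
    (h : Good qa an o) (h' : Good qa an o') (l : List Z) (ht : Tr A qa r o l)
    (ht' : Tr A qa r o' l) : ∀ m ≤ l.length,
      s A qa r o m = s A qa r o' m ∧ ∀ j < m, o.1 (s A qa r o j) = o'.1 (s A qa r o j) := by
  intro m
  induction m with
  | zero =>
    intro _
    have h0 : ∀ j < 0, o.1 (s A qa r o j) = o'.1 (s A qa r o j) := fun j hj => by omega
    exact ⟨s_eq A qa an r o o' h h' 0 h0, h0⟩
  | succ m ih =>
    intro hm
    obtain ⟨h1, h2⟩ := ih (by omega)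
    have h3 : o.1 (s A qa r o m) = o'.1 (s A qa r o m) := by
      have e1 := ht m (by omega)
      have e2 := ht' m (by omega)
      rw [e1, Option.some.injEq] at e2
      rw [e2, h1]
    have h4 : ∀ j < m + 1, o.1 (s A qa r o j) = o'.1 (s A qa r o j) := by
      intro j hj
      rcases Nat.lt_or_ge j m with h5 | h5
      · exact h2 j h5
      · have : j = m := by omega
        rw [this]
        exact h3
    exact ⟨s_eq A qa an r o o' h h' (m + 1) h4, h4⟩

end SEQ_

open SEQ_ in
/-- SEQ: an algorithm with rounds asks its oracle one question after the other. -/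
theorem tSEQ : T_SEQ := by
  intro V _ d A r q X Z _ qa an 𝓞 hgood hcost
  have hG : ∀ o ∈ 𝓞, Good qa an o := fun o ho => hgood o ho
  refine ⟨fun l => if h : ∃ o ∈ 𝓞, Tr A qa r o l then s A qa r h.choose l.length else default,
    fun l => ∃ o ∈ 𝓞, Tr A qa r o l ∧ A.acc (A.table o.2 r) = true, ?_⟩
  intro o ho l hl0 hl
  have key : ∀ k, (l k).length = k ∧ Tr A qa r o (l k) := by
    intro k
    induction k with
    | zero =>
      rw [hl0]
      exact ⟨rfl, fun j hj => by simp at hj⟩
    | succ k ih =>
      obtain ⟨h1, h2⟩ := ih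
      have hex : ∃ o' ∈ 𝓞, Tr A qa r o' (l k) := ⟨o, ho, h2⟩
      have hs : s A qa r hex.choose (l k).length = s A qa r o k := by
        have hc := hex.choose_spec
        have := (same A qa an r o hex.choose (hG o ho) (hG _ hc.1) (l k) h2 hc.2 (l k).length
          le_rfl).1
        rw [← this, h1]
      have hlk := hl k
      simp only [dif_pos hex] at hlk
      rw [hs] at hlk
      refine ⟨by rw [hlk, List.length_cons, h1], ?_⟩
      intro j hj
      rw [hlk, List.reverse_cons]
      rw [hlk, List.length_cons, h1] at hj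
      rcases Nat.lt_or_ge j k with h5 | h5
      · rw [List.getElem?_append_left (by rw [List.length_reverse, h1]; exact h5)]
        exact h2 j (by rw [h1]; exact h5)
      · have : j = k := by omega
        subst this
        rw [List.getElem?_append_right (by rw [List.length_reverse, h1])]
        simp [h1]
  constructor
  · intro hacc
    exact ⟨o, ho, (key q).2, hacc⟩
  · rintro ⟨o', ho', ht', hacc⟩
    have h1 := same A qa an r o o' (hG o ho) (hG o' ho') (l q) (key q).2 ht' q
      (by rw [(key q).1])
    have h2 : (pre A qa o.2 r).length ≤ q := (length_pre A qa o.2 r).trans (hcost o ho)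
    have h3 := agree_pre A qa r o o' q h1.2 r le_rfl h2
    rw [table_eq A qa an o o' (hG o ho) (hG o' ho') r h3]
    exact hacc

end

end Pool.Agent.AcyAd
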