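import Pool.Agent.AcyAd.Targets3

/-!
# MP_08c6cd_lc, fully adaptive testers: a player simulates an algorithm (ADC-SIM)
-/

namespace Pool.Agent.AcyAd

open scoped Classical
open Pool.Agent.AcyTest

noncomputable section

namespace SIM_

theorem pull_ans {V W : Type} {d : ℕ} (L : DG W d) (π : V ≃ W) (x : Query V d) :
    (L.pull π).ans x = (L.ans (x.1, π x.2.1, x.2.2)).map π.symm := by
  obtain ⟨b, v, i⟩ := x
  cases b <;> rfl

theorem nxt_ans {S : Sys} (F : Fx S) (w : World S) (q : Bool × S.Sl) :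
    (nxt F w q).ans = w.ask F q.1 q.2 := by
  unfold nxt En.ans World.ask
  simp only [Option.map_map]
  rfl

end SIM_

open SIM_

/-- SIM: a player simulates an algorithm. -/
theorem tSIM (hS : T_SEQ) : T_SIM := by
  intro S n s d A r q π hne hcost
  have : Inhabited (Bool × S.Sl) := ⟨(true, Classical.choice hne)⟩
  let qa : Query (Fin n) d → Option (Bool × S.Sl) := fun x => qask S s d (x.1, π x.2.1, x.2.2)
  let an : Query (Fin n) d → Option (Option S.Sl) → Option (Fin n) := fun x z =>
    (qans S s d (x.1, π x.2.1, x.2.2) z.join).map π.symm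
  let O : Set (((Bool × S.Sl) → Option S.Sl) × DG (Fin n) d) :=
    {o | ∃ (F : Fx S) (w : World S) (L : DG (GV S s) d), IsGad F w s d L ∧
      o = (fun x => w.ask F x.1 x.2, L.pull π)}
  have h1 : ∀ o ∈ O, ∀ x, o.2.ans x = an x ((qa x).map o.1) := by
    rintro o ⟨F, w, L, hL, rfl⟩ x
    change (L.pull π).ans x = an x ((qa x).map fun x => w.ask F x.1 x.2)
    rw [pull_ans, hL]
    simp only [an, qa]
    congr 2
    rcases qask S s d (x.1, π x.2.1, x.2.2) with _ | a <;> rfl
  have h2 : ∀ o ∈ O, A.cost o.2 r ≤ q := by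
    rintro o ⟨F, w, L, hL, rfl⟩
    exact hcost _
  obtain ⟨σ, acc, h⟩ := hS (Fin n) d A r q (Bool × S.Sl) (Option S.Sl) qa an O h1 h2
  refine ⟨σ, fun L => acc (L.map VE.r), fun F w L hL => ?_⟩
  have h3 := h (fun x => w.ask F x.1 x.2, L.pull π) ⟨F, w, L, hL, rfl⟩
    (fun k => (run F σ w k).map En.ans) rfl (fun k => by
      simp only [run, List.map_cons, nxt_ans])
  rw [h3]
  change _ ↔ acc (((run F σ w q).map En.vis).map VE.r)
  rw [List.map_map]
  rfl

end

end Pool.Agent.AcyAd
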