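import Pool.Agent.AcyAd.Targets2

/-!
# MP_08c6cd_lc, fully adaptive testers: job ADF-SPB, few special pairs
-/

namespace Pool.Agent.AcyAd

open scoped Classical
open Pool.Agent.AcyTest

noncomputable section

namespace SPB_

variable {S : Sys} {F : Fx S} (H : Hier S F)

/-- The root of a lower level of the root of a higher level. -/
theorem root_coarse {t t' : ℕ} (ht : t ≤ t') {L : List (En S)} (v : S.V) :
    H.root t L (H.root t' L v) = H.root t L v := by
  rw [(H.root_eq (t := t') (L := L) (v := v)).1]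
  exact (H.dep_iter (H.dep_anti ht L v)).2

theorem mem_inb {σ : Player S} {w : World S} {k t : ℕ} {β : H.Bk} {v : S.V} :
    v ∈ H.inb t β (run F σ w k) ↔ v ∈ touched (run F σ w k) ∧ H.blk t (w.lam v) = some β := by
  unfold Hier.inb
  rw [Finset.mem_filter, adr_eq]
  constructor
  · rintro ⟨h1, x, hx, h2⟩
    rw [if_pos h1] at hx
    have := Option.some.inj hx
    subst this
    exact ⟨h1, h2⟩
  · rintro ⟨h1, h2⟩
    exact ⟨h1, w.lam v, by rw [if_pos h1], h2⟩

theorem sat_touched {t : ℕ} {β : H.Bk} {L : List (En S)} {A : Finset S.V} (h : H.Sat t β L A) :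
    A ⊆ touched L := fun _ hv => (Finset.mem_filter.1 (h.1 hv)).1

theorem sat_R {t : ℕ} (ht : t < H.R) {β : H.Bk} {L : List (En S)} {A : Finset S.V}
    (h : H.Sat t β L A) : ∀ v ∈ A, H.part H.R L (H.root H.R L v) ⊆ A := by
  intro v hv u hu
  rw [H.mem_part] at hu
  refine h.2 v hv (H.mem_part.2 ⟨hu.1, ?_⟩)
  rw [← root_coarse H ht.le (L := L) u, hu.2, root_coarse H ht.le]

theorem sat_part {σ : Player S} {w : World S} {k t : ℕ} {β : H.Bk} {ρ : S.V}
    (hβ : H.blk t (w.lam ρ) = some β) :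
    H.Sat t β (run F σ w k) (H.part t (run F σ w k) ρ) := by
  constructor
  · intro v hv
    rw [H.mem_part] at hv
    rw [mem_inb H]
    refine ⟨hv.1, ?_⟩
    rw [H.root_blk σ w k v, hv.2, hβ]
  · intro v hv
    rw [H.mem_part] at hv
    rw [hv.2]

theorem sat_big {σ : Player S} {w : World S} {k s t : ℕ} {β : H.Bk} :
    H.Sat t β (run F σ w k) (H.big s t β (run F σ w k)) := by
  constructor
  · exact Finset.filter_subset _ _
  · intro v hv u hu
    rw [H.mem_part] at hu
    unfold Hier.big at hv ⊢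
    rw [Finset.mem_filter, mem_inb H] at hv ⊢
    refine ⟨⟨hu.1, ?_⟩, by rw [hu.2]; exact hv.2⟩
    rw [H.root_blk σ w k u, hu.2, ← H.root_blk σ w k v, hv.1.2]

theorem card_part_roots {L : List (En S)} {t : ℕ} (ρ : S.V) :
    (H.part t L ρ ∩ H.roots t L).card ≤ 1 := by
  rw [Finset.card_le_one]
  intro a ha b hb
  rw [Finset.mem_inter, H.mem_part, H.mem_roots] at ha hb
  rw [← ha.2.2, ha.1.2, ← hb.2.2, hb.1.2]

/-- The trees of the roots in `big` are disjoint subsets with at least `s` members. -/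
theorem card_big_roots {σ : Player S} {w : World S} {k s t : ℕ} {β : H.Bk} :
    (H.big s t β (run F σ w k) ∩ H.roots t (run F σ w k)).card * s ≤
      (H.big s t β (run F σ w k)).card := by
  have h1 : ∀ ρ ∈ H.big s t β (run F σ w k) ∩ H.roots t (run F σ w k),
      s ≤ (H.part t (run F σ w k) ρ).card := by
    intro ρ hρ
    rw [Finset.mem_inter, H.mem_roots] at hρ
    have h2 := (Finset.mem_filter.1 hρ.1).2
    rwa [hρ.2.2] at h2
  have h3 : (H.big s t β (run F σ w k) ∩ H.roots t (run F σ w k)).biUnion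
      (fun ρ => H.part t (run F σ w k) ρ) ⊆ H.big s t β (run F σ w k) := by
    intro v hv
    rw [Finset.mem_biUnion] at hv
    obtain ⟨ρ, hρ, hv⟩ := hv
    rw [Finset.mem_inter, H.mem_roots] at hρ
    refine (sat_big H).2 ρ hρ.1 ?_
    rw [hρ.2.2]
    exact hv
  have h4 := Finset.card_le_card h3
  rw [Finset.card_biUnion] at h4
  · refine le_trans ?_ h4
    rw [← smul_eq_mul]
    exact Finset.card_nsmul_le_sum _ _ _ h1
  · intro a _ b _ hab
    rw [Function.onFun, Finset.disjoint_left]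
    intro v hv hv'
    rw [H.mem_part] at hv hv'
    exact hab (hv.2.symm.trans hv'.2)

/-- The common bound. -/
theorem main (hSPC : T_SPC) (hBH : T_BH) (hCLE : T_CLE) {q : ℕ} (P : Par H q) (σ : Player S)
    (w : World S) (k : ℕ) (hd : ∀ v, H.dep H.R (run F σ w k) v ≤ P.h (H.R - 1))
    (hn : ∀ z ∈ H.land (run F σ w k), (H.nbh P.n' (run F σ w k) z).card ≤ P.K0 + 1)
    {t : ℕ} (ht : t < H.R) {β : H.Bk} {A : Finset S.V} (hA : H.Sat t β (run F σ w k) A) :
    H.spc t A (run F σ w k) ≤ H.evc P.n t A (run F σ w k) + (P.K0 + 1) *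
      ((P.K0 + 2) * H.evc P.n t A (run F σ w k) + 2 * (A ∩ H.roots t (run F σ w k)).card) := by
  have h1 := hSPC S F H σ w k P.n t A
  have h2 := hBH S F H σ w k (P.h (H.R - 1)) P.n' (P.K0 + 1) A (sat_touched H hA)
    (sat_R H ht hA) hd (by have := P.g_big; omega)
    (by
      have h3 := P.n'_big
      have h4 : 2 * P.h (H.R - 1) + 3 ≤ (P.K0 + 2) * (2 * P.h (H.R - 1) + 3) :=
        Nat.le_mul_of_pos_left _ (by omega)
      omega) hn
  have h3 := hCLE S F H σ w k t P.n P.n' (P.K0 + 1) β A ht (by have := P.n_big; omega) hA hn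
  exact h1.trans (Nat.add_le_add_left (h2.trans (Nat.mul_le_mul_left _ h3)) _)

end SPB_

theorem tSPB (hSPC : T_SPC) (hBH : T_BH) (hCLE : T_CLE) (hNC : T_NC) (hEVC1 : T_EVC1)
    (hEVC2 : T_EVC2) (hHB1 : T_HB1) (hHB3 : T_HB3) : T_SPB := by
  intro S F H q P σ w k hk hG hX hd
  obtain ⟨b1, b2⟩ := hHB1 S F H q P σ w k hk hG hX
  obtain ⟨b3, _⟩ := hHB3 S F H q P σ w k hk hG hX
  have hn : ∀ z ∈ H.land (run F σ w k), (H.nbh P.n' (run F σ w k) z).card ≤ P.K0 + 1 :=
    hNC S F H P.X σ w k P.n P.n' P.K0 P.n_big hX b2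
  constructor
  · intro t ht ρ hρ β hs hβ
    have h1 := SPB_.main H hSPC hBH hCLE P σ w k hd hn ht (SPB_.sat_part H (σ := σ) (k := k) hβ)
    have h2 := hEVC1 S F H P.X σ w k P.n (H.T - 1) t ρ hX hρ hs
    have h3 := b1 t ht ρ
    have h4 : H.evc P.n t (H.part t (run F σ w k) ρ) (run F σ w k) ≤ P.K0 := by omega
    have h5 := SPB_.card_part_roots H (L := run F σ w k) (t := t) ρ
    calc H.spc t (H.part t (run F σ w k) ρ) (run F σ w k)
        ≤ P.K0 + (P.K0 + 1) * ((P.K0 + 2) * P.K0 + 2 * 1) := by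
          refine h1.trans ?_
          gcongr
      _ ≤ (P.K0 + 3) ^ 3 := by nlinarith [Nat.zero_le P.K0]
  · intro t ht x β hβ hne
    set A := H.big (H.T - 1) t β (run F σ w k) with hAdef
    have h1 := SPB_.main H hSPC hBH hCLE P σ w k hd hn ht
      (SPB_.sat_big H (σ := σ) (w := w) (k := k) (s := H.T - 1) (t := t) (β := β))
    rw [← hAdef] at h1
    have h2 := hEVC2 S F H P.X σ w k P.n (H.T - 1) t β hX
    rw [← hAdef] at h2
    have h3 := b3 t ht x β hβ
    rw [← hAdef] at h3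
    have hT : 4 ≤ H.T - 1 := by have := H.T_big; omega
    have hT' : (0 : ℝ) < ((H.T - 1 : ℕ) : ℝ) := by
      exact_mod_cast (by omega : 0 < H.T - 1)
    -- the number of roots
    have h4 : (A ∩ H.roots t (run F σ w k)).card * (H.T - 1) ≤ A.card := SPB_.card_big_roots H
    have h5 : ((A ∩ H.roots t (run F σ w k)).card : ℝ) ≤ (A.card : ℝ) / ((H.T - 1 : ℕ) : ℝ) := by
      rw [le_div_iff₀ hT']
      exact_mod_cast h4
    -- the size of `A`
    have h6 : H.T - 1 ≤ A.card := by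
      obtain ⟨v, hv⟩ := hne
      refine (Finset.mem_filter.1 hv).2.trans (Finset.card_le_card ?_)
      exact (SPB_.sat_big H (σ := σ) (w := w) (k := k) (s := H.T - 1) (t := t) (β := β)).2 v hv
    have h7 : (1 : ℝ) ≤ (A.card : ℝ) / ((H.T - 1 : ℕ) : ℝ) := by
      rw [le_div_iff₀ hT', one_mul]
      exact_mod_cast h6
    have h8 : (1 : ℝ) ≤ Real.log (Fintype.card S.V) := by
      have h9 : (10 : ℝ) ≤ (Fintype.card S.V : ℝ) := by exact_mod_cast P.N_10
      rw [Real.le_log_iff_exp_le (by linarith)]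
      have := Real.exp_one_lt_d9
      linarith
    -- the number of events
    have h9 : (∑ ρ ∈ A ∩ H.roots t (run F σ w k),
        (hits (H.z1r P.X P.n (H.T - 1) t ρ) (H.z1a P.X P.n (H.T - 1) t ρ) (run F σ w k) + 1)) ≤
        (A ∩ H.roots t (run F σ w k)).card * P.K0 := by
      rw [← smul_eq_mul]
      refine Finset.sum_le_card_nsmul _ _ _ fun ρ _ => ?_
      exact b1 t ht ρ
    generalize hκ : (A.card : ℝ) / ((H.T - 1 : ℕ) : ℝ) = κ at h3 h5 h7 ⊢
    generalize hl : Real.log (Fintype.card S.V) = lN at h3 h8 ⊢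
    generalize hP : (A ∩ H.roots t (run F σ w k)).card = p at h1 h5 h9
    have h10 : H.evc P.n t A (run F σ w k) ≤
        hits (H.z3r P.X P.n (H.T - 1) t β) (H.z3a P.X P.n (H.T - 1) t β) (run F σ w k) +
          p * P.K0 := h2.trans (Nat.add_le_add_left h9 _)
    generalize hE : H.evc P.n t A (run F σ w k) = E at h1 h10
    generalize hZ : hits (H.z3r P.X P.n (H.T - 1) t β) (H.z3a P.X P.n (H.T - 1) t β)
      (run F σ w k) = Z at h3 h10
    generalize hs : H.spc t A (run F σ w k) = s at h1 ⊢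
    generalize hK : P.K0 = K at h1 h10 ⊢
    have e1 : (E : ℝ) ≤ Z + p * K := by exact_mod_cast h10
    have e2 : (s : ℝ) ≤ E + (K + 1) * ((K + 2) * E + 2 * p) := by exact_mod_cast h1
    have hK0 : (0 : ℝ) ≤ K := Nat.cast_nonneg K
    have hκl : κ ≤ κ * lN := le_mul_of_one_le_right (by linarith) h8
    have hκl' : lN ≤ κ * lN := le_mul_of_one_le_left (by linarith) h7
    have hpK : (p : ℝ) * K ≤ (κ * lN) * K := mul_le_mul_of_nonneg_right (h5.trans hκl) hK0
    have e3 : (E : ℝ) ≤ (K + 43) * (κ * lN) := by nlinarith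
    have hu : (0 : ℝ) ≤ κ * lN := by nlinarith
    have e4 : (p : ℝ) ≤ κ * lN := h5.trans hκl
    have e5 : (1 + (K + 1) * (K + 2) : ℝ) * E ≤
        (1 + (K + 1) * (K + 2)) * ((K + 43) * (κ * lN)) :=
      mul_le_mul_of_nonneg_left e3 (by positivity)
    have e6 : (2 * (K + 1) : ℝ) * p ≤ 2 * (K + 1) * (κ * lN) :=
      mul_le_mul_of_nonneg_left e4 (by positivity)
    have e7 : (s : ℝ) ≤ ((1 + (K + 1) * (K + 2)) * (K + 43) + 2 * (K + 1)) * (κ * lN) := by
      nlinarith
    refine e7.trans ?_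
    rw [mul_assoc (((K : ℝ) + 3) ^ 2 * ((K : ℝ) + 45))]
    refine mul_le_mul_of_nonneg_right ?_ hu
    nlinarith [mul_nonneg hK0 hK0, mul_nonneg hK0 (mul_nonneg hK0 hK0)]

end

end Pool.Agent.AcyAd
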