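import Pool.Agent.AcyAd.Targets2

/-!
# MP_08c6cd_lc: special pairs are events or bottom hits
-/

namespace Pool.Agent.AcyAd

open scoped Classical

noncomputable section

namespace SPC_

variable {S : Sys} {F : Fx S}

lemma halo_self (H : Hier S F) (n : ℕ) (σ : Player S) (w : World S) (k : ℕ) (A : Finset S.V)
    {v : S.V} (hv : v ∈ A) (hvt : v ∈ touched (run F σ w k)) :
    w.lam v ∈ H.halo n (run F σ w k) A := by
  refine Finset.mem_filter.2 ⟨Finset.mem_univ _, v, hv, w.lam v, ?_, Or.inl rfl⟩
  rw [adr_eq, if_pos hvt]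

end SPC_

open SPC_ in
theorem tSPC : T_SPC := by
  intro S F H σ w k n t A
  induction k with
  | zero => exact Nat.le_refl 0
  | succ k ih =>
    set L := run F σ w k with hL
    set e : En S := nxt F w (σ (L.map En.ans)) with he
    have hrun : run F σ w (k + 1) = e :: L := rfl
    rw [hrun]
    have hp : e.p = w.plc e.b e.a := rfl
    have hr : e.r = (w.mt F e.b e.p).map fun y => (w.unplc (!e.b) y, y) := rfl
    have key : (if e.a ∉ known e.b L ∧ H.ge t e.b e.p ∧ ∃ y, e.r = some y ∧
          (y.1.1 ∈ touched L ∨ y.1.1 = e.a.1) ∧ (e.a.1 ∈ A ∨ y.1.1 ∈ A) then 1 else 0) ≤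
        (if e.a ∉ known e.b L ∧ S.cc e.b e.p ≠ none ∧
          ∃ y, e.r = some y ∧ y.2.1 ∈ H.eva n t A L e.b e.a e.p then 1 else 0) +
        (if e.a ∉ known e.b L ∧ F.fx e.b e.p ≠ none ∧ ∃ y, e.r = some y ∧
          (y.1.1 ∈ touched L ∨ y.1.1 = e.a.1) ∧ (e.a.1 ∈ A ∨ y.1.1 ∈ A) then 1 else 0) := by
      by_cases h : e.a ∉ known e.b L ∧ H.ge t e.b e.p ∧ ∃ y, e.r = some y ∧
          (y.1.1 ∈ touched L ∨ y.1.1 = e.a.1) ∧ (e.a.1 ∈ A ∨ y.1.1 ∈ A)
      · rw [if_pos h]
        obtain ⟨hk, hge, y, hy, hyt, hyA⟩ := h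
        by_cases hcc : S.cc e.b e.p = none
        · have hfx : F.fx e.b e.p ≠ none := by
            rcases hge with ⟨κ, h1, -⟩ | ⟨h1, -⟩
            · rw [hcc] at h1; exact absurd h1 (by simp)
            · exact h1
          rw [if_pos (show e.a ∉ known e.b L ∧ F.fx e.b e.p ≠ none ∧ ∃ y, e.r = some y ∧
            (y.1.1 ∈ touched L ∨ y.1.1 = e.a.1) ∧ (e.a.1 ∈ A ∨ y.1.1 ∈ A) from
              ⟨hk, hfx, y, hy, hyt, hyA⟩)]
          omega
        · have hlam : y.2.1 = w.lam y.1.1 := by
            rw [hr, Option.map_eq_some_iff] at hy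
            obtain ⟨y0, -, hy1⟩ := hy
            rw [← hy1]
            show y0.1 = w.lam (w.lam.symm y0.1)
            rw [Equiv.apply_symm_apply]
          have hmem : y.2.1 ∈ H.eva n t A L e.b e.a e.p := by
            unfold Hier.eva
            by_cases heA : e.a.1 ∈ A
            · rw [if_pos ⟨heA, hge⟩, Finset.mem_union]
              rcases hyt with hyt | hyt
              · left
                rw [hlam]
                exact halo_self H n σ w k _ hyt hyt
              · right
                rw [Finset.mem_singleton, hlam, hyt, hp]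
                rfl
            · rw [if_neg (fun h => heA h.1)]
              have hyA' : y.1.1 ∈ A := by
                rcases hyA with h | h
                · exact absurd h heA
                · exact h
              have hyt' : y.1.1 ∈ touched L := by
                rcases hyt with h | h
                · exact h
                · rw [h] at hyA'; exact absurd hyA' heA
              rw [hlam]
              exact halo_self H n σ w k _ (Finset.mem_inter.2 ⟨hyA', hyt'⟩) hyt'
          rw [if_pos (show e.a ∉ known e.b L ∧ S.cc e.b e.p ≠ none ∧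
            ∃ y, e.r = some y ∧ y.2.1 ∈ H.eva n t A L e.b e.a e.p from ⟨hk, hcc, y, hy, hmem⟩)]
          omega
      · rw [if_neg h]
        omega
    show H.spc t A L + _ ≤ (hits (H.evr n A) (H.eva n t A) L + _ + _) + (Hier.bhs A L + _)
    have ih' : H.spc t A L ≤ hits (H.evr n A) (H.eva n t A) L + Hier.bhs (F := F) A L := ih
    refine le_trans (Nat.add_le_add ih' key) ?_
    omega

end

end Pool.Agent.AcyAd
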