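import Pool.Agent.AcyAd.Targets2

/-!
# MP_08c6cd_lc, job ADF-TBG: few selected paths in the big trees
-/

namespace Pool.Agent.AcyAd

open scoped Classical

noncomputable section

namespace TBG_

variable {S : Sys} {F : Fx S} (H : Hier S F)

/-- the union of the big trees in a block is saturated -/
theorem big_sat (σ : Player S) (w : World S) (k s t : ℕ) (β : H.Bk) :
    H.Sat t β (run F σ w k) (H.big s t β (run F σ w k)) := by
  refine ⟨Finset.filter_subset _ _, ?_⟩
  intro v hv u hu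
  unfold Hier.big Hier.inb at hv ⊢
  rw [Finset.mem_filter, Finset.mem_filter] at hv ⊢
  obtain ⟨⟨hv1, z, hz1, hz2⟩, hv2⟩ := hv
  rw [H.mem_part] at hu
  refine ⟨⟨hu.1, w.lam u, ?_, ?_⟩, ?_⟩
  · rw [adr_eq, if_pos hu.1]
  · rw [adr_eq, if_pos hv1] at hz1
    have h1 := Option.some.inj hz1
    rw [H.root_blk σ w k u, hu.2, ← H.root_blk σ w k v, h1, hz2]
  · rw [hu.2]
    exact hv2

theorem card_roots (σ : Player S) (w : World S) (k s t : ℕ) (β : H.Bk) :
    (H.big s t β (run F σ w k) ∩ H.roots t (run F σ w k)).card * s ≤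
      (H.big s t β (run F σ w k)).card := by
  have hsat := big_sat H σ w k s t β
  have h1 : ∀ ρ ∈ H.big s t β (run F σ w k) ∩ H.roots t (run F σ w k),
      s ≤ (H.part t (run F σ w k) ρ).card ∧
      H.part t (run F σ w k) ρ ⊆ H.big s t β (run F σ w k) := by
    intro ρ hρ
    rw [Finset.mem_inter, H.mem_roots] at hρ
    obtain ⟨hρ1, _, hρ2⟩ := hρ
    have h2 := hsat.2 ρ hρ1
    rw [hρ2] at h2
    refine ⟨?_, h2⟩
    have h3 := (Finset.mem_filter.mp hρ1).2
    rw [hρ2] at h3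
    exact h3
  have h2 := Finset.card_nsmul_le_sum (H.big s t β (run F σ w k) ∩ H.roots t (run F σ w k))
    (fun ρ => (H.part t (run F σ w k) ρ).card) s fun ρ hρ => (h1 ρ hρ).1
  rw [smul_eq_mul] at h2
  refine h2.trans ?_
  rw [← Finset.card_biUnion]
  · apply Finset.card_le_card
    intro v hv
    rw [Finset.mem_biUnion] at hv
    obtain ⟨ρ, hρ, hv⟩ := hv
    exact (h1 ρ hρ).2 hv
  · intro ρ _ ρ' _ hne
    rw [Function.onFun, Finset.disjoint_left]
    intro v hv hv'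
    rw [H.mem_part] at hv hv'
    exact hne (hv.2.symm.trans hv'.2)

theorem le_card (σ : Player S) (w : World S) (k s t : ℕ) (β : H.Bk)
    (h : (H.big s t β (run F σ w k)).Nonempty) : s ≤ (H.big s t β (run F σ w k)).card := by
  obtain ⟨v, hv⟩ := h
  have h1 := (big_sat H σ w k s t β).2 v hv
  have h2 := (Finset.mem_filter.mp hv).2
  exact h2.trans (Finset.card_le_card h1)

theorem spc_le (t : ℕ) (A : Finset S.V) (L : List (En S)) : H.spc t A L ≤ L.length := by
  induction L with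
  | nil => exact le_rfl
  | cons e L ih =>
    rw [Hier.spc, List.length_cons]
    split_ifs <;> omega

/-- the numerical estimate -/
theorem num {N D m K' F' y cp h : ℕ} {θ κ r c : ℝ} (hN : 10 ≤ N) (hD : 4 * D ≤ N) (hr : 0 ≤ r)
    (hrh : r ^ h ≤ ((N : ℝ) ^ cp)⁻¹) (hκ : 1 ≤ κ) (hK : (K' : ℝ) ≤ 3 * κ)
    (hF : (F' : ℝ) ≤ 2 * κ + c * κ * Real.log N) (hθ : θ * m ≤ κ)
    (hy : κ * Real.log N ≤ y) (hc : 0 ≤ c) (hcp : 4 * c + 31 ≤ cp) :
    (2 * (N : ℝ)) ^ K' * (2 * (N : ℝ) * D) ^ (2 * F') * (N : ℝ) ^ y * Real.exp (4 * θ * m) *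
      r ^ (h * y) ≤ ((N : ℝ) ^ 12)⁻¹ := by
  have hN' : (10 : ℝ) ≤ N := by exact_mod_cast hN
  have hD' : 4 * (D : ℝ) ≤ N := by exact_mod_cast hD
  have hD0 : (0 : ℝ) ≤ D := Nat.cast_nonneg _
  set l := Real.log N with hl
  have hNe : (N : ℝ) = Real.exp l := (Real.exp_log (by linarith)).symm
  have hl1 : 1 ≤ l := by
    rw [hl, Real.le_log_iff_exp_le (by linarith)]
    have := Real.exp_one_lt_d9
    linarith
  have e1 : (2 * (N : ℝ)) ^ K' ≤ Real.exp (K' * (2 * l)) := by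
    rw [Real.exp_nat_mul]
    apply pow_le_pow_left₀ (by linarith)
    rw [two_mul l, Real.exp_add, ← hNe]
    nlinarith
  have e2 : (2 * (N : ℝ) * D) ^ (2 * F') ≤ Real.exp ((2 * F' : ℕ) * (2 * l)) := by
    rw [Real.exp_nat_mul]
    apply pow_le_pow_left₀ (by positivity)
    rw [two_mul l, Real.exp_add, ← hNe]
    nlinarith
  have e3 : (N : ℝ) ^ y = Real.exp (y * l) := by
    rw [Real.exp_nat_mul, ← hNe]
  have e4 : r ^ (h * y) ≤ Real.exp (y * (cp * (-l))) := by
    rw [pow_mul, Real.exp_nat_mul]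
    apply pow_le_pow_left₀ (by positivity)
    refine hrh.trans_eq ?_
    rw [Real.exp_nat_mul, Real.exp_neg, ← hNe, inv_pow]
  have e5 : ((N : ℝ) ^ 12)⁻¹ = Real.exp ((12 : ℕ) * (-l)) := by
    rw [Real.exp_nat_mul, Real.exp_neg, ← hNe, inv_pow]
  rw [e5]
  have e6 : (2 * (N : ℝ)) ^ K' * (2 * (N : ℝ) * D) ^ (2 * F') * (N : ℝ) ^ y *
      Real.exp (4 * θ * m) * r ^ (h * y) ≤ Real.exp (K' * (2 * l)) *
      Real.exp ((2 * F' : ℕ) * (2 * l)) * Real.exp (y * l) * Real.exp (4 * θ * m) *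
      Real.exp (y * (cp * (-l))) := by
    rw [e3]
    gcongr
  refine e6.trans ?_
  rw [← Real.exp_add, ← Real.exp_add, ← Real.exp_add, ← Real.exp_add, Real.exp_le_exp]
  push_cast
  have hl0 : 0 ≤ l := by linarith
  have k1 : (K' : ℝ) * (2 * l) ≤ 6 * (κ * l) := by
    have := mul_le_mul_of_nonneg_right hK (by linarith : (0 : ℝ) ≤ 2 * l)
    linarith
  have k2 : 2 * (F' : ℝ) * (2 * l) ≤ 8 * (κ * l) + 4 * c * (κ * l * l) := by
    have := mul_le_mul_of_nonneg_right hF (by linarith : (0 : ℝ) ≤ 4 * l)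
    linarith
  have k3 : 4 * θ * m ≤ 4 * κ := by linarith
  have k4 : (y : ℝ) * l + y * (cp * (-l)) ≤ -((4 * c + 30) * (κ * l * l)) := by
    have h1 : 0 ≤ (y : ℝ) * l := by positivity
    have h2 : (4 * c + 30) * ((y : ℝ) * l) ≤ (cp - 1) * ((y : ℝ) * l) :=
      mul_le_mul_of_nonneg_right (by linarith) h1
    have h3 : κ * l * l ≤ (y : ℝ) * l := mul_le_mul_of_nonneg_right hy hl0
    have h4 : (4 * c + 30) * (κ * l * l) ≤ (4 * c + 30) * ((y : ℝ) * l) :=
      mul_le_mul_of_nonneg_left h3 (by linarith)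
    linarith
  have k5 : κ * l ≤ κ * l * l := by
    have : 0 ≤ κ * l := by positivity
    nlinarith
  have k6 : κ ≤ κ * l * l := by nlinarith
  have k7 : l ≤ κ * l := by nlinarith
  linarith

end TBG_

open TBG_

/-- **ADF-TBG** -/
theorem tTBG (h1 : T_UAPP) (h2 : T_DENS) (h3 : T_SPB) : T_TBG := by
  intro S F H q P σ w k hk hG hX hdep t ht x β hβ
  have hsat := big_sat H σ w k (H.T - 1) t β
  have hcr := card_roots H σ w k (H.T - 1) t β
  have hle := le_card H σ w k (H.T - 1) t β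
  have hspc := (h3 S F H q P σ w k hk hG hX hdep).2 t ht x β hβ
  have hspc' := spc_le H t (H.big (H.T - 1) t β (run F σ w k)) (run F σ w k)
  have hdens := h2 S F H P.X P.θ σ w k t ht β P.θ_nonneg P.dn hX
  have hUE := h1 S F H σ w k t (P.h t) ht β _ P.θ (P.h_pos t ht) hsat hdens
  have hAt : (H.big (H.T - 1) t β (run F σ w k)).card ≤ 2 * k := by
    have e1 : H.big (H.T - 1) t β (run F σ w k) ⊆ touched (run F σ w k) :=
      (Finset.filter_subset _ _).trans (Finset.filter_subset _ _)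
    have e2 := card_touched (run F σ w k)
    rw [run_length] at e2
    exact (Finset.card_le_card e1).trans e2
  rw [run_length] at hspc'
  generalize hA : H.big (H.T - 1) t β (run F σ w k) = A at *
  by_contra hcon
  push Not at hcon
  have hTbig := H.T_big
  have hs : 4 ≤ H.T - 1 := by omega
  have hθT := P.θ_T
  generalize hsT : H.T - 1 = s at hcr hle hspc hUE hcon hs hθT
  have hs' : (4 : ℝ) ≤ s := by exact_mod_cast hs
  have hN10 := P.N_10
  have hNq := P.N_q
  have hl0 : 0 ≤ Real.log (Fintype.card S.V) := Real.log_natCast_nonneg _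
  have hAne : A.Nonempty := by
    by_contra h
    rw [Finset.not_nonempty_iff_eq_empty] at h
    subst h
    simp at hcon
  have hsA := hle hAne
  have hspc2 := hspc hAne
  have hκ : (1 : ℝ) ≤ (A.card : ℝ) / s := by
    rw [le_div_iff₀ (by linarith), one_mul]
    exact_mod_cast hsA
  have hdiv : ((A.card / s : ℕ) : ℝ) ≤ (A.card : ℝ) / s := Nat.cast_div_le
  have hdiv' : 4 * (A.card / s) ≤ A.card := by
    have := Nat.div_mul_le_self A.card s
    nlinarith
  have hroots : ((A ∩ H.roots t (run F σ w k)).card : ℝ) ≤ (A.card : ℝ) / s := by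
    rw [le_div_iff₀ (by linarith)]
    exact_mod_cast hcr
  have hrootsA : (A ∩ H.roots t (run F σ w k)).card ≤ A.card :=
    Finset.card_le_card Finset.inter_subset_left
  have htopA : (H.top t (P.h t) (run F σ w k) ∩ A).card ≤ A.card :=
    Finset.card_le_card Finset.inter_subset_right
  refine hG.gU t ht x β hβ k hk _ _ _ _ (by omega) (by omega) (by omega) (by omega) ?_ hUE
  unfold ub
  refine num (cp := P.cp) (κ := (A.card : ℝ) / s) (c := (P.K0 + 3) ^ 2 * (P.K0 + 45)) hN10 P.N_D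
    (by positivity) (P.rho t ht) hκ ?_ ?_ ?_ hcon.le (by positivity) ?_
  · push_cast
    linarith
  · push_cast
    linarith
  · have h4 := hθT
    have h5 : P.θ * A.card = (P.θ * s) * ((A.card : ℝ) / s) := by
      field_simp
    rw [h5]
    have h6 : (0 : ℝ) ≤ (A.card : ℝ) / s := by positivity
    nlinarith
  · have h4 : (8 * ((P.K0 : ℝ) + 45) ^ 3) ≤ P.cp := by exact_mod_cast P.cp_ge
    have h5 : (0 : ℝ) ≤ P.K0 := Nat.cast_nonneg _
    have h6 : ((P.K0 : ℝ) + 3) ^ 2 * (P.K0 + 45) ≤ ((P.K0 : ℝ) + 45) ^ 3 := by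
      have h7 : ((P.K0 : ℝ) + 3) ^ 2 ≤ ((P.K0 : ℝ) + 45) ^ 2 :=
        pow_le_pow_left₀ (by linarith) (by linarith) 2
      have h8 := mul_le_mul_of_nonneg_right h7 (by linarith : (0 : ℝ) ≤ P.K0 + 45)
      calc _ ≤ _ := h8
        _ = _ := by ring
    have h9 : (45 : ℝ) ^ 3 ≤ ((P.K0 : ℝ) + 45) ^ 3 := pow_le_pow_left₀ (by norm_num) (by linarith) 3
    linarith

end

end Pool.Agent.AcyAd
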