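import Pool.Agent.AcyAd.Targets3

/-!
# MP_08c6cd_lc, fully adaptive testers: no tester if the two worlds look alike
-/

namespace Pool.Agent.AcyAd

open scoped Classical
open Pool.Agent.AcyTest

noncomputable section

theorem TL_.nonempty_world (S : Sys) : Nonempty (World S) :=
  ⟨⟨1, fun _ _ => 1, fun κ => (Finite.card_eq.1 (S.card_cc κ)).some⟩⟩

theorem TL_.pull_acyclic {V W : Type} {d : ℕ} (L : DG W d) (π : V ≃ W) (h : L.Acyclic) :
    (L.pull π).Acyclic := by
  intro v hv
  refine h (π v) ?_
  exact hv.lift π fun a b hab => (DG.pull_E L π a b).1 hab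

/-- The sum of the acceptance probabilities over all worlds. -/
theorem TL_.sum_prob {n d r q : ℕ} (T : Tester n d r q) (X : Type) [Fintype X]
    (G : X → DG (Fin n) d) :
    ∑ w, T.prob (G w) = ∑ i, T.w i *
      (Nat.card {w : X // (T.alg i).acc ((T.alg i).table (G w) r) = true} : ℝ) := by
  unfold Tester.prob
  rw [Finset.sum_comm]
  refine Finset.sum_congr rfl fun i _ => ?_
  rw [← Finset.sum_filter, Finset.sum_const, nsmul_eq_mul, mul_comm, Nat.card_eq_fintype_card,
    Fintype.card_subtype]

/-- TL: no tester if the two worlds look alike. -/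
theorem tTL (hG : T_GEX) (hA : T_GACY) (hS : T_SIM) : T_TL := by
  intro S FA FF n s d r q π ε T hne hd hac hfar hlow htest
  obtain ⟨h1, h2⟩ := htest
  choose LA hLA using fun w : World S => hG S FA w s d hd
  choose LF hLF using fun w : World S => hG S FF w s d hd
  have e1 : ∀ w, 2 / 3 ≤ T.prob ((LA w).pull π) := fun w =>
    h1 _ (TL_.pull_acyclic _ π (hA S FA w s d _ hd (hLA w) (hac w)))
  have e2 : ∀ w, T.prob ((LF w).pull π) ≤ 1 / 3 := fun w => h2 _ (hfar w _ (hLF w))
  have : Fintype (World S) := Fintype.ofFinite _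
  have := TL_.nonempty_world S
  have e3 : ∀ i,
      4 * Nat.card {w : World S //
        (T.alg i).acc ((T.alg i).table ((LA w).pull π) r) = true} ≤
      4 * Nat.card {w : World S //
        (T.alg i).acc ((T.alg i).table ((LF w).pull π) r) = true} + Nat.card (World S) := by
    intro i
    obtain ⟨σ, acc, hacc⟩ := hS S n s d (T.alg i) r q π hne (T.cost_le i)
    have hh := hlow σ acc
    have a1 : Nat.card {w : World S //
        (T.alg i).acc ((T.alg i).table ((LA w).pull π) r) = true} =
        Nat.card {w : World S // acc ((run FA σ w q).map En.vis)} :=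
      Nat.card_congr (Equiv.subtypeEquivRight fun w => hacc FA w _ (hLA w))
    have a2 : Nat.card {w : World S //
        (T.alg i).acc ((T.alg i).table ((LF w).pull π) r) = true} =
        Nat.card {w : World S // acc ((run FF σ w q).map En.vis)} :=
      Nat.card_congr (Equiv.subtypeEquivRight fun w => hacc FF w _ (hLF w))
    rw [a1, a2]
    exact hh
  have hN : (0 : ℝ) < Nat.card (World S) := by
    have : 0 < Nat.card (World S) := Nat.card_pos
    exact_mod_cast this
  have f1 : (2 / 3 : ℝ) * Nat.card (World S) ≤ ∑ w, T.prob ((LA w).pull π) := by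
    calc (2 / 3 : ℝ) * Nat.card (World S) = ∑ _w : World S, (2 / 3 : ℝ) := by
          rw [Finset.sum_const, Finset.card_univ, nsmul_eq_mul, mul_comm, Nat.card_eq_fintype_card]
      _ ≤ _ := Finset.sum_le_sum fun w _ => e1 w
  have f2 : ∑ w, T.prob ((LF w).pull π) ≤ (1 / 3 : ℝ) * Nat.card (World S) := by
    calc ∑ w, T.prob ((LF w).pull π) ≤ ∑ _w : World S, (1 / 3 : ℝ) :=
          Finset.sum_le_sum fun w _ => e2 w
      _ = _ := by
          rw [Finset.sum_const, Finset.card_univ, nsmul_eq_mul, mul_comm, Nat.card_eq_fintype_card]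
  rw [TL_.sum_prob T (World S) (fun w => (LA w).pull π)] at f1
  rw [TL_.sum_prob T (World S) (fun w => (LF w).pull π)] at f2
  have f3 : 4 * ∑ i, T.w i * (Nat.card {w : World S //
        (T.alg i).acc ((T.alg i).table ((LA w).pull π) r) = true} : ℝ) ≤
      4 * ∑ i, T.w i * (Nat.card {w : World S //
        (T.alg i).acc ((T.alg i).table ((LF w).pull π) r) = true} : ℝ) +
        Nat.card (World S) := by
    have g : (Nat.card (World S) : ℝ) = ∑ i, T.w i * (Nat.card (World S) : ℝ) := by
      rw [← Finset.sum_mul, T.w_sum, one_mul]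
    rw [g, Finset.mul_sum, Finset.mul_sum, ← Finset.sum_add_distrib]
    refine Finset.sum_le_sum fun i _ => ?_
    have h := e3 i
    have h' : (4 : ℝ) * Nat.card {w : World S //
        (T.alg i).acc ((T.alg i).table ((LA w).pull π) r) = true} ≤
      4 * Nat.card {w : World S //
        (T.alg i).acc ((T.alg i).table ((LF w).pull π) r) = true} + Nat.card (World S) := by
      exact_mod_cast h
    have := mul_le_mul_of_nonneg_left h' (T.w_nonneg i)
    nlinarith [this]
  linarith

end

end Pool.Agent.AcyAd
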