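import Pool.Agent.AcyAd.Targets2

/-!
# MP_08c6cd_lc, fully adaptive testers: the number of selected paths
-/

namespace Pool.Agent.AcyAd

open scoped Classical

noncomputable section

namespace TOP_

variable {S : Sys} {F : Fx S} (H : Hier S F)

/-- The members of the trees of level `t` with at least `s` members. -/
def BG (s t : ℕ) (L : List (En S)) : Finset S.V :=
  (touched L).filter fun v => s ≤ (H.part t L (H.root t L v)).card

theorem big_eq (σ : Player S) (w : World S) (k s t : ℕ) (β : H.Bk) :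
    H.big s t β (run F σ w k) =
      (BG H s t (run F σ w k)).filter fun v => H.blk t (w.lam v) = some β := by
  ext v
  unfold Hier.big Hier.inb BG
  rw [Finset.mem_filter, Finset.mem_filter, Finset.mem_filter, Finset.mem_filter]
  constructor
  · rintro ⟨⟨h1, x, h2, h3⟩, h4⟩
    rw [adr_eq, if_pos h1] at h2
    have := Option.some.inj h2
    subst this
    exact ⟨⟨h1, h4⟩, h3⟩
  · rintro ⟨⟨h1, h4⟩, h3⟩
    refine ⟨⟨h1, w.lam v, ?_, h3⟩, h4⟩
    rw [adr_eq, if_pos h1]

/-- Upper ends of selected paths are touched and lie in a block of level `t`. -/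
theorem top_mem (σ : Player S) (w : World S) (k t h : ℕ) (ht : t < H.R) (hh : 1 ≤ h) {u : S.V}
    (hu : u ∈ H.top t h (run F σ w k)) :
    u ∈ touched (run F σ w k) ∧ H.blk t (w.lam u) ≠ none := by
  unfold Hier.top at hu
  rw [Finset.mem_image] at hu
  obtain ⟨v, hv, rfl⟩ := hu
  rw [Finset.mem_filter] at hv
  obtain ⟨h1, h2, _⟩ := hv
  refine ⟨Hier.iter_touched h1 h, ?_⟩
  obtain ⟨j, rfl⟩ : ∃ j, h = j + 1 := ⟨h - 1, by omega⟩
  have h3 := H.dep_iter (t := t + 1) (L := run F σ w k) (v := v) (j := j) (by omega)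
  have h4 := H.part_blk σ w k (t := t + 1) (v := (par (run F σ w k))^[j] v) (by omega)
  rw [Function.iterate_succ_apply']
  have h5 : H.blk (t + 1) (w.lam (par (run F σ w k) ((par (run F σ w k))^[j] v))) ≠ none := by
    rw [← h4.1]; exact h4.2
  exact ((H.blk_rich t ht _).1 h5).1

/-- The number of selected paths and the number of members of big trees. -/
theorem top_le (hTSM : T_TSM) (hTBG : T_TBG) {q : ℕ} (P : Par H q) (σ : Player S) (w : World S)
    (k : ℕ) (hk : k ≤ q) (hg : GoodW H P σ w) (hX : ∀ j < k, H.XB P.X (run F σ w j))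
    (hd : ∀ v, H.dep H.R (run F σ w k) v ≤ P.h (H.R - 1)) (t : ℕ) (ht : t < H.R) :
    ((H.top t (P.h t) (run F σ w k)).card : ℝ) ≤
      ((BG H (H.T - 1) t (run F σ w k)).card : ℝ) / (H.T - 1 : ℕ) *
        Real.log (Fintype.card S.V) := by
  set L := run F σ w k with hL
  have hlog : 0 ≤ Real.log (Fintype.card S.V) := by
    apply Real.log_nonneg
    have := P.N_10
    exact_mod_cast (by omega : 1 ≤ Fintype.card S.V)
  set TP := H.top t (P.h t) L with hTP
  set I : Finset (Option H.Bk) := TP.image fun u => H.blk t (w.lam u) with hI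
  have hmem : ∀ u ∈ TP, u ∈ BG H (H.T - 1) t L ∧ H.blk t (w.lam u) ≠ none := by
    intro u hu
    obtain ⟨h1, h2⟩ := top_mem H σ w k t (P.h t) ht (P.h_pos t ht) hu
    refine ⟨?_, h2⟩
    unfold BG
    rw [Finset.mem_filter]
    refine ⟨h1, ?_⟩
    by_contra hlt
    push Not at hlt
    have h3 : H.root t L u ∈ H.roots t L := by
      rw [H.mem_roots]
      exact ⟨H.root_touched h1, H.root_root⟩
    have h4 := hTSM S F H q P σ w k hk hg hX hd t ht _ h3 hlt
    have h5 : u ∈ H.top t (P.h t) L ∩ H.part t L (H.root t L u) := by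
      rw [Finset.mem_inter, H.mem_part]
      exact ⟨hu, h1, rfl⟩
    rw [h4] at h5
    simp at h5
  have e1 : TP.card = ∑ o ∈ I, (TP.filter fun u => H.blk t (w.lam u) = o).card :=
    Finset.card_eq_sum_card_fiberwise fun u hu => Finset.mem_image_of_mem _ hu
  have e2 : ∀ o ∈ I, ((TP.filter fun u => H.blk t (w.lam u) = o).card : ℝ) ≤
      (((BG H (H.T - 1) t L).filter fun u => H.blk t (w.lam u) = o).card : ℝ) /
        (H.T - 1 : ℕ) * Real.log (Fintype.card S.V) := by
    intro o ho
    rw [hI, Finset.mem_image] at ho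
    obtain ⟨u, hu, rfl⟩ := ho
    obtain ⟨β, hβ⟩ := Option.ne_none_iff_exists'.1 (hmem u hu).2
    have h1 := hTBG S F H q P σ w k hk hg hX hd t ht (w.lam u) β hβ
    rw [big_eq] at h1
    rw [hβ]
    refine le_trans ?_ h1
    have : (TP.filter fun u => H.blk t (w.lam u) = some β) ⊆
        H.top t (P.h t) (run F σ w k) ∩
          (BG H (H.T - 1) t (run F σ w k)).filter fun v => H.blk t (w.lam v) = some β := by
      intro v hv
      rw [Finset.mem_filter] at hv
      rw [Finset.mem_inter, Finset.mem_filter]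
      exact ⟨hv.1, (hmem v hv.1).1, hv.2⟩
    exact_mod_cast Finset.card_le_card this
  have e3 : ∑ o ∈ I, ((BG H (H.T - 1) t L).filter fun u => H.blk t (w.lam u) = o).card ≤
      (BG H (H.T - 1) t L).card := by
    rw [Finset.sum_card_fiberwise_eq_card_filter]
    exact Finset.card_filter_le _ _
  rw [e1, Nat.cast_sum]
  refine (Finset.sum_le_sum e2).trans ?_
  rw [← Finset.sum_mul, ← Finset.sum_div]
  refine mul_le_mul_of_nonneg_right ?_ hlog
  refine div_le_div_of_nonneg_right ?_ (Nat.cast_nonneg _)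
  exact_mod_cast e3

/-- The number of members of big trees of level `t + 1`. -/
theorem bg_le (hPART : T_PART) {q : ℕ} (P : Par H q) (σ : Player S) (w : World S)
    (k t : ℕ) (ht : t + 1 < H.R) :
    (BG H (H.T - 1) (t + 1) (run F σ w k)).card ≤
      2 * P.Ns ^ 2 * (H.top t (P.h t) (run F σ w k)).card := by
  set L := run F σ w k with hL
  set G := BG H (H.T - 1) (t + 1) L with hG
  set R' := G.image (H.root (t + 1) L) with hR'
  have hpow := P.Ns_pow t (by omega)
  have hNs : 1 ≤ P.Ns := by
    refine le_trans ?_ hpow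
    exact Nat.one_le_pow _ _ (by omega)
  have hT := P.Ns_T
  have e1 : G.card = ∑ ρ ∈ R', (G.filter fun u => H.root (t + 1) L u = ρ).card :=
    Finset.card_eq_sum_card_fiberwise fun u hu => Finset.mem_image_of_mem _ hu
  have e2 : ∀ ρ ∈ R', (G.filter fun u => H.root (t + 1) L u = ρ).card ≤
      2 * P.Ns ^ 2 * ((H.top t (P.h t) L).filter fun u => H.root (t + 1) L u = ρ).card := by
    intro ρ hρ
    rw [hR', Finset.mem_image] at hρ
    obtain ⟨u, hu, rfl⟩ := hρ
    have hu' : H.T - 1 ≤ (H.part (t + 1) L (H.root (t + 1) L u)).card := by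
      rw [hG] at hu
      unfold BG at hu
      exact (Finset.mem_filter.1 hu).2
    set ρ := H.root (t + 1) L u with hρ
    have h1 := hPART S F H σ w k t (P.h t) ρ (P.h_pos t (by omega))
    rw [← hL] at h1
    have h2 : (2 * H.dd (t + 1) + 1) ^ (2 * P.h t) ≤ P.Ns ^ 2 := by
      rw [mul_comm 2 (P.h t), pow_mul]
      exact Nat.pow_le_pow_left hpow 2
    set c := (H.top t (P.h t) L ∩ H.part (t + 1) L ρ).card with hc
    have h3 : (H.part (t + 1) L ρ).card ≤ P.Ns + c * P.Ns ^ 2 :=
      h1.trans (Nat.add_le_add hpow (Nat.mul_le_mul_left _ h2))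
    have h4 : 1 ≤ c := by
      by_contra h
      have : c = 0 := by omega
      rw [this] at h3
      omega
    have h5 : (H.part (t + 1) L ρ).card ≤ 2 * P.Ns ^ 2 * c := by
      have h6 : P.Ns ≤ c * P.Ns ^ 2 := by
        calc P.Ns = 1 * (P.Ns * 1) := by ring
          _ ≤ c * (P.Ns * P.Ns) := Nat.mul_le_mul h4 (Nat.mul_le_mul_left _ hNs)
          _ = c * P.Ns ^ 2 := by ring
      calc (H.part (t + 1) L ρ).card ≤ P.Ns + c * P.Ns ^ 2 := h3
        _ ≤ c * P.Ns ^ 2 + c * P.Ns ^ 2 := Nat.add_le_add_right h6 _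
        _ = 2 * P.Ns ^ 2 * c := by ring
    have h7 : (G.filter fun u => H.root (t + 1) L u = ρ) ⊆ H.part (t + 1) L ρ := by
      intro v hv
      rw [Finset.mem_filter] at hv
      rw [H.mem_part]
      have : v ∈ touched L := by
        have := hv.1
        rw [hG] at this
        unfold BG at this
        exact (Finset.mem_filter.1 this).1
      exact ⟨this, hv.2⟩
    have h8 : H.top t (P.h t) L ∩ H.part (t + 1) L ρ ⊆
        (H.top t (P.h t) L).filter fun u => H.root (t + 1) L u = ρ := by
      intro v hv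
      rw [Finset.mem_inter, H.mem_part] at hv
      rw [Finset.mem_filter]
      exact ⟨hv.1, hv.2.2⟩
    exact (Finset.card_le_card h7).trans (h5.trans
      (Nat.mul_le_mul_left _ (Finset.card_le_card h8)))
  rw [e1]
  refine (Finset.sum_le_sum e2).trans ?_
  rw [← Finset.mul_sum]
  refine Nat.mul_le_mul_left _ ?_
  rw [Finset.sum_card_fiberwise_eq_card_filter]
  exact Finset.card_filter_le _ _

end TOP_

open TOP_ in
/-- The number of selected paths. -/
theorem tTOP (hPART : T_PART) (hTSM : T_TSM) (hTBG : T_TBG) : T_TOP := by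
  intro S F H q P σ w k hk hg hX hd t
  have hlog : 0 ≤ Real.log (Fintype.card S.V) := by
    apply Real.log_nonneg
    have := P.N_10
    exact_mod_cast (by omega : 1 ≤ Fintype.card S.V)
  induction t with
  | zero =>
    intro ht
    refine (top_le H hTSM hTBG P σ w k hk hg hX hd 0 ht).trans (le_trans ?_ P.Y_zero)
    have h1 : (BG H (H.T - 1) 0 (run F σ w k)).card ≤ 2 * q := by
      unfold BG
      refine (Finset.card_filter_le _ _).trans ((card_touched _).trans ?_)
      rw [run_length]
      omega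
    have h2 : ((BG H (H.T - 1) 0 (run F σ w k)).card : ℝ) ≤ 2 * q := by exact_mod_cast h1
    rw [div_mul_eq_mul_div]
    exact div_le_div_of_nonneg_right (mul_le_mul_of_nonneg_right h2 hlog) (Nat.cast_nonneg _)
  | succ t ih =>
    intro ht
    have ih' := ih (by omega)
    refine (top_le H hTSM hTBG P σ w k hk hg hX hd (t + 1) ht).trans (le_trans ?_ (P.Y_succ t ht))
    have h1 := bg_le H hPART P σ w k t ht
    have h2 : ((BG H (H.T - 1) (t + 1) (run F σ w k)).card : ℝ) ≤ 2 * (P.Ns : ℝ) ^ 2 * P.Y t := by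
      have h3 : ((BG H (H.T - 1) (t + 1) (run F σ w k)).card : ℝ) ≤
          2 * (P.Ns : ℝ) ^ 2 * ((H.top t (P.h t) (run F σ w k)).card : ℝ) := by exact_mod_cast h1
      exact h3.trans (mul_le_mul_of_nonneg_left ih' (by positivity))
    have h4 : ((BG H (H.T - 1) (t + 1) (run F σ w k)).card : ℝ) / (H.T - 1 : ℕ) *
        Real.log (Fintype.card S.V) ≤
        2 * (P.Ns : ℝ) ^ 2 * P.Y t / (H.T - 1 : ℕ) * Real.log (Fintype.card S.V) :=
      mul_le_mul_of_nonneg_right (div_le_div_of_nonneg_right h2 (Nat.cast_nonneg _)) hlog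
    refine h4.trans (le_of_eq ?_)
    ring

end

end Pool.Agent.AcyAd
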