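import Pool.Agent.AcyAd.Targets2

/-!
# MP_08c6cd_lc, fully adaptive testers: ADF-TOPU, disjoint vertical paths from their upper ends
-/

namespace Pool.Agent.AcyAd

open scoped Classical
open Pool.Agent.AcyTest

noncomputable section

namespace TOPU_

variable {S : Sys} {F : Fx S}

/-- The property of the lower end `v` of a vertical path with upper end `u₀`. -/
def Low (H : Hier S F) (t h : ℕ) (L : List (En S)) (u₀ v : S.V) : Prop :=
  v ∈ touched L ∧ h ≤ H.dep (t + 1) L v ∧ h ∣ H.dep (t + 1) L v ∧ (par L)^[h] v = u₀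

theorem exists_low (H : Hier S F) (t h : ℕ) (L : List (En S)) (A : Finset S.V)
    (u₀ : {x // x ∈ H.top t h L ∩ A}) : ∃ v, Low H t h L u₀.1 v := by
  have h1 := (Finset.mem_inter.1 u₀.2).1
  unfold Hier.top at h1
  rw [Finset.mem_image] at h1
  obtain ⟨v, hv, h2⟩ := h1
  rw [Finset.mem_filter] at hv
  exact ⟨v, hv.1, hv.2.1, hv.2.2, h2⟩

theorem low_mem (H : Hier S F) {t h : ℕ} {L : List (En S)} {A : Finset S.V} {β : H.Bk}
    (hS : H.Sat t β L A) {u₀ v : S.V} (hu : u₀ ∈ A) (hv : Low H t h L u₀ v) {l : ℕ} (hl : l < h) :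
    (par L)^[l] v ∈ A ∧ 0 < H.dep (t + 1) L ((par L)^[l] v) := by
  obtain ⟨h1, h2, h3, h4⟩ := hv
  have h5 := H.dep_iter (t := t + 1) (L := L) (v := v) (j := l) (by omega)
  have h6 : H.dep (t + 1) L v ≤ H.dep t L v := H.dep_anti (Nat.le_succ t) L v
  have h7 := H.dep_iter (t := t) (L := L) (v := v) (j := l) (by omega)
  have h8 := H.dep_iter (t := t) (L := L) (v := v) (j := h) (by omega)
  rw [h4] at h8
  refine ⟨hS.2 u₀ hu ?_, by omega⟩
  rw [H.mem_part]
  exact ⟨Hier.iter_touched h1 l, by rw [h7.2, h8.2]⟩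

theorem low_inj (H : Hier S F) {t h : ℕ} {L : List (En S)} {u₀ v u₁ v' : S.V}
    (hv : Low H t h L u₀ v) (hv' : Low H t h L u₁ v') {l l' : ℕ} (hl : l < h) (hl' : l' < h)
    (he : (par L)^[l + 1] v = (par L)^[l' + 1] v') : u₀ = u₁ ∧ l = l' := by
  obtain ⟨-, h2, ⟨a, h3⟩, h4⟩ := hv
  obtain ⟨-, h2', ⟨a', h3'⟩, h4'⟩ := hv'
  have h5 := (H.dep_iter (t := t + 1) (L := L) (v := v) (j := l + 1) (by omega)).1
  have h5' := (H.dep_iter (t := t + 1) (L := L) (v := v') (j := l' + 1) (by omega)).1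
  rw [he] at h5
  have h6 : h * a + l' = h * a' + l := by omega
  have h7 : (h * a + l') % h = (h * a' + l) % h := by rw [h6]
  rw [Nat.mul_add_mod, Nat.mul_add_mod, Nat.mod_eq_of_lt hl, Nat.mod_eq_of_lt hl'] at h7
  subst h7
  refine ⟨?_, rfl⟩
  have e1 : h = (h - (l' + 1)) + (l' + 1) := by omega
  rw [← h4, ← h4']
  have e2 : ∀ x, (par L)^[h] x = (par L)^[h - (l' + 1)] ((par L)^[l' + 1] x) := by
    intro x
    rw [← Function.iterate_add_apply, ← e1]
  rw [e2 v, e2 v', he]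

end TOPU_

open TOPU_

theorem tTOPU : T_TOPU := by
  intro S F H σ w k t h β A hh hS
  set L := run F σ w k with hL
  choose v hv using exists_low H t h L A
  refine ⟨fun i => v ((H.top t h L ∩ A).equivFin.symm i), ?_, ?_⟩
  · intro i l hl
    exact low_mem H hS (Finset.mem_inter.1 ((H.top t h L ∩ A).equivFin.symm i).2).2 (hv _) hl
  · rintro ⟨i, l⟩ ⟨i', l'⟩ he
    have h1 := low_inj H (hv ((H.top t h L ∩ A).equivFin.symm i))
      (hv ((H.top t h L ∩ A).equivFin.symm i')) l.2 l'.2 he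
    have h2 : (H.top t h L ∩ A).equivFin.symm i = (H.top t h L ∩ A).equivFin.symm i' :=
      Subtype.ext h1.1
    rw [Prod.mk.injEq]
    exact ⟨(H.top t h L ∩ A).equivFin.symm.injective h2, Fin.ext h1.2⟩

end

end Pool.Agent.AcyAd
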