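import Pool.Agent.AcyAd.Targets2

/-!
# MP_08c6cd_lc, fully adaptive testers: job ADF-TSM, no selected path in a small tree
-/

namespace Pool.Agent.AcyAd

open scoped Classical

noncomputable section

namespace TSM_

variable {S : Sys} {F : Fx S}

/-- The union bound in powers of the number of names. -/
theorem ub_le (H : Hier S F) {q : ℕ} (P : Par H q) {t : ℕ} (ht : t < H.R) (β : H.Bk)
    (m K' F' y : ℕ) :
    ub (H.toBlk t β ht) m K' F' (P.h t) y P.θ ≤
      (Fintype.card S.V : ℝ) ^ (2 * K' + 4 * F' + y) * Real.exp (4 * P.θ * m) *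
        (((Fintype.card S.V : ℝ) ^ P.cp)⁻¹) ^ y := by
  have hN : (10 : ℝ) ≤ (Fintype.card S.V : ℝ) := by exact_mod_cast P.N_10
  have hD : 4 * (S.D : ℝ) ≤ (Fintype.card S.V : ℝ) := by exact_mod_cast P.N_D
  have hD0 : (0 : ℝ) ≤ S.D := Nat.cast_nonneg _
  set N : ℝ := (Fintype.card S.V : ℝ) with hNdef
  have a1 : (2 * N) ^ K' ≤ N ^ (2 * K') := by
    rw [pow_mul]
    exact pow_le_pow_left₀ (by linarith) (by nlinarith) K'
  have a2 : (2 * N * S.D) ^ (2 * F') ≤ N ^ (4 * F') := by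
    have : N ^ (4 * F') = (N ^ 2) ^ (2 * F') := by
      rw [← pow_mul]
      congr 1
      ring
    rw [this]
    exact pow_le_pow_left₀ (by positivity) (by nlinarith) _
  have a3 := P.rho t ht
  have a4 : (0 : ℝ) ≤ ((S.D - H.th (t + 1) : ℕ) : ℝ) / (S.D - H.th t - 1 : ℕ) := by positivity
  have a5 : (((S.D - H.th (t + 1) : ℕ) : ℝ) / (S.D - H.th t - 1 : ℕ)) ^ (P.h t * y) ≤
      ((N ^ P.cp)⁻¹) ^ y := by
    rw [pow_mul]
    exact pow_le_pow_left₀ (pow_nonneg a4 _) a3 y
  have hN0 : 0 ≤ N := by linarith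
  show (2 * N) ^ K' * (2 * N * S.D) ^ (2 * F') * N ^ y * Real.exp (4 * P.θ * m) *
    (((S.D - H.th (t + 1) : ℕ) : ℝ) / (S.D - H.th t - 1 : ℕ)) ^ (P.h t * y) ≤ _
  have a6 : (2 * N) ^ K' * (2 * N * S.D) ^ (2 * F') * N ^ y ≤ N ^ (2 * K' + 4 * F' + y) := by
    rw [pow_add, pow_add]
    gcongr
  calc _ ≤ N ^ (2 * K' + 4 * F' + y) * Real.exp (4 * P.θ * m) *
        (((S.D - H.th (t + 1) : ℕ) : ℝ) / (S.D - H.th t - 1 : ℕ)) ^ (P.h t * y) := by
        gcongr
    _ ≤ _ := by
        apply mul_le_mul_of_nonneg_left a5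
        positivity

theorem spc_le (H : Hier S F) (t : ℕ) (A : Finset S.V) (L : List (En S)) :
    H.spc t A L ≤ L.length := by
  induction L with
  | nil => exact le_rfl
  | cons e L ih =>
    rw [List.length_cons, Hier.spc]
    split_ifs <;> omega

theorem exp4_le {N : ℝ} (hN : 10 ≤ N) : Real.exp 4 ≤ N ^ 4 := by
  have h1 : Real.exp 1 ≤ 3 := Real.exp_one_lt_three.le
  have h2 : Real.exp 4 = Real.exp 1 ^ 4 := by
    rw [← Real.exp_nat_mul]
    norm_num
  rw [h2]
  exact pow_le_pow_left₀ (Real.exp_pos _).le (h1.trans (by linarith)) 4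

end TSM_

theorem tTSM (h1 : T_UAPP) (h2 : T_DENS) (h3 : T_SPB) : T_TSM := by
  intro S F H q P σ w k hk hG hX hdep t ht ρ hρ hc
  set L := run F σ w k with hL
  rcases hβ : H.blk t (w.lam ρ) with _ | β
  · -- the address of the root is not in a block of level `t`
    rw [Finset.eq_empty_iff_forall_notMem]
    intro u hu
    rw [Finset.mem_inter, H.mem_part] at hu
    obtain ⟨hu1, hu2, hu3⟩ := hu
    rw [Hier.top, Finset.mem_image] at hu1
    obtain ⟨v, hv, hvu⟩ := hu1
    rw [Finset.mem_filter] at hv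
    obtain ⟨_, hv1, _⟩ := hv
    have hh := P.h_pos t ht
    obtain ⟨j, hj⟩ : ∃ j, P.h t = j + 1 := ⟨P.h t - 1, by omega⟩
    have h4 := H.dep_iter (t := t + 1) (L := L) (v := v) (j := j) (by omega)
    have h5 : 0 < H.dep (t + 1) L ((par L)^[j] v) := by omega
    have h6 := H.part_blk σ w k h5
    rw [hj, Function.iterate_succ_apply'] at hvu
    rw [← hL, hvu] at h6
    have h7 : H.blk (t + 1) (w.lam u) ≠ none := by rw [← h6.1]; exact h6.2
    have h8 := ((H.blk_rich t ht _).1 h7).1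
    have h9 := H.root_blk σ w k (t := t) u
    rw [← hL, hu3, hβ] at h9
    exact h8 h9
  · by_contra hne
    set A := H.part t L ρ with hA
    have hy : 1 ≤ (H.top t (P.h t) L ∩ A).card :=
      Finset.card_pos.2 (Finset.nonempty_iff_ne_empty.2 hne)
    have hSat : H.Sat t β L A := by
      refine ⟨?_, ?_⟩
      · intro v hv
        rw [hA, H.mem_part] at hv
        rw [Hier.inb, Finset.mem_filter]
        refine ⟨hv.1, w.lam v, ?_, ?_⟩
        · rw [hL, adr_eq, if_pos hv.1]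
        · have h9 := H.root_blk σ w k (t := t) v
          rw [← hL, hv.2, hβ] at h9
          exact h9
      · intro v hv
        rw [hA, H.mem_part] at hv
        rw [hv.2]
    have hdens := h2 S F H P.X P.θ σ w k t ht β P.θ_nonneg P.dn hX
    have hUE := h1 S F H σ w k t (P.h t) ht β A P.θ (P.h_pos t ht) hSat hdens
    have hspc := (h3 S F H q P σ w k hk hG hX hdep).1 t ht ρ hρ β hc hβ
    rw [← hL, ← hA] at hspc
    have hdiv : A.card / (H.T - 1) = 0 := Nat.div_eq_of_lt hc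
    have hAr : (A ∩ H.roots t L).card ≤ 1 := by
      rw [Finset.card_le_one]
      intro a ha b hb
      rw [Finset.mem_inter, hA, H.mem_part, H.mem_roots] at ha hb
      rw [← ha.2.2, ha.1.2, ← hb.1.2, hb.2.2]
    rw [← hL, hdiv] at hUE
    have hN10 : (10 : ℝ) ≤ (Fintype.card S.V : ℝ) := by exact_mod_cast P.N_10
    have hNn := P.N_10
    have hNq := P.N_q
    have hspcN : H.spc t A L ≤ k := by
      have := TSM_.spc_le H t A L
      rwa [hL, run_length] at this
    refine hG.gU t ht (w.lam ρ) β hβ k hk _ _ _ _ (Finset.card_le_univ _) (by omega) (by omega)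
      (Finset.card_le_univ _) ?_ hUE
    refine (TSM_.ub_le H P ht β _ _ _ _).trans ?_
    set N : ℝ := (Fintype.card S.V : ℝ) with hNdef
    set y := (H.top t (P.h t) L ∩ A).card with hydef
    have hθ : Real.exp (4 * P.θ * A.card) ≤ N ^ 4 := by
      refine le_trans (Real.exp_le_exp.2 ?_) (TSM_.exp4_le hN10)
      have h4 : (A.card : ℝ) ≤ (H.T - 1 : ℕ) := by exact_mod_cast hc.le
      have h5 := P.θ_T
      have h6 : P.θ * A.card ≤ P.θ * (H.T - 1 : ℕ) := mul_le_mul_of_nonneg_left h4 P.θ_nonneg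
      linarith
    have hN1 : 1 ≤ N := by linarith
    have hexp : 2 * ((A ∩ H.roots t L).card + 2 * 0) + 4 * (2 * 0 + H.spc t A L) + y + 4 + 12 ≤
        P.cp * y := by
      have h4 := P.cp_ge
      have h5 : 4 * (P.K0 + 3) ^ 3 + 20 ≤ 8 * (P.K0 + 45) ^ 3 := by
        have : (P.K0 + 3) ^ 3 ≤ (P.K0 + 45) ^ 3 := Nat.pow_le_pow_left (by omega) 3
        have : 45 ^ 3 ≤ (P.K0 + 45) ^ 3 := Nat.pow_le_pow_left (by omega) 3
        omega
      have h6 : 4 * (P.K0 + 3) ^ 3 + 20 ≤ P.cp := h5.trans h4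
      have h7 : (4 * (P.K0 + 3) ^ 3 + 19) * 1 ≤ (P.cp - 1) * y :=
        Nat.mul_le_mul (by omega) hy
      have h8 : P.cp * y = (P.cp - 1) * y + y := by
        obtain ⟨c, hc'⟩ : ∃ c, P.cp = c + 1 := ⟨P.cp - 1, by omega⟩
        rw [hc']
        simp only [Nat.add_sub_cancel]
        ring
      omega
    have hfin : N ^ (2 * ((A ∩ H.roots t L).card + 2 * 0) + 4 * (2 * 0 + H.spc t A L) + y) * N ^ 4 *
        N ^ 12 ≤ N ^ (P.cp * y) := by
      rw [← pow_add, ← pow_add]
      exact pow_le_pow_right₀ hN1 hexp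
    have hN0 : 0 < N := by linarith
    rw [inv_pow, ← pow_mul]
    rw [← div_eq_mul_inv, div_le_iff₀ (by positivity), inv_mul_eq_div, le_div_iff₀ (by positivity)]
    refine le_trans ?_ hfin
    gcongr

end

end Pool.Agent.AcyAd
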