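import Pool.Agent.AcyAd.Targets1

/-!
# MP_08c6cd_lc: the sum of the weights of the possible visible logs
-/

namespace Pool.Agent.AcyAd

open scoped Classical

noncomputable section

namespace TSUM_

variable {S : Sys} {F : Fx S} {B : Blk S F}

lemma p2_sub (w0 : World S) (g : Gs S) (L : List (VE S)) : p2 B w0 g L ⊆ vtouched L := by
  induction L with
  | nil => exact Finset.Subset.refl _
  | cons e L ih =>
    intro v hv
    unfold p2 at hv
    rw [Finset.mem_union] at hv
    rw [vtouched_cons, Finset.mem_union, Finset.mem_union]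
    rcases hv with hv | hv
    · exact Or.inl (Or.inl (ih hv))
    · split_ifs at hv with h
      · exact Or.inr hv
      · exact absurd hv (Finset.notMem_empty _)

lemma wt_nonneg (w0 : World S) (g : Gs S) (L : List (VE S)) : 0 ≤ wt B w0 g L := by
  induction L with
  | nil => show (0 : ℝ) ≤ 1; norm_num
  | cons e L ih =>
    unfold wt
    apply mul_nonneg ih
    split_ifs
    · positivity
    · norm_num

/-- the possible answers -/
def ys (B : Blk S F) (w0 : World S) (g : Gs S) (L : List (VE S)) (b : Bool) : Finset S.Sl :=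
  Finset.univ.filter fun y => y.1 ∉ g.R0 ∪ p2 B w0 g L ∧ w0.lam y.1 ∈ B.M ∧
    B.th ≤ (w0.rk (!b) y.1 y.2).1

lemma card_ys (w0 : World S) (g : Gs S) (L : List (VE S)) (b : Bool) :
    (ys B w0 g L b).card ≤ (B.M.card - pos B w0 g L) * (S.D - B.th) := by
  set A := (g.R0 ∪ p2 B w0 g L).filter fun v => w0.lam v ∈ B.M with hA
  have h1 : (B.M \ A.image w0.lam).card = B.M.card - pos B w0 g L := by
    rw [Finset.card_sdiff_of_subset, Finset.card_image_of_injective _ w0.lam.injective]
    · rfl
    · intro x hx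
      obtain ⟨v, hv, rfl⟩ := Finset.mem_image.1 hx
      exact (Finset.mem_filter.1 hv).2
  have h2 : (Finset.univ.filter fun r : Fin S.D => B.th ≤ r.1).card ≤ S.D - B.th := by
    rw [← Finset.card_range (S.D - B.th)]
    apply Finset.card_le_card_of_injOn (fun r => r.1 - B.th)
    · intro r hr
      have h3 := (Finset.mem_filter.1 (Finset.mem_coe.1 hr)).2
      rw [Finset.mem_coe, Finset.mem_range]
      have h4 := r.2
      show r.1 - B.th < S.D - B.th
      omega
    · intro r hr r' hr' h
      have h3 := (Finset.mem_filter.1 (Finset.mem_coe.1 hr)).2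
      have h3' := (Finset.mem_filter.1 (Finset.mem_coe.1 hr')).2
      apply Fin.ext
      have h5 : r.1 - B.th = r'.1 - B.th := h
      omega
  calc (ys B w0 g L b).card
      ≤ ((B.M \ A.image w0.lam) ×ˢ (Finset.univ.filter fun r : Fin S.D => B.th ≤ r.1)).card := by
        apply Finset.card_le_card_of_injOn (fun y => (w0.lam y.1, w0.rk (!b) y.1 y.2))
        · intro y hy
          obtain ⟨-, g1, g2, g3⟩ := Finset.mem_filter.1 (Finset.mem_coe.1 hy)
          rw [Finset.mem_coe, Finset.mem_product, Finset.mem_sdiff]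
          refine ⟨⟨g2, ?_⟩, Finset.mem_filter.2 ⟨Finset.mem_univ _, g3⟩⟩
          intro h
          obtain ⟨v, hv, he⟩ := Finset.mem_image.1 h
          have : v = y.1 := w0.lam.injective he
          rw [this] at hv
          exact g1 (Finset.mem_filter.1 hv).1
        · intro y _ y' _ h
          simp only [Prod.mk.injEq] at h
          have e1 : y.1 = y'.1 := w0.lam.injective h.1
          have e2 := h.2
          rw [e1] at e2
          exact Prod.ext e1 ((w0.rk (!b) y'.1).injective e2)
    _ ≤ (B.M.card - pos B w0 g L) * (S.D - B.th) := by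
        rw [Finset.card_product, h1]
        exact Nat.mul_le_mul_left _ h2

lemma wt_cons (w0 : World S) (g : Gs S) (e : VE S) (L : List (VE S)) :
    wt B w0 g (e :: L) = wt B w0 g L * (if c2 B w0 g L e.b e.a then
      1 / (((B.M.card - pos B w0 g L : ℕ) : ℝ) * (S.D - B.th : ℕ)) else 1) := rfl

end TSUM_

open TSUM_ in
theorem tTSUM (hmix : T_MIX) : T_TSUM := by
  intro S F B w0 g σ w1 mu k
  induction k with
  | zero =>
    intro 𝓛 h𝓛
    have hsub : 𝓛 ⊆ {[]} := by
      intro L hL
      obtain ⟨-, p, hp⟩ := h𝓛 L hL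
      rw [Finset.mem_singleton]
      exact hp.symm
    calc ∑ L ∈ 𝓛, wt B w0 g L ≤ ∑ L ∈ ({[]} : Finset (List (VE S))), wt B w0 g L :=
          Finset.sum_le_sum_of_subset_of_nonneg hsub fun L _ _ => wt_nonneg w0 g L
      _ = 1 := by rw [Finset.sum_singleton]; rfl
      _ ≤ 1 := le_rfl
  | succ k ih =>
    intro 𝓛 h𝓛
    have hform : ∀ L ∈ 𝓛, ∃ p : RX B,
        run2 (F := F) B w0 g σ w1 (mix w0 ⟨p.1, p.2, mu⟩) k = L.tail ∧
        L = ⟨(σ (L.tail.map VE.r)).1, (σ (L.tail.map VE.r)).2,
          ans2 B w0 g w1 (mix w0 ⟨p.1, p.2, mu⟩) L.tail (σ (L.tail.map VE.r)).1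
            (σ (L.tail.map VE.r)).2⟩ :: L.tail ∧ nice2 B w0 g L := by
      intro L hL
      obtain ⟨hn, p, hp⟩ := h𝓛 L hL
      refine ⟨p, ?_, ?_, hn⟩
      · rw [← hp]; rfl
      · rw [← hp]; rfl
    have hsum := Finset.sum_fiberwise_of_maps_to (s := 𝓛) (t := 𝓛.image List.tail)
      (g := List.tail) (fun L hL => Finset.mem_image_of_mem _ hL) (fun L => wt B w0 g L)
    rw [← hsum]
    refine le_trans (Finset.sum_le_sum fun L' _ => ?_) (ih (𝓛.image List.tail) ?_)
    · set q := σ (L'.map VE.r) with hq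
      have hfib : ∀ L ∈ 𝓛.filter (fun L => L.tail = L'), ∃ p : RX B,
          L = ⟨q.1, q.2, ans2 B w0 g w1 (mix w0 ⟨p.1, p.2, mu⟩) L' q.1 q.2⟩ :: L' ∧
          nice2 B w0 g L := by
        intro L hL
        obtain ⟨hL1, hL2⟩ := Finset.mem_filter.1 hL
        obtain ⟨p, -, h2, h3⟩ := hform L hL1
        rw [hL2] at h2
        exact ⟨p, h2, h3⟩
      by_cases hc : c2 B w0 g L' q.1 q.2
      · have hsub : 𝓛.filter (fun L => L.tail = L') ⊆
            (ys B w0 g L' q.1).image fun y => (⟨q.1, q.2, some y⟩ : VE S) :: L' := by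
          intro L hL
          obtain ⟨p, hp, hn⟩ := hfib L hL
          have hans : ans2 B w0 g w1 (mix w0 ⟨p.1, p.2, mu⟩) L' q.1 q.2 =
              (mix w0 ⟨p.1, p.2, mu⟩ : World S).ask F q.1 q.2 := by
            unfold ans2
            rw [if_neg hc.1, if_neg (by rw [hc.2.1]; simp), if_pos hc]
          rw [hans] at hp
          rw [hp] at hn
          obtain ⟨y, hy, h1, h2, h3, h4, h5⟩ := hn.2.1 hc
          have hy' : (mix w0 ⟨p.1, p.2, mu⟩ : World S).ask F q.1 q.2 = some y := hy
          rw [hp, hy', Finset.mem_image]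
          refine ⟨y, ?_, rfl⟩
          obtain ⟨m1, -, -, m4, -⟩ := hmix S F B (mix w0 ⟨p.1, p.2, mu⟩) ⟨p.1, p.2, mu⟩
          obtain ⟨n1, -, -, -, n5, -⟩ := hmix S F B w0 ⟨p.1, p.2, mu⟩
          rw [World.ask_eq_some] at hy'
          obtain ⟨y', hy1, hy2⟩ := m4 q.1 _ ((n1 q.1 q.2).2 hc.2.2.1)
          rw [hy'] at hy1
          have hy3 : (mix w0 ⟨p.1, p.2, mu⟩ : World S).plc (!q.1) y = y' := Option.some.inj hy1
          rw [← hy3] at hy2
          have hy4 := (n1 (!q.1) y).1 hy2
          refine Finset.mem_filter.2 ⟨Finset.mem_univ _, ?_, h5, (n5 (!q.1) y h5).1 hy4⟩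
          rw [Finset.mem_union]
          rintro (h | h)
          · exact h3 h
          · exact h1 (p2_sub w0 g L' h)
        have hcard := (Finset.card_le_card hsub).trans (Finset.card_image_le.trans
          (card_ys w0 g L' q.1))
        have hwt : ∀ L ∈ 𝓛.filter (fun L => L.tail = L'), wt B w0 g L = wt B w0 g L' *
            (1 / (((B.M.card - pos B w0 g L' : ℕ) : ℝ) * (S.D - B.th : ℕ))) := by
          intro L hL
          obtain ⟨p, hp, hn⟩ := hfib L hL
          rw [hp, wt_cons, if_pos hc]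
        rw [Finset.sum_congr rfl hwt, Finset.sum_const, nsmul_eq_mul]
        set c : ℝ := ((B.M.card - pos B w0 g L' : ℕ) : ℝ) * (S.D - B.th : ℕ) with hcdef
        have hc0 : 0 ≤ c := by positivity
        have hcc : ((𝓛.filter (fun L => L.tail = L')).card : ℝ) ≤ c := by
          rw [hcdef]; exact_mod_cast hcard
        have h1 : ((𝓛.filter (fun L => L.tail = L')).card : ℝ) * (1 / c) ≤ 1 := by
          rcases hc0.eq_or_lt with h | h
          · rw [← h]; simp
          · rw [mul_one_div, div_le_one h]; exact hcc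
        calc ((𝓛.filter (fun L => L.tail = L')).card : ℝ) * (wt B w0 g L' * (1 / c))
            = wt B w0 g L' * (((𝓛.filter (fun L => L.tail = L')).card : ℝ) * (1 / c)) := by ring
          _ ≤ wt B w0 g L' * 1 := mul_le_mul_of_nonneg_left h1 (wt_nonneg w0 g L')
          _ = wt B w0 g L' := mul_one _
      · have hsub : 𝓛.filter (fun L => L.tail = L') ⊆
            {(⟨q.1, q.2, if q.2 ∈ vknown q.1 L' then look q.1 L' q.2
              else if g.flag q.1 q.2 ≠ none then g.flag q.1 q.2
              else w1.ask F q.1 q.2⟩ : VE S) :: L'} := by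
          intro L hL
          obtain ⟨p, hp, -⟩ := hfib L hL
          rw [Finset.mem_singleton, hp]
          unfold ans2
          rw [if_neg hc]
        refine le_trans (Finset.sum_le_sum_of_subset_of_nonneg hsub
          fun L _ _ => wt_nonneg w0 g L) ?_
        rw [Finset.sum_singleton, wt_cons, if_neg hc, mul_one]
    · intro L' hL'
      obtain ⟨L, hL, rfl⟩ := Finset.mem_image.1 hL'
      obtain ⟨p, h1, h2, h3⟩ := hform L hL
      refine ⟨?_, p, h1⟩
      rw [h2] at h3
      exact h3.1

end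

end Pool.Agent.AcyAd
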