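import Pool.Agent.AcyAd.Targets1

/-!
# MP_08c6cd_lc, fully adaptive testers: the decoupled union bound, assembly
-/

namespace Pool.Agent.AcyAd

open scoped Classical

noncomputable section

variable {S : Sys} {F : Fx S}

namespace U_

/-- Counting in a product by the first component. -/
theorem card_prod_le {α β : Type} [Finite α] [Finite β] (P : α → β → Prop) (c : ℝ)
    (h : ∀ a, (Nat.card {b : β // P a b} : ℝ) ≤ c) :
    (Nat.card {p : α × β // P p.1 p.2} : ℝ) ≤ Nat.card α * c := by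
  have := Fintype.ofFinite α
  have e : {p : α × β // P p.1 p.2} ≃ Σ a, {b : β // P a b} :=
    { toFun := fun p => ⟨p.1.1, p.1.2, p.2⟩
      invFun := fun q => ⟨(q.1, q.2.1), q.2.2⟩
      left_inv := fun _ => rfl
      right_inv := fun _ => rfl }
  rw [Nat.card_congr e, Nat.card_sigma, Nat.cast_sum, Nat.card_eq_fintype_card]
  calc ∑ a, (Nat.card {b : β // P a b} : ℝ) ≤ ∑ _a : α, c := Finset.sum_le_sum fun a _ => h a
    _ = Fintype.card α * c := by simp

/-- The union bound. -/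
theorem card_union_le {ι α : Type} [Finite ι] [Finite α] (P : α → Prop) (Q : ι → α → Prop) (c : ℝ)
    (hPQ : ∀ a, P a → ∃ j, Q j a) (h : ∀ j, (Nat.card {a : α // Q j a} : ℝ) ≤ c) :
    (Nat.card {a : α // P a} : ℝ) ≤ Nat.card ι * c := by
  refine le_trans ?_ (card_prod_le Q c h)
  rw [Nat.cast_le]
  choose f hf using hPQ
  refine Nat.card_le_card_of_injective
    (fun a : {a : α // P a} => (⟨(f a.1 a.2, a.1), hf a.1 a.2⟩ : {p : ι × α // Q p.1 p.2})) ?_
  intro a a' haa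
  have := congrArg (fun p => p.1.2) haa
  exact Subtype.ext this

/-- The number of small subsets. -/
theorem card_small (α : Type) [Fintype α] (n : ℕ) :
    Nat.card {R : Finset α // R.card ≤ n} ≤ (Fintype.card α + 1) ^ n := by
  have h1 : Nat.card (Fin n → Option α) = (Fintype.card α + 1) ^ n := by
    rw [Nat.card_eq_fintype_card]
    simp
  rw [← h1]
  refine Nat.card_le_card_of_injective
    (fun (R : {R : Finset α // R.card ≤ n}) (i : Fin n) => R.1.toList[i.1]?) ?_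
  intro R R' hRR
  apply Subtype.ext
  have h2 : R.1.toList = R'.1.toList := by
    apply List.ext_getElem?
    intro i
    by_cases hi : i < n
    · exact congrFun hRR ⟨i, hi⟩
    · rw [List.getElem?_eq_none, List.getElem?_eq_none]
      · rw [Finset.length_toList]
        exact R'.2.trans (by omega)
      · rw [Finset.length_toList]
        exact R.2.trans (by omega)
  ext a
  rw [← Finset.mem_toList, h2, Finset.mem_toList]

/-- The inner data are a product. -/
def insEquiv (B : Blk S F) : Ins B ≃ (∀ κ : S.K, S.Cl true κ ≃ S.Cl false κ) × RX B where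
  toFun i := (i.mu, (i.rho, i.xi))
  invFun p := ⟨p.2.1, p.2.2, p.1⟩
  left_inv _ := rfl
  right_inv _ := rfl

end U_

open U_ in
theorem tU (hMIX : T_MIX) (hAVG : T_AVG) (hIDENT : T_IDENT) (hDEC : T_DEC) (hFOR : T_FOR) :
    T_U := by
  intro S F B σ k m K' F' h y θ hθ hθ'
  set P : World S → Prop := fun w => dens B θ (run F σ w k) ∧
    ∃ C ⊆ touched (run F σ w k), C.card ≤ m ∧ (∀ v ∈ C, w.lam v ∈ B.M) ∧
      (C \ B.gset C (run F σ w k)).card ≤ K' ∧ B.nbad C (run F σ w k) ≤ F' ∧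
      ∃ u : Fin y → S.V, (∀ i, ∀ l < h, (par (run F σ w k))^[l] (u i) ∈ B.dset C (run F σ w k)) ∧
        Function.Injective fun p : Fin y × Fin h => (par (run F σ w k))^[p.2.1 + 1] (u p.1) with hP
  set ρ : ℝ := (((S.D - B.th' : ℕ) : ℝ) / (S.D - B.th - 1 : ℕ)) ^ (h * y) with hρ
  set N : ℕ := Fintype.card S.V with hN
  have hρ0 : 0 ≤ ρ := by positivity
  set A : ℝ := (2 * (N : ℝ)) ^ K' * (2 * (N : ℝ) * S.D) ^ (2 * F') * (N : ℝ) ^ y *
    Real.exp (4 * θ * m) * ρ with hA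
  have hA0 : 0 ≤ A := by positivity
  have hN1 : 1 ≤ N := Fintype.card_pos_iff.2 ⟨(σ []).2.1⟩
  have hD1 : 1 ≤ S.D := Nat.one_le_iff_ne_zero.2 fun h0 => by
    have := (σ []).2.2.2
    omega
  -- the inner data are not empty
  have hmu : ∀ κ : S.K, Nonempty (S.Cl true κ ≃ S.Cl false κ) := fun κ => by
    have := S.card_cc κ
    exact Finite.card_eq.1 this
  have hIns : Nonempty (Ins B) := ⟨⟨1, fun _ _ => 1, fun κ => (hmu κ).some⟩⟩
  have hI0 : (0 : ℝ) < Nat.card (Ins B) := by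
    rw [Nat.cast_pos]
    exact Nat.card_pos
  -- the number of guesses
  have hG1 : (Nat.card {R : Finset S.V // R.card ≤ K'} : ℝ) ≤ (2 * (N : ℝ)) ^ K' := by
    have h1 := card_small S.V K'
    have h2 : (Nat.card {R : Finset S.V // R.card ≤ K'} : ℝ) ≤ ((N : ℝ) + 1) ^ K' := by
      exact_mod_cast h1
    refine h2.trans (pow_le_pow_left₀ (by positivity) ?_ _)
    have : (1 : ℝ) ≤ N := by exact_mod_cast hN1
    linarith
  have hG2 : (Nat.card {R : Finset (S.Sl × S.Sl) // R.card ≤ F'} : ℝ) ≤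
      (2 * (N : ℝ) * S.D) ^ (2 * F') := by
    have h1 := card_small (S.Sl × S.Sl) F'
    have h0 : Fintype.card (S.Sl × S.Sl) = (N * S.D) * (N * S.D) := by
      simp [Sys.Sl, hN]
    rw [h0] at h1
    have h2 : (Nat.card {R : Finset (S.Sl × S.Sl) // R.card ≤ F'} : ℝ) ≤
        (((N : ℝ) * S.D) * (N * S.D) + 1) ^ F' := by
      exact_mod_cast h1
    rw [pow_mul]
    refine h2.trans (pow_le_pow_left₀ (by positivity) ?_ _)
    have h3 : (1 : ℝ) ≤ (N : ℝ) * S.D := by exact_mod_cast Nat.mul_pos hN1 hD1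
    nlinarith
  have hG3 : (Nat.card (Fin y → S.V) : ℝ) = (N : ℝ) ^ y := by
    rw [Nat.card_eq_fintype_card]
    simp [hN]
  -- FOR, summed
  have hF : ∀ (w0 : World S) (g : Gs S) (u : Fin y → S.V),
      (Nat.card {p : Ins B × Ins B //
        nice2 B w0 g (run2 (F := F) B w0 g σ (mix w0 p.1) (mix w0 p.2) k) ∧
        paths2 B w0 g (mix w0 p.2) h y u (run2 (F := F) B w0 g σ (mix w0 p.1) (mix w0 p.2) k)} :
        ℝ) ≤ Nat.card (Ins B) * (ρ * Nat.card (Ins B)) := by
    intro w0 g u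
    refine card_prod_le (fun i1 i2 : Ins B =>
      nice2 B w0 g (run2 (F := F) B w0 g σ (mix w0 i1) (mix w0 i2) k) ∧
      paths2 B w0 g (mix w0 i2) h y u (run2 (F := F) B w0 g σ (mix w0 i1) (mix w0 i2) k)) _ ?_
    intro i1
    have e1 : Nat.card (Ins B) = Nat.card (∀ κ : S.K, S.Cl true κ ≃ S.Cl false κ) *
        Nat.card (RX B) := by
      rw [Nat.card_congr (insEquiv B), Nat.card_prod]
    set Q : Ins B → Prop := fun i2 =>
      nice2 B w0 g (run2 (F := F) B w0 g σ (mix w0 i1) (mix w0 i2) k) ∧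
      paths2 B w0 g (mix w0 i2) h y u (run2 (F := F) B w0 g σ (mix w0 i1) (mix w0 i2) k) with hQ
    have e2 : Nat.card {i2 : Ins B // Q i2} =
        Nat.card {p : (∀ κ : S.K, S.Cl true κ ≃ S.Cl false κ) × RX B //
          Q ⟨p.2.1, p.2.2, p.1⟩} := by
      refine Nat.card_congr ((insEquiv B).subtypeEquiv fun i => ?_)
      rfl
    rw [e2, e1, Nat.cast_mul]
    have h3 := card_prod_le (fun (mu : ∀ κ : S.K, S.Cl true κ ≃ S.Cl false κ) (q : RX B) =>
      Q ⟨q.1, q.2, mu⟩) (ρ * Nat.card (RX B)) (fun mu => hFOR S F B w0 g σ (mix w0 i1) mu k h y u)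
    refine h3.trans (le_of_eq ?_)
    ring
  -- for each outer world
  have hw : ∀ w0 : World S, (Nat.card {i : Ins B // P (mix w0 i)} : ℝ) ≤ A * Nat.card (Ins B) := by
    intro w0
    obtain ⟨m1, _, m3, _⟩ := hMIX S F B w0 (hIns.some)
    set Q : ({R : Finset S.V // R.card ≤ K'} × {R : Finset (S.Sl × S.Sl) // R.card ≤ F'}) ×
        (Fin y → S.V) → Ins B → Prop := fun j i =>
      run2 (F := F) B w0 ⟨j.1.1.1, j.1.2.1⟩ σ (mix w0 i) (mix w0 i) k =
        (run F σ (mix w0 i) k).map En.vis ∧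
      nice2 B w0 ⟨j.1.1.1, j.1.2.1⟩ ((run F σ (mix w0 i) k).map En.vis) ∧
      (j.1.1.1 ∪ p2 B w0 ⟨j.1.1.1, j.1.2.1⟩ ((run F σ (mix w0 i) k).map En.vis)).card ≤ m ∧
      dens B θ (run F σ (mix w0 i) k) ∧
      paths2 B w0 ⟨j.1.1.1, j.1.2.1⟩ (mix w0 i) h y j.2 ((run F σ (mix w0 i) k).map En.vis) with hQ
    have h1 := card_union_le (fun i : Ins B => P (mix w0 i)) Q
      (Real.exp (4 * θ * m) * ρ * Nat.card (Ins B)) ?_ ?_
    · refine h1.trans ?_
      rw [Nat.card_prod, Nat.card_prod, Nat.cast_mul, Nat.cast_mul, hG3, hA]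
      have h2 : (Nat.card {R : Finset S.V // R.card ≤ K'} : ℝ) *
          (Nat.card {R : Finset (S.Sl × S.Sl) // R.card ≤ F'} : ℝ) * (N : ℝ) ^ y ≤
          (2 * (N : ℝ)) ^ K' * (2 * (N : ℝ) * S.D) ^ (2 * F') * (N : ℝ) ^ y := by
        gcongr
      refine (mul_le_mul_of_nonneg_right h2 (by positivity)).trans (le_of_eq ?_)
      ring
    · -- the guess
      rintro i ⟨hd, C, hC1, hC2, hC3, hC4, hC5, u, hu1, hu2⟩
      obtain ⟨m1, _, m3, _⟩ := hMIX S F B w0 i
      obtain ⟨Fl, hFl, hId⟩ := hIDENT S F B σ (mix w0 i) k C hC1 hC3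
      obtain ⟨i1, i2, i3, i4⟩ := hId w0 m1 m3
      refine ⟨((⟨C \ B.gset C (run F σ (mix w0 i) k), hC4⟩, ⟨Fl, hFl.trans hC5⟩), u), i1, i2, ?_,
        hd, ?_, hu2⟩
      · rw [i3]
        exact hC2
      · intro a l hl
        exact i4 (hu1 a l hl)
    · -- DEC and FOR
      rintro ⟨⟨⟨R0, hR0⟩, ⟨Fl, hFl⟩⟩, u⟩
      have h2 := hDEC S F B w0 ⟨R0, Fl⟩ σ k m h y u θ hθ hθ'
      have h3 := hF w0 ⟨R0, Fl⟩ u
      have h4 : (Nat.card {i : Ins B // Q ((⟨R0, hR0⟩, ⟨Fl, hFl⟩), u) i} : ℝ) *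
          Nat.card (Ins B) ≤ (Real.exp (4 * θ * m) * ρ * Nat.card (Ins B)) *
          Nat.card (Ins B) := by
        refine h2.trans ((mul_le_mul_of_nonneg_left h3 (Real.exp_pos _).le).trans (le_of_eq ?_))
        ring
      exact le_of_mul_le_mul_right h4 hI0
  -- averaging
  have hav := hAVG S F B P
  have hsum := card_prod_le (fun (w0 : World S) (i : Ins B) => P (mix w0 i))
    (A * Nat.card (Ins B)) hw
  rw [hav] at hsum
  push_cast at hsum
  have hfin : (Nat.card (Ins B) : ℝ) * (Nat.card {w : World S // P w} : ℝ) ≤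
      Nat.card (Ins B) * (A * Nat.card (World S)) := by
    refine hsum.trans (le_of_eq ?_)
    ring
  exact le_of_mul_le_mul_left hfin hI0

end

end Pool.Agent.AcyAd
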