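import Pool.Agent.AcyAd.Targets2

/-!
# MP_08c6cd_lc, job ADF-UAPP: the event of the union bound for a union of trees
-/

namespace Pool.Agent.AcyAd

open scoped Classical

noncomputable section

/-- **ADF-UAPP** -/
theorem tUAPP (h1 : T_CUT) (h2 : T_TOPU) : T_UAPP := by
  intro S F H σ w k t h ht β A θ hh hS hd
  obtain ⟨C, hC, hM, hK, hN, hD⟩ := h1 S F H σ w k t ht β A hS
  obtain ⟨u, hu, hinj⟩ := h2 S F H σ w k t h β A hh hS
  refine ⟨hd, C, ?_, Finset.card_le_card hC, hM, hK, hN, u, ?_, hinj⟩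
  · intro v hv
    exact (Finset.mem_filter.mp (hS.1 (hC hv))).1
  · intro i l hl
    exact hD _ (hu i l hl).1 (hu i l hl).2

end

end Pool.Agent.AcyAd
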