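import Pool.Agent.AcyAd.Targets1

/-!
# MP_08c6cd_lc, fully adaptive testers: the address of a new name is uniform
-/

namespace Pool.Agent.AcyAd

open scoped Classical

noncomputable section

namespace UNR_

variable {S : Sys} {F : Fx S}

/-- The world with two exchanged addresses. -/
def swp (w : World S) (x y : S.V) : World S where
  lam := w.lam.trans (Equiv.swap x y)
  rk := w.rk
  mu := w.mu

theorem mt_swp (w : World S) (x y : S.V) : (swp w x y).mt F = w.mt F := by
  funext b z
  cases b <;> rfl

/-- Exchanging two unexplored addresses does not change the next entry. -/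
theorem nxt_swp (w : World S) (x y : S.V) (q : Bool × S.Sl) (L : List (En S))
    (hx : x ∉ expl (nxt F w q :: L)) (hy : y ∉ expl (nxt F w q :: L)) :
    nxt F (swp w x y) q = nxt F w q := by
  have h1 : (swp w x y).plc q.1 q.2 = w.plc q.1 q.2 := by
    have hx1 : w.lam q.2.1 ≠ x := by
      rintro rfl
      apply hx
      simp [expl, nxt, World.plc]
    have hy1 : w.lam q.2.1 ≠ y := by
      rintro rfl
      apply hy
      simp [expl, nxt, World.plc]
    simp only [World.plc, swp, Equiv.trans_apply]
    rw [Equiv.swap_apply_of_ne_of_ne hx1 hy1]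
  unfold nxt
  rw [h1, mt_swp]
  congr 1
  rcases hr : w.mt F q.1 (w.plc q.1 q.2) with _ | z
  · rfl
  · have hx1 : z.1 ≠ x := by
      rintro rfl
      apply hx
      simp [expl, nxt, hr]
    have hy1 : z.1 ≠ y := by
      rintro rfl
      apply hy
      simp [expl, nxt, hr]
    simp only [Option.map_some]
    have h2 : (swp w x y).lam.symm z.1 = w.lam.symm z.1 := by
      simp only [swp, Equiv.symm_trans_apply, Equiv.symm_swap]
      rw [Equiv.swap_apply_of_ne_of_ne hx1 hy1]
    have h3 : (swp w x y).unplc (!q.1) z = w.unplc (!q.1) z := by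
      unfold World.unplc
      rw [h2]
      rfl
    rw [h3]

/-- Exchanging two unexplored addresses does not change the run. -/
theorem run_swp (σ : Player S) (w : World S) (x y : S.V) (k : ℕ)
    (hx : x ∉ expl (run F σ w k)) (hy : y ∉ expl (run F σ w k)) :
    run F σ (swp w x y) k = run F σ w k := by
  induction k with
  | zero => rfl
  | succ k ih =>
    have hm : ∀ z, z ∈ expl (run F σ w k) → z ∈ expl (run F σ w (k + 1)) := by
      intro z hz
      simp only [run, expl, Finset.mem_union]
      exact Or.inl (Or.inl hz)
    have ih' := ih (fun h => hx (hm x h)) (fun h => hy (hm y h))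
    show nxt F (swp w x y) _ :: _ = nxt F w _ :: _
    rw [ih', nxt_swp w x y _ _ hx hy]

end UNR_

open UNR_ in
theorem tUNR : T_UNR := by
  intro S F σ k L v Z hv
  by_cases hne : ∃ w : World S, run F σ w k = L
  · obtain ⟨w₀, hw₀⟩ := hne
    have hL : ∀ w : World S, run F σ w k = L → expl L = (touched L).image w.lam := by
      rintro w rfl
      exact expl_eq σ w k
    have hc : Fintype.card S.V - (touched L).card = Nat.card {x : S.V // x ∉ expl L} := by
      rw [Nat.card_eq_fintype_card, Fintype.card_subtype_compl]
      congr 1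
      rw [Fintype.card_coe, hL w₀ hw₀, Finset.card_image_of_injective _ w₀.lam.injective]
    have hz : Z.card = Nat.card Z := by
      rw [Nat.card_eq_fintype_card, Fintype.card_coe]
    rw [hc, hz, ← Nat.card_prod, ← Nat.card_prod]
    refine Nat.card_le_card_of_injective
      (fun p => (⟨p.1.1.lam v, p.1.2.2⟩, ⟨swp p.1.1 (p.1.1.lam v) p.2.1, ?_⟩)) ?_
    · obtain ⟨⟨w, hw, hwz⟩, x, hx⟩ := p
      simp only
      have h1 : w.lam v ∉ expl L := by
        rw [hL w hw, Finset.mem_image]
        rintro ⟨u, hu, huv⟩
        exact hv (w.lam.injective huv ▸ hu)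
      rw [run_swp, hw]
      · rw [hw]; exact h1
      · rw [hw]; exact hx
    · rintro ⟨⟨w, hw, hwz⟩, x, hx⟩ ⟨⟨w', hw', hwz'⟩, x', hx'⟩ h
      simp only [Prod.mk.injEq, Subtype.mk.injEq] at h
      obtain ⟨h1, h2⟩ := h
      have h3 : (swp w (w.lam v) x).lam v = x := by simp [swp]
      have h4 : (swp w' (w'.lam v) x').lam v = x' := by simp [swp]
      have hxx : x = x' := by rw [← h3, ← h4, h2]
      subst hxx
      have h5 : w = w' := by
        have e1 : (swp w (w.lam v) x).lam = (swp w' (w'.lam v) x).lam := congrArg World.lam h2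
        have e2 : (swp w (w.lam v) x).rk = (swp w' (w'.lam v) x).rk := congrArg World.rk h2
        have e3 : (swp w (w.lam v) x).mu = (swp w' (w'.lam v) x).mu := congrArg World.mu h2
        simp only [swp] at e1 e2 e3
        rw [h1] at e1
        have e4 : w.lam = w'.lam := by
          ext u
          have := congrArg (fun f : Equiv.Perm S.V => f u) e1
          simp only [Equiv.trans_apply, EmbeddingLike.apply_eq_iff_eq] at this
          exact this
        cases w
        cases w'
        simp only at e2 e3 e4
        subst e2 e3 e4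
        rfl
      subst h5
      rfl
  · have h0 : Nat.card {w : World S // run F σ w k = L ∧ w.lam v ∈ Z} = 0 := by
      have : IsEmpty {w : World S // run F σ w k = L ∧ w.lam v ∈ Z} :=
        ⟨fun w => hne ⟨w.1, w.2.1⟩⟩
      exact Nat.card_of_isEmpty
    rw [h0, Nat.zero_mul]
    exact Nat.zero_le _

end

end Pool.Agent.AcyAd
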