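import Pool.Agent.AcyAd.Targets2

/-!
# MP_08c6cd_lc, fully adaptive testers: the number of touched names in a layer (ADF-WIN)
-/

namespace Pool.Agent.AcyAd

open scoped Classical
open Pool.Agent.AcyTest

noncomputable section

namespace WIN_

variable {S : Sys} {F : Fx S}

/-- One step to the parent changes the layer by at most one or is a jump. -/
theorem step (H : Hier S F) (σ : Player S) (w : World S) (k : ℕ) {t : ℕ} (ht : t < H.R) {v : S.V}
    (h : 0 < H.dep t (run F σ w k) v) :
    H.lay t (w.lam (par (run F σ w k) v)) = H.lay t (w.lam v) ∨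
    H.lay t (w.lam (par (run F σ w k) v)) = H.lay t (w.lam v) + 1 ∨
    H.lay t (w.lam (par (run F σ w k) v)) + 1 = H.lay t (w.lam v) ∨
    H.lay t (w.lam (par (run F σ w k) v)) = H.T - 1 ∨
    H.lay t (w.lam (par (run F σ w k) v)) = 2 * H.T := by
  obtain ⟨e, L', h1, h2, h3, h4, _⟩ := H.dep_pos h
  obtain ⟨_, _, y, hy, rfl⟩ := disc_iff.1 h2
  have he : e ∈ run F σ w k := h1.subset List.mem_cons_self
  obtain ⟨h7, h8, _⟩ := run_r σ w he hy
  have h10 := (run_mem σ w he).1
  have h11 : e.p.1 = w.lam e.a.1 := by rw [h10]; rfl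
  have h12 : y.2.1 = w.lam y.1.1 := by rw [h8]; rfl
  rw [h4, ← h11, ← h12]
  by_cases hg : H.ge (t + 1) e.b e.p
  · exact Or.inl (H.ge_lay ht w hg h7).1
  · rcases H.ge_step ht w h3 hg h7 with ⟨_, h13⟩ | ⟨_, h13⟩ <;> omega

/-- The layers of the ancestors. -/
theorem lays (H : Hier S F) (σ : Player S) (w : World S) (k : ℕ) {t : ℕ} (ht : t < H.R) {v : S.V}
    {j : ℕ} (hj : j ≤ H.dep t (run F σ w k) v) :
    (H.lay t (w.lam ((par (run F σ w k))^[j] v)) ≤ H.lay t (w.lam v) + j ∧
      H.lay t (w.lam v) ≤ H.lay t (w.lam ((par (run F σ w k))^[j] v)) + j) ∨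
    (H.lay t (w.lam ((par (run F σ w k))^[j] v)) ≤ H.T + j ∧
      H.T ≤ H.lay t (w.lam ((par (run F σ w k))^[j] v)) + j + 1) ∨
    (H.lay t (w.lam ((par (run F σ w k))^[j] v)) ≤ 2 * H.T + j ∧
      2 * H.T ≤ H.lay t (w.lam ((par (run F σ w k))^[j] v)) + j) := by
  induction j with
  | zero => exact Or.inl ⟨le_rfl, le_rfl⟩
  | succ j ih =>
    have ih' := ih (by omega)
    have h1 := H.dep_iter (t := t) (L := run F σ w k) (v := v) (j := j) (by omega)
    have h2 : 0 < H.dep t (run F σ w k) ((par (run F σ w k))^[j] v) := by omega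
    have h3 := step H σ w k ht h2
    rw [Function.iterate_succ_apply']
    have h4 := H.T_big
    omega

theorem blks (H : Hier S F) (σ : Player S) (w : World S) (k : ℕ) {t : ℕ} {v : S.V}
    {j : ℕ} (hj : j ≤ H.dep t (run F σ w k) v) :
    H.blk t (w.lam ((par (run F σ w k))^[j] v)) = H.blk t (w.lam v) := by
  induction j with
  | zero => rfl
  | succ j ih =>
    have h1 := H.dep_iter (t := t) (L := run F σ w k) (v := v) (j := j) (by omega)
    rw [Function.iterate_succ_apply', ← (H.part_blk σ w k (by omega)).1]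
    exact ih (by omega)

end WIN_

open WIN_

/-- WIN: the number of touched names in a layer. -/
theorem tWIN (hD : T_DESC) : T_WIN := by
  intro S F H σ w k s h β l hh hs
  set t := s + 1 with ht
  set L := run F σ w k with hL
  set R1 : Finset S.V := (H.roots t L).filter fun v => w.lam v ∈ H.win h t β l with hR1
  let ds : ℕ → S.V → Finset S.V := fun n v =>
    (touched L).filter fun u => ∃ j ≤ n, j ≤ H.dep t L u ∧ (par L)^[j] u = v
  have hds : ∀ n v, (ds n v).card ≤ (2 * H.dd t + 1) ^ n := fun n v => hD S F H σ w k t n v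
  have hsub : H.inl t β l L ⊆ (R1.biUnion (ds h)) ∪ ((H.top s h L).biUnion (ds (2 * h))) := by
    intro v hv
    rw [Hier.inl, Finset.mem_filter] at hv
    obtain ⟨hv1, x, hx1, hx2, hx3⟩ := hv
    have hx : x = w.lam v := by
      rw [hL, adr_eq, if_pos hv1] at hx1
      exact (Option.some.inj hx1).symm
    subst hx
    rw [Finset.mem_union, Finset.mem_biUnion, Finset.mem_biUnion]
    rcases Nat.lt_or_ge (H.dep t L v) h with hlt | hge
    · left
      have h1 := H.root_eq (t := t) (L := L) (v := v)
      refine ⟨H.root t L v, ?_, ?_⟩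
      · rw [hR1, Finset.mem_filter, H.mem_roots]
        refine ⟨⟨H.root_touched hv1, H.root_root⟩, ?_⟩
        rw [Hier.win, Finset.mem_filter]
        refine ⟨Finset.mem_univ _, ?_, ?_⟩
        · rw [← H.root_blk σ w k v]
          exact hx2
        · rw [h1.1]
          have h2 := lays H σ w k hs (v := v) (j := H.dep t L v) le_rfl
          rw [← hL] at h2
          omega
      · simp only [ds, Finset.mem_filter]
        exact ⟨hv1, H.dep t L v, hlt.le, le_rfl, h1.1.symm⟩
    · right
      have hr : H.dep t L v % h < h := Nat.mod_lt _ (by omega)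
      have hq : 1 ≤ H.dep t L v / h := (Nat.one_le_div_iff (by omega)).2 hge
      have hdm := Nat.div_add_mod (H.dep t L v) h
      have hmul : h ≤ h * (H.dep t L v / h) := Nat.le_mul_of_pos_right h hq
      set r := H.dep t L v % h with hrdef
      have h1 := H.dep_iter (t := t) (L := L) (v := v) (j := r) (by omega)
      have h2 : H.dep t L ((par L)^[r] v) = h * (H.dep t L v / h) := by omega
      refine ⟨(par L)^[h] ((par L)^[r] v), ?_, ?_⟩
      · rw [Hier.top, Finset.mem_image]
        refine ⟨(par L)^[r] v, ?_, rfl⟩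
        rw [Finset.mem_filter]
        refine ⟨Hier.iter_touched hv1 r, ?_, ?_⟩
        · rw [← ht, h2]
          exact hmul
        · rw [← ht, h2]
          exact Dvd.intro _ rfl
      · simp only [ds, Finset.mem_filter]
        refine ⟨hv1, h + r, by omega, by omega, ?_⟩
        rw [Function.iterate_add_apply]
  calc (H.inl t β l L).card
      ≤ ((R1.biUnion (ds h)) ∪ ((H.top s h L).biUnion (ds (2 * h)))).card :=
        Finset.card_le_card hsub
    _ ≤ (R1.biUnion (ds h)).card + ((H.top s h L).biUnion (ds (2 * h))).card :=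
        Finset.card_union_le _ _
    _ ≤ R1.card * (2 * H.dd t + 1) ^ h + (H.top s h L).card * (2 * H.dd t + 1) ^ (2 * h) :=
        add_le_add (Finset.card_biUnion_le_card_mul _ _ _ fun v _ => hds h v)
          (Finset.card_biUnion_le_card_mul _ _ _ fun v _ => hds (2 * h) v)
    _ = _ := by
        rw [mul_comm R1.card, mul_comm (H.top s h L).card]

end

end Pool.Agent.AcyAd
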