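import Pool.Agent.AcyAd.Targets2

/-!
# MP_08c6cd_lc, fully adaptive testers: the size of a window
-/

namespace Pool.Agent.AcyAd

open scoped Classical
open Pool.Agent.AcyTest

noncomputable section

namespace WINC_

variable {S : Sys} {F : Fx S} (H : Hier S F)

/-- The layers which occur in a window. -/
def Ls (h l : ℕ) : Finset ℕ :=
  Finset.Icc (l - h) (l + h) ∪ Finset.Icc (H.T - 1 - h) (H.T + h) ∪
    Finset.Icc (2 * H.T - h) (2 * H.T + h)

theorem card_Ls (h l : ℕ) : (Ls H h l).card ≤ 6 * h + 4 := by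
  unfold Ls
  have h1 := Finset.card_union_le (Finset.Icc (l - h) (l + h) ∪
    Finset.Icc (H.T - 1 - h) (H.T + h)) (Finset.Icc (2 * H.T - h) (2 * H.T + h))
  have h2 := Finset.card_union_le (Finset.Icc (l - h) (l + h))
    (Finset.Icc (H.T - 1 - h) (H.T + h))
  rw [Nat.card_Icc] at h1 h2
  rw [Nat.card_Icc] at h2
  have h3 := H.T_big
  omega

theorem layer_card (t : ℕ) (ht : t < H.R) (x : S.V) (hx : H.blk t x ≠ none) (l' : ℕ) :
    (Finset.univ.filter fun y => H.blk t y = H.blk t x ∧ H.lay t y = l').card ≤ H.nb (t + 1) := by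
  by_cases hl : l' < 3 * H.T
  · exact (H.card_lay t ht x hx l' hl).le
  · rw [Finset.card_eq_zero.2]
    · exact Nat.zero_le _
    · rw [Finset.filter_eq_empty_iff]
      rintro y - ⟨hy1, hy2⟩
      have := H.lay_lt t ht y (by rw [hy1]; exact hx)
      omega

end WINC_

theorem tWINC : T_WINC := by
  intro S F H h t β l ht
  by_cases hne : (H.win h t β l).Nonempty
  · obtain ⟨x, hx⟩ := hne
    have hxb : H.blk t x = some β := by
      have := (Finset.mem_filter.1 hx).2
      exact this.1
    have hsub : H.win h t β l ⊆ (WINC_.Ls H h l).biUnion fun l' =>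
        Finset.univ.filter fun y => H.blk t y = H.blk t x ∧ H.lay t y = l' := by
      intro y hy
      have hy' := (Finset.mem_filter.1 hy).2
      rw [Finset.mem_biUnion]
      refine ⟨H.lay t y, ?_, ?_⟩
      · unfold WINC_.Ls
        rw [Finset.mem_union, Finset.mem_union, Finset.mem_Icc, Finset.mem_Icc, Finset.mem_Icc]
        rcases hy'.2 with h1 | h1 | h1 <;> omega
      · rw [Finset.mem_filter]
        exact ⟨Finset.mem_univ _, by rw [hy'.1, hxb], rfl⟩
    calc (H.win h t β l).card ≤ _ := Finset.card_le_card hsub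
      _ ≤ (WINC_.Ls H h l).card * H.nb (t + 1) :=
          Finset.card_biUnion_le_card_mul _ _ _ fun l' _ =>
            WINC_.layer_card H t ht x (by rw [hxb]; exact Option.some_ne_none _) l'
      _ ≤ (6 * h + 4) * H.nb (t + 1) := Nat.mul_le_mul_right _ (WINC_.card_Ls H h l)
  · rw [Finset.not_nonempty_iff_eq_empty.1 hne]
    simp

end

end Pool.Agent.AcyAd
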