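import Pool.Agent.AcyAd.MIX
import Pool.Agent.AcyAd.AVG
import Pool.Agent.AcyAd.IDENT
import Pool.Agent.AcyAd.AGI
import Pool.Agent.AcyAd.CNT
import Pool.Agent.AcyAd.FAC
import Pool.Agent.AcyAd.AGR
import Pool.Agent.AcyAd.DC
import Pool.Agent.AcyAd.AG2
import Pool.Agent.AcyAd.DEC
import Pool.Agent.AcyAd.COUNT
import Pool.Agent.AcyAd.TSUM
import Pool.Agent.AcyAd.FOR
import Pool.Agent.AcyAd.U
import Pool.Agent.AcyAd.UNR
import Pool.Agent.AcyAd.UNA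
import Pool.Agent.AcyAd.SC
import Pool.Agent.AcyAd.KID
import Pool.Agent.AcyAd.DESC
import Pool.Agent.AcyAd.PART
import Pool.Agent.AcyAd.WIN
import Pool.Agent.AcyAd.WINC
import Pool.Agent.AcyAd.CUT
import Pool.Agent.AcyAd.TOPU
import Pool.Agent.AcyAd.UAPP
import Pool.Agent.AcyAd.SPC
import Pool.Agent.AcyAd.AX
import Pool.Agent.AcyAd.BH
import Pool.Agent.AcyAd.CLE
import Pool.Agent.AcyAd.NC
import Pool.Agent.AcyAd.EVC1
import Pool.Agent.AcyAd.EVC2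
import Pool.Agent.AcyAd.RWIN
import Pool.Agent.AcyAd.NCL
import Pool.Agent.AcyAd.DENS
import Pool.Agent.AcyAd.CMP
import Pool.Agent.AcyAd.C1
import Pool.Agent.AcyAd.C2
import Pool.Agent.AcyAd.C3
import Pool.Agent.AcyAd.C4
import Pool.Agent.AcyAd.PG
import Pool.Agent.AcyAd.HB1
import Pool.Agent.AcyAd.HB3
import Pool.Agent.AcyAd.SPB
import Pool.Agent.AcyAd.TSM
import Pool.Agent.AcyAd.TBG
import Pool.Agent.AcyAd.TOP
import Pool.Agent.AcyAd.DET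
import Pool.Agent.AcyAd.AMT
import Pool.Agent.AcyAd.MVR
import Pool.Agent.AcyAd.MVI
import Pool.Agent.AcyAd.CPL
import Pool.Agent.AcyAd.CLU
import Pool.Agent.AcyAd.PTN
import Pool.Agent.AcyAd.LOW
import Pool.Agent.AcyAd.GEX
import Pool.Agent.AcyAd.GACY
import Pool.Agent.AcyAd.GFAS
import Pool.Agent.AcyAd.SEQ
import Pool.Agent.AcyAd.SIM
import Pool.Agent.AcyAd.TL

/-!
# MP_08c6cd_lc, fully adaptive testers: assembly of the blocks 1-3
-/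

namespace Pool.Agent.AcyAd

theorem aU' : T_U := tU tMIX tAVG tIDENT
  (tDEC (tAGR (tAGI tMIX) tCNT tFAC) tDC (tAG2 tMIX)) (tFOR (tCOUNT tMIX) (tTSUM tMIX))

theorem aSC : T_SC := tSC tUNR tUNA

theorem aCMP : T_CMP := tCMP tNCL

theorem aHB1 : T_HB1 := tHB1 (tC1 aCMP tNCL) (tC2 aCMP)

theorem aHB3 : T_HB3 := tHB3 (tC3 aCMP tNCL) (tC4 aCMP tWINC)

theorem aDESC : T_DESC := tDESC tKID

theorem aUAPP : T_UAPP := tUAPP tCUT tTOPU

theorem aDENS : T_DENS := tDENS tNCL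

theorem aSPB : T_SPB := tSPB tSPC (tBH tAX) tCLE tNC tEVC1 tEVC2 aHB1 aHB3

theorem aTOP : T_TOP := tTOP (tPART aDESC) (tTSM aUAPP aDENS aSPB) (tTBG aUAPP aDENS aSPB)

theorem aDET : T_DET := tDET aTOP (tWIN aDESC) tRWIN aHB1 aHB3 tNC

theorem aAMT : T_AMT := tAMT (tPG aSC aU' tNCL) aDET

theorem aLOW : T_LOW := tLOW aAMT (tPTN tCLU) (tCPL tMVR tMVI)

theorem aTL : T_TL := tTL tGEX tGACY (tSIM tSEQ)

end Pool.Agent.AcyAd
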