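import Pool.Agent.AcyAd.Targets4

/-!
# MP_08c6cd_lc, fully adaptive testers: the classes have as many out-slots as in-slots (ADI-CARD)
-/

namespace Pool.Agent.AcyAd

open scoped Classical
open Pool.Agent.AcyTest

noncomputable section

namespace CARD_

theorem rot_ex (n : ℕ) (hn : 0 < n) : ∃ e : Equiv.Perm (Fin n),
    ∀ i, (e i).1 = if i.1 = n - 1 then 0 else i.1 + 1 := by
  obtain ⟨m, rfl⟩ : ∃ m, n = m + 1 := ⟨n - 1, by omega⟩
  refine ⟨finRotate (m + 1), fun i => ?_⟩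
  rw [coe_finRotate]
  have h : i = Fin.last m ↔ i.1 = m + 1 - 1 := by
    rw [Fin.ext_iff, Fin.val_last]
    rfl
  by_cases h1 : i = Fin.last m
  · rw [if_pos h1, if_pos (h.1 h1)]
  · rw [if_neg h1, if_neg (fun h2 => h1 (h.2 h2))]

variable {d : Dat}

/-- A permutation acts on the coordinate `t`. -/
def act (t : Fin d.R) (e : Equiv.Perm (Fin (3 * d.T))) : Equiv.Perm d.V :=
  Equiv.prodCongr (Equiv.piCongrRight fun s => if s = t then e else Equiv.refl _) (Equiv.refl _)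

theorem act_same (t : Fin d.R) (e : Equiv.Perm (Fin (3 * d.T))) (x : d.V) :
    (act t e x).1 t = e (x.1 t) := by
  simp [act]

theorem act_ne {t s : Fin d.R} (h : s ≠ t) (e : Equiv.Perm (Fin (3 * d.T))) (x : d.V) :
    (act t e x).1 s = x.1 s := by
  simp [act, h]

theorem act_snd (t : Fin d.R) (e : Equiv.Perm (Fin (3 * d.T))) (x : d.V) :
    (act t e x).2 = x.2 := rfl

theorem co_eq (s : Fin d.R) (x : d.V) : d.co s.1 x = (x.1 s).1 := by
  unfold Dat.co
  rw [dif_pos s.2]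

theorem co_lt (s : ℕ) (x : d.V) : d.co s x < 3 * d.T := by
  unfold Dat.co
  split
  · exact (x.1 _).2
  · exact d.T3_pos

theorem co_congr {x x' : d.V} {s : ℕ} (h : ∀ h : s < d.R, x'.1 ⟨s, h⟩ = x.1 ⟨s, h⟩) :
    d.co s x' = d.co s x := by
  unfold Dat.co
  by_cases hs : s < d.R
  · rw [dif_pos hs, dif_pos hs, h hs]
  · rw [dif_neg hs, dif_neg hs]

theorem key_congr {x x' : d.V} {t : ℕ} (h : ∀ s : Fin d.R, s.1 < t → x'.1 s = x.1 s) (l : ℕ) :
    d.key t l x' = d.key t l x := by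
  funext s
  unfold Dat.key
  by_cases hs : s.1 < t
  · rw [if_pos hs, if_pos hs, h s hs]
  · rw [if_neg hs, if_neg hs]

/-- A permutation of the slots which makes entry slots from the exit slots of level `t + 1`. -/
structure Good (t : Fin d.R) (ρ : Equiv.Perm (d.V × Fin d.D)) : Prop where
  co : ∀ a, ∀ s : Fin d.R, s.1 ≤ t.1 → (ρ a).1.1 s = a.1.1 s
  rk : ∀ a, (a.2 : ℕ) < d.th (t.1 + 1) → (ρ a).2 = a.2
  rk' : ∀ a, d.th (t.1 + 1) ≤ (a.2 : ℕ) → d.th (t.1 + 1) ≤ ((ρ a).2 : ℕ)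
  ex : ∀ a, d.th (t.1 + 1) ≤ (a.2 : ℕ) →
    (d.exit (t.1 + 1) a.1 a.2 ↔ d.entry (t.1 + 1) (ρ a).1 (ρ a).2)

theorem good1 (t : Fin d.R) (ht : t.1 + 1 < d.R) : ∃ ρ, Good t ρ := by
  obtain ⟨e, he⟩ := rot_ex (3 * d.T) d.T3_pos
  refine ⟨Equiv.prodCongr (act ⟨t.1 + 1, ht⟩ e) (Equiv.refl _), ?_, ?_, ?_, ?_⟩
  · intro a s hs
    show (act ⟨t.1 + 1, ht⟩ e a.1).1 s = a.1.1 s
    apply act_ne
    intro h
    rw [h] at hs
    simp at hs
  · intro a _
    rfl
  · intro a h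
    exact h
  · intro a _
    show d.exit (t.1 + 1) a.1 a.2 ↔ d.entry (t.1 + 1) (act ⟨t.1 + 1, ht⟩ e a.1) a.2
    unfold Dat.exit Dat.entry
    rw [if_pos ht, if_pos ht, co_eq ⟨t.1 + 1, ht⟩, co_eq ⟨t.1 + 1, ht⟩, act_same, he]
    have := d.hT
    by_cases h : ((a.1.1 ⟨t.1 + 1, ht⟩ : Fin (3 * d.T)) : ℕ) = 3 * d.T - 1
    · rw [if_pos h]
      exact ⟨fun _ => rfl, fun _ => h⟩
    · rw [if_neg h]
      constructor
      · intro h'
        exact absurd h' h
      · intro h'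
        omega

theorem bi_rb (i : Fin 2) : d.bi (d.rb i).1 = i := by
  unfold Dat.bi Dat.rb
  fin_cases i <;> simp

theorem rb_bi {r : Fin d.D} (h : d.th d.R ≤ r.1) : d.rb (d.bi r.1) = r := by
  have h1 : r.1 < d.th d.R + 2 := r.2
  apply Fin.ext
  unfold Dat.bi Dat.rb
  by_cases h2 : r.1 = d.th d.R
  · simp [h2]
  · simp only [if_neg h2, Fin.val_one]
    omega

theorem le_rb (i : Fin 2) : d.th d.R ≤ (d.rb i).1 := by
  unfold Dat.rb
  simp

/-- The permutation of the bottom slots. -/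
def bot (π : Equiv.Perm (Fin d.M × Fin d.w × Fin 2)) (a : d.V × Fin d.D) : d.V × Fin d.D :=
  if d.th d.R ≤ a.2.1 then
    ((a.1.1, (π (a.1.2.1, a.1.2.2, d.bi a.2.1)).1, (π (a.1.2.1, a.1.2.2, d.bi a.2.1)).2.1),
      d.rb (π (a.1.2.1, a.1.2.2, d.bi a.2.1)).2.2)
  else a

theorem bot_inv (π π' : Equiv.Perm (Fin d.M × Fin d.w × Fin 2)) (h : ∀ y, π' (π y) = y)
    (a : d.V × Fin d.D) : bot π' (bot π a) = a := by
  by_cases ha : d.th d.R ≤ a.2.1
  · have e1 : bot π a = ((a.1.1, (π (a.1.2.1, a.1.2.2, d.bi a.2.1)).1,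
        (π (a.1.2.1, a.1.2.2, d.bi a.2.1)).2.1), d.rb (π (a.1.2.1, a.1.2.2, d.bi a.2.1)).2.2) := by
      unfold bot
      rw [if_pos ha]
    rw [e1]
    unfold bot
    rw [if_pos (le_rb _)]
    simp only [bi_rb, Prod.mk.eta, h]
    rw [rb_bi ha]
  · have e1 : bot π a = a := by
      unfold bot
      rw [if_neg ha]
    rw [e1]
    unfold bot
    rw [if_neg ha]

theorem good2 (h3 : T_EXN) (t : Fin d.R) (ht : t.1 + 1 = d.R) : ∃ ρ, Good t ρ := by
  obtain ⟨e⟩ : Nonempty ({y : Fin d.M × Fin d.w × Fin 2 // y.1.1 + 1 = d.M ∨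
      d.G.out y.2.1 y.2.2 = none} ≃ {y : Fin d.M × Fin d.w × Fin 2 // y.1.1 = 0 ∨
      d.G.inn y.2.1 y.2.2 = none}) := by
    have h4 := h3 d
    rw [Nat.card_eq_fintype_card, Nat.card_eq_fintype_card] at h4
    exact ⟨Fintype.equivOfCardEq h4⟩
  have hπ : ∀ y, (y.1.1 + 1 = d.M ∨ d.G.out y.2.1 y.2.2 = none) ↔
      ((e.extendSubtype y).1.1 = 0 ∨
        d.G.inn (e.extendSubtype y).2.1 (e.extendSubtype y).2.2 = none) := by
    intro y
    constructor
    · intro hy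
      exact e.extendSubtype_mem y hy
    · intro hy
      by_contra hy'
      exact e.extendSubtype_not_mem y hy' hy
  refine ⟨⟨bot e.extendSubtype, bot e.extendSubtype.symm,
    bot_inv _ _ (fun y => Equiv.symm_apply_apply _ _),
    bot_inv _ _ (fun y => Equiv.apply_symm_apply _ _)⟩, ?_, ?_, ?_, ?_⟩
  · intro a s hs
    show (bot e.extendSubtype a).1.1 s = a.1.1 s
    unfold bot
    split_ifs <;> rfl
  · intro a h
    show (bot e.extendSubtype a).2 = a.2
    rw [ht] at h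
    unfold bot
    rw [if_neg (not_le.2 h)]
  · intro a h
    show d.th (t.1 + 1) ≤ ((bot e.extendSubtype a).2 : ℕ)
    rw [ht] at h ⊢
    unfold bot
    rw [if_pos h]
    exact le_rb _
  · intro a h
    show d.exit (t.1 + 1) a.1 a.2 ↔
      d.entry (t.1 + 1) (bot e.extendSubtype a).1 (bot e.extendSubtype a).2
    rw [ht] at h ⊢
    unfold Dat.exit Dat.entry
    rw [if_neg (lt_irrefl _), if_neg (lt_irrefl _)]
    unfold bot
    rw [if_pos h]
    simp only [bi_rb]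
    exact hπ (a.1.2.1, a.1.2.2, d.bi a.2.1)

theorem good (h3 : T_EXN) (t : Fin d.R) : ∃ ρ, Good t ρ := by
  rcases Nat.lt_or_ge (t.1 + 1) d.R with h | h
  · exact good1 t h
  · exact good2 h3 t (by have := t.2; omega)

/-- Facts on the composition. -/
theorem cmpf {t : Fin d.R} {ρ : Equiv.Perm (d.V × Fin d.D)} (hρ : Good t ρ)
    (e : Equiv.Perm (Fin (3 * d.T))) (a : d.V × Fin d.D) :
    (∀ s : Fin d.R, s.1 < t.1 → (ρ (act t e a.1, a.2)).1.1 s = a.1.1 s) ∧
    d.co t.1 (ρ (act t e a.1, a.2)).1 = (e (a.1.1 t)).1 ∧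
    (d.th t.1 ≤ (a.2 : ℕ) ↔ d.th t.1 ≤ ((ρ (act t e a.1, a.2)).2 : ℕ)) ∧
    (d.th (t.1 + 1) ≤ (a.2 : ℕ) ↔ d.th (t.1 + 1) ≤ ((ρ (act t e a.1, a.2)).2 : ℕ)) ∧
    (d.th (t.1 + 1) ≤ (a.2 : ℕ) → (d.exit (t.1 + 1) a.1 a.2 ↔
      d.entry (t.1 + 1) (ρ (act t e a.1, a.2)).1 (ρ (act t e a.1, a.2)).2)) := by
  have hth : d.th t.1 < d.th (t.1 + 1) := d.thm (Nat.lt_succ_self _)
  refine ⟨?_, ?_, ?_, ?_, ?_⟩
  · intro s hs
    rw [hρ.co _ s hs.le]
    apply act_ne
    intro h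
    rw [h] at hs
    exact lt_irrefl _ hs
  · rw [co_eq, hρ.co _ t le_rfl]
    show ((act t e a.1).1 t).1 = _
    rw [act_same]
  · rcases Nat.lt_or_ge (a.2 : ℕ) (d.th (t.1 + 1)) with h | h
    · rw [hρ.rk (act t e a.1, a.2) h]
    · have := hρ.rk' (act t e a.1, a.2) h
      constructor
      · intro _
        omega
      · intro _
        omega
  · rcases Nat.lt_or_ge (a.2 : ℕ) (d.th (t.1 + 1)) with h | h
    · rw [hρ.rk (act t e a.1, a.2) h]
    · have := hρ.rk' (act t e a.1, a.2) h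
      constructor
      · intro _
        exact this
      · intro _
        exact h
  · intro h
    rw [← hρ.ex (act t e a.1, a.2) h]
    show d.exit (t.1 + 1) a.1 a.2 ↔ d.exit (t.1 + 1) (act t e a.1) a.2
    unfold Dat.exit
    by_cases h1 : t.1 + 1 < d.R
    · rw [if_pos h1, if_pos h1]
      have : d.co (t.1 + 1) (act t e a.1) = d.co (t.1 + 1) a.1 := by
        apply co_congr
        intro h2
        apply act_ne
        intro h3
        have := congrArg Fin.val h3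
        simp at this
      rw [this]
    · rw [if_neg h1, if_neg h1, act_snd]

end CARD_

open CARD_ in
theorem tCARD (h1 : T_NFO) (h2 : T_NFI) (h3 : T_EXN) : T_CARD := by
  intro d κ
  obtain ⟨t, k, j⟩ := κ
  obtain ⟨ρ, hρ⟩ := good h3 t
  have hT := d.hT
  cases j
  · obtain ⟨e, he⟩ := rot_ex (3 * d.T) d.T3_pos
    refine Nat.card_congr (((Equiv.prodCongr (act t e) (Equiv.refl (Fin d.D))).trans ρ).subtypeEquiv
      fun a => ?_)
    show d.cout a.1 a.2 = some (t, k, false) ↔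
      d.cin (ρ (act t e a.1, a.2)).1 (ρ (act t e a.1, a.2)).2 = some (t, k, false)
    rw [(h1 d a.1 a.2 a.2.2).1 (t, k, false), (h2 d _ _ (ρ (act t e a.1, a.2)).2.2).1 (t, k, false)]
    obtain ⟨c1, c2, c3, c4, c5⟩ := cmpf hρ e a
    have hco := co_eq t a.1
    have hlt := co_lt t.1 a.1
    rw [he, ← hco] at c2
    have hr : (∀ s < t.1, d.rich s a.1) ↔ ∀ s < t.1, d.rich s (ρ (act t e a.1, a.2)).1 := by
      refine forall_congr' fun s => forall_congr' fun hs => ?_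
      unfold Dat.rich
      rw [co_congr (x := a.1) (x' := (ρ (act t e a.1, a.2)).1) (fun h => c1 ⟨s, h⟩ hs)]
    have hk : ∀ l, d.key t.1 l (ρ (act t e a.1, a.2)).1 = d.key t.1 l a.1 :=
      fun l => key_congr c1 l
    simp only [true_and, Bool.false_eq_true, false_and, or_false, hk]
    unfold Dat.nfo Dat.nfi
    rw [hr, c2, ← c3]
    by_cases hl : d.co t.1 a.1 = 3 * d.T - 1
    · rw [if_pos hl]
      constructor
      · rintro ⟨⟨-, -, h, -⟩, -⟩
        exact absurd hl h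
      · rintro ⟨⟨-, -, h, -⟩, -⟩
        exact absurd rfl h
    · rw [if_neg hl]
      have e1 : d.co t.1 a.1 + 1 - 1 = d.co t.1 a.1 := by omega
      rw [e1]
      have e2 : (d.T ≤ d.co t.1 a.1 + 1 → d.co t.1 a.1 + 1 ≤ 2 * d.T →
          ((ρ (act t e a.1, a.2)).2 : ℕ) < d.th (t.1 + 1) ∨
            d.entry (t.1 + 1) (ρ (act t e a.1, a.2)).1 (ρ (act t e a.1, a.2)).2) ↔
          (d.T - 1 ≤ d.co t.1 a.1 → d.co t.1 a.1 < 2 * d.T →
            ((a.2 : ℕ) < d.th (t.1 + 1) ∨ d.exit (t.1 + 1) a.1 a.2)) := by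
        have e3 : (((ρ (act t e a.1, a.2)).2 : ℕ) < d.th (t.1 + 1) ∨
            d.entry (t.1 + 1) (ρ (act t e a.1, a.2)).1 (ρ (act t e a.1, a.2)).2) ↔
            ((a.2 : ℕ) < d.th (t.1 + 1) ∨ d.exit (t.1 + 1) a.1 a.2) := by
          rcases Nat.lt_or_ge (a.2 : ℕ) (d.th (t.1 + 1)) with h | h
          · have h' : ((ρ (act t e a.1, a.2)).2 : ℕ) < d.th (t.1 + 1) := by
              by_contra h'
              exact absurd (c4.2 (not_lt.1 h')) (not_le.2 h)
            exact ⟨fun _ => Or.inl h, fun _ => Or.inl h'⟩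
          · have h' := c4.1 h
            constructor
            · rintro (h4 | h4)
              · exact absurd h4 (not_lt.2 h')
              · exact Or.inr ((c5 h).2 h4)
            · rintro (h4 | h4)
              · exact absurd h4 (not_lt.2 h)
              · exact Or.inr ((c5 h).1 h4)
        rw [e3]
        constructor
        · intro h a1 a2
          exact h (by omega) (by omega)
        · intro h a1 a2
          exact h (by omega) (by omega)
      rw [e2]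
      constructor
      · rintro ⟨⟨g1, g2, g3, g4⟩, g5⟩
        exact ⟨⟨g1, g2, by omega, g4⟩, g5⟩
      · rintro ⟨⟨g1, g2, g3, g4⟩, g5⟩
        exact ⟨⟨g1, g2, hl, g4⟩, g5⟩
  · have hT1 : d.T - 1 < 3 * d.T := by omega
    have hT2 : 2 * d.T < 3 * d.T := by omega
    obtain ⟨e, he⟩ : ∃ e : Equiv.Perm (Fin (3 * d.T)), ∀ i, (e i).1 = 2 * d.T ↔ i.1 = d.T - 1 := by
      refine ⟨Equiv.swap ⟨d.T - 1, hT1⟩ ⟨2 * d.T, hT2⟩, fun i => ?_⟩
      constructor
      · intro h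
        have h4 : Equiv.swap (⟨d.T - 1, hT1⟩ : Fin (3 * d.T)) ⟨2 * d.T, hT2⟩ i =
            ⟨2 * d.T, hT2⟩ := Fin.ext h
        rw [Equiv.swap_apply_eq_iff, Equiv.swap_apply_right] at h4
        rw [h4]
      · intro h
        have h4 : i = ⟨d.T - 1, hT1⟩ := Fin.ext h
        rw [h4, Equiv.swap_apply_left]
    refine Nat.card_congr (((Equiv.prodCongr (act t e) (Equiv.refl (Fin d.D))).trans ρ).subtypeEquiv
      fun a => ?_)
    show d.cout a.1 a.2 = some (t, k, true) ↔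
      d.cin (ρ (act t e a.1, a.2)).1 (ρ (act t e a.1, a.2)).2 = some (t, k, true)
    rw [(h1 d a.1 a.2 a.2.2).1 (t, k, true), (h2 d _ _ (ρ (act t e a.1, a.2)).2.2).1 (t, k, true)]
    obtain ⟨c1, c2, c3, c4, c5⟩ := cmpf hρ e a
    have hco := co_eq t a.1
    have hr : (∀ s < t.1, d.rich s a.1) ↔ ∀ s < t.1, d.rich s (ρ (act t e a.1, a.2)).1 := by
      refine forall_congr' fun s => forall_congr' fun hs => ?_
      unfold Dat.rich
      rw [co_congr (x := a.1) (x' := (ρ (act t e a.1, a.2)).1) (fun h => c1 ⟨s, h⟩ hs)]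
    have hk : ∀ l, d.key t.1 l (ρ (act t e a.1, a.2)).1 = d.key t.1 l a.1 :=
      fun l => key_congr c1 l
    simp only [true_and, Bool.true_eq_false, false_and, false_or, hk]
    unfold Dat.jmo Dat.jmi
    rw [hr, c2, he, ← c4, hco]
    constructor
    · rintro ⟨⟨g1, g2, g3, g4⟩, g5⟩
      exact ⟨⟨g1, g2, g3, fun h => g4 ((c5 g3).2 h)⟩, g5⟩
    · rintro ⟨⟨g1, g2, g3, g4⟩, g5⟩
      exact ⟨⟨g1, g2, g3, fun h => g4 ((c5 g3).1 h)⟩, g5⟩

end

end Pool.Agent.AcyAd
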