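import Pool.Agent.AcyAd.Targets4

/-!
# ADI-COPY: feedback arcs of disjoint copies
-/

namespace Pool.Agent.AcyAd

open Pool.Agent.AcyTest

namespace COPY_

theorem acy_pull {U W : Type} (F : W → W → Prop) (hF : AcyR F) (g : U → W) :
    AcyR (fun u v => F (g u) (g v)) := by
  intro v hv
  exact hF (g v) (hv.lift g (fun _ _ h => h))

end COPY_

theorem tCOPY : T_COPY := by
  intro U W J _ _ _ E E' ι x hE hinj hpres F hF
  classical
  have : Fintype J := Fintype.ofFinite J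
  let S : J → Set (U × U) := fun i => {p | E p.1 p.2 ∧ ¬ F (ι i p.1) (ι i p.2)}
  let S' : Set (W × W) := {p | E' p.1 p.2 ∧ ¬ F p.1 p.2}
  have h1 : ∀ i, x ≤ ((S i).ncard : ℝ) := fun i =>
    hE (fun u v => F (ι i u) (ι i v)) (COPY_.acy_pull F hF (ι i))
  let φ : (Σ i, S i) → S' := fun q =>
    ⟨(ι q.1 q.2.1.1, ι q.1 q.2.1.2), hpres _ _ _ q.2.2.1, q.2.2.2⟩
  have hφ : Function.Injective φ := by
    rintro ⟨i, ⟨⟨u, v⟩, h⟩⟩ ⟨i', ⟨⟨u', v'⟩, h'⟩⟩ heq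
    have h2 := congrArg Subtype.val heq
    simp only [φ, Prod.mk.injEq] at h2
    obtain ⟨h3, h4⟩ := h2
    obtain ⟨rfl, rfl⟩ := hinj _ _ _ _ h3
    obtain ⟨_, rfl⟩ := hinj _ _ _ _ h4
    rfl
  have h2 : Nat.card (Σ i, S i) ≤ Nat.card S' := Nat.card_le_card_of_injective φ hφ
  have h3 : Nat.card (Σ i, S i) = ∑ i, (S i).ncard := by
    rw [Nat.card_sigma]
    rfl
  have h4 : (Nat.card J : ℝ) * x ≤ ∑ i, ((S i).ncard : ℝ) := by
    rw [Nat.card_eq_fintype_card]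
    calc (Fintype.card J : ℝ) * x = ∑ _i : J, x := by
          rw [Finset.sum_const, Finset.card_univ, nsmul_eq_mul]
      _ ≤ _ := Finset.sum_le_sum fun i _ => h1 i
  calc (Nat.card J : ℝ) * x ≤ ∑ i, ((S i).ncard : ℝ) := h4
    _ = ((Nat.card (Σ i, S i) : ℕ) : ℝ) := by rw [h3]; push_cast; rfl
    _ ≤ (Nat.card S' : ℝ) := by exact_mod_cast h2

end Pool.Agent.AcyAd
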