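import Pool.Agent.AcyAd.Targets4

set_option autoImplicit false

/-!
# MP_08c6cd_lc, fully adaptive testers: ADI-CSZ, lower bound for the sizes of the classes
-/

namespace Pool.Agent.AcyAd

open scoped Classical
open Pool.Agent.AcyTest

noncomputable section

namespace CSZ_

open Dat

variable (d : Dat)

/-- New layers above the level `t`. -/
def ext (t : ℕ) (c₀ : Fin d.R → Fin (3 * d.T)) (c : Fin (d.R - (t + 1)) → Fin (3 * d.T)) :
    Fin d.R → Fin (3 * d.T) :=
  fun s => if h : s.1 ≤ t then c₀ s else c ⟨s.1 - (t + 1), by omega⟩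

theorem ext_inj (t : ℕ) (c₀ : Fin d.R → Fin (3 * d.T)) : Function.Injective (ext d t c₀) := by
  intro c c' h
  funext i
  have h1 := congrFun h ⟨t + 1 + i.1, by omega⟩
  unfold ext at h1
  rw [dif_neg (by simp; omega), dif_neg (by simp; omega)] at h1
  have h2 : (⟨t + 1 + i.1 - (t + 1), by omega⟩ : Fin (d.R - (t + 1))) = i := by
    ext
    simp
  simp only [h2] at h1
  exact h1

theorem ext_le {t : ℕ} {c₀ : Fin d.R → Fin (3 * d.T)} {c : Fin (d.R - (t + 1)) → Fin (3 * d.T)}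
    {s : Fin d.R} (h : s.1 ≤ t) : ext d t c₀ c s = c₀ s := by
  unfold ext
  rw [dif_pos h]

/-- Addresses which agree up to level `t`. -/
theorem co_eq {t s : ℕ} {x x₀ : d.V} (h : ∀ s : Fin d.R, s.1 ≤ t → x.1 s = x₀.1 s) (hs : s ≤ t) :
    d.co s x = d.co s x₀ := by
  unfold Dat.co
  split
  · rw [h _ hs]
  · rfl

theorem rich_iff {t s : ℕ} {x x₀ : d.V} (h : ∀ s : Fin d.R, s.1 ≤ t → x.1 s = x₀.1 s)
    (hs : s ≤ t) : d.rich s x ↔ d.rich s x₀ := by
  unfold Dat.rich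
  rw [co_eq d h hs]

theorem key_eq {t l : ℕ} {x x₀ : d.V} (h : ∀ s : Fin d.R, s.1 ≤ t → x.1 s = x₀.1 s) :
    d.key t l x = d.key t l x₀ := by
  unfold Dat.key
  funext s
  by_cases hs : s.1 < t
  · rw [if_pos hs, if_pos hs, h s hs.le]
  · rw [if_neg hs, if_neg hs]

theorem th_lt_D {t : ℕ} (ht : t ≤ d.R) : d.th t < d.D := by
  have := d.thm.monotone ht
  unfold Dat.D
  omega

/-- regular classes -/
theorem reg (hNFO : T_NFO) {κ : d.K} {x₀ : d.V} {r₀ : ℕ} (hk : κ.2.2 = false)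
    (hn : d.nfo κ.1 x₀ r₀) (hkey : κ.2.1 = d.key κ.1 (d.co κ.1 x₀) x₀) :
    d.nbf (κ.1 + 1) ≤ Nat.card {a : d.V × Fin d.D // d.ccf true a = some κ} := by
  have ht : (κ.1 : ℕ) < d.R := κ.1.2
  have hr := th_lt_D d ht.le
  have key : ∀ x : d.V, (∀ s : Fin d.R, s.1 ≤ (κ.1 : ℕ) → x.1 s = x₀.1 s) →
      d.ccf true (x, ⟨d.th κ.1, hr⟩) = some κ := by
    intro x hx
    show d.cout x (d.th κ.1) = some κ
    rw [(hNFO d x (d.th κ.1) hr).1 κ]
    left
    refine ⟨hk, ⟨?_, le_rfl, ?_, ?_⟩, ?_⟩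
    · intro s hs
      rw [rich_iff d hx hs.le]
      exact hn.1 s hs
    · rw [co_eq d hx le_rfl]
      exact hn.2.2.1
    · intro _ _
      exact Or.inl (d.thm (Nat.lt_succ_self _))
    · rw [co_eq d hx le_rfl, key_eq d hx]
      exact hkey
  have h1 : Nat.card ((Fin (d.R - (κ.1 + 1)) → Fin (3 * d.T)) × Fin d.M × Fin d.w) ≤
      Nat.card {a : d.V × Fin d.D // d.ccf true a = some κ} := by
    refine Nat.card_le_card_of_injective
      (fun p => ⟨((ext d κ.1 x₀.1 p.1, p.2), ⟨d.th κ.1, hr⟩), key _ ?_⟩) ?_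
    · intro s hs
      exact ext_le d hs
    · intro p p' h
      have h2 := congrArg Subtype.val h
      simp only [Prod.mk.injEq, and_true] at h2
      exact Prod.ext (ext_inj d _ _ h2.1) h2.2
  refine le_trans (le_of_eq ?_) h1
  rw [Nat.card_prod, Nat.card_prod, Nat.card_fun]
  simp [Dat.nbf]

/-- jump classes, not of the last type -/
theorem jump1 (hNFO : T_NFO) {κ : d.K} {x₀ : d.V} {r₀ : ℕ} (hk : κ.2.2 = true)
    (hn : d.jmo κ.1 x₀ r₀) (hkey : κ.2.1 = d.key κ.1 (d.T - 1) x₀) (ht1 : (κ.1 : ℕ) + 1 < d.R) :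
    d.nbf (κ.1 + 1) ≤ Nat.card {a : d.V × Fin d.D // d.ccf true a = some κ} := by
  have hT := d.hT
  have hR : d.th (κ.1 + 1) ≤ d.th d.R := d.thm.monotone ht1.le
  have key : ∀ (x : d.V) (r : Fin d.D), (∀ s : Fin d.R, s.1 ≤ (κ.1 : ℕ) → x.1 s = x₀.1 s) →
      d.th d.R ≤ r.1 → d.co (κ.1 + 1) x ≠ 3 * d.T - 1 → d.ccf true (x, r) = some κ := by
    intro x r hx hr hc
    show d.cout x r = some κ
    rw [(hNFO d x r r.2).1 κ]
    right
    refine ⟨hk, ⟨?_, ?_, ?_, ?_⟩, ?_⟩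
    · intro s hs
      rw [rich_iff d hx hs.le]
      exact hn.1 s hs
    · rw [co_eq d hx le_rfl]
      exact hn.2.1
    · exact hR.trans hr
    · unfold Dat.exit
      rw [if_pos ht1]
      exact hc
    · rw [key_eq d hx]
      exact hkey
  have hi0 : 0 < d.R - (κ.1 + 1) := by omega
  -- the changed layers
  let last : Fin (3 * d.T) := ⟨3 * d.T - 1, by omega⟩
  let z : Fin (3 * d.T) := ⟨0, by omega⟩
  let i0 : Fin (d.R - (κ.1 + 1)) := ⟨0, hi0⟩
  let g : (Fin (d.R - (κ.1 + 1)) → Fin (3 * d.T)) × Fin d.M × Fin d.w → d.V × Fin d.D :=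
    fun p => if p.1 i0 = last then
      ((ext d κ.1 x₀.1 (Function.update p.1 i0 z), p.2), d.rb 1)
      else ((ext d κ.1 x₀.1 p.1, p.2), d.rb 0)
  have hco : ∀ (c : Fin (d.R - (κ.1 + 1)) → Fin (3 * d.T)) (q : Fin d.M × Fin d.w),
      d.co (κ.1 + 1) ((ext d κ.1 x₀.1 c, q) : d.V) = (c i0).1 := by
    intro c q
    unfold Dat.co
    rw [dif_pos ht1]
    simp only [ext]
    rw [dif_neg (by simp)]
    congr 2
    ext
    simp [i0]
  have hg : ∀ p, d.ccf true (g p) = some κ := by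
    intro p
    simp only [g]
    split
    · refine key _ _ (fun s hs => ext_le d hs) ?_ ?_
      · show d.th d.R ≤ d.th d.R + (1 : Fin 2).1
        omega
      · rw [hco, Function.update_self]
        show (0 : ℕ) ≠ _
        omega
    · rename_i h
      refine key _ _ (fun s hs => ext_le d hs) ?_ ?_
      · show d.th d.R ≤ d.th d.R + (0 : Fin 2).1
        omega
      · rw [hco]
        intro h'
        apply h
        exact Fin.ext h'
  have hginj : Function.Injective g := by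
    intro p p' h
    simp only [g] at h
    have hrb : d.rb 1 ≠ d.rb 0 := by
      intro h'
      have := congrArg Fin.val h'
      simp [Dat.rb] at this
    split at h <;> split at h
    · rename_i h1 h2
      rw [Prod.mk.injEq, Prod.mk.injEq] at h
      have h3 := ext_inj d _ _ h.1.1
      refine Prod.ext ?_ h.1.2
      funext i
      by_cases hi : i = i0
      · rw [hi, h1, h2]
      · have h4 := congrFun h3 i
        rwa [Function.update_of_ne hi, Function.update_of_ne hi] at h4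
    · rw [Prod.mk.injEq] at h
      exact absurd h.2 hrb
    · rw [Prod.mk.injEq] at h
      exact absurd h.2.symm hrb
    · rw [Prod.mk.injEq, Prod.mk.injEq] at h
      exact Prod.ext (ext_inj d _ _ h.1.1) h.1.2
  have h1 : Nat.card ((Fin (d.R - (κ.1 + 1)) → Fin (3 * d.T)) × Fin d.M × Fin d.w) ≤
      Nat.card {a : d.V × Fin d.D // d.ccf true a = some κ} := by
    refine Nat.card_le_card_of_injective (fun p => ⟨g p, hg p⟩) ?_
    intro p p' h
    exact hginj (congrArg Subtype.val h)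
  refine le_trans (le_of_eq ?_) h1
  rw [Nat.card_prod, Nat.card_prod, Nat.card_fun]
  simp [Dat.nbf]

theorem bi_rb (i : Fin 2) : d.bi (d.rb i).1 = i := by
  fin_cases i
  · simp [Dat.bi, Dat.rb]
  · simp [Dat.bi, Dat.rb]

/-- jump classes of the last type -/
theorem jump2 (hNFO : T_NFO) {κ : d.K} {x₀ : d.V} {r₀ : ℕ} (hk : κ.2.2 = true)
    (hn : d.jmo κ.1 x₀ r₀) (hkey : κ.2.1 = d.key κ.1 (d.T - 1) x₀) (ht1 : (κ.1 : ℕ) + 1 = d.R) :
    d.nbf (κ.1 + 1) ≤ 400 * Nat.card {a : d.V × Fin d.D // d.ccf true a = some κ} := by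
  have hM := d.hM
  have key : ∀ (j : Fin (d.M - 1)) (y : {y : Fin d.w × Fin 2 // d.G.out y.1 y.2 ≠ none}),
      d.ccf true (((x₀.1, ⟨j.1, by omega⟩, y.1.1) : d.V), d.rb y.1.2) = some κ := by
    intro j y
    have hx : ∀ s : Fin d.R, s.1 ≤ (κ.1 : ℕ) →
        (((x₀.1, ⟨j.1, by omega⟩, y.1.1) : d.V)).1 s = x₀.1 s := fun s _ => rfl
    show d.cout _ _ = some κ
    rw [(hNFO d _ _ (d.rb y.1.2).2).1 κ]
    right
    refine ⟨hk, ⟨?_, ?_, ?_, ?_⟩, ?_⟩
    · intro s hs
      rw [rich_iff d hx hs.le]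
      exact hn.1 s hs
    · rw [co_eq d hx le_rfl]
      exact hn.2.1
    · rw [ht1]
      show d.th d.R ≤ d.th d.R + y.1.2.1
      omega
    · unfold Dat.exit
      rw [if_neg (by omega), bi_rb]
      rintro (h | h)
      · simp only at h
        omega
      · exact y.2 h
    · rw [key_eq d hx]
      exact hkey
  have h1 : Nat.card (Fin (d.M - 1) × {y : Fin d.w × Fin 2 // d.G.out y.1 y.2 ≠ none}) ≤
      Nat.card {a : d.V × Fin d.D // d.ccf true a = some κ} := by
    refine Nat.card_le_card_of_injective (fun p => ⟨_, key p.1 p.2⟩) ?_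
    rintro ⟨j, y⟩ ⟨j', y'⟩ h
    have h2 := congrArg Subtype.val h
    simp only [Prod.mk.injEq, true_and] at h2
    obtain ⟨⟨h3, h4⟩, h5⟩ := h2
    have h6 : j = j' := by
      have := congrArg Fin.val h3
      exact Fin.ext this
    have h7 : y.1.2 = y'.1.2 := by
      have := congrArg d.bi (congrArg Fin.val h5)
      rwa [bi_rb, bi_rb] at this
    rw [h6]
    congr 1
    exact Subtype.ext (Prod.ext h4 h7)
  rw [Nat.card_prod, Nat.card_fin] at h1
  have h2 := d.edg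
  have h3 : d.nbf (κ.1 + 1) = d.M * d.w := by
    unfold Dat.nbf
    rw [ht1, Nat.sub_self, pow_zero, one_mul]
  rw [h3]
  set E := Nat.card {y : Fin d.w × Fin 2 // d.G.out y.1 y.2 ≠ none} with hE
  calc d.M * d.w ≤ (2 * (d.M - 1)) * d.w := Nat.mul_le_mul_right _ (by omega)
    _ ≤ (2 * (d.M - 1)) * (200 * E) := Nat.mul_le_mul_left _ h2
    _ = 400 * ((d.M - 1) * E) := by ring
    _ ≤ _ := Nat.mul_le_mul_left _ h1

end CSZ_

open CSZ_ in
theorem tCSZ (hNFO : T_NFO) (hCARD : T_CARD) : T_CSZ := by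
  intro d κ b y hy
  obtain ⟨x₀, r₀, h0⟩ : ∃ (x₀ : d.V) (r₀ : Fin d.D), d.cout x₀ r₀ = some κ := by
    cases b
    · have h1 := hCARD d κ
      have h2 : 0 < Nat.card {a : d.V × Fin d.D // d.ccf false a = some κ} := by
        have : Nonempty {a : d.V × Fin d.D // d.ccf false a = some κ} := ⟨⟨y, hy⟩⟩
        exact Nat.card_pos
      rw [← h1] at h2
      obtain ⟨⟨a, ha⟩⟩ := (Nat.card_pos_iff.1 h2).1
      exact ⟨a.1, a.2, ha⟩
    · exact ⟨y.1, y.2, hy⟩
  rcases ((hNFO d x₀ r₀ r₀.2).1 κ).1 h0 with ⟨hk, hn, hkey⟩ | ⟨hk, hn, hkey⟩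
  · have := reg d hNFO hk hn hkey
    omega
  · rcases Nat.lt_or_ge ((κ.1 : ℕ) + 1) d.R with h | h
    · have := jump1 d hNFO hk hn hkey h
      omega
    · exact jump2 d hNFO hk hn hkey (by have := κ.1.2; omega)

end

end Pool.Agent.AcyAd
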