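import Pool.Agent.AcyAd.Targets4

/-!
# MP_08c6cd_lc: exit and entry slots of the base graph
-/

namespace Pool.Agent.AcyAd

open scoped Classical
open Pool.Agent.AcyTest

noncomputable section

namespace EXN_

lemma card_le1 {W : Type} [Fintype W] (G : DG W 2) :
    Nat.card {y : W × Fin 2 // G.out y.1 y.2 ≠ none} ≤
      Nat.card {y : W × Fin 2 // G.inn y.1 y.2 ≠ none} := by
  have h : ∀ y : {y : W × Fin 2 // G.out y.1 y.2 ≠ none},
      ∃ z : {z : W × Fin 2 // G.inn z.1 z.2 ≠ none},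
        G.out y.1.1 y.1.2 = some z.1.1 ∧ G.inn z.1.1 z.1.2 = some y.1.1 := by
    rintro ⟨⟨g, i⟩, hy⟩
    obtain ⟨g', hg'⟩ := Option.ne_none_iff_exists'.1 hy
    obtain ⟨j, hj⟩ := (G.compat g g').1 ⟨i, hg'⟩
    exact ⟨⟨(g', j), by simp only [hj]; simp⟩, hg', hj⟩
  choose f hf using h
  apply Nat.card_le_card_of_injective f
  intro y y' hyy
  obtain ⟨h1, h2⟩ := hf y
  obtain ⟨h3, h4⟩ := hf y'
  rw [hyy] at h1 h2
  have h5 : y.1.1 = y'.1.1 := by
    rw [h2] at h4; exact Option.some.inj h4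
  rw [h5] at h1
  have h6 : y.1.2 = y'.1.2 := G.out_inj _ _ _ _ h1 h3
  exact Subtype.ext (Prod.ext h5 h6)

lemma card_le2 {W : Type} [Fintype W] (G : DG W 2) :
    Nat.card {y : W × Fin 2 // G.inn y.1 y.2 ≠ none} ≤
      Nat.card {y : W × Fin 2 // G.out y.1 y.2 ≠ none} := by
  have h : ∀ y : {y : W × Fin 2 // G.inn y.1 y.2 ≠ none},
      ∃ z : {z : W × Fin 2 // G.out z.1 z.2 ≠ none},
        G.inn y.1.1 y.1.2 = some z.1.1 ∧ G.out z.1.1 z.1.2 = some y.1.1 := by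
    rintro ⟨⟨g, i⟩, hy⟩
    obtain ⟨g', hg'⟩ := Option.ne_none_iff_exists'.1 hy
    obtain ⟨j, hj⟩ := (G.compat g' g).2 ⟨i, hg'⟩
    exact ⟨⟨(g', j), by simp only [hj]; simp⟩, hg', hj⟩
  choose f hf using h
  apply Nat.card_le_card_of_injective f
  intro y y' hyy
  obtain ⟨h1, h2⟩ := hf y
  obtain ⟨h3, h4⟩ := hf y'
  rw [hyy] at h1 h2
  have h5 : y.1.1 = y'.1.1 := by
    rw [h2] at h4; exact Option.some.inj h4
  rw [h5] at h1
  have h6 : y.1.2 = y'.1.2 := G.inn_inj _ _ _ _ h1 h3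
  exact Subtype.ext (Prod.ext h5 h6)

end EXN_

open EXN_ in
theorem tEXN : T_EXN := by
  intro d
  have hc : Fintype.card {y : Fin d.w × Fin 2 // d.G.out y.1 y.2 ≠ none} =
      Fintype.card {y : Fin d.w × Fin 2 // d.G.inn y.1 y.2 ≠ none} := by
    have h := le_antisymm (card_le1 d.G) (card_le2 d.G)
    rwa [Nat.card_eq_fintype_card, Nat.card_eq_fintype_card] at h
  set e := Fintype.equivOfCardEq hc with he
  set π : Equiv.Perm (Fin d.w × Fin 2) := e.extendSubtype with hπ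
  have h1 : ∀ y : Fin d.w × Fin 2, d.G.out y.1 y.2 = none ↔
      d.G.inn (π y).1 (π y).2 = none := by
    intro y
    by_cases h : d.G.out y.1 y.2 = none
    · have := e.extendSubtype_not_mem y (fun h' => h' h)
      rw [← hπ] at this
      simp only [ne_eq, not_not] at this
      exact ⟨fun _ => this, fun _ => h⟩
    · have := e.extendSubtype_mem y h
      rw [← hπ] at this
      exact ⟨fun h' => absurd h' h, fun h' => absurd h' this⟩
  refine Nat.card_congr ((Equiv.prodCongr Fin.revPerm π).subtypeEquiv fun y => ?_)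
  show (y.1.1 + 1 = d.M ∨ d.G.out y.2.1 y.2.2 = none) ↔
    ((Fin.rev y.1).1 = 0 ∨ d.G.inn (π y.2).1 (π y.2).2 = none)
  rw [h1 y.2, Fin.val_rev]
  have h2 := y.1.2
  have h3 : y.1.1 + 1 = d.M ↔ d.M - (y.1.1 + 1) = 0 := by omega
  rw [h3]

end

end Pool.Agent.AcyAd
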