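import Pool.Agent.AcyAd.Targets4

/-!
# MP_08c6cd_lc, fully adaptive testers: powers of the two permutations agree at the ends
-/

namespace Pool.Agent.AcyAd

open scoped Classical

noncomputable section

theorem FFB_.rot_val {M : ℕ} (x : Fin M) : ((finRotate M) x).1 = (x.1 + 1) % M := by
  cases M with
  | zero => exact x.elim0
  | succ m =>
    rw [finRotate_succ_apply, Fin.val_add]
    cases m with
    | zero => simp
    | succ m => simp

theorem FFB_.rot_pow {M : ℕ} (x : Fin M) (k : ℕ) : (((finRotate M) ^ k) x).1 = (x.1 + k) % M := by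
  induction k with
  | zero => simp [Nat.mod_eq_of_lt x.2]
  | succ k ih =>
    rw [pow_succ', Equiv.Perm.mul_apply, FFB_.rot_val, ih, Nat.mod_add_mod, add_assoc]

theorem FFB_.f_eq {M a b : ℕ} {f : Equiv.Perm (Fin M)} (hf : Dat.IsFF M a b f) {x : Fin M}
    (hx : x.1 < a ∨ b ≤ x.1) : f x = (finRotate M) x := by
  ext
  rw [hf x, FFB_.rot_val, Dat.ff, if_neg (by omega)]

theorem FFB_.pow_eq {M a b : ℕ} {f : Equiv.Perm (Fin M)} (hf : Dat.IsFF M a b f) (x : Fin M)
    (k : ℕ) (hx : ∀ i < k, (((finRotate M) ^ i) x).1 < a ∨ b ≤ (((finRotate M) ^ i) x).1) :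
    (f ^ k) x = ((finRotate M) ^ k) x := by
  induction k with
  | zero => rfl
  | succ k ih =>
    rw [pow_succ', pow_succ', Equiv.Perm.mul_apply, Equiv.Perm.mul_apply,
      ih fun i hi => hx i (by omega), FFB_.f_eq hf (hx k (by omega))]

/-- The two ends are fixed. -/
theorem FFB_.fixed {M a b B : ℕ} {f : Equiv.Perm (Fin M)} (hf : Dat.IsFF M a b f) (hab : a ≤ b)
    (hbM : b < M) (hB : B ≤ a) (hB2 : b + B < M) (z : Fin M) (hz : z.1 = 0 ∨ z.1 + 1 = M) (n : ℤ)
    (hn : |n| ≤ B) : (f ^ n * (finRotate M) ^ (-n)) z = z := by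
  rw [Equiv.Perm.mul_apply]
  rcases Int.eq_nat_or_neg n with ⟨k, rfl | rfl⟩
  · have hk : k ≤ B := by
      rw [Nat.abs_cast] at hn
      exact_mod_cast hn
    rw [zpow_neg, zpow_natCast, zpow_natCast]
    have h1 : (f ^ k) ((((finRotate M) ^ k)⁻¹) z) =
        ((finRotate M) ^ k) ((((finRotate M) ^ k)⁻¹) z) := by
      refine FFB_.pow_eq hf _ k fun i hi => ?_
      set y := ((finRotate M) ^ i) ((((finRotate M) ^ k)⁻¹) z) with hy
      have h2 : ((finRotate M) ^ (k - i)) y = z := by
        rw [hy, ← Equiv.Perm.mul_apply, ← pow_add, Nat.sub_add_cancel hi.le,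
          ← Equiv.Perm.mul_apply, mul_inv_cancel, Equiv.Perm.one_apply]
      have h3 := FFB_.rot_pow y (k - i)
      rw [h2] at h3
      have hy2 := y.2
      rcases Nat.lt_or_ge (y.1 + (k - i)) M with h4 | h4
      · rw [Nat.mod_eq_of_lt h4] at h3
        omega
      · rw [Nat.mod_eq_sub_mod h4, Nat.mod_eq_of_lt (by omega)] at h3
        omega
    rw [h1, ← Equiv.Perm.mul_apply, mul_inv_cancel, Equiv.Perm.one_apply]
  · have hk : k ≤ B := by
      rw [abs_neg, Nat.abs_cast] at hn
      exact_mod_cast hn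
    rw [neg_neg, zpow_neg, zpow_natCast, zpow_natCast]
    have h1 : (f ^ k) z = ((finRotate M) ^ k) z := by
      refine FFB_.pow_eq hf _ k fun i hi => ?_
      have h3 := FFB_.rot_pow z i
      rcases Nat.lt_or_ge (z.1 + i) M with h4 | h4
      · rw [Nat.mod_eq_of_lt h4] at h3
        omega
      · rw [Nat.mod_eq_sub_mod h4, Nat.mod_eq_of_lt (by omega)] at h3
        omega
    rw [← h1, ← Equiv.Perm.mul_apply, inv_mul_cancel, Equiv.Perm.one_apply]

/-- FFB: powers of the two permutations agree at the ends. -/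
theorem tFFB : T_FFB := by
  intro M a b B f _ _ hab hbM hf hB hB2 n hn j
  have key : ∀ z : Fin M, (z.1 = 0 ∨ z.1 + 1 = M) →
      ((f ^ n * (finRotate M) ^ (-n)) j = z ↔ j = z) := by
    intro z hz
    have h := FFB_.fixed hf hab hbM hB hB2 z hz n hn
    constructor
    · intro h1
      exact (f ^ n * (finRotate M) ^ (-n)).injective (h1.trans h.symm)
    · rintro rfl
      exact h
  constructor
  · have h := key ⟨0, by omega⟩ (Or.inl rfl)
    rw [Fin.ext_iff, Fin.ext_iff] at h
    exact h
  · have h := key ⟨M - 1, by omega⟩ (Or.inr (by simp only; omega))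
    rw [Fin.ext_iff, Fin.ext_iff] at h
    simp only at h
    constructor
    · intro h1
      have := h.1 (by omega)
      omega
    · intro h1
      have := h.2 (by omega)
      omega

end

end Pool.Agent.AcyAd
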