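import Pool.Agent.AcyAd.Targets4

/-!
# FFX: the permutation of the far world
-/

namespace Pool.Agent.AcyAd

namespace FFX_

theorem ff_le {M a b j : ℕ} (hb : b % 2 = 0) (hbM : b < M) (hj : j < M) :
    Dat.ff a b j ≤ M := by
  unfold Dat.ff
  split_ifs with h1 h2
  · omega
  · omega
  · omega

theorem ff_inj {M a b j k : ℕ} (ha : a % 2 = 0) (hb : b % 2 = 0) (hab : a ≤ b) (hbM : b < M)
    (hj : j < M) (hk : k < M) (h : Dat.ff a b j % M = Dat.ff a b k % M) : j = k := by
  have hj1 := ff_le (a := a) hb hbM hj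
  have hk1 := ff_le (a := a) hb hbM hk
  have e : ∀ x, x ≤ M → x % M = if x = M then 0 else x := by
    intro x hx
    split_ifs with h1
    · rw [h1, Nat.mod_self]
    · exact Nat.mod_eq_of_lt (by omega)
  rw [e _ hj1, e _ hk1] at h
  unfold Dat.ff at h hj1 hk1
  split_ifs at h <;> omega

end FFX_

open FFX_

theorem tFFX : T_FFX := by
  intro M a b ha hb hab hbM
  have hM : 0 < M := by omega
  set g : Fin M → Fin M := fun j => ⟨Dat.ff a b j.1 % M, Nat.mod_lt _ hM⟩ with hg
  have hinj : Function.Injective g := by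
    intro j k h
    have h1 : Dat.ff a b j.1 % M = Dat.ff a b k.1 % M := congrArg Fin.val h
    exact Fin.ext (ff_inj ha hb hab hbM j.2 k.2 h1)
  exact ⟨Equiv.ofBijective g (Finite.injective_iff_bijective.1 hinj), fun j => rfl⟩

end Pool.Agent.AcyAd
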