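import Pool.Agent.AcyAd.Targets4

set_option autoImplicit false

/-!
# MP_08c6cd_lc, job ADI-FXE: the fixed pairs exist
-/

namespace Pool.Agent.AcyAd

open scoped Classical
open Pool.Agent.AcyTest

noncomputable section

namespace FXE_

variable (d : Dat)

theorem co_congr (t : ℕ) (x y : d.V) (h : x.1 = y.1) : d.co t x = d.co t y := by
  unfold Dat.co
  rw [h]

theorem isb_congr (t : ℕ) (x y : d.V) (h : x.1 = y.1) (hx : d.isb t x) : d.isb t y := by
  refine ⟨hx.1, fun s hs => ?_⟩
  have := hx.2 s hs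
  unfold Dat.rich at this ⊢
  rw [← co_congr d s x y h]
  exact this

theorem tr_eq (r : ℕ) (h : d.th d.R ≤ r) : d.tr r = d.R := by
  unfold Dat.tr
  refine le_antisymm (Nat.findGreatest_le _) ?_
  exact Nat.le_findGreatest le_rfl h

theorem pl_eq (x : d.V) (h : d.isb d.R x) : d.pl x = d.R := by
  unfold Dat.pl
  refine le_antisymm (Nat.findGreatest_le _) ?_
  exact Nat.le_findGreatest le_rfl h

theorem lv_eq (x : d.V) (r : ℕ) (h : d.isb d.R x) (hr : d.th d.R ≤ r) : d.lv x r = d.R := by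
  unfold Dat.lv
  rw [tr_eq d r hr, pl_eq d x h, min_self]

theorem bi_inj (r s : Fin d.D) (hr : d.th d.R ≤ r) (hs : d.th d.R ≤ s) (h : d.bi r = d.bi s) :
    r = s := by
  have h1 : r.1 < d.th d.R + 2 := r.2
  have h2 : s.1 < d.th d.R + 2 := s.2
  have hr' : d.th d.R ≤ r.1 := hr
  have hs' : d.th d.R ≤ s.1 := hs
  unfold Dat.bi at h
  apply Fin.ext
  by_cases h3 : r.1 = d.th d.R
  · by_cases h4 : s.1 = d.th d.R
    · omega
    · rw [if_pos h3, if_neg h4] at h
      exact absurd h (by decide)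
  · by_cases h4 : s.1 = d.th d.R
    · rw [if_neg h3, if_pos h4] at h
      exact absurd h (by decide)
    · omega

variable {d}

theorem ed_right {f : Equiv.Perm (Fin d.M)} {a b b' : d.V × Fin d.D} (h : d.Ed f a b)
    (h' : d.Ed f a b') : b = b' := by
  obtain ⟨_, _, e3, _, e5, e6, e7, e8⟩ := h
  obtain ⟨_, _, e3', _, e5', e6', e7', e8'⟩ := h'
  have h1 : b.1.2.2 = b'.1.2.2 := by
    rw [e5] at e5'
    exact Option.some.inj e5'
  have h2 : b.1.1 = b'.1.1 := e7.trans e7'.symm
  have h3 : b.1.2.1 = b'.1.2.1 := e8.trans e8'.symm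
  have h4 : d.bi b.2 = d.bi b'.2 := by
    rw [← h1] at e6'
    exact d.G.inn_inj _ _ _ _ e6 e6'
  have h5 : b.2 = b'.2 := bi_inj d _ _ e3 e3' h4
  exact Prod.ext (Prod.ext h2 (Prod.ext h3 h1)) h5

theorem ed_left {f : Equiv.Perm (Fin d.M)} {a a' b : d.V × Fin d.D} (h : d.Ed f a b)
    (h' : d.Ed f a' b) : a = a' := by
  obtain ⟨_, e2, _, _, e5, e6, e7, e8⟩ := h
  obtain ⟨_, e2', _, _, e5', e6', e7', e8'⟩ := h'
  have h1 : a.1.2.2 = a'.1.2.2 := by
    rw [e6] at e6'
    exact Option.some.inj e6'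
  have h2 : a.1.1 = a'.1.1 := e7.symm.trans e7'
  have h3 : a.1.2.1 = a'.1.2.1 := f.injective (e8.symm.trans e8')
  have h4 : d.bi a.2 = d.bi a'.2 := by
    rw [← h1] at e5'
    exact d.G.out_inj _ _ _ _ e5 e5'
  have h5 : a.2 = a'.2 := bi_inj d _ _ e2 e2' h4
  exact Prod.ext (Prod.ext h2 (Prod.ext h3 h1)) h5

theorem cout_none {f : Equiv.Perm (Fin d.M)} {a b : d.V × Fin d.D} (h : d.Ed f a b) :
    d.cout a.1 a.2 = none := by
  obtain ⟨e1, e2, _, e4, e5, _, _, _⟩ := h
  have hl := lv_eq d a.1 a.2 e1 e2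
  have hne : ¬ d.exit d.R a.1 a.2 := by
    unfold Dat.exit
    rw [if_neg (lt_irrefl _)]
    rintro (h | h)
    · exact e4 h
    · rw [e5] at h
      exact absurd h (by simp)
  unfold Dat.cout
  rw [hl, if_neg hne, if_pos rfl]

theorem cin_none {f : Equiv.Perm (Fin d.M)} (hf : ∀ j, (f j).1 = 0 ↔ j.1 + 1 = d.M)
    {a b : d.V × Fin d.D} (h : d.Ed f a b) : d.cin b.1 b.2 = none := by
  obtain ⟨e1, _, e3, e4, _, e6, e7, e8⟩ := h
  have hl := lv_eq d b.1 b.2 (isb_congr d d.R a.1 b.1 e7.symm e1) e3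
  have hne : ¬ d.entry d.R b.1 b.2 := by
    unfold Dat.entry
    rw [if_neg (lt_irrefl _)]
    rintro (h | h)
    · rw [e8] at h
      exact e4 ((hf _).1 h)
    · rw [e6] at h
      exact absurd h (by simp)
  unfold Dat.cin
  rw [hl, if_neg hne, if_pos rfl]

/-- The relation in direction `b`. -/
def rel (f : Equiv.Perm (Fin d.M)) (b : Bool) (y y' : d.V × Fin d.D) : Prop :=
  if b then d.Ed f y y' else d.Ed f y' y

theorem rel_unique {f : Equiv.Perm (Fin d.M)} {b : Bool} {y y' y'' : d.V × Fin d.D}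
    (h : rel f b y y') (h' : rel f b y y'') : y' = y'' := by
  cases b
  · exact ed_left (d := d) (f := f) (by simpa [rel] using h) (by simpa [rel] using h')
  · exact ed_right (d := d) (f := f) (by simpa [rel] using h) (by simpa [rel] using h')

/-- The partner in a fixed pair. -/
def fxf (f : Equiv.Perm (Fin d.M)) (b : Bool) (y : d.V × Fin d.D) : Option (d.V × Fin d.D) :=
  if h : ∃ y', rel f b y y' then some h.choose else none

theorem fxf_iff (f : Equiv.Perm (Fin d.M)) (b : Bool) (y y' : d.V × Fin d.D) :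
    fxf f b y = some y' ↔ rel f b y y' := by
  unfold fxf
  constructor
  · intro h
    by_cases hex : ∃ y', rel f b y y'
    · rw [dif_pos hex, Option.some.injEq] at h
      rw [← h]
      exact hex.choose_spec
    · rw [dif_neg hex] at h
      exact absurd h (by simp)
  · intro h
    have hex : ∃ y', rel f b y y' := ⟨y', h⟩
    rw [dif_pos hex, Option.some.injEq]
    exact rel_unique hex.choose_spec h

end FXE_

open FXE_ in
/-- FXE: the fixed pairs exist. -/
theorem tFXE : T_FXE := by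
  intro d hc f hf
  refine ⟨⟨fun b y => fxf (d := d) f b y, ?_, ?_⟩, ?_⟩
  · intro b y hy
    by_contra hcon
    obtain ⟨y', hy'⟩ := Option.ne_none_iff_exists'.1 hcon
    have h1 := (fxf_iff (d := d) f b y y').1 hy'
    apply hy
    show d.ccf b y = none
    unfold Dat.ccf
    cases b
    · have h2 : d.Ed f y' y := by simpa [rel] using h1
      rw [if_neg (by simp)]
      exact cin_none hf h2
    · have h2 : d.Ed f y y' := by simpa [rel] using h1
      rw [if_pos rfl]
      exact cout_none h2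
  · intro b y y' h
    have h1 := (fxf_iff (d := d) f b y y').1 h
    refine (fxf_iff (d := d) f (!b) y' y).2 ?_
    cases b
    · simpa [rel] using h1
    · simpa [rel] using h1
  · intro a b
    constructor
    · refine (fxf_iff (d := d) f true a b).trans ?_
      simp [rel]
    · refine (fxf_iff (d := d) f false b a).trans ?_
      simp [rel]

end

end Pool.Agent.AcyAd
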