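import Pool.Agent.AcyAd.Targets4

/-!
# MP_08c6cd_lc, fully adaptive testers: job ADI-IACY (the first world is acyclic)
-/

namespace Pool.Agent.AcyAd

open scoped Classical
open Pool.Agent.AcyTest

noncomputable section

namespace IACY_

variable (d : Dat)

/-- The lexicographic order of the layers and the copy. -/
def Ll (x y : d.V) : Prop :=
  (∃ t, (∀ s < t, d.co s x = d.co s y) ∧ d.co t x < d.co t y) ∨
    ((∀ s, d.co s x = d.co s y) ∧ x.2.1.1 < y.2.1.1)

theorem Ll_irrefl (x : d.V) : ¬ Ll d x x := by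
  rintro (⟨t, -, h⟩ | ⟨-, h⟩)
  · exact lt_irrefl _ h
  · exact lt_irrefl _ h

theorem Ll_trans {x y z : d.V} (h1 : Ll d x y) (h2 : Ll d y z) : Ll d x z := by
  rcases h1 with ⟨t, h1, h1'⟩ | ⟨h1, h1'⟩
  · rcases h2 with ⟨t', h2, h2'⟩ | ⟨h2, h2'⟩
    · rcases lt_trichotomy t t' with h | h | h
      · exact Or.inl ⟨t, fun s hs => (h1 s hs).trans (h2 s (hs.trans h)), by rw [← h2 t h]; exact h1'⟩
      · subst h
        exact Or.inl ⟨t, fun s hs => (h1 s hs).trans (h2 s hs), h1'.trans h2'⟩
      · exact Or.inl ⟨t', fun s hs => (h1 s (hs.trans h)).trans (h2 s hs), by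
          rw [h1 t' h]; exact h2'⟩
    · exact Or.inl ⟨t, fun s hs => (h1 s hs).trans (h2 s), by rw [← h2 t]; exact h1'⟩
  · rcases h2 with ⟨t', h2, h2'⟩ | ⟨h2, h2'⟩
    · exact Or.inl ⟨t', fun s hs => (h1 s).trans (h2 s hs), by rw [h1 t']; exact h2'⟩
    · exact Or.inr ⟨fun s => (h1 s).trans (h2 s), h1'.trans h2'⟩

theorem co_of_blkf {t : ℕ} {x y : d.V} (h : d.blkf t x = d.blkf t y) (hn : d.blkf t x ≠ none)
    (s : ℕ) (hs : s < t) : d.co s x = d.co s y := by
  unfold Dat.blkf at h hn
  by_cases h1 : d.isb t x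
  · rw [if_pos h1] at h
    by_cases h2 : d.isb t y
    · rw [if_pos h2] at h
      have h3 := Option.some.inj h
      have h4 := congrArg Prod.snd h3
      unfold Dat.co
      by_cases h5 : s < d.R
      · have h6 := congrFun h4 ⟨s, h5⟩
        simp only [hs, if_true] at h6
        rw [dif_pos h5, dif_pos h5, h6]
      · rw [dif_neg h5, dif_neg h5]
    · rw [if_neg h2] at h
      cases h
  · rw [if_neg h1] at hn
    exact absurd rfl hn

theorem rot {M : ℕ} (j : Fin M) (h : j.1 + 1 ≠ M) : (finRotate M j).1 = j.1 + 1 := by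
  cases M with
  | zero => exact j.elim0
  | succ n =>
    refine coe_finRotate_of_ne_last ?_
    intro h'
    exact h (by rw [h']; rfl)

end IACY_

/-- IACY: the first world is acyclic. -/
theorem tIACY (h : T_IC) : T_IACY := by
  intro d hc F hF w v hv
  have step : ∀ v v' : d.V, (∃ i i', w.ask F true (v, i) = some (v', i')) →
      IACY_.Ll d (w.lam v) (w.lam v') := by
    rintro v v' ⟨i, i', hask⟩
    have hm := (w.ask_eq_some).1 hask
    have hcc := w.mt_cc hm
    rcases hk : (d.sys hc).cc true (w.plc true (v, i)) with _ | κ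
    · rw [w.mt_none hk] at hm
      have hE := ((hF _ _).1).1 hm
      obtain ⟨-, -, -, hj, -, -, hx, hy⟩ := hE
      right
      constructor
      · intro s
        unfold Dat.co
        by_cases hs : s < d.R
        · rw [dif_pos hs, dif_pos hs]
          exact congrArg Fin.val (congrFun hx ⟨s, hs⟩).symm
        · rw [dif_neg hs, dif_neg hs]
      · have h2 : (w.lam v').2.1 = finRotate d.M (w.lam v).2.1 := hy
        have h3 : (w.lam v).2.1.1 + 1 ≠ d.M := hj
        rw [h2, IACY_.rot _ h3]
        exact Nat.lt_succ_self _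
    · rw [hk] at hcc
      have h1 := (h d).1 true false _ _ κ hk hcc
      have h3 := (h d).2.2.1 _ _ κ hk hcc
      left
      refine ⟨κ.1.1, fun s hs => IACY_.co_of_blkf d h1.2 h1.1 s hs, ?_⟩
      have hT := d.hT
      rcases h3 with h3 | ⟨h3, h4⟩
      · exact h3 ▸ Nat.lt_succ_self _
      · have h5 : d.co κ.1.1 (w.lam v) = d.T - 1 := h3
        have h6 : d.co κ.1.1 (w.lam v') = 2 * d.T := h4
        rw [h5, h6]
        omega
  have key : ∀ a b : d.V, Relation.TransGen
      (fun v v' => ∃ i i', w.ask F true (v, i) = some (v', i')) a b →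
      IACY_.Ll d (w.lam a) (w.lam b) := by
    intro a b hab
    induction hab with
    | single h => exact step _ _ h
    | tail _ h2 ih => exact IACY_.Ll_trans d ih (step _ _ h2)
  exact IACY_.Ll_irrefl d _ (key v v hv)

end

end Pool.Agent.AcyAd
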