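import Pool.Agent.AcyAd.Targets4

/-!
# ADI-IB: the blocks
-/

namespace Pool.Agent.AcyAd

open scoped Classical
open Pool.Agent.AcyTest

noncomputable section

namespace IB_

variable (d : Dat)

lemma co_eq {d : Dat} {t : ℕ} (h : t < d.R) (x : d.V) : d.co t x = (x.1 ⟨t, h⟩).1 := by
  unfold Dat.co
  rw [dif_pos h]

lemma co_lt {d : Dat} {t : ℕ} (h : t < d.R) (x : d.V) : d.co t x < 3 * d.T := by
  rw [co_eq h]
  exact (x.1 ⟨t, h⟩).2

lemma co_congr {d : Dat} {x y : d.V} {t s : ℕ} (hs : s < t)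
    (h : ∀ s : Fin d.R, s.1 < t → y.1 s = x.1 s) : d.co s y = d.co s x := by
  unfold Dat.co
  split_ifs with h1
  · rw [h ⟨s, h1⟩ hs]
  · rfl

lemma isb_congr {d : Dat} {x y : d.V} {t : ℕ} (hx : d.isb t x)
    (h : ∀ s : Fin d.R, s.1 < t → y.1 s = x.1 s) : d.isb t y := by
  refine ⟨hx.1, fun s hs => ?_⟩
  have h1 := hx.2 s hs
  unfold Dat.rich at h1 ⊢
  rw [co_congr hs h]
  exact h1

lemma isb_succ {d : Dat} {t : ℕ} (ht : t < d.R) (x : d.V) :
    d.isb (t + 1) x ↔ d.isb t x ∧ d.rich t x := by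
  constructor
  · rintro ⟨_, h2⟩
    exact ⟨⟨ht.le, fun s hs => h2 s (by omega)⟩, h2 t (by omega)⟩
  · rintro ⟨⟨_, h2⟩, h3⟩
    refine ⟨ht, fun s hs => ?_⟩
    rcases Nat.lt_succ_iff_lt_or_eq.1 hs with h | h
    · exact h2 s h
    · rw [h]; exact h3

lemma ne_none {d : Dat} {t : ℕ} {x : d.V} : d.blkf t x ≠ none ↔ d.isb t x := by
  unfold Dat.blkf
  split_ifs with h <;> simp [h]

lemma blk_iff {d : Dat} {t : ℕ} {x : d.V} (hx : d.isb t x) (y : d.V) :
    d.blkf t y = d.blkf t x ↔ ∀ s : Fin d.R, s.1 < t → y.1 s = x.1 s := by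
  constructor
  · intro h s hs
    unfold Dat.blkf at h
    rw [if_pos hx] at h
    split_ifs at h with hy
    have h1 := (Prod.ext_iff.1 (Option.some.inj h)).2
    have h2 := congrFun h1 s
    simp only [hs, if_true] at h2
    exact h2
  · intro h
    unfold Dat.blkf
    rw [if_pos hx, if_pos (isb_congr hx h)]
    congr 2
    funext s
    split_ifs with hs
    · exact h s hs
    · rfl

lemma cnt (d : Dat) {t : ℕ} (ht : t ≤ d.R) (z : Fin d.R → Fin (3 * d.T)) :
    (Finset.univ.filter fun y : d.V => ∀ s : Fin d.R, s.1 < t → y.1 s = z s).card = d.nbf t := by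
  have h1 : (Finset.univ.filter fun y : d.V => ∀ s : Fin d.R, s.1 < t → y.1 s = z s) =
      (Fintype.piFinset fun s : Fin d.R => if s.1 < t then {z s} else Finset.univ) ×ˢ
        (Finset.univ : Finset (Fin d.M × Fin d.w)) := by
    ext y
    simp only [Finset.mem_filter, Finset.mem_univ, true_and, Finset.mem_product,
      Fintype.mem_piFinset, and_true]
    refine forall_congr' fun s => ?_
    split_ifs with hs <;> simp [hs]
  rw [h1, Finset.card_product, Fintype.card_piFinset, Finset.card_univ, Fintype.card_prod,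
    Fintype.card_fin, Fintype.card_fin]
  unfold Dat.nbf
  congr 1
  have h2 : ∀ s : Fin d.R, (if s.1 < t then ({z s} : Finset (Fin (3 * d.T))) else
      Finset.univ).card = if s.1 < t then 1 else 3 * d.T := by
    intro s
    split_ifs <;> simp
  simp only [h2]
  rw [Fin.prod_univ_eq_prod_range (fun s => if s < t then 1 else 3 * d.T) d.R]
  obtain ⟨k, hk⟩ : ∃ k, d.R = t + k := ⟨d.R - t, by omega⟩
  rw [hk, Finset.prod_range_add, Nat.add_sub_cancel_left]
  have h3 : ∏ s ∈ Finset.range t, (if s < t then 1 else 3 * d.T) = 1 :=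
    Finset.prod_eq_one fun s hs => by rw [if_pos (Finset.mem_range.1 hs)]
  have h4 : ∏ s ∈ Finset.range k, (if t + s < t then 1 else 3 * d.T) = (3 * d.T) ^ k := by
    rw [Finset.prod_congr rfl (g := fun _ => 3 * d.T) (fun s _ => by rw [if_neg (by omega)])]
    simp
  rw [h3, h4, one_mul]

end IB_

open IB_ in
theorem tIB : T_IB := by
  intro d
  have hisb0 : ∀ x : d.V, d.isb 0 x := fun x => ⟨Nat.zero_le _, fun s hs => absurd hs (by omega)⟩
  refine ⟨?_, ?_, ?_, ?_, ?_, ?_, ?_, ?_, ?_, ?_⟩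
  · intro x y
    refine ⟨?_, ne_none.2 (hisb0 x)⟩
    rw [blk_iff (hisb0 y)]
    intro s hs
    omega
  · intro t ht x y h1 h2
    have hx := ne_none.1 h2
    have h3 := (blk_iff hx y).1 h1.symm
    have hx' := ((isb_succ ht x).1 hx).1
    refine ⟨((blk_iff hx' y).2 fun s hs => h3 s (by omega)).symm, ?_⟩
    exact (co_congr (Nat.lt_succ_self t) h3).symm
  · intro t ht x
    rw [ne_none, ne_none, isb_succ ht]
    rfl
  · intro t ht x y h1 h2 h3
    have hx := ne_none.1 h1
    have hx' := ((isb_succ ht x).1 hx).1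
    refine ((blk_iff hx y).2 fun s hs => ?_).symm
    rcases Nat.lt_succ_iff_lt_or_eq.1 hs with h | h
    · exact (blk_iff hx' y).1 h2.symm s h
    · rw [co_eq ht, co_eq ht] at h3
      have h4 : s = ⟨t, ht⟩ := Fin.ext h
      rw [h4]
      exact (Fin.ext h3).symm
  · intro t ht x _
    exact co_lt ht x
  · unfold Dat.nbf
    simp [Dat.V]
  · intro t ht
    unfold Dat.nbf
    have h1 : d.R - t = (d.R - (t + 1)) + 1 := by omega
    rw [h1, pow_succ]
    ring
  · unfold Dat.nbf
    have h1 := d.hM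
    have h2 := d.hw
    have h3 : 0 < d.M * d.w := Nat.mul_pos (by omega) (by omega)
    simp only [Nat.sub_self, pow_zero, one_mul]
    exact h3
  · intro t ht x hx
    have hx' := ne_none.1 hx
    rw [← IB_.cnt d ht x.1]
    congr 1
    ext y
    simp only [Finset.mem_filter, Finset.mem_univ, true_and]
    exact blk_iff hx' y
  · intro t ht x hx l hl
    have hx' := ne_none.1 hx
    rw [← IB_.cnt d (Nat.succ_le_of_lt ht) (fun s => if s.1 < t then x.1 s else ⟨l, hl⟩)]
    congr 1
    ext y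
    simp only [Finset.mem_filter, Finset.mem_univ, true_and]
    rw [blk_iff hx' y]
    constructor
    · rintro ⟨h1, h2⟩ s hs
      rcases Nat.lt_succ_iff_lt_or_eq.1 hs with h | h
      · rw [if_pos h]; exact h1 s h
      · rw [if_neg (by omega)]
        rw [co_eq ht] at h2
        have h4 : s = ⟨t, ht⟩ := Fin.ext h
        rw [h4]
        exact Fin.ext h2
    · intro h
      refine ⟨fun s hs => ?_, ?_⟩
      · have := h s (Nat.lt_succ_of_lt hs)
        rwa [if_pos hs] at this
      · have := h ⟨t, ht⟩ (Nat.lt_succ_self t)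
        rw [if_neg (lt_irrefl t)] at this
        rw [co_eq ht, this]

end

end Pool.Agent.AcyAd
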