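import Pool.Agent.AcyAd.Targets4

/-!
# MP_08c6cd_lc, fully adaptive testers: IC, the classes
-/

namespace Pool.Agent.AcyAd

open scoped Classical
open Pool.Agent.AcyTest

noncomputable section

namespace IC_

variable (d : Dat)

/-- The source layer of a class, read off from a slot. -/
def src (b : Bool) (κ : d.K) (x : d.V) : ℕ :=
  if b then d.co κ.1 x else (if κ.2.2 then d.T - 1 else d.co κ.1 x - 1)

theorem co_lt (t : ℕ) (x : d.V) : d.co t x < 3 * d.T := by
  unfold Dat.co
  split_ifs with h
  · exact (x.1 ⟨t, h⟩).2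
  · exact d.T3_pos

theorem src_lt (b : Bool) (κ : d.K) (x : d.V) : src d b κ x < 3 * d.T := by
  have h1 := co_lt d κ.1 x
  have h2 := d.hT
  unfold src
  split_ifs
  · exact h1
  · omega
  · omega

theorem key_inj {t l l' : ℕ} {x x' : d.V} (ht : t < d.R) (hl : l < 3 * d.T) (hl' : l' < 3 * d.T)
    (h : d.key t l x = d.key t l' x') : l = l' ∧ ∀ s : Fin d.R, s.1 < t → x.1 s = x'.1 s := by
  constructor
  · have h1 := congrFun h ⟨t, ht⟩
    simp only [Dat.key, lt_irrefl, if_false, if_true, Fin.mk.injEq] at h1
    rwa [Nat.mod_eq_of_lt hl, Nat.mod_eq_of_lt hl'] at h1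
  · intro s hs
    have h1 := congrFun h s
    simp only [Dat.key, if_pos hs] at h1
    exact h1

/-- What the class of a slot tells. -/
theorem facts (hO : T_NFO) (hI : T_NFI) (b : Bool) (y : d.V × Fin d.D) (κ : d.K)
    (h : d.ccf b y = some κ) :
    (∀ s < κ.1.1, d.rich s y.1) ∧ d.th κ.1 ≤ y.2 ∧ κ.2.1 = d.key κ.1 (src d b κ y.1) y.1 ∧
    (b = false → κ.2.2 = false → d.co κ.1 y.1 ≠ 0) ∧
    (b = false → κ.2.2 = true → d.co κ.1 y.1 = 2 * d.T) ∧
    (b = true → κ.2.2 = true → d.co κ.1 y.1 = d.T - 1) := by
  have hth : d.th κ.1 ≤ d.th (κ.1 + 1) := (d.thm (Nat.lt_succ_self _)).le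
  unfold Dat.ccf at h
  cases b with
  | true =>
    rw [if_pos rfl] at h
    rcases ((hO d y.1 y.2 y.2.2).1 κ).1 h with ⟨h1, h2, h3⟩ | ⟨h1, h2, h3⟩
    · refine ⟨h2.1, h2.2.1, ?_, by simp, by simp, ?_⟩
      · rw [h3]
        rfl
      · intro _ h4
        rw [h1] at h4
        cases h4
    · refine ⟨h2.1, le_trans hth h2.2.2.1, ?_, by simp, by simp, fun _ _ => h2.2.1⟩
      rw [h3]
      unfold src
      rw [if_pos rfl, h2.2.1]
  | false =>
    rw [if_neg (by simp)] at h
    rcases ((hI d y.1 y.2 y.2.2).1 κ).1 h with ⟨h1, h2, h3⟩ | ⟨h1, h2, h3⟩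
    · refine ⟨h2.1, h2.2.1, ?_, fun _ _ => h2.2.2.1, ?_, by simp⟩
      · rw [h3]
        unfold src
        rw [if_neg (by simp), h1, if_neg (by simp)]
      · intro _ h4
        rw [h1] at h4
        cases h4
    · refine ⟨h2.1, le_trans hth h2.2.2.1, ?_, ?_, fun _ _ => h2.2.1, by simp⟩
      · rw [h3]
        unfold src
        rw [if_neg (by simp), h1, if_pos rfl]
      · intro _ h4
        rw [h1] at h4
        cases h4

end IC_

open IC_ in
theorem tIC (hO : T_NFO) (hI : T_NFI) : T_IC := by
  intro d
  have hT := d.hT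
  refine ⟨?_, ?_, ?_, ?_, ?_⟩
  · intro b b' y y' κ h h'
    have f := facts d hO hI b y κ h
    have f' := facts d hO hI b' y' κ h'
    have hk := key_inj d κ.1.2 (src_lt d b κ y.1) (src_lt d b' κ y'.1)
      (f.2.2.1.symm.trans f'.2.2.1)
    have hb : d.isb κ.1 y.1 := ⟨κ.1.2.le, f.1⟩
    have hb' : d.isb κ.1 y'.1 := ⟨κ.1.2.le, f'.1⟩
    unfold Dat.blkf
    rw [if_pos hb, if_pos hb']
    refine ⟨by simp, ?_⟩
    rw [Option.some_inj, Prod.mk.injEq]
    refine ⟨rfl, funext fun s => ?_⟩
    by_cases hs : s.1 < κ.1.1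
    · rw [if_pos hs, if_pos hs]
      exact hk.2 s hs
    · rw [if_neg hs, if_neg hs]
  · intro b y y' κ h h'
    have f := facts d hO hI b y κ h
    have f' := facts d hO hI b y' κ h'
    have hk := (key_inj d κ.1.2 (src_lt d b κ y.1) (src_lt d b κ y'.1)
      (f.2.2.1.symm.trans f'.2.2.1)).1
    cases b with
    | true =>
      simp only [src, if_true] at hk
      exact hk
    | false =>
      rcases hj : κ.2.2 with _ | _
      · simp only [src, hj, if_false, Bool.false_eq_true] at hk
        have h1 := f.2.2.2.1 rfl hj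
        have h2 := f'.2.2.2.1 rfl hj
        omega
      · rw [f.2.2.2.2.1 rfl hj, f'.2.2.2.2.1 rfl hj]
  · intro y y' κ h h'
    have f := facts d hO hI true y κ h
    have f' := facts d hO hI false y' κ h'
    have hk := (key_inj d κ.1.2 (src_lt d true κ y.1) (src_lt d false κ y'.1)
      (f.2.2.1.symm.trans f'.2.2.1)).1
    rcases hj : κ.2.2 with _ | _
    · simp only [src, hj, if_false, if_true, Bool.false_eq_true] at hk
      have h2 := f'.2.2.2.1 rfl hj
      left
      omega
    · right
      exact ⟨f.2.2.2.2.2 rfl hj, f'.2.2.2.2.1 rfl hj⟩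
  · intro b y κ h
    exact (facts d hO hI b y κ h).2.1
  · intro b x
    have hsub : (Finset.univ.filter fun κ : d.K => ∃ r, d.ccf b (x, r) = some κ) ⊆
        (Finset.univ.image fun t : Fin d.R => ((t, d.key t (if b then d.co t x else d.co t x - 1) x,
          false) : d.K)) ∪ (Finset.univ.filter fun κ : d.K => κ.2.2 = true ∧
            ∃ r, d.ccf b (x, r) = some κ) := by
      intro κ hκ
      rw [Finset.mem_filter] at hκ
      rw [Finset.mem_union]
      rcases hj : κ.2.2 with _ | _
      · left
        obtain ⟨-, r, hr⟩ := hκ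
        have f := facts d hO hI b (x, r) κ hr
        rw [Finset.mem_image]
        refine ⟨κ.1, Finset.mem_univ _, ?_⟩
        obtain ⟨t, k, j⟩ := κ
        simp only at hj f
        subst hj
        rw [f.2.2.1]
        rfl
      · right
        rw [Finset.mem_filter]
        exact ⟨Finset.mem_univ _, hj, hκ.2⟩
    have h1 : (Finset.univ.image fun t : Fin d.R =>
        ((t, d.key t (if b then d.co t x else d.co t x - 1) x, false) : d.K)).card ≤ d.R := by
      refine Finset.card_image_le.trans ?_
      rw [Finset.card_univ, Fintype.card_fin]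
    have h2 : (Finset.univ.filter fun κ : d.K => κ.2.2 = true ∧
        ∃ r, d.ccf b (x, r) = some κ).card ≤ 1 := by
      rw [Finset.card_le_one]
      intro κ hκ κ' hκ'
      rw [Finset.mem_filter] at hκ hκ'
      obtain ⟨-, hj, r, hr⟩ := hκ
      obtain ⟨-, hj', r', hr'⟩ := hκ'
      have f := facts d hO hI b (x, r) κ hr
      have f' := facts d hO hI b (x, r') κ' hr'
      -- the layer of a jump class is not rich
      have nr : ¬ d.rich κ.1 x := by
        unfold Dat.rich
        cases b with
        | true =>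
          have := f.2.2.2.2.2 rfl hj
          simp only at this
          omega
        | false =>
          have := f.2.2.2.2.1 rfl hj
          simp only at this
          omega
      have nr' : ¬ d.rich κ'.1 x := by
        unfold Dat.rich
        cases b with
        | true =>
          have := f'.2.2.2.2.2 rfl hj'
          simp only at this
          omega
        | false =>
          have := f'.2.2.2.2.1 rfl hj'
          simp only at this
          omega
      have ht : κ.1 = κ'.1 := by
        rcases lt_trichotomy κ.1.1 κ'.1.1 with h | h | h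
        · exact absurd (f'.1 _ h) nr
        · exact Fin.ext h
        · exact absurd (f.1 _ h) nr'
      have hs : src d b κ x = src d b κ' x := by
        unfold src
        rw [ht, hj, hj']
      have hk : κ.2.1 = κ'.2.1 := by
        rw [f.2.2.1, f'.2.2.1, hs, ht]
      exact Prod.ext ht (Prod.ext hk (hj.trans hj'.symm))
    calc (Finset.univ.filter fun κ : d.K => ∃ r, d.ccf b (x, r) = some κ).card
        ≤ _ := Finset.card_le_card hsub
      _ ≤ _ := Finset.card_union_le _ _
      _ ≤ d.R + 1 := add_le_add h1 h2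
      _ ≤ d.R + 2 := by omega

end

end Pool.Agent.AcyAd
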