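import Pool.Agent.AcyAd.Targets4

/-!
# MP_08c6cd_lc, fully adaptive testers: the fixed pairs
-/

namespace Pool.Agent.AcyAd

open scoped Classical
open Pool.Agent.AcyTest

noncomputable section

namespace IF_

variable {d : Dat}

theorem co_congr {x y : d.V} (h : x.1 = y.1) (t : ℕ) : d.co t x = d.co t y := by
  unfold Dat.co
  rw [h]

theorem isb_congr {x y : d.V} (h : x.1 = y.1) {t : ℕ} (hx : d.isb t x) : d.isb t y := by
  refine ⟨hx.1, fun s hs => ?_⟩
  have := hx.2 s hs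
  unfold Dat.rich at this ⊢
  rwa [← co_congr h]

theorem prj_of {x : d.V} (h : d.isb d.R x) : d.prjf x = some (x.1, x.2.2) := if_pos h

theorem ed_isb {f : Equiv.Perm (Fin d.M)} {a b : d.V × Fin d.D} (h : d.Ed f a b) :
    d.isb d.R b.1 := isb_congr h.2.2.2.2.2.2.1.symm h.1

theorem ed_adj {f : Equiv.Perm (Fin d.M)} {a b : d.V × Fin d.D} (h : d.Ed f a b) :
    d.GQf.Adj (a.1.1, a.1.2.2) (b.1.1, b.1.2.2) := by
  obtain ⟨-, -, -, -, h1, -, h3, -⟩ := h
  refine ⟨h3.symm, ?_, Or.inl ⟨_, h1⟩⟩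
  intro e
  simp only at e
  rw [← e] at h1
  exact d.G.loopless _ _ h1

theorem bi_inj {r r' : Fin d.D} (h : d.th d.R ≤ r) (h' : d.th d.R ≤ r') (e : d.bi r = d.bi r') :
    r = r' := by
  have h1 := r.2
  have h2 := r'.2
  unfold Dat.D at h1 h2
  apply Fin.ext
  unfold Dat.bi at e
  split_ifs at e with e1 e2 e2
  · omega
  · exact absurd e (by decide)
  · exact absurd e (by decide)
  · omega

theorem prj_eq {x y : d.V} (hx : d.isb d.R x) (hy : d.isb d.R y)
    (h : d.prjf x = d.prjf y) : x.2.2 = y.2.2 := by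
  rw [prj_of hx, prj_of hy] at h
  have h' : (x.1, x.2.2) = (y.1, y.2.2) := Option.some.inj h
  exact (Prod.mk.inj h').2

end IF_

open IF_ in
theorem tIF : T_IF := by
  intro d hc F f hF
  refine ⟨?_, ?_, ?_⟩
  · intro b y y' h
    cases b
    · have e := ((hF y' y).2).1 h
      exact ⟨_, _, prj_of (ed_isb e), prj_of e.1, (ed_adj e).symm⟩
    · have e := ((hF y y').1).1 h
      exact ⟨_, _, prj_of e.1, prj_of (ed_isb e), ed_adj e⟩
  · intro b y h
    obtain ⟨y', hy'⟩ := Option.ne_none_iff_exists'.1 h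
    cases b
    · have e := ((hF y' y).2).1 hy'
      exact e.2.2.1
    · have e := ((hF y y').1).1 hy'
      exact e.2.1
  · intro b b' x r r' y y' h h' hp
    cases b <;> cases b'
    · have e := ((hF y (x, r)).2).1 h
      have e' := ((hF y' (x, r')).2).1 h'
      have hp' := prj_eq e.1 e'.1 hp
      have h1 := e.2.2.2.2.2.1
      have h2 := e'.2.2.2.2.2.1
      rw [← hp'] at h2
      exact ⟨rfl, bi_inj e.2.2.1 e'.2.2.1 (d.G.inn_inj _ _ _ _ h1 h2)⟩
    · exfalso
      have e := ((hF y (x, r)).2).1 h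
      have e' := ((hF (x, r') y').1).1 h'
      have hp' := prj_eq e.1 (ed_isb e') hp
      have h1 := e.2.2.2.2.1
      have h2 := e'.2.2.2.2.1
      rw [← hp'] at h2
      exact d.two _ _ ⟨_, h1⟩ ⟨_, h2⟩
    · exfalso
      have e := ((hF (x, r) y).1).1 h
      have e' := ((hF y' (x, r')).2).1 h'
      have hp' := prj_eq (ed_isb e) e'.1 hp
      have h1 := e.2.2.2.2.1
      have h2 := e'.2.2.2.2.1
      rw [← hp'] at h2
      exact d.two _ _ ⟨_, h1⟩ ⟨_, h2⟩
    · have e := ((hF (x, r) y).1).1 h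
      have e' := ((hF (x, r') y').1).1 h'
      have hp' := prj_eq (ed_isb e) (ed_isb e') hp
      have h1 := e.2.2.2.2.1
      have h2 := e'.2.2.2.2.1
      rw [← hp'] at h2
      exact ⟨rfl, bi_inj e.2.1 e'.2.1 (d.G.out_inj _ _ _ _ h1 h2)⟩

end

end Pool.Agent.AcyAd
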