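import Pool.Agent.AcyAd.Targets4
import Pool.Agent.AcyTest.REL

/-!
# MP_08c6cd_lc, fully adaptive testers: the digraph of the second world is far from acyclic
-/

set_option autoImplicit false

namespace Pool.Agent.AcyAd

open scoped Classical
open Pool.Agent.AcyTest

noncomputable section

namespace IFD_

/-- At most two elements of `Fin D` are sent by a permutation to the last two ranks. -/
theorem card_two {D t : ℕ} (hD : D ≤ t + 2) (g : Equiv.Perm (Fin D)) (P : Fin D → Prop)
    [DecidablePred P] (hP : ∀ i, P i → t ≤ (g i).1) : (Finset.univ.filter P).card ≤ 2 := by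
  have h : (Finset.univ.filter P).card ≤ (Finset.Ico t (t + 2)).card := by
    refine Finset.card_le_card_of_injOn (fun i => (g i).1) ?_ ?_
    · intro i hi
      simp only [Finset.coe_filter, Finset.mem_univ, true_and, Set.mem_ofPred_eq] at hi
      simp only [Finset.coe_Ico, Set.mem_Ico]
      have := (g i).2
      exact ⟨hP i hi, by omega⟩
    · intro i _ j _ hij
      exact g.injective (Fin.ext hij)
  rwa [Nat.card_Ico, Nat.add_sub_cancel_left] at h

end IFD_

open IFD_

theorem tIFD (hI : T_IFAR) (hG : T_GFAS) : T_IFD := by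
  intro d hc F a b f x ε n s D' π ha hb hab hbM hff hfx hG0 hD' hε w L hL
  have h1 := hI d hc F a b f x ha hb hab hbM hff hfx hG0 w
  obtain ⟨E₀, hE₀⟩ : ∃ E₀ : (d.sys hc).Sl → Prop, E₀ = fun y => F.fx true (w.plc true y) ≠ none :=
    ⟨_, rfl⟩
  have hD : (d.sys hc).D ≤ d.th d.R + 2 := le_rfl
  have h2 := hG (d.sys hc) F w s D' L (((d.T ^ d.R * ((b - a) / 2) : ℕ) : ℝ) * x) E₀ hD' hL
    (by
      intro v
      refine card_two hD (w.rk true v) _ ?_
      intro i hi
      rw [hE₀] at hi
      obtain ⟨y, hy⟩ := Option.ne_none_iff_exists'.1 hi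
      exact ((hfx _ _).1.1 hy).2.1)
    (by
      intro v'
      refine card_two hD (w.rk false v') _ ?_
      intro i' hi'
      obtain ⟨a', ha', hask⟩ := hi'
      rw [hE₀] at ha'
      rw [w.ask_eq_some, w.mt_none (F.cc_none ha')] at hask
      exact ((hfx _ _).1.1 hask).2.2.1)
    (by
      rw [hE₀]
      exact h1)
  exact tFAR n D' _ L π _ ε h2 hε

end

end Pool.Agent.AcyAd
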