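import Pool.Agent.AcyAd.Targets4

set_option autoImplicit false

/-!
# IM: the slots in the middle of a block
-/

namespace Pool.Agent.AcyAd

open scoped Classical
open Pool.Agent.AcyTest

noncomputable section

namespace IM_

variable {d : Dat}

theorem isb_of_blk {t : ℕ} {x : d.V} (h : d.blkf t x ≠ none) : d.isb t x := by
  by_contra hn
  exact h (by unfold Dat.blkf; rw [if_neg hn])

theorem eq_of_blk {t : ℕ} {x x' : d.V} (h : d.blkf t x ≠ none) (h' : d.blkf t x' = d.blkf t x) :
    d.isb t x' ∧ ∀ s : Fin d.R, s.1 < t → x'.1 s = x.1 s := by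
  have h1 := isb_of_blk h
  have h2 : d.isb t x' := isb_of_blk (by rw [h']; exact h)
  refine ⟨h2, fun s hs => ?_⟩
  unfold Dat.blkf at h'
  rw [if_pos h1, if_pos h2] at h'
  have h3 := congrFun (Prod.ext_iff.1 (Option.some.inj h')).2 s
  simp only [hs, if_true] at h3
  exact h3

theorem co_eq {t s : ℕ} {x x' : d.V} (hst : s < t) (ht : t ≤ d.R)
    (h : ∀ s : Fin d.R, s.1 < t → x'.1 s = x.1 s) : d.co s x' = d.co s x := by
  unfold Dat.co
  have hs : s < d.R := by omega
  rw [dif_pos hs, dif_pos hs, h ⟨s, hs⟩ hst]

theorem key_eq {t s l : ℕ} {x x' : d.V} (hst : s < t)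
    (h : ∀ s : Fin d.R, s.1 < t → x'.1 s = x.1 s) : d.key s l x' = d.key s l x := by
  funext u
  unfold Dat.key
  by_cases hu : u.1 < s
  · rw [if_pos hu, if_pos hu]; exact h u (hu.trans hst)
  · rw [if_neg hu, if_neg hu]

theorem exists_level {t r : ℕ} (h : r < d.th t) : ∃ s < t, d.th s ≤ r ∧ r < d.th (s + 1) := by
  induction t with
  | zero => rw [d.th0] at h; omega
  | succ t ih =>
    by_cases h1 : r < d.th t
    · obtain ⟨s, hs, h2⟩ := ih h1
      exact ⟨s, by omega, h2⟩
    · exact ⟨t, by omega, by omega, h⟩

theorem bi_rb (i : Fin 2) : d.bi (d.rb i) = i := by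
  unfold Dat.bi Dat.rb
  fin_cases i
  · simp
  · simp

theorem rot_last : ∀ (M : ℕ) (j : Fin M), j.1 + 1 = M → ((finRotate M) j).1 = 0 := by
  intro M j hj
  cases M with
  | zero => exact j.elim0
  | succ n =>
    have : j = Fin.last n := Fin.ext (by rw [Fin.val_last]; omega)
    rw [this, finRotate_last]
    rfl

theorem th_le {s t r : ℕ} (h : s < t) (h1 : d.th t ≤ r) : d.th (s + 1) ≤ r :=
  (d.thm.monotone (show s + 1 ≤ t by omega)).trans h1

end IM_

open IM_ in
theorem tIM (nfo : T_NFO) (nfi : T_NFI) : T_IM := by
  intro d hc F hF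
  have hT := d.hT
  constructor
  · intro t ht b x r hb _ _ hr
    obtain ⟨s, hst, hs1, hs2⟩ := exists_level hr
    have hisb := isb_of_blk hb
    have hsR : s < d.R := by omega
    cases b with
    | true =>
      refine ⟨(⟨s, hsR⟩, d.key s (d.co s x) x, false), hst, fun x' hx' _ _ => ?_⟩
      obtain ⟨h1, h2⟩ := eq_of_blk hb hx'
      have hrich : d.rich s x' := h1.2 s hst
      have hco := co_eq hst ht.le h2
      show d.cout x' r = _
      refine (((nfo d x' r r.2).1 _).2 (Or.inl ⟨rfl, ⟨?_, hs1, ?_, ?_⟩, ?_⟩))
      · intro u hu
        exact h1.2 u (lt_trans hu hst)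
      · have := hrich.2
        show d.co s x' ≠ _
        omega
      · intro _ _
        exact Or.inl hs2
      · show d.key s (d.co s x) x = d.key s (d.co s x') x'
        rw [hco, key_eq hst h2]
    | false =>
      refine ⟨(⟨s, hsR⟩, d.key s (d.co s x - 1) x, false), hst, fun x' hx' _ _ => ?_⟩
      obtain ⟨h1, h2⟩ := eq_of_blk hb hx'
      have hrich : d.rich s x' := h1.2 s hst
      have hco := co_eq hst ht.le h2
      show d.cin x' r = _
      refine (((nfi d x' r r.2).1 _).2 (Or.inl ⟨rfl, ⟨?_, hs1, ?_, ?_⟩, ?_⟩))
      · intro u hu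
        exact h1.2 u (lt_trans hu hst)
      · have := hrich.1
        show d.co s x' ≠ _
        omega
      · intro _ _
        exact Or.inl hs2
      · show d.key s (d.co s x - 1) x = d.key s (d.co s x' - 1) x'
        rw [hco, key_eq hst h2]
  · intro t ht b x r hb hc1 hc2 hr
    have hisb := isb_of_blk hb
    cases b with
    | true =>
      show (∃ κ : d.K, d.cout x r = some κ ∧ t ≤ κ.1) ∨ _
      cases hco : d.cout x r with
      | some κ =>
        left
        refine ⟨κ, rfl, ?_⟩
        by_contra hlt
        rw [not_le] at hlt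
        have hlt' : κ.1.1 < t := hlt
        have hrich : d.rich κ.1.1 x := hisb.2 _ hlt'
        have hle := th_le hlt' hr
        rcases ((nfo d x r r.2).1 κ).1 hco with ⟨_, h1, _⟩ | ⟨_, h1, _⟩
        · have h2 := h1.2.2.2 (by have := hrich.1; omega) hrich.2
          rcases h2 with h2 | h2
          · omega
          · unfold Dat.exit at h2
            rw [if_pos (by omega)] at h2
            rcases Nat.lt_or_ge (κ.1.1 + 1) t with h3 | h3
            · have h4 := (hisb.2 _ h3).2
              omega
            · have h4 : κ.1.1 + 1 = t := by omega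
              rw [h4] at h2
              omega
        · have h2 := h1.2.1
          have h3 := hrich.1
          omega
      | none =>
        right
        have hco0 : d.co 0 x ≠ 3 * d.T - 1 := by
          rcases Nat.eq_zero_or_pos t with h0 | h0
          · rw [h0] at hc2
            omega
          · have h4 := (hisb.2 0 h0).2
            omega
        rcases ((nfo d x r r.2).2).1 hco with hb' | hb'
        · obtain ⟨g1, g2, g3⟩ := hb'
          unfold Dat.exit at g3
          rw [if_neg (lt_irrefl _), not_or] at g3
          obtain ⟨g', hg'⟩ := Option.ne_none_iff_exists'.1 g3.2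
          obtain ⟨i', hi'⟩ := (d.G.compat x.2.2 g').1 ⟨_, hg'⟩
          have hE : d.Ed (finRotate d.M) (x, r)
              ((x.1, (finRotate d.M) x.2.1, g'), d.rb i') := by
            refine ⟨g1, g2, ?_, g3.1, hg', ?_, rfl, rfl⟩
            · show d.th d.R ≤ d.th d.R + i'.1
              omega
            · show d.G.inn g' (d.bi (d.rb i')) = some x.2.2
              rw [bi_rb]
              exact hi'
          have h5 := ((hF (x, r) ((x.1, (finRotate d.M) x.2.1, g'), d.rb i')).1).2 hE
          intro h6
          have h7 := h6.symm.trans h5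
          exact absurd h7 (by simp)
        · exact absurd hb' hco0
    | false =>
      show (∃ κ : d.K, d.cin x r = some κ ∧ t ≤ κ.1) ∨ _
      cases hco : d.cin x r with
      | some κ =>
        left
        refine ⟨κ, rfl, ?_⟩
        by_contra hlt
        rw [not_le] at hlt
        have hlt' : κ.1.1 < t := hlt
        have hrich : d.rich κ.1.1 x := hisb.2 _ hlt'
        have hle := th_le hlt' hr
        rcases ((nfi d x r r.2).1 κ).1 hco with ⟨_, h1, _⟩ | ⟨_, h1, _⟩
        · have h2 := h1.2.2.2 hrich.1 hrich.2.le
          rcases h2 with h2 | h2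
          · omega
          · unfold Dat.entry at h2
            rw [if_pos (by omega)] at h2
            rcases Nat.lt_or_ge (κ.1.1 + 1) t with h3 | h3
            · have h4 := (hisb.2 _ h3).1
              omega
            · have h4 : κ.1.1 + 1 = t := by omega
              rw [h4] at h2
              omega
        · have h2 := h1.2.1
          have h3 := hrich.2
          omega
      | none =>
        right
        have hco0 : d.co 0 x ≠ 0 := by
          rcases Nat.eq_zero_or_pos t with h0 | h0
          · rw [h0] at hc1
            omega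
          · have h4 := (hisb.2 0 h0).1
            omega
        rcases ((nfi d x r r.2).2).1 hco with hb' | hb'
        · obtain ⟨g1, g2, g3⟩ := hb'
          unfold Dat.entry at g3
          rw [if_neg (lt_irrefl _), not_or] at g3
          obtain ⟨g', hg'⟩ := Option.ne_none_iff_exists'.1 g3.2
          obtain ⟨i', hi'⟩ := (d.G.compat g' x.2.2).2 ⟨_, hg'⟩
          have hE : d.Ed (finRotate d.M)
              ((x.1, (finRotate d.M).symm x.2.1, g'), d.rb i') (x, r) := by
            refine ⟨g1, ?_, g2, ?_, ?_, hg', rfl, ?_⟩
            · show d.th d.R ≤ d.th d.R + i'.1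
              omega
            · intro h8
              apply g3.1
              have h9 := rot_last _ _ h8
              have h10 : (finRotate d.M) ((finRotate d.M).symm x.2.1) = x.2.1 :=
                Equiv.apply_symm_apply _ _
              exact (congrArg Fin.val h10).symm.trans h9
            · show d.G.out g' (d.bi (d.rb i')) = some x.2.2
              rw [bi_rb]
              exact hi'
            · exact (Equiv.apply_symm_apply (finRotate d.M) x.2.1).symm
          have h5 := ((hF ((x.1, (finRotate d.M).symm x.2.1, g'), d.rb i') (x, r)).2).2 hE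
          intro h6
          have h7 := h6.symm.trans h5
          exact absurd h7 (by simp)
        · exact absurd hb' hco0

end

end Pool.Agent.AcyAd
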