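import Pool.Agent.AcyAd.Targets4

/-!
# MP_08c6cd_lc, fully adaptive testers: the projection
-/

namespace Pool.Agent.AcyAd

open scoped Classical
open Pool.Agent.AcyTest

noncomputable section

namespace IP_

variable (d : Dat)

theorem prjf_eq_some {x : d.V} {q : d.Q} : d.prjf x = some q ↔ d.isb d.R x ∧ q = (x.1, x.2.2) := by
  unfold Dat.prjf
  split_ifs with h
  · constructor
    · intro h'
      exact ⟨h, (Option.some.inj h').symm⟩
    · rintro ⟨-, rfl⟩
      rfl
  · constructor
    · intro h'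
      exact absurd h' (by simp)
    · rintro ⟨h', -⟩
      exact absurd h' h

theorem blkf_ne {t : ℕ} {x : d.V} : d.blkf t x ≠ none ↔ d.isb t x := by
  unfold Dat.blkf
  split_ifs with h
  · simp [h]
  · simp [h]

theorem prjf_ne {x : d.V} : d.prjf x ≠ none ↔ d.isb d.R x := by
  unfold Dat.prjf
  split_ifs with h
  · simp [h]
  · simp [h]

theorem isb_congr {t : ℕ} {x y : d.V} (h : x.1 = y.1) : d.isb t x ↔ d.isb t y := by
  unfold Dat.isb Dat.rich Dat.co
  rw [h]

theorem blkf_congr {t : ℕ} {x y : d.V} (h : x.1 = y.1) : d.blkf t x = d.blkf t y := by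
  unfold Dat.blkf
  by_cases h1 : d.isb t x
  · rw [if_pos h1, if_pos ((isb_congr d h).1 h1), h]
  · rw [if_neg h1, if_neg (fun h2 => h1 ((isb_congr d h).2 h2))]

theorem blkf_R {x y : d.V} (h : d.blkf d.R x ≠ none) (h' : d.blkf d.R x = d.blkf d.R y) :
    x.1 = y.1 ∧ d.isb d.R x ∧ d.isb d.R y := by
  have h1 : d.isb d.R x := (blkf_ne d).1 h
  have h2 : d.isb d.R y := (blkf_ne d).1 (by rw [← h']; exact h)
  refine ⟨?_, h1, h2⟩
  unfold Dat.blkf at h'
  rw [if_pos h1, if_pos h2] at h'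
  have h3 := congrArg Prod.snd (Option.some.inj h')
  funext s
  have h4 := congrFun h3 s
  simpa [s.2] using h4

theorem walk_fst {q q' : d.Q} (p : d.GQf.Walk q q') : ∀ a ∈ p.support, a.1 = q.1 := by
  induction p with
  | nil => intro a ha; simp at ha; rw [ha]
  | cons h p ih =>
    intro a ha
    rw [SimpleGraph.Walk.support_cons, List.mem_cons] at ha
    rcases ha with rfl | ha
    · rfl
    · rw [ih a ha]
      exact h.1.symm

theorem walk_end {q q' : d.Q} (p : d.GQf.Walk q q') : q'.1 = q.1 :=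
  walk_fst d p q' p.end_mem_support

/-- The projection to the base graph. -/
def hom : d.GQf →g d.G.und where
  toFun p := p.2
  map_rel' := fun h => h.2

theorem long : LongCyc d.GQf d.g0 := by
  intro v p hp
  have hlen : (p.map (hom d)).length = p.length := SimpleGraph.Walk.length_map _ _
  rw [← hlen]
  refine d.cyc _ (p.map (hom d)) ?_
  have hfst := walk_fst d p
  rw [SimpleGraph.Walk.isCycle_def] at hp ⊢
  obtain ⟨h1, h2, h3⟩ := hp
  have hmemE : ∀ e ∈ p.edges, ∀ a ∈ e, a ∈ p.support := by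
    intro e he a ha
    exact SimpleGraph.Walk.mem_support_of_mem_edges he ha
  refine ⟨?_, ?_, ?_⟩
  · rw [SimpleGraph.Walk.isTrail_def, SimpleGraph.Walk.edges_map]
    refine List.Nodup.map_on ?_ ((SimpleGraph.Walk.isTrail_def _).1 h1)
    intro e he e' he' hee
    induction e with
    | _ a b =>
      induction e' with
      | _ a' b' =>
        have ha := hfst a (hmemE _ he a (by simp))
        have hb := hfst b (hmemE _ he b (by simp))
        have ha' := hfst a' (hmemE _ he' a' (by simp))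
        have hb' := hfst b' (hmemE _ he' b' (by simp))
        rw [Sym2.map_mk, Sym2.map_mk, Sym2.eq_iff] at hee
        rw [Sym2.eq_iff]
        rcases hee with ⟨e1, e2⟩ | ⟨e1, e2⟩
        · left
          exact ⟨Prod.ext (ha.trans ha'.symm) e1, Prod.ext (hb.trans hb'.symm) e2⟩
        · right
          exact ⟨Prod.ext (ha.trans hb'.symm) e1, Prod.ext (hb.trans ha'.symm) e2⟩
  · intro h
    have h4 := congrArg SimpleGraph.Walk.length h
    rw [hlen, SimpleGraph.Walk.length_nil] at h4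
    exact h2 (SimpleGraph.Walk.eq_nil_iff_nil.2 (SimpleGraph.Walk.length_eq_zero_iff.1 h4))
  · rw [SimpleGraph.Walk.support_map, ← List.map_tail]
    refine List.Nodup.map_on ?_ h3
    intro a ha b hb hab
    have ha' := hfst a (List.mem_of_mem_tail ha)
    have hb' := hfst b (List.mem_of_mem_tail hb)
    exact Prod.ext (ha'.trans hb'.symm) hab

/-- The members of the closed neighbourhood. -/
def nb5 (u : Fin d.w) (i : Fin 5) : Fin d.w :=
  ![u, (d.G.out u 0).getD u, (d.G.out u 1).getD u, (d.G.inn u 0).getD u, (d.G.inn u 1).getD u] i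

theorem mem_nb5 {u v : Fin d.w} (h : d.G.und.Adj u v) : ∃ i, nb5 d u i = v := by
  rcases h.2 with ⟨i, hi⟩ | h'
  · fin_cases i
    · exact ⟨1, by simp only [nb5]; simpa using congrArg (fun o => Option.getD o u) hi⟩
    · exact ⟨2, by simp only [nb5]; simpa using congrArg (fun o => Option.getD o u) hi⟩
  · obtain ⟨i, hi⟩ := (d.G.compat v u).1 h'
    fin_cases i
    · exact ⟨3, by simp only [nb5]; simpa using congrArg (fun o => Option.getD o u) hi⟩
    · exact ⟨4, by simp only [nb5]; simpa using congrArg (fun o => Option.getD o u) hi⟩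

/-- The ball. -/
def ball (u : Fin d.w) : ℕ → Finset (Fin d.w)
  | 0 => {u}
  | n + 1 => (ball u n).biUnion fun v => Finset.univ.image (nb5 d v)

theorem ball_card (u : Fin d.w) (n : ℕ) : (ball d u n).card ≤ 5 ^ n := by
  induction n with
  | zero => simp [ball]
  | succ n ih =>
    calc (ball d u (n + 1)).card ≤ (ball d u n).card * 5 :=
          Finset.card_biUnion_le_card_mul _ _ _ fun v _ => by
            refine Finset.card_image_le.trans ?_
            simp
      _ ≤ 5 ^ n * 5 := Nat.mul_le_mul_right _ ih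
      _ = 5 ^ (n + 1) := by ring

theorem ball_sub (u : Fin d.w) (n : ℕ) : ball d u n ⊆ ball d u (n + 1) := by
  intro v hv
  rw [ball, Finset.mem_biUnion]
  exact ⟨v, hv, Finset.mem_image.2 ⟨0, Finset.mem_univ _, rfl⟩⟩

theorem ball_mono (u : Fin d.w) {m n : ℕ} (h : m ≤ n) : ball d u m ⊆ ball d u n := by
  induction n, h using Nat.le_induction with
  | base => exact Finset.Subset.refl _
  | succ n _ ih => exact ih.trans (ball_sub d u n)

theorem ball_walk {u v : Fin d.w} (p : d.G.und.Walk u v) : ∀ (u₀ : Fin d.w) (n : ℕ),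
    u ∈ ball d u₀ n → v ∈ ball d u₀ (n + p.length) := by
  induction p with
  | nil => intro u₀ n h; simpa using h
  | @cons a b c h p ih =>
    intro u₀ n hu
    have h1 : b ∈ ball d u₀ (n + 1) := by
      rw [ball, Finset.mem_biUnion]
      obtain ⟨i, hi⟩ := mem_nb5 d h
      exact ⟨a, hu, Finset.mem_image.2 ⟨i, Finset.mem_univ _, hi⟩⟩
    have h2 := ih u₀ (n + 1) h1
    rw [SimpleGraph.Walk.length_cons]
    have e : n + (p.length + 1) = n + 1 + p.length := by ring
    rw [e]
    exact h2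

theorem near_card (n : ℕ) (x : d.V) : (Finset.univ.filter fun y : d.V => ∃ q q',
    d.prjf x = some q ∧ d.prjf y = some q' ∧ ∃ p : d.GQf.Walk q q', p.length ≤ n).card ≤
      d.nuf n := by
  have hsub : (Finset.univ.filter fun y : d.V => ∃ q q', d.prjf x = some q ∧
      d.prjf y = some q' ∧ ∃ p : d.GQf.Walk q q', p.length ≤ n) ⊆
      ((Finset.univ : Finset (Fin d.M)) ×ˢ ball d x.2.2 n).image fun z => (x.1, z.1, z.2) := by
    intro y hy
    obtain ⟨q, q', h1, h2, p, hp⟩ := (Finset.mem_filter.1 hy).2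
    obtain ⟨-, rfl⟩ := (prjf_eq_some d).1 h1
    obtain ⟨-, rfl⟩ := (prjf_eq_some d).1 h2
    rw [Finset.mem_image]
    refine ⟨(y.2.1, y.2.2), ?_, ?_⟩
    · rw [Finset.mem_product]
      refine ⟨Finset.mem_univ _, ?_⟩
      have h3 := ball_walk d (p.map (hom d)) x.2.2 0 (by simp [ball, hom])
      rw [SimpleGraph.Walk.length_map, Nat.zero_add] at h3
      exact ball_mono d _ hp h3
    · have h4 := walk_end d p
      exact Prod.ext h4.symm rfl
  refine (Finset.card_le_card hsub).trans (Finset.card_image_le.trans ?_)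
  rw [Finset.card_product, Finset.card_univ, Fintype.card_fin]
  exact Nat.mul_le_mul_left _ (ball_card d _ n)

theorem rich_of_isb {x : d.V} (h : d.isb d.R x) (t : Fin d.R) : d.rich t x := h.2 t t.2

theorem co_congr {t : ℕ} {x y : d.V} (h : x.1 = y.1) : d.co t x = d.co t y := by
  unfold Dat.co
  rw [h]

theorem key_congr {t l : ℕ} {x y : d.V} (h : x.1 = y.1) : d.key t l x = d.key t l y := by
  unfold Dat.key
  rw [h]

theorem tgt_imp (hNFO : T_NFO) (hNFI : T_NFI) (x y : d.V) (b : Bool) (κ : d.K) (hxy : x.1 = y.1)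
    (hx : d.isb d.R x) (hy : d.isb d.R y) (h : ∃ r, d.ccf b (x, r) = some κ) :
    ∃ r, d.ccf b (y, r) = some κ := by
  obtain ⟨r, hr⟩ := h
  have hR := rich_of_isb d hx κ.1
  have hth : d.th κ.1 < d.D := by
    have := d.thm κ.1.2
    unfold Dat.D
    omega
  have hth1 : d.th κ.1 < d.th (κ.1 + 1) := d.thm (Nat.lt_succ_self _)
  have hT := d.hT
  have hrich : ∀ s < (κ.1 : ℕ), d.rich s y := fun s hs => hy.2 s (lt_trans hs κ.1.2)
  refine ⟨⟨d.th κ.1, hth⟩, ?_⟩
  cases b
  · have hr' : d.cin x r = some κ := hr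
    show d.cin y (d.th κ.1) = some κ
    rw [(hNFI d x r r.2).1 κ] at hr'
    rw [(hNFI d y (d.th κ.1) hth).1 κ]
    rcases hr' with ⟨h1, h2, h3⟩ | ⟨h1, h2, h3⟩
    · left
      refine ⟨h1, ⟨hrich, le_rfl, ?_, fun _ _ => Or.inl hth1⟩, ?_⟩
      · rw [← co_congr d hxy]
        exact h2.2.2.1
      · rw [← co_congr d hxy, ← key_congr d hxy]
        exact h3
    · exfalso
      have h4 := h2.2.1
      have h5 := hR.2
      omega
  · have hr' : d.cout x r = some κ := hr
    show d.cout y (d.th κ.1) = some κ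
    rw [(hNFO d x r r.2).1 κ] at hr'
    rw [(hNFO d y (d.th κ.1) hth).1 κ]
    rcases hr' with ⟨h1, h2, h3⟩ | ⟨h1, h2, h3⟩
    · left
      refine ⟨h1, ⟨hrich, le_rfl, ?_, fun _ _ => Or.inl hth1⟩, ?_⟩
      · rw [← co_congr d hxy]
        exact h2.2.2.1
      · rw [← co_congr d hxy, ← key_congr d hxy]
        exact h3
    · exfalso
      have h4 := h2.2.1
      have h5 := hR.1
      omega

end IP_

theorem tIP (hNFO : T_NFO) (hNFI : T_NFI) : T_IP := by
  intro d
  refine ⟨?_, ?_, ?_, ?_, ?_, IP_.long d, IP_.near_card d⟩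
  · intro x
    have h1 := IP_.prjf_ne d (x := x)
    have h2 := IP_.blkf_ne d (t := d.R) (x := x)
    tauto
  · intro x y h1 h2
    obtain ⟨q, hq⟩ := Option.ne_none_iff_exists'.1 h1
    rw [hq] at h2
    obtain ⟨-, rfl⟩ := (IP_.prjf_eq_some d).1 hq
    obtain ⟨-, h3⟩ := (IP_.prjf_eq_some d).1 h2.symm
    exact IP_.blkf_congr d (Prod.ext_iff.1 h3).1
  · intro x y q q' h1 h2 h3
    obtain ⟨-, rfl⟩ := (IP_.prjf_eq_some d).1 h1
    obtain ⟨-, rfl⟩ := (IP_.prjf_eq_some d).1 h2
    exact IP_.blkf_congr d h3.1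
  · intro x y q q' h1 h2 h3
    obtain ⟨-, rfl⟩ := (IP_.prjf_eq_some d).1 h1
    obtain ⟨-, rfl⟩ := (IP_.prjf_eq_some d).1 h2
    obtain ⟨p⟩ := h3
    exact IP_.blkf_congr d (IP_.walk_end d p).symm
  · intro x y b κ h1 h2
    obtain ⟨h3, h4, h5⟩ := IP_.blkf_R d h1 h2
    exact ⟨IP_.tgt_imp d hNFO hNFI x y b κ h3 h4 h5, IP_.tgt_imp d hNFO hNFI y x b κ h3.symm h5 h4⟩

end

end Pool.Agent.AcyAd
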