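import Pool.Agent.AcyAd.NFO

/-!
# ADI-NFI: the classes of the in-slots
-/

namespace Pool.Agent.AcyAd

open scoped Classical
open Pool.Agent.AcyTest

noncomputable section

namespace NFI_

open NFO_

variable (d : Dat)

theorem entry_lt {t : ℕ} {x : d.V} {r : ℕ} (h : t < d.R) : d.entry t x r ↔ d.co t x = 0 := by
  unfold Dat.entry
  rw [if_pos h]

theorem nfi_iff {t : ℕ} {x : d.V} {r : ℕ} (ht : t < d.R) :
    d.nfi t x r ↔ (d.lv x r = t ∧ ¬ d.entry t x r ∧
      ¬ (d.co t x = 2 * d.T ∧ d.th (t + 1) ≤ r ∧ ¬ d.entry (t + 1) x r)) ∨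
      (d.lv x r = t + 1 ∧ d.entry (t + 1) x r) := by
  have hT := d.hT
  rw [lv_eq d ht.le, lv_eq d (Nat.succ_le_of_lt ht), entry_lt d ht]
  unfold Dat.nfi
  constructor
  · rintro ⟨h1, h2, h3, h4⟩
    by_cases hl : d.rich t x ∧ d.th (t + 1) ≤ r
    · right
      obtain ⟨h5, h6⟩ := hl
      have h7 : d.entry (t + 1) x r := by
        rcases h4 h5.1 h5.2.le with h | h
        · omega
        · exact h
      refine ⟨⟨fun s hs => ?_, h6, fun hR hr => ?_⟩, h7⟩
      · rcases Nat.lt_succ_iff_lt_or_eq.1 hs with h8 | rfl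
        · exact h1 s h8
        · exact h5
      · exfalso
        rw [entry_lt d hR] at h7
        have := hr.1
        omega
    · left
      refine ⟨⟨h1, h2, fun _ hr => ?_⟩, h3, ?_⟩
      · by_contra h5
        exact hl ⟨hr, not_lt.1 h5⟩
      · rintro ⟨h5, h6, h7⟩
        rcases h4 (by omega) (by omega) with h | h
        · omega
        · exact h7 h
  · rintro (⟨⟨h1, h2, h3⟩, h4, h5⟩ | ⟨⟨h1, h2, -⟩, h4⟩)
    · refine ⟨h1, h2, h4, fun h6 h7 => ?_⟩
      by_cases h8 : d.co t x = 2 * d.T
      · by_contra h9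
        rw [not_or] at h9
        exact h5 ⟨h8, not_lt.1 h9.1, h9.2⟩
      · left
        exact h3 ht ⟨h6, by omega⟩
    · have h5 := h1 t (Nat.lt_succ_self t)
      refine ⟨fun s hs => h1 s (Nat.lt_succ_of_lt hs),
        le_trans (d.thm (Nat.lt_succ_self t)).le h2, ?_, fun _ _ => Or.inr h4⟩
      have := h5.1
      omega

theorem jmi_iff {t : ℕ} {x : d.V} {r : ℕ} (ht : t < d.R) :
    d.jmi t x r ↔ d.lv x r = t ∧
      (d.co t x = 2 * d.T ∧ d.th (t + 1) ≤ r ∧ ¬ d.entry (t + 1) x r) := by
  have hT := d.hT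
  rw [lv_eq d ht.le]
  unfold Dat.jmi
  constructor
  · rintro ⟨h1, h2, h3, h4⟩
    refine ⟨⟨h1, le_trans (d.thm (Nat.lt_succ_self t)).le h3, fun _ hr => ?_⟩, h2, h3, h4⟩
    have := hr.2
    omega
  · rintro ⟨⟨h1, _, _⟩, h2, h3, h4⟩
    exact ⟨h1, h2, h3, h4⟩

end NFI_

open NFO_ NFI_ in
theorem tNFI : T_NFI := by
  intro d x r _
  have hT := d.hT
  have hR := d.hR
  have hle := lv_le d x r
  refine ⟨fun κ => ?_, ?_⟩
  · have hκ : (κ.1 : ℕ) < d.R := κ.1.2
    rw [nfi_iff d hκ, jmi_iff d hκ]
    unfold Dat.cin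
    by_cases h1 : d.entry (d.lv x r) x r
    · rw [if_pos h1]
      by_cases h2 : d.lv x r = 0
      · rw [if_pos h2]
        constructor
        · intro h
          cases h
        · rintro (⟨-, (⟨h3, h4, -⟩ | ⟨h3, -⟩), -⟩ | ⟨-, ⟨h3, h4, -⟩, -⟩)
          · rw [← h3] at h4
            exact absurd h1 h4
          · omega
          · rw [h3, entry_lt d hκ] at h1
            omega
      · rw [if_neg h2, cl_eq d (by omega)]
        constructor
        · rintro ⟨h3, h4, h5⟩
          left
          refine ⟨h5, Or.inr ⟨by omega, ?_⟩, ?_⟩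
          · have : d.lv x r = κ.1 + 1 := by omega
            rw [← this]
            exact h1
          · rw [h3]
            exact h4
        · rintro (⟨h5, (⟨h3, h4, -⟩ | ⟨h3, -⟩), h6⟩ | ⟨-, ⟨h3, h4, -⟩, -⟩)
          · rw [← h3] at h4
            exact absurd h1 h4
          · have h7 : d.lv x r - 1 = κ.1 := by omega
            rw [h7]
            exact ⟨rfl, h6, h5⟩
          · rw [h3, entry_lt d hκ] at h1
            omega
    · rw [if_neg h1]
      by_cases h2 : d.lv x r = d.R
      · rw [if_pos h2]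
        constructor
        · intro h
          cases h
        · rintro (⟨-, (⟨h3, -⟩ | ⟨h3, h4⟩), -⟩ | ⟨-, ⟨h3, -⟩, -⟩)
          · omega
          · rw [← h3] at h4
            exact absurd h4 h1
          · omega
      · rw [if_neg h2]
        have h2' : d.lv x r < d.R := by omega
        by_cases h3 : d.co (d.lv x r) x = 2 * d.T ∧ d.th (d.lv x r + 1) ≤ r ∧
            ¬ d.entry (d.lv x r + 1) x r
        · rw [if_pos h3, cl_eq d h2']
          constructor
          · rintro ⟨h4, h5, h6⟩
            right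
            refine ⟨h6, ⟨h4.symm, ?_⟩, ?_⟩
            · rw [h4]
              exact h3
            · rw [h4]
              exact h5
          · rintro (⟨-, (⟨h4, -, h5⟩ | ⟨h4, h5⟩), -⟩ | ⟨h6, ⟨h4, -⟩, h5⟩)
            · rw [← h4] at h5
              exact absurd h3 h5
            · rw [← h4] at h5
              exact absurd h5 h1
            · rw [h4]
              exact ⟨rfl, h5, h6⟩
        · rw [if_neg h3, cl_eq d h2']
          constructor
          · rintro ⟨h4, h5, h6⟩
            left
            refine ⟨h6, Or.inl ⟨h4.symm, ?_, ?_⟩, ?_⟩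
            · rw [h4]
              exact h1
            · rw [h4]
              exact h3
            · rw [h4]
              exact h5
          · rintro (⟨h7, (⟨h4, -⟩ | ⟨h4, h5⟩), h6⟩ | ⟨h6, ⟨h4, h7⟩, h5⟩)
            · rw [h4]
              exact ⟨rfl, h6, h7⟩
            · rw [← h4] at h5
              exact absurd h5 h1
            · rw [← h4] at h7
              exact absurd h7 h3
  · have hbti : d.bti x r → d.lv x r = d.R ∧ ¬ d.entry (d.lv x r) x r := by
      rintro ⟨h1, h2, h3⟩
      have h4 : d.lv x r = d.R := (lv_eq d le_rfl).2 ⟨h1.2, h2, fun h => absurd h (lt_irrefl _)⟩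
      rw [h4]
      exact ⟨rfl, h3⟩
    have hco : d.co 0 x = 0 → d.lv x r = 0 ∧ d.entry (d.lv x r) x r := by
      intro h
      have h4 : d.lv x r = 0 := (lv_eq d (Nat.zero_le _)).2
        ⟨fun s hs => absurd hs (Nat.not_lt_zero _), by rw [d.th0]; exact Nat.zero_le _,
          fun _ hr => by have := hr.1; omega⟩
      rw [h4, entry_lt d hR]
      exact ⟨rfl, h⟩
    unfold Dat.cin
    by_cases h1 : d.entry (d.lv x r) x r
    · rw [if_pos h1]
      by_cases h2 : d.lv x r = 0
      · rw [if_pos h2]
        refine ⟨fun _ => Or.inr ?_, fun _ => rfl⟩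
        rw [h2, entry_lt d hR] at h1
        exact h1
      · rw [if_neg h2]
        constructor
        · intro h
          exact absurd h (cl_ne d (by omega))
        · rintro (h | h)
          · exact absurd h1 (hbti h).2
          · exact absurd (hco h).1 h2
    · rw [if_neg h1]
      by_cases h2 : d.lv x r = d.R
      · rw [if_pos h2]
        refine ⟨fun _ => Or.inl ?_, fun _ => rfl⟩
        have h3 := (lv_eq d le_rfl).1 h2
        rw [h2] at h1
        exact ⟨⟨le_rfl, h3.1⟩, h3.2.1, h1⟩
      · rw [if_neg h2]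
        have h2' : d.lv x r < d.R := by omega
        constructor
        · intro h
          split_ifs at h with h3
          · exact absurd h (cl_ne d h2')
          · exact absurd h (cl_ne d h2')
        · rintro (h | h)
          · exact absurd (hbti h).1 h2
          · exact absurd (hco h).2 h1

end

end Pool.Agent.AcyAd
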