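import Pool.Agent.AcyAd.Targets4

/-!
# MP_08c6cd_lc, fully adaptive testers: ADI-TW, the twist between the two worlds
-/

namespace Pool.Agent.AcyAd

open scoped Classical
open Pool.Agent.AcyTest

noncomputable section

namespace TW_

variable (d : Dat)

/-- the permutation of the copies -/
def cp {M : ℕ} (f : Equiv.Perm (Fin M)) (n : ℤ) : Equiv.Perm (Fin M) :=
  f ^ n * (finRotate M) ^ (-n)

/-- the permutation of the addresses -/
def ps (f : Equiv.Perm (Fin d.M)) (n : ℤ) : Equiv.Perm d.V :=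
  Equiv.prodCongr (Equiv.refl _) (Equiv.prodCongr (cp f n) (Equiv.refl _))

/-- the orientation -/
def or_ (q q' : d.Q) : ℤ :=
  if q.1 = q'.1 then (if d.G.E q.2 q'.2 then 1 else if d.G.E q'.2 q.2 then -1 else 0) else 0

theorem cp_zero {M : ℕ} (f : Equiv.Perm (Fin M)) : cp f 0 = 1 := by
  unfold cp
  simp

theorem cp_succ {M : ℕ} (f : Equiv.Perm (Fin M)) (n : ℤ) (j : Fin M) :
    cp f (n + 1) (finRotate M j) = f (cp f n j) := by
  unfold cp
  have h : f ^ (n + 1) * (finRotate M) ^ (-(n + 1)) * finRotate M =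
      f * (f ^ n * (finRotate M) ^ (-n)) := by
    have h1 : (finRotate M) ^ (-(n + 1)) = (finRotate M) ^ (-n) * (finRotate M)⁻¹ := by
      rw [neg_add, zpow_add, zpow_neg_one]
    rw [h1, add_comm n 1, zpow_add, zpow_one]
    group
  have h2 := congrArg (fun g : Equiv.Perm (Fin M) => g j) h
  simpa [Equiv.Perm.mul_apply] using h2

variable {d}

theorem ps_fst (f : Equiv.Perm (Fin d.M)) (n : ℤ) (x : d.V) : (ps d f n x).1 = x.1 := rfl

theorem ps_cp (f : Equiv.Perm (Fin d.M)) (n : ℤ) (x : d.V) :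
    (ps d f n x).2.1 = cp f n x.2.1 := rfl

theorem ps_v (f : Equiv.Perm (Fin d.M)) (n : ℤ) (x : d.V) : (ps d f n x).2.2 = x.2.2 := rfl

theorem exit_ps (f : Equiv.Perm (Fin d.M)) (n : ℤ)
    (h : ∀ j : Fin d.M, (cp f n j).1 + 1 = d.M ↔ j.1 + 1 = d.M) (t : ℕ) (x : d.V) (r : ℕ) :
    d.exit t (ps d f n x) r ↔ d.exit t x r := by
  unfold Dat.exit
  by_cases ht : t < d.R
  · simp only [ht, if_true]
    exact Iff.rfl
  · simp only [ht, if_false, ps_cp, ps_v, h]

theorem entry_ps (f : Equiv.Perm (Fin d.M)) (n : ℤ)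
    (h : ∀ j : Fin d.M, (cp f n j).1 = 0 ↔ j.1 = 0) (t : ℕ) (x : d.V) (r : ℕ) :
    d.entry t (ps d f n x) r ↔ d.entry t x r := by
  unfold Dat.entry
  by_cases ht : t < d.R
  · simp only [ht, if_true]
    exact Iff.rfl
  · simp only [ht, if_false, ps_cp, ps_v, h]

theorem cout_ps (f : Equiv.Perm (Fin d.M)) (n : ℤ)
    (h : ∀ j : Fin d.M, (cp f n j).1 + 1 = d.M ↔ j.1 + 1 = d.M) (x : d.V) (r : ℕ) :
    d.cout (ps d f n x) r = d.cout x r := by
  have e1 : ∀ t, d.co t (ps d f n x) = d.co t x := fun _ => rfl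
  have e2 : d.lv (ps d f n x) r = d.lv x r := rfl
  have e3 : ∀ t l j, d.cl t l j (ps d f n x) = d.cl t l j x := fun _ _ _ => rfl
  unfold Dat.cout
  simp only [e1, e2, e3, exit_ps f n h]

theorem cin_ps (f : Equiv.Perm (Fin d.M)) (n : ℤ)
    (h : ∀ j : Fin d.M, (cp f n j).1 = 0 ↔ j.1 = 0) (x : d.V) (r : ℕ) :
    d.cin (ps d f n x) r = d.cin x r := by
  have e1 : ∀ t, d.co t (ps d f n x) = d.co t x := fun _ => rfl
  have e2 : d.lv (ps d f n x) r = d.lv x r := rfl
  have e3 : ∀ t l j, d.cl t l j (ps d f n x) = d.cl t l j x := fun _ _ _ => rfl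
  unfold Dat.cin
  simp only [e1, e2, e3, entry_ps f n h]

theorem rot_zero {M : ℕ} (j : Fin M) : (finRotate M j).1 = 0 ↔ j.1 + 1 = M := by
  obtain _ | M := M
  · exact j.elim0
  by_cases h : j = Fin.last M
  · subst h
    simp [finRotate_last]
  · have h1 := coe_finRotate_of_ne_last h
    rw [h1]
    constructor
    · intro h2
      omega
    · intro h2
      exfalso
      apply h
      ext
      rw [Fin.val_last]
      omega

theorem ff_zero {M a b : ℕ} {f : Equiv.Perm (Fin M)} (ha : a % 2 = 0) (hb : b % 2 = 0)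
    (hbM : b < M) (hf : Dat.IsFF M a b f) (j : Fin M) (h : (f j).1 = 0) : j.1 + 1 = M := by
  have h1 := hf j
  rw [h] at h1
  unfold Dat.ff at h1
  have h2 := j.2
  split_ifs at h1 with h3 h4
  · rw [Nat.mod_eq_of_lt (by omega)] at h1
    omega
  · rw [Nat.mod_eq_of_lt (by omega)] at h1
    omega
  · by_contra h5
    rw [Nat.mod_eq_of_lt (by omega)] at h1
    omega

end TW_

open TW_ in
theorem tTW (hFFB : T_FFB) : T_TW := by
  intro d hc FA FF hA ib ic im cs ip fi a b B f ha hb hab hbM hf hBa hbB hF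
  have key : ∀ n : ℤ, |n| ≤ B → ∀ j : Fin d.M, ((cp f n j).1 = 0 ↔ j.1 = 0) ∧
      ((cp f n j).1 + 1 = d.M ↔ j.1 + 1 = d.M) :=
    fun n hn j => hFFB d.M a b B f ha hb hab hbM hf hBa hbB n hn j
  refine ⟨{
    psi := ps d f
    ori := or_ d
    psi_zero := ?_
    psi_prj := ?_
    psi_cc := ?_
    psi_fx := ?_
    psi_none := ?_
    ori_anti := ?_
    ori_fx := ?_ }⟩
  · refine Equiv.ext fun x => ?_
    show ps d f 0 x = x
    unfold ps
    rw [cp_zero]
    rfl
  · intro n x
    rfl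
  · intro n hn b' x r
    show d.ccf b' (ps d f n x, r) = d.ccf b' (x, r)
    unfold Dat.ccf
    cases b'
    · exact cin_ps f n (fun j => (key n hn j).1) x r
    · exact cout_ps f n (fun j => (key n hn j).2) x r
  · intro n hn hn1 x r y s h
    have h1 := (hA (x, r) (y, s)).1.1 h
    refine (hF (ps d f n x, r) (ps d f (n + 1) y, s)).1.2 ?_
    obtain ⟨h2, h3, h4, h5, h6, h7, h8, h9⟩ := h1
    refine ⟨h2, h3, h4, ?_, h6, h7, h8, ?_⟩
    · show (cp f n x.2.1).1 + 1 ≠ d.M
      intro h10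
      exact h5 ((key n hn x.2.1).2.1 h10)
    · show cp f (n + 1) y.2.1 = f (cp f n x.2.1)
      have h10 : y.2.1 = finRotate d.M x.2.1 := h9
      rw [h10, cp_succ]
  · intro n hn b' x r h
    by_contra h0
    obtain ⟨c, hc'⟩ := Option.ne_none_iff_exists'.1 h0
    cases b'
    · have h1 := (hF c (ps d f n x, r)).2.1 hc'
      obtain ⟨h2, h3, h4, h5, h6, h7, h8, h9⟩ := h1
      have h8' : x.1 = c.1.1 := h8
      have h9' : cp f n x.2.1 = f c.1.2.1 := h9
      have h10 : ¬ (x.2.1.1 = 0) := by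
        intro h11
        have h12 := (key n hn x.2.1).1.2 h11
        rw [h9'] at h12
        exact h5 (ff_zero ha hb hbM hf _ h12)
      have h13 : d.Ed (finRotate d.M) ((x.1, (finRotate d.M).symm x.2.1, c.1.2.2), c.2) (x, r) := by
        refine ⟨?_, h3, h4, ?_, h6, h7, rfl, ?_⟩
        · have h14 : d.isb d.R c.1 := h2
          refine ⟨h14.1, fun s hs => ?_⟩
          have h15 := h14.2 s hs
          unfold Dat.rich Dat.co at h15 ⊢
          simp only [h8']
          exact h15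
        · show ((finRotate d.M).symm x.2.1).1 + 1 ≠ d.M
          intro h14
          rw [← rot_zero, Equiv.apply_symm_apply] at h14
          exact h10 h14
        · show x.2.1 = finRotate d.M ((finRotate d.M).symm x.2.1)
          rw [Equiv.apply_symm_apply]
      exact Option.some_ne_none _ (((hA _ _).2.2 h13).symm.trans h)
    · have h1 := (hF (ps d f n x, r) c).1.1 hc'
      obtain ⟨h2, h3, h4, h5, h6, h7, h8, h9⟩ := h1
      have h5' : x.2.1.1 + 1 ≠ d.M := fun h10 => h5 ((key n hn x.2.1).2.2 h10)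
      have h13 : d.Ed (finRotate d.M) (x, r) ((x.1, finRotate d.M x.2.1, c.1.2.2), c.2) :=
        ⟨h2, h3, h4, h5', h6, h7, rfl, rfl⟩
      exact Option.some_ne_none _ (((hA _ _).1.2 h13).symm.trans h)
  · intro q q'
    show or_ d q' q = - or_ d q q'
    unfold or_
    by_cases h1 : q.1 = q'.1
    · rw [if_pos h1, if_pos h1.symm]
      by_cases h2 : d.G.E q.2 q'.2
      · rw [if_pos h2, if_neg (d.two _ _ h2), if_pos h2]
      · by_cases h3 : d.G.E q'.2 q.2
        · rw [if_pos h3, if_neg h2, if_pos h3]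
          norm_num
        · rw [if_neg h3, if_neg h2, if_neg h2, if_neg h3]
          norm_num
    · rw [if_neg h1, if_neg fun h => h1 h.symm]
      norm_num
  · intro x r y s q q' h hq hq'
    have h1 := (hA (x, r) (y, s)).1.1 h
    obtain ⟨h2, h3, h4, h5, h6, h7, h8, h9⟩ := h1
    have hq1 : d.prjf x = some q := hq
    have hq2 : d.prjf y = some q' := hq'
    unfold Dat.prjf at hq1 hq2
    have h10 : d.isb d.R x := h2
    have h11 : d.isb d.R y := by
      by_contra h11
      rw [if_neg h11] at hq2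
      cases hq2
    rw [if_pos h10] at hq1
    rw [if_pos h11] at hq2
    have e1 : q = (x.1, x.2.2) := (Option.some.inj hq1).symm
    have e2 : q' = (y.1, y.2.2) := (Option.some.inj hq2).symm
    show or_ d q q' = 1
    unfold or_
    rw [e1, e2]
    have h12 : x.1 = y.1 := h8.symm
    have h13 : d.G.E x.2.2 y.2.2 := ⟨_, h6⟩
    rw [if_pos h12, if_pos h13]

end

end Pool.Agent.AcyAd
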