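import Pool.Agent.AcyAd.NFO
import Pool.Agent.AcyAd.NFI
import Pool.Agent.AcyAd.EXN
import Pool.Agent.AcyAd.CARD
import Pool.Agent.AcyAd.CSZ
import Pool.Agent.AcyAd.FXE
import Pool.Agent.AcyAd.IB
import Pool.Agent.AcyAd.IC
import Pool.Agent.AcyAd.IM
import Pool.Agent.AcyAd.IP
import Pool.Agent.AcyAd.IF
import Pool.Agent.AcyAd.FFX
import Pool.Agent.AcyAd.FFB
import Pool.Agent.AcyAd.TW
import Pool.Agent.AcyAd.IACY
import Pool.Agent.AcyAd.COPY
import Pool.Agent.AcyAd.IFAR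
import Pool.Agent.AcyAd.IFD
import Pool.Agent.AcyAd.GFAS

/-!
# MP_08c6cd_lc, fully adaptive testers: assembly of the block 4 (the construction)
-/

namespace Pool.Agent.AcyAd

theorem aCARD : T_CARD := tCARD tNFO tNFI tEXN

theorem aCSZ : T_CSZ := tCSZ tNFO aCARD

theorem aIC : T_IC := tIC tNFO tNFI

theorem aIM : T_IM := tIM tNFO tNFI

theorem aIP : T_IP := tIP tNFO tNFI

theorem aTW : T_TW := tTW tFFB

theorem aIACY : T_IACY := tIACY aIC

theorem aIFAR : T_IFAR := tIFAR tCOPY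

theorem aIFD : T_IFD := tIFD aIFAR tGFAS

end Pool.Agent.AcyAd
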