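import Pool.Agent.AcyAd.Targets2

set_option autoImplicit false

/-!
# MP_08c6cd_lc, fully adaptive testers: ADF-DET, the induction in good worlds
-/

namespace Pool.Agent.AcyAd

open scoped Classical
open Pool.Agent.AcyTest

noncomputable section

namespace DET_

variable {S : Sys} {F : Fx S}

/-- One more question increases the depths by at most one. -/
theorem dep_succ (H : Hier S F) (σ : Player S) (w : World S) (j t h : ℕ)
    (hj : ∀ v, H.dep t (run F σ w j) v < h) (v : S.V) : H.dep t (run F σ w (j + 1)) v ≤ h := by
  rw [run, H.dep_cons]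
  split
  · split
    · exact hj _
    · exact Nat.zero_le _
  · exact (hj v).le

/-- If there is no selected path then the depths are small. -/
theorem dep_lt_of_top (H : Hier S F) (L : List (En S)) (t h : ℕ) (hh : 1 ≤ h)
    (ht : H.top t h L = ∅) (v : S.V) : H.dep (t + 1) L v < h := by
  by_contra hcon
  push Not at hcon
  have hv : v ∈ touched L := by
    by_contra hv
    have := (H.not_touched (t := t + 1) hv).2.1
    omega
  have h1 := H.dep_iter (t := t + 1) (L := L) (v := v) (j := H.dep (t + 1) L v - h) (by omega)
  have h2 : H.dep (t + 1) L ((par L)^[H.dep (t + 1) L v - h] v) = h := by omega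
  have h3 : (par L)^[h] ((par L)^[H.dep (t + 1) L v - h] v) ∈ H.top t h L := by
    rw [Hier.top, Finset.mem_image]
    refine ⟨_, ?_, rfl⟩
    rw [Finset.mem_filter, h2]
    exact ⟨Hier.iter_touched hv _, le_rfl, dvd_refl h⟩
  rw [ht] at h3
  simp at h3

end DET_

open DET_ in
theorem tDET (hTOP : T_TOP) (hWIN : T_WIN) (hRWIN : T_RWIN) (hHB1 : T_HB1) (hHB3 : T_HB3)
    (hNC : T_NC) : T_DET := by
  intro S F H q P σ w hG k
  induction k using Nat.strong_induction_on with
  | _ k ih =>
    intro hk
    have hXB : ∀ j < k, H.XB P.X (run F σ w j) := fun j hj => (ih j hj (by omega)).1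
    have hR := H.R_pos
    have hdep0 : ∀ v, H.dep H.R (run F σ w k) v ≤ P.h (H.R - 1) := by
      intro v
      rcases Nat.eq_zero_or_pos k with h | h
      · subst h
        exact Nat.zero_le _
      · obtain ⟨j, rfl⟩ : ∃ j, k = j + 1 := ⟨k - 1, by omega⟩
        exact dep_succ H σ w j H.R _ (ih j (by omega) (by omega)).2.1 v
    have hT := hTOP S F H q P σ w k hk hG hXB hdep0
    have hB1 := hHB1 S F H q P σ w k hk hG hXB
    have hB3 := hHB3 S F H q P σ w k hk hG hXB
    refine ⟨⟨?_, ?_⟩, ?_, ?_⟩
    · have h1 := card_touched (run F σ w k)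
      rw [run_length] at h1
      have h2 := P.X_zero
      omega
    · intro t ht β l
      rcases Nat.eq_zero_or_pos t with h0 | h0
      · subst h0
        have h1 := card_touched (run F σ w k)
        rw [run_length] at h1
        have h2 := P.X_one
        have h3 : (H.inl 0 β l (run F σ w k)).card ≤ (touched (run F σ w k)).card :=
          Finset.card_le_card (Finset.filter_subset _ _)
        rw [Nat.zero_add]
        omega
      · by_cases hne : (H.inl t β l (run F σ w k)).Nonempty
        · obtain ⟨v, hv⟩ := hne
          rw [Hier.inl, Finset.mem_filter] at hv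
          obtain ⟨_, x, _, hx2, hx3⟩ := hv
          have hl : l < 3 * H.T := by
            rw [← hx3]
            exact H.lay_lt t ht x (by rw [hx2]; simp)
          have hz4 := hB3.2 t h0 ht x β hx2 l hl
          obtain ⟨s, rfl⟩ : ∃ s, t = s + 1 := ⟨t - 1, by omega⟩
          rw [Nat.add_sub_cancel] at hz4
          have hs : s < H.R := by omega
          have w1 := hWIN S F H σ w k s (P.h s) β l (P.h_pos s hs) ht
          have w2 := hRWIN S F H P.X σ w k (P.h s) (s + 1) β l hXB ht.le
          have w3 := P.Ns_pow s hs
          have w4 := P.X_ge (s + 1) h0 ht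
          rw [Nat.add_sub_cancel] at w4
          have w5 := hT s hs
          have w6 : (2 * H.dd (s + 1) + 1) ^ (2 * P.h s) ≤ P.Ns ^ 2 := by
            rw [mul_comm 2 (P.h s), pow_mul]
            exact Nat.pow_le_pow_left w3 2
          have w7 : ((H.inl (s + 1) β l (run F σ w k)).card : ℝ) ≤
              (P.Ns : ℝ) * P.m4 (s + 1) + (P.Ns : ℝ) ^ 2 * P.Y s := by
            have a1 : ((H.inl (s + 1) β l (run F σ w k)).card : ℝ) ≤
                ((P.Ns * hits (H.z4r P.X (P.h s) (s + 1) β l) (H.z4a P.X (P.h s) (s + 1) β l)
                  (run F σ w k) + P.Ns ^ 2 * (H.top s (P.h s) (run F σ w k)).card : ℕ) : ℝ) := by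
              exact_mod_cast w1.trans (Nat.add_le_add (Nat.mul_le_mul w3 w2)
                (Nat.mul_le_mul_right _ w6))
            push_cast at a1
            refine a1.trans (add_le_add ?_ ?_)
            · refine mul_le_mul_of_nonneg_left ?_ (Nat.cast_nonneg _)
              have : ((hits (H.z4r P.X (P.h s) (s + 1) β l) (H.z4a P.X (P.h s) (s + 1) β l)
                  (run F σ w k) : ℕ) : ℝ) < ((P.m4 (s + 1) : ℕ) : ℝ) := by exact_mod_cast hz4
              exact this.le
            · exact mul_le_mul_of_nonneg_left w5 (by positivity)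
          have w8 := w7.trans w4
          exact_mod_cast w8
        · rw [Finset.not_nonempty_iff_eq_empty] at hne
          rw [hne]
          simp
    · have h1 := hT (H.R - 1) (by omega)
      have h2 := P.Y_R
      have h3 : H.top (H.R - 1) (P.h (H.R - 1)) (run F σ w k) = ∅ := by
        rw [← Finset.card_eq_zero]
        have h4 : ((H.top (H.R - 1) (P.h (H.R - 1)) (run F σ w k)).card : ℝ) < 1 :=
          lt_of_le_of_lt h1 h2
        have h5 : (H.top (H.R - 1) (P.h (H.R - 1)) (run F σ w k)).card < 1 := by
          exact_mod_cast h4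
        omega
      intro v
      have h4 := dep_lt_of_top H (run F σ w k) (H.R - 1) (P.h (H.R - 1))
        (P.h_pos _ (by omega)) h3 v
      rwa [show H.R - 1 + 1 = H.R by omega] at h4
    · exact hNC S F H P.X σ w k P.n P.n' P.K0 P.n_big hXB hB1.2

end

end Pool.Agent.AcyAd
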