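import Pool.Agent.AcyTest.Basic

/-!
# MP_08c6cd_lc, fully adaptive testers: definitions

Slot systems, random worlds, runs of a player, visible logs, forests of discovered names.
-/

namespace Pool.Agent.AcyAd

open scoped Classical

noncomputable section

/-- A slot system: `V` is the set of addresses (and of names), every address has `D` slots in each
of the two directions (`true` = out, `false` = in); the slot `y` in direction `b` belongs to the
random class `cc b y`, or to none. -/
structure Sys where
  V : Type
  D : ℕ
  K : Type
  [fV : Fintype V]
  [dV : DecidableEq V]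
  [fK : Fintype K]
  [dK : DecidableEq K]
  cc : Bool → V × Fin D → Option K
  card_cc : ∀ κ : K, Nat.card {a : V × Fin D // cc true a = some κ} =
    Nat.card {a : V × Fin D // cc false a = some κ}

attribute [instance] Sys.fV Sys.dV Sys.fK Sys.dK

/-- Slots: pairs (name, slot number) or (address, rank). -/
abbrev Sys.Sl (S : Sys) : Type := S.V × Fin S.D

/-- The slots of class `κ` in direction `b`. -/
abbrev Sys.Cl (S : Sys) (b : Bool) (κ : S.K) : Type := {a : S.Sl // S.cc b a = some κ}

/-- The number of pairs of a class. -/
def Sys.N (S : Sys) (κ : S.K) : ℕ := Nat.card (S.Cl true κ)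

/-- The addresses with a slot of class `κ` in direction `b`. -/
def Sys.tgt (S : Sys) (b : Bool) (κ : S.K) : Finset S.V :=
  Finset.univ.filter fun x => ∃ r, S.cc b (x, r) = some κ

/-- Fixed pairs of slots. -/
structure Fx (S : Sys) where
  fx : Bool → S.Sl → Option S.Sl
  cls : ∀ b y, S.cc b y ≠ none → fx b y = none
  inv : ∀ b y y', fx b y = some y' → fx (!b) y' = some y

/-- The hidden data: the addresses of the names, the ranks of the slots of the names, and for each
random class a bijection from its out-slots to its in-slots. -/
structure World (S : Sys) where
  lam : Equiv.Perm S.V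
  rk : Bool → S.V → Equiv.Perm (Fin S.D)
  mu : ∀ κ : S.K, S.Cl true κ ≃ S.Cl false κ

instance (S : Sys) : Finite (World S) := by
  refine Finite.of_injective (β := Equiv.Perm S.V × (Bool → S.V → Equiv.Perm (Fin S.D)) ×
    (∀ κ : S.K, S.Cl true κ ≃ S.Cl false κ)) (fun w => (w.lam, w.rk, w.mu)) ?_
  rintro ⟨a, b, c⟩ ⟨a', b', c'⟩ h
  simp only [Prod.mk.injEq] at h
  obtain ⟨rfl, rfl, rfl⟩ := h
  rfl

variable {S : Sys}

/-- The partner of the address slot `y` in direction `b`. -/
def World.mt (F : Fx S) (w : World S) : Bool → S.Sl → Option S.Sl
  | true, y => match h : S.cc true y with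
    | none => F.fx true y
    | some κ => some (w.mu κ ⟨y, h⟩).1
  | false, y => match h : S.cc false y with
    | none => F.fx false y
    | some κ => some ((w.mu κ).symm ⟨y, h⟩).1

/-- The place (address, rank) of a name slot. -/
def World.plc (w : World S) (b : Bool) (a : S.Sl) : S.Sl := (w.lam a.1, w.rk b a.1 a.2)

/-- The name slot at a place. -/
def World.unplc (w : World S) (b : Bool) (y : S.Sl) : S.Sl :=
  (w.lam.symm y.1, (w.rk b (w.lam.symm y.1)).symm y.2)

/-- The answer to the question for the partner of the name slot `a` in direction `b`. -/
def World.ask (F : Fx S) (w : World S) (b : Bool) (a : S.Sl) : Option S.Sl :=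
  (w.mt F b (w.plc b a)).map (w.unplc (!b))

/-- A deterministic adaptive player: from the list of answers (the last one first) to the next
question. -/
abbrev Player (S : Sys) : Type := List (Option S.Sl) → Bool × S.Sl

/-! ## Visible logs -/

/-- A visible entry: direction, asked name slot, answer. -/
structure VE (S : Sys) where
  b : Bool
  a : S.Sl
  r : Option S.Sl

/-- The name in the answer. -/
def VE.nm (e : VE S) : Finset S.V := match e.r with | some y => {y.1} | none => ∅

/-- The names which were asked about or appeared in an answer. -/
def vtouched : List (VE S) → Finset S.V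
  | [] => ∅
  | e :: L => vtouched L ∪ {e.a.1} ∪ e.nm

/-- The name slots in direction `b` whose partner is known. -/
def vknown (b : Bool) : List (VE S) → Finset S.Sl
  | [] => ∅
  | e :: L => vknown b L ∪ (if e.b = b then {e.a} else
      match e.r with | some y => {y} | none => ∅)

/-- The known partner. -/
def look (b : Bool) : List (VE S) → S.Sl → Option S.Sl
  | [], _ => none
  | e :: L, a => if e.b = b ∧ e.a = a then e.r else
      if e.b ≠ b ∧ e.r = some a then some e.a else look b L a

/-- The name `v` is discovered as the answer of the entry `e` after the log `L`. -/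
def VDisc (L : List (VE S)) (e : VE S) (v : S.V) : Prop :=
  v ∉ vtouched L ∧ v ≠ e.a.1 ∧ ∃ y, e.r = some y ∧ y.1 = v

/-- The parent of a name: the name whose slot was asked when `v` was discovered (`v` itself if `v` is
a root or not touched). -/
def vpar : List (VE S) → S.V → S.V
  | [], v => v
  | e :: L, v => if VDisc L e v then e.a.1 else vpar L v

/-! ## Full logs -/

/-- An entry of the full log: direction, asked name slot, its place, answer (name slot and place). -/
structure En (S : Sys) where
  b : Bool
  a : S.Sl
  p : S.Sl
  r : Option (S.Sl × S.Sl)

/-- The answer seen by the player. -/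
def En.ans (e : En S) : Option S.Sl := e.r.map Prod.fst

/-- The visible entry. -/
def En.vis (e : En S) : VE S := ⟨e.b, e.a, e.ans⟩

/-- The next entry. -/
def nxt (F : Fx S) (w : World S) (q : Bool × S.Sl) : En S :=
  ⟨q.1, q.2, w.plc q.1 q.2, (w.mt F q.1 (w.plc q.1 q.2)).map fun y => (w.unplc (!q.1) y, y)⟩

/-- The log after `k` questions, last entry first. -/
def run (F : Fx S) (σ : Player S) (w : World S) : ℕ → List (En S)
  | 0 => []
  | k + 1 => nxt F w (σ ((run F σ w k).map En.ans)) :: run F σ w k

/-- The names which were asked about or appeared in an answer. -/
def touched (L : List (En S)) : Finset S.V := vtouched (L.map En.vis)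

/-- The name slots in direction `b` whose partner is known. -/
def known (b : Bool) (L : List (En S)) : Finset S.Sl := vknown b (L.map En.vis)

/-- The name `v` is discovered as the answer of the entry `e` after the log `L`. -/
def Disc (L : List (En S)) (e : En S) (v : S.V) : Prop := VDisc (L.map En.vis) e.vis v

/-- The parent of a name. -/
def par (L : List (En S)) (v : S.V) : S.V := vpar (L.map En.vis) v

/-- The addresses of the touched names. -/
def expl : List (En S) → Finset S.V
  | [] => ∅
  | e :: L => expl L ∪ {e.p.1} ∪ (match e.r with | some y => {y.2.1} | none => ∅)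

/-- The address of a touched name. -/
def adr : List (En S) → S.V → Option S.V
  | [], _ => none
  | e :: L, v => match adr L v with
    | some x => some x
    | none => if v = e.a.1 then some e.p.1 else
        match e.r with | some y => if v = y.1.1 then some y.2.1 else none | none => none

end

end Pool.Agent.AcyAd
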