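import Pool.Agent.AcyAd.Targets2

/-!
# MP_08c6cd_lc, fully adaptive testers: events of the big trees
-/

set_option autoImplicit false

namespace Pool.Agent.AcyAd

open scoped Classical
open Pool.Agent.AcyTest

noncomputable section

namespace EVC2_

variable {S : Sys} {F : Fx S}

/-- The first summand of `hits`. -/
def h1 (Zr : List (En S) → Finset S.V) (e : En S) (L : List (En S)) : ℕ :=
  if e.a.1 ∉ touched L ∧ e.p.1 ∈ Zr L then 1 else 0

/-- The second summand of `hits`. -/
def h2 (Za : List (En S) → Bool → S.Sl → S.Sl → Finset S.V) (e : En S) (L : List (En S)) : ℕ :=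
  if e.a ∉ known e.b L ∧ S.cc e.b e.p ≠ none ∧ ∃ y, e.r = some y ∧ y.2.1 ∈ Za L e.b e.a e.p
    then 1 else 0

theorem hits_cons (Zr : List (En S) → Finset S.V)
    (Za : List (En S) → Bool → S.Sl → S.Sl → Finset S.V) (e : En S) (L : List (En S)) :
    hits Zr Za (e :: L) = hits Zr Za L + h1 Zr e L + h2 Za e L := rfl

theorem h1_le (Zr : List (En S) → Finset S.V) (e : En S) (L : List (En S)) : h1 Zr e L ≤ 1 := by
  unfold h1
  split <;> omega

theorem h2_le (Za : List (En S) → Bool → S.Sl → S.Sl → Finset S.V) (e : En S) (L : List (En S)) :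
    h2 Za e L ≤ 1 := by
  unfold h2
  split <;> omega

theorem h1_eq {Zr : List (En S) → Finset S.V} {e : En S} {L : List (En S)}
    (ha : e.a.1 ∉ touched L) (hp : e.p.1 ∈ Zr L) : h1 Zr e L = 1 := by
  unfold h1
  rw [if_pos ⟨ha, hp⟩]

theorem h2_eq {Za : List (En S) → Bool → S.Sl → S.Sl → Finset S.V} {e : En S} {L : List (En S)}
    {y : S.Sl × S.Sl} (ha : e.a ∉ known e.b L) (hc : S.cc e.b e.p ≠ none) (hy : e.r = some y)
    (hz : y.2.1 ∈ Za L e.b e.a e.p) : h2 Za e L = 1 := by
  unfold h2
  rw [if_pos ⟨ha, hc, y, hy, hz⟩]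

variable (H : Hier S F)

theorem halo_mono {n : ℕ} {L : List (En S)} {A B : Finset S.V} (h : A ⊆ B) :
    H.halo n L A ⊆ H.halo n L B := by
  intro x hx
  unfold Hier.halo at hx ⊢
  simp only [Finset.mem_filter, Finset.mem_univ, true_and] at hx ⊢
  obtain ⟨v, hv, z, hz, h'⟩ := hx
  exact ⟨v, h hv, z, hz, h'⟩

/-- The predicted set of `eva` contains the halo. -/
theorem halo_sub_eva {n t : ℕ} {A : Finset S.V} {L : List (En S)} {b : Bool} {a p : S.Sl} :
    H.halo n L (A ∩ touched L) ⊆ H.eva n t A L b a p := by
  unfold Hier.eva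
  split
  · exact (halo_mono H Finset.inter_subset_right).trans Finset.subset_union_left
  · exact subset_rfl

variable {H}

theorem adr_suffix (σ : Player S) (w : World S) {j k : ℕ} (hj : j ≤ k) {v : S.V}
    (hv : v ∈ touched (run F σ w j)) :
    adr (run F σ w j) v = some (w.lam v) ∧ adr (run F σ w k) v = some (w.lam v) := by
  rw [adr_eq, adr_eq, if_pos hv, if_pos (touched_suffix (run_suffix σ w hj) hv)]
  exact ⟨rfl, rfl⟩

/-- The root of a member of a big tree. -/
theorem root_mem (σ : Player S) (w : World S) {k s t : ℕ} {β : H.Bk} {v : S.V}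
    (hv : v ∈ H.big s t β (run F σ w k)) :
    H.root t (run F σ w k) v ∈ H.big s t β (run F σ w k) ∩ H.roots t (run F σ w k) := by
  unfold Hier.big Hier.inb at hv ⊢
  simp only [Finset.mem_filter, Finset.mem_inter, H.mem_roots] at hv ⊢
  obtain ⟨⟨h1, x, hx, hb⟩, h2⟩ := hv
  have h3 := H.root_touched (t := t) h1
  rw [adr_eq, if_pos h1] at hx
  cases hx
  refine ⟨⟨⟨h3, w.lam (H.root t (run F σ w k) v), ?_, ?_⟩, ?_⟩, h3, H.root_root⟩
  · rw [adr_eq, if_pos h3]
  · rw [← H.root_blk σ w k v, hb]
  · rw [H.root_root]
    exact h2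

/-- A member of a big tree which is touched earlier: its tree is still small, or it is a member of a
big tree earlier. -/
theorem split (σ : Player S) (w : World S) {j k s t : ℕ} (hj : j ≤ k) {β : H.Bk} {v : S.V}
    (hv : v ∈ H.big s t β (run F σ w k)) (hvj : v ∈ touched (run F σ w j)) :
    v ∈ H.big s t β (run F σ w j) ∨
      (H.root t (run F σ w k) v ∈ H.roots t (run F σ w j) ∧
        (H.part t (run F σ w j) (H.root t (run F σ w k) v)).card < s ∧
        v ∈ H.part t (run F σ w j) (H.root t (run F σ w k) v)) := by
  have hst := (H.stable_suffix (t := t) (run_suffix σ w hj) hvj).2.2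
  rw [hst]
  by_cases hs : (H.part t (run F σ w j) (H.root t (run F σ w j) v)).card < s
  · right
    refine ⟨H.mem_roots.2 ⟨H.root_touched hvj, H.root_root⟩, hs, H.mem_part.2 ⟨hvj, rfl⟩⟩
  · left
    unfold Hier.big Hier.inb at hv ⊢
    simp only [Finset.mem_filter] at hv ⊢
    obtain ⟨⟨h1, x, hx, hb⟩, h2⟩ := hv
    obtain ⟨h3, h4⟩ := adr_suffix σ w hj hvj
    rw [h4] at hx
    exact ⟨⟨hvj, x, by rw [h3, ← hx], hb⟩, not_lt.1 hs⟩

theorem halo_split (σ : Player S) (w : World S) {j k n s t : ℕ} (hj : j ≤ k) {β : H.Bk} {x : S.V}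
    (hx : x ∈ H.halo n (run F σ w j)
      (H.big s t β (run F σ w k) ∩ touched (run F σ w j))) :
    x ∈ H.halo n (run F σ w j) (H.big s t β (run F σ w j) ∩ touched (run F σ w j)) ∨
      ∃ ρ ∈ H.big s t β (run F σ w k) ∩ H.roots t (run F σ w k),
        ρ ∈ H.roots t (run F σ w j) ∧ (H.part t (run F σ w j) ρ).card < s ∧
        x ∈ H.halo n (run F σ w j) (H.part t (run F σ w j) ρ ∩ touched (run F σ w j)) := by
  have hx' := hx
  unfold Hier.halo at hx'
  simp only [Finset.mem_filter, Finset.mem_univ, true_and, Finset.mem_inter] at hx'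
  obtain ⟨v, ⟨hv, hvj⟩, z, hz, h⟩ := hx'
  rcases split σ w hj hv hvj with h1 | ⟨h1, h2, h3⟩
  · left
    unfold Hier.halo
    simp only [Finset.mem_filter, Finset.mem_univ, true_and, Finset.mem_inter]
    exact ⟨v, ⟨h1, hvj⟩, z, hz, h⟩
  · right
    refine ⟨_, root_mem σ w hv, h1, h2, ?_⟩
    unfold Hier.halo
    simp only [Finset.mem_filter, Finset.mem_univ, true_and, Finset.mem_inter]
    exact ⟨v, ⟨h3, hvj⟩, z, hz, h⟩

end EVC2_

open EVC2_

theorem tEVC2 : T_EVC2 := by
  intro S F H X σ w k n s t β hX
  obtain ⟨L, hL⟩ : ∃ L, L = run F σ w k := ⟨_, rfl⟩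
  obtain ⟨A, hA⟩ : ∃ A, A = H.big s t β (run F σ w k) := ⟨_, rfl⟩
  obtain ⟨B, hB⟩ : ∃ B, B = H.big s t β (run F σ w k) ∩ H.roots t (run F σ w k) := ⟨_, rfl⟩
  have key : ∀ L' : List (En S), L' <:+ run F σ w k →
      hits (H.evr n A) (H.eva n t A) L' ≤
        hits (H.z3r X n s t β) (H.z3a X n s t β) L' +
        ∑ ρ ∈ B, (hits (H.z1r X n s t ρ) (H.z1a X n s t ρ) L' +
          (if ρ ∈ touched L' then 1 else 0)) := by
    intro L'
    induction L' with
    | nil => intro _; simp [hits]
    | cons e L' ih =>
      intro hs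
      have ih' := ih ((List.suffix_cons _ _).trans hs)
      obtain ⟨j, hj, hLj, hej⟩ := run_suffix_mem σ w hs
      have hXj := hX j hj
      rw [← hLj] at hXj
      have he : e ∈ run F σ w (j + 1) := by
        rw [← hej]
        exact List.mem_cons_self
      rw [hits_cons, hits_cons]
      -- the first summand
      have c1 : h1 (H.evr n A) e L' ≤ h1 (H.z3r X n s t β) e L' +
          ∑ ρ ∈ B, h1 (H.z1r X n s t ρ) e L' := by
        by_cases hc : e.a.1 ∉ touched L' ∧ e.p.1 ∈ H.evr n A L'
        · obtain ⟨hc1, hc2⟩ := hc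
          refine (h1_le _ _ _).trans ?_
          unfold Hier.evr at hc2
          rw [hA, hLj] at hc2
          rcases halo_split σ w hj.le hc2 with h | ⟨ρ, hρ, h3, h4, h5⟩
          · rw [← hLj] at h
            have : h1 (H.z3r X n s t β) e L' = 1 := by
              refine h1_eq hc1 ?_
              unfold Hier.z3r Hier.evr
              rw [if_pos hXj]
              exact h
            omega
          · rw [← hLj] at h3 h4 h5
            rw [← hB] at hρ
            have h6 : h1 (H.z1r X n s t ρ) e L' = 1 := by
              refine h1_eq hc1 ?_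
              unfold Hier.z1r Hier.evr
              rw [if_pos ⟨hXj, h3, h4⟩]
              exact h5
            have h7 := Finset.single_le_sum (f := fun ρ => h1 (H.z1r X n s t ρ) e L')
              (fun _ _ => Nat.zero_le _) hρ
            simp only [h6] at h7
            omega
        · unfold h1 at *
          rw [if_neg hc]
          omega
      -- the second summand
      have c2 : h2 (H.eva n t A) e L' ≤ h2 (H.z3a X n s t β) e L' +
          ∑ ρ ∈ B, (h2 (H.z1a X n s t ρ) e L' + ((if ρ ∈ touched (e :: L') then 1 else 0) -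
            (if ρ ∈ touched L' then 1 else 0))) := by
        by_cases hc : e.a ∉ known e.b L' ∧ S.cc e.b e.p ≠ none ∧
            ∃ y, e.r = some y ∧ y.2.1 ∈ H.eva n t A L' e.b e.a e.p
        · obtain ⟨hc1, hc2, y, hy, hc3⟩ := hc
          refine (h2_le _ _ _).trans ?_
          -- it is enough that one summand is one
          have hz3 : y.2.1 ∈ H.eva n t (H.big s t β L') L' e.b e.a e.p →
              1 ≤ h2 (H.z3a X n s t β) e L' := by
            intro h
            refine (h2_eq hc1 hc2 hy ?_).ge
            unfold Hier.z3a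
            rw [if_pos hXj]
            exact h
          have hz1 : ∀ ρ ∈ B, ρ ∈ H.roots t L' → (H.part t L' ρ).card < s →
              y.2.1 ∈ H.eva n t (H.part t L' ρ) L' e.b e.a e.p →
              1 ≤ ∑ ρ ∈ B, (h2 (H.z1a X n s t ρ) e L' +
                ((if ρ ∈ touched (e :: L') then 1 else 0) -
                  (if ρ ∈ touched L' then 1 else 0))) := by
            intro ρ hρ h3 h4 h5
            have h6 : h2 (H.z1a X n s t ρ) e L' = 1 := by
              refine h2_eq hc1 hc2 hy ?_
              unfold Hier.z1a
              rw [if_pos ⟨hXj, h3, h4⟩]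
              exact h5
            have h7 := Finset.single_le_sum (f := fun ρ => h2 (H.z1a X n s t ρ) e L' +
                ((if ρ ∈ touched (e :: L') then 1 else 0) -
                  (if ρ ∈ touched L' then 1 else 0)))
              (fun _ _ => Nat.zero_le _) hρ
            simp only [h6] at h7
            omega
          have hhalo : y.2.1 ∈ H.halo n L' (A ∩ touched L') →
              1 ≤ h2 (H.z3a X n s t β) e L' +
          ∑ ρ ∈ B, (h2 (H.z1a X n s t ρ) e L' + ((if ρ ∈ touched (e :: L') then 1 else 0) -
            (if ρ ∈ touched L' then 1 else 0))) := by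
            intro h
            rw [hA, hLj] at h
            rcases halo_split σ w hj.le h with h | ⟨ρ, hρ, h3, h4, h5⟩
            · rw [← hLj] at h
              exact (hz3 (halo_sub_eva H h)).trans (Nat.le_add_right _ _)
            · rw [← hLj] at h3 h4 h5
              rw [← hB] at hρ
              exact (hz1 ρ hρ h3 h4 (halo_sub_eva H h5)).trans (Nat.le_add_left _ _)
          by_cases hg : e.a.1 ∈ A ∧ H.ge t e.b e.p
          · unfold Hier.eva at hc3
            rw [if_pos hg] at hc3
            by_cases hta : e.a.1 ∈ touched L'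
            · have hta' := hta
              have hgA := hg.1
              rw [hLj] at hta'
              rw [hA] at hgA
              rcases split σ w hj.le hgA hta' with h | ⟨h3, h4, h5⟩
              · rw [← hLj] at h
                refine (hz3 ?_).trans (Nat.le_add_right _ _)
                unfold Hier.eva
                rw [if_pos ⟨h, hg.2⟩]
                exact hc3
              · rw [← hLj] at h3 h4 h5
                refine (hz1 _ ?_ h3 h4 ?_).trans (Nat.le_add_left _ _)
                · rw [hB]
                  exact root_mem σ w hgA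
                · unfold Hier.eva
                  rw [if_pos ⟨h5, hg.2⟩]
                  exact hc3
            · -- a new root
              have hroot : e.a.1 ∈ B := by
                have h3 : H.root t (run F σ w k) e.a.1 = e.a.1 := by
                  have h4 : e.a.1 ∈ touched (e :: L') := mem_touched_cons.2 (Or.inr (Or.inl rfl))
                  rw [(H.stable_suffix (t := t) hs h4).2.2, H.root_cons,
                    if_neg fun h' => (disc_iff.1 h').2.1 rfl, (H.not_touched hta).2.2]
                have h5 := hg.1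
                rw [hA] at h5
                have h6 := root_mem σ w h5
                rw [h3] at h6
                rw [hB]
                exact h6
              have h7 := Finset.single_le_sum (f := fun ρ => h2 (H.z1a X n s t ρ) e L' +
                ((if ρ ∈ touched (e :: L') then 1 else 0) -
                  (if ρ ∈ touched L' then 1 else 0)))
                (fun _ _ => Nat.zero_le _) hroot
              have h4 : e.a.1 ∈ touched (e :: L') := mem_touched_cons.2 (Or.inr (Or.inl rfl))
              simp only [if_pos h4, if_neg hta] at h7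
              omega
          · unfold Hier.eva at hc3
            rw [if_neg hg] at hc3
            exact hhalo hc3
        · unfold h2 at *
          rw [if_neg hc]
          omega
      have c3 : ∑ ρ ∈ B, (hits (H.z1r X n s t ρ) (H.z1a X n s t ρ) (e :: L') +
          (if ρ ∈ touched (e :: L') then 1 else 0)) =
          ∑ ρ ∈ B, (hits (H.z1r X n s t ρ) (H.z1a X n s t ρ) L' +
            (if ρ ∈ touched L' then 1 else 0)) +
          ∑ ρ ∈ B, h1 (H.z1r X n s t ρ) e L' +
          ∑ ρ ∈ B, (h2 (H.z1a X n s t ρ) e L' + ((if ρ ∈ touched (e :: L') then 1 else 0) -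
            (if ρ ∈ touched L' then 1 else 0))) := by
        rw [← Finset.sum_add_distrib, ← Finset.sum_add_distrib]
        refine Finset.sum_congr rfl fun ρ _ => ?_
        rw [hits_cons]
        have : (if ρ ∈ touched L' then 1 else 0) ≤ (if ρ ∈ touched (e :: L') then 1 else 0) := by
          by_cases h : ρ ∈ touched L'
          · rw [if_pos h, if_pos (touched_mono e L' h)]
          · rw [if_neg h]
            exact Nat.zero_le _
        omega
      rw [c3]
      omega
  have h1 := key _ List.suffix_rfl
  rw [hA] at h1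
  refine h1.trans (Nat.add_le_add_left ?_ _)
  rw [hB]
  refine Finset.sum_le_sum fun ρ _ => Nat.add_le_add_left ?_ _
  split <;> omega

end

end Pool.Agent.AcyAd
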