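import Pool.Agent.AcyAd.Targets5
import Pool.Agent.AcyTest.Targets

/-!
# MP_08c6cd_lc, fully adaptive testers: the theorem from the targets
-/

namespace Pool.Agent.AcyAd

open scoped Classical
open Pool.Agent.AcyTest

noncomputable section

/-- The theorem. -/
def T_ADAPT : Prop := ∀ d : ℕ, 2 ≤ d → ∀ δ : ℝ, 0 < δ → ∃ ε₀ : ℝ, 0 < ε₀ ∧ ∃ n₀ : ℕ,
  ∀ n ≥ n₀, ∀ r q : ℕ, ∀ ε : ℝ, 0 < ε → ε ≤ ε₀ →
    ∀ T : Tester n d r q, T.IsTester ε → (n : ℝ) ^ (1 - δ) < q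

namespace FIN_

/-- A digraph has at least as many out-slots as edges. -/
theorem edges_le {w : ℕ} (G : DG (Fin w) 2) :
    Set.ncard {p : Fin w × Fin w | G.E p.1 p.2} ≤
      Nat.card {y : Fin w × Fin 2 // G.out y.1 y.2 ≠ none} := by
  have hs : ∀ y : {y : Fin w × Fin 2 // G.out y.1 y.2 ≠ none},
      ∃ v, G.out y.1.1 y.1.2 = some v := by
    intro y
    exact Option.ne_none_iff_exists'.1 y.2
  choose g hg using hs
  have hsub : {p : Fin w × Fin w | G.E p.1 p.2} ⊆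
      Set.range fun y : {y : Fin w × Fin 2 // G.out y.1 y.2 ≠ none} => (y.1.1, g y) := by
    rintro ⟨u, v⟩ ⟨i, hi⟩
    have hi' : G.out u i = some v := hi
    have hne : G.out u i ≠ none := by rw [hi']; exact Option.some_ne_none v
    refine ⟨⟨(u, i), hne⟩, ?_⟩
    have h1 : G.out u i = some (g ⟨(u, i), hne⟩) := hg ⟨(u, i), hne⟩
    have h2 : v = g ⟨(u, i), hne⟩ := Option.some.inj (hi'.symm.trans h1)
    exact Prod.ext rfl h2.symm
  calc Set.ncard {p : Fin w × Fin w | G.E p.1 p.2}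
      ≤ Set.ncard (Set.range fun y : {y : Fin w × Fin 2 // G.out y.1 y.2 ≠ none} =>
        (y.1.1, g y)) := Set.ncard_le_ncard hsub (Set.toFinite _)
    _ ≤ _ := by
      rw [← Set.image_univ]
      refine (Set.ncard_image_le (Set.toFinite _)).trans ?_
      rw [Set.ncard_univ]

theorem acy_false {V : Type} : AcyR (fun _ _ : V => False) := by
  intro v hv
  obtain ⟨_, h, _⟩ := Relation.TransGen.head'_iff.1 hv
  exact h

end FIN_

open FIN_

theorem tFIN (hEX : T_EX) (hREL : T_REL) (hLOW : T_LOW) (hTL : T_TL) (hCARD : T_CARD)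
    (hCSZ : T_CSZ) (hFXE : T_FXE) (hIB : T_IB) (hIC : T_IC) (hIM : T_IM) (hIP : T_IP) (hIF : T_IF)
    (hFFX : T_FFX) (hTW : T_TW) (hIACY : T_IACY) (hIFD : T_IFD) (hPARX : T_PARX) (hASY : T_ASY) :
    T_ADAPT := by
  intro d hd δ₀ hδ₀
  obtain ⟨c₀, hc₀, N₀, hE⟩ := hEX
  have hd' : (2 : ℝ) ≤ d := by exact_mod_cast hd
  obtain ⟨δ, hδdef⟩ : ∃ δ : ℝ, δ = min δ₀ 1 := ⟨_, rfl⟩
  have hδ : 0 < δ := by rw [hδdef]; exact lt_min hδ₀ one_pos
  have hδ1 : δ ≤ 1 := by rw [hδdef]; exact min_le_right _ _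
  have hδδ₀ : δ ≤ δ₀ := by rw [hδdef]; exact min_le_left _ _
  obtain ⟨R, hRdef⟩ : ∃ R : ℕ, R = ⌈10 / δ⌉₊ := ⟨_, rfl⟩
  have hR10 : 10 ≤ δ * R := by
    have h1 : 10 / δ ≤ (R : ℝ) := by rw [hRdef]; exact Nat.le_ceil _
    rw [div_le_iff₀ hδ] at h1
    linarith
  have hR : 1 ≤ R := by
    by_contra hcon
    have : R = 0 := by omega
    rw [this] at hR10
    norm_num at hR10
  obtain ⟨K0, hK0⟩ : ∃ K0 : ℕ, 12 * (R + 6) = K0 := ⟨_, rfl⟩
  obtain ⟨cp, hcp⟩ : ∃ cp : ℕ, cp = 8 * (K0 + 45) ^ 3 := ⟨_, rfl⟩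
  have hcp1 : 1 ≤ cp := by
    rw [hcp]
    have : 0 < (K0 + 45) ^ 3 := by positivity
    omega
  obtain ⟨th, hth0, hthm, hAS⟩ := hASY R δ c₀ K0 cp hR hδ hδ1 hR10 hc₀ hK0 hcp1
  obtain ⟨n₀, hn₀⟩ := hAS N₀
  obtain ⟨D, hD⟩ : ∃ D : ℕ, D = th R + 2 := ⟨_, rfl⟩
  have hDpos : (0 : ℝ) < D := by
    rw [hD]
    positivity
  refine ⟨1 / (12800 * D * 3 ^ R * d), by positivity, max n₀ 1, ?_⟩
  intro n hn r q₀ ε hε hε₀ Te hTe
  by_contra hcon
  push Not at hcon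
  obtain ⟨T, M, w, U, a, b, h, h5T, h2M, hN₀w, h1w, hNn, hnN, hT4, hN12, hqU, hn1, hU1, hh1, hU2,
    hUT, hnuU, hUh, hUd, hg1, hg2, ha2, hb2, hab, hbM, hMab, hBa, hbB⟩ :=
    hn₀ n ((le_max_left _ _).trans hn)
  have hn1' : 1 ≤ n := (le_max_right _ _).trans hn
  have hnR : (1 : ℝ) ≤ n := by exact_mod_cast hn1'
  -- the base graph
  obtain ⟨E, hE1, hE2, hE3, hE4, hE5⟩ := hE w hN₀w
  obtain ⟨G, hG⟩ := hREL (Fin w) 2 E hE1 hE2 (fun v hv => hE3 v v hv hv)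
  have hGE : G.E = E := by
    funext u v
    exact propext (hG u v)
  have hcyc : LongCyc G.und ⌊c₀ * Real.log w⌋₊ := by
    unfold DG.und
    rw [hGE]
    exact hE4
  have hfas : FasGe G.E ((w : ℝ) / 200) := by rw [hGE]; exact hE5
  have hno2 : ∀ u v, G.E u v → ¬ G.E v u := by rw [hGE]; exact hE3
  have hedg : w ≤ 200 * Nat.card {y : Fin w × Fin 2 // G.out y.1 y.2 ≠ none} := by
    have h1 := hfas _ acy_false
    have h2 : {p : Fin w × Fin w | G.E p.1 p.2 ∧ ¬ False} = {p : Fin w × Fin w | G.E p.1 p.2} := by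
      ext p
      simp
    rw [h2] at h1
    have h3 : ((Set.ncard {p : Fin w × Fin w | G.E p.1 p.2} : ℕ) : ℝ) ≤
      ((Nat.card {y : Fin w × Fin 2 // G.out y.1 y.2 ≠ none} : ℕ) : ℝ) := by
      exact_mod_cast edges_le G
    have h4 : (w : ℝ) ≤ 200 * ((Nat.card {y : Fin w × Fin 2 // G.out y.1 y.2 ≠ none} : ℕ) : ℝ) := by
      linarith
    exact_mod_cast h4
  -- the data
  obtain ⟨dd, hdd⟩ : ∃ dd : Dat, dd = (⟨R, T, M, w, th, G, ⌊c₀ * Real.log w⌋₊, hR, h5T, h2M, h1w,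
    hth0, hthm, hcyc, hno2, hedg⟩ : Dat) := ⟨_, rfl⟩
  have hc : dd.Card := hCARD dd
  subst hdd
  obtain ⟨FA, hFA⟩ := hFXE _ hc (finRotate M) (by
    intro j
    have h1 : (finRotate M j).1 = (j.1 + 1) % M := by
      obtain ⟨m, rfl⟩ : ∃ m, M = m + 1 := ⟨M - 1, by omega⟩
      rw [finRotate_apply, Fin.val_add]
      simp
    show (finRotate M j).1 = 0 ↔ j.1 + 1 = M
    rw [h1]
    have hj := j.2
    change j.1 < M at hj
    constructor
    · intro h2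
      by_contra h3
      rw [Nat.mod_eq_of_lt (by omega)] at h2
      omega
    · intro h2
      rw [h2, Nat.mod_self])
  obtain ⟨f, hf⟩ := hFFX M a b ha2 hb2 hab hbM
  obtain ⟨FF, hFF⟩ := hFXE _ hc f (by
    intro j
    have hj : j.1 < M := j.2
    have h1 := hf j
    show (f j).1 = 0 ↔ j.1 + 1 = M
    rw [h1]
    unfold Dat.ff
    split_ifs with h2 h3
    · constructor
      · intro h4
        rw [Nat.mod_eq_of_lt (by omega)] at h4
        omega
      · intro h4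
        omega
    · constructor
      · intro h4
        rw [Nat.mod_eq_of_lt (by omega)] at h4
        omega
      · intro h4
        omega
    · constructor
      · intro h4
        by_contra h5
        rw [Nat.mod_eq_of_lt (by omega)] at h4
        omega
      · intro h4
        rw [h4, Nat.mod_self])
  have hN : Fintype.card (Dat.sys _ hc).V = (3 * T) ^ R * (M * w) := by
    rw [← (Dat.hier _ hc FA hFA hIB hIC hIM hCSZ hIP hIF).nb_zero]
    rfl
  -- the parameters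
  obtain ⟨q, hqdef⟩ : ∃ q : ℕ, q = ⌊(n : ℝ) ^ (1 - δ)⌋₊ := ⟨_, rfl⟩
  have hq1 : 1 ≤ q := by
    rw [hqdef]
    exact Nat.le_floor (by exact_mod_cast hn1)
  have hqle : (q : ℝ) ≤ (n : ℝ) ^ (1 - δ) := by
    rw [hqdef]
    exact Nat.floor_le (by positivity)
  have hq₀q : q₀ ≤ q := by
    rw [hqdef]
    refine Nat.le_floor (hcon.trans ?_)
    exact Real.rpow_le_rpow_of_exponent_le hnR (by linarith)
  have hqT : q * U ^ (4 * R) ≤ T ^ R := by
    have h1 : (q : ℝ) * (U : ℝ) ^ (4 * R) ≤ (T : ℝ) ^ R :=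
      (mul_le_mul_of_nonneg_right hqle (by positivity)).trans hqU
    exact_mod_cast h1
  obtain ⟨P, hPh, hPn⟩ := hPARX (Dat.sys _ hc) FA
    (Dat.hier _ hc FA hFA hIB hIC hIM hCSZ hIP hIF) q U K0 cp h hq1 (by omega) hcp.symm.le hh1
    hUh (by rw [hN]; exact hUd) (by
      show (3 * T) ^ 4 ≤ (3 * T) ^ (R - R) * (M * w)
      rw [Nat.sub_self, pow_zero, one_mul]
      exact hT4) (by rw [hN]; exact hN12) hqT (by rw [hN]; exact hU1) hU2 hUT hnuU hg2
  -- the twist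
  obtain ⟨W⟩ := hTW _ hc FA FF hFA hIB hIC hIM hCSZ hIP hIF a b
    (P.n' + P.h (R - 1) + 1) f ha2 hb2 hab hbM hf (by rw [hPn, hPh]; exact hBa)
    (by rw [hPn, hPh]; exact hbB) hFF
  have hlow := hLOW (Dat.sys _ hc) FA FF (Dat.hier _ hc FA hFA hIB hIC hIM hCSZ hIP hIF) q
    (P.n' + P.h (R - 1) + 1) P W le_rfl (by rw [hPn, hPh]; exact hg1)
  -- the vertices
  obtain ⟨s, hs⟩ : ∃ s : ℕ, s = n - 2 * D * ((3 * T) ^ R * (M * w)) := ⟨_, rfl⟩
  have hcardW : Nat.card (GV (Dat.sys _ hc) s) = n := by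
    have h1 : Nat.card (GV (Dat.sys _ hc) s) =
        Nat.card (Dat.sys _ hc).V * (2 * D) + s := by
      rw [Nat.card_sum, Nat.card_prod, Nat.card_prod, Nat.card_eq_fintype_card (α := Bool),
        Fintype.card_bool, Nat.card_eq_fintype_card (α := Fin s), Fintype.card_fin,
        Nat.card_eq_fintype_card (α := Fin _), Fintype.card_fin, hD]
      rfl
    rw [h1, Nat.card_eq_fintype_card, hN, hs, hD]
    rw [mul_comm ((3 * T) ^ R * (M * w)) _]
    exact Nat.add_sub_cancel' hNn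
  obtain ⟨π⟩ : Nonempty (Fin n ≃ GV (Dat.sys _ hc) s) := by
    rw [← hcardW]
    exact ⟨(Finite.equivFin _).symm⟩
  -- the tester
  obtain ⟨Te', hTe'⟩ : ∃ Te' : Tester n d r q, Te'.IsTester ε :=
    ⟨{ ι := Te.ι, fin := Te.fin, alg := Te.alg, w := Te.w, w_nonneg := Te.w_nonneg,
       w_sum := Te.w_sum, cost_le := fun i G => (Te.cost_le i G).trans hq₀q }, hTe⟩
  refine hTL (Dat.sys _ hc) FA FF n s d r q π ε Te' ?_ hd (hIACY _ hc FA hFA) ?_ hlow hTe'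
  · have e1 : 0 < 3 * T := by omega
    have e2 : 0 < M := by omega
    have e3 : 0 < w := by omega
    have e4 : 0 < th R + 2 := by omega
    exact ⟨((fun _ => ⟨0, e1⟩, ⟨0, e2⟩, ⟨0, e3⟩), ⟨0, e4⟩)⟩
  · refine hIFD _ hc FF a b f ((w : ℝ) / 200) ε n s d π ha2 hb2 hab hbM hf hFF hfas hd ?_
    obtain ⟨m, hm⟩ : ∃ m : ℕ, m = (b - a) / 2 := ⟨_, rfl⟩
    have hm1 : 1 ≤ m := by omega
    show ε * d * n < ((T ^ R * ((b - a) / 2) : ℕ) : ℝ) * ((w : ℝ) / 200) / 2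
    rw [← hm]
    have hM : M = 4 * m := by omega
    have h1 : (n : ℝ) ≤ 16 * D * 3 ^ R * ((T : ℝ) ^ R * m * w) := by
      have h2 : (n : ℝ) ≤ ((4 * (th R + 2) * ((3 * T) ^ R * (M * w)) : ℕ) : ℝ) := by
        exact_mod_cast hnN
      refine h2.trans (le_of_eq ?_)
      rw [hM, hD]
      push_cast
      rw [mul_pow]
      ring
    have h3 : ε * d ≤ 1 / (12800 * D * 3 ^ R) := by
      calc ε * d ≤ 1 / (12800 * D * 3 ^ R * d) * d :=
            mul_le_mul_of_nonneg_right hε₀ (by linarith)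
        _ = 1 / (12800 * D * 3 ^ R) := by field_simp
    have h4 : 0 < (T : ℝ) ^ R * m * w := by
      have : (0 : ℝ) < T := by exact_mod_cast (by omega : 0 < T)
      have : (0 : ℝ) < m := by exact_mod_cast hm1
      have : (0 : ℝ) < w := by exact_mod_cast h1w
      positivity
    calc ε * d * n ≤ 1 / (12800 * D * 3 ^ R) * (16 * D * 3 ^ R * ((T : ℝ) ^ R * m * w)) :=
          mul_le_mul h3 h1 (by positivity) (by positivity)
      _ = (T : ℝ) ^ R * m * w / 800 := by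
          field_simp
          ring
      _ < (T : ℝ) ^ R * m * w / 400 := by linarith
      _ = ((T ^ R * m : ℕ) : ℝ) * ((w : ℝ) / 200) / 2 := by
          push_cast
          ring

end

end Pool.Agent.AcyAd
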