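import Pool.Agent.AcyAd.Hier

/-!
# MP_08c6cd_lc, fully adaptive testers: basic facts on forests, blocks and near addresses
-/

namespace Pool.Agent.AcyAd

open scoped Classical
open Pool.Agent.AcyTest

noncomputable section

variable {S : Sys} {F : Fx S}

namespace Hier

variable (H : Hier S F)

theorem ge_mono {t t' : ℕ} (h : t ≤ t') {b : Bool} {y : S.Sl} (hg : H.ge t' b y) : H.ge t b y := by
  rcases hg with ⟨κ, h1, h2⟩ | ⟨h1, h2⟩
  · exact Or.inl ⟨κ, h1, h.trans h2⟩
  · exact Or.inr ⟨h1, h.trans h2⟩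

theorem ge_th {t : ℕ} {b : Bool} {y : S.Sl} (hg : H.ge t b y) : H.th t ≤ y.2 := by
  rcases hg with ⟨κ, h1, h2⟩ | ⟨h1, h2⟩
  · exact (H.th_mono h2).trans (H.cls_th b y κ h1)
  · exact (H.th_mono h2).trans (H.fx_th b y h1)

theorem ge_R {b : Bool} {y : S.Sl} (hg : H.ge H.R b y) : F.fx b y ≠ none := by
  rcases hg with ⟨κ, _, h2⟩ | ⟨h1, _⟩
  · exact absurd (H.ty_lt κ) (by omega)
  · exact h1

/-- A pair of type at least `t` stays in its block of level `t`. -/
theorem ge_blk {t : ℕ} {b : Bool} {y y' : S.Sl} (w : World S) (hg : H.ge t b y)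
    (hm : w.mt F b y = some y') : H.blk t y.1 = H.blk t y'.1 ∧ H.blk t y.1 ≠ none := by
  rcases hg with ⟨κ, h1, h2⟩ | ⟨h1, h2⟩
  · have h3 := w.mt_cc hm
    rw [h1] at h3
    have h4 := H.cls_blk b (!b) y y' κ h1 h3
    exact H.blk_down h2 (H.ty_lt κ).le h4.2 h4.1
  · rw [w.mt_none (F.cc_none h1)] at hm
    have h3 := H.fx_blk hm
    exact H.blk_down h2 le_rfl h3.1 h3.2

/-- The layers of a pair of type exactly `t`. -/
theorem ge_step {t : ℕ} (ht : t < H.R) {b : Bool} {y y' : S.Sl} (w : World S) (hg : H.ge t b y)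
    (hn : ¬ H.ge (t + 1) b y) (hm : w.mt F b y = some y') :
    (b = true ∧ (H.lay t y'.1 = H.lay t y.1 + 1 ∨
      (H.lay t y.1 = H.T - 1 ∧ H.lay t y'.1 = 2 * H.T))) ∨
    (b = false ∧ (H.lay t y.1 = H.lay t y'.1 + 1 ∨
      (H.lay t y'.1 = H.T - 1 ∧ H.lay t y.1 = 2 * H.T))) := by
  rcases hg with ⟨κ, h1, h2⟩ | ⟨h1, h2⟩
  · have h3 := w.mt_cc hm
    rw [h1] at h3
    have h4 : H.ty κ = t := by
      by_contra h5
      exact hn (Or.inl ⟨κ, h1, by omega⟩)
    subst h4
    cases b
    · exact Or.inr ⟨rfl, H.cls_step y' y κ h3 h1⟩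
    · exact Or.inl ⟨rfl, H.cls_step y y' κ h1 h3⟩
  · exact absurd (Or.inr ⟨h1, by omega⟩) hn

/-- The layers of a pair of type more than `t`. -/
theorem ge_lay {t : ℕ} (ht : t < H.R) {b : Bool} {y y' : S.Sl} (w : World S)
    (hg : H.ge (t + 1) b y) (hm : w.mt F b y = some y') :
    H.lay t y.1 = H.lay t y'.1 ∧ H.T ≤ H.lay t y.1 ∧ H.lay t y.1 < 2 * H.T := by
  have h1 := H.ge_blk w hg hm
  have h2 := H.blk_nest t ht _ _ h1.1 h1.2
  have h3 := (H.blk_rich t ht y.1).1 h1.2
  exact ⟨h2.2, h3.2.1, h3.2.2⟩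

/-! ## Near addresses -/

theorem near_symm {n : ℕ} {x y : S.V} (h : H.near n x y) : H.near n y x := by
  obtain ⟨q, q', h1, h2, p, hp⟩ := h
  exact ⟨q', q, h2, h1, p.reverse, by rwa [SimpleGraph.Walk.length_reverse]⟩

theorem near_trans {n m : ℕ} {x y z : S.V} (h : H.near n x y) (h' : H.near m y z) :
    H.near (n + m) x z := by
  obtain ⟨q, q', h1, h2, p, hp⟩ := h
  obtain ⟨r, r', h3, h4, p', hp'⟩ := h'
  rw [h2] at h3
  have := Option.some.inj h3
  subst this
  refine ⟨q, r', h1, h4, p.append p', ?_⟩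
  rw [SimpleGraph.Walk.length_append]
  omega

theorem near_mono {n m : ℕ} (hn : n ≤ m) {x y : S.V} (h : H.near n x y) : H.near m x y := by
  obtain ⟨q, q', h1, h2, p, hp⟩ := h
  exact ⟨q, q', h1, h2, p, by omega⟩

theorem near_refl {x : S.V} (h : H.prj x ≠ none) (n : ℕ) : H.near n x x := by
  obtain ⟨q, hq⟩ := Option.ne_none_iff_exists'.1 h
  exact ⟨q, q, hq, hq, SimpleGraph.Walk.nil, by simp⟩

theorem fx_near {b : Bool} {y y' : S.Sl} (h : F.fx b y = some y') : H.near 1 y.1 y'.1 := by
  obtain ⟨q, q', h1, h2, h3⟩ := H.fx_adj b y y' h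
  exact ⟨q, q', h1, h2, h3.toWalk, by simp⟩

/-! ## Forests -/

theorem dep_cons (t : ℕ) (e : En S) (L : List (En S)) (v : S.V) : H.dep t (e :: L) v =
    if Disc L e v then (if H.ge t e.b e.p then H.dep t L e.a.1 + 1 else 0) else H.dep t L v := rfl

theorem root_cons (t : ℕ) (e : En S) (L : List (En S)) (v : S.V) : H.root t (e :: L) v =
    if Disc L e v then (if H.ge t e.b e.p then H.root t L e.a.1 else v) else H.root t L v := rfl

theorem disc_not_touched {L : List (En S)} {e : En S} {v : S.V} (h : Disc L e v) :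
    v ∉ touched L := (disc_iff.1 h).1

/-- Nothing changes for touched names. -/
theorem stable {t : ℕ} {e : En S} {L : List (En S)} {v : S.V} (h : v ∈ touched L) :
    par (e :: L) v = par L v ∧ H.dep t (e :: L) v = H.dep t L v ∧
      H.root t (e :: L) v = H.root t L v := by
  have h1 : ¬ Disc L e v := fun h' => (disc_not_touched h') h
  rw [par_cons, dep_cons, root_cons, if_neg h1, if_neg h1, if_neg h1]
  exact ⟨rfl, rfl, rfl⟩

theorem stable_suffix {t : ℕ} {L' L : List (En S)} (hs : L' <:+ L) {v : S.V}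
    (h : v ∈ touched L') : par L v = par L' v ∧ H.dep t L v = H.dep t L' v ∧
      H.root t L v = H.root t L' v := by
  obtain ⟨M, rfl⟩ := hs
  induction M with
  | nil => exact ⟨rfl, rfl, rfl⟩
  | cons e M ih =>
    have h1 : v ∈ touched (M ++ L') := touched_suffix (List.suffix_append _ _) h
    have h2 := H.stable (t := t) (e := e) h1
    rw [List.cons_append]
    exact ⟨h2.1.trans ih.1, h2.2.1.trans ih.2.1, h2.2.2.trans ih.2.2⟩

theorem not_touched {t : ℕ} {L : List (En S)} {v : S.V} (h : v ∉ touched L) :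
    par L v = v ∧ H.dep t L v = 0 ∧ H.root t L v = v := by
  induction L with
  | nil => exact ⟨rfl, rfl, rfl⟩
  | cons e L ih =>
    have h1 : v ∉ touched L := fun h' => h (touched_mono e L h')
    have h2 : ¬ Disc L e v := fun h' => h (disc_touched h')
    rw [par_cons, dep_cons, root_cons, if_neg h2, if_neg h2, if_neg h2]
    exact ih h1

/-- A name with positive depth was discovered by an entry of type at least `t`, from its parent. -/
theorem dep_pos {t : ℕ} {L : List (En S)} {v : S.V} (h : 0 < H.dep t L v) :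
    ∃ e L', e :: L' <:+ L ∧ Disc L' e v ∧ H.ge t e.b e.p ∧ par L v = e.a.1 ∧
      H.dep t L v = H.dep t L' e.a.1 + 1 ∧ H.root t L v = H.root t L' e.a.1 := by
  induction L with
  | nil => simp [dep] at h
  | cons e L ih =>
    by_cases hd : Disc L e v
    · rw [dep_cons, if_pos hd] at h
      have hg : H.ge t e.b e.p := by
        by_contra hg
        rw [if_neg hg] at h
        omega
      refine ⟨e, L, List.suffix_rfl, hd, hg, ?_, ?_, ?_⟩
      · rw [par_cons, if_pos hd]
      · rw [dep_cons, if_pos hd, if_pos hg]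
      · rw [root_cons, if_pos hd, if_pos hg]
    · rw [dep_cons, if_neg hd] at h
      obtain ⟨e', L', h1, h2, h3, h4, h5, h6⟩ := ih h
      refine ⟨e', L', h1.trans (List.suffix_cons _ _), h2, h3, ?_, ?_, ?_⟩
      · rw [par_cons, if_neg hd, h4]
      · rw [dep_cons, if_neg hd, h5]
      · rw [root_cons, if_neg hd, h6]

/-- Conversely. -/
theorem disc_dep {t : ℕ} {L' L : List (En S)} {e : En S} {v : S.V} (hs : e :: L' <:+ L)
    (hd : Disc L' e v) (hg : H.ge t e.b e.p) :
    par L v = e.a.1 ∧ H.dep t L v = H.dep t L e.a.1 + 1 ∧ H.root t L v = H.root t L e.a.1 := by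
  have h1 := H.stable_suffix (t := t) hs (disc_touched hd)
  have h2 := H.stable_suffix (t := t) hs (disc_par_touched (L := L') (e := e))
  have h3 : ¬ Disc L' e e.a.1 := fun h' => (disc_iff.1 h').2.1 rfl
  rw [h1.1, h1.2.1, h1.2.2, h2.2.1, h2.2.2, par_cons, dep_cons, root_cons, if_pos hd, if_pos hd,
    if_pos hd, if_pos hg, if_pos hg, dep_cons, root_cons, if_neg h3, if_neg h3]
  exact ⟨rfl, rfl, rfl⟩

/-- The step to the parent. -/
theorem dep_par {t : ℕ} {L : List (En S)} {v : S.V} (h : 0 < H.dep t L v) :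
    H.dep t L v = H.dep t L (par L v) + 1 ∧ H.root t L v = H.root t L (par L v) ∧
      v ∈ touched L ∧ par L v ∈ touched L := by
  obtain ⟨e, L', h1, h2, h3, h4, h5, h6⟩ := H.dep_pos h
  have h7 := H.disc_dep h1 h2 h3
  rw [h4]
  exact ⟨h7.2.1, h7.2.2, touched_suffix h1 (disc_touched h2), touched_suffix h1 disc_par_touched⟩

theorem dep_anti {t t' : ℕ} (ht : t ≤ t') (L : List (En S)) (v : S.V) :
    H.dep t' L v ≤ H.dep t L v := by
  induction L generalizing v with
  | nil => exact le_rfl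
  | cons e L ih =>
    rw [dep_cons, dep_cons]
    by_cases hd : Disc L e v
    · rw [if_pos hd, if_pos hd]
      by_cases hg : H.ge t' e.b e.p
      · rw [if_pos hg, if_pos (H.ge_mono ht hg)]
        exact Nat.add_le_add_right (ih _) 1
      · rw [if_neg hg]
        exact Nat.zero_le _
    · rw [if_neg hd, if_neg hd]
      exact ih v

/-- Iterated parents. -/
theorem dep_iter {t : ℕ} {L : List (En S)} {v : S.V} {j : ℕ} (h : j ≤ H.dep t L v) :
    H.dep t L ((par L)^[j] v) + j = H.dep t L v ∧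
      H.root t L ((par L)^[j] v) = H.root t L v := by
  induction j with
  | zero => exact ⟨rfl, rfl⟩
  | succ j ih =>
    obtain ⟨h1, h2⟩ := ih (by omega)
    have h3 : 0 < H.dep t L ((par L)^[j] v) := by omega
    obtain ⟨h4, h5, _⟩ := H.dep_par h3
    rw [Function.iterate_succ_apply']
    exact ⟨by omega, by rw [← h5, h2]⟩

theorem iter_touched {L : List (En S)} {v : S.V} (h : v ∈ touched L) (j : ℕ) :
    (par L)^[j] v ∈ touched L := by
  induction j with
  | zero => exact h
  | succ j ih =>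
    rw [Function.iterate_succ_apply']
    exact par_mem ih

theorem root_of_dep {t : ℕ} {L : List (En S)} {v : S.V} (h : H.dep t L v = 0) :
    H.root t L v = v := by
  induction L with
  | nil => rfl
  | cons e L ih =>
    rw [dep_cons] at h
    rw [root_cons]
    by_cases hd : Disc L e v
    · rw [if_pos hd] at h ⊢
      by_cases hg : H.ge t e.b e.p
      · rw [if_pos hg] at h
        omega
      · rw [if_neg hg]
    · rw [if_neg hd] at h ⊢
      exact ih h

/-- The root is the iterated parent. -/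
theorem root_eq {t : ℕ} {L : List (En S)} {v : S.V} :
    H.root t L v = (par L)^[H.dep t L v] v ∧ H.dep t L (H.root t L v) = 0 := by
  have h1 := H.dep_iter (t := t) (L := L) (v := v) le_rfl
  have h2 : H.dep t L ((par L)^[H.dep t L v] v) = 0 := by omega
  have h3 := H.root_of_dep h2
  rw [← h1.2, h3]
  exact ⟨rfl, h2⟩

theorem root_touched {t : ℕ} {L : List (En S)} {v : S.V} (h : v ∈ touched L) :
    H.root t L v ∈ touched L := by
  rw [H.root_eq.1]
  exact iter_touched h _

theorem root_root {t : ℕ} {L : List (En S)} {v : S.V} :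
    H.root t L (H.root t L v) = H.root t L v := H.root_of_dep H.root_eq.2

theorem root_iff {t : ℕ} {L : List (En S)} {v : S.V} : H.root t L v = v ↔ H.dep t L v = 0 := by
  constructor
  · intro h
    have := H.root_eq (t := t) (L := L) (v := v)
    rw [h] at this
    exact this.2
  · exact H.root_of_dep

/-- The members of the tree of a touched name at an earlier time. -/
theorem part_suffix {t : ℕ} {L' L : List (En S)} (hs : L' <:+ L) (ρ : S.V) :
    H.part t L' ρ = H.part t L ρ ∩ touched L' := by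
  ext v
  simp only [part, Finset.mem_filter, Finset.mem_inter]
  constructor
  · rintro ⟨h1, h2⟩
    have h3 := H.stable_suffix (t := t) hs h1
    exact ⟨⟨touched_suffix hs h1, by rw [h3.2.2, h2]⟩, h1⟩
  · rintro ⟨⟨_, h2⟩, h1⟩
    have h3 := H.stable_suffix (t := t) hs h1
    exact ⟨h1, by rw [← h3.2.2, h2]⟩

theorem mem_part {t : ℕ} {L : List (En S)} {v ρ : S.V} :
    v ∈ H.part t L ρ ↔ v ∈ touched L ∧ H.root t L v = ρ := by
  rw [part, Finset.mem_filter]

theorem mem_roots {t : ℕ} {L : List (En S)} {v : S.V} :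
    v ∈ H.roots t L ↔ v ∈ touched L ∧ H.root t L v = v := by
  rw [roots, Finset.mem_filter]

/-- Names in the same tree of level `t` have their addresses in the same block of level `t`. -/
theorem part_blk (σ : Player S) (w : World S) (k : ℕ) {t : ℕ} {v : S.V}
    (h : 0 < H.dep t (run F σ w k) v) :
    H.blk t (w.lam v) = H.blk t (w.lam (par (run F σ w k) v)) ∧ H.blk t (w.lam v) ≠ none := by
  obtain ⟨e, L', h1, h2, h3, h4, _⟩ := H.dep_pos h
  obtain ⟨_, h6, y, hy, rfl⟩ := disc_iff.1 h2
  have he : e ∈ run F σ w k := h1.subset List.mem_cons_self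
  obtain ⟨h7, h8, _⟩ := run_r σ w he hy
  have h9 := H.ge_blk w h3 h7
  have h10 := (run_mem σ w he).1
  rw [h4]
  have h11 : e.p.1 = w.lam e.a.1 := by rw [h10]; rfl
  have h12 : y.2.1 = w.lam y.1.1 := by rw [h8]; rfl
  rw [← h11, ← h12]
  exact ⟨h9.1.symm, by rw [← h9.1]; exact h9.2⟩

theorem root_blk (σ : Player S) (w : World S) (k : ℕ) {t : ℕ} (v : S.V) :
    H.blk t (w.lam v) = H.blk t (w.lam (H.root t (run F σ w k) v)) := by
  rw [H.root_eq.1]
  suffices h : ∀ j ≤ H.dep t (run F σ w k) v, H.blk t (w.lam v) =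
      H.blk t (w.lam ((par (run F σ w k))^[j] v)) from h _ le_rfl
  intro j hj
  induction j with
  | zero => rfl
  | succ j ih =>
    rw [ih (by omega), Function.iterate_succ_apply']
    have h1 := H.dep_iter (t := t) (L := run F σ w k) (v := v) (j := j) (by omega)
    exact (H.part_blk σ w k (by omega)).1

end Hier

end

end Pool.Agent.AcyAd
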