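import Pool.Agent.AcyAd.Forest

/-!
# MP_08c6cd_lc, fully adaptive testers: twists, and the digraph of a world
-/

namespace Pool.Agent.AcyAd

open scoped Classical
open Pool.Agent.AcyTest

noncomputable section

variable {S : Sys}

/-! ## Twists -/

/-- A twist between two systems of fixed pairs: the permutations `psi n` preserve the projection and
the classes of the slots, and turn the fixed pairs of `FA` into those of `FF`, with `n` increasing by
one along each edge. -/
structure Twist (FA FF : Fx S) (H : Hier S FA) (B : ℕ) where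
  psi : ℤ → Equiv.Perm S.V
  ori : H.Q → H.Q → ℤ
  psi_zero : psi 0 = 1
  psi_prj : ∀ n x, H.prj (psi n x) = H.prj x
  psi_cc : ∀ n : ℤ, |n| ≤ B → ∀ b x r, S.cc b (psi n x, r) = S.cc b (x, r)
  psi_fx : ∀ n : ℤ, |n| ≤ B → |n + 1| ≤ B → ∀ x r y s, FA.fx true (x, r) = some (y, s) →
    FF.fx true (psi n x, r) = some (psi (n + 1) y, s)
  psi_none : ∀ n : ℤ, |n| ≤ B → ∀ b x r, FA.fx b (x, r) = none → FF.fx b (psi n x, r) = none
  ori_anti : ∀ q q', ori q' q = - ori q q'
  ori_fx : ∀ x r y s q q', FA.fx true (x, r) = some (y, s) → H.prj x = some q →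
    H.prj y = some q' → ori q q' = 1

/-- The potential `f` increases by one along the explored fixed pairs. -/
def PotFor {FA : Fx S} (H : Hier S FA) (B : ℕ) (L : List (En S)) (f : Option H.Q → ℤ) : Prop :=
  f none = 0 ∧ (∀ q, |f q| ≤ B) ∧ ∀ e ∈ L, FA.fx e.b e.p ≠ none → ∀ y, e.r = some y →
    f (H.prj y.2.1) = f (H.prj e.p.1) + (if e.b then 1 else -1)

/-- The permutation of the addresses given by a potential. -/
def Twist.phi {FA FF : Fx S} {H : Hier S FA} {B : ℕ} (W : Twist FA FF H B)
    (f : Option H.Q → ℤ) : Equiv.Perm S.V where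
  toFun x := W.psi (f (H.prj x)) x
  invFun x := (W.psi (f (H.prj x))).symm x
  left_inv x := by
    show (W.psi (f (H.prj (W.psi (f (H.prj x)) x)))).symm (W.psi (f (H.prj x)) x) = x
    rw [W.psi_prj, Equiv.symm_apply_apply]
  right_inv x := by
    have h : H.prj ((W.psi (f (H.prj x))).symm x) = H.prj x := by
      have := W.psi_prj (f (H.prj x)) ((W.psi (f (H.prj x))).symm x)
      rw [Equiv.apply_symm_apply] at this
      exact this.symm
    show W.psi (f (H.prj ((W.psi (f (H.prj x))).symm x))) ((W.psi (f (H.prj x))).symm x) = x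
    rw [h, Equiv.apply_symm_apply]

/-- The permutation of the slots of a class given by a permutation of the addresses. -/
def cltw (φ : Equiv.Perm S.V) (b : Bool) (κ : S.K) : Equiv.Perm (S.Cl b κ) :=
  if h : ∀ y, S.cc b y = some κ ↔
      S.cc b ((Equiv.prodCongr φ (Equiv.refl (Fin S.D))) y) = some κ then
    (Equiv.prodCongr φ (Equiv.refl (Fin S.D))).subtypeEquiv h else 1

/-- The world with permuted addresses. -/
def World.move (w : World S) (φ : Equiv.Perm S.V) : World S where
  lam := w.lam.trans φ
  rk := w.rk
  mu κ := (cltw φ true κ).symm.trans ((w.mu κ).trans (cltw φ false κ))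

/-! ## The digraph of a world -/

/-- The vertices: for each name, a chain for each direction; isolated vertices. -/
abbrev GV (S : Sys) (s : ℕ) : Type := (S.V × Bool × Fin S.D) ⊕ Fin s

/-- The next vertex in the out-chain, the previous one in the in-chain (towards larger slots). -/
def nxs {S : Sys} {s : ℕ} (v : S.V) (b : Bool) (i : Fin S.D) : Option (GV S s) :=
  if h : i.1 + 1 < S.D then some (.inl (v, b, ⟨i.1 + 1, h⟩)) else none

/-- The neighbour towards smaller slots; the two chains are joined at `0`. -/
def pvs {S : Sys} {s : ℕ} (v : S.V) (b : Bool) (i : Fin S.D) : GV S s :=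
  if i.1 = 0 then .inl (v, !b, i) else
    .inl (v, b, ⟨i.1 - 1, (Nat.sub_le _ _).trans_lt i.2⟩)

/-- The vertex of a name slot in direction `b`. -/
def exv {S : Sys} {s : ℕ} (b : Bool) (y : S.Sl) : GV S s := .inl (y.1, b, y.2)

/-- A list with at most two entries. -/
def two {X : Type} {d : ℕ} (a b : Option X) (i : Fin d) : Option X :=
  if i.1 = 0 then (if a.isSome then a else b) else if i.1 = 1 then (if a.isSome then b else none)
    else none

/-- The question needed to answer a query, if there is one. -/
def qask (S : Sys) (s d : ℕ) (x : Query (GV S s) d) : Option (Bool × S.Sl) :=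
  match x.2.1 with
  | .inl (v, b, i) => if x.1 = b then some (b, (v, i)) else none
  | .inr _ => none

/-- The answer to a query, given the answer to the question. -/
def qans (S : Sys) (s d : ℕ) (x : Query (GV S s) d) (z : Option S.Sl) : Option (GV S s) :=
  match x.2.1 with
  | .inl (v, b, i) => if x.1 = b then two (nxs v b i) (z.map (exv (!b))) x.2.2
      else two (some (pvs v b i)) none x.2.2
  | .inr _ => none

/-- The digraph of a world. -/
def IsGad {S : Sys} (F : Fx S) (w : World S) (s d : ℕ) (L : DG (GV S s) d) : Prop :=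
  ∀ x, L.ans x = qans S s d x (match qask S s d x with
    | some a => w.ask F a.1 a.2
    | none => none)

end

end Pool.Agent.AcyAd
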