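import Pool.Agent.AcyAd.Targets5

/-!
# MP_08c6cd_lc, fully adaptive testers: the lengths of the paths
-/

namespace Pool.Agent.AcyAd

open scoped Classical

noncomputable section

theorem tHCH : T_HCH := by
  intro N dd cp e hN hdd he hcp
  have hNpos : 0 < N := by linarith
  have hlogN : 0 < Real.log N := Real.log_pos hN
  have he' : (0 : ℝ) < e := by exact_mod_cast he
  have hcp' : (0 : ℝ) < cp := by exact_mod_cast hcp
  have hdd' : (0 : ℝ) < dd := by exact_mod_cast hdd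
  set G : ℝ := ((2 * dd + 1 : ℕ) : ℝ) with hG
  have hG3 : (3 : ℝ) ≤ G := by
    rw [hG]
    exact_mod_cast (by omega : 3 ≤ 2 * dd + 1)
  have hGpos : 0 < G := by linarith
  have hg1 : 1 ≤ Real.log G := by
    rw [Real.le_log_iff_exp_le hGpos]
    have := Real.exp_one_lt_d9
    linarith
  set g : ℝ := Real.log G with hg
  have hgpos : 0 < g := by linarith
  have hexpg : Real.exp g = G := Real.exp_log hGpos
  set q : ℝ := cp * Real.log N / (e * g) with hq
  have hqpos : 0 < q := by positivity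
  refine ⟨⌈q⌉₊, ?_, ?_, ?_, ?_⟩
  · exact Nat.one_le_iff_ne_zero.2 (Nat.pos_iff_ne_zero.1 (Nat.ceil_pos.2 hqpos))
  · have h1 : (⌈q⌉₊ : ℝ) ≤ q + 1 := (Nat.ceil_lt_add_one hqpos.le).le
    have h2 : q ≤ cp * Real.log N / e := by
      rw [hq]
      apply div_le_div_of_nonneg_left (by positivity) he'
      nlinarith
    linarith
  · have h1 : (⌈q⌉₊ : ℝ) ≤ q + 1 := (Nat.ceil_lt_add_one hqpos.le).le
    have h2 : G ^ ⌈q⌉₊ = Real.exp (⌈q⌉₊ * g) := by
      rw [Real.exp_nat_mul, hexpg]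
    have h3 : g * q = cp / e * Real.log N := by
      rw [hq]
      field_simp
    have h4 : (⌈q⌉₊ : ℝ) * g ≤ g + Real.log N * (cp / e) := by
      nlinarith [mul_le_mul_of_nonneg_right h1 hgpos.le]
    rw [h2, Real.rpow_def_of_pos hNpos]
    calc Real.exp (⌈q⌉₊ * g) ≤ Real.exp (g + Real.log N * (cp / e)) := Real.exp_le_exp.2 h4
      _ = G * Real.exp (Real.log N * (cp / e)) := by rw [Real.exp_add, hexpg]
  · have h1 : q ≤ (⌈q⌉₊ : ℝ) := Nat.le_ceil q
    have h2 : (dd : ℝ) / ((dd * (2 * dd + 1) ^ e : ℕ) : ℝ) = (G ^ e)⁻¹ := by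
      rw [hG]
      push_cast
      field_simp
    have h3 : (N : ℝ) ^ cp = Real.exp (cp * Real.log N) := by
      rw [Real.exp_nat_mul, Real.exp_log hNpos]
    have h4 : ((G ^ e)⁻¹) ^ ⌈q⌉₊ = (Real.exp (⌈q⌉₊ * (e * g)))⁻¹ := by
      rw [inv_pow, Real.exp_nat_mul, Real.exp_nat_mul, hexpg]
    rw [h2, h4, h3]
    apply inv_anti₀ (Real.exp_pos _)
    apply Real.exp_le_exp.2
    have h5 : q * (e * g) = cp * Real.log N := by
      rw [hq]
      field_simp
    have h6 : q * (e * g) ≤ (⌈q⌉₊ : ℝ) * (e * g) :=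
      mul_le_mul_of_nonneg_right h1 (by positivity)
    linarith

end

end Pool.Agent.AcyAd
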