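import Pool.Agent.AcyAd.Log

/-!
# MP_08c6cd_lc, fully adaptive testers: hierarchical systems, forests, counters
-/

namespace Pool.Agent.AcyAd

open scoped Classical
open Pool.Agent.AcyTest

noncomputable section

variable {S : Sys} {F : Fx S}

/-- A hierarchical system: `R` levels of nested chains with `3 T` layers; `blk t x` is the block of
level `t` of the address `x` (if there is one), `lay t x` its layer in this block; the random classes
have types `< R`, the fixed pairs have type `R`; slots of type `≥ t` have rank `≥ th t`. The fixed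
pairs project to the edges of a graph `GQ` without short cycles. -/
structure Hier (S : Sys) (F : Fx S) where
  R : ℕ
  T : ℕ
  ty : S.K → ℕ
  Bk : Type
  blk : ℕ → S.V → Option Bk
  lay : ℕ → S.V → ℕ
  th : ℕ → ℕ
  nb : ℕ → ℕ
  Q : Type
  prj : S.V → Option Q
  GQ : SimpleGraph Q
  g0 : ℕ
  nu : ℕ → ℕ
  R_pos : 1 ≤ R
  T_big : 5 ≤ T
  ty_lt : ∀ κ, ty κ < R
  th_mono : Monotone th
  th_D : th R ≤ S.D
  th_2 : ∀ t < R, th t + 2 ≤ S.D
  -- blocks
  blk_zero : ∀ x y, blk 0 x = blk 0 y ∧ blk 0 x ≠ none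
  blk_nest : ∀ t < R, ∀ x y, blk (t + 1) x = blk (t + 1) y → blk (t + 1) x ≠ none →
    blk t x = blk t y ∧ lay t x = lay t y
  blk_rich : ∀ t < R, ∀ x, blk (t + 1) x ≠ none ↔ blk t x ≠ none ∧ T ≤ lay t x ∧ lay t x < 2 * T
  blk_eq : ∀ t < R, ∀ x y, blk (t + 1) x ≠ none → blk t x = blk t y → lay t x = lay t y →
    blk (t + 1) x = blk (t + 1) y
  lay_lt : ∀ t < R, ∀ x, blk t x ≠ none → lay t x < 3 * T
  nb_zero : nb 0 = Fintype.card S.V
  nb_succ : ∀ t < R, nb t = 3 * T * nb (t + 1)
  nb_pos : 1 ≤ nb R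
  card_blk : ∀ t ≤ R, ∀ x, blk t x ≠ none → (Finset.univ.filter fun y => blk t y = blk t x).card = nb t
  card_lay : ∀ t < R, ∀ x, blk t x ≠ none → ∀ l < 3 * T,
    (Finset.univ.filter fun y => blk t y = blk t x ∧ lay t y = l).card = nb (t + 1)
  -- classes
  cls_blk : ∀ b b' y y' κ, S.cc b y = some κ → S.cc b' y' = some κ →
    blk (ty κ) y.1 ≠ none ∧ blk (ty κ) y.1 = blk (ty κ) y'.1
  cls_lay : ∀ b y y' κ, S.cc b y = some κ → S.cc b y' = some κ → lay (ty κ) y.1 = lay (ty κ) y'.1
  cls_step : ∀ y y' κ, S.cc true y = some κ → S.cc false y' = some κ →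
    lay (ty κ) y'.1 = lay (ty κ) y.1 + 1 ∨ (lay (ty κ) y.1 = T - 1 ∧ lay (ty κ) y'.1 = 2 * T)
  cls_th : ∀ b y κ, S.cc b y = some κ → th (ty κ) ≤ y.2
  cls_N : ∀ b y κ, S.cc b y = some κ → nb (ty κ + 1) ≤ 400 * S.N κ
  cls_num : ∀ b x, (Finset.univ.filter fun κ => x ∈ S.tgt b κ).card ≤ R + 2
  -- the slots of the addresses between the end layers
  mid_up : ∀ t < R, ∀ b x (r : Fin S.D), blk t x ≠ none → 1 ≤ lay t x → lay t x ≤ 3 * T - 2 →
    (r : ℕ) < th t → ∃ κ, ty κ < t ∧ ∀ x', blk t x' = blk t x → 1 ≤ lay t x' →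
      lay t x' ≤ 3 * T - 2 → S.cc b (x', r) = some κ
  mid_in : ∀ t < R, ∀ b x (r : Fin S.D), blk t x ≠ none → 1 ≤ lay t x → lay t x ≤ 3 * T - 2 →
    th t ≤ (r : ℕ) → (∃ κ, S.cc b (x, r) = some κ ∧ t ≤ ty κ) ∨ F.fx b (x, r) ≠ none
  -- the fixed pairs
  prj_blk : ∀ x, prj x = none ↔ blk R x = none
  prj_eq : ∀ x y, prj x ≠ none → prj x = prj y → blk R x = blk R y
  prj_adj : ∀ x y q q', prj x = some q → prj y = some q' → GQ.Adj q q' → blk R x = blk R y
  prj_reach : ∀ x y q q', prj x = some q → prj y = some q' → GQ.Reachable q q' → blk R x = blk R y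
  tgt_blk : ∀ x y b κ, blk R x ≠ none → blk R x = blk R y → (x ∈ S.tgt b κ ↔ y ∈ S.tgt b κ)
  fx_adj : ∀ b y y', F.fx b y = some y' → ∃ q q', prj y.1 = some q ∧ prj y'.1 = some q' ∧ GQ.Adj q q'
  fx_th : ∀ b y, F.fx b y ≠ none → th R ≤ y.2
  fx_inj : ∀ b b' x r r' y y', F.fx b (x, r) = some y → F.fx b' (x, r') = some y' →
    prj y.1 = prj y'.1 → b = b' ∧ r = r'
  long : LongCyc GQ g0
  nu_near : ∀ n x, (Finset.univ.filter fun y => ∃ q q', prj x = some q ∧ prj y = some q' ∧
    ∃ p : GQ.Walk q q', p.length ≤ n).card ≤ nu n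

namespace Hier

variable (H : Hier S F)

/-- The number of slots of rank at least `th t`. -/
def dd (t : ℕ) : ℕ := S.D - H.th t

/-- The slot `y` in direction `b` has type at least `t`. -/
def ge (t : ℕ) (b : Bool) (y : S.Sl) : Prop :=
  (∃ κ, S.cc b y = some κ ∧ t ≤ H.ty κ) ∨ (F.fx b y ≠ none ∧ t ≤ H.R)

/-- Addresses in the same block of level `R` whose projections have distance at most `n`. -/
def near (n : ℕ) (x y : S.V) : Prop :=
  ∃ q q', H.prj x = some q ∧ H.prj y = some q' ∧ ∃ p : H.GQ.Walk q q', p.length ≤ n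

/-- The number of consecutive discovery edges of type at least `t` above `v`. -/
def dep (t : ℕ) : List (En S) → S.V → ℕ
  | [], _ => 0
  | e :: L, v => if Disc L e v then (if H.ge t e.b e.p then dep t L e.a.1 + 1 else 0) else dep t L v

/-- The root of `v` in the forest of the discovery edges of type at least `t`. -/
def root (t : ℕ) : List (En S) → S.V → S.V
  | [], v => v
  | e :: L, v => if Disc L e v then (if H.ge t e.b e.p then root t L e.a.1 else v) else root t L v

/-- The tree with root `ρ` in the forest of level `t`. -/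
def part (t : ℕ) (L : List (En S)) (ρ : S.V) : Finset S.V :=
  (touched L).filter fun v => H.root t L v = ρ

/-- The roots of level `t`. -/
def roots (t : ℕ) (L : List (En S)) : Finset S.V := (touched L).filter fun v => H.root t L v = v

/-- Touched names which were not discovered by a fixed pair. -/
def land (L : List (En S)) : Finset S.V := H.roots H.R L

/-- The upper ends of the selected vertical paths of length `h` of the forest of level `t + 1`. -/
def top (t h : ℕ) (L : List (En S)) : Finset S.V :=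
  ((touched L).filter fun v => h ≤ H.dep (t + 1) L v ∧ h ∣ H.dep (t + 1) L v).image (par L)^[h]

/-- Touched names in the block `β` of level `t`. -/
def inb (t : ℕ) (β : H.Bk) (L : List (En S)) : Finset S.V :=
  (touched L).filter fun v => ∃ x, adr L v = some x ∧ H.blk t x = some β

/-- Touched names in the layer `l` of the block `β` of level `t`. -/
def inl (t : ℕ) (β : H.Bk) (l : ℕ) (L : List (En S)) : Finset S.V :=
  (touched L).filter fun v => ∃ x, adr L v = some x ∧ H.blk t x = some β ∧ H.lay t x = l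

/-- The members, in the block `β`, of the trees of level `t` with at least `s` members. -/
def big (s t : ℕ) (β : H.Bk) (L : List (En S)) : Finset S.V :=
  (H.inb t β L).filter fun v => s ≤ (H.part t L (H.root t L v)).card

/-- The set `A` of touched names lies in the block `β` of level `t` and is a union of trees of level
`t`. -/
def Sat (t : ℕ) (β : H.Bk) (L : List (En S)) (A : Finset S.V) : Prop :=
  A ⊆ H.inb t β L ∧ ∀ v ∈ A, H.part t L (H.root t L v) ⊆ A

/-- The addresses of the names in `A`, and the addresses near the landing names in `A`. -/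
def halo (n : ℕ) (L : List (En S)) (A : Finset S.V) : Finset S.V :=
  Finset.univ.filter fun x => ∃ v ∈ A, ∃ z, adr L v = some z ∧ (x = z ∨ (v ∈ H.land L ∧ H.near n x z))

/-- Explored addresses and addresses near landing names. -/
def spec (n : ℕ) (L : List (En S)) : Finset S.V := H.halo n L (touched L)

/-- Few touched names: in total, and in each layer of each block. -/
def XB (X : ℕ → ℕ) (L : List (En S)) : Prop :=
  (touched L).card ≤ X 0 ∧ ∀ t < H.R, ∀ β l, (H.inl t β l L).card ≤ X (t + 1)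

/-- The layers near `l`, near `T - 1` and near `2 T` of the block `β` of level `t`. -/
def win (h t : ℕ) (β : H.Bk) (l : ℕ) : Finset S.V :=
  Finset.univ.filter fun x => H.blk t x = some β ∧ ((H.lay t x ≤ l + h ∧ l ≤ H.lay t x + h) ∨
    (H.lay t x ≤ H.T + h ∧ H.T ≤ H.lay t x + h + 1) ∨
    (H.lay t x ≤ 2 * H.T + h ∧ 2 * H.T ≤ H.lay t x + h))

/-- Landing names in `A` which are near another landing name. -/
def clus (n : ℕ) (L : List (En S)) (A : Finset S.V) : Finset S.V :=
  (A ∩ H.land L).filter fun z => ∃ z' ∈ H.land L, z' ≠ z ∧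
    ∃ x x', adr L z = some x ∧ adr L z' = some x' ∧ H.near n x x'

/-- The number of new pairs of type at least `t` which touch `A` and end in touched names. -/
def spc (t : ℕ) (A : Finset S.V) : List (En S) → ℕ
  | [] => 0
  | e :: L => spc t A L + (if e.a ∉ known e.b L ∧ H.ge t e.b e.p ∧ ∃ y, e.r = some y ∧
      (y.1.1 ∈ touched L ∨ y.1.1 = e.a.1) ∧ (e.a.1 ∈ A ∨ y.1.1 ∈ A) then 1 else 0)

/-- The number of new fixed pairs which touch `A` and end in touched names. -/
def bhs (A : Finset S.V) : List (En S) → ℕ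
  | [] => 0
  | e :: L => bhs A L + (if e.a ∉ known e.b L ∧ F.fx e.b e.p ≠ none ∧ ∃ y, e.r = some y ∧
      (y.1.1 ∈ touched L ∨ y.1.1 = e.a.1) ∧ (e.a.1 ∈ A ∨ y.1.1 ∈ A) then 1 else 0)

end Hier

/-! ## Counters -/

/-- The number of landings in predicted sets: of new names which are asked about, and of answers in
random classes. -/
def hits (Zr : List (En S) → Finset S.V) (Za : List (En S) → Bool → S.Sl → S.Sl → Finset S.V) :
    List (En S) → ℕ
  | [] => 0
  | e :: L => hits Zr Za L + (if e.a.1 ∉ touched L ∧ e.p.1 ∈ Zr L then 1 else 0) +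
      (if e.a ∉ known e.b L ∧ S.cc e.b e.p ≠ none ∧ ∃ y, e.r = some y ∧ y.2.1 ∈ Za L e.b e.a e.p
        then 1 else 0)

/-- A bound for the conditional probabilities of these landings. -/
def comp (Zr : List (En S) → Finset S.V) (Za : List (En S) → Bool → S.Sl → S.Sl → Finset S.V) :
    List (En S) → ℝ
  | [] => 0
  | e :: L => comp Zr Za L + (if e.a.1 ∉ touched L then 2 * ((Zr L).card : ℝ) / Fintype.card S.V
        else 0) +
      (if e.a ∉ known e.b L then match S.cc e.b e.p with
        | some κ => 2 * S.D * (Za L e.b e.a e.p ∩ S.tgt (!e.b) κ).card / S.N κ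
        | none => 0 else 0)

/-- The number of explored pairs of class `κ`. -/
def ncl (κ : S.K) : List (En S) → ℕ
  | [] => 0
  | e :: L => ncl κ L + (if e.a ∉ known e.b L ∧ S.cc e.b e.p = some κ then 1 else 0)

namespace Hier

variable (H : Hier S F)

/-- Events of a set `A`: landings near landing names in `A`, pairs of type at least `t` from `A` to
touched names or near landing names, pairs from elsewhere to `A`. -/
def evr (n : ℕ) (A : Finset S.V) (L : List (En S)) : Finset S.V := H.halo n L (A ∩ touched L)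

/-- See `evr`. -/
def eva (n t : ℕ) (A : Finset S.V) (L : List (En S)) (b : Bool) (a p : S.Sl) : Finset S.V :=
  if a.1 ∈ A ∧ H.ge t b p then H.spec n L ∪ {p.1} else H.halo n L (A ∩ touched L)

/-- The number of events of a set `A`. -/
def evc (n t : ℕ) (A : Finset S.V) : List (En S) → ℕ := hits (H.evr n A) (H.eva n t A)

/-- The predictor of the events of the tree with root `ρ`, while it has less than `s` members. -/
def z1r (X : ℕ → ℕ) (n s t : ℕ) (ρ : S.V) (L : List (En S)) : Finset S.V :=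
  if H.XB X L ∧ ρ ∈ H.roots t L ∧ (H.part t L ρ).card < s then H.evr n (H.part t L ρ) L else ∅

/-- See `z1r`. -/
def z1a (X : ℕ → ℕ) (n s t : ℕ) (ρ : S.V) (L : List (En S)) (b : Bool) (a p : S.Sl) : Finset S.V :=
  if H.XB X L ∧ ρ ∈ H.roots t L ∧ (H.part t L ρ).card < s then H.eva n t (H.part t L ρ) L b a p
  else ∅

/-- The predictor of the landings near the landing name `y`. -/
def z2r (X : ℕ → ℕ) (n : ℕ) (y : S.V) (L : List (En S)) : Finset S.V :=
  if H.XB X L ∧ y ∈ H.land L then H.halo n L {y} else ∅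

/-- See `z2r`. -/
def z2a (X : ℕ → ℕ) (n : ℕ) (y : S.V) (L : List (En S)) (_ : Bool) (_ _ : S.Sl) : Finset S.V :=
  if H.XB X L ∧ y ∈ H.land L then H.halo n L {y} else ∅

/-- The predictor of the events of the big trees. -/
def z3r (X : ℕ → ℕ) (n s t : ℕ) (β : H.Bk) (L : List (En S)) : Finset S.V :=
  if H.XB X L then H.evr n (H.big s t β L) L else ∅

/-- See `z3r`. -/
def z3a (X : ℕ → ℕ) (n s t : ℕ) (β : H.Bk) (L : List (En S)) (b : Bool) (a p : S.Sl) :
    Finset S.V :=
  if H.XB X L then H.eva n t (H.big s t β L) L b a p else ∅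

/-- The predictor of the roots of level `t` in a window. -/
def z4r (X : ℕ → ℕ) (h t : ℕ) (β : H.Bk) (l : ℕ) (L : List (En S)) : Finset S.V :=
  if H.XB X L then H.win h t β l else ∅

/-- See `z4r`. -/
def z4a (X : ℕ → ℕ) (h t : ℕ) (β : H.Bk) (l : ℕ) (L : List (En S)) (b : Bool) (_ p : S.Sl) :
    Finset S.V :=
  if H.XB X L ∧ ¬ H.ge t b p then H.win h t β l else ∅

end Hier

/-! ## Blocks -/

/-- The data of a block for the decoupled union bound. -/
structure Blk (S : Sys) (F : Fx S) where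
  P : Finset S.V
  M : Finset S.V
  KP : Finset S.K
  th : ℕ
  th' : ℕ
  sub : M ⊆ P
  th_le : th ≤ th'
  th_D : th + 2 ≤ S.D
  cP : ∀ κ ∈ KP, ∀ b y, S.cc b y = some κ → y.1 ∈ P
  up : ∀ b (r : Fin S.D), (r : ℕ) < th → ∀ x ∈ M, ∃ κ ∉ KP, ∀ x' ∈ M, S.cc b (x', r) = some κ
  inn : ∀ b, ∀ x ∈ M, ∀ r : Fin S.D, th ≤ (r : ℕ) →
    (∃ κ ∈ KP, S.cc b (x, r) = some κ) ∨ F.fx b (x, r) ≠ none
  fP : ∀ b y y', F.fx b y = some y' → y.1 ∈ P → y'.1 ∈ P
  fM : ∀ b y y', F.fx b y = some y' → y.1 ∈ M → y'.1 ∈ M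

namespace Blk

variable (B : Blk S F)

/-- Inner slots. -/
def ins (b : Bool) (y : S.Sl) : Prop :=
  (∃ κ ∈ B.KP, S.cc b y = some κ) ∨ (y.1 ∈ B.P ∧ F.fx b y ≠ none)

/-- The entry `e` after the log `L` discovers the member `v` of `C` from a member of `C`, through an
inner slot. -/
def good (C : Finset S.V) (L : List (En S)) (e : En S) (v : S.V) : Prop :=
  B.ins e.b e.p ∧ e.a.1 ∈ C ∧ v ∈ C ∧ Disc L e v

/-- The members of `C` which were discovered by good entries. -/
def gset (C : Finset S.V) : List (En S) → Finset S.V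
  | [] => ∅
  | e :: L => gset C L ∪ C.filter fun v => B.good C L e v

/-- The members of `C` which were discovered by good entries through a slot of rank at least `th'`. -/
def dset (C : Finset S.V) : List (En S) → Finset S.V
  | [] => ∅
  | e :: L => dset C L ∪ C.filter fun v => B.good C L e v ∧ B.th' ≤ e.p.2

/-- The number of new inner pairs which touch `C` and are not good. -/
def nbad (C : Finset S.V) : List (En S) → ℕ
  | [] => 0
  | e :: L => nbad C L + (if e.a ∉ known e.b L ∧ B.ins e.b e.p ∧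
      (e.a.1 ∈ C ∨ ∃ y, e.r = some y ∧ y.1.1 ∈ C) ∧ ¬ ∃ v, B.good C L e v then 1 else 0)

end Blk

namespace Hier

variable (H : Hier S F)

theorem blk_down {t s : ℕ} (hs : s ≤ t) (ht : t ≤ H.R) {x y : S.V} (h : H.blk t x = H.blk t y)
    (hn : H.blk t x ≠ none) : H.blk s x = H.blk s y ∧ H.blk s x ≠ none := by
  induction t with
  | zero =>
    have : s = 0 := by omega
    subst this
    exact ⟨h, hn⟩
  | succ t ih =>
    rcases Nat.lt_or_ge s (t + 1) with h' | h'
    · have h1 := H.blk_nest t (by omega) x y h hn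
      have h2 := (H.blk_rich t (by omega) x).1 hn
      exact ih (by omega) (by omega) h1.1 h2.1
    · have : s = t + 1 := by omega
      subst this
      exact ⟨h, hn⟩

theorem lay_down {t s : ℕ} (hs : s < t) (ht : t ≤ H.R) {x y : S.V} (h : H.blk t x = H.blk t y)
    (hn : H.blk t x ≠ none) : H.lay s x = H.lay s y := by
  have h1 := H.blk_down (s := s + 1) hs ht h hn
  exact (H.blk_nest s (by omega) x y h1.1 h1.2).2

theorem fx_blk {b : Bool} {y y' : S.Sl} (h : F.fx b y = some y') :
    H.blk H.R y.1 = H.blk H.R y'.1 ∧ H.blk H.R y.1 ≠ none := by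
  obtain ⟨q, q', h1, h2, h3⟩ := H.fx_adj b y y' h
  refine ⟨H.prj_adj _ _ _ _ h1 h2 h3, ?_⟩
  intro h4
  rw [← H.prj_blk, h1] at h4
  cases h4

/-- The block data of a block of level `t`. -/
def toBlk (t : ℕ) (β : H.Bk) (ht : t < H.R) : Blk S F where
  P := Finset.univ.filter fun x => H.blk t x = some β
  M := Finset.univ.filter fun x => H.blk t x = some β ∧ 1 ≤ H.lay t x ∧ H.lay t x ≤ 3 * H.T - 2
  KP := Finset.univ.filter fun κ => t ≤ H.ty κ ∧ ∃ b y, S.cc b y = some κ ∧ H.blk t y.1 = some β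
  th := H.th t
  th' := H.th (t + 1)
  sub := by
    intro x hx
    simp only [Finset.mem_filter, Finset.mem_univ, true_and] at hx ⊢
    exact hx.1
  th_le := H.th_mono (Nat.le_succ t)
  th_D := H.th_2 t ht
  cP := by
    intro κ hκ b y hy
    simp only [Finset.mem_filter, Finset.mem_univ, true_and] at hκ ⊢
    obtain ⟨h1, b', y', h2, h3⟩ := hκ
    have h4 := H.cls_blk b' b y' y κ h2 hy
    have h5 := H.blk_down h1 (H.ty_lt κ).le h4.2 h4.1
    rw [← h5.1, h3]
  up := by
    intro b r hr x hx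
    simp only [Finset.mem_filter, Finset.mem_univ, true_and] at hx ⊢
    obtain ⟨κ, h1, h2⟩ := H.mid_up t ht b x r (by rw [hx.1]; simp) hx.2.1 hx.2.2 hr
    refine ⟨κ, fun h => by omega, fun x' hx' => h2 x' (by rw [hx'.1, hx.1]) hx'.2.1 hx'.2.2⟩
  inn := by
    intro b x hx r hr
    simp only [Finset.mem_filter, Finset.mem_univ, true_and] at hx
    rcases H.mid_in t ht b x r (by rw [hx.1]; simp) hx.2.1 hx.2.2 hr with ⟨κ, h1, h2⟩ | h
    · left
      refine ⟨κ, ?_, h1⟩
      simp only [Finset.mem_filter, Finset.mem_univ, true_and]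
      exact ⟨h2, b, _, h1, hx.1⟩
    · exact Or.inr h
  fP := by
    intro b y y' h hy
    simp only [Finset.mem_filter, Finset.mem_univ, true_and] at hy ⊢
    have h1 := H.fx_blk h
    rw [← (H.blk_down ht.le le_rfl h1.1 h1.2).1, hy]
  fM := by
    intro b y y' h hy
    simp only [Finset.mem_filter, Finset.mem_univ, true_and] at hy ⊢
    have h1 := H.fx_blk h
    rw [← (H.blk_down ht.le le_rfl h1.1 h1.2).1, ← H.lay_down ht le_rfl h1.1 h1.2]
    exact hy

end Hier

end

end Pool.Agent.AcyAd
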