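import Pool.Agent.AcyAd.Targets4

/-!
# MP_08c6cd_lc, fully adaptive testers: job ADI-IFAR (the second world is far from acyclic)
-/

namespace Pool.Agent.AcyAd

open scoped Classical
open Pool.Agent.AcyTest

noncomputable section

namespace IFAR_

variable (d : Dat)

theorem bi_rb (i : Fin 2) : d.bi (d.rb i) = i := by
  unfold Dat.bi Dat.rb
  fin_cases i
  · simp
  · simp

/-- The layers. -/
def ly (c : Fin d.R → Fin d.T) : Fin d.R → Fin (3 * d.T) := fun s =>
  ⟨d.T + (c s).1, by have := (c s).2; omega⟩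

/-- The copy. -/
def cp {a b : ℕ} (hb : b < d.M) (k : Fin ((b - a) / 2)) : Fin d.M :=
  ⟨a + 2 * k.1 + 1, by have := k.2; omega⟩

theorem isb_ly (c : Fin d.R → Fin d.T) (y : Fin d.M × Fin d.w) : d.isb d.R (ly d c, y) := by
  refine ⟨le_rfl, fun s hs => ?_⟩
  unfold Dat.rich Dat.co
  rw [dif_pos hs]
  have h1 : (((ly d c, y) : d.V).1 ⟨s, hs⟩).1 = d.T + (c ⟨s, hs⟩).1 := rfl
  rw [h1]
  have := (c ⟨s, hs⟩).2
  omega

theorem cp_fix {a b : ℕ} (ha : a % 2 = 0) (hb : b < d.M)
    (f : Equiv.Perm (Fin d.M)) (hf : Dat.IsFF d.M a b f) (k : Fin ((b - a) / 2)) :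
    f (cp d hb k) = cp d hb k := by
  apply Fin.ext
  rw [hf]
  have h1 : (cp d hb k).1 = a + 2 * k.1 + 1 := rfl
  have h2 := k.2
  rw [h1]
  unfold Dat.ff
  rw [if_pos (by omega), if_neg (by omega), Nat.mod_eq_of_lt (by omega)]

theorem step {S : Sys} {F : Fx S} (w : World S) {A B : S.Sl} (hfx : F.fx true A = some B) :
    ∃ i i', F.fx true (w.plc true (w.lam.symm A.1, i)) ≠ none ∧
      w.ask F true (w.lam.symm A.1, i) = some (w.lam.symm B.1, i') := by
  have hne : F.fx true A ≠ none := by rw [hfx]; simp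
  have hcc := F.cc_none hne
  refine ⟨(w.unplc true A).2, (w.unplc false B).2, ?_, ?_⟩
  · have h1 : w.plc true (w.lam.symm A.1, (w.unplc true A).2) = A := w.plc_unplc true A
    rw [h1]
    exact hne
  · have h1 : w.ask F true (w.unplc true A) = some (w.unplc false B) := by
      rw [w.ask_eq_some, w.plc_unplc]
      show w.mt F true A = some (w.plc false (w.unplc false B))
      rw [w.plc_unplc, w.mt_none hcc, hfx]
    exact h1

end IFAR_

/-- IFAR: the second world is far from acyclic. -/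
theorem tIFAR (h : T_COPY) : T_IFAR := by
  intro d hc F a b f x ha hb' hab hb hff hF hG w
  have hcard : Nat.card ((Fin d.R → Fin d.T) × Fin ((b - a) / 2)) =
      d.T ^ d.R * ((b - a) / 2) := by
    simp [Nat.card_eq_fintype_card]
  rw [← hcard]
  refine h (Fin d.w) d.V ((Fin d.R → Fin d.T) × Fin ((b - a) / 2)) d.G.E _
    (fun j u => w.lam.symm (IFAR_.ly d j.1, IFAR_.cp d hb j.2, u)) x hG ?_ ?_
  · intro j u j' u' hj
    have h1 := w.lam.symm.injective hj
    have h2 : IFAR_.ly d j.1 = IFAR_.ly d j'.1 := congrArg Prod.fst h1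
    have h3 : IFAR_.cp d hb j.2 = IFAR_.cp d hb j'.2 := congrArg (fun z => z.2.1) h1
    have h4 : u = u' := congrArg (fun z => z.2.2) h1
    refine ⟨Prod.ext ?_ ?_, h4⟩
    · funext s
      have h5 := congrArg Fin.val (congrFun h2 s)
      apply Fin.ext
      have h6 : (IFAR_.ly d j.1 s).1 = d.T + (j.1 s).1 := rfl
      have h7 : (IFAR_.ly d j'.1 s).1 = d.T + (j'.1 s).1 := rfl
      rw [h6, h7] at h5
      omega
    · have h5 := congrArg Fin.val h3
      apply Fin.ext
      have h6 : (IFAR_.cp d hb j.2).1 = a + 2 * j.2.1 + 1 := rfl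
      have h7 : (IFAR_.cp d hb j'.2).1 = a + 2 * j'.2.1 + 1 := rfl
      rw [h6, h7] at h5
      omega
  · rintro j u v ⟨i, hi⟩
    obtain ⟨i', hi'⟩ := (d.G.compat u v).1 ⟨i, hi⟩
    let A : d.V × Fin d.D := ((IFAR_.ly d j.1, IFAR_.cp d hb j.2, u), d.rb i)
    let B : d.V × Fin d.D := ((IFAR_.ly d j.1, IFAR_.cp d hb j.2, v), d.rb i')
    have hE : d.Ed f A B := by
      refine ⟨IFAR_.isb_ly d _ _, ?_, ?_, ?_, ?_, ?_, rfl, ?_⟩
      · exact Nat.le_add_right _ _
      · exact Nat.le_add_right _ _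
      · show a + 2 * j.2.1 + 1 + 1 ≠ d.M
        have := j.2.2
        omega
      · show d.G.out u (d.bi (d.rb i)) = some v
        rw [IFAR_.bi_rb, hi]
      · show d.G.inn v (d.bi (d.rb i')) = some u
        rw [IFAR_.bi_rb, hi']
      · exact (IFAR_.cp_fix d ha hb f hff j.2).symm
    have hfx : F.fx true A = some B := ((hF A B).1).2 hE
    exact IFAR_.step w (A := A) (B := B) hfx

end

end Pool.Agent.AcyAd
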