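import Pool.Agent.AcyAd.Forest

/-!
# MP_08c6cd_lc, fully adaptive testers: the construction
-/

namespace Pool.Agent.AcyAd

open scoped Classical
open Pool.Agent.AcyTest

noncomputable section

/-- The data of the construction: `R` levels of nested chains with `3 T` layers, `M` copies of a base
graph `G` on `w` vertices in each bottom block, thresholds `th` for the ranks. -/
structure Dat where
  R : ℕ
  T : ℕ
  M : ℕ
  w : ℕ
  th : ℕ → ℕ
  G : DG (Fin w) 2
  g0 : ℕ
  hR : 1 ≤ R
  hT : 5 ≤ T
  hM : 2 ≤ M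
  hw : 1 ≤ w
  th0 : th 0 = 0
  thm : StrictMono th
  cyc : LongCyc G.und g0
  two : ∀ u v, G.E u v → ¬ G.E v u
  edg : w ≤ 200 * Nat.card {y : Fin w × Fin 2 // G.out y.1 y.2 ≠ none}

namespace Dat

variable (d : Dat)

/-- Addresses: the layers in the chains, the copy, the vertex of the base graph. -/
abbrev V : Type := (Fin d.R → Fin (3 * d.T)) × Fin d.M × Fin d.w

/-- The number of slots in each direction. -/
def D : ℕ := d.th d.R + 2

theorem T3_pos : 0 < 3 * d.T := by
  have := d.hT
  omega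

/-- The layer in the chain of level `t`. -/
def co (t : ℕ) (x : d.V) : ℕ := if h : t < d.R then (x.1 ⟨t, h⟩).1 else 0

/-- The layer of level `t` is in the middle third. -/
def rich (t : ℕ) (x : d.V) : Prop := d.T ≤ d.co t x ∧ d.co t x < 2 * d.T

/-- The address is in a block of level `t`. -/
def isb (t : ℕ) (x : d.V) : Prop := t ≤ d.R ∧ ∀ s < t, d.rich s x

/-- The level of a rank. -/
def tr (r : ℕ) : ℕ := Nat.findGreatest (fun t => d.th t ≤ r) d.R

/-- The first level with a layer in an outer third, or `R`. -/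
def pl (x : d.V) : ℕ := Nat.findGreatest (fun t => d.isb t x) d.R

/-- The level of a slot. -/
def lv (x : d.V) (r : ℕ) : ℕ := min (d.tr r) (d.pl x)

/-- The number of a bottom slot. -/
def bi (r : ℕ) : Fin 2 := if r = d.th d.R then 0 else 1

/-- The rank of a bottom slot. -/
def rb (i : Fin 2) : Fin d.D := ⟨d.th d.R + i.1, by unfold D; omega⟩

/-- Exit slots of level `t`. -/
def exit (t : ℕ) (x : d.V) (r : ℕ) : Prop :=
  if t < d.R then d.co t x = 3 * d.T - 1 else (x.2.1.1 + 1 = d.M ∨ d.G.out x.2.2 (d.bi r) = none)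

/-- Entry slots of level `t`. -/
def entry (t : ℕ) (x : d.V) (r : ℕ) : Prop :=
  if t < d.R then d.co t x = 0 else (x.2.1.1 = 0 ∨ d.G.inn x.2.2 (d.bi r) = none)

/-- The layers of the levels `< t`, then the layer `l`. -/
def key (t l : ℕ) (x : d.V) : Fin d.R → Fin (3 * d.T) := fun s =>
  if s.1 < t then x.1 s else if s.1 = t then ⟨l % (3 * d.T), Nat.mod_lt _ d.T3_pos⟩
    else ⟨0, d.T3_pos⟩

/-- Random classes: type, layers up to the source layer, jump or not. -/
abbrev K : Type := Fin d.R × (Fin d.R → Fin (3 * d.T)) × Bool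

/-- The class of type `t` with source layer `l`. -/
def cl (t l : ℕ) (j : Bool) (x : d.V) : Option d.K :=
  if h : t < d.R then some (⟨t, h⟩, d.key t l x, j) else none

/-- The class of an out-slot. -/
def cout (x : d.V) (r : ℕ) : Option d.K :=
  if d.exit (d.lv x r) x r then
    (if d.lv x r = 0 then none else d.cl (d.lv x r - 1) (d.co (d.lv x r - 1) x) false x)
  else if d.lv x r = d.R then none
  else if d.co (d.lv x r) x = d.T - 1 ∧ d.th (d.lv x r + 1) ≤ r ∧ ¬ d.exit (d.lv x r + 1) x r then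
    d.cl (d.lv x r) (d.T - 1) true x
  else d.cl (d.lv x r) (d.co (d.lv x r) x) false x

/-- The class of an in-slot. -/
def cin (x : d.V) (r : ℕ) : Option d.K :=
  if d.entry (d.lv x r) x r then
    (if d.lv x r = 0 then none else d.cl (d.lv x r - 1) (d.co (d.lv x r - 1) x - 1) false x)
  else if d.lv x r = d.R then none
  else if d.co (d.lv x r) x = 2 * d.T ∧ d.th (d.lv x r + 1) ≤ r ∧ ¬ d.entry (d.lv x r + 1) x r then
    d.cl (d.lv x r) (d.T - 1) true x
  else d.cl (d.lv x r) (d.co (d.lv x r) x - 1) false x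

/-- The class of a slot. -/
def ccf (b : Bool) (y : d.V × Fin d.D) : Option d.K :=
  if b then d.cout y.1 y.2 else d.cin y.1 y.2

/-- The classes have as many out-slots as in-slots. -/
def Card : Prop := ∀ κ : d.K, Nat.card {a : d.V × Fin d.D // d.ccf true a = some κ} =
  Nat.card {a : d.V × Fin d.D // d.ccf false a = some κ}

/-- The slot system. -/
def sys (hc : d.Card) : Sys where
  V := d.V
  D := d.D
  K := d.K
  cc := d.ccf
  card_cc := hc

/-- The fixed pairs: copies of the edges of the base graph, the copy changes by `f`. -/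
def Ed (f : Equiv.Perm (Fin d.M)) (a b : d.V × Fin d.D) : Prop :=
  d.isb d.R a.1 ∧ d.th d.R ≤ a.2.1 ∧ d.th d.R ≤ b.2.1 ∧ a.1.2.1.1 + 1 ≠ d.M ∧
  d.G.out a.1.2.2 (d.bi a.2) = some b.1.2.2 ∧ d.G.inn b.1.2.2 (d.bi b.2) = some a.1.2.2 ∧
  b.1.1 = a.1.1 ∧ b.1.2.1 = f a.1.2.1

/-- The system of fixed pairs is given by `f`. -/
def IsFx (hc : d.Card) (F : Fx (d.sys hc)) (f : Equiv.Perm (Fin d.M)) : Prop :=
  ∀ a b : d.V × Fin d.D, (F.fx true a = some b ↔ d.Ed f a b) ∧ (F.fx false b = some a ↔ d.Ed f a b)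

/-! ## The hierarchy -/

/-- Names of blocks. -/
abbrev Bk : Type := ℕ × (Fin d.R → Fin (3 * d.T))

/-- The block of level `t`. -/
def blkf (t : ℕ) (x : d.V) : Option d.Bk :=
  if d.isb t x then some (t, fun s => if s.1 < t then x.1 s else ⟨0, d.T3_pos⟩) else none

/-- The number of addresses of a block of level `t`. -/
def nbf (t : ℕ) : ℕ := (3 * d.T) ^ (d.R - t) * (d.M * d.w)

/-- Vertices of the base graphs of the bottom blocks. -/
abbrev Q : Type := (Fin d.R → Fin (3 * d.T)) × Fin d.w

/-- The projection. -/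
def prjf (x : d.V) : Option d.Q := if d.isb d.R x then some (x.1, x.2.2) else none

/-- The base graphs of the bottom blocks. -/
def GQf : SimpleGraph d.Q where
  Adj p q := p.1 = q.1 ∧ d.G.und.Adj p.2 q.2
  symm := ⟨fun _ _ h => ⟨h.1.symm, h.2.symm⟩⟩
  loopless := ⟨fun _ h => h.2.ne rfl⟩

/-- A bound for the number of near addresses. -/
def nuf (n : ℕ) : ℕ := d.M * 5 ^ n

/-! ## The permutation of the far world -/

/-- `+ 1` outside `[a, b)`, where `a`, `b` are even; in `[a, b)` even numbers are increased by two and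
odd numbers are fixed. -/
def ff (a b j : ℕ) : ℕ :=
  if a ≤ j ∧ j < b then (if j % 2 = 0 then j + 2 else j) else j + 1

/-- The permutation `f` of the copies is given by `ff`. -/
def IsFF (M a b : ℕ) (f : Equiv.Perm (Fin M)) : Prop :=
  ∀ j, (f j).1 = ff a b j.1 % M

end Dat

end

end Pool.Agent.AcyAd
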