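import Pool.Agent.AcyAd.Defs

/-!
# MP_08c6cd_lc, fully adaptive testers: basic facts on worlds and logs
-/

namespace Pool.Agent.AcyAd

open scoped Classical

noncomputable section

variable {S : Sys} {F : Fx S}

/-! ## Worlds -/

theorem World.unplc_plc (w : World S) (b : Bool) (a : S.Sl) : w.unplc b (w.plc b a) = a := by
  simp [World.unplc, World.plc]

theorem World.plc_unplc (w : World S) (b : Bool) (y : S.Sl) : w.plc b (w.unplc b y) = y := by
  simp [World.unplc, World.plc]

theorem World.plc_inj (w : World S) (b : Bool) {a a' : S.Sl} (h : w.plc b a = w.plc b a') :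
    a = a' := by
  rw [← w.unplc_plc b a, h, w.unplc_plc]

theorem World.unplc_inj (w : World S) (b : Bool) {a a' : S.Sl} (h : w.unplc b a = w.unplc b a') :
    a = a' := by
  rw [← w.plc_unplc b a, h, w.plc_unplc]

theorem World.mt_true (w : World S) {y : S.Sl} {κ : S.K} (h : S.cc true y = some κ) :
    w.mt F true y = some (w.mu κ ⟨y, h⟩).1 := by
  simp only [World.mt]
  split
  · rename_i h'
    rw [h] at h'
    cases h'
  · rename_i κ' h'
    have : κ = κ' := Option.some.inj (h.symm.trans h')
    subst this
    rfl

theorem World.mt_false (w : World S) {y : S.Sl} {κ : S.K} (h : S.cc false y = some κ) :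
    w.mt F false y = some ((w.mu κ).symm ⟨y, h⟩).1 := by
  simp only [World.mt]
  split
  · rename_i h'
    rw [h] at h'
    cases h'
  · rename_i κ' h'
    have : κ = κ' := Option.some.inj (h.symm.trans h')
    subst this
    rfl

theorem World.mt_none (w : World S) {b : Bool} {y : S.Sl} (h : S.cc b y = none) :
    w.mt F b y = F.fx b y := by
  cases b <;>
  · simp only [World.mt]
    split
    · rfl
    · rename_i κ' h'
      rw [h] at h'
      cases h'

theorem Fx.cc_none (F : Fx S) {b : Bool} {y : S.Sl} (h : F.fx b y ≠ none) : S.cc b y = none := by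
  by_contra h'
  exact h (F.cls b y h')

/-- The partner of the partner. -/
theorem World.mt_inv (w : World S) {b : Bool} {y y' : S.Sl} (h : w.mt F b y = some y') :
    w.mt F (!b) y' = some y := by
  rcases hc : S.cc b y with _ | κ
  · rw [w.mt_none hc] at h
    have h2 := F.inv b y y' h
    rw [w.mt_none (F.cc_none (by rw [h2]; simp)), h2]
  · cases b
    · rw [w.mt_false hc] at h
      have h2 := Option.some.inj h
      subst h2
      have h3 := ((w.mu κ).symm ⟨y, hc⟩).2
      show w.mt F true _ = _
      rw [w.mt_true h3]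
      simp
    · rw [w.mt_true hc] at h
      have h2 := Option.some.inj h
      subst h2
      have h3 := ((w.mu κ) ⟨y, hc⟩).2
      show w.mt F false _ = _
      rw [w.mt_false h3]
      simp

theorem World.mt_cc (w : World S) {b : Bool} {y y' : S.Sl} (h : w.mt F b y = some y') :
    S.cc (!b) y' = S.cc b y := by
  rcases hc : S.cc b y with _ | κ
  · rw [w.mt_none hc] at h
    have h2 := F.inv b y y' h
    exact F.cc_none (by rw [h2]; simp)
  · cases b
    · rw [w.mt_false hc] at h
      have h2 := Option.some.inj h
      subst h2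
      exact ((w.mu κ).symm ⟨y, hc⟩).2
    · rw [w.mt_true hc] at h
      have h2 := Option.some.inj h
      subst h2
      exact ((w.mu κ) ⟨y, hc⟩).2

theorem World.ask_eq_some (w : World S) {b : Bool} {a a' : S.Sl} :
    w.ask F b a = some a' ↔ w.mt F b (w.plc b a) = some (w.plc (!b) a') := by
  unfold World.ask
  rw [Option.map_eq_some_iff]
  constructor
  · rintro ⟨y, hy, rfl⟩
    rw [hy, w.plc_unplc]
  · intro h
    exact ⟨_, h, w.unplc_plc _ _⟩

theorem World.ask_inv (w : World S) {b : Bool} {a a' : S.Sl} (h : w.ask F b a = some a') :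
    w.ask F (!b) a' = some a := by
  rw [w.ask_eq_some] at h ⊢
  have := w.mt_inv h
  rwa [Bool.not_not]

/-! ## Visible logs -/

theorem vtouched_cons (e : VE S) (L : List (VE S)) :
    vtouched (e :: L) = vtouched L ∪ {e.a.1} ∪ e.nm := rfl

theorem VE.mem_nm {e : VE S} {v : S.V} : v ∈ e.nm ↔ ∃ y, e.r = some y ∧ y.1 = v := by
  unfold VE.nm
  rcases h : e.r with _ | y <;> simp [eq_comm]

theorem mem_vtouched_cons {e : VE S} {L : List (VE S)} {v : S.V} :
    v ∈ vtouched (e :: L) ↔ v ∈ vtouched L ∨ v = e.a.1 ∨ ∃ y, e.r = some y ∧ y.1 = v := by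
  rw [vtouched_cons, Finset.mem_union, Finset.mem_union, Finset.mem_singleton, VE.mem_nm, or_assoc]

theorem mem_vtouched {L : List (VE S)} {v : S.V} :
    v ∈ vtouched L ↔ ∃ e ∈ L, v = e.a.1 ∨ ∃ y, e.r = some y ∧ y.1 = v := by
  induction L with
  | nil => simp [vtouched]
  | cons e L ih =>
    rw [mem_vtouched_cons, ih, or_comm]
    simp only [List.mem_cons, exists_eq_or_imp]

theorem vtouched_mono (e : VE S) (L : List (VE S)) : vtouched L ⊆ vtouched (e :: L) := by
  intro v hv
  rw [mem_vtouched_cons]
  exact Or.inl hv

theorem vtouched_suffix {L L' : List (VE S)} (h : L' <:+ L) : vtouched L' ⊆ vtouched L := by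
  obtain ⟨M, rfl⟩ := h
  induction M with
  | nil => exact subset_rfl
  | cons e M ih => exact ih.trans (vtouched_mono e _)

theorem card_vtouched (L : List (VE S)) : (vtouched L).card ≤ 2 * L.length := by
  induction L with
  | nil => simp [vtouched]
  | cons e L ih =>
    have h1 : e.nm.card ≤ 1 := by
      unfold VE.nm
      split <;> simp
    calc (vtouched (e :: L)).card ≤ (vtouched L ∪ {e.a.1}).card + e.nm.card := by
          rw [vtouched_cons]; exact Finset.card_union_le _ _
      _ ≤ ((vtouched L).card + 1) + 1 := by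
          refine add_le_add ((Finset.card_union_le _ _).trans ?_) h1
          simp
      _ ≤ _ := by rw [List.length_cons]; omega

theorem vknown_cons (b : Bool) (e : VE S) (L : List (VE S)) : vknown b (e :: L) =
    vknown b L ∪ (if e.b = b then {e.a} else match e.r with | some y => {y} | none => ∅) := rfl

theorem mem_vknown_cons {b : Bool} {e : VE S} {L : List (VE S)} {a : S.Sl} :
    a ∈ vknown b (e :: L) ↔ a ∈ vknown b L ∨ (e.b = b ∧ e.a = a) ∨ (e.b ≠ b ∧ e.r = some a) := by
  rw [vknown_cons, Finset.mem_union]
  by_cases hb : e.b = b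
  · simp [hb, eq_comm]
  · rw [if_neg hb]
    rcases h : e.r with _ | y <;> simp [hb, eq_comm]

theorem vknown_mono (b : Bool) (e : VE S) (L : List (VE S)) : vknown b L ⊆ vknown b (e :: L) := by
  intro v hv
  rw [mem_vknown_cons]
  exact Or.inl hv

theorem mem_vknown {b : Bool} {L : List (VE S)} {a : S.Sl} :
    a ∈ vknown b L ↔ ∃ e ∈ L, (e.b = b ∧ e.a = a) ∨ (e.b ≠ b ∧ e.r = some a) := by
  induction L with
  | nil => simp [vknown]
  | cons e L ih =>
    rw [mem_vknown_cons, ih, or_comm]
    simp only [List.mem_cons, exists_eq_or_imp]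

theorem vknown_touched {b : Bool} {L : List (VE S)} {a : S.Sl} (h : a ∈ vknown b L) :
    a.1 ∈ vtouched L := by
  rw [mem_vknown] at h
  obtain ⟨e, he, h⟩ := h
  rw [mem_vtouched]
  refine ⟨e, he, ?_⟩
  rcases h with ⟨_, rfl⟩ | ⟨_, h⟩
  · exact Or.inl rfl
  · exact Or.inr ⟨_, h, rfl⟩

theorem look_none {b : Bool} {L : List (VE S)} {a : S.Sl} (h : a ∉ vknown b L) :
    look b L a = none := by
  induction L with
  | nil => rfl
  | cons e L ih =>
    rw [mem_vknown_cons, not_or, not_or] at h
    simp only [look]
    rw [if_neg h.2.1, if_neg h.2.2, ih h.1]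

/-! ## Full logs -/

theorem touched_cons (e : En S) (L : List (En S)) :
    touched (e :: L) = vtouched (e.vis :: L.map En.vis) := rfl

theorem mem_touched_cons {e : En S} {L : List (En S)} {v : S.V} :
    v ∈ touched (e :: L) ↔ v ∈ touched L ∨ v = e.a.1 ∨ ∃ y, e.r = some y ∧ y.1.1 = v := by
  rw [touched_cons, mem_vtouched_cons]
  simp only [touched, En.vis, En.ans, Option.map_eq_some_iff]
  constructor
  · rintro (h | h | ⟨y, ⟨z, hz, rfl⟩, rfl⟩)
    · exact Or.inl h
    · exact Or.inr (Or.inl h)
    · exact Or.inr (Or.inr ⟨z, hz, rfl⟩)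
  · rintro (h | h | ⟨y, hz, rfl⟩)
    · exact Or.inl h
    · exact Or.inr (Or.inl h)
    · exact Or.inr (Or.inr ⟨_, ⟨y, hz, rfl⟩, rfl⟩)

theorem mem_touched {L : List (En S)} {v : S.V} :
    v ∈ touched L ↔ ∃ e ∈ L, v = e.a.1 ∨ ∃ y, e.r = some y ∧ y.1.1 = v := by
  induction L with
  | nil => simp [touched, vtouched]
  | cons e L ih =>
    rw [mem_touched_cons, ih, or_comm]
    simp only [List.mem_cons, exists_eq_or_imp]

theorem touched_mono (e : En S) (L : List (En S)) : touched L ⊆ touched (e :: L) :=
  vtouched_mono _ _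

theorem touched_suffix {L L' : List (En S)} (h : L' <:+ L) : touched L' ⊆ touched L :=
  vtouched_suffix (h.map _)

theorem card_touched (L : List (En S)) : (touched L).card ≤ 2 * L.length := by
  have := card_vtouched (L.map En.vis)
  rwa [List.length_map] at this

theorem mem_known_cons {b : Bool} {e : En S} {L : List (En S)} {a : S.Sl} :
    a ∈ known b (e :: L) ↔
      a ∈ known b L ∨ (e.b = b ∧ e.a = a) ∨ (e.b ≠ b ∧ ∃ y, e.r = some y ∧ y.1 = a) := by
  unfold known
  rw [List.map_cons, mem_vknown_cons]
  simp only [En.vis, En.ans, Option.map_eq_some_iff]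

theorem mem_known {b : Bool} {L : List (En S)} {a : S.Sl} :
    a ∈ known b L ↔
      ∃ e ∈ L, (e.b = b ∧ e.a = a) ∨ (e.b ≠ b ∧ ∃ y, e.r = some y ∧ y.1 = a) := by
  induction L with
  | nil => simp [known, vknown]
  | cons e L ih =>
    rw [mem_known_cons, ih, or_comm]
    simp only [List.mem_cons, exists_eq_or_imp]

theorem known_touched {b : Bool} {L : List (En S)} {a : S.Sl} (h : a ∈ known b L) :
    a.1 ∈ touched L := vknown_touched h

theorem disc_iff {L : List (En S)} {e : En S} {v : S.V} :
    Disc L e v ↔ v ∉ touched L ∧ v ≠ e.a.1 ∧ ∃ y, e.r = some y ∧ y.1.1 = v := by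
  unfold Disc VDisc touched
  simp only [En.vis, En.ans, Option.map_eq_some_iff]
  constructor
  · rintro ⟨h1, h2, y, ⟨z, hz, rfl⟩, rfl⟩
    exact ⟨h1, h2, z, hz, rfl⟩
  · rintro ⟨h1, h2, z, hz, rfl⟩
    exact ⟨h1, h2, _, ⟨z, hz, rfl⟩, rfl⟩

theorem par_cons (e : En S) (L : List (En S)) (v : S.V) :
    par (e :: L) v = if Disc L e v then e.a.1 else par L v := rfl

theorem disc_touched {L : List (En S)} {e : En S} {v : S.V} (h : Disc L e v) :
    v ∈ touched (e :: L) := by
  rw [disc_iff] at h
  rw [mem_touched_cons]
  exact Or.inr (Or.inr h.2.2)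

theorem disc_par_touched {L : List (En S)} {e : En S} : e.a.1 ∈ touched (e :: L) := by
  rw [mem_touched_cons]
  exact Or.inr (Or.inl rfl)

theorem par_eq_of_not_touched {L : List (En S)} {v : S.V} (h : v ∉ touched L) : par L v = v := by
  induction L with
  | nil => rfl
  | cons e L ih =>
    have h1 : v ∉ touched L := fun h' => h (touched_mono e L h')
    rw [par_cons, if_neg (fun h' => h (disc_touched h')), ih h1]

theorem par_mem {L : List (En S)} {v : S.V} (h : v ∈ touched L) : par L v ∈ touched L := by
  induction L with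
  | nil => exact h
  | cons e L ih =>
    rw [par_cons]
    by_cases hd : Disc L e v
    · rw [if_pos hd]
      exact disc_par_touched
    · rw [if_neg hd]
      by_cases hv : v ∈ touched L
      · exact touched_mono e L (ih hv)
      · rw [par_eq_of_not_touched hv]
        exact h

/-! ## Runs -/

theorem run_length (σ : Player S) (w : World S) (k : ℕ) : (run F σ w k).length = k := by
  induction k with
  | zero => rfl
  | succ k ih => simp [run, ih]

theorem run_suffix (σ : Player S) (w : World S) {j k : ℕ} (h : j ≤ k) :
    run F σ w j <:+ run F σ w k := by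
  induction k with
  | zero =>
    have : j = 0 := by omega
    subst this
    exact List.suffix_rfl
  | succ k ih =>
    rcases Nat.lt_or_ge j (k + 1) with h' | h'
    · exact (ih (by omega)).trans (List.suffix_cons _ _)
    · have : j = k + 1 := by omega
      subst this
      exact List.suffix_rfl

/-- The entries of a run. -/
theorem run_mem (σ : Player S) (w : World S) {k : ℕ} {e : En S} (h : e ∈ run F σ w k) :
    e.p = w.plc e.b e.a ∧ e.r = (w.mt F e.b e.p).map fun y => (w.unplc (!e.b) y, y) := by
  induction k with
  | zero => simp [run] at h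
  | succ k ih =>
    simp only [run, List.mem_cons] at h
    rcases h with rfl | h
    · exact ⟨rfl, rfl⟩
    · exact ih h

theorem run_suffix_mem (σ : Player S) (w : World S) {k : ℕ} {e : En S} {L : List (En S)}
    (h : e :: L <:+ run F σ w k) : ∃ j < k, L = run F σ w j ∧ e :: L = run F σ w (j + 1) := by
  induction k with
  | zero => simp [run] at h
  | succ k ih =>
    rw [run, List.suffix_cons_iff] at h
    rcases h with h | h
    · refine ⟨k, by omega, ?_, ?_⟩
      · exact (List.cons.inj h).2
      · rw [h]; rfl
    · obtain ⟨j, hj, h1, h2⟩ := ih h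
      exact ⟨j, by omega, h1, h2⟩

theorem run_r (σ : Player S) (w : World S) {k : ℕ} {e : En S} (h : e ∈ run F σ w k)
    {y : S.Sl × S.Sl} (hy : e.r = some y) :
    w.mt F e.b e.p = some y.2 ∧ y.2 = w.plc (!e.b) y.1 ∧ w.ask F e.b e.a = some y.1 := by
  obtain ⟨h1, h2⟩ := run_mem σ w h
  rw [h2, Option.map_eq_some_iff] at hy
  obtain ⟨z, hz, rfl⟩ := hy
  refine ⟨hz, (w.plc_unplc _ _).symm, ?_⟩
  rw [w.ask_eq_some, ← h1, hz, w.plc_unplc]

theorem run_ans (σ : Player S) (w : World S) {k : ℕ} {e : En S} (h : e ∈ run F σ w k) :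
    e.ans = w.ask F e.b e.a := by
  obtain ⟨h1, h2⟩ := run_mem σ w h
  unfold En.ans World.ask
  rw [h2, ← h1, Option.map_map]
  rfl

theorem expl_eq (σ : Player S) (w : World S) (k : ℕ) :
    expl (run F σ w k) = (touched (run F σ w k)).image w.lam := by
  suffices h : ∀ L : List (En S), (∀ e ∈ L, e ∈ run F σ w k) → expl L = (touched L).image w.lam from
    h _ fun _ h => h
  intro L hL
  induction L with
  | nil => simp [expl, touched, vtouched]
  | cons e L ih =>
    have ih' := ih fun e' he' => hL e' (List.mem_cons_of_mem _ he')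
    have he := hL e (List.mem_cons_self)
    obtain ⟨h1, h2⟩ := run_mem σ w he
    ext x
    simp only [expl, ih', Finset.mem_union, Finset.mem_image, Finset.mem_singleton,
      mem_touched_cons]
    rcases hr : e.r with _ | y
    · simp only [Finset.notMem_empty, or_false, reduceCtorEq, false_and, exists_false]
      constructor
      · rintro (⟨v, hv, rfl⟩ | rfl)
        · exact ⟨v, Or.inl hv, rfl⟩
        · refine ⟨e.a.1, Or.inr rfl, ?_⟩
          rw [h1]
          rfl
      · rintro ⟨v, hv | rfl, rfl⟩
        · exact Or.inl ⟨v, hv, rfl⟩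
        · right
          rw [h1]
          rfl
    · obtain ⟨_, h4, _⟩ := run_r σ w he hr
      have h5 : y.2.1 = w.lam y.1.1 := by rw [h4]; rfl
      simp only [Finset.mem_singleton, Option.some.injEq, exists_eq_left']
      constructor
      · rintro ((⟨v, hv, rfl⟩ | rfl) | rfl)
        · exact ⟨v, Or.inl hv, rfl⟩
        · refine ⟨e.a.1, Or.inr (Or.inl rfl), ?_⟩
          rw [h1]
          rfl
        · exact ⟨y.1.1, Or.inr (Or.inr rfl), h5.symm⟩
      · rintro ⟨v, hv | rfl | rfl, rfl⟩
        · exact Or.inl (Or.inl ⟨v, hv, rfl⟩)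
        · left; right
          rw [h1]
          rfl
        · right
          exact h5.symm

theorem adr_eq (σ : Player S) (w : World S) (k : ℕ) (v : S.V) :
    adr (run F σ w k) v = if v ∈ touched (run F σ w k) then some (w.lam v) else none := by
  suffices h : ∀ L : List (En S), (∀ e ∈ L, e ∈ run F σ w k) →
      adr L v = if v ∈ touched L then some (w.lam v) else none from h _ fun _ h => h
  intro L hL
  induction L with
  | nil => simp [adr, touched, vtouched]
  | cons e L ih =>
    have ih' := ih fun e' he' => hL e' (List.mem_cons_of_mem _ he')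
    have he := hL e (List.mem_cons_self)
    obtain ⟨h1, h2⟩ := run_mem σ w he
    simp only [adr, ih', mem_touched_cons]
    by_cases hv : v ∈ touched L
    · simp [hv]
    · simp only [hv, if_false, false_or]
      by_cases ha : v = e.a.1
      · subst ha
        simp only [if_true, true_or]
        rw [h1]
        rfl
      · simp only [ha, if_false, false_or]
        rcases hr : e.r with _ | y
        · simp
        · obtain ⟨_, h4, _⟩ := run_r σ w he hr
          have h5 : y.2.1 = w.lam y.1.1 := by rw [h4]; rfl
          simp only [Option.some.injEq, exists_eq_left', h5]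
          by_cases hy : v = y.1.1
          · subst hy; simp
          · simp [hy, Ne.symm hy]

/-- The known partner is the partner. -/
theorem look_eq (σ : Player S) (w : World S) (k : ℕ) (b : Bool) (a : S.Sl)
    (h : a ∈ known b (run F σ w k)) :
    look b ((run F σ w k).map En.vis) a = w.ask F b a := by
  suffices hh : ∀ L : List (En S), (∀ e ∈ L, e ∈ run F σ w k) → a ∈ known b L →
      look b (L.map En.vis) a = w.ask F b a from hh _ (fun _ h => h) h
  intro L hL ha
  induction L with
  | nil => simp [known, vknown] at ha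
  | cons e L ih =>
    have ih' := ih fun e' he' => hL e' (List.mem_cons_of_mem _ he')
    have he := hL e (List.mem_cons_self)
    simp only [List.map_cons, look]
    by_cases h1 : e.vis.b = b ∧ e.vis.a = a
    · rw [if_pos h1]
      obtain ⟨rfl, rfl⟩ := h1
      exact run_ans σ w he
    · rw [if_neg h1]
      by_cases h2 : e.vis.b ≠ b ∧ e.vis.r = some a
      · rw [if_pos h2]
        obtain ⟨h2, h3⟩ := h2
        have h4 : w.ask F e.b e.a = some a := by
          rw [← run_ans σ w he]
          exact h3
        have h5 := w.ask_inv h4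
        have h6 : (!e.b) = b := by
          have : e.b ≠ b := h2
          revert this
          cases e.b <;> cases b <;> simp
        rw [h6] at h5
        exact h5.symm
      · rw [if_neg h2]
        refine ih' ?_
        unfold known at ha ⊢
        rw [List.map_cons, mem_vknown_cons] at ha
        tauto

/-- The run is determined by the answers. -/
theorem run_congr {F' : Fx S} (σ : Player S) (w w' : World S) (k : ℕ)
    (h : ∀ j < k, w'.ask F' (σ ((run F σ w j).map En.ans)).1 (σ ((run F σ w j).map En.ans)).2 =
      w.ask F (σ ((run F σ w j).map En.ans)).1 (σ ((run F σ w j).map En.ans)).2) :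
    (run F' σ w' k).map En.vis = (run F σ w k).map En.vis := by
  induction k with
  | zero => rfl
  | succ k ih =>
    have ih' := ih fun j hj => h j (by omega)
    have h1 : (run F' σ w' k).map En.ans = (run F σ w k).map En.ans := by
      have := congrArg (List.map VE.r) ih'
      rw [List.map_map, List.map_map] at this
      exact this
    have h2 := h k (by omega)
    simp only [run, List.map_cons, ih', h1]
    congr 1
    simp only [nxt, En.vis, En.ans, Option.map_map]
    congr 1

end

end Pool.Agent.AcyAd
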