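import Pool.Agent.AcyAd.Targets1

/-!
# MP_08c6cd_lc, fully adaptive testers: job ADU-MIX, outer questions do not depend on the inner data
-/

namespace Pool.Agent.AcyAd

open scoped Classical

noncomputable section

namespace MIX_

variable {S : Sys} {F : Fx S} {B : Blk S F}

theorem rh_of_mem (i : Ins B) {x : S.V} (h : x ∈ B.M) : i.rh x = (i.rho ⟨x, h⟩).1 :=
  Equiv.Perm.ofSubtype_apply_of_mem i.rho h

theorem rh_of_not (i : Ins B) {x : S.V} (h : x ∉ B.M) : i.rh x = x :=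
  Equiv.Perm.ofSubtype_apply_of_not_mem i.rho h

theorem rh_mem (i : Ins B) (x : S.V) : i.rh x ∈ B.M ↔ x ∈ B.M := by
  by_cases h : x ∈ B.M
  · rw [rh_of_mem i h]
    exact ⟨fun _ => h, fun _ => (i.rho ⟨x, h⟩).2⟩
  · rw [rh_of_not i h]

theorem xh_of_ge (i : Ins B) (b : Bool) (v : S.V) {r : Fin S.D} (h : B.th ≤ r.1) :
    i.xh b v r = (i.xi b v ⟨r, h⟩).1 :=
  Equiv.Perm.ofSubtype_apply_of_mem (i.xi b v) h

theorem xh_of_not (i : Ins B) (b : Bool) (v : S.V) {r : Fin S.D} (h : ¬ B.th ≤ r.1) :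
    i.xh b v r = r :=
  Equiv.Perm.ofSubtype_apply_of_not_mem (i.xi b v) h

theorem xh_ge (i : Ins B) (b : Bool) (v : S.V) (r : Fin S.D) :
    B.th ≤ (i.xh b v r).1 ↔ B.th ≤ r.1 := by
  by_cases h : B.th ≤ r.1
  · rw [xh_of_ge i b v h]
    exact ⟨fun _ => h, fun _ => (i.xi b v ⟨r, h⟩).2⟩
  · rw [xh_of_not i b v h]

theorem cc_ne {κ : S.K} (hκ : κ ∉ B.KP) {b : Bool} {x : S.V} (hx : x ∈ B.M) {r : Fin S.D}
    (hr : B.th ≤ r.1) : S.cc b (x, r) ≠ some κ := by
  intro h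
  rcases B.inn b x hx r hr with ⟨κ', h1, h2⟩ | h1
  · rw [h2] at h
    exact hκ (Option.some.inj h ▸ h1)
  · rw [F.cc_none h1] at h
    cases h

theorem tw_cond (i : Ins B) {κ : S.K} (hκ : κ ∉ B.KP) (b : Bool) (y : S.Sl) :
    S.cc b y = some κ ↔ S.cc b (i.sh y) = some κ := by
  obtain ⟨x, r⟩ := y
  show _ ↔ S.cc b (i.rh x, r) = some κ
  by_cases hx : x ∈ B.M
  · have hx' := (rh_mem i x).2 hx
    by_cases hr : B.th ≤ r.1
    · exact ⟨fun h => absurd h (cc_ne hκ hx hr), fun h => absurd h (cc_ne hκ hx' hr)⟩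
    · obtain ⟨κ', _, h2⟩ := B.up b r (by omega) x hx
      rw [h2 x hx, h2 _ hx']
  · rw [rh_of_not i hx]

theorem ins_iff {b : Bool} {x : S.V} (hx : x ∈ B.M) (r : Fin S.D) :
    B.ins b (x, r) ↔ B.th ≤ r.1 := by
  by_cases hr : B.th ≤ r.1
  · refine ⟨fun _ => hr, fun _ => ?_⟩
    rcases B.inn b x hx r hr with h | h
    · exact Or.inl h
    · exact Or.inr ⟨B.sub hx, h⟩
  · refine ⟨fun h => ?_, fun h => absurd h hr⟩
    obtain ⟨κ', h1, h2⟩ := B.up b r (by omega) x hx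
    rcases h with ⟨κ, h3, h4⟩ | ⟨_, h3⟩
    · rw [h2 x hx] at h4
      exact absurd (Option.some.inj h4 ▸ h3) h1
    · have h4 := h2 x hx
      rw [F.cc_none h3] at h4
      cases h4

theorem ins_mt (w : World S) {b : Bool} {y : S.Sl} (h : B.ins b y) :
    ∃ y', w.mt F b y = some y' ∧ B.ins (!b) y' := by
  rcases h with ⟨κ, h1, h2⟩ | ⟨h1, h2⟩
  · have h3 : ∃ z, w.mt F b y = some z := by
      cases b
      · exact ⟨_, w.mt_false h2⟩
      · exact ⟨_, w.mt_true h2⟩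
    obtain ⟨z, hz⟩ := h3
    exact ⟨z, hz, Or.inl ⟨κ, h1, by rw [w.mt_cc hz, h2]⟩⟩
  · obtain ⟨z, hz⟩ := Option.ne_none_iff_exists'.1 h2
    refine ⟨z, by rw [w.mt_none (F.cc_none h2), hz], Or.inr ⟨B.fP b y z hz h1, ?_⟩⟩
    rw [F.inv b y z hz]
    simp

theorem plc_not_mem (w : World S) (i : Ins B) (b : Bool) (a : S.Sl) (h : w.lam a.1 ∉ B.M) :
    (mix w i).plc b a = w.plc b a := by
  unfold World.plc mix
  simp only [Equiv.trans_apply, if_neg h]
  rw [rh_of_not i h]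

theorem plc_mem (w : World S) (i : Ins B) (b : Bool) (a : S.Sl) (h : w.lam a.1 ∈ B.M) :
    (mix w i).plc b a = (i.rh (w.lam a.1), i.xh b a.1 (w.rk b a.1 a.2)) := by
  unfold World.plc mix
  simp only [Equiv.trans_apply, if_pos h]

theorem ins_plc (w : World S) (i : Ins B) (b : Bool) (a : S.Sl) :
    B.ins b ((mix w i).plc b a) ↔ B.ins b (w.plc b a) := by
  by_cases h : w.lam a.1 ∈ B.M
  · rw [plc_mem w i b a h, ins_iff ((rh_mem i _).2 h), xh_ge]
    exact (ins_iff h _).symm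
  · rw [plc_not_mem w i b a h]

theorem plc_of_not_ins (w : World S) (i : Ins B) (b : Bool) (a : S.Sl)
    (h : ¬ B.ins b (w.plc b a)) : (mix w i).plc b a = i.sh (w.plc b a) := by
  by_cases hm : w.lam a.1 ∈ B.M
  · have h1 : ¬ B.th ≤ (w.rk b a.1 a.2).1 := fun h' => h ((ins_iff hm _).2 h')
    rw [plc_mem w i b a hm, xh_of_not i b a.1 h1]
    rfl
  · rw [plc_not_mem w i b a hm]
    show _ = (i.rh (w.lam a.1), w.rk b a.1 a.2)
    rw [rh_of_not i hm]
    rfl

theorem unplc_of_not_ins (w : World S) (i : Ins B) (b : Bool) (z : S.Sl) (h : ¬ B.ins b z) :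
    (mix w i).unplc b (i.sh z) = w.unplc b z := by
  have h1 : w.plc b (w.unplc b z) = z := w.plc_unplc b z
  have h2 := plc_of_not_ins w i b (w.unplc b z) (by rw [h1]; exact h)
  rw [h1] at h2
  rw [← h2, (mix w i).unplc_plc]

theorem tw_val (i : Ins B) {κ : S.K} (hκ : κ ∉ B.KP) (b : Bool) (z : S.Cl b κ) :
    (i.tw b κ z).1 = i.sh z.1 := by
  unfold Ins.tw
  rw [dif_pos (tw_cond i hκ b)]
  rfl

theorem tw_symm (i : Ins B) {κ : S.K} (hκ : κ ∉ B.KP) (b : Bool) (y : S.Sl)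
    (h : S.cc b y = some κ) (h' : S.cc b (i.sh y) = some κ) :
    (i.tw b κ).symm ⟨i.sh y, h'⟩ = ⟨y, h⟩ := by
  rw [Equiv.symm_apply_eq]
  exact Subtype.ext (tw_val i hκ b ⟨y, h⟩).symm

theorem mt_mix (w : World S) (i : Ins B) {b : Bool} {y : S.Sl} (h : ¬ B.ins b y) :
    (mix w i).mt F b (i.sh y) = (w.mt F b y).map i.sh := by
  rcases hc : S.cc b y with _ | κ
  · have hM : y.1 ∉ B.M := by
      intro hM
      have h1 : ¬ B.th ≤ y.2.1 := fun h' => h ((ins_iff hM y.2).2 h')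
      obtain ⟨κ', _, h2⟩ := B.up b y.2 (by omega) y.1 hM
      have h3 : S.cc b y = some κ' := h2 y.1 hM
      rw [hc] at h3
      cases h3
    have hs : i.sh y = y := by
      show (i.rh y.1, y.2) = y
      rw [rh_of_not i hM]
    rw [hs, (mix w i).mt_none hc, w.mt_none hc]
    rcases hf : F.fx b y with _ | z
    · rfl
    · have hP : y.1 ∉ B.P := by
        intro hP
        exact h (Or.inr ⟨hP, by rw [hf]; simp⟩)
      have hz : z.1 ∉ B.M := by
        intro hz
        exact hP (B.fP (!b) z y (F.inv b y z hf) (B.sub hz))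
      have hs' : i.sh z = z := by
        show (i.rh z.1, z.2) = z
        rw [rh_of_not i hz]
      rw [Option.map_some, hs']
  · have hκ : κ ∉ B.KP := fun h' => h (Or.inl ⟨κ, h', hc⟩)
    have hc' := (tw_cond i hκ b y).1 hc
    cases b
    · rw [(mix w i).mt_false hc', w.mt_false hc, Option.map_some]
      congr 1
      unfold mix
      simp only [if_neg hκ]
      rw [Equiv.symm_trans_apply, Equiv.symm_trans_apply, tw_symm i hκ false y hc hc',
        Equiv.symm_symm, tw_val i hκ]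
    · rw [(mix w i).mt_true hc', w.mt_true hc, Option.map_some]
      congr 1
      unfold mix
      simp only [if_neg hκ]
      rw [Equiv.trans_apply, Equiv.trans_apply, tw_symm i hκ true y hc hc', tw_val i hκ]

theorem ask_mix (w : World S) (i : Ins B) (b : Bool) (a : S.Sl) (h : ¬ B.ins b (w.plc b a)) :
    (mix w i).ask F b a = w.ask F b a := by
  unfold World.ask
  rw [plc_of_not_ins w i b a h, mt_mix w i h]
  rcases hz : w.mt F b (w.plc b a) with _ | z
  · rfl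
  · rw [Option.map_some, Option.map_some, Option.map_some, unplc_of_not_ins w i (!b) z]
    intro hins
    obtain ⟨y', h1, h2⟩ := ins_mt w hins
    rw [w.mt_inv hz] at h1
    rw [Bool.not_not] at h2
    rw [Option.some.inj h1] at h
    exact h h2

end MIX_

theorem tMIX : T_MIX := by
  intro S F B w i
  refine ⟨MIX_.ins_plc w i, MIX_.ask_mix w i, ?_, fun b y => MIX_.ins_mt w, ?_,
    MIX_.plc_not_mem w i, ?_, ?_⟩
  · intro v
    exact MIX_.rh_mem i (w.lam v)
  · intro b a h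
    exact MIX_.ins_iff h _
  · intro b a h h'
    rw [MIX_.plc_mem w i b a h, MIX_.rh_of_mem i h, MIX_.xh_of_ge i b a.1 h']
  · intro κ hκ
    unfold mix
    simp only [if_pos hκ]

end

end Pool.Agent.AcyAd
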