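import Pool.Agent.AcyAd.Hier

/-!
# MP_08c6cd_lc, fully adaptive testers: the inner data of a block and the run with two copies
-/

namespace Pool.Agent.AcyAd

open scoped Classical

noncomputable section

variable {S : Sys} {F : Fx S}

/-- The inner data of a block. -/
structure Ins (B : Blk S F) where
  rho : Equiv.Perm {x : S.V // x ∈ B.M}
  xi : Bool → S.V → Equiv.Perm {r : Fin S.D // B.th ≤ r.1}
  mu : ∀ κ : S.K, S.Cl true κ ≃ S.Cl false κ

instance (B : Blk S F) : Finite (Ins B) := by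
  refine Finite.of_injective (β := Equiv.Perm {x : S.V // x ∈ B.M} ×
    (Bool → S.V → Equiv.Perm {r : Fin S.D // B.th ≤ r.1}) ×
    (∀ κ : S.K, S.Cl true κ ≃ S.Cl false κ)) (fun w => (w.rho, w.xi, w.mu)) ?_
  rintro ⟨a, b, c⟩ ⟨a', b', c'⟩ h
  simp only [Prod.mk.injEq] at h
  obtain ⟨rfl, rfl, rfl⟩ := h
  rfl

namespace Ins

variable {B : Blk S F}

/-- The permutation of the addresses. -/
def rh (i : Ins B) : Equiv.Perm S.V := Equiv.Perm.ofSubtype i.rho

/-- The permutation of the ranks. -/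
def xh (i : Ins B) (b : Bool) (v : S.V) : Equiv.Perm (Fin S.D) := Equiv.Perm.ofSubtype (i.xi b v)

/-- The permutation of the address slots. -/
def sh (i : Ins B) : Equiv.Perm S.Sl := Equiv.prodCongr i.rh (Equiv.refl _)

/-- The permutation of the slots of a class. -/
def tw (i : Ins B) (b : Bool) (κ : S.K) : Equiv.Perm (S.Cl b κ) :=
  if h : ∀ y, S.cc b y = some κ ↔ S.cc b (i.sh y) = some κ then i.sh.subtypeEquiv h else 1

end Ins

/-- The world `w` with new inner data. -/
def mix {B : Blk S F} (w : World S) (i : Ins B) : World S where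
  lam := w.lam.trans i.rh
  rk b v := if w.lam v ∈ B.M then (w.rk b v).trans (i.xh b v) else w.rk b v
  mu κ := if κ ∈ B.KP then i.mu κ else
    (i.tw true κ).symm.trans ((w.mu κ).trans (i.tw false κ))

/-- A guess: the roots and the flagged pairs (out-slot, in-slot). -/
structure Gs (S : Sys) where
  R0 : Finset S.V
  Fl : Finset (S.Sl × S.Sl)

/-- The partner in a flagged pair. -/
def Gs.flag (g : Gs S) (b : Bool) (a : S.Sl) : Option S.Sl :=
  if h : ∃ a', (if b then (a, a') else (a', a)) ∈ g.Fl then some h.choose else none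

section

variable (B : Blk S F) (w0 : World S) (g : Gs S)

/-- The names discovered by the second copy. -/
def p2 : List (VE S) → Finset S.V
  | [] => ∅
  | e :: L => p2 L ∪ (if e.a ∉ vknown e.b L ∧ g.flag e.b e.a = none ∧ B.ins e.b (w0.plc e.b e.a) ∧
      e.a.1 ∈ g.R0 ∪ p2 L then e.nm else ∅)

/-- The question is given to the second copy. -/
def c2 (L : List (VE S)) (b : Bool) (a : S.Sl) : Prop :=
  a ∉ vknown b L ∧ g.flag b a = none ∧ B.ins b (w0.plc b a) ∧ a.1 ∈ g.R0 ∪ p2 B w0 g L

/-- The question is an inner question which is given to the first copy. -/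
def c1 (L : List (VE S)) (b : Bool) (a : S.Sl) : Prop :=
  a ∉ vknown b L ∧ g.flag b a = none ∧ B.ins b (w0.plc b a) ∧ a.1 ∉ g.R0 ∪ p2 B w0 g L

/-- The answer in the run with two copies `w1`, `w2`. -/
def ans2 (w1 w2 : World S) (L : List (VE S)) (b : Bool) (a : S.Sl) : Option S.Sl :=
  if a ∈ vknown b L then look b L a
  else if g.flag b a ≠ none then g.flag b a
  else if c2 B w0 g L b a then w2.ask F b a
  else w1.ask F b a

/-- The run with two copies. -/
def run2 (σ : Player S) (w1 w2 : World S) : ℕ → List (VE S)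
  | 0 => []
  | k + 1 => ⟨(σ ((run2 σ w1 w2 k).map VE.r)).1, (σ ((run2 σ w1 w2 k).map VE.r)).2,
      ans2 B w0 g w1 w2 (run2 σ w1 w2 k) (σ ((run2 σ w1 w2 k).map VE.r)).1
        (σ ((run2 σ w1 w2 k).map VE.r)).2⟩ :: run2 σ w1 w2 k

/-- The second copy only discovers new names, and the first copy does not meet them. -/
def nice2 : List (VE S) → Prop
  | [] => True
  | e :: L => nice2 L ∧
      (c2 B w0 g L e.b e.a → ∃ y, e.r = some y ∧ y.1 ∉ vtouched L ∧ y.1 ≠ e.a.1 ∧ y.1 ∉ g.R0 ∧
        w0.lam e.a.1 ∈ B.M ∧ w0.lam y.1 ∈ B.M) ∧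
      (c1 B w0 g L e.b e.a → ∃ y, e.r = some y ∧ y.1 ∉ g.R0 ∪ p2 B w0 g L)

/-- The names discovered by the second copy through a slot of rank at least `th'`. -/
def d2 (w2 : World S) : List (VE S) → Finset S.V
  | [] => ∅
  | e :: L => d2 w2 L ∪ (if c2 B w0 g L e.b e.a ∧ B.th' ≤ (w2.plc e.b e.a).2 then e.nm else ∅)

/-- The disjoint vertical paths of length `h` with lower ends `u i`. -/
def paths2 (w2 : World S) (h y : ℕ) (u : Fin y → S.V) (L : List (VE S)) : Prop :=
  (∀ i, ∀ l < h, (vpar L)^[l] (u i) ∈ d2 B w0 g w2 L) ∧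
  Function.Injective fun p : Fin y × Fin h => (vpar L)^[p.2.1 + 1] (u p.1)

end

end

end Pool.Agent.AcyAd
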