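import Pool.Agent.AcyAd.Targets4

/-!
# ADI-NFO: the classes of the out-slots
-/

namespace Pool.Agent.AcyAd

open scoped Classical
open Pool.Agent.AcyTest

noncomputable section

namespace NFO_

variable (d : Dat)

theorem le_tr {t r : ℕ} (ht : t ≤ d.R) : t ≤ d.tr r ↔ d.th t ≤ r := by
  constructor
  · intro h
    have h0 : d.th 0 ≤ r := by rw [d.th0]; exact Nat.zero_le _
    have h1 : d.th (d.tr r) ≤ r :=
      Nat.findGreatest_spec (P := fun t => d.th t ≤ r) (Nat.zero_le d.R) h0
    exact le_trans (d.thm.monotone h) h1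
  · intro h
    exact Nat.le_findGreatest (P := fun t => d.th t ≤ r) ht h

theorem le_pl {t : ℕ} {x : d.V} (ht : t ≤ d.R) : t ≤ d.pl x ↔ ∀ s < t, d.rich s x := by
  constructor
  · intro h
    have h0 : d.isb 0 x := ⟨Nat.zero_le _, fun s hs => absurd hs (Nat.not_lt_zero _)⟩
    have h1 : d.isb (d.pl x) x :=
      Nat.findGreatest_spec (P := fun t => d.isb t x) (Nat.zero_le d.R) h0
    exact fun s hs => h1.2 s (lt_of_lt_of_le hs h)
  · intro h
    exact Nat.le_findGreatest (P := fun t => d.isb t x) ht ⟨ht, h⟩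

theorem lv_le (x : d.V) (r : ℕ) : d.lv x r ≤ d.R :=
  le_trans (min_le_left _ _) (Nat.findGreatest_le d.R)

theorem le_lv {t : ℕ} {x : d.V} {r : ℕ} (ht : t ≤ d.R) :
    t ≤ d.lv x r ↔ (∀ s < t, d.rich s x) ∧ d.th t ≤ r := by
  unfold Dat.lv
  rw [le_min_iff, le_tr d ht, le_pl d ht, and_comm]

theorem lv_eq {t : ℕ} {x : d.V} {r : ℕ} (ht : t ≤ d.R) :
    d.lv x r = t ↔ (∀ s < t, d.rich s x) ∧ d.th t ≤ r ∧
      (t < d.R → d.rich t x → r < d.th (t + 1)) := by
  constructor
  · intro h
    have h1 := (le_lv d ht).1 h.ge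
    refine ⟨h1.1, h1.2, fun hR hr => ?_⟩
    by_contra hth
    have h2 : t + 1 ≤ d.lv x r := by
      rw [le_lv d hR]
      refine ⟨fun s hs => ?_, not_lt.1 hth⟩
      rcases Nat.lt_succ_iff_lt_or_eq.1 hs with h3 | rfl
      · exact h1.1 s h3
      · exact hr
    omega
  · rintro ⟨h1, h2, h3⟩
    have h4 : t ≤ d.lv x r := (le_lv d ht).2 ⟨h1, h2⟩
    refine le_antisymm ?_ h4
    by_contra h5
    have h6 : t + 1 ≤ d.lv x r := by omega
    have h7 : t + 1 ≤ d.R := le_trans h6 (lv_le d x r)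
    have h8 := (le_lv d h7).1 h6
    exact absurd (h3 h7 (h8.1 t (Nat.lt_succ_self t))) (not_lt.2 h8.2)

theorem cl_eq {t l : ℕ} {j : Bool} {x : d.V} (h : t < d.R) (κ : d.K) :
    d.cl t l j x = some κ ↔ (κ.1 : ℕ) = t ∧ κ.2.1 = d.key t l x ∧ κ.2.2 = j := by
  obtain ⟨⟨s, hs⟩, k, j'⟩ := κ
  unfold Dat.cl
  rw [dif_pos h]
  simp only [Option.some.injEq, Prod.mk.injEq, Fin.mk.injEq]
  constructor
  · rintro ⟨h1, h2, h3⟩
    exact ⟨h1.symm, h2.symm, h3.symm⟩
  · rintro ⟨h1, h2, h3⟩
    exact ⟨h1.symm, h2.symm, h3.symm⟩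

theorem cl_ne {t l : ℕ} {j : Bool} {x : d.V} (h : t < d.R) : d.cl t l j x ≠ none := by
  unfold Dat.cl
  rw [dif_pos h]
  simp

theorem exit_lt {t : ℕ} {x : d.V} {r : ℕ} (h : t < d.R) : d.exit t x r ↔ d.co t x = 3 * d.T - 1 := by
  unfold Dat.exit
  rw [if_pos h]

theorem nfo_iff {t : ℕ} {x : d.V} {r : ℕ} (ht : t < d.R) :
    d.nfo t x r ↔ (d.lv x r = t ∧ ¬ d.exit t x r ∧
      ¬ (d.co t x = d.T - 1 ∧ d.th (t + 1) ≤ r ∧ ¬ d.exit (t + 1) x r)) ∨
      (d.lv x r = t + 1 ∧ d.exit (t + 1) x r) := by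
  have hT := d.hT
  rw [lv_eq d ht.le, lv_eq d (Nat.succ_le_of_lt ht), exit_lt d ht]
  unfold Dat.nfo
  constructor
  · rintro ⟨h1, h2, h3, h4⟩
    by_cases hl : d.rich t x ∧ d.th (t + 1) ≤ r
    · right
      obtain ⟨h5, h6⟩ := hl
      have h7 : d.exit (t + 1) x r := by
        rcases h4 (by have := h5.1; omega) h5.2 with h | h
        · omega
        · exact h
      refine ⟨⟨fun s hs => ?_, h6, fun hR hr => ?_⟩, h7⟩
      · rcases Nat.lt_succ_iff_lt_or_eq.1 hs with h8 | rfl
        · exact h1 s h8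
        · exact h5
      · exfalso
        rw [exit_lt d hR] at h7
        have := hr.2
        omega
    · left
      refine ⟨⟨h1, h2, fun _ hr => ?_⟩, h3, ?_⟩
      · by_contra h5
        exact hl ⟨hr, not_lt.1 h5⟩
      · rintro ⟨h5, h6, h7⟩
        rcases h4 (by omega) (by omega) with h | h
        · omega
        · exact h7 h
  · rintro (⟨⟨h1, h2, h3⟩, h4, h5⟩ | ⟨⟨h1, h2, -⟩, h4⟩)
    · refine ⟨h1, h2, h4, fun h6 h7 => ?_⟩
      by_cases h8 : d.co t x = d.T - 1
      · by_contra h9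
        rw [not_or] at h9
        exact h5 ⟨h8, not_lt.1 h9.1, h9.2⟩
      · left
        exact h3 ht ⟨by omega, h7⟩
    · have h5 := h1 t (Nat.lt_succ_self t)
      refine ⟨fun s hs => h1 s (Nat.lt_succ_of_lt hs),
        le_trans (d.thm (Nat.lt_succ_self t)).le h2, ?_, fun _ _ => Or.inr h4⟩
      have := h5.2
      omega

theorem jmo_iff {t : ℕ} {x : d.V} {r : ℕ} (ht : t < d.R) :
    d.jmo t x r ↔ d.lv x r = t ∧
      (d.co t x = d.T - 1 ∧ d.th (t + 1) ≤ r ∧ ¬ d.exit (t + 1) x r) := by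
  have hT := d.hT
  rw [lv_eq d ht.le]
  unfold Dat.jmo
  constructor
  · rintro ⟨h1, h2, h3, h4⟩
    refine ⟨⟨h1, le_trans (d.thm (Nat.lt_succ_self t)).le h3, fun _ hr => ?_⟩, h2, h3, h4⟩
    have := hr.1
    omega
  · rintro ⟨⟨h1, _, _⟩, h2, h3, h4⟩
    exact ⟨h1, h2, h3, h4⟩

end NFO_

open NFO_ in
theorem tNFO : T_NFO := by
  intro d x r _
  have hT := d.hT
  have hR := d.hR
  have hle := lv_le d x r
  refine ⟨fun κ => ?_, ?_⟩
  · have hκ : (κ.1 : ℕ) < d.R := κ.1.2
    rw [nfo_iff d hκ, jmo_iff d hκ]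
    unfold Dat.cout
    by_cases h1 : d.exit (d.lv x r) x r
    · rw [if_pos h1]
      by_cases h2 : d.lv x r = 0
      · rw [if_pos h2]
        constructor
        · intro h
          cases h
        · rintro (⟨-, (⟨h3, h4, -⟩ | ⟨h3, -⟩), -⟩ | ⟨-, ⟨h3, h4, -⟩, -⟩)
          · rw [← h3] at h4
            exact absurd h1 h4
          · omega
          · rw [h3, exit_lt d hκ] at h1
            omega
      · rw [if_neg h2, cl_eq d (by omega)]
        constructor
        · rintro ⟨h3, h4, h5⟩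
          left
          refine ⟨h5, Or.inr ⟨by omega, ?_⟩, ?_⟩
          · have : d.lv x r = κ.1 + 1 := by omega
            rw [← this]
            exact h1
          · rw [h3]
            exact h4
        · rintro (⟨h5, (⟨h3, h4, -⟩ | ⟨h3, -⟩), h6⟩ | ⟨-, ⟨h3, h4, -⟩, -⟩)
          · rw [← h3] at h4
            exact absurd h1 h4
          · have h7 : d.lv x r - 1 = κ.1 := by omega
            rw [h7]
            exact ⟨rfl, h6, h5⟩
          · rw [h3, exit_lt d hκ] at h1
            omega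
    · rw [if_neg h1]
      by_cases h2 : d.lv x r = d.R
      · rw [if_pos h2]
        constructor
        · intro h
          cases h
        · rintro (⟨-, (⟨h3, -⟩ | ⟨h3, h4⟩), -⟩ | ⟨-, ⟨h3, -⟩, -⟩)
          · omega
          · rw [← h3] at h4
            exact absurd h4 h1
          · omega
      · rw [if_neg h2]
        have h2' : d.lv x r < d.R := by omega
        by_cases h3 : d.co (d.lv x r) x = d.T - 1 ∧ d.th (d.lv x r + 1) ≤ r ∧
            ¬ d.exit (d.lv x r + 1) x r
        · rw [if_pos h3, cl_eq d h2']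
          constructor
          · rintro ⟨h4, h5, h6⟩
            right
            refine ⟨h6, ⟨h4.symm, ?_⟩, ?_⟩
            · rw [h4]
              exact h3
            · rw [h4]
              exact h5
          · rintro (⟨-, (⟨h4, -, h5⟩ | ⟨h4, h5⟩), -⟩ | ⟨h6, ⟨h4, -⟩, h5⟩)
            · rw [← h4] at h5
              exact absurd h3 h5
            · rw [← h4] at h5
              exact absurd h5 h1
            · rw [h4]
              exact ⟨rfl, h5, h6⟩
        · rw [if_neg h3, cl_eq d h2']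
          constructor
          · rintro ⟨h4, h5, h6⟩
            left
            refine ⟨h6, Or.inl ⟨h4.symm, ?_, ?_⟩, ?_⟩
            · rw [h4]
              exact h1
            · rw [h4]
              exact h3
            · rw [h4]
              exact h5
          · rintro (⟨h7, (⟨h4, -⟩ | ⟨h4, h5⟩), h6⟩ | ⟨h6, ⟨h4, h7⟩, h5⟩)
            · rw [h4]
              exact ⟨rfl, h6, h7⟩
            · rw [← h4] at h5
              exact absurd h5 h1
            · rw [← h4] at h7
              exact absurd h7 h3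
  · have hbto : d.bto x r → d.lv x r = d.R ∧ ¬ d.exit (d.lv x r) x r := by
      rintro ⟨h1, h2, h3⟩
      have h4 : d.lv x r = d.R := (lv_eq d le_rfl).2 ⟨h1.2, h2, fun h => absurd h (lt_irrefl _)⟩
      rw [h4]
      exact ⟨rfl, h3⟩
    have hco : d.co 0 x = 3 * d.T - 1 → d.lv x r = 0 ∧ d.exit (d.lv x r) x r := by
      intro h
      have h4 : d.lv x r = 0 := (lv_eq d (Nat.zero_le _)).2
        ⟨fun s hs => absurd hs (Nat.not_lt_zero _), by rw [d.th0]; exact Nat.zero_le _,
          fun _ hr => by have := hr.2; omega⟩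
      rw [h4, exit_lt d hR]
      exact ⟨rfl, h⟩
    unfold Dat.cout
    by_cases h1 : d.exit (d.lv x r) x r
    · rw [if_pos h1]
      by_cases h2 : d.lv x r = 0
      · rw [if_pos h2]
        refine ⟨fun _ => Or.inr ?_, fun _ => rfl⟩
        rw [h2, exit_lt d hR] at h1
        exact h1
      · rw [if_neg h2]
        constructor
        · intro h
          exact absurd h (cl_ne d (by omega))
        · rintro (h | h)
          · exact absurd h1 (hbto h).2
          · exact absurd (hco h).1 h2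
    · rw [if_neg h1]
      by_cases h2 : d.lv x r = d.R
      · rw [if_pos h2]
        refine ⟨fun _ => Or.inl ?_, fun _ => rfl⟩
        have h3 := (lv_eq d le_rfl).1 h2
        rw [h2] at h1
        exact ⟨⟨le_rfl, h3.1⟩, h3.2.1, h1⟩
      · rw [if_neg h2]
        have h2' : d.lv x r < d.R := by omega
        constructor
        · intro h
          split_ifs at h with h3
          · exact absurd h (cl_ne d h2')
          · exact absurd h (cl_ne d h2')
        · rintro (h | h)
          · exact absurd (hbto h).1 h2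
          · exact absurd (hco h).2 h1

end

end Pool.Agent.AcyAd
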