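import Pool.Agent.AcyAd.Targets5

/-!
# PARX: the parameters exist
-/

namespace Pool.Agent.AcyAd

open scoped Classical
open Pool.Agent.AcyTest

noncomputable section

namespace PARX_

variable {S : Sys} {F : Fx S}

theorem card_eq (H : Hier S F) : ∀ t ≤ H.R, Fintype.card S.V = (3 * H.T) ^ t * H.nb t := by
  intro t
  induction t with
  | zero => intro _; rw [pow_zero, one_mul, H.nb_zero]
  | succ t ih =>
    intro ht
    rw [ih (by omega), H.nb_succ t (by omega), pow_succ]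
    ring

theorem nb_ge (H : Hier S F) : ∀ d, d ≤ H.R → H.nb H.R ≤ H.nb (H.R - d) := by
  intro d
  induction d with
  | zero => intro _; rfl
  | succ d ih =>
    intro hd
    refine (ih (by omega)).trans ?_
    have h1 := H.nb_succ (H.R - (d + 1)) (by omega)
    have h2 : H.R - (d + 1) + 1 = H.R - d := by omega
    rw [h2] at h1
    rw [h1]
    have hT := H.T_big
    exact Nat.le_mul_of_pos_left _ (by omega)

end PARX_

open PARX_

theorem tPARX (hA : T_PXA) (hX : T_PXX) (hY : T_PXY) : T_PARX := by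
  intro S F H q U K0 cp h hq hK0 hcp hh hpow hrho hnb hN12 hqU hlog hhU hT hnu hg
  set R := H.R with hR
  set T := H.T with hTdef
  set N := Fintype.card S.V with hNdef
  set D := S.D with hD
  have hR1 : 1 ≤ R := H.R_pos
  have hD2 : 2 ≤ D := by
    have := H.th_2 0 (by omega)
    omega
  -- the size of U
  have hlog0 : 0 ≤ Real.log (N : ℝ) := by
    rcases Nat.eq_zero_or_pos N with h0 | h0
    · rw [h0]; simp
    · exact Real.log_nonneg (by exact_mod_cast h0)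
  have hU64 : 64 ≤ U := by
    have h1 : (64 : ℝ) ≤ U := by
      refine le_trans ?_ hlog
      nlinarith
    exact_mod_cast h1
  have hU1 : 1 ≤ U := by omega
  -- the size of T
  have hTbig : 10 ^ 6 * D ^ 2 * (R + 2) * (K0 + 2) ≤ T := by
    refine le_trans ?_ hT
    exact Nat.le_mul_of_pos_right _ (pow_pos hU1 _)
  have hTU : 10 ^ 6 * U ^ (3 * R + 4) ≤ T := by
    refine le_trans ?_ hT
    have h1 : 10 ^ 6 * U ^ (3 * R + 4) * 1 ≤
        10 ^ 6 * U ^ (3 * R + 4) * (D ^ 2 * (R + 2) * (K0 + 2)) :=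
      Nat.mul_le_mul_left _ (Nat.succ_le_of_lt (by positivity))
    calc 10 ^ 6 * U ^ (3 * R + 4) = 10 ^ 6 * U ^ (3 * R + 4) * 1 := (mul_one _).symm
      _ ≤ _ := h1
      _ = _ := by ring
  have hT6 : 10 ^ 6 ≤ T := by
    refine le_trans ?_ hTU
    exact Nat.le_mul_of_pos_right _ (pow_pos hU1 _)
  have hTU1 : 10 ^ 6 * U ≤ T := by
    refine le_trans ?_ hTU
    exact Nat.mul_le_mul_left _ (Nat.le_self_pow (by omega) U)
  have hTD : 4 * D ≤ T := by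
    refine le_trans ?_ hTbig
    have h1 : D ≤ D ^ 2 := Nat.le_self_pow (by omega) D
    nlinarith [Nat.zero_le (D ^ 2 * R * K0), Nat.zero_le (D ^ 2 * R), Nat.zero_le (D ^ 2 * K0)]
  have hTR : R ≤ T := by
    refine le_trans ?_ hTbig
    have h1 : 1 ≤ 10 ^ 6 * D ^ 2 * (K0 + 2) := Nat.succ_le_of_lt (by positivity)
    calc R ≤ R + 2 := by omega
      _ = 1 * (R + 2) := (one_mul _).symm
      _ ≤ 10 ^ 6 * D ^ 2 * (K0 + 2) * (R + 2) := Nat.mul_le_mul_right _ h1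
      _ = _ := by ring
  -- the size of N
  have hNR : N = (3 * T) ^ R * H.nb R := card_eq H R le_rfl
  have hNbig : (3 * T) ^ (R + 4) ≤ N := by
    rw [hNR, pow_add]
    exact Nat.mul_le_mul_left _ hnb
  have hTN : T ≤ N := by
    refine le_trans ?_ hNbig
    calc T ≤ 3 * T := by omega
      _ ≤ (3 * T) ^ (R + 4) := Nat.le_self_pow (by omega) _
  have hqT : q ≤ T ^ R := by
    refine le_trans ?_ hqU
    exact Nat.le_mul_of_pos_right _ (pow_pos hU1 _)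
  have hq8 : 8 * q ≤ N := by
    calc 8 * q ≤ 8 * T ^ R := Nat.mul_le_mul_left _ hqT
      _ ≤ T ^ 4 * T ^ R := by
          refine Nat.mul_le_mul_right _ ?_
          calc 8 ≤ T := by omega
            _ ≤ T ^ 4 := Nat.le_self_pow (by norm_num) _
      _ = T ^ (R + 4) := by rw [← pow_add, add_comm]
      _ ≤ (3 * T) ^ (R + 4) := Nat.pow_le_pow_left (by omega) _
      _ ≤ N := hNbig
  -- real versions
  have hN0 : (0 : ℝ) < N := by
    have : 0 < N := by omega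
    exact_mod_cast this
  have hT0 : (0 : ℝ) < T := by
    have : 0 < T := by omega
    exact_mod_cast this
  have hTr6 : (10 : ℝ) ^ 6 ≤ T := by exact_mod_cast hT6
  have hU0 : (0 : ℝ) < U := by
    have : 0 < U := by omega
    exact_mod_cast this
  have hUr1 : (1 : ℝ) ≤ U := by exact_mod_cast hU1
  have hD0 : (0 : ℝ) < D := by
    have : 0 < D := by omega
    exact_mod_cast this
  have hq0 : (0 : ℝ) ≤ q := Nat.cast_nonneg _
  have hqTr : (q : ℝ) ≤ (T : ℝ) ^ R := by exact_mod_cast hqT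
  have hNbigr : (3 * (T : ℝ)) ^ (R + 4) ≤ N := by exact_mod_cast hNbig
  have hl1 : 1 ≤ Real.log (N : ℝ) := by
    have h1 : Real.exp 1 ≤ N := by
      have h2 := Real.exp_one_lt_d9
      have h3 : (10 : ℝ) ^ 6 ≤ N := by exact_mod_cast hT6.trans hTN
      linarith
    rw [← Real.log_exp 1]
    exact Real.log_le_log (Real.exp_pos _) h1
  have hqUr : (q : ℝ) * (U : ℝ) ^ (4 * R) ≤ (T : ℝ) ^ R := by exact_mod_cast hqU
  -- the blocks
  have hnbge : ∀ t ≤ R, (3 * T) ^ 4 ≤ H.nb t := by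
    intro t ht
    have h1 := nb_ge H (R - t) (Nat.sub_le _ _)
    rw [show R - (R - t) = t by omega] at h1
    exact hnb.trans h1
  have hnbT : ∀ t ≤ R, 2 * (T : ℝ) ^ 3 ≤ H.nb t := by
    intro t ht
    have h1 : 2 * T ^ 3 ≤ H.nb t := by
      refine le_trans ?_ (hnbge t ht)
      calc 2 * T ^ 3 ≤ T * T ^ 3 := Nat.mul_le_mul_right _ (by omega)
        _ = T ^ 4 := by ring
        _ ≤ (3 * T) ^ 4 := Nat.pow_le_pow_left (by omega) _
    exact_mod_cast h1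
  have hT3 : (0 : ℝ) < (T : ℝ) ^ 3 := by positivity
  have hXb : ∀ s t, s ≤ t → s ≤ R →
      400 * (D : ℝ) * ((⌊(U : ℝ) ^ (3 * s) * H.nb s / (T : ℝ) ^ 3⌋₊ : ℝ) + 2) ≤
      800 * D * (U : ℝ) ^ (3 * t) / (T : ℝ) ^ 3 * H.nb s := by
    intro s t hst hs
    have hnb0 : (0 : ℝ) ≤ H.nb s := Nat.cast_nonneg _
    have h1 : (⌊(U : ℝ) ^ (3 * s) * H.nb s / (T : ℝ) ^ 3⌋₊ : ℝ) ≤
        (U : ℝ) ^ (3 * t) * H.nb s / (T : ℝ) ^ 3 := by
      refine (Nat.floor_le (by positivity)).trans ?_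
      have h2 : (U : ℝ) ^ (3 * s) ≤ (U : ℝ) ^ (3 * t) :=
        pow_le_pow_right₀ hUr1 (by omega)
      gcongr
    have h3 : (2 : ℝ) ≤ (U : ℝ) ^ (3 * t) * H.nb s / (T : ℝ) ^ 3 := by
      rw [le_div_iff₀ hT3]
      have h4 : (1 : ℝ) ≤ (U : ℝ) ^ (3 * t) := one_le_pow₀ hUr1
      have h5 := hnbT s hs
      nlinarith
    calc 400 * (D : ℝ) * ((⌊(U : ℝ) ^ (3 * s) * H.nb s / (T : ℝ) ^ 3⌋₊ : ℝ) + 2)
        ≤ 400 * (D : ℝ) * ((U : ℝ) ^ (3 * t) * H.nb s / (T : ℝ) ^ 3 +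
          (U : ℝ) ^ (3 * t) * H.nb s / (T : ℝ) ^ 3) := by gcongr
      _ = _ := by ring
  set n' := (K0 + 2) * (2 * h (R - 1) + 3) with hn'
  set θ : ℝ := 800 * D * (U : ℝ) ^ (3 * R) / (T : ℝ) ^ 3 with hθ
  have hθ0 : 0 < θ := by rw [hθ]; positivity
  have hnuU : ((H.nu (2 * n') : ℕ) : ℝ) ≤ U := by exact_mod_cast hnu
  obtain ⟨a1, a2, a3, a4, a5⟩ := hA D R K0 U T N (H.nu (2 * n')) q θ hD2 hK0 hU1
    (Nat.cast_nonneg _) hnuU hq0 hqTr hNbigr hT hθ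
  set al : ℝ := 2 * (1 + (H.nu (2 * n') : ℝ)) * θ * (((T - 1 : ℕ) : ℝ) + K0 + 1) +
    (2 * q / N + 4 * D * (R + 2) * θ) * (((T - 1 : ℕ) : ℝ) * (1 + (H.nu (2 * n') : ℝ))) with hal
  have hal0 : 0 < al := by
    rw [hal]
    have h1 : 0 < 2 * (1 + (H.nu (2 * n') : ℝ)) * θ * (((T - 1 : ℕ) : ℝ) + K0 + 1) := by
      positivity
    have h2 : 0 ≤ (2 * q / N + 4 * D * (R + 2) * θ) *
        (((T - 1 : ℕ) : ℝ) * (1 + (H.nu (2 * n') : ℝ))) := by
      positivity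
    linarith
  have hK0r : (3 : ℝ) ≤ K0 := by exact_mod_cast hK0
  have hT1 : 1 / (T : ℝ) ≤ 1 := by
    rw [div_le_one hT0]
    linarith
  have halpow : (Real.exp 1 * al / K0) ^ K0 ≤ ((N : ℝ) ^ 12)⁻¹ := by
    have h1 : Real.exp 1 * al / K0 ≤ 1 / T := by
      rw [div_le_iff₀ (by linarith)]
      have h2 := Real.exp_one_lt_d9
      calc Real.exp 1 * al ≤ K0 * (1 / T) := by
            apply mul_le_mul _ a1 hal0.le (by positivity)
            linarith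
        _ = 1 / T * K0 := by ring
    calc (Real.exp 1 * al / K0) ^ K0 ≤ (1 / (T : ℝ)) ^ K0 := by
          apply pow_le_pow_left₀ _ h1
          have := Real.exp_pos 1
          positivity
      _ = ((T : ℝ) ^ K0)⁻¹ := by rw [one_div, inv_pow]
      _ ≤ ((N : ℝ) ^ 12)⁻¹ := by
          apply inv_anti₀ (by positivity)
          exact_mod_cast hN12
  set l : ℝ := Real.log (N : ℝ) with hl
  have hXge : ∀ t, 1 ≤ t → t < R → (U : ℝ) * ((⌈8 * ((2 * q / N + 4 * D * (R + 2) *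
      (800 * D * (U : ℝ) ^ (3 * t) / (T : ℝ) ^ 3)) * ((6 * h (t - 1) + 4) * H.nb (t + 1)) + 1)⌉₊ +
      ⌈12 * l⌉₊ : ℕ) : ℝ) + (U : ℝ) ^ 2 * (2 * q * l / (T - 1 : ℕ) *
        (2 * (U : ℝ) ^ 2 * l / (T - 1 : ℕ)) ^ (t - 1)) ≤
      (⌊(U : ℝ) ^ (3 * (t + 1)) * H.nb (t + 1) / (T : ℝ) ^ 3⌋₊ : ℝ) := by
    intro t ht1 htR
    have h1 := hX D R K0 U T t (h (t - 1)) N q l (H.nb (t + 1)) hD2 ht1 htR hl1 hlog
      (by exact_mod_cast hhU (t - 1) (by omega)) hq0 hqTr hNbigr hT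
      (by exact_mod_cast card_eq H (t + 1) (by omega))
    have h2 := Nat.lt_floor_add_one ((U : ℝ) ^ (3 * (t + 1)) * H.nb (t + 1) / (T : ℝ) ^ 3)
    have hnb0 : (0 : ℝ) ≤ H.nb (t + 1) := Nat.cast_nonneg _
    have h3 := Nat.ceil_lt_add_one (a := 8 * ((2 * (q : ℝ) / N + 4 * D * (R + 2) *
      (800 * D * (U : ℝ) ^ (3 * t) / (T : ℝ) ^ 3)) * ((6 * h (t - 1) + 4) * H.nb (t + 1)) + 1))
      (by positivity)
    have h4 := Nat.ceil_lt_add_one (a := 12 * l) (by positivity)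
    set y1 := ⌈8 * ((2 * (q : ℝ) / N + 4 * D * (R + 2) *
      (800 * D * (U : ℝ) ^ (3 * t) / (T : ℝ) ^ 3)) * ((6 * h (t - 1) + 4) * H.nb (t + 1)) + 1)⌉₊
    set y2 := ⌈12 * l⌉₊
    set f1 := ⌊(U : ℝ) ^ (3 * (t + 1)) * H.nb (t + 1) / (T : ℝ) ^ 3⌋₊
    have h5 : (U : ℝ) * ((y1 + y2 : ℕ) : ℝ) ≤ U * (8 * ((2 * (q : ℝ) / N + 4 * D * (R + 2) *
      (800 * D * (U : ℝ) ^ (3 * t) / (T : ℝ) ^ 3)) * ((6 * h (t - 1) + 4) * H.nb (t + 1)) + 1) +
      1 + (12 * l + 1)) := by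
      apply mul_le_mul_of_nonneg_left _ hU0.le
      push_cast
      linarith
    linarith
  have hYlt := hY R U T q l hR1 hl1 hlog hq0 hqUr (by omega)
  refine ⟨{
    h := h
    X := fun t => if t = 0 then 2 * q else ⌊(U : ℝ) ^ (3 * t) * H.nb t / (T : ℝ) ^ 3⌋₊
    Ns := U
    K0 := K0
    n' := n'
    n := 2 * n'
    cp := cp
    m4 := fun t => ⌈8 * ((2 * q / N + 4 * D * (R + 2) *
      (800 * D * (U : ℝ) ^ (3 * t) / (T : ℝ) ^ 3)) * ((6 * h (t - 1) + 4) * H.nb (t + 1)) + 1)⌉₊ +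
      ⌈12 * l⌉₊
    θ := θ
    θ4 := fun t => 800 * D * (U : ℝ) ^ (3 * t) / (T : ℝ) ^ 3
    al := al
    al4 := fun t => (2 * q / N + 4 * D * (R + 2) *
      (800 * D * (U : ℝ) ^ (3 * t) / (T : ℝ) ^ 3)) * ((6 * h (t - 1) + 4) * H.nb (t + 1)) + 1
    Y := fun t => 2 * q * l / (T - 1 : ℕ) * (2 * (U : ℝ) ^ 2 * l / (T - 1 : ℕ)) ^ t
    q_pos := hq
    N_D := hTD.trans hTN
    N_q := hq8
    N_R := hTR.trans hTN
    N_10 := by
      show 10 ≤ N
      omega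
    X_zero := by
      rw [if_pos rfl]
    X_zero_N := by
      show 2 * (if 0 = 0 then 2 * q else _) ≤ N
      rw [if_pos rfl]
      omega
    X_one := ?_
    h_pos := hh
    Ns_pow := hpow
    Ns_T := ?_
    θ_nonneg := hθ0.le
    θ_le := a4
    dn := ?_
    θ_T := a5
    rho := hrho
    K0_pos := by omega
    cp_ge := hcp
    al_pos := hal0
    al_K0 := by linarith
    al_ge := le_refl _
    al_pow := halpow
    c3 := a2
    c3' := a3
    θ4_nonneg := fun t => by positivity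
    dn4 := ?_
    al4_ge := fun t _ _ => by
      show _ ≤ _ + (1 : ℝ)
      linarith
    al4_pos := fun t => by
      have hnb0 : (0 : ℝ) ≤ H.nb (t + 1) := Nat.cast_nonneg _
      have : 0 ≤ (2 * (q : ℝ) / N + 4 * D * (R + 2) *
        (800 * D * (U : ℝ) ^ (3 * t) / (T : ℝ) ^ 3)) *
          ((6 * h (t - 1) + 4) * H.nb (t + 1)) := by positivity
      linarith
    m4_al4 := fun t => by
      rw [Nat.cast_add]
      have h1 := Nat.le_ceil (8 * ((2 * (q : ℝ) / N + 4 * D * (R + 2) *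
        (800 * D * (U : ℝ) ^ (3 * t) / (T : ℝ) ^ 3)) *
          ((6 * h (t - 1) + 4) * H.nb (t + 1)) + 1))
      have h2 : (0 : ℝ) ≤ (⌈12 * l⌉₊ : ℝ) := Nat.cast_nonneg _
      linarith
    m4_log := fun t => by
      rw [Nat.cast_add]
      have h1 := Nat.le_ceil (12 * l)
      have h2 : (0 : ℝ) ≤ (⌈8 * ((2 * (q : ℝ) / N + 4 * D * (R + 2) *
        (800 * D * (U : ℝ) ^ (3 * t) / (T : ℝ) ^ 3)) *
          ((6 * h (t - 1) + 4) * H.nb (t + 1)) + 1)⌉₊ : ℝ) := Nat.cast_nonneg _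
      linarith
    X_ge := ?_
    Y_zero := by
      rw [pow_zero, mul_one]
    Y_succ := fun t _ => by
      rw [pow_succ]
      apply le_of_eq
      ring
    Y_R := hYlt
    g_big := hg
    n'_big := le_refl _
    n_big := le_refl _ }, rfl, rfl⟩
  · show 2 * q ≤ if 1 = 0 then 2 * q else ⌊(U : ℝ) ^ (3 * 1) * H.nb 1 / (T : ℝ) ^ 3⌋₊
    rw [if_neg one_ne_zero]
    apply Nat.le_floor
    rw [le_div_iff₀ hT3]
    have h1 : (3 * T) ^ (R + 3) ≤ H.nb 1 := by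
      have h2 := card_eq H 1 hR1
      rw [pow_one] at h2
      have h3 : 3 * T * (3 * T) ^ (R + 3) ≤ 3 * T * H.nb 1 := by
        calc 3 * T * (3 * T) ^ (R + 3) = (3 * T) ^ (R + 4) := by ring
          _ ≤ N := hNbig
          _ = _ := h2
      exact Nat.le_of_mul_le_mul_left h3 (by omega)
    have h2 : 2 * q * T ^ 3 ≤ H.nb 1 := by
      refine le_trans ?_ h1
      calc 2 * q * T ^ 3 ≤ 2 * T ^ R * T ^ 3 := by gcongr
        _ = 2 * T ^ (R + 3) := by rw [pow_add]; ring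
        _ ≤ 3 ^ (R + 3) * T ^ (R + 3) := by
            apply Nat.mul_le_mul_right
            calc 2 ≤ 3 := by norm_num
              _ ≤ 3 ^ (R + 3) := Nat.le_self_pow (by omega) _
        _ = (3 * T) ^ (R + 3) := by rw [mul_pow]
    have h3 : ((2 * q : ℕ) : ℝ) * (T : ℝ) ^ 3 ≤ H.nb 1 := by exact_mod_cast h2
    have h4 : (1 : ℝ) ≤ (U : ℝ) ^ (3 * 1) := one_le_pow₀ hUr1
    have hnb0 : (0 : ℝ) ≤ H.nb 1 := Nat.cast_nonneg _
    nlinarith
  · show 2 * U < T - 1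
    omega
  · intro τ hτ
    show 400 * (D : ℝ) * (((if τ + 1 = 0 then 2 * q else
      ⌊(U : ℝ) ^ (3 * (τ + 1)) * H.nb (τ + 1) / (T : ℝ) ^ 3⌋₊ : ℕ) : ℝ) + 2) ≤ _
    rw [if_neg (Nat.succ_ne_zero τ)]
    exact hXb (τ + 1) R hτ hτ
  · intro t ht1 htR τ hτ
    show 400 * (D : ℝ) * (((if τ + 1 = 0 then 2 * q else
      ⌊(U : ℝ) ^ (3 * (τ + 1)) * H.nb (τ + 1) / (T : ℝ) ^ 3⌋₊ : ℕ) : ℝ) + 2) ≤ _
    rw [if_neg (Nat.succ_ne_zero τ)]
    exact hXb (τ + 1) t hτ (by omega)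
  · intro t ht1 htR
    show _ ≤ (((if t + 1 = 0 then 2 * q else
      ⌊(U : ℝ) ^ (3 * (t + 1)) * H.nb (t + 1) / (T : ℝ) ^ 3⌋₊ : ℕ) : ℝ))
    rw [if_neg (Nat.succ_ne_zero t)]
    exact hXge t ht1 htR

end

end Pool.Agent.AcyAd
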