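import Pool.Agent.AcyAd.Targets5

/-!
# MP_08c6cd_lc, fully adaptive testers: ADN-PXA
-/

namespace Pool.Agent.AcyAd

open scoped Classical
open Pool.Agent.AcyTest

noncomputable section

theorem tPXA : T_PXA := by
  intro D R K0 U T N nu q θ hD hK hU hnu hnuU hq hqT hN hT hθ
  have hU1 : (1 : ℝ) ≤ U := by exact_mod_cast hU
  have hD2 : (2 : ℝ) ≤ D := by exact_mod_cast hD
  have hK0 : (0 : ℝ) ≤ K0 := Nat.cast_nonneg _
  have hR0 : (0 : ℝ) ≤ R := Nat.cast_nonneg _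
  set P : ℝ := (U : ℝ) ^ (3 * R) with hP
  have hP1 : 1 ≤ P := one_le_pow₀ hU1
  have hTr : 10 ^ 6 * (D : ℝ) ^ 2 * (R + 2) * (K0 + 2) * (P * (U : ℝ) ^ 4) ≤ T := by
    rw [hP, ← pow_add]
    exact_mod_cast hT
  set W : ℝ := (D : ℝ) ^ 2 * (R + 2) * P * U with hW
  have hPU : 1 ≤ P * U := one_le_mul_of_one_le_of_one_le hP1 hU1
  have hDR : (D : ℝ) ≤ (D : ℝ) ^ 2 * (R + 2) := by
    nlinarith only [mul_nonneg (sq_nonneg (D : ℝ)) hR0, hD2]
  have hDR1 : (1 : ℝ) ≤ (D : ℝ) ^ 2 * (R + 2) := by linarith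
  have hW1 : D * (P * U) ≤ W := by
    have : W = (D : ℝ) ^ 2 * (R + 2) * (P * U) := by rw [hW]; ring
    rw [this]
    exact mul_le_mul_of_nonneg_right hDR (by linarith)
  have hW2 : (U : ℝ) ≤ W := by
    have h1 : W = ((D : ℝ) ^ 2 * (R + 2) * P) * U := by rw [hW]
    have h2 : 1 ≤ (D : ℝ) ^ 2 * (R + 2) * P := one_le_mul_of_one_le_of_one_le hDR1 hP1
    rw [h1]
    exact le_mul_of_one_le_left (by linarith only [hU1]) h2
  have hW0 : 1 ≤ W := by linarith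
  have hTW : 10 ^ 6 * (W * (K0 + 2)) ≤ T := by
    refine le_trans ?_ hTr
    have h1 : 10 ^ 6 * (D : ℝ) ^ 2 * (R + 2) * (K0 + 2) * (P * (U : ℝ) ^ 4) =
      10 ^ 6 * (W * (K0 + 2)) * (U : ℝ) ^ 3 := by rw [hW]; ring
    rw [h1]
    have h2 : 1 ≤ (U : ℝ) ^ 3 := one_le_pow₀ hU1
    have h3 : 0 ≤ 10 ^ 6 * (W * (K0 + 2)) := by positivity
    exact le_mul_of_one_le_right h3 h2
  have hWK : W ≤ W * (K0 + 2) := le_mul_of_one_le_right (by linarith) (by linarith)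
  have hKK : (K0 : ℝ) + 2 ≤ W * (K0 + 2) := le_mul_of_one_le_left (by linarith) hW0
  have hT6 : 10 ^ 6 * W ≤ (T : ℝ) := by linarith
  have hTK : (K0 : ℝ) ≤ T := by linarith
  have hT1 : (1 : ℝ) ≤ T := by linarith
  have hT0 : (0 : ℝ) < T := by linarith
  have hTn : 1 ≤ T := by exact_mod_cast hT1
  have hs1 : ((T - 1 : ℕ) : ℝ) = T - 1 := by rw [Nat.cast_sub hTn, Nat.cast_one]
  have hs0 : (0 : ℝ) ≤ ((T - 1 : ℕ) : ℝ) := Nat.cast_nonneg _
  have hs2 : ((T - 1 : ℕ) : ℝ) ≤ T := by rw [hs1]; linarith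
  have hs3 : ((T - 1 : ℕ) : ℝ) + K0 + 1 ≤ 2 * T := by rw [hs1]; linarith
  generalize ((T - 1 : ℕ) : ℝ) = s at *
  set c : ℝ := W / (T : ℝ) ^ 3 with hc
  have hc0 : 0 < c := by positivity
  have hcT : c * (T : ℝ) ^ 2 ≤ 1 / 10 ^ 6 := by
    have : c * (T : ℝ) ^ 2 = W / T := by rw [hc]; field_simp
    rw [this, div_le_div_iff₀ hT0 (by norm_num)]
    linarith
  have hcT1 : c * (T : ℝ) ≤ 1 / 10 ^ 6 := by
    have : c * (T : ℝ) ≤ c * (T : ℝ) ^ 2 := by
      nlinarith only [mul_pos hc0 hT0, hT1]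
    linarith only [this, hcT]
  have hc1 : c ≤ 1 / 10 ^ 6 := by
    have : c ≤ c * (T : ℝ) := le_mul_of_one_le_right hc0.le hT1
    linarith only [this, hcT1]
  have hθ0 : 0 ≤ θ := by rw [hθ]; positivity
  have hθ1 : θ * U ≤ 800 * c := by
    have h1 : θ * U = 800 * ((D * (P * U)) / (T : ℝ) ^ 3) := by rw [hθ]; ring
    rw [h1, hc]
    have := div_le_div_of_nonneg_right hW1 (by positivity : (0 : ℝ) ≤ (T : ℝ) ^ 3)
    linarith
  have hθ2 : 4 * D * (R + 2) * θ * U = 3200 * c := by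
    rw [hθ, hc, hW]; ring
  have hnu1 : 1 + nu ≤ 2 * U := by linarith
  have hE1 : 2 * (1 + nu) * θ ≤ 3200 * c := by
    have : (1 + nu) * θ ≤ 2 * U * θ := mul_le_mul_of_nonneg_right hnu1 hθ0
    linarith only [this, hθ1, hc0]
  have hE10 : 0 ≤ 2 * (1 + nu) * θ := by positivity
  have hN0 : 0 < N := lt_of_lt_of_le (by positivity) hN
  have hqN : 2 * q / N ≤ 2 / (T : ℝ) ^ 4 := by
    rw [div_le_div_iff₀ hN0 (by positivity)]
    have h1 : (T : ℝ) ^ (R + 4) ≤ N := by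
      refine le_trans (pow_le_pow_left₀ hT0.le ?_ _) hN
      linarith
    have h2 : q * (T : ℝ) ^ 4 ≤ (T : ℝ) ^ (R + 4) := by
      rw [pow_add]
      exact mul_le_mul_of_nonneg_right hqT (by positivity)
    linarith only [h1, h2]
  have hqN2 : 2 * q / N * U ≤ 2 * c := by
    have h1 : 2 * q / N * U ≤ 2 / (T : ℝ) ^ 4 * U := mul_le_mul_of_nonneg_right hqN (by linarith)
    refine h1.trans ?_
    have h2 : 2 / (T : ℝ) ^ 4 * U = 2 * (U / (T : ℝ) ^ 3 / T) := by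
      field_simp
    have h3 : U / (T : ℝ) ^ 3 ≤ c := by
      rw [hc]
      exact div_le_div_of_nonneg_right hW2 (by positivity)
    have h4 : U / (T : ℝ) ^ 3 / T ≤ c := by
      refine le_trans (div_le_self (by positivity) hT1) h3
    rw [h2]
    linarith
  have hqN0 : 0 ≤ 2 * q / N := by positivity
  have hE3 : (2 * q / N + 4 * D * (R + 2) * θ) * (1 + nu) ≤ 6404 * c := by
    have h0 : 0 ≤ 2 * q / N + 4 * D * (R + 2) * θ := by positivity
    have h1 : (2 * q / N + 4 * D * (R + 2) * θ) * (1 + nu) ≤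
        (2 * q / N + 4 * D * (R + 2) * θ) * (2 * U) := mul_le_mul_of_nonneg_left hnu1 h0
    refine h1.trans ?_
    have h2 : (2 * q / N + 4 * D * (R + 2) * θ) * (2 * U) =
      2 * (2 * q / N * U) + 2 * (4 * D * (R + 2) * θ * U) := by ring
    rw [h2, hθ2]
    linarith
  have hE30 : 0 ≤ (2 * q / N + 4 * D * (R + 2) * θ) * (1 + nu) := by positivity
  have hA1 : 2 * (1 + nu) * θ * (s + K0 + 1) ≤ 3200 * c * (2 * T) :=
    mul_le_mul hE1 hs3 (by positivity) (by positivity)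
  have hA2 : (2 * q / N + 4 * D * (R + 2) * θ) * (1 + nu) * s ≤ 6404 * c * T :=
    mul_le_mul hE3 hs2 hs0 (by positivity)
  have hmain : 3200 * c * (2 * T) + 6404 * c * T ≤ 1 / T := by
    rw [le_div_iff₀ hT0]
    linarith only [hcT]
  have hT1' : 1 / (T : ℝ) ≤ 1 := by
    rw [div_le_one hT0]
    exact hT1
  have hθc : θ ≤ 800 * c := (le_mul_of_one_le_right hθ0 hU1).trans hθ1
  refine ⟨?_, ?_, ?_, ?_, ?_⟩
  · have h2 : (2 * q / N + 4 * D * (R + 2) * θ) * (s * (1 + nu)) =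
      (2 * q / N + 4 * D * (R + 2) * θ) * (1 + nu) * s := by ring
    rw [h2]
    linarith
  · linarith
  · have h3 : 2 * (1 + nu) * θ * s ≤ 2 * (1 + nu) * θ * (s + K0 + 1) :=
      mul_le_mul_of_nonneg_left (by linarith) hE10
    rw [add_mul]
    linarith
  · linarith
  · have h4 : θ * s ≤ 800 * c * T := mul_le_mul hθc hs2 hs0 (by positivity)
    linarith

end

end Pool.Agent.AcyAd
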