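import Pool.Agent.AcyAd.Targets5

/-!
# MP_08c6cd_lc, fully adaptive testers: ADN-PXX
-/

namespace Pool.Agent.AcyAd

open scoped Classical
open Pool.Agent.AcyTest

noncomputable section

theorem tPXX : T_PXX := by
  intro D R K0 U T t h N q l nb hD ht htR hl hUl hUh hq hqT hN hT hNn
  obtain ⟨r, rfl⟩ : ∃ r, t = r + 1 := ⟨t - 1, by omega⟩
  obtain ⟨e, rfl⟩ : ∃ e, R = r + 1 + (e + 1) := ⟨R - (r + 1) - 1, by omega⟩
  rw [Nat.add_sub_cancel]
  have hD2 : (2 : ℝ) ≤ D := by exact_mod_cast hD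
  have hh0 : (0 : ℝ) ≤ h := Nat.cast_nonneg _
  have hU64 : (64 : ℝ) ≤ U := by nlinarith only [hl, hUl]
  have hU1 : (1 : ℝ) ≤ U := by linarith
  have hU4 : 4 * l ≤ U := by nlinarith only [hl, hUl]
  have hU12 : 12 * l + 10 ≤ U := by nlinarith only [hl, hUl]
  have hTn : 10 ^ 6 ≤ T := by
    refine le_trans ?_ hT
    have h1 : 0 < D ^ 2 * (r + 1 + (e + 1) + 2) * (K0 + 2) * U ^ (3 * (r + 1 + (e + 1)) + 4) := by
      have : 0 < U := by exact_mod_cast lt_of_lt_of_le zero_lt_one hU1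
      positivity
    calc 10 ^ 6 = 10 ^ 6 * 1 := (mul_one _).symm
      _ ≤ 10 ^ 6 * (D ^ 2 * (r + 1 + (e + 1) + 2) * (K0 + 2) *
          U ^ (3 * (r + 1 + (e + 1)) + 4)) := Nat.mul_le_mul_left _ h1
      _ = _ := by ring
  have hT6 : (10 : ℝ) ^ 6 ≤ T := by exact_mod_cast hTn
  have hT1 : (1 : ℝ) ≤ T := by linarith
  have hT0 : (0 : ℝ) < T := by linarith
  have hs1 : ((T - 1 : ℕ) : ℝ) = T - 1 := by
    rw [Nat.cast_sub (le_trans (by norm_num) hTn : 1 ≤ T), Nat.cast_one]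
  have hTh : (T : ℝ) / 2 ≤ ((T - 1 : ℕ) : ℝ) := by rw [hs1]; linarith
  generalize ((T - 1 : ℕ) : ℝ) = s at hTh
  clear hs1
  set P : ℝ := (U : ℝ) ^ (3 * (r + 1)) with hP
  have hP1 : 1 ≤ P := one_le_pow₀ hU1
  have hP0 : 0 < P := by linarith
  -- `nb`
  have hN0 : 0 < N := lt_of_lt_of_le (by positivity) hN
  have hnb : 81 * (T : ℝ) ^ (e + 1) * (T : ℝ) ^ 3 ≤ nb := by
    have h1 : (3 * (T : ℝ)) ^ (r + 1 + 1) * (3 * (T : ℝ)) ^ (e + 4) ≤
        (3 * (T : ℝ)) ^ (r + 1 + 1) * nb := by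
      rw [← hNn, ← pow_add]
      refine le_of_eq_of_le ?_ hN
      congr 1
      ring
    have h2 : (3 * (T : ℝ)) ^ (e + 4) ≤ nb := le_of_mul_le_mul_left h1 (by positivity)
    refine le_trans ?_ h2
    rw [mul_pow, mul_assoc, ← pow_add]
    refine mul_le_mul_of_nonneg_right ?_ (by positivity)
    calc (81 : ℝ) = 3 ^ 4 := by norm_num
      _ ≤ 3 ^ (e + 4) := pow_le_pow_right₀ (by norm_num) (by omega)
  set m : ℝ := nb / (T : ℝ) ^ 3 with hm
  have hm1 : 81 * (T : ℝ) ^ (e + 1) ≤ m := by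
    rw [hm, le_div_iff₀ (by positivity)]
    exact hnb
  have hTe : 1 ≤ (T : ℝ) ^ (e + 1) := one_le_pow₀ hT1
  have hm81 : 81 ≤ m := by linarith
  have hnb0 : 0 < nb := lt_of_lt_of_le (by positivity) hnb
  set Z : ℝ := (U : ℝ) ^ 3 * (P * m) with hZ
  have hZeq : (U : ℝ) ^ (3 * (r + 1 + 1)) * nb / (T : ℝ) ^ 3 = Z := by
    rw [hZ, hP, hm, show 3 * (r + 1 + 1) = 3 + 3 * (r + 1) by ring, pow_add]
    ring
  have hPm : m ≤ P * m := le_mul_of_one_le_left (by linarith) hP1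
  have hU3 : (U : ℝ) ^ 2 ≤ (U : ℝ) ^ 3 := pow_le_pow_right₀ hU1 (by norm_num)
  have hUU : 1 ≤ (U : ℝ) ^ 2 := one_le_pow₀ hU1
  have hPm0 : 0 < P * m := by positivity
  -- (a)
  have hqN : 2 * q / N ≤ 1 / (T : ℝ) ^ 3 := by
    rw [div_le_div_iff₀ hN0 (by positivity), one_mul]
    have h1 : (T : ℝ) ^ (r + 1 + (e + 1) + 4) ≤ N := by
      refine le_trans (pow_le_pow_left₀ hT0.le ?_ _) hN
      linarith
    have h2 : q * (T : ℝ) ^ 3 ≤ (T : ℝ) ^ (r + 1 + (e + 1) + 3) := by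
      have h5 : (T : ℝ) ^ (r + 1 + (e + 1) + 3) = (T : ℝ) ^ (r + 1 + (e + 1)) * (T : ℝ) ^ 3 :=
        pow_add _ _ _
      rw [h5]
      exact mul_le_mul_of_nonneg_right hqT (by positivity)
    have h3 : (T : ℝ) ^ (r + 1 + (e + 1) + 4) = (T : ℝ) ^ (r + 1 + (e + 1) + 3) * T :=
      pow_succ _ _
    have h4 : 0 < (T : ℝ) ^ (r + 1 + (e + 1) + 3) := by positivity
    have h6 : 2 * (T : ℝ) ^ (r + 1 + (e + 1) + 3) ≤ (T : ℝ) ^ (r + 1 + (e + 1) + 3) * T := by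
      nlinarith only [h4, hT6]
    linarith only [h1, h2, h3, h6]
  set G : ℝ := (D : ℝ) ^ 2 * (((r + 1 + (e + 1) : ℕ) : ℝ) + 2) with hG
  have hRR : (0 : ℝ) ≤ ((r + 1 + (e + 1) : ℕ) : ℝ) := Nat.cast_nonneg _
  generalize ((r + 1 + (e + 1) : ℕ) : ℝ) = RR at *
  have hG1 : 1 ≤ G := by
    rw [hG]
    nlinarith only [mul_nonneg (sq_nonneg (D : ℝ)) hRR, hD2]
  have hGU : 10 ^ 6 * (G * (h + 1)) ≤ U := by
    refine le_trans (le_of_eq ?_) hUh
    rw [hG]; ring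
  have hX : 2 * q / N + 4 * D * (RR + 2) * (800 * D * P / (T : ℝ) ^ 3) ≤
      3201 * G * P / (T : ℝ) ^ 3 := by
    have h1 : 4 * D * (RR + 2) * (800 * D * P / (T : ℝ) ^ 3) = 3200 * G * P / (T : ℝ) ^ 3 := by
      rw [hG]; ring
    have h2 : 1 / (T : ℝ) ^ 3 ≤ G * P / (T : ℝ) ^ 3 := by
      exact div_le_div_of_nonneg_right (one_le_mul_of_one_le_of_one_le hG1 hP1) (by positivity)
    have h3 : 3201 * G * P / (T : ℝ) ^ 3 = G * P / (T : ℝ) ^ 3 + 3200 * G * P / (T : ℝ) ^ 3 := by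
      ring
    rw [h1, h3]
    linarith
  generalize 2 * q / N + 4 * D * (RR + 2) * (800 * D * P / (T : ℝ) ^ 3) = X at hX
  have ha : (U : ℝ) * (8 * (X * ((6 * h + 4) * nb))) ≤ Z / 6 := by
    have h1 : X * ((6 * h + 4) * nb) ≤ 3201 * G * P / (T : ℝ) ^ 3 * ((6 * h + 4) * nb) :=
      mul_le_mul_of_nonneg_right hX (by positivity)
    have h2 : 3201 * G * P / (T : ℝ) ^ 3 * ((6 * h + 4) * nb) =
        3201 * (G * (6 * h + 4)) * (P * m) := by
      rw [hm]; ring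
    have h3 : G * (6 * h + 4) ≤ 6 * (G * (h + 1)) := by nlinarith only [hG1]
    have h4 : 3201 * (G * (6 * h + 4)) ≤ U / 50 := by linarith only [h3, hGU, hU1]
    have h5 : X * ((6 * h + 4) * nb) ≤ U / 50 * (P * m) := by
      refine h1.trans ?_
      rw [h2]
      exact mul_le_mul_of_nonneg_right h4 hPm0.le
    have h6 : (U : ℝ) * (8 * (X * ((6 * h + 4) * nb))) ≤ U * (8 * (U / 50 * (P * m))) :=
      mul_le_mul_of_nonneg_left (mul_le_mul_of_nonneg_left h5 (by norm_num))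
        (by linarith only [hU1])
    refine h6.trans ?_
    rw [hZ]
    have h7 : (U : ℝ) * (8 * (U / 50 * (P * m))) = 8 / 50 * ((U : ℝ) ^ 2 * (P * m)) := by ring
    rw [h7]
    have h8 : (U : ℝ) ^ 2 * (P * m) ≤ (U : ℝ) ^ 3 * (P * m) :=
      mul_le_mul_of_nonneg_right hU3 hPm0.le
    have h9 : 0 < (U : ℝ) ^ 3 * (P * m) := by positivity
    linarith only [h8, h9]
  -- (b)
  have hZ81 : (U : ℝ) ^ 2 * 81 ≤ Z := by
    rw [hZ]
    exact mul_le_mul hU3 (by linarith only [hPm, hm81]) (by norm_num) (by positivity)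
  have hb : (U : ℝ) * (8 + 1 + (12 * l + 1)) ≤ Z / 81 := by
    have : (U : ℝ) * (8 + 1 + (12 * l + 1)) ≤ U * U :=
      mul_le_mul_of_nonneg_left (by linarith only [hU12]) (by linarith only [hU1])
    rw [le_div_iff₀ (by norm_num)]
    nlinarith only [this, hZ81]
  -- (c)
  have hs : 0 < s := by linarith
  have hl2 : 2 * l / s ≤ U / T := by
    rw [div_le_div_iff₀ hs hT0]
    nlinarith only [hU4, hT0, hTh, hU1]
  have hc : (U : ℝ) ^ 2 * (2 * q * l / s * (2 * (U : ℝ) ^ 2 * l / s) ^ r) ≤ Z / 81 := by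
    have h1 : 2 * q * l / s ≤ q * (U / T) := by
      have : 2 * q * l / s = q * (2 * l / s) := by ring
      rw [this]
      exact mul_le_mul_of_nonneg_left hl2 hq
    have h2 : 2 * (U : ℝ) ^ 2 * l / s ≤ (U : ℝ) ^ 3 / T := by
      have : 2 * (U : ℝ) ^ 2 * l / s = (U : ℝ) ^ 2 * (2 * l / s) := by ring
      rw [this, show (U : ℝ) ^ 3 / T = (U : ℝ) ^ 2 * (U / T) by ring]
      exact mul_le_mul_of_nonneg_left hl2 (by positivity)
    have h0 : 0 ≤ 2 * (U : ℝ) ^ 2 * l / s := by positivity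
    have h3 : 2 * q * l / s * (2 * (U : ℝ) ^ 2 * l / s) ^ r ≤
        q * (U / T) * ((U : ℝ) ^ 3 / T) ^ r :=
      mul_le_mul h1 (pow_le_pow_left₀ h0 h2 r) (by positivity) (by positivity)
    have h4 : (U : ℝ) ^ 2 * (q * (U / T) * ((U : ℝ) ^ 3 / T) ^ r) =
        q * P / (T : ℝ) ^ (r + 1) := by
      rw [hP, div_pow, ← pow_mul, show 3 * (r + 1) = 3 * r + 3 by ring, pow_add, pow_succ (T : ℝ) r]
      field_simp
    have h5 : (U : ℝ) ^ 2 * (2 * q * l / s * (2 * (U : ℝ) ^ 2 * l / s) ^ r) ≤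
        q * P / (T : ℝ) ^ (r + 1) := by
      rw [← h4]
      exact mul_le_mul_of_nonneg_left h3 (by positivity)
    refine h5.trans ?_
    have h6 : q * P / (T : ℝ) ^ (r + 1) ≤ P * (T : ℝ) ^ (e + 1) := by
      rw [div_le_iff₀ (by positivity)]
      have h7 : (T : ℝ) ^ (r + 1 + (e + 1)) = (T : ℝ) ^ (r + 1) * (T : ℝ) ^ (e + 1) := pow_add _ _ _
      rw [h7] at hqT
      have h8 := mul_le_mul_of_nonneg_right hqT hP0.le
      linarith only [h8]
    refine h6.trans ?_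
    have h8 : P * (T : ℝ) ^ (e + 1) ≤ P * m / 81 := by
      have h9 := mul_le_mul_of_nonneg_left hm1 hP0.le
      linarith only [h9]
    refine h8.trans ?_
    rw [hZ]
    have h9 : 1 ≤ (U : ℝ) ^ 3 := one_le_pow₀ hU1
    have h10 : P * m ≤ (U : ℝ) ^ 3 * (P * m) := le_mul_of_one_le_left hPm0.le h9
    linarith only [h10]
  have hd : 1 ≤ Z / 81 := by
    rw [le_div_iff₀ (by norm_num)]
    linarith only [hZ81, hUU]
  rw [hZeq]
  have hexp : (U : ℝ) * (8 * (X * ((6 * h + 4) * nb) + 1) + 1 + (12 * l + 1)) =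
      (U : ℝ) * (8 * (X * ((6 * h + 4) * nb))) + (U : ℝ) * (8 + 1 + (12 * l + 1)) := by ring
  have hZ0 : 0 ≤ Z := by positivity
  rw [hexp]
  linarith only [ha, hb, hc, hd, hZ0]

end

end Pool.Agent.AcyAd
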