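import Pool.Agent.AcyAd.Targets5

/-!
# MP_08c6cd_lc, fully adaptive testers: ADN-PXY
-/

namespace Pool.Agent.AcyAd

open scoped Classical
open Pool.Agent.AcyTest

noncomputable section

theorem tPXY : T_PXY := by
  intro R U T q l hR hl hU hq h hT
  obtain ⟨r, rfl⟩ : ∃ r, R = r + 1 := ⟨R - 1, by omega⟩
  rw [Nat.add_sub_cancel]
  have hT1 : ((T - 1 : ℕ) : ℝ) = T - 1 := by
    rw [Nat.cast_sub (by omega : 1 ≤ T), Nat.cast_one]
  have hT2 : (2 : ℝ) ≤ T := by exact_mod_cast hT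
  have hTh : (T : ℝ) / 2 ≤ ((T - 1 : ℕ) : ℝ) := by rw [hT1]; linarith
  generalize ((T - 1 : ℕ) : ℝ) = s at hTh
  have hU1 : 4 * l ≤ U := by nlinarith
  have hU2 : (64 : ℝ) ≤ U := by nlinarith
  have hT0 : (0 : ℝ) < T := by linarith
  have hU0 : (0 : ℝ) < U := by linarith
  have hs : 0 < s := by linarith
  have hl2 : 2 * l / s ≤ U / T := by
    rw [div_le_div_iff₀ hs hT0]
    nlinarith
  have h1 : 2 * q * l / s ≤ q * (U / T) := by
    have : 2 * q * l / s = q * (2 * l / s) := by ring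
    rw [this]
    exact mul_le_mul_of_nonneg_left hl2 hq
  have h2 : 2 * (U : ℝ) ^ 2 * l / s ≤ (U : ℝ) ^ 3 / T := by
    have : 2 * (U : ℝ) ^ 2 * l / s = (U : ℝ) ^ 2 * (2 * l / s) := by ring
    rw [this, show (U : ℝ) ^ 3 / T = (U : ℝ) ^ 2 * (U / T) by ring]
    exact mul_le_mul_of_nonneg_left hl2 (by positivity)
  have h0 : 0 ≤ 2 * (U : ℝ) ^ 2 * l / s := by positivity
  have h3 : 2 * q * l / s * (2 * (U : ℝ) ^ 2 * l / s) ^ r ≤
      q * (U / T) * ((U : ℝ) ^ 3 / T) ^ r :=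
    mul_le_mul h1 (pow_le_pow_left₀ h0 h2 r) (by positivity) (by positivity)
  refine lt_of_le_of_lt h3 ?_
  have h4 : q * (U / T) * ((U : ℝ) ^ 3 / T) ^ r = q * (U : ℝ) ^ (3 * r + 1) / (T : ℝ) ^ (r + 1) := by
    rw [div_pow, ← pow_mul, pow_succ (U : ℝ) (3 * r), pow_succ (T : ℝ) r]
    field_simp
  rw [h4, div_lt_one (by positivity)]
  have h5 : (U : ℝ) ^ (4 * (r + 1)) = (U : ℝ) ^ (3 * r + 1) * (U : ℝ) ^ (r + 3) := by
    rw [← pow_add]
    congr 1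
    ring
  rcases hq.eq_or_lt with rfl | hq
  · rw [zero_mul]
    positivity
  · refine lt_of_lt_of_le ?_ h
    rw [h5]
    have h6 : 1 < (U : ℝ) ^ (r + 3) := one_lt_pow₀ (by linarith) (by omega)
    have h7 : 0 < q * (U : ℝ) ^ (3 * r + 1) := by positivity
    nlinarith

end

end Pool.Agent.AcyAd
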