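import Pool.Agent.AcyAd.Targets5

/-!
# ADN-THR: the thresholds
-/

namespace Pool.Agent.AcyAd

namespace THR_

/-- the sizes -/
def dl (e : ℕ) : ℕ → ℕ
  | 0 => 2
  | i + 1 => 1 + dl e i * (2 * dl e i + 1) ^ e

theorem dl_lt (e i : ℕ) : dl e i < dl e (i + 1) := by
  have h1 : dl e i * 1 ≤ dl e i * (2 * dl e i + 1) ^ e :=
    Nat.mul_le_mul_left _ (Nat.one_le_iff_ne_zero.2 (pow_ne_zero _ (by omega)))
  show dl e i < 1 + dl e i * (2 * dl e i + 1) ^ e
  omega

theorem dl_mono (e : ℕ) : StrictMono (dl e) := strictMono_nat_of_lt_succ (dl_lt e)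

end THR_

open THR_ in
theorem tTHR : T_THR := by
  intro R e _
  have h2 : ∀ i, 2 ≤ dl e i := fun i => (dl_mono e).monotone (Nat.zero_le i)
  refine ⟨fun t => if t ≤ R then dl e R - dl e (R - t) else dl e R - 2 + (t - R), ?_, ?_, ?_⟩
  · simp
  · refine strictMono_nat_of_lt_succ fun t => ?_
    show (if t ≤ R then dl e R - dl e (R - t) else dl e R - 2 + (t - R)) <
      if t + 1 ≤ R then dl e R - dl e (R - (t + 1)) else dl e R - 2 + (t + 1 - R)
    by_cases ht : t + 1 ≤ R
    · rw [if_pos (by omega), if_pos ht]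
      have h3 : dl e (R - (t + 1)) < dl e (R - t) := dl_mono e (by omega)
      have h4 : dl e (R - t) ≤ dl e R := (dl_mono e).monotone (by omega)
      omega
    · rw [if_neg ht]
      by_cases ht' : t ≤ R
      · rw [if_pos ht']
        have h5 := h2 (R - t)
        have h6 := h2 R
        omega
      · rw [if_neg ht']
        omega
  · intro t ht
    show (if R ≤ R then dl e R - dl e (R - R) else dl e R - 2 + (R - R)) + 2 -
        (if t ≤ R then dl e R - dl e (R - t) else dl e R - 2 + (t - R)) - 1 =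
      ((if R ≤ R then dl e R - dl e (R - R) else dl e R - 2 + (R - R)) + 2 -
        (if t + 1 ≤ R then dl e R - dl e (R - (t + 1)) else dl e R - 2 + (t + 1 - R))) *
      (2 * ((if R ≤ R then dl e R - dl e (R - R) else dl e R - 2 + (R - R)) + 2 -
        (if t + 1 ≤ R then dl e R - dl e (R - (t + 1)) else dl e R - 2 + (t + 1 - R))) + 1) ^ e
    rw [if_pos le_rfl, if_pos ht.le, if_pos (Nat.succ_le_of_lt ht), Nat.sub_self]
    have h0 : dl e 0 = 2 := rfl
    obtain ⟨s, hs⟩ : ∃ s, R = t + 1 + s := ⟨R - (t + 1), by omega⟩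
    have e1 : R - t = s + 1 := by omega
    have e2 : R - (t + 1) = s := by omega
    have h5 := h2 R
    have h6 : dl e (s + 1) ≤ dl e R := (dl_mono e).monotone (by omega)
    have h7 : dl e s ≤ dl e R := (dl_mono e).monotone (by omega)
    rw [e1, e2, h0]
    have e3 : dl e R - 2 + 2 - (dl e R - dl e (s + 1)) = dl e (s + 1) := by omega
    have e4 : dl e R - 2 + 2 - (dl e R - dl e s) = dl e s := by omega
    rw [e3, e4]
    show 1 + dl e s * (2 * dl e s + 1) ^ e - 1 = _
    omega

end Pool.Agent.AcyAd
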