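import Pool.Agent.AcyAd.Mix

/-!
# MP_08c6cd_lc, fully adaptive testers: targets of the jobs ADU-* (decoupled union bound) and ADS-*
(supermartingale)

Proofs: `Blueprint1.lean.txt`.
-/

namespace Pool.Agent.AcyAd

open scoped Classical

noncomputable section

/-! ## Worlds and inner data -/

/-- MIX: outer questions do not depend on the inner data. -/
def T_MIX : Prop := ∀ (S : Sys) (F : Fx S) (B : Blk S F) (w : World S) (i : Ins B),
  (∀ b a, B.ins b ((mix w i).plc b a) ↔ B.ins b (w.plc b a)) ∧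
  (∀ b a, ¬ B.ins b (w.plc b a) → (mix w i).ask F b a = w.ask F b a) ∧
  (∀ v, (mix w i).lam v ∈ B.M ↔ w.lam v ∈ B.M) ∧
  (∀ b y, B.ins b y → ∃ y', w.mt F b y = some y' ∧ B.ins (!b) y') ∧
  (∀ b a, w.lam a.1 ∈ B.M → (B.ins b (w.plc b a) ↔ B.th ≤ (w.rk b a.1 a.2).1)) ∧
  (∀ b a, w.lam a.1 ∉ B.M → (mix w i).plc b a = w.plc b a) ∧
  (∀ b a (h : w.lam a.1 ∈ B.M) (h' : B.th ≤ (w.rk b a.1 a.2).1),
    (mix w i).plc b a = ((i.rho ⟨_, h⟩).1, (i.xi b a.1 ⟨_, h'⟩).1)) ∧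
  (∀ κ ∈ B.KP, (mix w i).mu κ = i.mu κ)

/-- AVG: averaging over the inner data. -/
def T_AVG : Prop := ∀ (S : Sys) (F : Fx S) (B : Blk S F) (P : World S → Prop),
  Nat.card {p : World S × Ins B // P (mix p.1 p.2)} =
    Nat.card (Ins B) * Nat.card {w : World S // P w}

/-- IDENT: for the guess given by a set `C`, the run with two equal copies is the run, and it is
nice. -/
def T_IDENT : Prop := ∀ (S : Sys) (F : Fx S) (B : Blk S F) (σ : Player S) (w : World S) (k : ℕ)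
  (C : Finset S.V), C ⊆ touched (run F σ w k) → (∀ v ∈ C, w.lam v ∈ B.M) →
  ∃ Fl : Finset (S.Sl × S.Sl), Fl.card ≤ B.nbad C (run F σ w k) ∧
  ∀ w0 : World S, (∀ b a, B.ins b (w.plc b a) ↔ B.ins b (w0.plc b a)) →
    (∀ v, w.lam v ∈ B.M ↔ w0.lam v ∈ B.M) →
    run2 (F := F) B w0 ⟨C \ B.gset C (run F σ w k), Fl⟩ σ w w k = (run F σ w k).map En.vis ∧
    nice2 B w0 ⟨C \ B.gset C (run F σ w k), Fl⟩ ((run F σ w k).map En.vis) ∧
    (C \ B.gset C (run F σ w k)) ∪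
      p2 B w0 ⟨C \ B.gset C (run F σ w k), Fl⟩ ((run F σ w k).map En.vis) = C ∧
    B.dset C (run F σ w k) ⊆
      d2 B w0 ⟨C \ B.gset C (run F σ w k), Fl⟩ w ((run F σ w k).map En.vis)

/-! ## Decoupling -/

/-- The pairs asked by questions with the property `c`. -/
def cset {S : Sys} (c : List (VE S) → Bool → S.Sl → Prop) :
    List (VE S) → Finset (Bool × S.Sl × S.Sl)
  | [] => ∅
  | e :: L => cset c L ∪ (if c L e.b e.a then
      match e.r with | some y => {(e.b, e.a, y)} | none => ∅ else ∅)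

/-- The inner data `i'` agree with `i` on the pairs `J`. -/
def Agr {S : Sys} {F : Fx S} {B : Blk S F} (w0 : World S) (J : Finset (Bool × S.Sl × S.Sl))
    (i i' : Ins B) : Prop :=
  ∀ c ∈ J, (mix w0 i').plc c.1 c.2.1 = (mix w0 i).plc c.1 c.2.1 ∧
    (mix w0 i').plc (!c.1) c.2.2 = (mix w0 i).plc (!c.1) c.2.2 ∧
    (mix w0 i').mt F c.1 ((mix w0 i).plc c.1 c.2.1) = (mix w0 i).mt F c.1 ((mix w0 i).plc c.1 c.2.1)

/-- The addresses of the names in `J`. -/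
def aU {S : Sys} {F : Fx S} (B : Blk S F) (w0 : World S) (J : Finset (Bool × S.Sl × S.Sl)) :
    Finset {x : S.V // x ∈ B.M} :=
  Finset.univ.filter fun x => ∃ c ∈ J, w0.lam c.2.1.1 = x.1 ∨ w0.lam c.2.2.1 = x.1

/-- The ranks of the slots in `J`. -/
def aX {S : Sys} {F : Fx S} (B : Blk S F) (w0 : World S) (J : Finset (Bool × S.Sl × S.Sl))
    (b : Bool) (v : S.V) : Finset {r : Fin S.D // B.th ≤ r.1} :=
  Finset.univ.filter fun r => w0.lam v ∈ B.M ∧ ∃ c ∈ J,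
    (c.1 = b ∧ c.2.1.1 = v ∧ w0.rk b v c.2.1.2 = r.1) ∨
    (c.1 ≠ b ∧ c.2.2.1 = v ∧ w0.rk b v c.2.2.2 = r.1)

/-- The places of the out-slots of class `κ` in `J`. -/
def aY {S : Sys} {F : Fx S} {B : Blk S F} (w0 : World S) (J : Finset (Bool × S.Sl × S.Sl))
    (i : Ins B) (κ : S.K) : Finset (S.Cl true κ) :=
  Finset.univ.filter fun y => κ ∈ B.KP ∧ ∃ c ∈ J,
    (c.1 = true ∧ (mix w0 i).plc true c.2.1 = y.1) ∨ (c.1 = false ∧ (mix w0 i).plc true c.2.2 = y.1)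

/-- AGI: agreement in terms of the components. -/
def T_AGI : Prop := ∀ (S : Sys) (F : Fx S) (B : Blk S F) (w0 : World S)
  (J : Finset (Bool × S.Sl × S.Sl)) (i i' : Ins B),
  (∀ c ∈ J, (mix w0 i).ask F c.1 c.2.1 = some c.2.2 ∧ B.ins c.1 (w0.plc c.1 c.2.1)) →
  (Agr w0 J i i' ↔ (∀ x ∈ aU B w0 J, i'.rho x = i.rho x) ∧
    (∀ b v, ∀ r ∈ aX B w0 J b v, i'.xi b v r = i.xi b v r) ∧
    ∀ κ, ∀ y ∈ aY w0 J i κ, i'.mu κ y = i.mu κ y)

/-- CNT: the number of inner data with prescribed values. -/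
def T_CNT : Prop := ∀ (S : Sys) (F : Fx S) (B : Blk S F) (i : Ins B)
  (U : Finset {x : S.V // x ∈ B.M}) (X : Bool → S.V → Finset {r : Fin S.D // B.th ≤ r.1})
  (Y : ∀ κ, Finset (S.Cl true κ)),
  Nat.card {i' : Ins B // (∀ x ∈ U, i'.rho x = i.rho x) ∧
    (∀ b v, ∀ r ∈ X b v, i'.xi b v r = i.xi b v r) ∧ ∀ κ, ∀ y ∈ Y κ, i'.mu κ y = i.mu κ y} =
  (B.M.card - U.card).factorial * (∏ b, ∏ v, (S.D - B.th - (X b v).card).factorial) *
    ∏ κ, (S.N κ - (Y κ).card).factorial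

/-- FAC: an inequality for factorials. -/
def T_FAC : Prop := ∀ (n a b : ℕ) (θ : ℝ), 0 ≤ θ → θ ≤ 1 / 4 → ((a + b : ℕ) : ℝ) ≤ θ * n →
  ((n - (a + b)).factorial * n.factorial : ℝ) ≤
    Real.exp (2 * θ * b) * ((n - a).factorial * (n - b).factorial)

/-- AGR: agreement on two sets of pairs with disjoint names. -/
def T_AGR : Prop := ∀ (S : Sys) (F : Fx S) (B : Blk S F) (w0 : World S) (i : Ins B)
  (J₁ J₂ : Finset (Bool × S.Sl × S.Sl)) (θ : ℝ) (m : ℕ), 0 ≤ θ → θ ≤ 1 / 4 →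
  (∀ c ∈ J₁ ∪ J₂, (mix w0 i).ask F c.1 c.2.1 = some c.2.2 ∧ B.ins c.1 (w0.plc c.1 c.2.1)) →
  (∀ c ∈ J₁, ∀ c' ∈ J₂, c.2.1.1 ≠ c'.2.1.1 ∧ c.2.1.1 ≠ c'.2.2.1 ∧ c.2.2.1 ≠ c'.2.1.1 ∧
    c.2.2.1 ≠ c'.2.2.1) →
  ((aU B w0 (J₁ ∪ J₂)).card : ℝ) ≤ θ * B.M.card →
  (∀ κ ∈ B.KP, ((aY w0 (J₁ ∪ J₂) i κ).card : ℝ) ≤ θ * S.N κ) →
  (aU B w0 J₂).card ≤ m → J₂.card ≤ m →
  (Nat.card {i' : Ins B // Agr w0 (J₁ ∪ J₂) i i'} * Nat.card (Ins B) : ℝ) ≤
    Real.exp (4 * θ * m) * (Nat.card {i' : Ins B // Agr w0 J₁ i i'} *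
      Nat.card {i' : Ins B // Agr w0 J₂ i i'})

/-- DC: double counting. -/
def T_DC : Prop := ∀ (X Y : Type) [Finite X] [Finite Y] (E : X → Prop) (E' : Y → Prop)
  (P : X → Y → Prop) (c : ℝ), 0 ≤ c →
  (∀ i, E i → (∃ p, P i p) ∧ ∀ p, P i p → E' p) →
  (∀ i, E i → ∀ p, P i p →
    (Nat.card {i' : X // E i' ∧ P i' p} : ℝ) * c ≤ Nat.card {p' : Y // P i p'}) →
  (Nat.card {i : X // E i} : ℝ) * c ≤ Nat.card {p : Y // E' p}

/-- AG2: agreement gives the same run with two copies. -/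
def T_AG2 : Prop := ∀ (S : Sys) (F : Fx S) (B : Blk S F) (w0 : World S) (g : Gs S) (σ : Player S)
  (k : ℕ) (i i₁ i₂ : Ins B),
  Agr w0 (cset (c1 B w0 g) (run2 (F := F) B w0 g σ (mix w0 i) (mix w0 i) k)) i i₁ →
  Agr w0 (cset (c2 B w0 g) (run2 (F := F) B w0 g σ (mix w0 i) (mix w0 i) k)) i i₂ →
  run2 (F := F) B w0 g σ (mix w0 i₁) (mix w0 i₂) k =
    run2 (F := F) B w0 g σ (mix w0 i) (mix w0 i) k ∧
  d2 B w0 g (mix w0 i₂) (run2 (F := F) B w0 g σ (mix w0 i) (mix w0 i) k) =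
    d2 B w0 g (mix w0 i) (run2 (F := F) B w0 g σ (mix w0 i) (mix w0 i) k)

/-- Few explored addresses in the block and in the targets of its classes. -/
def dens {S : Sys} {F : Fx S} (B : Blk S F) (θ : ℝ) (L : List (En S)) : Prop :=
  ((expl L ∩ B.M).card : ℝ) ≤ θ * B.M.card ∧
  ∀ κ ∈ B.KP, ∀ b, (S.D * (expl L ∩ S.tgt b κ).card : ℝ) ≤ θ * S.N κ

/-- DEC: decoupling. -/
def T_DEC : Prop := ∀ (S : Sys) (F : Fx S) (B : Blk S F) (w0 : World S) (g : Gs S) (σ : Player S)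
  (k m h y : ℕ) (u : Fin y → S.V) (θ : ℝ), 0 ≤ θ → θ ≤ 1 / 4 →
  (Nat.card {i : Ins B // run2 (F := F) B w0 g σ (mix w0 i) (mix w0 i) k =
      (run F σ (mix w0 i) k).map En.vis ∧
    nice2 B w0 g ((run F σ (mix w0 i) k).map En.vis) ∧
    (g.R0 ∪ p2 B w0 g ((run F σ (mix w0 i) k).map En.vis)).card ≤ m ∧
    dens B θ (run F σ (mix w0 i) k) ∧
    paths2 B w0 g (mix w0 i) h y u ((run F σ (mix w0 i) k).map En.vis)} *
    Nat.card (Ins B) : ℝ) ≤ Real.exp (4 * θ * m) *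
  Nat.card {p : Ins B × Ins B //
    nice2 B w0 g (run2 (F := F) B w0 g σ (mix w0 p.1) (mix w0 p.2) k) ∧
    paths2 B w0 g (mix w0 p.2) h y u (run2 (F := F) B w0 g σ (mix w0 p.1) (mix w0 p.2) k)}

/-! ## The second copy only sees a forest -/

/-- The addresses and ranks of the inner data. -/
abbrev RX {S : Sys} {F : Fx S} (B : Blk S F) : Type :=
  Equiv.Perm {x : S.V // x ∈ B.M} × (Bool → S.V → Equiv.Perm {r : Fin S.D // B.th ≤ r.1})

/-- The number of names in the middle of the block which are roots or discovered. -/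
def pos {S : Sys} {F : Fx S} (B : Blk S F) (w0 : World S) (g : Gs S) (L : List (VE S)) : ℕ :=
  ((g.R0 ∪ p2 B w0 g L).filter fun v => w0.lam v ∈ B.M).card

/-- The weight of a visible log. -/
def wt {S : Sys} {F : Fx S} (B : Blk S F) (w0 : World S) (g : Gs S) : List (VE S) → ℝ
  | [] => 1
  | e :: L => wt B w0 g L * (if c2 B w0 g L e.b e.a then
      1 / (((B.M.card - pos B w0 g L : ℕ) : ℝ) * (S.D - B.th : ℕ)) else 1)

/-- All questions to the second copy in the log are answered by the world `w2`. -/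
def sol {S : Sys} {F : Fx S} (B : Blk S F) (w0 : World S) (g : Gs S) (w2 : World S) :
    List (VE S) → Prop
  | [] => True
  | e :: L => sol B w0 g w2 L ∧ (c2 B w0 g L e.b e.a → w2.ask F e.b e.a = e.r)

/-- COUNT: the probability of a visible log and of paths of large rank. -/
def T_COUNT : Prop := ∀ (S : Sys) (F : Fx S) (B : Blk S F) (w0 : World S) (g : Gs S)
  (mu : ∀ κ : S.K, S.Cl true κ ≃ S.Cl false κ) (h y : ℕ) (u : Fin y → S.V) (L : List (VE S)),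
  nice2 B w0 g L →
  (Nat.card {p : RX B // sol B w0 g (mix w0 ⟨p.1, p.2, mu⟩) L ∧
    paths2 B w0 g (mix w0 ⟨p.1, p.2, mu⟩) h y u L} : ℝ) ≤
  wt B w0 g L * (((S.D - B.th' : ℕ) : ℝ) / (S.D - B.th - 1 : ℕ)) ^ (h * y) * Nat.card (RX B)

/-- TSUM: the sum of the weights of the possible visible logs. -/
def T_TSUM : Prop := ∀ (S : Sys) (F : Fx S) (B : Blk S F) (w0 : World S) (g : Gs S)
  (σ : Player S) (w1 : World S) (mu : ∀ κ : S.K, S.Cl true κ ≃ S.Cl false κ) (k : ℕ)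
  (𝓛 : Finset (List (VE S))), (∀ L ∈ 𝓛, nice2 B w0 g L ∧
    ∃ p : RX B, run2 (F := F) B w0 g σ w1 (mix w0 ⟨p.1, p.2, mu⟩) k = L) →
  ∑ L ∈ 𝓛, wt B w0 g L ≤ 1

/-- FOR: paths of large rank are rare for the second copy. -/
def T_FOR : Prop := ∀ (S : Sys) (F : Fx S) (B : Blk S F) (w0 : World S) (g : Gs S)
  (σ : Player S) (w1 : World S) (mu : ∀ κ : S.K, S.Cl true κ ≃ S.Cl false κ) (k h y : ℕ)
  (u : Fin y → S.V),
  (Nat.card {p : RX B //
    nice2 B w0 g (run2 (F := F) B w0 g σ w1 (mix w0 ⟨p.1, p.2, mu⟩) k) ∧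
    paths2 B w0 g (mix w0 ⟨p.1, p.2, mu⟩) h y u
      (run2 (F := F) B w0 g σ w1 (mix w0 ⟨p.1, p.2, mu⟩) k)} : ℝ) ≤
  (((S.D - B.th' : ℕ) : ℝ) / (S.D - B.th - 1 : ℕ)) ^ (h * y) * Nat.card (RX B)

/-- U: the decoupled union bound. -/
def T_U : Prop := ∀ (S : Sys) (F : Fx S) (B : Blk S F) (σ : Player S) (k m K' F' h y : ℕ) (θ : ℝ),
  0 ≤ θ → θ ≤ 1 / 4 →
  (Nat.card {w : World S // dens B θ (run F σ w k) ∧
    ∃ C ⊆ touched (run F σ w k), C.card ≤ m ∧ (∀ v ∈ C, w.lam v ∈ B.M) ∧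
      (C \ B.gset C (run F σ w k)).card ≤ K' ∧ B.nbad C (run F σ w k) ≤ F' ∧
      ∃ u : Fin y → S.V, (∀ i, ∀ l < h, (par (run F σ w k))^[l] (u i) ∈ B.dset C (run F σ w k)) ∧
        Function.Injective fun p : Fin y × Fin h => (par (run F σ w k))^[p.2.1 + 1] (u p.1)} : ℝ) ≤
  (2 * Fintype.card S.V) ^ K' * (2 * Fintype.card S.V * S.D) ^ (2 * F') * Fintype.card S.V ^ y *
    Real.exp (4 * θ * m) * (((S.D - B.th' : ℕ) : ℝ) / (S.D - B.th - 1 : ℕ)) ^ (h * y) *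
    Nat.card (World S)

/-! ## Conditional probabilities and the supermartingale -/

/-- UNR: the address of a new name is uniform. -/
def T_UNR : Prop := ∀ (S : Sys) (F : Fx S) (σ : Player S) (k : ℕ) (L : List (En S)) (v : S.V)
  (Z : Finset S.V), v ∉ touched L →
  Nat.card {w : World S // run F σ w k = L ∧ w.lam v ∈ Z} *
    (Fintype.card S.V - (touched L).card) ≤ Z.card * Nat.card {w : World S // run F σ w k = L}

/-- UNA: the answer in a random class is uniform. -/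
def T_UNA : Prop := ∀ (S : Sys) (F : Fx S) (σ : Player S) (k : ℕ) (L : List (En S)) (b : Bool)
  (a p : S.Sl) (κ : S.K) (Z : Finset S.Sl), a ∉ known b L → S.cc b p = some κ →
  Nat.card {w : World S // run F σ w k = L ∧ w.plc b a = p ∧ ∃ y ∈ Z, w.mt F b p = some y} *
    (S.N κ - ncl κ L) ≤ Z.card * Nat.card {w : World S // run F σ w k = L ∧ w.plc b a = p}

/-- SC: the counting form of the exponential supermartingale. -/
def T_SC : Prop := ∀ (S : Sys) (F : Fx S) (σ : Player S) (q m : ℕ) (α : ℝ)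
  (Zr : List (En S) → Finset S.V) (Za : List (En S) → Bool → S.Sl → S.Sl → Finset S.V),
  0 < α → α ≤ m →
  (∀ (w : World S), ∀ k < q, (Zr (run F σ w k)).Nonempty →
    2 * (touched (run F σ w k)).card ≤ Fintype.card S.V) →
  (∀ (w : World S), ∀ k < q, ∀ b a κ, σ ((run F σ w k).map En.ans) = (b, a) →
    S.cc b (w.plc b a) = some κ →
    (Za (run F σ w k) b a (w.plc b a) ∩ S.tgt (!b) κ).Nonempty → 2 * ncl κ (run F σ w k) ≤ S.N κ) →
  (Nat.card {w : World S // ∃ k ≤ q, m ≤ hits Zr Za (run F σ w k) ∧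
    comp Zr Za (run F σ w k) ≤ α} : ℝ) ≤ (Real.exp 1 * α / m) ^ m * Nat.card (World S)

end

end Pool.Agent.AcyAd
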