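import Pool.Agent.AcyAd.Targets1
import Pool.Agent.AcyAd.Forest

/-!
# MP_08c6cd_lc, fully adaptive testers: targets of the jobs ADF-* (forests, counters, induction)

Proofs: `Blueprint2.lean.txt`.
-/

namespace Pool.Agent.AcyAd

open scoped Classical
open Pool.Agent.AcyTest

noncomputable section

/-! ## Trees -/

/-- KID: the number of children. -/
def T_KID : Prop := ∀ (S : Sys) (F : Fx S) (H : Hier S F) (σ : Player S) (w : World S) (k t : ℕ)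
  (v : S.V),
  ((touched (run F σ w k)).filter fun u => 0 < H.dep t (run F σ w k) u ∧
    par (run F σ w k) u = v).card ≤ 2 * H.dd t

/-- DESC: the number of descendants. -/
def T_DESC : Prop := ∀ (S : Sys) (F : Fx S) (H : Hier S F) (σ : Player S) (w : World S) (k t n : ℕ)
  (v : S.V),
  ((touched (run F σ w k)).filter fun u => ∃ j ≤ n, j ≤ H.dep t (run F σ w k) u ∧
    (par (run F σ w k))^[j] u = v).card ≤ (2 * H.dd t + 1) ^ n

/-- PART: the size of a tree. -/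
def T_PART : Prop := ∀ (S : Sys) (F : Fx S) (H : Hier S F) (σ : Player S) (w : World S)
  (k s h : ℕ) (ρ : S.V), 1 ≤ h →
  (H.part (s + 1) (run F σ w k) ρ).card ≤ (2 * H.dd (s + 1) + 1) ^ h +
    (H.top s h (run F σ w k) ∩ H.part (s + 1) (run F σ w k) ρ).card *
      (2 * H.dd (s + 1) + 1) ^ (2 * h)

/-- WIN: the number of touched names in a layer. -/
def T_WIN : Prop := ∀ (S : Sys) (F : Fx S) (H : Hier S F) (σ : Player S) (w : World S)
  (k s h : ℕ) (β : H.Bk) (l : ℕ), 1 ≤ h → s + 1 < H.R →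
  (H.inl (s + 1) β l (run F σ w k)).card ≤
    (2 * H.dd (s + 1) + 1) ^ h * ((H.roots (s + 1) (run F σ w k)).filter fun v =>
      w.lam v ∈ H.win h (s + 1) β l).card +
    (2 * H.dd (s + 1) + 1) ^ (2 * h) * (H.top s h (run F σ w k)).card

/-- WINC: the size of a window. -/
def T_WINC : Prop := ∀ (S : Sys) (F : Fx S) (H : Hier S F) (h t : ℕ) (β : H.Bk) (l : ℕ), t < H.R →
  (H.win h t β l).card ≤ (6 * h + 4) * H.nb (t + 1)

/-- CUT: cutting a union of trees in both outer thirds. -/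
def T_CUT : Prop := ∀ (S : Sys) (F : Fx S) (H : Hier S F) (σ : Player S) (w : World S) (k t : ℕ)
  (ht : t < H.R) (β : H.Bk) (A : Finset S.V), H.Sat t β (run F σ w k) A →
  ∃ C ⊆ A, (∀ v ∈ C, w.lam v ∈ (H.toBlk t β ht).M) ∧
    (C \ (H.toBlk t β ht).gset C (run F σ w k)).card ≤
      (A ∩ H.roots t (run F σ w k)).card + 2 * (A.card / (H.T - 1)) ∧
    (H.toBlk t β ht).nbad C (run F σ w k) ≤
      2 * (A.card / (H.T - 1)) + H.spc t A (run F σ w k) ∧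
    ∀ v ∈ A, 0 < H.dep (t + 1) (run F σ w k) v → v ∈ (H.toBlk t β ht).dset C (run F σ w k)

/-- TOPU: disjoint vertical paths from their upper ends. -/
def T_TOPU : Prop := ∀ (S : Sys) (F : Fx S) (H : Hier S F) (σ : Player S) (w : World S)
  (k t h : ℕ) (β : H.Bk) (A : Finset S.V), 1 ≤ h → H.Sat t β (run F σ w k) A →
  ∃ u : Fin (H.top t h (run F σ w k) ∩ A).card → S.V,
    (∀ i, ∀ l < h, (par (run F σ w k))^[l] (u i) ∈ A ∧
      0 < H.dep (t + 1) (run F σ w k) ((par (run F σ w k))^[l] (u i))) ∧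
    Function.Injective fun p : Fin (H.top t h (run F σ w k) ∩ A).card × Fin h =>
      (par (run F σ w k))^[p.2.1 + 1] (u p.1)

/-- The event of the decoupled union bound. -/
def UE {S : Sys} {F : Fx S} (B : Blk S F) (σ : Player S) (k m K' F' h y : ℕ) (θ : ℝ)
    (w : World S) : Prop :=
  dens B θ (run F σ w k) ∧
    ∃ C ⊆ touched (run F σ w k), C.card ≤ m ∧ (∀ v ∈ C, w.lam v ∈ B.M) ∧
      (C \ B.gset C (run F σ w k)).card ≤ K' ∧ B.nbad C (run F σ w k) ≤ F' ∧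
      ∃ u : Fin y → S.V, (∀ i, ∀ l < h, (par (run F σ w k))^[l] (u i) ∈ B.dset C (run F σ w k)) ∧
        Function.Injective fun p : Fin y × Fin h => (par (run F σ w k))^[p.2.1 + 1] (u p.1)

/-- UAPP: the event for a union of trees. -/
def T_UAPP : Prop := ∀ (S : Sys) (F : Fx S) (H : Hier S F) (σ : Player S) (w : World S)
  (k t h : ℕ) (ht : t < H.R) (β : H.Bk) (A : Finset S.V) (θ : ℝ), 1 ≤ h →
  H.Sat t β (run F σ w k) A → dens (H.toBlk t β ht) θ (run F σ w k) →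
  UE (H.toBlk t β ht) σ k A.card ((A ∩ H.roots t (run F σ w k)).card + 2 * (A.card / (H.T - 1)))
    (2 * (A.card / (H.T - 1)) + H.spc t A (run F σ w k)) h
    (H.top t h (run F σ w k) ∩ A).card θ w

/-! ## Special pairs, near landing names -/

/-- SPC: special pairs are events or bottom hits. -/
def T_SPC : Prop := ∀ (S : Sys) (F : Fx S) (H : Hier S F) (σ : Player S) (w : World S)
  (k n t : ℕ) (A : Finset S.V),
  H.spc t A (run F σ w k) ≤ H.evc n t A (run F σ w k) + Hier.bhs (F := F) A (run F σ w k)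

/-- The landing names near the landing name `z`. -/
def Hier.nbh {S : Sys} {F : Fx S} (H : Hier S F) (n : ℕ) (L : List (En S)) (z : S.V) :
    Finset S.V :=
  (H.land L).filter fun z' => ∃ x x', adr L z = some x ∧ adr L z' = some x' ∧ H.near n x x'

/-- The graph of the fixed pairs. -/
def Fx.gr {S : Sys} (F : Fx S) : SimpleGraph S.V where
  Adj x y := x ≠ y ∧ ∃ b r r', F.fx b (x, r) = some (y, r')
  symm := ⟨fun _ _ ⟨h1, b, r, r', h2⟩ => ⟨h1.symm, !b, r', r, F.inv _ _ _ h2⟩⟩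
  loopless := ⟨fun _ h => h.1 rfl⟩

/-- AX: the graph of the fixed pairs has no short cycles. -/
def T_AX : Prop := ∀ (S : Sys) (F : Fx S) (H : Hier S F), LongCyc F.gr H.g0

/-- BH: the number of bottom hits. -/
def T_BH : Prop := ∀ (S : Sys) (F : Fx S) (H : Hier S F) (σ : Player S) (w : World S)
  (k h n m : ℕ) (A : Finset S.V), A ⊆ touched (run F σ w k) →
  (∀ v ∈ A, H.part H.R (run F σ w k) (H.root H.R (run F σ w k) v) ⊆ A) →
  (∀ v, H.dep H.R (run F σ w k) v ≤ h) → 4 * h + 4 ≤ H.g0 → 2 * h + 1 ≤ n →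
  (∀ z ∈ H.land (run F σ w k), (H.nbh n (run F σ w k) z).card ≤ m) →
  Hier.bhs (F := F) A (run F σ w k) ≤ m * (H.clus n (run F σ w k) A).card

/-- CLE: the number of landing names near other ones. -/
def T_CLE : Prop := ∀ (S : Sys) (F : Fx S) (H : Hier S F) (σ : Player S) (w : World S)
  (k t n n' m : ℕ) (β : H.Bk) (A : Finset S.V), t < H.R → n' ≤ n →
  H.Sat t β (run F σ w k) A →
  (∀ z ∈ H.land (run F σ w k), (H.nbh n' (run F σ w k) z).card ≤ m) →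
  (H.clus n' (run F σ w k) A).card ≤
    (m + 1) * H.evc n t A (run F σ w k) + 2 * (A ∩ H.roots t (run F σ w k)).card

/-- NC: few landing names are near a landing name. -/
def T_NC : Prop := ∀ (S : Sys) (F : Fx S) (H : Hier S F) (X : ℕ → ℕ) (σ : Player S) (w : World S)
  (k n n' m : ℕ), 2 * n' ≤ n → (∀ j < k, H.XB X (run F σ w j)) →
  (∀ y, hits (H.z2r X n y) (H.z2a X n y) (run F σ w k) < m) →
  ∀ z ∈ H.land (run F σ w k), (H.nbh n' (run F σ w k) z).card ≤ m + 1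

/-- EVC1: events of a small tree. -/
def T_EVC1 : Prop := ∀ (S : Sys) (F : Fx S) (H : Hier S F) (X : ℕ → ℕ) (σ : Player S)
  (w : World S) (k n s t : ℕ) (ρ : S.V), (∀ j < k, H.XB X (run F σ w j)) →
  ρ ∈ H.roots t (run F σ w k) → (H.part t (run F σ w k) ρ).card < s →
  H.evc n t (H.part t (run F σ w k) ρ) (run F σ w k) ≤
    hits (H.z1r X n s t ρ) (H.z1a X n s t ρ) (run F σ w k) + 1

/-- EVC2: events of the big trees. -/
def T_EVC2 : Prop := ∀ (S : Sys) (F : Fx S) (H : Hier S F) (X : ℕ → ℕ) (σ : Player S)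
  (w : World S) (k n s t : ℕ) (β : H.Bk), (∀ j < k, H.XB X (run F σ w j)) →
  H.evc n t (H.big s t β (run F σ w k)) (run F σ w k) ≤
    hits (H.z3r X n s t β) (H.z3a X n s t β) (run F σ w k) +
    ∑ ρ ∈ H.big s t β (run F σ w k) ∩ H.roots t (run F σ w k),
      (hits (H.z1r X n s t ρ) (H.z1a X n s t ρ) (run F σ w k) + 1)

/-- RWIN: roots in a window are landings. -/
def T_RWIN : Prop := ∀ (S : Sys) (F : Fx S) (H : Hier S F) (X : ℕ → ℕ) (σ : Player S)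
  (w : World S) (k h t : ℕ) (β : H.Bk) (l : ℕ), (∀ j < k, H.XB X (run F σ w j)) → t ≤ H.R →
  ((H.roots t (run F σ w k)).filter fun v => w.lam v ∈ H.win h t β l).card ≤
    hits (H.z4r X h t β l) (H.z4a X h t β l) (run F σ w k)

/-! ## Densities -/

/-- NCL: few explored addresses in the targets of a class, few explored pairs. -/
def T_NCL : Prop := ∀ (S : Sys) (F : Fx S) (H : Hier S F) (X : ℕ → ℕ) (σ : Player S)
  (w : World S) (k : ℕ) (b : Bool) (y : S.Sl) (κ : S.K), H.XB X (run F σ w k) →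
  S.cc b y = some κ →
  ncl κ (run F σ w k) ≤ S.D * X (H.ty κ + 1) ∧
  ∀ b', (expl (run F σ w k) ∩ S.tgt b' κ).card ≤ X (H.ty κ + 1)

/-- DENS: densities after one more question. -/
def T_DENS : Prop := ∀ (S : Sys) (F : Fx S) (H : Hier S F) (X : ℕ → ℕ) (θ : ℝ) (σ : Player S)
  (w : World S) (k t : ℕ) (ht : t < H.R) (β : H.Bk), 0 ≤ θ →
  (∀ τ < H.R, 400 * S.D * ((X (τ + 1) : ℝ) + 2) ≤ θ * H.nb (τ + 1)) →
  (∀ j < k, H.XB X (run F σ w j)) → dens (H.toBlk t β ht) θ (run F σ w k)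

/-- The number of entries with a property (of the log before the entry and the entry). -/
def cnt {S : Sys} (P : List (En S) → En S → Prop) : List (En S) → ℕ
  | [] => 0
  | e :: L => cnt P L + (if P L e then 1 else 0)

/-- CMP: a bound for the compensator. -/
def T_CMP : Prop := ∀ (S : Sys) (F : Fx S) (H : Hier S F) (X : ℕ → ℕ) (θ p : ℝ) (t₀ : ℕ)
  (Zr : List (En S) → Finset S.V) (Za : List (En S) → Bool → S.Sl → S.Sl → Finset S.V)
  (W : Finset S.V) (P : List (En S) → En S → Prop) (σ : Player S) (w : World S) (k : ℕ),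
  0 ≤ θ → 0 ≤ p →
  (∀ τ < t₀, τ < H.R → 400 * S.D * ((X (τ + 1) : ℝ) + 2) ≤ θ * H.nb (τ + 1)) →
  (∀ j < k, H.XB X (run F σ w j)) →
  (∀ j < k, Zr (run F σ w j) ⊆ W) →
  (∀ e L, e :: L <:+ run F σ w k → e.a ∉ known e.b L → ∀ κ, S.cc e.b e.p = some κ →
    (P L e ∧ 2 * S.D * (Za L e.b e.a e.p ∩ S.tgt (!e.b) κ).card ≤ p * S.N κ) ∨
    (¬ P L e ∧ Za L e.b e.a e.p ∩ S.tgt (!e.b) κ ⊆ W ∧
      ((Za L e.b e.a e.p ∩ S.tgt (!e.b) κ).Nonempty → H.ty κ < t₀))) →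
  comp Zr Za (run F σ w k) ≤
    (2 * k / Fintype.card S.V + 4 * S.D * (H.R + 2) * θ) * W.card + p * cnt P (run F σ w k)

/-! ## Parameters -/

/-- The parameters of the induction. -/
structure Par {S : Sys} {F : Fx S} (H : Hier S F) (q : ℕ) where
  h : ℕ → ℕ
  X : ℕ → ℕ
  Ns : ℕ
  K0 : ℕ
  n' : ℕ
  n : ℕ
  cp : ℕ
  m4 : ℕ → ℕ
  θ : ℝ
  θ4 : ℕ → ℝ
  al : ℝ
  al4 : ℕ → ℝ
  Y : ℕ → ℝ
  q_pos : 1 ≤ q
  N_D : 4 * S.D ≤ Fintype.card S.V
  N_q : 8 * q ≤ Fintype.card S.V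
  N_R : H.R ≤ Fintype.card S.V
  N_10 : 10 ≤ Fintype.card S.V
  X_zero : 2 * q ≤ X 0
  X_zero_N : 2 * X 0 ≤ Fintype.card S.V
  X_one : 2 * q ≤ X 1
  h_pos : ∀ t < H.R, 1 ≤ h t
  Ns_pow : ∀ t < H.R, (2 * H.dd (t + 1) + 1) ^ h t ≤ Ns
  Ns_T : 2 * Ns < H.T - 1
  θ_nonneg : 0 ≤ θ
  θ_le : θ ≤ 1 / 1000
  dn : ∀ τ < H.R, 400 * S.D * ((X (τ + 1) : ℝ) + 2) ≤ θ * H.nb (τ + 1)
  θ_T : θ * (H.T - 1 : ℕ) ≤ 1
  rho : ∀ t < H.R, (((S.D - H.th (t + 1) : ℕ) : ℝ) / (S.D - H.th t - 1 : ℕ)) ^ h t ≤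
    ((Fintype.card S.V : ℝ) ^ cp)⁻¹
  K0_pos : 1 ≤ K0
  cp_ge : 8 * (K0 + 45) ^ 3 ≤ cp
  al_pos : 0 < al
  al_K0 : al ≤ K0
  al_ge : 2 * (1 + H.nu n) * θ * ((H.T - 1 : ℕ) + K0 + 1) +
    (2 * q / Fintype.card S.V + 4 * S.D * (H.R + 2) * θ) * ((H.T - 1 : ℕ) * (1 + H.nu n)) ≤ al
  al_pow : (Real.exp 1 * al / K0) ^ K0 ≤ ((Fintype.card S.V : ℝ) ^ 12)⁻¹
  c3 : 2 * (1 + H.nu n) * θ ≤ 1 / 100
  c3' : (2 * (1 + H.nu n) * θ + (2 * q / Fintype.card S.V + 4 * S.D * (H.R + 2) * θ) *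
    (1 + H.nu n)) * (H.T - 1 : ℕ) ≤ 1
  θ4_nonneg : ∀ t, 0 ≤ θ4 t
  dn4 : ∀ t, 1 ≤ t → t < H.R → ∀ τ < t,
    400 * S.D * ((X (τ + 1) : ℝ) + 2) ≤ θ4 t * H.nb (τ + 1)
  al4_ge : ∀ t, 1 ≤ t → t < H.R → (2 * q / Fintype.card S.V + 4 * S.D * (H.R + 2) * θ4 t) *
    ((6 * h (t - 1) + 4) * H.nb (t + 1)) ≤ al4 t
  al4_pos : ∀ t, 1 ≤ al4 t
  m4_al4 : ∀ t, 8 * al4 t ≤ m4 t
  m4_log : ∀ t, 12 * Real.log (Fintype.card S.V) ≤ m4 t
  X_ge : ∀ t, 1 ≤ t → t < H.R → (Ns : ℝ) * m4 t + (Ns : ℝ) ^ 2 * Y (t - 1) ≤ X (t + 1)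
  Y_zero : 2 * q * Real.log (Fintype.card S.V) / (H.T - 1 : ℕ) ≤ Y 0
  Y_succ : ∀ t, t + 1 < H.R →
    2 * (Ns : ℝ) ^ 2 * Real.log (Fintype.card S.V) / (H.T - 1 : ℕ) * Y t ≤ Y (t + 1)
  Y_R : Y (H.R - 1) < 1
  g_big : 4 * h (H.R - 1) + 10 ≤ H.g0
  n'_big : (K0 + 2) * (2 * h (H.R - 1) + 3) ≤ n'
  n_big : 2 * n' ≤ n

/-- C1: the compensator of the events of a small tree. -/
def T_C1 : Prop := ∀ (S : Sys) (F : Fx S) (H : Hier S F) (q : ℕ) (P : Par H q) (σ : Player S)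
  (w : World S) (k t : ℕ) (ρ : S.V), t < H.R → k ≤ q → (∀ j < k, H.XB P.X (run F σ w j)) →
  hits (H.z1r P.X P.n (H.T - 1) t ρ) (H.z1a P.X P.n (H.T - 1) t ρ) (run F σ w k) ≤ P.K0 + 1 →
  comp (H.z1r P.X P.n (H.T - 1) t ρ) (H.z1a P.X P.n (H.T - 1) t ρ) (run F σ w k) ≤ P.al

/-- C2: the compensator of the landings near a landing name. -/
def T_C2 : Prop := ∀ (S : Sys) (F : Fx S) (H : Hier S F) (q : ℕ) (P : Par H q) (σ : Player S)
  (w : World S) (k : ℕ) (y : S.V), k ≤ q → (∀ j < k, H.XB P.X (run F σ w j)) →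
  comp (H.z2r P.X P.n y) (H.z2a P.X P.n y) (run F σ w k) ≤ P.al

/-- C3: the compensator of the events of the big trees. -/
def T_C3 : Prop := ∀ (S : Sys) (F : Fx S) (H : Hier S F) (q : ℕ) (P : Par H q) (σ : Player S)
  (w : World S) (k t : ℕ) (β : H.Bk), t < H.R → k ≤ q → (∀ j < k, H.XB P.X (run F σ w j)) →
  comp (H.z3r P.X P.n (H.T - 1) t β) (H.z3a P.X P.n (H.T - 1) t β) (run F σ w k) ≤
    ((H.big (H.T - 1) t β (run F σ w k)).card : ℝ) / (H.T - 1 : ℕ) +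
    hits (H.z3r P.X P.n (H.T - 1) t β) (H.z3a P.X P.n (H.T - 1) t β) (run F σ w k) / 100

/-- C4: the compensator of the landings in a window. -/
def T_C4 : Prop := ∀ (S : Sys) (F : Fx S) (H : Hier S F) (q : ℕ) (P : Par H q) (σ : Player S)
  (w : World S) (k t : ℕ) (β : H.Bk) (l : ℕ), 1 ≤ t → t < H.R → k ≤ q →
  (∀ j < k, H.XB P.X (run F σ w j)) →
  comp (H.z4r P.X (P.h (t - 1)) t β l) (H.z4a P.X (P.h (t - 1)) t β l) (run F σ w k) ≤ P.al4 t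

/-- The value of the decoupled union bound. -/
def ub {S : Sys} {F : Fx S} (B : Blk S F) (m K' F' h y : ℕ) (θ : ℝ) : ℝ :=
  (2 * Fintype.card S.V) ^ K' * (2 * Fintype.card S.V * S.D) ^ (2 * F') * Fintype.card S.V ^ y *
    Real.exp (4 * θ * m) * (((S.D - B.th' : ℕ) : ℝ) / (S.D - B.th - 1 : ℕ)) ^ (h * y)

/-- No unlikely event happens. -/
structure GoodW {S : Sys} {F : Fx S} (H : Hier S F) {q : ℕ} (P : Par H q) (σ : Player S)
    (w : World S) : Prop where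
  g1 : ∀ t < H.R, ∀ ρ, ∀ k ≤ q,
    ¬ (P.K0 ≤ hits (H.z1r P.X P.n (H.T - 1) t ρ) (H.z1a P.X P.n (H.T - 1) t ρ) (run F σ w k) ∧
      comp (H.z1r P.X P.n (H.T - 1) t ρ) (H.z1a P.X P.n (H.T - 1) t ρ) (run F σ w k) ≤ P.al)
  g2 : ∀ y, ∀ k ≤ q,
    ¬ (P.K0 ≤ hits (H.z2r P.X P.n y) (H.z2a P.X P.n y) (run F σ w k) ∧
      comp (H.z2r P.X P.n y) (H.z2a P.X P.n y) (run F σ w k) ≤ P.al)
  g3 : ∀ t < H.R, ∀ x β, H.blk t x = some β → ∀ k ≤ q, ∀ m a : ℕ, 1 ≤ a → 8 * a ≤ m →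
    12 * Real.log (Fintype.card S.V) ≤ m →
    ¬ (m ≤ hits (H.z3r P.X P.n (H.T - 1) t β) (H.z3a P.X P.n (H.T - 1) t β) (run F σ w k) ∧
      comp (H.z3r P.X P.n (H.T - 1) t β) (H.z3a P.X P.n (H.T - 1) t β) (run F σ w k) ≤ a)
  g4 : ∀ t, 1 ≤ t → t < H.R → ∀ x β, H.blk t x = some β → ∀ l < 3 * H.T, ∀ k ≤ q,
    ¬ (P.m4 t ≤ hits (H.z4r P.X (P.h (t - 1)) t β l) (H.z4a P.X (P.h (t - 1)) t β l)
        (run F σ w k) ∧
      comp (H.z4r P.X (P.h (t - 1)) t β l) (H.z4a P.X (P.h (t - 1)) t β l) (run F σ w k) ≤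
        P.al4 t)
  gU : ∀ t (ht : t < H.R), ∀ x β, H.blk t x = some β → ∀ k ≤ q, ∀ m K' F' y : ℕ,
    m ≤ Fintype.card S.V → K' ≤ Fintype.card S.V → F' ≤ Fintype.card S.V →
    y ≤ Fintype.card S.V →
    ub (H.toBlk t β ht) m K' F' (P.h t) y P.θ ≤ ((Fintype.card S.V : ℝ) ^ 12)⁻¹ →
    ¬ UE (H.toBlk t β ht) σ k m K' F' (P.h t) y P.θ w

/-- PG: most worlds are good. -/
def T_PG : Prop := ∀ (S : Sys) (F : Fx S) (H : Hier S F) (q : ℕ) (P : Par H q) (σ : Player S),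
  (4 * Nat.card {w : World S // ¬ GoodW H P σ w} : ℝ) ≤ Nat.card (World S)

/-- HB1: few events of each small tree in a good world. -/
def T_HB1 : Prop := ∀ (S : Sys) (F : Fx S) (H : Hier S F) (q : ℕ) (P : Par H q) (σ : Player S)
  (w : World S) (k : ℕ), k ≤ q → GoodW H P σ w → (∀ j < k, H.XB P.X (run F σ w j)) →
  (∀ t < H.R, ∀ ρ, hits (H.z1r P.X P.n (H.T - 1) t ρ) (H.z1a P.X P.n (H.T - 1) t ρ)
    (run F σ w k) < P.K0) ∧
  (∀ y, hits (H.z2r P.X P.n y) (H.z2a P.X P.n y) (run F σ w k) < P.K0)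

/-- HB3: few events of the big trees, few landings in windows in a good world. -/
def T_HB3 : Prop := ∀ (S : Sys) (F : Fx S) (H : Hier S F) (q : ℕ) (P : Par H q) (σ : Player S)
  (w : World S) (k : ℕ), k ≤ q → GoodW H P σ w → (∀ j < k, H.XB P.X (run F σ w j)) →
  (∀ t < H.R, ∀ x β, H.blk t x = some β →
    (hits (H.z3r P.X P.n (H.T - 1) t β) (H.z3a P.X P.n (H.T - 1) t β) (run F σ w k) : ℝ) ≤
      12 * Real.log (Fintype.card S.V) +
        10 * ((H.big (H.T - 1) t β (run F σ w k)).card / (H.T - 1 : ℕ)) + 21) ∧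
  (∀ t, 1 ≤ t → t < H.R → ∀ x β, H.blk t x = some β → ∀ l < 3 * H.T,
    hits (H.z4r P.X (P.h (t - 1)) t β l) (H.z4a P.X (P.h (t - 1)) t β l) (run F σ w k) <
      P.m4 t)

/-- SPB: few special pairs, for small and for big trees. -/
def T_SPB : Prop := ∀ (S : Sys) (F : Fx S) (H : Hier S F) (q : ℕ) (P : Par H q) (σ : Player S)
  (w : World S) (k : ℕ), k ≤ q → GoodW H P σ w → (∀ j < k, H.XB P.X (run F σ w j)) →
  (∀ v, H.dep H.R (run F σ w k) v ≤ P.h (H.R - 1)) →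
  (∀ t < H.R, ∀ ρ ∈ H.roots t (run F σ w k), ∀ β,
    (H.part t (run F σ w k) ρ).card < H.T - 1 → H.blk t (w.lam ρ) = some β →
    H.spc t (H.part t (run F σ w k) ρ) (run F σ w k) ≤ (P.K0 + 3) ^ 3) ∧
  (∀ t < H.R, ∀ x β, H.blk t x = some β → (H.big (H.T - 1) t β (run F σ w k)).Nonempty →
    (H.spc t (H.big (H.T - 1) t β (run F σ w k)) (run F σ w k) : ℝ) ≤
      (P.K0 + 3) ^ 2 * (P.K0 + 45) * ((H.big (H.T - 1) t β (run F σ w k)).card /
        (H.T - 1 : ℕ)) * Real.log (Fintype.card S.V))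

/-- TSM: no selected path in a small tree. -/
def T_TSM : Prop := ∀ (S : Sys) (F : Fx S) (H : Hier S F) (q : ℕ) (P : Par H q) (σ : Player S)
  (w : World S) (k : ℕ), k ≤ q → GoodW H P σ w → (∀ j < k, H.XB P.X (run F σ w j)) →
  (∀ v, H.dep H.R (run F σ w k) v ≤ P.h (H.R - 1)) →
  ∀ t < H.R, ∀ ρ ∈ H.roots t (run F σ w k), (H.part t (run F σ w k) ρ).card < H.T - 1 →
    H.top t (P.h t) (run F σ w k) ∩ H.part t (run F σ w k) ρ = ∅

/-- TBG: few selected paths in the big trees. -/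
def T_TBG : Prop := ∀ (S : Sys) (F : Fx S) (H : Hier S F) (q : ℕ) (P : Par H q) (σ : Player S)
  (w : World S) (k : ℕ), k ≤ q → GoodW H P σ w → (∀ j < k, H.XB P.X (run F σ w j)) →
  (∀ v, H.dep H.R (run F σ w k) v ≤ P.h (H.R - 1)) →
  ∀ t < H.R, ∀ x β, H.blk t x = some β →
    ((H.top t (P.h t) (run F σ w k) ∩ H.big (H.T - 1) t β (run F σ w k)).card : ℝ) ≤
      (H.big (H.T - 1) t β (run F σ w k)).card / (H.T - 1 : ℕ) *
        Real.log (Fintype.card S.V)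

/-- TOP: the number of selected paths. -/
def T_TOP : Prop := ∀ (S : Sys) (F : Fx S) (H : Hier S F) (q : ℕ) (P : Par H q) (σ : Player S)
  (w : World S) (k : ℕ), k ≤ q → GoodW H P σ w → (∀ j < k, H.XB P.X (run F σ w j)) →
  (∀ v, H.dep H.R (run F σ w k) v ≤ P.h (H.R - 1)) →
  ∀ t < H.R, ((H.top t (P.h t) (run F σ w k)).card : ℝ) ≤ P.Y t

/-- DET: the induction in good worlds. -/
def T_DET : Prop := ∀ (S : Sys) (F : Fx S) (H : Hier S F) (q : ℕ) (P : Par H q) (σ : Player S)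
  (w : World S), GoodW H P σ w → ∀ k ≤ q, H.XB P.X (run F σ w k) ∧
    (∀ v, H.dep H.R (run F σ w k) v < P.h (H.R - 1)) ∧
    ∀ z ∈ H.land (run F σ w k), (H.nbh P.n' (run F σ w k) z).card ≤ P.K0 + 1

/-- Nice logs: short bottom paths, small clusters. -/
def Nice {S : Sys} {F : Fx S} (H : Hier S F) (h n m : ℕ) (L : List (En S)) : Prop :=
  (∀ v, H.dep H.R L v < h) ∧ ∀ z ∈ H.land L, (H.nbh n L z).card ≤ m

/-- AMT: the log is nice in most worlds. -/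
def T_AMT : Prop := ∀ (S : Sys) (F : Fx S) (H : Hier S F) (q : ℕ) (P : Par H q) (σ : Player S),
  (4 * Nat.card {w : World S // ¬ Nice H (P.h (H.R - 1)) P.n' (P.K0 + 1) (run F σ w q)} : ℝ) ≤
    Nat.card (World S)

end

end Pool.Agent.AcyAd
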