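import Pool.Agent.AcyAd.Targets2
import Pool.Agent.AcyAd.Gad

/-!
# MP_08c6cd_lc, fully adaptive testers: targets of the jobs ADC-* (coupling, digraphs, simulation)

Proofs: `Blueprint3.lean.txt`.
-/

namespace Pool.Agent.AcyAd

open scoped Classical
open Pool.Agent.AcyTest

noncomputable section

/-! ## Coupling -/

/-- MVR: the run in the moved world. -/
def T_MVR : Prop := ∀ (S : Sys) (FA FF : Fx S) (H : Hier S FA) (B : ℕ) (W : Twist FA FF H B)
  (σ : Player S) (w : World S) (k : ℕ) (f : Option H.Q → ℤ), PotFor H B (run FA σ w k) f →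
  run FF σ (w.move (W.phi f)) k = (run FA σ w k).map fun e =>
    ⟨e.b, e.a, (W.phi f e.p.1, e.p.2), e.r.map fun y => (y.1, (W.phi f y.2.1, y.2.2))⟩

/-- MVI: the moved world determines the world. -/
def T_MVI : Prop := ∀ (S : Sys) (FA FF : Fx S) (H : Hier S FA) (B : ℕ) (W : Twist FA FF H B)
  (f : Option H.Q → ℤ), (∀ q, |f q| ≤ B) →
  Function.Injective fun w : World S => w.move (W.phi f)

/-- CPL: the coupling. -/
def T_CPL : Prop := ∀ (S : Sys) (FA FF : Fx S) (H : Hier S FA) (B : ℕ) (_ : Twist FA FF H B)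
  (σ : Player S) (k : ℕ) (acc : List (VE S) → Prop),
  Nat.card {w : World S // (∃ f, PotFor H B (run FA σ w k) f) ∧
    acc ((run FA σ w k).map En.vis)} ≤
  Nat.card {w : World S // acc ((run FF σ w k).map En.vis)}

/-- CLU: small clusters. -/
def T_CLU : Prop := ∀ (Λ : Type) (A : Finset Λ) (P : ℕ → Λ → Λ → Prop) (r m n : ℕ),
  (∀ x ∈ A, P 0 x x) → (∀ i j x y z, P i x y → P j y z → P (i + j) x z) →
  (∀ i j x y, i ≤ j → P i x y → P j x y) → (m + 1) * r ≤ n →
  (∀ x ∈ A, (A.filter fun y => P n x y).card ≤ m) →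
  ∀ x ∈ A, ∀ y, Relation.ReflTransGen (fun u v => v ∈ A ∧ P r u v) x y → P n x y

/-- PTN: explored fixed pairs of nice logs have a potential. -/
def T_PTN : Prop := ∀ (S : Sys) (FA FF : Fx S) (H : Hier S FA) (B : ℕ) (_ : Twist FA FF H B)
  (σ : Player S) (w : World S) (k h n m : ℕ), Nice H h n m (run FA σ w k) →
  (m + 1) * (2 * h + 1) ≤ n → n + h + 1 ≤ B → 2 * B + 1 ≤ H.g0 →
  ∃ f, PotFor H B (run FA σ w k) f

/-- LOW: the two worlds look alike. -/
def T_LOW : Prop := ∀ (S : Sys) (FA FF : Fx S) (H : Hier S FA) (q B : ℕ) (P : Par H q)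
  (_ : Twist FA FF H B), P.n' + P.h (H.R - 1) + 1 ≤ B → 2 * B + 1 ≤ H.g0 →
  ∀ (σ : Player S) (acc : List (VE S) → Prop),
  4 * Nat.card {w : World S // acc ((run FA σ w q).map En.vis)} ≤
    4 * Nat.card {w : World S // acc ((run FF σ w q).map En.vis)} + Nat.card (World S)

/-! ## Digraphs -/

/-- GEX: the digraph of a world exists. -/
def T_GEX : Prop := ∀ (S : Sys) (F : Fx S) (w : World S) (s d : ℕ), 2 ≤ d →
  ∃ L : DG (GV S s) d, IsGad F w s d L

/-- GACY: it is acyclic if the relation on the names is. -/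
def T_GACY : Prop := ∀ (S : Sys) (F : Fx S) (w : World S) (s d : ℕ) (L : DG (GV S s) d), 2 ≤ d →
  IsGad F w s d L → AcyR (fun v v' => ∃ i i', w.ask F true (v, i) = some (v', i')) → L.Acyclic

/-- GFAS: its feedback arcs. -/
def T_GFAS : Prop := ∀ (S : Sys) (F : Fx S) (w : World S) (s d : ℕ) (L : DG (GV S s) d) (x : ℝ)
  (E₀ : S.Sl → Prop), 2 ≤ d → IsGad F w s d L →
  (∀ v, (Finset.univ.filter fun i => E₀ (v, i)).card ≤ 2) →
  (∀ v', (Finset.univ.filter fun i' : Fin S.D =>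
    ∃ a, E₀ a ∧ w.ask F true a = some (v', i')).card ≤ 2) →
  FasGe (fun v v' => ∃ i i', E₀ (v, i) ∧ w.ask F true (v, i) = some (v', i')) x →
  FasGe L.E (x / 2)

/-- SEQ: an algorithm with rounds asks its oracle one question after the other. `qa x` is the
question needed to answer the query `x`, `an x z` the answer if the question has the answer `z`. -/
def T_SEQ : Prop := ∀ (V : Type) [DecidableEq V] (d : ℕ) (A : RAlg V d) (r q : ℕ) (X Z : Type)
  [Inhabited X] (qa : Query V d → Option X) (an : Query V d → Option Z → Option V)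
  (𝓞 : Set ((X → Z) × DG V d)), (∀ o ∈ 𝓞, ∀ x, o.2.ans x = an x ((qa x).map o.1)) →
  (∀ o ∈ 𝓞, A.cost o.2 r ≤ q) →
  ∃ (σ : List Z → X) (acc : List Z → Prop), ∀ o ∈ 𝓞, ∀ l : ℕ → List Z, l 0 = [] →
    (∀ k, l (k + 1) = o.1 (σ (l k)) :: l k) → (A.acc (A.table o.2 r) = true ↔ acc (l q))

/-- SIM: a player simulates an algorithm. -/
def T_SIM : Prop := ∀ (S : Sys) (n s d : ℕ) (A : RAlg (Fin n) d) (r q : ℕ) (π : Fin n ≃ GV S s),
  Nonempty S.Sl → (∀ G, A.cost G r ≤ q) →
  ∃ (σ : Player S) (acc : List (VE S) → Prop), ∀ (F : Fx S) (w : World S) (L : DG (GV S s) d),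
    IsGad F w s d L →
    (A.acc (A.table (L.pull π) r) = true ↔ acc ((run F σ w q).map En.vis))

/-- TL: no tester if the two worlds look alike. -/
def T_TL : Prop := ∀ (S : Sys) (FA FF : Fx S) (n s d r q : ℕ) (π : Fin n ≃ GV S s) (ε : ℝ)
  (T : Tester n d r q), Nonempty S.Sl → 2 ≤ d →
  (∀ w : World S, AcyR (fun v v' => ∃ i i', w.ask FA true (v, i) = some (v', i'))) →
  (∀ (w : World S) (L : DG (GV S s) d), IsGad FF w s d L → (L.pull π).Far ε) →
  (∀ (σ : Player S) (acc : List (VE S) → Prop),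
    4 * Nat.card {w : World S // acc ((run FA σ w q).map En.vis)} ≤
      4 * Nat.card {w : World S // acc ((run FF σ w q).map En.vis)} + Nat.card (World S)) →
  ¬ T.IsTester ε

end

end Pool.Agent.AcyAd
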