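import Pool.Agent.AcyAd.Targets3
import Pool.Agent.AcyAd.Inst

/-!
# MP_08c6cd_lc, fully adaptive testers: targets of the jobs ADI-* (the construction)

Proofs: `Blueprint4.lean.txt`.
-/

namespace Pool.Agent.AcyAd

open scoped Classical
open Pool.Agent.AcyTest

noncomputable section

namespace Dat

variable (d : Dat)

/-- Out-slots of regular classes of type `t`. -/
def nfo (t : ℕ) (x : d.V) (r : ℕ) : Prop :=
  (∀ s < t, d.rich s x) ∧ d.th t ≤ r ∧ d.co t x ≠ 3 * d.T - 1 ∧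
  (d.T - 1 ≤ d.co t x → d.co t x < 2 * d.T → (r < d.th (t + 1) ∨ d.exit (t + 1) x r))

/-- Out-slots of jump classes of type `t`. -/
def jmo (t : ℕ) (x : d.V) (r : ℕ) : Prop :=
  (∀ s < t, d.rich s x) ∧ d.co t x = d.T - 1 ∧ d.th (t + 1) ≤ r ∧ ¬ d.exit (t + 1) x r

/-- In-slots of regular classes of type `t`. -/
def nfi (t : ℕ) (x : d.V) (r : ℕ) : Prop :=
  (∀ s < t, d.rich s x) ∧ d.th t ≤ r ∧ d.co t x ≠ 0 ∧
  (d.T ≤ d.co t x → d.co t x ≤ 2 * d.T → (r < d.th (t + 1) ∨ d.entry (t + 1) x r))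

/-- In-slots of jump classes of type `t`. -/
def jmi (t : ℕ) (x : d.V) (r : ℕ) : Prop :=
  (∀ s < t, d.rich s x) ∧ d.co t x = 2 * d.T ∧ d.th (t + 1) ≤ r ∧ ¬ d.entry (t + 1) x r

/-- A bottom slot with a fixed pair. -/
def bto (x : d.V) (r : ℕ) : Prop := d.isb d.R x ∧ d.th d.R ≤ r ∧ ¬ d.exit d.R x r

/-- See `bto`. -/
def bti (x : d.V) (r : ℕ) : Prop := d.isb d.R x ∧ d.th d.R ≤ r ∧ ¬ d.entry d.R x r

end Dat

/-- NFO: the classes of the out-slots. -/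
def T_NFO : Prop := ∀ (d : Dat) (x : d.V) (r : ℕ), r < d.D →
  (∀ κ : d.K, d.cout x r = some κ ↔
    (κ.2.2 = false ∧ d.nfo κ.1 x r ∧ κ.2.1 = d.key κ.1 (d.co κ.1 x) x) ∨
    (κ.2.2 = true ∧ d.jmo κ.1 x r ∧ κ.2.1 = d.key κ.1 (d.T - 1) x)) ∧
  (d.cout x r = none ↔ d.bto x r ∨ d.co 0 x = 3 * d.T - 1)

/-- NFI: the classes of the in-slots. -/
def T_NFI : Prop := ∀ (d : Dat) (x : d.V) (r : ℕ), r < d.D →
  (∀ κ : d.K, d.cin x r = some κ ↔
    (κ.2.2 = false ∧ d.nfi κ.1 x r ∧ κ.2.1 = d.key κ.1 (d.co κ.1 x - 1) x) ∨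
    (κ.2.2 = true ∧ d.jmi κ.1 x r ∧ κ.2.1 = d.key κ.1 (d.T - 1) x)) ∧
  (d.cin x r = none ↔ d.bti x r ∨ d.co 0 x = 0)

/-- EXN: as many exit slots as entry slots of the base graph. -/
def T_EXN : Prop := ∀ (d : Dat),
  Nat.card {y : Fin d.M × Fin d.w × Fin 2 // y.1.1 + 1 = d.M ∨ d.G.out y.2.1 y.2.2 = none} =
  Nat.card {y : Fin d.M × Fin d.w × Fin 2 // y.1.1 = 0 ∨ d.G.inn y.2.1 y.2.2 = none}

/-- CARD: the classes have as many out-slots as in-slots. -/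
def T_CARD : Prop := ∀ d : Dat, d.Card

/-- CSZ: lower bound for the sizes of the classes. -/
def T_CSZ : Prop := ∀ (d : Dat) (κ : d.K) (b : Bool) (y : d.V × Fin d.D), d.ccf b y = some κ →
  d.nbf (κ.1 + 1) ≤ 400 * Nat.card {a : d.V × Fin d.D // d.ccf true a = some κ}

/-- FXE: the fixed pairs exist. -/
def T_FXE : Prop := ∀ (d : Dat) (hc : d.Card) (f : Equiv.Perm (Fin d.M)),
  (∀ j, (f j).1 = 0 ↔ j.1 + 1 = d.M) → ∃ F : Fx (d.sys hc), d.IsFx hc F f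

/-- IB: the blocks. -/
def T_IB : Prop := ∀ d : Dat,
  (∀ x y : d.V, d.blkf 0 x = d.blkf 0 y ∧ d.blkf 0 x ≠ none) ∧
  (∀ t < d.R, ∀ x y : d.V, d.blkf (t + 1) x = d.blkf (t + 1) y → d.blkf (t + 1) x ≠ none →
    d.blkf t x = d.blkf t y ∧ d.co t x = d.co t y) ∧
  (∀ t < d.R, ∀ x : d.V, d.blkf (t + 1) x ≠ none ↔
    d.blkf t x ≠ none ∧ d.T ≤ d.co t x ∧ d.co t x < 2 * d.T) ∧
  (∀ t < d.R, ∀ x y : d.V, d.blkf (t + 1) x ≠ none → d.blkf t x = d.blkf t y →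
    d.co t x = d.co t y → d.blkf (t + 1) x = d.blkf (t + 1) y) ∧
  (∀ t < d.R, ∀ x : d.V, d.blkf t x ≠ none → d.co t x < 3 * d.T) ∧
  d.nbf 0 = Fintype.card d.V ∧ (∀ t < d.R, d.nbf t = 3 * d.T * d.nbf (t + 1)) ∧ 1 ≤ d.nbf d.R ∧
  (∀ t ≤ d.R, ∀ x : d.V, d.blkf t x ≠ none →
    (Finset.univ.filter fun y => d.blkf t y = d.blkf t x).card = d.nbf t) ∧
  (∀ t < d.R, ∀ x : d.V, d.blkf t x ≠ none → ∀ l < 3 * d.T,
    (Finset.univ.filter fun y => d.blkf t y = d.blkf t x ∧ d.co t y = l).card = d.nbf (t + 1))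

/-- IC: the classes. -/
def T_IC : Prop := ∀ d : Dat,
  (∀ b b' (y y' : d.V × Fin d.D) κ, d.ccf b y = some κ → d.ccf b' y' = some κ →
    d.blkf κ.1 y.1 ≠ none ∧ d.blkf κ.1 y.1 = d.blkf κ.1 y'.1) ∧
  (∀ b (y y' : d.V × Fin d.D) κ, d.ccf b y = some κ → d.ccf b y' = some κ →
    d.co κ.1 y.1 = d.co κ.1 y'.1) ∧
  (∀ (y y' : d.V × Fin d.D) κ, d.ccf true y = some κ → d.ccf false y' = some κ →
    d.co κ.1 y'.1 = d.co κ.1 y.1 + 1 ∨ (d.co κ.1 y.1 = d.T - 1 ∧ d.co κ.1 y'.1 = 2 * d.T)) ∧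
  (∀ b (y : d.V × Fin d.D) κ, d.ccf b y = some κ → d.th κ.1 ≤ y.2) ∧
  (∀ b (x : d.V), (Finset.univ.filter fun κ : d.K => ∃ r, d.ccf b (x, r) = some κ).card ≤ d.R + 2)

/-- IM: the slots in the middle of a block. -/
def T_IM : Prop := ∀ (d : Dat) (hc : d.Card) (F : Fx (d.sys hc)), d.IsFx hc F (finRotate d.M) →
  (∀ t < d.R, ∀ b (x : d.V) (r : Fin d.D), d.blkf t x ≠ none → 1 ≤ d.co t x →
    d.co t x ≤ 3 * d.T - 2 → (r : ℕ) < d.th t → ∃ κ : d.K, κ.1 < t ∧ ∀ x' : d.V,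
      d.blkf t x' = d.blkf t x → 1 ≤ d.co t x' → d.co t x' ≤ 3 * d.T - 2 →
        d.ccf b (x', r) = some κ) ∧
  (∀ t < d.R, ∀ b (x : d.V) (r : Fin d.D), d.blkf t x ≠ none → 1 ≤ d.co t x →
    d.co t x ≤ 3 * d.T - 2 → d.th t ≤ (r : ℕ) →
      (∃ κ : d.K, d.ccf b (x, r) = some κ ∧ t ≤ κ.1) ∨ F.fx b (x, r) ≠ none)

/-- IP: the projection. -/
def T_IP : Prop := ∀ d : Dat,
  (∀ x : d.V, d.prjf x = none ↔ d.blkf d.R x = none) ∧
  (∀ x y : d.V, d.prjf x ≠ none → d.prjf x = d.prjf y → d.blkf d.R x = d.blkf d.R y) ∧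
  (∀ (x y : d.V) q q', d.prjf x = some q → d.prjf y = some q' → d.GQf.Adj q q' →
    d.blkf d.R x = d.blkf d.R y) ∧
  (∀ (x y : d.V) q q', d.prjf x = some q → d.prjf y = some q' → d.GQf.Reachable q q' →
    d.blkf d.R x = d.blkf d.R y) ∧
  (∀ (x y : d.V) b (κ : d.K), d.blkf d.R x ≠ none → d.blkf d.R x = d.blkf d.R y →
    ((∃ r, d.ccf b (x, r) = some κ) ↔ ∃ r, d.ccf b (y, r) = some κ)) ∧
  LongCyc d.GQf d.g0 ∧
  (∀ n (x : d.V), (Finset.univ.filter fun y : d.V => ∃ q q', d.prjf x = some q ∧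
    d.prjf y = some q' ∧ ∃ p : d.GQf.Walk q q', p.length ≤ n).card ≤ d.nuf n)

/-- IF: the fixed pairs. -/
def T_IF : Prop := ∀ (d : Dat) (hc : d.Card) (F : Fx (d.sys hc)) (f : Equiv.Perm (Fin d.M)),
  d.IsFx hc F f →
  (∀ b (y y' : d.V × Fin d.D), F.fx b y = some y' → ∃ q q', d.prjf y.1 = some q ∧
    d.prjf y'.1 = some q' ∧ d.GQf.Adj q q') ∧
  (∀ b (y : d.V × Fin d.D), F.fx b y ≠ none → d.th d.R ≤ y.2) ∧
  (∀ b b' (x : d.V) (r r' : Fin d.D) (y y' : d.V × Fin d.D), F.fx b (x, r) = some y →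
    F.fx b' (x, r') = some y' → d.prjf y.1 = d.prjf y'.1 → b = b' ∧ r = r')

theorem card_filter_eq {V : Type} [Fintype V] (P : V → Prop) [DecidablePred P] :
    (Finset.univ.filter P).card = Nat.card {y // P y} := by
  rw [Nat.card_eq_fintype_card, Fintype.card_subtype]

/-- The hierarchy of the construction. -/
def Dat.hier (d : Dat) (hc : d.Card) (F : Fx (d.sys hc)) (hF : d.IsFx hc F (finRotate d.M))
    (ib : T_IB) (ic : T_IC) (im : T_IM) (cs : T_CSZ) (ip : T_IP) (fi : T_IF) :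
    Hier (d.sys hc) F where
  R := d.R
  T := d.T
  ty := fun κ : d.K => κ.1.1
  Bk := d.Bk
  blk := d.blkf
  lay := d.co
  th := d.th
  nb := d.nbf
  Q := d.Q
  prj := d.prjf
  GQ := d.GQf
  g0 := d.g0
  nu := d.nuf
  R_pos := d.hR
  T_big := d.hT
  ty_lt := fun κ : d.K => κ.1.2
  th_mono := d.thm.monotone
  th_D := by
    show d.th d.R ≤ d.th d.R + 2
    omega
  th_2 := by
    intro t ht
    have := d.thm ht
    show d.th t + 2 ≤ d.th d.R + 2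
    omega
  blk_zero := (ib d).1
  blk_nest := (ib d).2.1
  blk_rich := (ib d).2.2.1
  blk_eq := (ib d).2.2.2.1
  lay_lt := (ib d).2.2.2.2.1
  nb_zero := (ib d).2.2.2.2.2.1
  nb_succ := (ib d).2.2.2.2.2.2.1
  nb_pos := (ib d).2.2.2.2.2.2.2.1
  card_blk := by
    intro t ht x hx
    have h := (ib d).2.2.2.2.2.2.2.2.1 t ht x hx
    rw [card_filter_eq] at h ⊢
    exact h
  card_lay := by
    intro t ht x hx l hl
    have h := (ib d).2.2.2.2.2.2.2.2.2 t ht x hx l hl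
    rw [card_filter_eq] at h ⊢
    exact h
  cls_blk := (ic d).1
  cls_lay := (ic d).2.1
  cls_step := (ic d).2.2.1
  cls_th := (ic d).2.2.2.1
  cls_N := fun b y κ h => cs d κ b y h
  cls_num := by
    intro b x
    have h := (ic d).2.2.2.2 b x
    rw [card_filter_eq] at h ⊢
    refine le_trans (le_of_eq ?_) h
    refine Nat.card_congr (Equiv.subtypeEquivRight fun κ => ?_)
    unfold Sys.tgt
    simp only [Finset.mem_filter, Finset.mem_univ, true_and]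
    exact Iff.rfl
  mid_up := (im d hc F hF).1
  mid_in := (im d hc F hF).2
  prj_blk := (ip d).1
  prj_eq := (ip d).2.1
  prj_adj := (ip d).2.2.1
  prj_reach := (ip d).2.2.2.1
  tgt_blk := by
    intro x y b κ h1 h2
    have h := (ip d).2.2.2.2.1 x y b κ h1 h2
    unfold Sys.tgt
    simp only [Finset.mem_filter, Finset.mem_univ, true_and]
    exact h
  fx_adj := (fi d hc F _ hF).1
  fx_th := (fi d hc F _ hF).2.1
  fx_inj := (fi d hc F _ hF).2.2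
  long := (ip d).2.2.2.2.2.1
  nu_near := by
    intro n x
    have h := (ip d).2.2.2.2.2.2 n x
    rw [card_filter_eq] at h ⊢
    exact h

/-- FFX: the permutation of the far world. -/
def T_FFX : Prop := ∀ M a b : ℕ, a % 2 = 0 → b % 2 = 0 → a ≤ b → b < M →
  ∃ f : Equiv.Perm (Fin M), Dat.IsFF M a b f

/-- FFB: powers of the two permutations agree at the ends. -/
def T_FFB : Prop := ∀ (M a b B : ℕ) (f : Equiv.Perm (Fin M)), a % 2 = 0 → b % 2 = 0 → a ≤ b →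
  b < M → Dat.IsFF M a b f → B ≤ a → b + B < M → ∀ n : ℤ, |n| ≤ B → ∀ j : Fin M,
  (((f ^ n * (finRotate M) ^ (-n)) j).1 = 0 ↔ j.1 = 0) ∧
  (((f ^ n * (finRotate M) ^ (-n)) j).1 + 1 = M ↔ j.1 + 1 = M)

/-- TW: the twist between the two worlds. -/
def T_TW : Prop := ∀ (d : Dat) (hc : d.Card) (FA FF : Fx (d.sys hc))
  (hA : d.IsFx hc FA (finRotate d.M)) (ib : T_IB) (ic : T_IC) (im : T_IM) (cs : T_CSZ)
  (ip : T_IP) (fi : T_IF) (a b B : ℕ) (f : Equiv.Perm (Fin d.M)), a % 2 = 0 → b % 2 = 0 →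
  a ≤ b → b < d.M → Dat.IsFF d.M a b f → B ≤ a → b + B < d.M → d.IsFx hc FF f →
  Nonempty (Twist FA FF (d.hier hc FA hA ib ic im cs ip fi) B)

/-- IACY: the first world is acyclic. -/
def T_IACY : Prop := ∀ (d : Dat) (hc : d.Card) (F : Fx (d.sys hc)),
  d.IsFx hc F (finRotate d.M) → ∀ w : World (d.sys hc),
  AcyR (fun v v' => ∃ i i', w.ask F true (v, i) = some (v', i'))

/-- COPY: feedback arcs of disjoint copies. -/
def T_COPY : Prop := ∀ (U W J : Type) [Finite U] [Finite W] [Finite J] (E : U → U → Prop)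
  (E' : W → W → Prop) (ι : J → U → W) (x : ℝ), FasGe E x →
  (∀ i u, ∀ i' u', ι i u = ι i' u' → i = i' ∧ u = u') → (∀ i u v, E u v → E' (ι i u) (ι i v)) →
  FasGe E' (Nat.card J * x)

/-- IFAR: the second world is far from acyclic. -/
def T_IFAR : Prop := ∀ (d : Dat) (hc : d.Card) (F : Fx (d.sys hc)) (a b : ℕ)
  (f : Equiv.Perm (Fin d.M)) (x : ℝ), a % 2 = 0 → b % 2 = 0 → a ≤ b → b < d.M →
  Dat.IsFF d.M a b f → d.IsFx hc F f → FasGe d.G.E x → ∀ w : World (d.sys hc),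
  FasGe (fun v v' => ∃ i i', F.fx true (w.plc true (v, i)) ≠ none ∧
    w.ask F true (v, i) = some (v', i')) (((d.T ^ d.R * ((b - a) / 2) : ℕ) : ℝ) * x)

/-- IFD: the digraph of the second world is far from acyclic. -/
def T_IFD : Prop := ∀ (d : Dat) (hc : d.Card) (F : Fx (d.sys hc)) (a b : ℕ)
  (f : Equiv.Perm (Fin d.M)) (x ε : ℝ) (n s D' : ℕ) (π : Fin n ≃ GV (d.sys hc) s),
  a % 2 = 0 → b % 2 = 0 → a ≤ b → b < d.M → Dat.IsFF d.M a b f → d.IsFx hc F f →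
  FasGe d.G.E x → 2 ≤ D' → ε * D' * n < ((d.T ^ d.R * ((b - a) / 2) : ℕ) : ℝ) * x / 2 →
  ∀ (w : World (d.sys hc)) (L : DG (GV (d.sys hc) s) D'), IsGad F w s D' L → (L.pull π).Far ε

end

end Pool.Agent.AcyAd
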