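import Pool.Agent.AcyAd.Targets4

/-!
# MP_08c6cd_lc, fully adaptive testers: targets of the jobs ADN-* (numbers)

Proofs: `Blueprint5.lean.txt`.
-/

namespace Pool.Agent.AcyAd

open scoped Classical
open Pool.Agent.AcyTest

noncomputable section

/-- PXA: the compensators are small. -/
def T_PXA : Prop := ∀ (D R K0 U T : ℕ) (N nu q θ : ℝ), 2 ≤ D → 3 ≤ K0 → 1 ≤ U → 0 ≤ nu → nu ≤ U →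
  0 ≤ q → q ≤ (T : ℝ) ^ R → (3 * (T : ℝ)) ^ (R + 4) ≤ N →
  10 ^ 6 * D ^ 2 * (R + 2) * (K0 + 2) * U ^ (3 * R + 4) ≤ T →
  θ = 800 * D * (U : ℝ) ^ (3 * R) / (T : ℝ) ^ 3 →
  2 * (1 + nu) * θ * (((T - 1 : ℕ) : ℝ) + K0 + 1) +
    (2 * q / N + 4 * D * (R + 2) * θ) * (((T - 1 : ℕ) : ℝ) * (1 + nu)) ≤ 1 / T ∧
  2 * (1 + nu) * θ ≤ 1 / 100 ∧
  (2 * (1 + nu) * θ + (2 * q / N + 4 * D * (R + 2) * θ) * (1 + nu)) * ((T - 1 : ℕ) : ℝ) ≤ 1 ∧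
  θ ≤ 1 / 1000 ∧ θ * ((T - 1 : ℕ) : ℝ) ≤ 1

/-- PXX: the densities. -/
def T_PXX : Prop := ∀ (D R K0 U T t h : ℕ) (N q l nb : ℝ), 2 ≤ D → 1 ≤ t → t < R → 1 ≤ l →
  64 * (l + 1) ^ 2 ≤ U → 10 ^ 6 * (D : ℝ) ^ 2 * (R + 2) * (h + 1) ≤ U → 0 ≤ q →
  q ≤ (T : ℝ) ^ R → (3 * (T : ℝ)) ^ (R + 4) ≤ N →
  10 ^ 6 * D ^ 2 * (R + 2) * (K0 + 2) * U ^ (3 * R + 4) ≤ T → N = (3 * (T : ℝ)) ^ (t + 1) * nb →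
  (U : ℝ) * (8 * ((2 * q / N + 4 * D * (R + 2) * (800 * D * (U : ℝ) ^ (3 * t) / (T : ℝ) ^ 3)) *
      ((6 * h + 4) * nb) + 1) + 1 + (12 * l + 1)) +
    (U : ℝ) ^ 2 * (2 * q * l / (T - 1 : ℕ) * (2 * (U : ℝ) ^ 2 * l / (T - 1 : ℕ)) ^ (t - 1)) + 1 ≤
  (U : ℝ) ^ (3 * (t + 1)) * nb / (T : ℝ) ^ 3

/-- PXY: no selected path at the bottom. -/
def T_PXY : Prop := ∀ (R U T : ℕ) (q l : ℝ), 1 ≤ R → 1 ≤ l → 64 * (l + 1) ^ 2 ≤ U → 0 ≤ q →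
  q * (U : ℝ) ^ (4 * R) ≤ (T : ℝ) ^ R → 2 ≤ T →
  2 * q * l / (T - 1 : ℕ) * (2 * (U : ℝ) ^ 2 * l / (T - 1 : ℕ)) ^ (R - 1) < 1

/-- PARX: the parameters exist. -/
def T_PARX : Prop := ∀ (S : Sys) (F : Fx S) (H : Hier S F) (q U K0 cp : ℕ) (h : ℕ → ℕ),
  1 ≤ q → 3 ≤ K0 → 8 * (K0 + 45) ^ 3 ≤ cp → (∀ t < H.R, 1 ≤ h t) →
  (∀ t < H.R, (2 * H.dd (t + 1) + 1) ^ h t ≤ U) →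
  (∀ t < H.R, (((S.D - H.th (t + 1) : ℕ) : ℝ) / (S.D - H.th t - 1 : ℕ)) ^ h t ≤
    ((Fintype.card S.V : ℝ) ^ cp)⁻¹) →
  (3 * H.T) ^ 4 ≤ H.nb H.R → (Fintype.card S.V) ^ 12 ≤ H.T ^ K0 → q * U ^ (4 * H.R) ≤ H.T ^ H.R →
  64 * (Real.log (Fintype.card S.V) + 1) ^ 2 ≤ U →
  (∀ t < H.R, 10 ^ 6 * S.D ^ 2 * (H.R + 2) * (h t + 1) ≤ U) →
  10 ^ 6 * S.D ^ 2 * (H.R + 2) * (K0 + 2) * U ^ (3 * H.R + 4) ≤ H.T →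
  H.nu (2 * ((K0 + 2) * (2 * h (H.R - 1) + 3))) ≤ U → 4 * h (H.R - 1) + 10 ≤ H.g0 →
  ∃ P : Par H q, P.h = h ∧ P.n' = (K0 + 2) * (2 * h (H.R - 1) + 3)

/-- THR: the thresholds. -/
def T_THR : Prop := ∀ R e : ℕ, 1 ≤ e → ∃ th : ℕ → ℕ, th 0 = 0 ∧ StrictMono th ∧
  ∀ t < R, th R + 2 - th t - 1 =
    (th R + 2 - th (t + 1)) * (2 * (th R + 2 - th (t + 1)) + 1) ^ e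

/-- HCH: the lengths of the paths. -/
def T_HCH : Prop := ∀ (N : ℝ) (dd cp e : ℕ), 1 < N → 1 ≤ dd → 1 ≤ e → 1 ≤ cp →
  ∃ h : ℕ, 1 ≤ h ∧ (h : ℝ) ≤ cp * Real.log N / e + 1 ∧
  ((2 * dd + 1 : ℕ) : ℝ) ^ h ≤ (2 * dd + 1 : ℕ) * N ^ ((cp : ℝ) / e) ∧
  ((dd : ℝ) / (dd * (2 * dd + 1) ^ e : ℕ)) ^ h ≤ (N ^ cp)⁻¹

/-- The width of the chains. -/
def Tn (R n : ℕ) : ℕ := ⌊(n : ℝ) ^ (1 / ((R : ℝ) + 5))⌋₊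

/-- The logarithm. -/
def la (n : ℕ) : ℕ := ⌈Real.log n⌉₊

/-- The number of vertices of the base graph. -/
def wn (R D n : ℕ) : ℕ := n / (2 * D * ((3 * Tn R n) ^ R * (16 * la n)))

/-- The number of addresses. -/
def Nn (R D n : ℕ) : ℕ := (3 * Tn R n) ^ R * (16 * la n * wn R D n)

/-- AS1: the sizes. -/
def T_AS1 : Prop := ∀ R D : ℕ, 1 ≤ R → 2 ≤ D → ∃ n₀ : ℕ, ∀ n ≥ n₀,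
  2 ^ (R + 5) ≤ Tn R n ∧ (Tn R n : ℝ) ≤ (n : ℝ) ^ (1 / ((R : ℝ) + 5)) ∧
  (n : ℝ) ^ (1 / ((R : ℝ) + 5)) ≤ 2 * Tn R n ∧ 1 ≤ la n ∧ (la n : ℝ) ≤ 2 * Real.log n ∧
  2 * D * Nn R D n ≤ n ∧ n ≤ 4 * D * Nn R D n ∧ (3 * Tn R n) ^ 4 ≤ 16 * la n * wn R D n ∧
  (n : ℝ) ^ (3 / ((R : ℝ) + 5)) ≤ wn R D n ∧ Nn R D n ^ 12 ≤ Tn R n ^ (12 * (R + 6))

/-- AS2: a small power of `n`. -/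
def T_AS2 : Prop := ∀ (R : ℕ) (δ η C : ℝ), 1 ≤ R → 0 < η → η * (3 * R + 4) < 1 / ((R : ℝ) + 5) →
  5 / ((R : ℝ) + 5) + 4 * R * η < δ → 0 < C → ∃ n₀ : ℕ, ∀ n ≥ n₀,
  ∀ U : ℕ, U = ⌊(n : ℝ) ^ η⌋₊ →
  C * (Real.log n + 1) ^ 2 * (n : ℝ) ^ (η / 2) ≤ U ∧ (U : ℝ) ≤ (n : ℝ) ^ η ∧
  C * (U : ℝ) ^ (3 * R + 4) ≤ Tn R n ∧ (n : ℝ) ^ (1 - δ) * (U : ℝ) ^ (4 * R) ≤ (Tn R n : ℝ) ^ R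

/-- ASY: all numbers. -/
def T_ASY : Prop := ∀ (R : ℕ) (δ c₀ : ℝ) (K0 cp : ℕ), 1 ≤ R → 0 < δ → δ ≤ 1 → 10 ≤ δ * R →
  0 < c₀ → 12 * (R + 6) = K0 → 1 ≤ cp → ∃ th : ℕ → ℕ, th 0 = 0 ∧ StrictMono th ∧
  ∀ N₁ : ℕ, ∃ n₀ : ℕ, ∀ n ≥ n₀, ∃ (T M w U a b : ℕ) (h : ℕ → ℕ),
  5 ≤ T ∧ 2 ≤ M ∧ N₁ ≤ w ∧ 1 ≤ w ∧
  2 * (th R + 2) * ((3 * T) ^ R * (M * w)) ≤ n ∧ n ≤ 4 * (th R + 2) * ((3 * T) ^ R * (M * w)) ∧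
  (3 * T) ^ 4 ≤ M * w ∧ ((3 * T) ^ R * (M * w)) ^ 12 ≤ T ^ K0 ∧
  (n : ℝ) ^ (1 - δ) * (U : ℝ) ^ (4 * R) ≤ (T : ℝ) ^ R ∧ 1 ≤ (n : ℝ) ^ (1 - δ) ∧
  64 * (Real.log (((3 * T) ^ R * (M * w) : ℕ) : ℝ) + 1) ^ 2 ≤ U ∧
  (∀ t < R, 1 ≤ h t) ∧
  (∀ t < R, 10 ^ 6 * (th R + 2) ^ 2 * (R + 2) * (h t + 1) ≤ U) ∧
  10 ^ 6 * (th R + 2) ^ 2 * (R + 2) * (K0 + 2) * U ^ (3 * R + 4) ≤ T ∧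
  M * 5 ^ (2 * ((K0 + 2) * (2 * h (R - 1) + 3))) ≤ U ∧
  (∀ t < R, (2 * (th R + 2 - th (t + 1)) + 1) ^ h t ≤ U) ∧
  (∀ t < R, (((th R + 2 - th (t + 1) : ℕ) : ℝ) / (th R + 2 - th t - 1 : ℕ)) ^ h t ≤
    ((((3 * T) ^ R * (M * w) : ℕ) : ℝ) ^ cp)⁻¹) ∧
  2 * ((K0 + 2) * (2 * h (R - 1) + 3) + h (R - 1) + 1) + 1 ≤ ⌊c₀ * Real.log w⌋₊ ∧
  4 * h (R - 1) + 10 ≤ ⌊c₀ * Real.log w⌋₊ ∧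
  a % 2 = 0 ∧ b % 2 = 0 ∧ a ≤ b ∧ b < M ∧ M = 4 * ((b - a) / 2) ∧
  (K0 + 2) * (2 * h (R - 1) + 3) + h (R - 1) + 1 ≤ a ∧
  b + ((K0 + 2) * (2 * h (R - 1) + 3) + h (R - 1) + 1) < M

end

end Pool.Agent.AcyAd
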