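import Pool.Agent.AcyAd.Targets1

/-!
# MP_08c6cd_lc, fully adaptive testers: the answer in a random class is uniform
-/

namespace Pool.Agent.AcyAd

open scoped Classical

noncomputable section

namespace UNA_

variable {S : Sys} {F : Fx S}

theorem wext (w w' : World S) (h1 : w.lam = w'.lam) (h2 : w.rk = w'.rk)
    (h3 : ∀ κ, w.mu κ = w'.mu κ) : w = w' := by
  rcases w with ⟨l, r, m⟩
  rcases w' with ⟨l', r', m'⟩
  simp only at h1 h2 h3
  have : m = m' := funext h3
  subst h1 h2 this
  rfl

/-- The world with the answers in the class `κ` permuted. -/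
def twk (w : World S) (κ : S.K) : (b : Bool) → Equiv.Perm (S.Cl (!b) κ) → World S
  | true, τ => ⟨w.lam, w.rk, Function.update w.mu κ ((w.mu κ).trans τ)⟩
  | false, τ => ⟨w.lam, w.rk, Function.update w.mu κ ((Equiv.symm τ).trans (w.mu κ))⟩

theorem twk_plc (w : World S) (κ : S.K) (b : Bool) (τ : Equiv.Perm (S.Cl (!b) κ)) (c : Bool)
    (a : S.Sl) : (twk w κ b τ).plc c a = w.plc c a := by
  cases b <;> rfl

theorem twk_unplc (w : World S) (κ : S.K) (b : Bool) (τ : Equiv.Perm (S.Cl (!b) κ)) (c : Bool)
    (a : S.Sl) : (twk w κ b τ).unplc c a = w.unplc c a := by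
  cases b <;> rfl

theorem twk_inj (κ : S.K) (b : Bool) (τ : Equiv.Perm (S.Cl (!b) κ)) :
    Function.Injective fun w : World S => twk w κ b τ := by
  intro w w' h
  cases b
  · have h0 : twk w κ false τ = twk w' κ false τ := h
    refine wext w w' ?_ ?_ ?_
    · show (twk w κ false τ).lam = (twk w' κ false τ).lam
      rw [h0]
    · show (twk w κ false τ).rk = (twk w' κ false τ).rk
      rw [h0]
    · intro κ'
      have h1 := congrFun (congrArg World.mu h) κ'
      simp only [twk] at h1
      by_cases hk : κ' = κ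
      · subst hk
        rw [Function.update_self, Function.update_self] at h1
        refine Equiv.ext fun y => ?_
        have h2 := DFunLike.congr_fun h1 (τ y)
        simpa using h2
      · rwa [Function.update_of_ne hk, Function.update_of_ne hk] at h1
  · have h0 : twk w κ true τ = twk w' κ true τ := h
    refine wext w w' ?_ ?_ ?_
    · show (twk w κ true τ).lam = (twk w' κ true τ).lam
      rw [h0]
    · show (twk w κ true τ).rk = (twk w' κ true τ).rk
      rw [h0]
    · intro κ'
      have h1 := congrFun (congrArg World.mu h) κ'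
      simp only [twk] at h1
      by_cases hk : κ' = κ
      · subst hk
        rw [Function.update_self, Function.update_self] at h1
        refine Equiv.ext fun y => ?_
        have h2 := DFunLike.congr_fun h1 y
        exact τ.injective h2
      · rwa [Function.update_of_ne hk, Function.update_of_ne hk] at h1

theorem twk_mt_b (w : World S) (κ : S.K) (b : Bool) (τ : Equiv.Perm (S.Cl (!b) κ)) {y : S.Sl}
    {z : S.Cl (!b) κ} (h : w.mt F b y = some z.1) : (twk w κ b τ).mt F b y = some (τ z).1 := by
  have hc : S.cc b y = some κ := by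
    rw [← w.mt_cc h]
    exact z.2
  cases b
  · rw [w.mt_false hc] at h
    have h2 : (w.mu κ).symm ⟨y, hc⟩ = z := Subtype.ext (Option.some.inj h)
    rw [World.mt_false _ hc]
    have h3 : (twk w κ false τ).mu κ = (Equiv.symm τ).trans (w.mu κ) := by
      simp only [twk, Function.update_self]
    rw [h3, ← h2]
    rfl
  · rw [w.mt_true hc] at h
    have h2 : (w.mu κ) ⟨y, hc⟩ = z := Subtype.ext (Option.some.inj h)
    rw [World.mt_true _ hc]
    have h3 : (twk w κ true τ).mu κ = (w.mu κ).trans τ := by
      simp only [twk, Function.update_self]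
    rw [h3, ← h2]
    rfl

theorem twk_mt_nb (w : World S) (κ : S.K) (b : Bool) (τ : Equiv.Perm (S.Cl (!b) κ))
    (z : S.Cl (!b) κ) : (twk w κ b τ).mt F (!b) (τ z).1 = w.mt F (!b) z.1 := by
  cases b
  · show (twk w κ false τ).mt F true (τ z).1 = w.mt F true z.1
    rw [World.mt_true _ (τ z).2, World.mt_true _ z.2]
    have h3 : (twk w κ false τ).mu κ = (Equiv.symm τ).trans (w.mu κ) := by
      simp only [twk, Function.update_self]
    rw [h3]
    simp
  · show (twk w κ true τ).mt F false (τ z).1 = w.mt F false z.1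
    rw [World.mt_false _ (τ z).2, World.mt_false _ z.2]
    have h3 : (twk w κ true τ).mu κ = (w.mu κ).trans τ := by
      simp only [twk, Function.update_self]
    rw [h3]
    simp

theorem twk_mt_ne (w : World S) (κ : S.K) (b : Bool) (τ : Equiv.Perm (S.Cl (!b) κ)) {c : Bool}
    {y : S.Sl} (h : S.cc c y ≠ some κ) : (twk w κ b τ).mt F c y = w.mt F c y := by
  rcases hc : S.cc c y with _ | κ'
  · rw [World.mt_none _ hc, World.mt_none _ hc]
  · have hk : κ' ≠ κ := fun h' => h (by rw [hc, h'])
    have h3 : (twk w κ b τ).mu κ' = w.mu κ' := by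
      cases b <;> simp only [twk, Function.update_of_ne hk]
    cases c
    · rw [World.mt_false _ hc, World.mt_false _ hc, h3]
    · rw [World.mt_true _ hc, World.mt_true _ hc, h3]

theorem mt_some (w : World S) {b : Bool} {y : S.Sl} {κ : S.K} (h : S.cc b y = some κ) :
    ∃ z : S.Cl (!b) κ, w.mt F b y = some z.1 := by
  cases b
  · exact ⟨_, w.mt_false h⟩
  · exact ⟨_, w.mt_true h⟩

/-- The slots of the class `κ` used by an entry. -/
def ne1 (b : Bool) (κ : S.K) (e : En S) : Set (S.Cl (!b) κ) :=
  {z | (e.b = (!b) ∧ e.p = z.1) ∨ (e.b = b ∧ ∃ y, e.r = some y ∧ y.2 = z.1)}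

/-- The slots of the class `κ` used by a log. -/
def bd (b : Bool) (κ : S.K) (L : List (En S)) : Set (S.Cl (!b) κ) :=
  {z | ∃ e ∈ L, z ∈ ne1 b κ e}

theorem bd_mono {b : Bool} {κ : S.K} {L L' : List (En S)} (h : ∀ e ∈ L, e ∈ L') :
    bd b κ L ⊆ bd b κ L' := by
  rintro z ⟨e, he, hz⟩
  exact ⟨e, h e he, hz⟩

theorem bd_cons (b : Bool) (κ : S.K) (e : En S) (L : List (En S)) :
    bd b κ (e :: L) = ne1 b κ e ∪ bd b κ L := by
  ext z
  simp only [bd, List.mem_cons, Set.mem_ofPred_eq, Set.mem_union]
  constructor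
  · rintro ⟨e', rfl | he, hz⟩
    · exact Or.inl hz
    · exact Or.inr ⟨e', he, hz⟩
  · rintro (hz | ⟨e', he, hz⟩)
    · exact ⟨e, Or.inl rfl, hz⟩
    · exact ⟨e', Or.inr he, hz⟩

theorem ne1_sub (b : Bool) (κ : S.K) (e : En S) : (ne1 b κ e).Subsingleton := by
  intro z hz z' hz'
  rcases hz with ⟨h1, h2⟩ | ⟨h1, y, h2, h3⟩
  · rcases hz' with ⟨h1', h2'⟩ | ⟨h1', _⟩
    · exact Subtype.ext (h2.symm.trans h2')
    · rw [h1] at h1'
      cases b <;> cases h1'
  · rcases hz' with ⟨h1', h2'⟩ | ⟨h1', y', h2', h3'⟩
    · rw [h1] at h1'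
      cases b <;> cases h1'
    · rw [h2] at h2'
      have : y = y' := Option.some.inj h2'
      subst this
      exact Subtype.ext (h3.symm.trans h3')

theorem bne {b c : Bool} (h : c ≠ b) : c = !b := by
  revert h
  cases b <;> cases c <;> simp

theorem run_twk (σ : Player S) (w : World S) (k : ℕ) (b : Bool) (κ : S.K)
    (τ : Equiv.Perm (S.Cl (!b) κ)) (hτ : ∀ z ∈ bd b κ (run F σ w k), τ z = z) :
    run F σ (twk w κ b τ) k = run F σ w k := by
  suffices h : ∀ j ≤ k, run F σ (twk w κ b τ) j = run F σ w j from h k le_rfl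
  intro j
  induction j with
  | zero => intro _; rfl
  | succ j ih =>
    intro hj
    have ih' := ih (by omega)
    simp only [run]
    rw [ih']
    congr 1
    have hmem : nxt F w (σ ((run F σ w j).map En.ans)) ∈ run F σ w k :=
      (run_suffix (F := F) σ w hj).subset (by simp [run])
    generalize σ ((run F σ w j).map En.ans) = q at hmem
    have key : (twk w κ b τ).mt F q.1 (w.plc q.1 q.2) = w.mt F q.1 (w.plc q.1 q.2) := by
      by_cases hc : S.cc q.1 (w.plc q.1 q.2) = some κ
      · by_cases hb : q.1 = b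
        · subst hb
          obtain ⟨z, hz⟩ := mt_some (F := F) w hc
          have h1 := twk_mt_b w κ q.1 τ hz
          rw [h1, hz, hτ z]
          refine ⟨_, hmem, Or.inr ⟨rfl, (w.unplc (!q.1) z.1, z.1), ?_, rfl⟩⟩
          simp only [nxt, hz, Option.map_some]
        · have hb' := bne hb
          have hc' : S.cc (!b) (w.plc q.1 q.2) = some κ := by
            rw [← hb']; exact hc
          have h1 := twk_mt_nb (F := F) w κ b τ ⟨w.plc q.1 q.2, hc'⟩
          rw [hτ ⟨w.plc q.1 q.2, hc'⟩ ⟨_, hmem, Or.inl ⟨hb', rfl⟩⟩] at h1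
          simp only at h1
          rw [hb']
          rw [hb'] at h1
          exact h1
      · exact twk_mt_ne w κ b τ hc
    have hu : ∀ c y, (twk w κ b τ).unplc c y = w.unplc c y := twk_unplc w κ b τ
    simp only [nxt, twk_plc, key, hu]

/-- An answer in a new place. -/
theorem not_bd (σ : Player S) (w : World S) (k : ℕ) {b : Bool} {κ : S.K} {a p : S.Sl}
    (ha : a ∉ known b (run F σ w k)) (hp : w.plc b a = p) {z : S.Cl (!b) κ}
    (hz : w.mt F b p = some z.1) : z ∉ bd b κ (run F σ w k) := by
  rintro ⟨e, he, h⟩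
  apply ha
  rw [mem_known]
  refine ⟨e, he, ?_⟩
  obtain ⟨e1, e2⟩ := run_mem σ w he
  have hz' := w.mt_inv hz
  rcases h with ⟨h1, h2⟩ | ⟨h1, y, h2, h3⟩
  · right
    refine ⟨?_, (a, p), ?_, rfl⟩
    · rw [h1]; cases b <;> simp
    · rw [e2, h1, h2, hz']
      simp only [Option.map_some, Bool.not_not]
      rw [← hp, w.unplc_plc]
  · left
    refine ⟨h1, ?_⟩
    obtain ⟨f1, f2, f3⟩ := run_r σ w he h2
    rw [h3] at f1
    have f4 := w.mt_inv f1
    rw [h1, hz'] at f4
    have f5 := Option.some.inj f4
    rw [← hp, e1, h1] at f5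
    exact (w.plc_inj b f5).symm

/-- The number of used slots. -/
theorem card_bd (σ : Player S) (w : World S) (b : Bool) (κ : S.K) (k : ℕ) :
    (bd b κ (run F σ w k)).ncard ≤ ncl κ (run F σ w k) := by
  induction k with
  | zero =>
    have : bd b κ (run F σ w 0) = ∅ := by
      ext z
      simp [bd, run]
    rw [this]
    simp
  | succ k ih =>
    have hmem : nxt F w (σ ((run F σ w k).map En.ans)) ∈ run F σ w (k + 1) := by simp [run]
    show (bd b κ (nxt F w (σ ((run F σ w k).map En.ans)) :: run F σ w k)).ncard ≤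
      ncl κ (nxt F w (σ ((run F σ w k).map En.ans)) :: run F σ w k)
    generalize nxt F w (σ ((run F σ w k).map En.ans)) = e at *
    obtain ⟨e1, e2⟩ := run_mem σ w hmem
    have hrr : ∀ y, e.r = some y → w.mt F e.b e.p = some y.2 :=
      fun y hy => (run_r σ w hmem hy).1
    rw [bd_cons]
    simp only [ncl]
    by_cases hk : e.a ∈ known e.b (run F σ w k)
    · -- nothing new
      have hsub : ne1 b κ e ⊆ bd b κ (run F σ w k) := by
        intro z hz
        rw [mem_known] at hk
        obtain ⟨e', he', hk⟩ := hk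
        obtain ⟨f1, f2⟩ := run_mem σ w he'
        rcases hk with ⟨g1, g2⟩ | ⟨g1, y', g2, g3⟩
        · -- same question
          have hp : e'.p = e.p := by rw [f1, e1, g1, g2]
          have hr : e'.r = e.r := by rw [f2, e2, g1, hp]
          refine ⟨e', he', ?_⟩
          unfold ne1 at hz ⊢
          rcases hz with ⟨h1, h2⟩ | ⟨h1, h2⟩
          · exact Or.inl ⟨by rw [g1, h1], by rw [hp, h2]⟩
          · exact Or.inr ⟨by rw [g1, h1], by rw [hr]; exact h2⟩
        · have g4 : e'.b = !e.b := bne g1
          obtain ⟨m1, m2, m3⟩ := run_r σ w he' g2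
          have m4 : y'.2 = e.p := by
            rw [m2, g3, g4, Bool.not_not, e1]
          have m5 : w.mt F e.b e.p = some e'.p := by
            have := w.mt_inv m1
            rw [g4, Bool.not_not, m4] at this
            exact this
          refine ⟨e', he', ?_⟩
          rcases hz with ⟨h1, h2⟩ | ⟨h1, y, h2, h3⟩
          · right
            refine ⟨by rw [g4, h1, Bool.not_not], y', g2, ?_⟩
            rw [m4, h2]
          · left
            refine ⟨by rw [g4, h1], ?_⟩
            have := hrr y h2
            rw [m5, h3] at this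
            exact Option.some.inj this
      rw [Set.union_eq_self_of_subset_left hsub, if_neg (fun h => h.1 hk)]
      exact ih
    · by_cases hc : S.cc e.b e.p = some κ
      · rw [if_pos ⟨hk, hc⟩]
        have h1 := Set.ncard_union_le (ne1 b κ e) (bd b κ (run F σ w k))
        have h2 : (ne1 b κ e).ncard ≤ 1 :=
          (Set.ncard_le_one (Set.toFinite _)).2 fun z hz z' hz' => ne1_sub b κ e hz hz'
        omega
      · have hem : ne1 b κ e = ∅ := by
          rw [Set.eq_empty_iff_forall_notMem]
          intro z hz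
          apply hc
          rcases hz with ⟨h1, h2⟩ | ⟨h1, y, h2, h3⟩
          · rw [h1, h2]
            exact z.2
          · have := w.mt_cc (hrr y h2)
            rw [← this, h1, h3]
            exact z.2
        rw [hem, Set.empty_union, if_neg (fun h => hc h.2)]
        exact ih

theorem card_cl (b : Bool) (κ : S.K) : Fintype.card (S.Cl b κ) = S.N κ := by
  unfold Sys.N
  cases b
  · rw [S.card_cc κ, Nat.card_eq_fintype_card]
  · rw [Nat.card_eq_fintype_card]

end UNA_

open UNA_ in
/-- The answer in a random class is uniform. -/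
theorem tUNA : T_UNA := by
  intro S F σ k L b a p κ Z ha hp
  let _ : Fintype (World S) := Fintype.ofFinite _
  by_cases hE : ∃ w : World S, run F σ w k = L ∧ w.plc b a = p
  swap
  · have : IsEmpty {w : World S // run F σ w k = L ∧ w.plc b a = p ∧
        ∃ y ∈ Z, w.mt F b p = some y} :=
      ⟨fun w => hE ⟨w.1, w.2.1, w.2.2.1⟩⟩
    rw [Nat.card_of_isEmpty]
    omega
  obtain ⟨w0, hw0, hw0'⟩ := hE
  let A : S.Cl (!b) κ → Finset (World S) := fun z => Finset.univ.filter fun w =>
    run F σ w k = L ∧ w.plc b a = p ∧ w.mt F b p = some z.1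
  let E : Finset (World S) := Finset.univ.filter fun w => run F σ w k = L ∧ w.plc b a = p
  have hA : ∀ z w, w ∈ A z ↔ run F σ w k = L ∧ w.plc b a = p ∧ w.mt F b p = some z.1 := by
    intro z w
    simp only [A, Finset.mem_filter, Finset.mem_univ, true_and]
  have hbad : ∀ z ∈ bd b κ L, A z = ∅ := by
    intro z hz
    rw [Finset.eq_empty_iff_forall_notMem]
    intro w hw
    rw [hA] at hw
    obtain ⟨h1, h2, h3⟩ := hw
    subst h1
    exact not_bd σ w k ha h2 h3 hz
  have hfree : ∀ z z', z ∉ bd b κ L → z' ∉ bd b κ L → (A z).card ≤ (A z').card := by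
    intro z z' hz hz'
    refine Finset.card_le_card_of_injOn (fun w => twk w κ b (Equiv.swap z z')) ?_
      ((twk_inj κ b _).injOn)
    intro w hw
    rw [Finset.mem_coe, hA] at hw
    obtain ⟨h1, h2, h3⟩ := hw
    rw [Finset.mem_coe, hA]
    refine ⟨?_, ?_, ?_⟩
    · rw [run_twk, h1]
      intro x hx
      rw [h1] at hx
      refine Equiv.swap_apply_of_ne_of_ne ?_ ?_
      · rintro rfl; exact hz hx
      · rintro rfl; exact hz' hx
    · rw [twk_plc, h2]
    · have := twk_mt_b w κ b (Equiv.swap z z') h3
      rw [this, Equiv.swap_apply_left]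
  let fr : Finset (S.Cl (!b) κ) := Finset.univ.filter fun z => z ∉ bd b κ L
  have hfc : S.N κ - ncl κ L ≤ fr.card := by
    have h1 := card_bd (F := F) σ w0 b κ k
    rw [hw0] at h1
    have h2 : fr.card + (Finset.univ.filter fun z : S.Cl (!b) κ => z ∈ bd b κ L).card =
        Fintype.card (S.Cl (!b) κ) := by
      rw [← Finset.card_univ, add_comm]
      exact Finset.card_filter_add_card_filter_not _
    rw [card_cl] at h2
    have h3 : (Finset.univ.filter fun z : S.Cl (!b) κ => z ∈ bd b κ L).card =
        (bd b κ L).ncard := by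
      rw [Set.ncard_eq_toFinset_card']
      congr 1
      ext z
      simp
    omega
  have hAE : ∀ z, A z ⊆ E := by
    intro z w hw
    rw [hA] at hw
    simp only [E, Finset.mem_filter, Finset.mem_univ, true_and]
    exact ⟨hw.1, hw.2.1⟩
  have hsum : ∀ z0, (A z0).card * fr.card ≤ E.card := by
    intro z0
    by_cases hz0 : z0 ∈ bd b κ L
    · rw [hbad z0 hz0]; simp
    · have h1 : (fr.biUnion A).card = ∑ z ∈ fr, (A z).card := by
        refine Finset.card_biUnion ?_
        intro z _ z' _ hzz
        rw [Function.onFun, Finset.disjoint_left]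
        intro w hw hw'
        rw [hA] at hw hw'
        apply hzz
        have := hw.2.2.symm.trans hw'.2.2
        exact Subtype.ext (Option.some.inj this)
      have h2 : (fr.biUnion A).card ≤ E.card := by
        refine Finset.card_le_card ?_
        intro w hw
        rw [Finset.mem_biUnion] at hw
        obtain ⟨z, _, hw⟩ := hw
        exact hAE z hw
      have h3 : (A z0).card * fr.card ≤ ∑ z ∈ fr, (A z).card := by
        rw [mul_comm, ← smul_eq_mul, ← Finset.sum_const]
        refine Finset.sum_le_sum fun z hz => ?_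
        simp only [fr, Finset.mem_filter, Finset.mem_univ, true_and] at hz
        exact hfree z0 z hz0 hz
      omega
  let FZ : Finset (S.Cl (!b) κ) := Finset.univ.filter fun z => z.1 ∈ Z
  have hFZ : FZ.card ≤ Z.card := by
    refine Finset.card_le_card_of_injOn (fun z => z.1) ?_ Subtype.val_injective.injOn
    intro z hz
    rw [Finset.mem_coe] at hz
    simp only [FZ, Finset.mem_filter, Finset.mem_univ, true_and] at hz
    exact hz
  have hL : Nat.card {w : World S // run F σ w k = L ∧ w.plc b a = p ∧
      ∃ y ∈ Z, w.mt F b p = some y} ≤ ∑ z ∈ FZ, (A z).card := by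
    rw [Nat.card_eq_fintype_card, Fintype.card_subtype]
    refine le_trans (Finset.card_le_card ?_) Finset.card_biUnion_le
    intro w hw
    simp only [Finset.mem_filter, Finset.mem_univ, true_and] at hw
    obtain ⟨h1, h2, y, hy, h3⟩ := hw
    rw [Finset.mem_biUnion]
    obtain ⟨z, hz⟩ := mt_some (F := F) w hp
    have hzy : z.1 = y := by
      rw [h3] at hz
      exact (Option.some.inj hz).symm
    refine ⟨z, ?_, ?_⟩
    · simp only [FZ, Finset.mem_filter, Finset.mem_univ, true_and]
      rw [hzy]; exact hy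
    · rw [hA]
      exact ⟨h1, h2, hz⟩
  have hR : Nat.card {w : World S // run F σ w k = L ∧ w.plc b a = p} = E.card := by
    rw [Nat.card_eq_fintype_card, Fintype.card_subtype]
  rw [hR]
  calc Nat.card {w : World S // run F σ w k = L ∧ w.plc b a = p ∧
      ∃ y ∈ Z, w.mt F b p = some y} * (S.N κ - ncl κ L)
      ≤ (∑ z ∈ FZ, (A z).card) * fr.card := Nat.mul_le_mul hL hfc
    _ = ∑ z ∈ FZ, (A z).card * fr.card := Finset.sum_mul _ _ _
    _ ≤ ∑ z ∈ FZ, E.card := Finset.sum_le_sum fun z _ => hsum z
    _ = FZ.card * E.card := by rw [Finset.sum_const, smul_eq_mul]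
    _ ≤ Z.card * E.card := Nat.mul_le_mul_right _ hFZ

end

end Pool.Agent.AcyAd
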